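import Pool.Agent.Helper9.QN.Defs

set_option autoImplicit false
set_option maxHeartbeats 1000000

namespace Pool.QN

section
/-! Pairs of quaternionic hermitian forms.  A right quaternionic space is a module over `Q`, the
opposite of the quaternions.  A quaternionic hermitian form `h` is represented by its real part
`b x y = Re h x y`, a real bilinear symmetric form with `b (q • x) y = b x (star q • y)`.
Subspaces are `Submodule Q V`, dimension is `Module.finrank Q`. -/
open scoped Quaternion
variable {V : Type} [AddCommGroup V] [Module Q V] [Module ℝ V] [IsScalarTower ℝ Q V]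


theorem isF_add {b a : BF V} (hb : IsF b) (ha : IsF a) : IsF (b + a) := by
  constructor
  · intro x y
    show b x y + a x y = b y x + a y x
    rw [hb.symm x y, ha.symm x y]
  · intro q x y
    show b (q • x) y + a (q • x) y = b x (star q • y) + a x (star q • y)
    rw [hb.adj q x y, ha.adj q x y]
end

section
/-! Pairs of quaternionic hermitian forms.  A right quaternionic space is a module over `Q`, the
opposite of the quaternions.  A quaternionic hermitian form `h` is represented by its real part
`b x y = Re h x y`, a real bilinear symmetric form with `b (q • x) y = b x (star q • y)`.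
Subspaces are `Submodule Q V`, dimension is `Module.finrank Q`. -/
open scoped Quaternion
variable {V : Type} [AddCommGroup V] [Module Q V] [Module ℝ V] [IsScalarTower ℝ Q V]


theorem isF_smul {b : BF V} (hb : IsF b) (c : ℝ) : IsF (c • b) := by
  constructor
  · intro x y
    simp only [LinearMap.smul_apply]
    rw [hb.symm x y]
  · intro q x y
    simp only [LinearMap.smul_apply]
    rw [hb.adj q x y]
end

section
/-! Pairs of quaternionic hermitian forms.  A right quaternionic space is a module over `Q`, the
opposite of the quaternions.  A quaternionic hermitian form `h` is represented by its real part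
`b x y = Re h x y`, a real bilinear symmetric form with `b (q • x) y = b x (star q • y)`.
Subspaces are `Submodule Q V`, dimension is `Module.finrank Q`. -/
open scoped Quaternion
variable {V : Type} [AddCommGroup V] [Module Q V] [Module ℝ V] [IsScalarTower ℝ Q V]


theorem isF_neg {b : BF V} (hb : IsF b) : IsF (-b) := by
  constructor
  · intro x y
    show -(b x y) = -(b y x)
    rw [hb.symm]
  · intro q x y
    show -(b (q • x) y) = -(b x (star q • y))
    rw [hb.adj]
end

section
/-! Pairs of quaternionic hermitian forms.  A right quaternionic space is a module over `Q`, the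
opposite of the quaternions.  A quaternionic hermitian form `h` is represented by its real part
`b x y = Re h x y`, a real bilinear symmetric form with `b (q • x) y = b x (star q • y)`.
Subspaces are `Submodule Q V`, dimension is `Module.finrank Q`. -/
open scoped Quaternion
variable {V : Type} [AddCommGroup V] [Module Q V] [Module ℝ V] [IsScalarTower ℝ Q V]


theorem isF_tw_app (b : BF V) (X : V →ₗ[Q] V) (x y : V) : tw b X x y = b x (X y) := rfl

/-- `tw b X` is a form when `X` is selfadjoint -/
theorem isF_tw {b : BF V} (hb : IsF b) {X : V →ₗ[Q] V} (hX : SA b X) : IsF (tw b X) := by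
  refine ⟨?_, ?_⟩
  · intro x y
    rw [isF_tw_app, isF_tw_app, ← hX x y, hb.symm]
  · intro q x y
    rw [isF_tw_app, isF_tw_app, hb.adj, LinearMap.map_smul X]
end

section
/-! Pairs of quaternionic hermitian forms.  A right quaternionic space is a module over `Q`, the
opposite of the quaternions.  A quaternionic hermitian form `h` is represented by its real part
`b x y = Re h x y`, a real bilinear symmetric form with `b (q • x) y = b x (star q • y)`.
Subspaces are `Submodule Q V`, dimension is `Module.finrank Q`. -/
open scoped Quaternion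
variable {V : Type} [AddCommGroup V] [Module Q V] [Module ℝ V] [IsScalarTower ℝ Q V]


theorem isF_tt {b : BF V} (hb : IsF b) (X : V →ₗ[Q] V) : IsF (tt b X) := by
  have h : ∀ x y, tt b X x y = b (X x) (X y) := fun x y => rfl
  refine ⟨fun x y => ?_, fun q x y => ?_⟩
  · rw [h, h, hb.symm]
  · rw [h, h, LinearMap.map_smul X, LinearMap.map_smul X, hb.adj]
end

section
/-! Pairs of quaternionic hermitian forms.  A right quaternionic space is a module over `Q`, the
opposite of the quaternions.  A quaternionic hermitian form `h` is represented by its real part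
`b x y = Re h x y`, a real bilinear symmetric form with `b (q • x) y = b x (star q • y)`.
Subspaces are `Submodule Q V`, dimension is `Module.finrank Q`. -/
open scoped Quaternion
variable {V : Type} [AddCommGroup V] [Module Q V] [Module ℝ V] [IsScalarTower ℝ Q V]


theorem isF_rs {b : BF V} (hb : IsF b) (W : Submodule Q V) : IsF (rs b W) := by
  have h : ∀ x y : W, rs b W x y = b (x : V) (y : V) := fun x y => rfl
  refine ⟨fun x y => ?_, fun q x y => ?_⟩
  · rw [h, h, hb.symm]
  · rw [h, h, Submodule.coe_smul, Submodule.coe_smul, hb.adj]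
end

section
/-! Pairs of quaternionic hermitian forms.  A right quaternionic space is a module over `Q`, the
opposite of the quaternions.  A quaternionic hermitian form `h` is represented by its real part
`b x y = Re h x y`, a real bilinear symmetric form with `b (q • x) y = b x (star q • y)`.
Subspaces are `Submodule Q V`, dimension is `Module.finrank Q`. -/
open scoped Quaternion
variable {V : Type} [AddCommGroup V] [Module Q V] [Module ℝ V] [IsScalarTower ℝ Q V]


/-- `b x (q • x) = Re q * b x x` and `b (q • x) (q • x) = |q|^2 b x x` -/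
theorem self_smul {b : BF V} (hb : IsF b) (x : V) (q : Q) :
    b x (q • x) = q.unop.re * b x x ∧ b (q • x) (q • x) = Quaternion.normSq q.unop * b x x := by
  have h1 : q + star q = (2 * q.unop.re) • (1 : Q) := by
    apply MulOpposite.unop_injective
    rw [MulOpposite.unop_add, MulOpposite.unop_star, MulOpposite.unop_smul, MulOpposite.unop_one]
    ext <;> simp <;> ring
  have h2 : star q * q = (Quaternion.normSq q.unop) • (1 : Q) := by
    apply MulOpposite.unop_injective
    rw [MulOpposite.unop_mul, MulOpposite.unop_star, MulOpposite.unop_smul, MulOpposite.unop_one,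
      Quaternion.self_mul_star]
    ext <;> simp
  constructor
  · have e1 : b x (q • x) = b x (star q • x) := by
      rw [hb.symm x (q • x), hb.adj]
    have e2 : b x (q • x) + b x (star q • x) = 2 * q.unop.re * b x x := by
      rw [← map_add, ← add_smul, h1, smul_assoc, one_smul, map_smul, smul_eq_mul]
    linarith
  · rw [hb.adj, smul_smul, h2, smul_assoc, one_smul, map_smul, smul_eq_mul]
end

section
/-! Pairs of quaternionic hermitian forms.  A right quaternionic space is a module over `Q`, the
opposite of the quaternions.  A quaternionic hermitian form `h` is represented by its real part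
`b x y = Re h x y`, a real bilinear symmetric form with `b (q • x) y = b x (star q • y)`.
Subspaces are `Submodule Q V`, dimension is `Module.finrank Q`. -/
open scoped Quaternion
variable {V : Type} [AddCommGroup V] [Module Q V] [Module ℝ V] [IsScalarTower ℝ Q V]


theorem exists_neg [FiniteDimensional Q V] (b : BF V) (W : Submodule Q V) :
    ∃ U : Submodule Q V, U ≤ W ∧ NegOn b U ∧ Module.finrank Q U = nn b W := by
  have h1 : {k | ∃ U : Submodule Q V, U ≤ W ∧ NegOn b U ∧ Module.finrank Q U = k}.Nonempty := by
    refine ⟨0, ⊥, bot_le, ?_, finrank_bot Q V⟩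
    intro x hx hx0
    exact absurd ((Submodule.mem_bot Q).1 hx) hx0
  have h2 : BddAbove {k | ∃ U : Submodule Q V, U ≤ W ∧ NegOn b U ∧ Module.finrank Q U = k} := by
    refine ⟨Module.finrank Q V, ?_⟩
    rintro k ⟨U, _, _, rfl⟩
    exact Submodule.finrank_le U
  exact Nat.sSup_mem h1 h2
end

section
/-! Pairs of quaternionic hermitian forms.  A right quaternionic space is a module over `Q`, the
opposite of the quaternions.  A quaternionic hermitian form `h` is represented by its real part
`b x y = Re h x y`, a real bilinear symmetric form with `b (q • x) y = b x (star q • y)`.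
Subspaces are `Submodule Q V`, dimension is `Module.finrank Q`. -/
open scoped Quaternion
variable {V : Type} [AddCommGroup V] [Module Q V] [Module ℝ V] [IsScalarTower ℝ Q V]


theorem le_nn [FiniteDimensional Q V] (b : BF V) {U W : Submodule Q V} (hU : U ≤ W)
    (h : NegOn b U) : Module.finrank Q U ≤ nn b W := by
  unfold nn
  refine le_csSup ⟨Module.finrank Q V, ?_⟩ ⟨U, hU, h, rfl⟩
  rintro k ⟨U', -, -, rfl⟩
  exact Submodule.finrank_le U'
end

section
/-! Pairs of quaternionic hermitian forms.  A right quaternionic space is a module over `Q`, the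
opposite of the quaternions.  A quaternionic hermitian form `h` is represented by its real part
`b x y = Re h x y`, a real bilinear symmetric form with `b (q • x) y = b x (star q • y)`.
Subspaces are `Submodule Q V`, dimension is `Module.finrank Q`. -/
open scoped Quaternion
variable {V : Type} [AddCommGroup V] [Module Q V] [Module ℝ V] [IsScalarTower ℝ Q V]


theorem nn_mono [FiniteDimensional Q V] (b : BF V) {W W' : Submodule Q V} (h : W ≤ W') :
    nn b W ≤ nn b W' := by
  obtain ⟨U, hU, hneg, hdim⟩ := exists_neg b W
  rw [← hdim]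
  exact le_nn b (hU.trans h) hneg
end

section
/-! Pairs of quaternionic hermitian forms.  A right quaternionic space is a module over `Q`, the
opposite of the quaternions.  A quaternionic hermitian form `h` is represented by its real part
`b x y = Re h x y`, a real bilinear symmetric form with `b (q • x) y = b x (star q • y)`.
Subspaces are `Submodule Q V`, dimension is `Module.finrank Q`. -/
open scoped Quaternion
variable {V : Type} [AddCommGroup V] [Module Q V] [Module ℝ V] [IsScalarTower ℝ Q V]


theorem nn_add_le [FiniteDimensional Q V] (b : BF V) {P W : Submodule Q V} (hP : P ≤ W)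
    (h : NonnegOn b P) : nn b W + Module.finrank Q P ≤ Module.finrank Q W := by
  obtain ⟨U, hUW, hneg, hU⟩ := exists_neg b W
  have hinf : U ⊓ P = ⊥ := by
    rw [Submodule.eq_bot_iff]
    intro x hx
    by_contra hne
    have h1 := hneg x hx.1 hne
    have h2 := h x hx.2
    linarith
  have e := Submodule.finrank_sup_add_finrank_inf_eq U P
  rw [hinf, finrank_bot, add_zero] at e
  have hle : Module.finrank Q ↥(U ⊔ P) ≤ Module.finrank Q W :=
    Submodule.finrank_mono (sup_le hUW hP)
  omega
end

section
/-! Pairs of quaternionic hermitian forms.  A right quaternionic space is a module over `Q`, the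
opposite of the quaternions.  A quaternionic hermitian form `h` is represented by its real part
`b x y = Re h x y`, a real bilinear symmetric form with `b (q • x) y = b x (star q • y)`.
Subspaces are `Submodule Q V`, dimension is `Module.finrank Q`. -/
open scoped Quaternion
variable {V : Type} [AddCommGroup V] [Module Q V] [Module ℝ V] [IsScalarTower ℝ Q V]


/-- a subspace on which the form is nondegenerate is complemented by its orthogonal complement -/
theorem orth_compl [FiniteDimensional Q V] {b : BF V} (hb : IsF b) (U : Submodule Q V)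
    (hU : ∀ x ∈ U, (∀ y ∈ U, b x y = 0) → x = 0) : U ⊓ orth b hb U = ⊥ ∧ U ⊔ orth b hb U = ⊤ := by
  haveI hQ : Module.Finite ℝ Q := inferInstance
  haveI hfin : FiniteDimensional ℝ V := Module.Finite.trans Q V
  have hrefl : b.IsRefl := fun x y h => by rw [hb.symm]; exact h
  have hnd : (LinearMap.BilinForm.restrict b (U.restrictScalars ℝ)).Nondegenerate := by
    constructor
    · rintro ⟨x, hx⟩ h
      apply Subtype.ext
      apply hU x hx
      intro y hy
      exact h ⟨y, hy⟩
    · rintro ⟨x, hx⟩ h
      apply Subtype.ext
      apply hU x hx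
      intro y hy
      rw [hb.symm]
      exact h ⟨y, hy⟩
  have hc := LinearMap.BilinForm.isCompl_orthogonal_of_restrict_nondegenerate
    (B := b) (W := U.restrictScalars ℝ) hrefl hnd
  have horth : LinearMap.BilinForm.orthogonal b (U.restrictScalars ℝ) =
      (orth b hb U).restrictScalars ℝ := by
    ext y
    exact Iff.rfl
  constructor
  · rw [eq_bot_iff]
    intro x hx
    rw [Submodule.mem_bot]
    exact hU x hx.1 (fun y hy => by rw [hb.symm]; exact hx.2 y hy)
  · rw [eq_top_iff]
    intro x _
    have hx : x ∈ (U.restrictScalars ℝ) ⊔ (orth b hb U).restrictScalars ℝ := by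
      rw [← horth, hc.sup_eq_top]
      trivial
    obtain ⟨u, hu, v, hv, rfl⟩ := Submodule.mem_sup.1 hx
    exact Submodule.add_mem_sup hu hv
end

section
/-! Pairs of quaternionic hermitian forms.  A right quaternionic space is a module over `Q`, the
opposite of the quaternions.  A quaternionic hermitian form `h` is represented by its real part
`b x y = Re h x y`, a real bilinear symmetric form with `b (q • x) y = b x (star q • y)`.
Subspaces are `Submodule Q V`, dimension is `Module.finrank Q`. -/

open scoped Quaternion
variable {V : Type} [AddCommGroup V] [Module Q V] [Module ℝ V] [IsScalarTower ℝ Q V]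


/-- relative version inside `W` -/
theorem orth_compl_in [FiniteDimensional Q V] {b : BF V} (hb : IsF b) (U W : Submodule Q V)
    (hUW : U ≤ W) (hU : ∀ x ∈ U, (∀ y ∈ U, b x y = 0) → x = 0) :
    U ⊓ (W ⊓ orth b hb U) = ⊥ ∧ U ⊔ (W ⊓ orth b hb U) = W := by
  obtain ⟨h1, h2⟩ := orth_compl hb U hU
  constructor
  · rw [eq_bot_iff]
    intro x hx
    rw [← h1]
    exact ⟨hx.1, hx.2.2⟩
  · apply le_antisymm
    · exact sup_le hUW inf_le_left
    · intro w hw
      have hw' : w ∈ U ⊔ orth b hb U := by rw [h2]; trivial
      rw [Submodule.mem_sup] at hw' ⊢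
      obtain ⟨u, hu, v, hv, huv⟩ := hw'
      refine ⟨u, hu, v, ⟨?_, hv⟩, huv⟩
      have : v = w - u := by rw [← huv]; abel
      rw [this]
      exact W.sub_mem hw (hUW hu)

end

section
/-! Pairs of quaternionic hermitian forms.  A right quaternionic space is a module over `Q`, the
opposite of the quaternions.  A quaternionic hermitian form `h` is represented by its real part
`b x y = Re h x y`, a real bilinear symmetric form with `b (q • x) y = b x (star q • y)`.
Subspaces are `Submodule Q V`, dimension is `Module.finrank Q`. -/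
open scoped Quaternion
variable {V : Type} [AddCommGroup V] [Module Q V] [Module ℝ V] [IsScalarTower ℝ Q V]


theorem finQ849 : Module.finrank ℝ Q = 4 := by
  rw [← (MulOpposite.opLinearEquiv ℝ (M := ℍ[ℝ])).finrank_eq]
  exact Quaternion.finrank_eq_four

theorem rank4_849 (W : Type) [AddCommGroup W] [Module Q W] [Module ℝ W] [IsScalarTower ℝ Q W] :
    Module.finrank ℝ W = 4 * Module.finrank Q W := by
  rw [← Module.finrank_mul_finrank ℝ Q W, finQ849]

theorem finrank_orth_ge [FiniteDimensional Q V] {b : BF V} (hb : IsF b) (U : Submodule Q V) :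
    Module.finrank Q V ≤ Module.finrank Q U + Module.finrank Q (orth b hb U) := by
  haveI h1 : Module.Finite ℝ Q := Module.finite_of_finrank_pos (by rw [finQ849]; norm_num)
  haveI h2 : Module.Finite ℝ V := Module.Finite.trans Q V
  haveI h3 : Module.Finite ℝ U := Module.Finite.trans Q U
  let L : V →ₗ[ℝ] Module.Dual ℝ U :=
    { toFun := fun y => (b.flip y).comp (U.subtype.restrictScalars ℝ)
      map_add' := by
        intro y z
        ext x
        simp
      map_smul' := by
        intro c y
        ext x
        simp }
  have hL : ∀ (y : V) (x : U), L y x = b (x : V) y := fun y x => rfl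
  have hker : LinearMap.ker L = (orth b hb U).restrictScalars ℝ := by
    ext y
    rw [LinearMap.mem_ker, Submodule.restrictScalars_mem]
    constructor
    · intro hy x hx
      have := congrArg (fun f : Module.Dual ℝ U => f ⟨x, hx⟩) hy
      exact this
    · intro hy
      ext x
      exact hy x x.2
  have h4 := LinearMap.finrank_range_add_finrank_ker L
  have h5 : Module.finrank ℝ (LinearMap.range L) ≤ Module.finrank ℝ U := by
    refine (Submodule.finrank_le _).trans ?_
    rw [Subspace.dual_finrank_eq]
  have h6 : Module.finrank ℝ (LinearMap.ker L) = Module.finrank ℝ (orth b hb U) := by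
    rw [hker]
    rfl
  rw [h6, rank4_849 (orth b hb U), rank4_849 V] at h4
  rw [rank4_849 U] at h5
  omega
end

section
/-! Pairs of quaternionic hermitian forms.  A right quaternionic space is a module over `Q`, the
opposite of the quaternions.  A quaternionic hermitian form `h` is represented by its real part
`b x y = Re h x y`, a real bilinear symmetric form with `b (q • x) y = b x (star q • y)`.
Subspaces are `Submodule Q V`, dimension is `Module.finrank Q`. -/
open scoped Quaternion
variable {V : Type} [AddCommGroup V] [Module Q V] [Module ℝ V] [IsScalarTower ℝ Q V]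


theorem finrank_orth_finQ : Module.Finite ℝ Q :=
  Module.Finite.equiv (MulOpposite.opLinearEquiv ℝ)

theorem finrank_orth_four : Module.finrank ℝ Q = 4 := by
  rw [← (MulOpposite.opLinearEquiv ℝ : ℍ[ℝ] ≃ₗ[ℝ] Q).finrank_eq]
  exact Quaternion.finrank_eq_four

theorem finrank_orth_mul {W : Type} [AddCommGroup W] [Module Q W] [Module ℝ W]
    [IsScalarTower ℝ Q W] : Module.finrank ℝ W = 4 * Module.finrank Q W := by
  rw [← finrank_orth_four]
  exact (Module.finrank_mul_finrank ℝ Q W).symm

theorem finrank_orth [FiniteDimensional Q V] {b : BF V} (hb : IsF b) (hnd : Nd b)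
    (U : Submodule Q V) :
    Module.finrank Q U + Module.finrank Q (orth b hb U) = Module.finrank Q V := by
  have hfQ := finrank_orth_finQ
  have hfV : FiniteDimensional ℝ V := Module.Finite.trans Q V
  have hND : LinearMap.BilinForm.Nondegenerate b := by
    refine ⟨fun x hx => hnd x hx, fun y hy => hnd y fun x => ?_⟩
    rw [hb.symm]; exact hy x
  have h1 := LinearMap.BilinForm.finrank_orthogonal hND (U.restrictScalars ℝ)
  have h2 : (orth b hb U).restrictScalars ℝ =
      LinearMap.BilinForm.orthogonal b (U.restrictScalars ℝ) := by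
    ext y
    rw [Submodule.restrictScalars_mem, LinearMap.BilinForm.mem_orthogonal_iff]
    constructor
    · intro h x hx
      exact h x hx
    · intro h x hx
      exact h x hx
  have h3 : Module.finrank ℝ (U.restrictScalars ℝ) = 4 * Module.finrank Q U :=
    finrank_orth_mul (W := U)
  have h4 : Module.finrank ℝ ((orth b hb U).restrictScalars ℝ) =
      4 * Module.finrank Q (orth b hb U) := finrank_orth_mul (W := orth b hb U)
  have h5 : Module.finrank ℝ V = 4 * Module.finrank Q V := finrank_orth_mul (W := V)
  have h6 : Module.finrank ℝ (U.restrictScalars ℝ) ≤ Module.finrank ℝ V :=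
    Submodule.finrank_le _
  rw [← h2, h3, h4, h5] at h1
  rw [h3, h5] at h6
  omega
end

section
/-! Pairs of quaternionic hermitian forms.  A right quaternionic space is a module over `Q`, the
opposite of the quaternions.  A quaternionic hermitian form `h` is represented by its real part
`b x y = Re h x y`, a real bilinear symmetric form with `b (q • x) y = b x (star q • y)`.
Subspaces are `Submodule Q V`, dimension is `Module.finrank Q`. -/
open scoped Quaternion
variable {V : Type} [AddCommGroup V] [Module Q V] [Module ℝ V] [IsScalarTower ℝ Q V]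


/-- orthogonal splitting of `W` into a maximal negative definite part and a nonnegative part -/
theorem exists_decomp [FiniteDimensional Q V] {b : BF V} (hb : IsF b) (W : Submodule Q V) :
    ∃ U P : Submodule Q V, U ≤ W ∧ P ≤ W ∧ NegOn b U ∧ NonnegOn b P ∧
      (∀ x ∈ U, ∀ y ∈ P, b x y = 0) ∧ U ⊓ P = ⊥ ∧ U ⊔ P = W ∧
      Module.finrank Q U = nn b W ∧ Module.finrank Q U + Module.finrank Q P = Module.finrank Q W := by
  obtain ⟨U, hUW, hneg, hrank⟩ := exists_neg b W
  have hU : ∀ x ∈ U, (∀ y ∈ U, b x y = 0) → x = 0 := by
    intro x hx h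
    by_contra hx0
    have h1 := hneg x hx hx0
    rw [h x hx] at h1
    exact lt_irrefl _ h1
  obtain ⟨h1, h2⟩ := orth_compl_in hb U W hUW hU
  refine ⟨U, W ⊓ orth b hb U, hUW, inf_le_left, hneg, ?_, ?_, h1, h2, hrank, ?_⟩
  · intro x hx
    by_contra hcon
    push Not at hcon
    have hx0 : x ≠ 0 := by
      rintro rfl
      simp at hcon
    have hxU : x ∉ U := by
      intro hxU
      have : x ∈ U ⊓ (W ⊓ orth b hb U) := ⟨hxU, hx⟩
      rw [h1] at this
      exact hx0 ((Submodule.mem_bot Q).1 this)
    have hlt : U < U ⊔ Submodule.span Q {x} := by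
      refine lt_of_le_of_ne le_sup_left ?_
      intro he
      apply hxU
      rw [he]
      exact Submodule.mem_sup_right (Submodule.mem_span_singleton_self x)
    have hle : U ⊔ Submodule.span Q {x} ≤ W := by
      refine sup_le hUW ?_
      rw [Submodule.span_singleton_le_iff_mem]
      exact hx.1
    have hn : NegOn b (U ⊔ Submodule.span Q {x}) := by
      intro y hy hy0
      rw [Submodule.mem_sup] at hy
      obtain ⟨u, hu, z, hz, rfl⟩ := hy
      rw [Submodule.mem_span_singleton] at hz
      obtain ⟨q, rfl⟩ := hz
      have e1 : b u (q • x) = 0 := (orth b hb U).smul_mem q hx.2 u hu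
      have e2 : b (q • x) u = 0 := by rw [hb.symm]; exact e1
      have e3 := (self_smul hb x q).2
      have e4 : b (u + q • x) (u + q • x) = b u u + Quaternion.normSq q.unop * b x x := by
        rw [map_add, map_add b u (q • x), LinearMap.add_apply, LinearMap.add_apply]
        rw [show b u (q • x) = 0 from e1, e2, e3]
        ring
      rw [e4]
      have h3 : 0 ≤ Quaternion.normSq q.unop := Quaternion.normSq_nonneg
      by_cases hu0 : u = 0
      · have hq : q ≠ 0 := by
          rintro rfl
          apply hy0
          rw [hu0, zero_smul, add_zero]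
        have hq' : q.unop ≠ 0 := by
          intro h
          exact hq (MulOpposite.unop_injective (by rw [h]; rfl))
        have h4 : 0 < Quaternion.normSq q.unop :=
          lt_of_le_of_ne h3 (fun h => hq' (Quaternion.normSq_eq_zero.1 h.symm))
        have h5 : b u u = 0 := by rw [hu0]; simp
        rw [h5, zero_add]
        exact mul_neg_of_pos_of_neg h4 hcon
      · have h5 := hneg u hu hu0
        have h6 : Quaternion.normSq q.unop * b x x ≤ 0 :=
          mul_nonpos_of_nonneg_of_nonpos h3 hcon.le
        linarith
    have h7 := le_nn b hle hn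
    have h8 := Submodule.finrank_lt_finrank_of_lt hlt
    omega
  · intro x hx y hy
    exact hy.2 x hx
  · have h3 := Submodule.finrank_sup_add_finrank_inf_eq U (W ⊓ orth b hb U)
    rw [h1, h2, finrank_bot, add_zero] at h3
    exact h3.symm
end

section
/-! Pairs of quaternionic hermitian forms.  A right quaternionic space is a module over `Q`, the
opposite of the quaternions.  A quaternionic hermitian form `h` is represented by its real part
`b x y = Re h x y`, a real bilinear symmetric form with `b (q • x) y = b x (star q • y)`.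
Subspaces are `Submodule Q V`, dimension is `Module.finrank Q`. -/
open scoped Quaternion
variable {V : Type} [AddCommGroup V] [Module Q V] [Module ℝ V] [IsScalarTower ℝ Q V]


theorem nn_add_aux_finrank [FiniteDimensional Q V] {A B U W : Submodule Q V} (hA : A ≤ U)
    (hB : B ≤ W) (hd : U ⊓ W = ⊥) :
    Module.finrank Q ↥(A ⊔ B) = Module.finrank Q A + Module.finrank Q B := by
  have h := Submodule.finrank_sup_add_finrank_inf_eq A B
  have h0 : A ⊓ B = ⊥ := by
    rw [eq_bot_iff, ← hd]
    exact inf_le_inf hA hB
  rw [h0, finrank_bot, add_zero] at h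
  exact h

/-- additivity of the negative index over orthogonal sums -/
theorem nn_add [FiniteDimensional Q V] {b : BF V} (hb : IsF b) (U W : Submodule Q V)
    (hd : U ⊓ W = ⊥) (ho : ∀ x ∈ U, ∀ y ∈ W, b x y = 0) : nn b (U ⊔ W) = nn b U + nn b W := by
  have hb' : ∀ x ∈ U, ∀ y ∈ W, b (x + y) (x + y) = b x x + b y y := by
    intro x hx y hy
    have h1 : b x y = 0 := ho x hx y hy
    have h2 : b y x = 0 := by rw [hb.symm]; exact h1
    simp only [map_add, LinearMap.add_apply, h1, h2]
    ring
  apply le_antisymm
  · obtain ⟨U1, P1, hU1, hP1, hnU1, hnP1, -, -, -, hfU1, hfP1⟩ := exists_decomp hb U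
    obtain ⟨U2, P2, hU2, hP2, hnU2, hnP2, -, -, -, hfU2, hfP2⟩ := exists_decomp hb W
    have hP : NonnegOn b (P1 ⊔ P2) := by
      intro x hx
      obtain ⟨y, hy, z, hz, rfl⟩ := Submodule.mem_sup.1 hx
      rw [hb' y (hP1 hy) z (hP2 hz)]
      exact add_nonneg (hnP1 y hy) (hnP2 z hz)
    have h1 := nn_add_le b (sup_le_sup hP1 hP2) hP
    have h2 := nn_add_aux_finrank hP1 hP2 hd
    have h3 := nn_add_aux_finrank (le_refl U) (le_refl W) hd
    omega
  · obtain ⟨U1, hU1, hn1, hf1⟩ := exists_neg b U
    obtain ⟨W1, hW1, hn2, hf2⟩ := exists_neg b W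
    have hN : NegOn b (U1 ⊔ W1) := by
      intro x hx hx0
      obtain ⟨y, hy, z, hz, rfl⟩ := Submodule.mem_sup.1 hx
      rw [hb' y (hU1 hy) z (hW1 hz)]
      by_cases hy0 : y = 0
      · have hz0 : z ≠ 0 := by
          rintro rfl
          exact hx0 (by rw [hy0, add_zero])
        have := hn2 z hz hz0
        rw [hy0]
        simpa using this
      · have h1 := hn1 y hy hy0
        by_cases hz0 : z = 0
        · rw [hz0]
          simpa using h1
        · have h2 := hn2 z hz hz0
          linarith
    have h1 := le_nn b (sup_le_sup hU1 hW1) hN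
    have h2 := nn_add_aux_finrank hU1 hW1 hd
    omega
end

section
/-! Pairs of quaternionic hermitian forms.  A right quaternionic space is a module over `Q`, the
opposite of the quaternions.  A quaternionic hermitian form `h` is represented by its real part
`b x y = Re h x y`, a real bilinear symmetric form with `b (q • x) y = b x (star q • y)`.
Subspaces are `Submodule Q V`, dimension is `Module.finrank Q`. -/
open scoped Quaternion
variable {V : Type} [AddCommGroup V] [Module Q V] [Module ℝ V] [IsScalarTower ℝ Q V]


/-- the index only depends on the values `b x x` up to a positive factor -/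
theorem nn_congr_pos (b b' : BF V) (W : Submodule Q V) (c : ℝ) (hc : 0 < c)
    (h : ∀ x ∈ W, b' x x = c * b x x) : nn b' W = nn b W := by
  unfold nn
  congr 1
  have key : ∀ U : Submodule Q V, U ≤ W → (NegOn b' U ↔ NegOn b U) := by
    intro U hU
    refine forall_congr' fun x => ?_
    refine forall_congr' fun hx => ?_
    refine forall_congr' fun _ => ?_
    rw [h x (hU hx)]
    constructor
    · intro h1
      by_contra h2
      push Not at h2
      have := mul_nonneg hc.le h2
      linarith
    · intro h1
      exact mul_neg_of_pos_of_neg hc h1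
  have key2 : ∀ k : ℕ, (∃ U : Submodule Q V, U ≤ W ∧ NegOn b' U ∧ Module.finrank Q U = k) ↔
      ∃ U : Submodule Q V, U ≤ W ∧ NegOn b U ∧ Module.finrank Q U = k := by
    intro k
    constructor
    · rintro ⟨U, h1, h2, h3⟩
      exact ⟨U, h1, (key U h1).1 h2, h3⟩
    · rintro ⟨U, h1, h2, h3⟩
      exact ⟨U, h1, (key U h1).2 h2, h3⟩
  exact Set.ext key2
end

section
/-! Pairs of quaternionic hermitian forms.  A right quaternionic space is a module over `Q`, the
opposite of the quaternions.  A quaternionic hermitian form `h` is represented by its real part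
`b x y = Re h x y`, a real bilinear symmetric form with `b (q • x) y = b x (star q • y)`.
Subspaces are `Submodule Q V`, dimension is `Module.finrank Q`. -/
open scoped Quaternion
variable {V : Type} [AddCommGroup V] [Module Q V] [Module ℝ V] [IsScalarTower ℝ Q V]


theorem nn_le_of_le [FiniteDimensional Q V] (b b' : BF V) (W : Submodule Q V)
    (h : ∀ x ∈ W, b x x ≤ b' x x) : nn b' W ≤ nn b W := by
  obtain ⟨U, hU, hn, hf⟩ := exists_neg b' W
  rw [← hf]
  exact le_nn b hU fun x hx hx0 => lt_of_le_of_lt (h x (hU hx)) (hn x hx hx0)
end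

section
/-! Pairs of quaternionic hermitian forms.  A right quaternionic space is a module over `Q`, the
opposite of the quaternions.  A quaternionic hermitian form `h` is represented by its real part
`b x y = Re h x y`, a real bilinear symmetric form with `b (q • x) y = b x (star q • y)`.
Subspaces are `Submodule Q V`, dimension is `Module.finrank Q`. -/
open scoped Quaternion
variable {V : Type} [AddCommGroup V] [Module Q V] [Module ℝ V] [IsScalarTower ℝ Q V]


omit [Module ℝ V] [IsScalarTower ℝ Q V] in
theorem finrank_map_inj_aux (X : V →ₗ[Q] V) (hX : Function.Injective X)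
    (U : Submodule Q V) : Module.finrank Q (U.map X) = Module.finrank Q U :=
  (LinearEquiv.finrank_eq (Submodule.equivMapOfInjective X hX U)).symm

theorem tt_apply_aux (b : BF V) (X : V →ₗ[Q] V) (x y : V) : tt b X x y = b (X x) (X y) := rfl

/-- congruence invariance -/
theorem nn_tt [FiniteDimensional Q V] (b : BF V) (X : V →ₗ[Q] V) (hX : Function.Bijective X) :
    nn (tt b X) ⊤ = nn b ⊤ := by
  apply le_antisymm
  · obtain ⟨U, -, hU, hd⟩ := exists_neg (tt b X) (⊤ : Submodule Q V)
    rw [← hd, ← finrank_map_inj_aux X hX.1 U]
    apply le_nn b le_top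
    rintro y ⟨x, hx, rfl⟩ hy
    have hx0 : x ≠ 0 := by
      rintro rfl
      exact hy (map_zero X)
    exact hU x hx hx0
  · obtain ⟨U, -, hU, hd⟩ := exists_neg b (⊤ : Submodule Q V)
    have hm : (U.comap X).map X = U := Submodule.map_comap_eq_of_surjective hX.2 U
    have hf : Module.finrank Q U = Module.finrank Q (U.comap X) := by
      conv_lhs => rw [← hm]
      exact finrank_map_inj_aux X hX.1 (U.comap X)
    rw [← hd, hf]
    apply le_nn (tt b X) le_top
    intro x hx hx0
    have hX0 : X x ≠ 0 := by
      intro h
      apply hx0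
      apply hX.1
      rw [h, map_zero]
    exact hU (X x) hx hX0
end

section
/-! Pairs of quaternionic hermitian forms.  A right quaternionic space is a module over `Q`, the
opposite of the quaternions.  A quaternionic hermitian form `h` is represented by its real part
`b x y = Re h x y`, a real bilinear symmetric form with `b (q • x) y = b x (star q • y)`.
Subspaces are `Submodule Q V`, dimension is `Module.finrank Q`. -/
open scoped Quaternion
variable {V : Type} [AddCommGroup V] [Module Q V] [Module ℝ V] [IsScalarTower ℝ Q V]


/-- the index of the restricted form, as a form on the subspace type -/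
theorem nn_rs [FiniteDimensional Q V] (b : BF V) (W : Submodule Q V) : nn (rs b W) ⊤ = nn b W := by
  unfold nn
  congr 1
  ext k
  simp only [Set.mem_setOf_eq]
  constructor
  · rintro ⟨U, -, hU, hk⟩
    refine ⟨U.map W.subtype, ?_, ?_, ?_⟩
    · rintro _ ⟨x, -, rfl⟩
      exact x.2
    · rintro _ ⟨x, hx, rfl⟩ hx0
      have hx1 : x ≠ 0 := by
        rintro rfl
        exact hx0 (map_zero _)
      exact hU x hx hx1
    · rw [← hk]
      exact Submodule.finrank_map_subtype_eq W U
  · rintro ⟨U, hUW, hU, hk⟩
    refine ⟨U.comap W.subtype, le_top, ?_, ?_⟩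
    · intro x hx hx0
      exact hU (x : V) hx (fun h => hx0 (Subtype.ext h))
    · rw [← hk]
      exact LinearEquiv.finrank_eq (Submodule.comapSubtypeEquivOfLe hUW)
end

section
/-! Pairs of quaternionic hermitian forms.  A right quaternionic space is a module over `Q`, the
opposite of the quaternions.  A quaternionic hermitian form `h` is represented by its real part
`b x y = Re h x y`, a real bilinear symmetric form with `b (q • x) y = b x (star q • y)`.
Subspaces are `Submodule Q V`, dimension is `Module.finrank Q`. -/
open scoped Quaternion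
variable {V : Type} [AddCommGroup V] [Module Q V] [Module ℝ V] [IsScalarTower ℝ Q V]


theorem nn_neg_add_cs {b : BF V} (hb : IsF b) (P : Submodule Q V) (hP : NonnegOn b P) (x : V)
    (hx : x ∈ P) (hxx : b x x = 0) (y : V) (hy : y ∈ P) : b x y = 0 := by
  have key : ∀ t : ℝ, 0 ≤ b y y + 2 * t * b x y := by
    intro t
    have h1 := hP (y + t • x) (P.add_mem hy (P.smul_of_tower_mem t hx))
    have h2 : b (y + t • x) (y + t • x) = b y y + 2 * t * b x y + t * t * b x x := by
      simp only [map_add, LinearMap.add_apply, map_smul, LinearMap.smul_apply, smul_eq_mul]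
      rw [hb.symm y x]
      ring
    rw [h2, hxx] at h1
    linarith
  by_contra hne
  have h1 := key (-(b y y + 1) / (2 * b x y))
  have h2 : 2 * (-(b y y + 1) / (2 * b x y)) * b x y = -(b y y + 1) := by
    field_simp
  rw [h2] at h1
  linarith

theorem nn_neg_add [FiniteDimensional Q V] {b : BF V} (hb : IsF b) (hnd : Nd b) :
    nn b ⊤ + nn (-b) ⊤ = Module.finrank Q V := by
  obtain ⟨U, P, -, -, hU, hP, horth, -, hsup, hfU, hfin⟩ := exists_decomp hb ⊤
  have hPneg : NegOn (-b) P := by
    intro x hx hx0
    have h1 : 0 ≤ b x x := hP x hx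
    have h2 : b x x ≠ 0 := by
      intro h0
      apply hx0
      apply hnd
      intro y
      have hy : y ∈ U ⊔ P := by rw [hsup]; trivial
      obtain ⟨u, hu, p, hp, rfl⟩ := Submodule.mem_sup.mp hy
      rw [map_add, hb.symm x u, horth u hu x hx, nn_neg_add_cs hb P hP x hx h0 p hp, add_zero]
    have h3 : 0 < b x x := lt_of_le_of_ne h1 (Ne.symm h2)
    show (-b) x x < 0
    simp only [LinearMap.neg_apply]
    linarith
  have hUn : NonnegOn (-b) U := by
    intro x hx
    by_cases h0 : x = 0
    · subst h0
      simp
    · have h1 := hU x hx h0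
      show 0 ≤ (-b) x x
      simp only [LinearMap.neg_apply]
      linarith
  have h1 := le_nn (-b) (le_top : P ≤ ⊤) hPneg
  have h2 := nn_add_le (-b) (le_top : U ≤ ⊤) hUn
  have h3 : Module.finrank Q (⊤ : Submodule Q V) = Module.finrank Q V := finrank_top Q V
  omega
end

section
/-! Pairs of quaternionic hermitian forms.  A right quaternionic space is a module over `Q`, the
opposite of the quaternions.  A quaternionic hermitian form `h` is represented by its real part
`b x y = Re h x y`, a real bilinear symmetric form with `b (q • x) y = b x (star q • y)`.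
Subspaces are `Submodule Q V`, dimension is `Module.finrank Q`. -/
open scoped Quaternion
variable {V : Type} [AddCommGroup V] [Module Q V] [Module ℝ V] [IsScalarTower ℝ Q V]


/-- a nonpositive subspace of a nondegenerate form has dimension at most the negative index -/
theorem nonpos_le_nn [FiniteDimensional Q V] {b : BF V} (hb : IsF b) (hnd : Nd b)
    (N : Submodule Q V) (h : ∀ x ∈ N, b x x ≤ 0) : Module.finrank Q N ≤ nn b ⊤ := by
  have h1 : NonnegOn (-b) N := by
    intro x hx
    have h2 := h x hx
    show 0 ≤ -(b x x)
    linarith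
  have h3 := nn_add_le (-b) (P := N) (W := ⊤) le_top h1
  rw [finrank_top] at h3
  have h4 := nn_neg_add hb hnd
  omega
end

section
/-! Pairs of quaternionic hermitian forms.  A right quaternionic space is a module over `Q`, the
opposite of the quaternions.  A quaternionic hermitian form `h` is represented by its real part
`b x y = Re h x y`, a real bilinear symmetric form with `b (q • x) y = b x (star q • y)`.
Subspaces are `Submodule Q V`, dimension is `Module.finrank Q`. -/
open scoped Quaternion
variable {V : Type} [AddCommGroup V] [Module Q V] [Module ℝ V] [IsScalarTower ℝ Q V]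


theorem cont_diag {n : ℕ} (B : LinearMap.BilinForm ℝ (EuclideanSpace ℝ (Fin n))) :
    Continuous fun x => B x x := by
  let B' : EuclideanSpace ℝ (Fin n) →ₗ[ℝ] (EuclideanSpace ℝ (Fin n) →L[ℝ] ℝ) :=
    (LinearMap.toContinuousLinearMap :
      (EuclideanSpace ℝ (Fin n) →ₗ[ℝ] ℝ) ≃ₗ[ℝ] (EuclideanSpace ℝ (Fin n) →L[ℝ] ℝ)).toLinearMap ∘ₗ B
  have h1 : Continuous B' := LinearMap.continuous_of_finiteDimensional B'
  have h2 : Continuous fun x => B' x x := h1.clm_apply continuous_id
  exact h2

theorem neg_open_real {n : ℕ} (B A : LinearMap.BilinForm ℝ (EuclideanSpace ℝ (Fin n)))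
    (h : ∀ x, x ≠ 0 → B x x < 0) :
    ∃ ε : ℝ, 0 < ε ∧ ∀ s t : ℝ, |s| < ε → |t| < ε → ∀ x, x ≠ 0 → (1 + s) * B x x + t * A x x < 0 := by
  have hK : IsCompact (Metric.sphere (0 : EuclideanSpace ℝ (Fin n)) 1) := isCompact_sphere 0 1
  have hc : ∃ c : ℝ, 0 < c ∧ ∀ x ∈ Metric.sphere (0 : EuclideanSpace ℝ (Fin n)) 1,
      B x x ≤ -c := by
    by_cases hne : (Metric.sphere (0 : EuclideanSpace ℝ (Fin n)) 1).Nonempty
    · obtain ⟨x0, hx0, hmax⟩ := hK.exists_isMaxOn hne (cont_diag B).continuousOn
      have hx0' : x0 ≠ 0 := by
        rintro rfl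
        simp at hx0
      refine ⟨-(B x0 x0), by linarith [h x0 hx0'], fun x hx => ?_⟩
      have := hmax hx
      simp only [Set.mem_ofPred_eq] at this
      linarith
    · refine ⟨1, one_pos, fun x hx => absurd ⟨x, hx⟩ hne⟩
  obtain ⟨c, hc0, hc⟩ := hc
  obtain ⟨C, hC⟩ := hK.exists_bound_of_continuousOn (cont_diag A).continuousOn
  have hεpos : 0 < c / (c + |C| + 1) := div_pos hc0 (by positivity)
  refine ⟨c / (c + |C| + 1), hεpos, fun s t hs ht x hx => ?_⟩
  have hn : 0 < ‖x‖ := norm_pos_iff.mpr hx
  have hxs : (‖x‖⁻¹ • x) ∈ Metric.sphere (0 : EuclideanSpace ℝ (Fin n)) 1 := by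
    rw [mem_sphere_zero_iff_norm, norm_smul, norm_inv, norm_norm, inv_mul_cancel₀ hn.ne']
  have e : ∀ F : LinearMap.BilinForm ℝ (EuclideanSpace ℝ (Fin n)),
      F x x = ‖x‖ ^ 2 * F (‖x‖⁻¹ • x) (‖x‖⁻¹ • x) := by
    intro F
    rw [map_smul, map_smul, LinearMap.smul_apply, smul_eq_mul, smul_eq_mul]
    field_simp
  rw [e B, e A]
  have h1 := hc _ hxs
  have h2 := hC _ hxs
  rw [Real.norm_eq_abs] at h2
  set p := B (‖x‖⁻¹ • x) (‖x‖⁻¹ • x)
  set q := A (‖x‖⁻¹ • x) (‖x‖⁻¹ • x)
  set ε := c / (c + |C| + 1) with hε
  have h3 : ε * (c + |C| + 1) = c := by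
    rw [hε]; field_simp
  have h4 : ε < 1 := by
    rw [hε, div_lt_one (by positivity)]
    have := abs_nonneg C
    linarith
  have h5 : t * q ≤ ε * |C| := by
    calc t * q ≤ |t * q| := le_abs_self _
      _ = |t| * |q| := abs_mul _ _
      _ ≤ ε * |C| := mul_le_mul ht.le (h2.trans (le_abs_self C)) (abs_nonneg _) hεpos.le
  have h6 : (1 + s) * p ≤ (1 - ε) * (-c) := by
    have h7 : 1 - ε ≤ 1 + s := by
      have := (abs_lt.mp hs).1
      linarith
    have h8 : 0 < 1 - ε := by linarith
    nlinarith
  have h9 : (1 + s) * p + t * q < 0 := by nlinarith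
  have h10 : (1 + s) * (‖x‖ ^ 2 * p) + t * (‖x‖ ^ 2 * q) = ‖x‖ ^ 2 * ((1 + s) * p + t * q) := by
    ring
  rw [h10]
  exact mul_neg_of_pos_of_neg (by positivity) h9

/-- negative definiteness is stable under small perturbations -/
theorem neg_open [FiniteDimensional Q V] (b a : BF V) (U : Submodule Q V) (h : NegOn b U) :
    ∃ ε : ℝ, 0 < ε ∧ ∀ s t : ℝ, |s| < ε → |t| < ε → NegOn ((1 + s) • b + t • a) U := by
  have hfQ : Module.Finite ℝ Q := Module.Finite.equiv (MulOpposite.opLinearEquiv ℝ : ℍ[ℝ] ≃ₗ[ℝ] Q)
  have hfV : Module.Finite ℝ V := Module.Finite.trans Q V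
  let W : Submodule ℝ V := U.restrictScalars ℝ
  let L : EuclideanSpace ℝ (Fin (Module.finrank ℝ W)) ≃ₗ[ℝ] W :=
    LinearEquiv.ofFinrankEq _ _ (by simp)
  let B : LinearMap.BilinForm ℝ (EuclideanSpace ℝ (Fin (Module.finrank ℝ W))) :=
    b.comp (W.subtype ∘ₗ L.toLinearMap) (W.subtype ∘ₗ L.toLinearMap)
  let A : LinearMap.BilinForm ℝ (EuclideanSpace ℝ (Fin (Module.finrank ℝ W))) :=
    a.comp (W.subtype ∘ₗ L.toLinearMap) (W.subtype ∘ₗ L.toLinearMap)
  have hB : ∀ x, B x x = b (L x : V) (L x : V) := fun x => rfl
  have hA : ∀ x, A x x = a (L x : V) (L x : V) := fun x => rfl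
  obtain ⟨ε, hε, hh⟩ := neg_open_real B A (by
    intro x hx
    rw [hB]
    refine h _ (L x).2 ?_
    intro h0
    apply hx
    have h1 : L x = 0 := Subtype.ext h0
    simpa using h1)
  refine ⟨ε, hε, fun s t hs ht x hxU hx0 => ?_⟩
  have h1 := hh s t hs ht (L.symm ⟨x, hxU⟩) (by
    intro h0
    have h2 : (⟨x, hxU⟩ : W) = 0 := by
      have := congrArg L h0
      simpa using this
    exact hx0 (congrArg Subtype.val h2))
  rw [hB, hA, LinearEquiv.apply_symm_apply] at h1
  simpa using h1
end

section
/-! Pairs of quaternionic hermitian forms.  A right quaternionic space is a module over `Q`, the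
opposite of the quaternions.  A quaternionic hermitian form `h` is represented by its real part
`b x y = Re h x y`, a real bilinear symmetric form with `b (q • x) y = b x (star q • y)`.
Subspaces are `Submodule Q V`, dimension is `Module.finrank Q`. -/
open scoped Quaternion
variable {V : Type} [AddCommGroup V] [Module Q V] [Module ℝ V] [IsScalarTower ℝ Q V]


/-- the operator of a pair of forms the first of which is nondegenerate -/
theorem exists_op [FiniteDimensional Q V] {b a : BF V} (hb : IsF b) (ha : IsF a) (hnd : Nd b) :
    ∃ X : V →ₗ[Q] V, (∀ x y, b x (X y) = a x y) ∧ SA b X := by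
  haveI hQ : Module.Finite ℝ Q := Module.Finite.equiv (MulOpposite.opLinearEquiv ℝ (M := ℍ[ℝ]))
  haveI hV : Module.Finite ℝ V := Module.Finite.trans Q V
  have hinj : Function.Injective (b : V →ₗ[ℝ] V →ₗ[ℝ] ℝ) := by
    rw [← LinearMap.ker_eq_bot, LinearMap.ker_eq_bot']
    intro x hx
    refine hnd x fun y => ?_
    rw [hx]
    rfl
  have hsurj : Function.Surjective (b : V →ₗ[ℝ] V →ₗ[ℝ] ℝ) := by
    have h := LinearMap.injective_iff_surjective_of_finrank_eq_finrank
      (f := (b : V →ₗ[ℝ] Module.Dual ℝ V)) (Subspace.dual_finrank_eq).symm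
    exact h.1 hinj
  choose X₀ hX₀ using fun y => hsurj (a y)
  have hX : ∀ x y, b x (X₀ y) = a x y := by
    intro x y
    rw [hb.symm, hX₀, ha.symm]
  have huniq : ∀ u v : V, (∀ x, b x u = b x v) → u = v := by
    intro u v h
    refine sub_eq_zero.1 (hnd (u - v) fun y => ?_)
    rw [hb.symm, map_sub, h y, sub_self]
  refine ⟨{ toFun := X₀, map_add' := ?_, map_smul' := ?_ }, ?_, ?_⟩
  · intro u v
    refine huniq _ _ fun x => ?_
    rw [hX, map_add, map_add, hX, hX]
  · intro q u
    refine huniq _ _ fun x => ?_
    have h1 := hb.adj (star q) x (X₀ u)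
    have h2 := ha.adj (star q) x u
    rw [star_star] at h1 h2
    rw [RingHom.id_apply, hX, ← h1, hX, h2]
  · intro x y
    exact hX x y
  · intro x y
    show b (X₀ x) y = b x (X₀ y)
    rw [hb.symm, hX, hX, ha.symm]
end

section
/-! Pairs of quaternionic hermitian forms.  A right quaternionic space is a module over `Q`, the
opposite of the quaternions.  A quaternionic hermitian form `h` is represented by its real part
`b x y = Re h x y`, a real bilinear symmetric form with `b (q • x) y = b x (star q • y)`.
Subspaces are `Submodule Q V`, dimension is `Module.finrank Q`. -/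
open scoped Quaternion
variable {V : Type} [AddCommGroup V] [Module Q V] [Module ℝ V] [IsScalarTower ℝ Q V]


/-- if the pencil contains a nondegenerate form then nondegenerate forms are dense in it -/
theorem nd_generic [FiniteDimensional Q V] {b a : BF V} (hb : IsF b) (ha : IsF a)
    (h : ∃ μ ν : ℝ, Nd (μ • b + ν • a)) (μ ν ε : ℝ) (hε : 0 < ε) :
    ∃ μ' ν' : ℝ, |μ' - μ| < ε ∧ |ν' - ν| < ε ∧ Nd (μ' • b + ν' • a) := by
  obtain ⟨μ0, ν0, hnd⟩ := h
  have hC : IsF (μ0 • b + ν0 • a) := isF_add (isF_smul hb μ0) (isF_smul ha ν0)
  have hE : IsF (μ • b + ν • a) := isF_add (isF_smul hb μ) (isF_smul ha ν)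
  obtain ⟨X, hX, -⟩ := exists_op hC hE hnd
  haveI : Module.Finite ℝ Q :=
    Module.Finite.equiv (MulOpposite.opLinearEquiv ℝ : ℍ[ℝ] ≃ₗ[ℝ] (ℍ[ℝ])ᵐᵒᵖ)
  haveI : FiniteDimensional ℝ V := Module.Finite.trans (R := ℝ) Q V
  set T : Module.End ℝ V := X.restrictScalars ℝ with hT
  have hfin : {c : ℝ | T.HasEigenvalue c}.Finite := Module.End.finite_hasEigenvalue T
  have hfin2 : {s : ℝ | T.HasEigenvalue (-s)}.Finite :=
    hfin.preimage (neg_injective.injOn)
  set δ : ℝ := ε / (1 + |μ0| + |ν0|) with hδ
  have hden : 0 < 1 + |μ0| + |ν0| := by positivity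
  have hδpos : 0 < δ := div_pos hε hden
  obtain ⟨s, hs1, hs2⟩ := (Set.Ioo_infinite hδpos).exists_notMem_finite hfin2
  have hsb : s * (1 + |μ0| + |ν0|) < ε := by
    have := hs1.2
    rwa [hδ, lt_div_iff₀ hden] at this
  have hs0 : 0 < s := hs1.1
  refine ⟨μ + s * μ0, ν + s * ν0, ?_, ?_, ?_⟩
  · rw [add_sub_cancel_left, abs_mul, abs_of_pos hs0]
    nlinarith [abs_nonneg μ0, abs_nonneg ν0, mul_nonneg hs0.le (abs_nonneg ν0)]
  · rw [add_sub_cancel_left, abs_mul, abs_of_pos hs0]
    nlinarith [abs_nonneg μ0, abs_nonneg ν0, mul_nonneg hs0.le (abs_nonneg μ0)]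
  · intro x hx
    by_contra hx0
    apply hs2
    have key : X x + s • x = 0 := by
      apply hnd
      intro y
      rw [hC.symm]
      have h1 := hx y
      have h2 := hX y x
      have h3 := hE.symm y x
      have h4 := hC.symm y x
      simp only [map_add, LinearMap.add_apply, LinearMap.smul_apply, map_smul,
        smul_eq_mul] at h1 h2 h3 h4 ⊢
      linear_combination h1 + h2 + h3 + s * h4
    show T.HasEigenvalue (-s)
    apply Module.End.hasEigenvalue_of_hasEigenvector (x := x)
    rw [Module.End.hasEigenvector_iff]
    refine ⟨?_, hx0⟩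
    rw [Module.End.mem_eigenspace_iff]
    show X x = -s • x
    rw [neg_smul]
    exact eq_neg_of_add_eq_zero_left key
end

end Pool.QN
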