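import Pool.Agent.Helper9.QN.Defs
import Pool.Agent.Helper9.QP.A1

set_option autoImplicit false
set_option maxHeartbeats 1000000

namespace Pool.QN

section
/-! Pairs of quaternionic hermitian forms.  A right quaternionic space is a module over `Q`, the
opposite of the quaternions.  A quaternionic hermitian form `h` is represented by its real part
`b x y = Re h x y`, a real bilinear symmetric form with `b (q • x) y = b x (star q • y)`.
Subspaces are `Submodule Q V`, dimension is `Module.finrank Q`. -/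
open scoped Quaternion
variable {V : Type} [AddCommGroup V] [Module Q V] [Module ℝ V] [IsScalarTower ℝ Q V]


/-- three cross terms can be killed by one unit quaternion -/
theorem exists_unit {b1 b2 b3 : BF V} (x y : V) :
    ∃ q : Q, Quaternion.normSq q.unop = 1 ∧ b1 x (q • y) = 0 ∧ b2 x (q • y) = 0 ∧
      b3 x (q • y) = 0 := by
  let φ : BF V → (ℍ[ℝ] →ₗ[ℝ] ℝ) := fun b =>
    { toFun := fun q => b x ((MulOpposite.op q : Q) • y)
      map_add' := by
        intro p q
        rw [MulOpposite.op_add, add_smul, map_add]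
      map_smul' := by
        intro c q
        rw [MulOpposite.op_smul, smul_assoc, map_smul]
        rfl }
  let Φ : ℍ[ℝ] →ₗ[ℝ] (Fin 3 → ℝ) := LinearMap.pi ![φ b1, φ b2, φ b3]
  have hker : LinearMap.ker Φ ≠ ⊥ := by
    apply LinearMap.ker_ne_bot_of_finrank_lt
    rw [Quaternion.finrank_eq_four]
    simp
  obtain ⟨q, hq, hq0⟩ := Submodule.exists_mem_ne_zero_of_ne_bot hker
  have hΦ : ∀ i, (![φ b1, φ b2, φ b3] i) q = 0 := by
    intro i
    have := congrFun (LinearMap.mem_ker.1 hq) i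
    simpa [Φ] using this
  have h1 : b1 x ((MulOpposite.op q : Q) • y) = 0 := hΦ 0
  have h2 : b2 x ((MulOpposite.op q : Q) • y) = 0 := hΦ 1
  have h3 : b3 x ((MulOpposite.op q : Q) • y) = 0 := hΦ 2
  have hn : 0 < ‖q‖ := norm_pos_iff.2 hq0
  refine ⟨(‖q‖⁻¹ : ℝ) • (MulOpposite.op q : Q), ?_, ?_, ?_, ?_⟩
  · rw [MulOpposite.unop_smul, MulOpposite.unop_op, Quaternion.normSq_smul, Quaternion.normSq_eq_norm_mul_self]
    field_simp
  · rw [smul_assoc, map_smul, h1, smul_zero]
  · rw [smul_assoc, map_smul, h2, smul_zero]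
  · rw [smul_assoc, map_smul, h3, smul_zero]
end

section
/-! Pairs of quaternionic hermitian forms.  A right quaternionic space is a module over `Q`, the
opposite of the quaternions.  A quaternionic hermitian form `h` is represented by its real part
`b x y = Re h x y`, a real bilinear symmetric form with `b (q • x) y = b x (star q • y)`.
Subspaces are `Submodule Q V`, dimension is `Module.finrank Q`. -/
open scoped Quaternion
variable {V : Type} [AddCommGroup V] [Module Q V] [Module ℝ V] [IsScalarTower ℝ Q V]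


theorem join3 {b1 b2 b3 : BF V} (h1 : IsF b1) (h2 : IsF b2) (h3 : IsF b3) (W : Submodule Q V)
    (x y : V) (hx : x ∈ W) (hy : y ∈ W) :
    ∃ z ∈ W, b1 z z = b1 x x + b1 y y ∧ b2 z z = b2 x x + b2 y y ∧ b3 z z = b3 x x + b3 y y := by
  obtain ⟨q, hq, e1, e2, e3⟩ := exists_unit (b1 := b1) (b2 := b2) (b3 := b3) x y
  have key : ∀ {b : BF V}, IsF b → b x (q • y) = 0 → b (x + q • y) (x + q • y) = b x x + b y y := by
    intro b hb e
    have s1 := (self_smul hb y q).2
    rw [hq, one_mul] at s1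
    have s2 : b (q • y) x = 0 := by rw [hb.symm]; exact e
    have t1 : b (x + q • y) = b x + b (q • y) := map_add b x (q • y)
    rw [t1, LinearMap.add_apply, map_add, map_add, e, s2, s1]
    ring
  exact ⟨x + q • y, W.add_mem hx (W.smul_mem q hy), key h1 e1, key h2 e2, key h3 e3⟩
end

section
/-! Pairs of quaternionic hermitian forms.  A right quaternionic space is a module over `Q`, the
opposite of the quaternions.  A quaternionic hermitian form `h` is represented by its real part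
`b x y = Re h x y`, a real bilinear symmetric form with `b (q • x) y = b x (star q • y)`.
Subspaces are `Submodule Q V`, dimension is `Module.finrank Q`. -/
open scoped Quaternion
variable {V : Type} [AddCommGroup V] [Module Q V] [Module ℝ V] [IsScalarTower ℝ Q V]


theorem dl_cont {m : ℕ} (c : LinearMap.BilinForm ℝ (Fin m → ℝ)) :
    Continuous (fun v : Fin m → ℝ => c v v) := by
  have e : (fun v : Fin m → ℝ => c v v) =
      fun v => ∑ i, v i • c.flip (fun j => if i = j then 1 else 0) v := by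
    funext v
    rw [LinearMap.pi_apply_eq_sum_univ (c v) v]
    rfl
  rw [e]
  refine continuous_finsetSum _ fun i _ => ?_
  exact (continuous_apply i).smul (LinearMap.continuous_of_finiteDimensional _)

theorem dl_abs {m : ℕ} (φ : (Fin m → ℝ) → ℝ × ℝ) (hφc : Continuous φ)
    (hsm : ∀ (r : ℝ) v, φ (r • v) = (r * r) • φ v) (h0 : ∀ v, φ v = 0 → v = 0)
    (hadd : ∀ v w, ∃ z, φ z = φ v + φ w) (hpt : ∀ v w, φ v + φ w = 0 → v = 0) :
    ∃ f : ℝ × ℝ →L[ℝ] ℝ, ∀ v, v ≠ 0 → 0 < f (φ v) := by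
  by_cases hne : ∃ v : Fin m → ℝ, v ≠ 0
  swap
  · push Not at hne
    exact ⟨0, fun v hv => absurd (hne v) hv⟩
  obtain ⟨v0, hv0⟩ := hne
  have hφ0 : φ 0 = 0 := by
    have := hsm 0 0
    rw [zero_smul, mul_zero, zero_smul] at this
    exact this
  have hnorm : ∀ v : Fin m → ℝ, v ≠ 0 → ‖(‖v‖⁻¹ : ℝ) • v‖ = 1 := by
    intro v hv
    rw [norm_smul, norm_inv, norm_norm, inv_mul_cancel₀ (norm_ne_zero_iff.mpr hv)]
  have hscale : ∀ v : Fin m → ℝ, v ≠ 0 → φ v = (‖v‖ * ‖v‖) • φ ((‖v‖⁻¹ : ℝ) • v) := by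
    intro v hv
    rw [← hsm, smul_smul, mul_inv_cancel₀ (norm_ne_zero_iff.mpr hv), one_smul]
  have hsph : IsCompact (Metric.sphere (0 : Fin m → ℝ) 1) := isCompact_sphere _ _
  obtain ⟨s0, hs0, hmin⟩ := hsph.exists_isMinOn
    ⟨(‖v0‖⁻¹ : ℝ) • v0, mem_sphere_zero_iff_norm.mpr (hnorm v0 hv0)⟩
    (hφc.norm.continuousOn)
  have hs0' : s0 ≠ 0 := by
    rintro rfl
    rw [mem_sphere_zero_iff_norm, norm_zero] at hs0
    exact zero_ne_one hs0
  obtain ⟨c, hc⟩ : ∃ c, c = ‖φ s0‖ := ⟨_, rfl⟩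
  have hcpos : 0 < c := by
    rw [hc, norm_pos_iff]
    exact fun h => hs0' (h0 _ h)
  have hlow : ∀ v, c * (‖v‖ * ‖v‖) ≤ ‖φ v‖ := by
    intro v
    by_cases hv : v = 0
    · rw [hv, norm_zero, mul_zero, mul_zero]; exact norm_nonneg _
    · rw [hscale v hv, norm_smul, Real.norm_eq_abs, abs_of_nonneg (mul_self_nonneg _), mul_comm]
      apply mul_le_mul_of_nonneg_left _ (mul_self_nonneg _)
      rw [hc]
      exact hmin (mem_sphere_zero_iff_norm.mpr (hnorm v hv))
  -- the cone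
  obtain ⟨K, hK⟩ : ∃ K : Set (ℝ × ℝ), K = Set.range φ := ⟨_, rfl⟩
  have hK0 : (0 : ℝ × ℝ) ∈ K := by rw [hK]; exact ⟨0, hφ0⟩
  have hKs : ∀ r : ℝ, 0 ≤ r → ∀ k ∈ K, r • k ∈ K := by
    intro r hr k hk
    rw [hK] at hk ⊢
    obtain ⟨v, rfl⟩ := hk
    refine ⟨Real.sqrt r • v, ?_⟩
    rw [hsm, Real.mul_self_sqrt hr]
  have hKa : ∀ k ∈ K, ∀ l ∈ K, k + l ∈ K := by
    intro k hk l hl
    rw [hK] at hk hl ⊢
    obtain ⟨v, rfl⟩ := hk
    obtain ⟨w, rfl⟩ := hl
    exact hadd v w
  have hKc : Convex ℝ K := by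
    intro k hk l hl a b ha hb _
    exact hKa _ (hKs a ha k hk) _ (hKs b hb l hl)
  have hKcl : IsClosed K := by
    apply IsSeqClosed.isClosed
    intro x k hx hk
    obtain ⟨C, hC⟩ : ∃ C : Set (ℝ × ℝ),
      C = φ '' Metric.closedBall 0 (Real.sqrt ((‖k‖ + 1) / c)) := ⟨_, rfl⟩
    have hCc : IsClosed C := by
      rw [hC]
      exact ((isCompact_closedBall _ _).image hφc).isClosed
    have hev : ∀ᶠ n in Filter.atTop, x n ∈ C := by
      have h1 : ∀ᶠ n in Filter.atTop, ‖x n‖ < ‖k‖ + 1 :=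
        (hk.norm).eventually (gt_mem_nhds (by linarith))
      filter_upwards [h1] with n hn
      have h2 := hx n
      rw [hK] at h2
      obtain ⟨v, hv⟩ := h2
      rw [hC]
      refine ⟨v, ?_, hv⟩
      rw [mem_closedBall_zero_iff]
      apply Real.le_sqrt_of_sq_le
      rw [le_div_iff₀ hcpos]
      have h3 := hlow v
      rw [hv] at h3
      nlinarith
    have h4 := hCc.mem_of_tendsto hk hev
    rw [hC] at h4
    obtain ⟨v, _, hv⟩ := h4
    rw [hK]
    exact ⟨v, hv⟩
  have hS : IsCompact (φ '' Metric.sphere (0 : Fin m → ℝ) 1) := hsph.image hφc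
  obtain ⟨f, _, hf⟩ := hS.induction_on
    (p := fun s => ∃ f : ℝ × ℝ →L[ℝ] ℝ, (∀ a ∈ K, 0 ≤ f a) ∧ ∀ k ∈ s, k ∈ K → 0 < f k)
    ⟨0, fun a _ => le_rfl, fun k hk => absurd hk (Set.notMem_empty k)⟩
    (fun s t hst ⟨f, hf1, hf2⟩ => ⟨f, hf1, fun k hk hkK => hf2 k (hst hk) hkK⟩)
    (fun s t ⟨f, hf1, hf2⟩ ⟨g, hg1, hg2⟩ => ⟨f + g, fun a ha => by
        show 0 ≤ f a + g a
        exact add_nonneg (hf1 a ha) (hg1 a ha), fun k hk hkK => by
        show 0 < f k + g k
        rcases hk with hk | hk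
        · exact add_pos_of_pos_of_nonneg (hf2 k hk hkK) (hg1 k hkK)
        · exact add_pos_of_nonneg_of_pos (hf1 k hkK) (hg2 k hk hkK)⟩)
    (by
      rintro x ⟨v, hv, rfl⟩
      have hvne : v ≠ 0 := by
        rintro rfl
        rw [mem_sphere_zero_iff_norm, norm_zero] at hv
        exact zero_ne_one hv
      have hnot : - φ v ∉ K := by
        intro hmem
        rw [hK] at hmem
        obtain ⟨w, hw⟩ := hmem
        exact hvne (hpt v w (by rw [hw, add_neg_cancel]))
      obtain ⟨f, u, hf1, hf2⟩ := geometric_hahn_banach_closed_point hKc hKcl hnot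
      have hu : 0 < u := by
        have := hf1 0 hK0
        rwa [map_zero] at this
      have hfK : ∀ a ∈ K, f a ≤ 0 := by
        intro a ha
        by_contra hlt
        push Not at hlt
        have h1 := hf1 _ (hKs (u / f a) (by positivity) a ha)
        rw [map_smul, smul_eq_mul, div_mul_cancel₀ _ hlt.ne'] at h1
        exact lt_irrefl _ h1
      refine ⟨{y | 0 < (-f) y}, ?_, -f, fun a ha => ?_, fun k hk _ => hk⟩
      · apply mem_nhdsWithin_of_mem_nhds
        have ho : IsOpen {y | 0 < (-f) y} := isOpen_lt continuous_const (-f).continuous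
        apply ho.mem_nhds
        show 0 < - f (φ v)
        rw [← map_neg]
        exact hu.trans hf2
      · show 0 ≤ - f a
        have := hfK a ha
        linarith)
  refine ⟨f, fun v hv => ?_⟩
  rw [hscale v hv, map_smul, smul_eq_mul]
  have hvn : 0 < ‖v‖ := norm_pos_iff.mpr hv
  refine mul_pos (mul_pos hvn hvn) (hf _ ⟨_, mem_sphere_zero_iff_norm.mpr (hnorm v hv), rfl⟩ ?_)
  rw [hK]
  exact ⟨_, rfl⟩

/-- an anisotropic pair has a definite real combination -/
theorem def_lemma [FiniteDimensional Q V] {b1 b2 : BF V} (h1 : IsF b1) (h2 : IsF b2)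
    (W : Submodule Q V) (h : ∀ x ∈ W, b1 x x = 0 → b2 x x = 0 → x = 0) :
    ∃ μ ν : ℝ, ∀ x ∈ W, x ≠ 0 → 0 < (μ • b1 + ν • b2) x x := by
  have hQ : Module.Finite ℝ Q := Module.Finite.equiv (MulOpposite.opLinearEquiv ℝ : ℍ[ℝ] ≃ₗ[ℝ] Q)
  have hV : Module.Finite ℝ V := Module.Finite.trans Q V
  obtain ⟨eL, heW, heS, heI⟩ : ∃ eL : (Fin (Module.finrank ℝ (W.restrictScalars ℝ)) → ℝ) →ₗ[ℝ] V,
      (∀ v, eL v ∈ W) ∧ (∀ x ∈ W, ∃ v, eL v = x) ∧ (∀ v, eL v = 0 → v = 0) := by
    refine ⟨(W.restrictScalars ℝ).subtype ∘ₗ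
      (Module.finBasis ℝ (W.restrictScalars ℝ)).equivFun.symm.toLinearMap, ?_, ?_, ?_⟩
    · intro v
      exact ((Module.finBasis ℝ (W.restrictScalars ℝ)).equivFun.symm v).2
    · intro x hx
      refine ⟨(Module.finBasis ℝ (W.restrictScalars ℝ)).equivFun ⟨x, hx⟩, ?_⟩
      show (((Module.finBasis ℝ (W.restrictScalars ℝ)).equivFun.symm
        ((Module.finBasis ℝ (W.restrictScalars ℝ)).equivFun ⟨x, hx⟩) : W.restrictScalars ℝ) : V) = x
      rw [LinearEquiv.symm_apply_apply]
    · intro v hv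
      have hv' : (((Module.finBasis ℝ (W.restrictScalars ℝ)).equivFun.symm v :
        W.restrictScalars ℝ) : V) = 0 := hv
      have hv2 := (Submodule.coe_eq_zero).mp hv'
      exact (LinearEquiv.map_eq_zero_iff _).mp hv2
  obtain ⟨f, hf⟩ := dl_abs (fun v => (b1 (eL v) (eL v), b2 (eL v) (eL v)))
    ((dl_cont (b1.comp eL eL)).prodMk (dl_cont (b2.comp eL eL)))
    (by
      intro r v
      show (b1 (eL (r • v)) (eL (r • v)), b2 (eL (r • v)) (eL (r • v))) =
        (r * r) • (b1 (eL v) (eL v), b2 (eL v) (eL v))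
      simp only [map_smul, LinearMap.smul_apply, smul_eq_mul, Prod.smul_mk, mul_assoc])
    (by
      intro v hv
      exact heI v (h _ (heW v) (congrArg Prod.fst hv) (congrArg Prod.snd hv)))
    (by
      intro v w
      obtain ⟨z, hzW, hz1, hz2, _⟩ := join3 h1 h2 h2 W (eL v) (eL w) (heW v) (heW w)
      obtain ⟨z', rfl⟩ := heS z hzW
      exact ⟨z', Prod.ext hz1 hz2⟩)
    (by
      intro v w hvw
      have k1 : b1 (eL v) (eL v) + b1 (eL w) (eL w) = 0 := congrArg Prod.fst hvw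
      have k2 : b2 (eL v) (eL v) + b2 (eL w) (eL w) = 0 := congrArg Prod.snd hvw
      obtain ⟨q, hq, q1, q2, _⟩ := exists_unit (b1 := b1) (b2 := b2) (b3 := b2) (eL v) (eL w)
      have key : ∀ b : BF V, IsF b → b (eL v) (q • eL w) = 0 →
          b (eL v + q • eL w) (eL v + q • eL w) = b (eL v) (eL v) + b (eL w) (eL w) := by
        intro b hb hq0
        have e1 := (self_smul hb (eL w) q).2
        rw [hq, one_mul] at e1
        simp only [map_add, LinearMap.add_apply]
        rw [hb.symm (q • eL w) (eL v), hq0, e1]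
        ring
      have hz : eL v + q • eL w = 0 := by
        apply h _ (W.add_mem (heW v) (W.smul_mem q (heW w)))
        · rw [key b1 h1 q1, k1]
        · rw [key b2 h2 q2, k2]
      have hx : eL v = -(q • eL w) := eq_neg_of_add_eq_zero_left hz
      have key2 : ∀ b : BF V, IsF b → b (eL v) (eL v) = b (eL w) (eL w) := by
        intro b hb
        have e1 := (self_smul hb (eL w) q).2
        rw [hq, one_mul] at e1
        rw [hx]
        simp only [map_neg, LinearMap.neg_apply, neg_neg]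
        exact e1
      apply heI v
      apply h _ (heW v)
      · have := key2 b1 h1
        linarith
      · have := key2 b2 h2
        linarith)
  refine ⟨f (1, 0), f (0, 1), fun x hx hx0 => ?_⟩
  obtain ⟨v, rfl⟩ := heS x hx
  have hv : v ≠ 0 := by
    rintro rfl
    exact hx0 (map_zero eL)
  have h3 := hf v hv
  have e : f (b1 (eL v) (eL v), b2 (eL v) (eL v)) =
      f (1, 0) * b1 (eL v) (eL v) + f (0, 1) * b2 (eL v) (eL v) := by
    have : ((b1 (eL v) (eL v), b2 (eL v) (eL v)) : ℝ × ℝ) =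
        (b1 (eL v) (eL v)) • ((1, 0) : ℝ × ℝ) + (b2 (eL v) (eL v)) • ((0, 1) : ℝ × ℝ) := by
      simp
    rw [this, map_add, map_smul, map_smul, smul_eq_mul, smul_eq_mul]
    ring
  show 0 < f (1, 0) * b1 (eL v) (eL v) + f (0, 1) * b2 (eL v) (eL v)
  rw [← e]
  exact h3
end

section
/-! Pairs of quaternionic hermitian forms.  A right quaternionic space is a module over `Q`, the
opposite of the quaternions.  A quaternionic hermitian form `h` is represented by its real part
`b x y = Re h x y`, a real bilinear symmetric form with `b (q • x) y = b x (star q • y)`.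
Subspaces are `Submodule Q V`, dimension is `Module.finrank Q`. -/
open scoped Quaternion
variable {V : Type} [AddCommGroup V] [Module Q V] [Module ℝ V] [IsScalarTower ℝ Q V]


theorem s_strict_fin [FiniteDimensional Q V] : Module.Finite ℝ V := by
  haveI : Module.Finite ℝ Q := Module.Finite.equiv (MulOpposite.opLinearEquiv ℝ : ℍ[ℝ] ≃ₗ[ℝ] Q)
  exact Module.Finite.trans Q V

theorem s_strict_cont {n : ℕ} (e : V ≃ₗ[ℝ] (Fin n → ℝ)) (b : BF V) :
    Continuous fun v : Fin n → ℝ => b (e.symm v) (e.symm v) := by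
  set B : (Fin n → ℝ) →ₗ[ℝ] (Fin n → ℝ) →ₗ[ℝ] ℝ :=
    b.comp e.symm.toLinearMap e.symm.toLinearMap with hB
  set C : (Fin n → ℝ) →ₗ[ℝ] ((Fin n → ℝ) →L[ℝ] ℝ) :=
    (LinearMap.toContinuousLinearMap (𝕜 := ℝ) (E := Fin n → ℝ) (F' := ℝ)).toLinearMap ∘ₗ B with hC
  have h1 : Continuous C := LinearMap.continuous_of_finiteDimensional C
  have h2 : Continuous fun v : Fin n → ℝ => C v v := h1.clm_apply continuous_id
  exact h2

theorem s_strict_hom (b : BF V) (c : ℝ) (x : V) : b (c • x) (c • x) = c ^ 2 * b x x := by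
  simp only [map_smul, LinearMap.smul_apply, smul_eq_mul]
  ring

/-- quantitative form of the hypothesis -/
theorem s_strict_eps [FiniteDimensional Q V] {b1 b2 b3 : BF V}
    (h : ∀ x, x ≠ 0 → b1 x x = 0 → b2 x x = 0 → 0 < b3 x x) :
    ∃ ε : ℝ, 0 < ε ∧ ∀ x, |b1 x x| < ε → |b2 x x| < ε → ¬ b3 x x < -(1 / 2) := by
  haveI : Module.Finite ℝ V := s_strict_fin
  set e := (Module.finBasis ℝ V).equivFun with he
  have c1 := s_strict_cont e b1
  have c2 := s_strict_cont e b2
  have c3 := s_strict_cont e b3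
  have hS : IsCompact (Metric.sphere (0 : Fin (Module.finrank ℝ V) → ℝ) 1) := isCompact_sphere 0 1
  have hφc : Continuous fun v => |b1 (e.symm v) (e.symm v)| + |b2 (e.symm v) (e.symm v)| +
      max (b3 (e.symm v) (e.symm v)) 0 := (c1.abs.add c2.abs).add (c3.max continuous_const)
  have hφ0 : ∀ v ∈ Metric.sphere (0 : Fin (Module.finrank ℝ V) → ℝ) 1,
      0 < |b1 (e.symm v) (e.symm v)| + |b2 (e.symm v) (e.symm v)| +
      max (b3 (e.symm v) (e.symm v)) 0 := by
    intro v hv
    have hv0 : v ≠ 0 := by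
      rintro rfl
      simp at hv
    have hx0 : e.symm v ≠ 0 := by simpa using hv0
    have a1 := abs_nonneg (b1 (e.symm v) (e.symm v))
    have a2 := abs_nonneg (b2 (e.symm v) (e.symm v))
    have a3 : 0 ≤ max (b3 (e.symm v) (e.symm v)) 0 := le_max_right _ _
    by_cases hb1 : b1 (e.symm v) (e.symm v) = 0
    · by_cases hb2 : b2 (e.symm v) (e.symm v) = 0
      · have h5 := h _ hx0 hb1 hb2
        have h6 := lt_of_lt_of_le h5 (le_max_left _ (0:ℝ))
        linarith
      · have := abs_pos.2 hb2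
        linarith
    · have := abs_pos.2 hb1
      linarith
  obtain ⟨δ, hδ, hδ'⟩ := hS.exists_forall_le' hφc.continuousOn hφ0
  obtain ⟨M, hM⟩ := hS.exists_bound_of_continuousOn c3.continuousOn
  have hMM : 0 ≤ max M 0 := le_max_right _ _
  refine ⟨δ / (4 * (max M 0 + 1)), by positivity, ?_⟩
  intro x hx1 hx2 hx3
  have hx0 : x ≠ 0 := by
    rintro rfl
    simp at hx3
    linarith
  have hv0 : e x ≠ 0 := by simpa using hx0
  set t : ℝ := ‖e x‖ with ht
  have htpos : 0 < t := norm_pos_iff.2 hv0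
  set w : Fin (Module.finrank ℝ V) → ℝ := t⁻¹ • e x with hw
  have hws : w ∈ Metric.sphere (0 : Fin (Module.finrank ℝ V) → ℝ) 1 := by
    rw [mem_sphere_zero_iff_norm, hw, norm_smul, norm_inv, Real.norm_of_nonneg htpos.le,
      inv_mul_cancel₀ htpos.ne']
  have hxw : x = t • e.symm w := by
    rw [hw, map_smul, smul_smul, mul_inv_cancel₀ htpos.ne', one_smul, LinearEquiv.symm_apply_apply]
  have f1 : b1 x x = t ^ 2 * b1 (e.symm w) (e.symm w) := by
    conv_lhs => rw [hxw]
    exact s_strict_hom b1 t _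
  have f2 : b2 x x = t ^ 2 * b2 (e.symm w) (e.symm w) := by
    conv_lhs => rw [hxw]
    exact s_strict_hom b2 t _
  have f3 : b3 x x = t ^ 2 * b3 (e.symm w) (e.symm w) := by
    conv_lhs => rw [hxw]
    exact s_strict_hom b3 t _
  have ht2 : 0 < t ^ 2 := by positivity
  have g3 : b3 (e.symm w) (e.symm w) < 0 := by
    by_contra hcon
    push Not at hcon
    have := mul_nonneg ht2.le hcon
    linarith
  have hd := hδ' w hws
  rw [max_eq_right g3.le, add_zero] at hd
  have hm := hM w hws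
  rw [Real.norm_eq_abs] at hm
  have hm' : -(b3 (e.symm w) (e.symm w)) ≤ max M 0 := by
    have := neg_abs_le (b3 (e.symm w) (e.symm w))
    have := le_max_left M 0
    linarith
  have k1 : |b1 x x| = t ^ 2 * |b1 (e.symm w) (e.symm w)| := by
    rw [f1, abs_mul, abs_of_pos ht2]
  have k2 : |b2 x x| = t ^ 2 * |b2 (e.symm w) (e.symm w)| := by
    rw [f2, abs_mul, abs_of_pos ht2]
  have k3 : t ^ 2 * δ ≤ |b1 x x| + |b2 x x| := by
    rw [k1, k2, ← mul_add]
    exact mul_le_mul_of_nonneg_left hd ht2.le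
  have k4 : t ^ 2 * δ < 2 * (δ / (4 * (max M 0 + 1))) := by linarith
  have k5 : t ^ 2 < 1 / (2 * (max M 0 + 1)) := by
    have : 2 * (δ / (4 * (max M 0 + 1))) = 1 / (2 * (max M 0 + 1)) * δ := by
      field_simp; ring
    rw [this] at k4
    exact lt_of_mul_lt_mul_right k4 hδ.le
  have k6 : 1 / 2 < t ^ 2 * max M 0 := by
    have : 1 / 2 < -(b3 x x) := by linarith
    rw [f3] at this
    have h8 := mul_le_mul_of_nonneg_left hm' ht2.le
    linarith
  have k7 : t ^ 2 * max M 0 ≤ 1 / (2 * (max M 0 + 1)) * max M 0 :=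
    mul_le_mul_of_nonneg_right k5.le hMM
  have k8 : 1 / (2 * (max M 0 + 1)) * max M 0 ≤ 1 / 2 := by
    rw [div_mul_eq_mul_div, one_mul, div_le_iff₀ (by positivity)]
    linarith
  linarith

/-- strict version of the S-lemma for three forms -/
theorem s_strict [FiniteDimensional Q V] {b1 b2 b3 : BF V} (h1 : IsF b1) (h2 : IsF b2)
    (h3 : IsF b3) (h : ∀ x, x ≠ 0 → b1 x x = 0 → b2 x x = 0 → 0 < b3 x x) :
    ∃ l μ ν : ℝ, 0 ≤ l ∧ l ^ 2 + μ ^ 2 + ν ^ 2 = 1 ∧
      ∀ x, 0 ≤ l * b3 x x + μ * b1 x x + ν * b2 x x := by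
  obtain ⟨ε, hε, hεx⟩ := s_strict_eps h
  set K : Set (ℝ × ℝ × ℝ) := Set.range fun x : V => (b3 x x, b1 x x, b2 x x) with hK
  set U : Set (ℝ × ℝ × ℝ) := Set.Iio (-(1 / 2) : ℝ) ×ˢ (Set.Ioo (-ε) ε ×ˢ Set.Ioo (-ε) ε) with hU
  have hUc : Convex ℝ U := (convex_Iio _).prod ((convex_Ioo _ _).prod (convex_Ioo _ _))
  have hUo : IsOpen U := isOpen_Iio.prod (isOpen_Ioo.prod isOpen_Ioo)
  have hKc : Convex ℝ K := by
    rintro _ ⟨x, rfl⟩ _ ⟨y, rfl⟩ a b ha hb _
    obtain ⟨z, _, hz1, hz2, hz3⟩ := join3 h1 h2 h3 ⊤ (Real.sqrt a • x) (Real.sqrt b • y)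
      Submodule.mem_top Submodule.mem_top
    refine ⟨z, ?_⟩
    simp only [s_strict_hom, Real.sq_sqrt ha, Real.sq_sqrt hb] at hz1 hz2 hz3
    simp only [hz1, hz2, hz3, Prod.smul_mk, Prod.mk_add_mk, smul_eq_mul]
  have hdisj : Disjoint U K := by
    rw [Set.disjoint_left]
    rintro _ hu ⟨x, rfl⟩
    obtain ⟨hu1, hu2, hu3⟩ := hu
    exact hεx x (abs_lt.2 ⟨hu2.1, hu2.2⟩) (abs_lt.2 ⟨hu3.1, hu3.2⟩) hu1
  obtain ⟨f, u, hfU, hfK⟩ := geometric_hahn_banach_open hUc hUo hKc hdisj
  have hf : ∀ a b c : ℝ, f (a, b, c) = a * f (1, 0, 0) + b * f (0, 1, 0) + c * f (0, 0, 1) := by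
    intro a b c
    have : ((a, b, c) : ℝ × ℝ × ℝ) = a • (1, 0, 0) + b • (0, 1, 0) + c • (0, 0, 1) := by simp
    rw [this, map_add, map_add, map_smul, map_smul, map_smul]
    simp only [smul_eq_mul]
  have hu0 : u ≤ 0 := by
    have h5 := hfK (b3 (0:V) (0:V), b1 (0:V) (0:V), b2 (0:V) (0:V)) ⟨0, rfl⟩
    have h6 : ((b3 (0:V) (0:V), b1 (0:V) (0:V), b2 (0:V) (0:V)) : ℝ × ℝ × ℝ) = 0 := by simp
    rw [h6, map_zero] at h5
    exact h5
  have hfK0 : ∀ x : V, 0 ≤ f (b3 x x, b1 x x, b2 x x) := by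
    intro x
    by_contra hcon
    push Not at hcon
    set c := f (b3 x x, b1 x x, b2 x x) with hc
    have ht : 0 ≤ (u - 1) / c := div_nonneg_of_nonpos (by linarith) hcon.le
    have h5 := hfK _ ⟨Real.sqrt ((u - 1) / c) • x, rfl⟩
    simp only [s_strict_hom, Real.sq_sqrt ht] at h5
    have h6 : f ((u - 1) / c * b3 x x, (u - 1) / c * b1 x x, (u - 1) / c * b2 x x) =
        (u - 1) / c * c := by
      have : (((u - 1) / c * b3 x x, (u - 1) / c * b1 x x, (u - 1) / c * b2 x x) : ℝ × ℝ × ℝ) =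
          ((u - 1) / c) • (b3 x x, b1 x x, b2 x x) := by simp
      rw [this, map_smul, smul_eq_mul, ← hc]
    rw [h6, div_mul_cancel₀ _ hcon.ne] at h5
    linarith
  have hp : f (-1, 0, 0) < u := hfU _ ⟨by show (-1:ℝ) < -(1/2); norm_num,
    ⟨by show -ε < 0; linarith, hε⟩, ⟨by show -ε < 0; linarith, hε⟩⟩
  rw [hf] at hp
  set l0 := f (1, 0, 0) with hl0
  set m0 := f (0, 1, 0) with hm0
  set n0 := f (0, 0, 1) with hn0
  have hl0pos : 0 < l0 := by linarith
  have hN : 0 < l0 ^ 2 + m0 ^ 2 + n0 ^ 2 := by positivity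
  set N := Real.sqrt (l0 ^ 2 + m0 ^ 2 + n0 ^ 2) with hNdef
  have hNpos : 0 < N := Real.sqrt_pos.2 hN
  have hNsq : N ^ 2 = l0 ^ 2 + m0 ^ 2 + n0 ^ 2 := Real.sq_sqrt hN.le
  refine ⟨l0 / N, m0 / N, n0 / N, by positivity, ?_, ?_⟩
  · rw [div_pow, div_pow, div_pow, ← add_div, ← add_div, ← hNsq, div_self (by positivity)]
  · intro x
    have h7 := hfK0 x
    rw [hf] at h7
    have h8 : l0 / N * b3 x x + m0 / N * b1 x x + n0 / N * b2 x x =
        (b3 x x * l0 + b1 x x * m0 + b2 x x * n0) / N := by ring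
    rw [h8]
    exact div_nonneg h7 hNpos.le
end

section
/-! Pairs of quaternionic hermitian forms.  A right quaternionic space is a module over `Q`, the
opposite of the quaternions.  A quaternionic hermitian form `h` is represented by its real part
`b x y = Re h x y`, a real bilinear symmetric form with `b (q • x) y = b x (star q • y)`.
Subspaces are `Submodule Q V`, dimension is `Module.finrank Q`. -/
open scoped Quaternion
variable {V : Type} [AddCommGroup V] [Module Q V] [Module ℝ V] [IsScalarTower ℝ Q V]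


/-- real part -/
noncomputable def h170_re : Q →ₗ[ℝ] ℝ where
  toFun q := (MulOpposite.unop q).re
  map_add' a b := by
    rw [MulOpposite.unop_add, Quaternion.re_add]
  map_smul' r a := by
    rw [MulOpposite.unop_smul, Quaternion.re_smul]
    rfl

theorem h170_re_comm (a b : Q) : h170_re (a * b) = h170_re (b * a) := by
  show (MulOpposite.unop (a * b)).re = (MulOpposite.unop (b * a)).re
  rw [MulOpposite.unop_mul, MulOpposite.unop_mul, Quaternion.re_mul, Quaternion.re_mul]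
  ring

theorem h170_re_star (a : Q) : h170_re (star a) = h170_re a := by
  show (MulOpposite.unop (star a)).re = (MulOpposite.unop a).re
  rw [MulOpposite.unop_star, Quaternion.re_star]

theorem h170_re_self (a : Q) : 0 ≤ h170_re (a * star a) ∧ (h170_re (a * star a) = 0 → a = 0) := by
  have h : h170_re (a * star a) = Quaternion.normSq (MulOpposite.unop a) := by
    show (MulOpposite.unop (a * star a)).re = _
    rw [MulOpposite.unop_mul, MulOpposite.unop_star, Quaternion.star_mul_self, Quaternion.re_coe]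
  rw [h]
  refine ⟨Quaternion.normSq_nonneg, fun h0 => ?_⟩
  exact MulOpposite.unop_injective (Quaternion.normSq_eq_zero.mp h0)

theorem h170_star_smul (r : ℝ) (q : Q) : star (r • q) = r • star q := by
  apply MulOpposite.unop_injective
  rw [MulOpposite.unop_star, MulOpposite.unop_smul, MulOpposite.unop_smul, MulOpposite.unop_star]
  exact Quaternion.star_smul r _

theorem h170_pos [FiniteDimensional Q V] : ∃ n : BF V, IsF n ∧ ∀ x, 0 ≤ n x x ∧ (x ≠ 0 → 0 < n x x) := by
  obtain ⟨d, b, -⟩ : ∃ (d : ℕ) (b : Module.Basis (Fin d) Q V), True := ⟨_, Module.finBasis Q V, trivial⟩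
  obtain ⟨c, hc⟩ : ∃ c : Fin d → V →ₗ[ℝ] Q, ∀ i x, c i x = b.repr x i :=
    ⟨fun i => (b.coord i).restrictScalars ℝ, fun i x => rfl⟩
  have hcq : ∀ i (q : Q) x, c i (q • x) = q * c i x := by
    intro i q x
    rw [hc, hc, map_smul, Finsupp.smul_apply, smul_eq_mul]
  obtain ⟨n, hn⟩ : ∃ n : BF V, ∀ x y, n x y = ∑ i, h170_re (c i x * star (c i y)) := by
    refine ⟨LinearMap.mk₂ ℝ (fun x y => ∑ i, h170_re (c i x * star (c i y))) ?_ ?_ ?_ ?_, fun x y => rfl⟩
    · intro x y z
      rw [← Finset.sum_add_distrib]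
      refine Finset.sum_congr rfl fun i _ => ?_
      rw [map_add, add_mul, map_add]
    · intro r x y
      rw [smul_eq_mul, Finset.mul_sum]
      refine Finset.sum_congr rfl fun i _ => ?_
      rw [map_smul, smul_mul_assoc, map_smul, smul_eq_mul]
    · intro x y z
      rw [← Finset.sum_add_distrib]
      refine Finset.sum_congr rfl fun i _ => ?_
      rw [map_add, star_add, mul_add, map_add]
    · intro r x y
      rw [smul_eq_mul, Finset.mul_sum]
      refine Finset.sum_congr rfl fun i _ => ?_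
      rw [map_smul, h170_star_smul, mul_smul_comm, map_smul, smul_eq_mul]
  refine ⟨n, ⟨?_, ?_⟩, ?_⟩
  · intro x y
    rw [hn, hn]
    refine Finset.sum_congr rfl fun i _ => ?_
    rw [← h170_re_star, star_mul, star_star]
  · intro q x y
    rw [hn, hn]
    refine Finset.sum_congr rfl fun i _ => ?_
    rw [hcq, hcq, star_mul, star_star, mul_assoc, h170_re_comm, mul_assoc]
  · intro x
    have hnn : 0 ≤ n x x := by
      rw [hn]
      exact Finset.sum_nonneg fun i _ => (h170_re_self _).1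
    refine ⟨hnn, fun hx => lt_of_le_of_ne hnn fun h0 => hx ?_⟩
    rw [hn] at h0
    have h1 := (Finset.sum_eq_zero_iff_of_nonneg fun i _ => (h170_re_self (c i x)).1).mp h0.symm
    have h2 : ∀ i, b.repr x i = 0 := by
      intro i
      rw [← hc]
      exact (h170_re_self _).2 (h1 i (Finset.mem_univ i))
    apply b.repr.injective
    rw [map_zero]
    ext1 i
    exact h2 i

theorem s_lemma [FiniteDimensional Q V] {b1 b2 b3 : BF V} (h1 : IsF b1) (h2 : IsF b2)
    (h3 : IsF b3) (h : ∀ x, b1 x x = 0 → b2 x x = 0 → 0 ≤ b3 x x) :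
    ∃ l μ ν : ℝ, 0 ≤ l ∧ (l ≠ 0 ∨ μ ≠ 0 ∨ ν ≠ 0) ∧
      ∀ x, 0 ≤ l * b3 x x + μ * b1 x x + ν * b2 x x := by
  obtain ⟨n, hn, hpos⟩ := h170_pos (V := V)
  obtain ⟨ε, hε⟩ : ∃ ε : ℕ → ℝ, ε = fun k : ℕ => 1 / ((k : ℝ) + 1) := ⟨_, rfl⟩
  have hεpos : ∀ k, 0 < ε k := by intro k; rw [hε]; positivity
  have hεanti : ∀ k, ε (k + 1) ≤ ε k := by
    intro k
    rw [hε]
    show 1 / (((k + 1 : ℕ) : ℝ) + 1) ≤ 1 / ((k : ℝ) + 1)
    apply one_div_le_one_div_of_le (by positivity)
    push_cast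
    linarith
  have hεlim : Filter.Tendsto ε Filter.atTop (nhds 0) := by
    rw [hε]
    exact tendsto_one_div_add_atTop_nhds_zero_nat
  obtain ⟨F, hF⟩ : ∃ F : ℕ → Set (ℝ × ℝ × ℝ), F = fun k => {p | (0 ≤ p.1 ∧ p.1 ^ 2 + p.2.1 ^ 2 + p.2.2 ^ 2 = 1) ∧
      ∀ x, 0 ≤ p.1 * (b3 x x + ε k * n x x) + p.2.1 * b1 x x + p.2.2 * b2 x x} := ⟨_, rfl⟩
  have hmem : ∀ k (p : ℝ × ℝ × ℝ), p ∈ F k ↔ ((0 ≤ p.1 ∧ p.1 ^ 2 + p.2.1 ^ 2 + p.2.2 ^ 2 = 1) ∧
      ∀ x, 0 ≤ p.1 * (b3 x x + ε k * n x x) + p.2.1 * b1 x x + p.2.2 * b2 x x) := by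
    intro k p
    rw [hF]
    exact Iff.rfl
  have hne : ∀ k, (F k).Nonempty := by
    intro k
    have h3' : IsF (b3 + ε k • n) := by
      refine ⟨fun x y => ?_, fun q x y => ?_⟩
      · simp only [LinearMap.add_apply, LinearMap.smul_apply]
        rw [h3.symm x y, hn.symm x y]
      · simp only [LinearMap.add_apply, LinearMap.smul_apply]
        rw [h3.adj q x y, hn.adj q x y]
    obtain ⟨l, μ, ν, hl, hs, hx⟩ := s_strict h1 h2 h3' (by
      intro x hx0 e1 e2
      simp only [LinearMap.add_apply, LinearMap.smul_apply, smul_eq_mul]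
      have := h x e1 e2
      have := mul_pos (hεpos k) ((hpos x).2 hx0)
      linarith)
    refine ⟨(l, μ, ν), (hmem k _).mpr ⟨⟨hl, hs⟩, fun x => ?_⟩⟩
    have := hx x
    simp only [LinearMap.add_apply, LinearMap.smul_apply, smul_eq_mul] at this
    exact this
  have hclosed : ∀ k, IsClosed (F k) := by
    intro k
    have e : F k = ({p : ℝ × ℝ × ℝ | 0 ≤ p.1} ∩ {p | p.1 ^ 2 + p.2.1 ^ 2 + p.2.2 ^ 2 = 1}) ∩
        ⋂ x : V, {p | 0 ≤ p.1 * (b3 x x + ε k * n x x) + p.2.1 * b1 x x + p.2.2 * b2 x x} := by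
      ext p
      rw [hmem]
      simp only [Set.mem_inter_iff, Set.mem_ofPred_eq, Set.mem_iInter]
    rw [e]
    refine ((isClosed_le continuous_const continuous_fst).inter
      (isClosed_eq (by fun_prop) continuous_const)).inter (isClosed_iInter fun x => ?_)
    exact isClosed_le continuous_const (by fun_prop)
  have hcomp : IsCompact (F 0) := by
    refine (isCompact_Icc (a := ((-1, -1, -1) : ℝ × ℝ × ℝ)) (b := (1, 1, 1))).of_isClosed_subset (hclosed 0) ?_
    intro p hp
    obtain ⟨⟨_, hs⟩, _⟩ := (hmem 0 p).mp hp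
    have a1 : p.1 ^ 2 ≤ 1 := by nlinarith [sq_nonneg p.2.1, sq_nonneg p.2.2]
    have a2 : p.2.1 ^ 2 ≤ 1 := by nlinarith [sq_nonneg p.1, sq_nonneg p.2.2]
    have a3 : p.2.2 ^ 2 ≤ 1 := by nlinarith [sq_nonneg p.2.1, sq_nonneg p.1]
    have b1' := abs_le.mp ((sq_le_one_iff_abs_le_one _).mp a1)
    have b2' := abs_le.mp ((sq_le_one_iff_abs_le_one _).mp a2)
    have b3' := abs_le.mp ((sq_le_one_iff_abs_le_one _).mp a3)
    exact ⟨⟨b1'.1, b2'.1, b3'.1⟩, ⟨b1'.2, b2'.2, b3'.2⟩⟩
  have hanti : ∀ k, F (k + 1) ⊆ F k := by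
    intro k p hp
    obtain ⟨hp1, hp2⟩ := (hmem _ p).mp hp
    refine (hmem _ p).mpr ⟨hp1, fun x => ?_⟩
    have h4 := hp2 x
    have h5 : p.1 * (ε (k + 1) * n x x) ≤ p.1 * (ε k * n x x) :=
      mul_le_mul_of_nonneg_left (mul_le_mul_of_nonneg_right (hεanti k) (hpos x).1) hp1.1
    nlinarith
  obtain ⟨p, hp⟩ := IsCompact.nonempty_iInter_of_sequence_nonempty_isCompact_isClosed F hanti hne hcomp hclosed
  rw [Set.mem_iInter] at hp
  obtain ⟨hp1, hp2⟩ := (hmem 0 p).mp (hp 0)
  refine ⟨p.1, p.2.1, p.2.2, hp1.1, ?_, fun x => ?_⟩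
  · by_contra hcon
    push Not at hcon
    obtain ⟨c1, c2, c3⟩ := hcon
    have := hp1.2
    rw [c1, c2, c3] at this
    norm_num at this
  · have hlim : Filter.Tendsto (fun k => p.1 * (b3 x x + ε k * n x x) + p.2.1 * b1 x x + p.2.2 * b2 x x)
        Filter.atTop (nhds (p.1 * (b3 x x + 0 * n x x) + p.2.1 * b1 x x + p.2.2 * b2 x x)) :=
      ((((hεlim.mul_const _).const_add _).const_mul _).add_const _).add_const _
    have h6 := ge_of_tendsto' hlim fun k => ((hmem k p).mp (hp k)).2 x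
    rw [zero_mul, add_zero] at h6
    exact h6
end

section
/-! Pairs of quaternionic hermitian forms.  A right quaternionic space is a module over `Q`, the
opposite of the quaternions.  A quaternionic hermitian form `h` is represented by its real part
`b x y = Re h x y`, a real bilinear symmetric form with `b (q • x) y = b x (star q • y)`.
Subspaces are `Submodule Q V`, dimension is `Module.finrank Q`. -/
open scoped Quaternion
variable {V : Type} [AddCommGroup V] [Module Q V] [Module ℝ V] [IsScalarTower ℝ Q V]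


theorem max_def_re (r : Q) : r + star r = algebraMap ℝ Q (2 * (MulOpposite.unop r).re) := by
  apply MulOpposite.unop_injective
  rw [MulOpposite.unop_add, MulOpposite.unop_star, Quaternion.self_add_star]
  simp only [MulOpposite.algebraMap_apply, MulOpposite.unop_op]
  rw [map_mul]
  first
    | rfl
    | (congr 1)

theorem max_def_self {b : BF V} (hb : IsF b) (x : V) (r : Q) :
    2 * b x (r • x) = 2 * (MulOpposite.unop r).re * b x x := by
  have h1 : b x (r • x) = b x (star r • x) := by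
    rw [hb.symm, hb.adj]
  have h2 : b x (r • x) + b x (star r • x) = b x ((r + star r) • x) := by
    rw [add_smul, map_add]
  have h3 : b x (algebraMap ℝ Q (2 * (MulOpposite.unop r).re) • x)
      = 2 * (MulOpposite.unop r).re * b x x := by
    rw [algebraMap_smul, map_smul, smul_eq_mul]
  rw [max_def_re, h3] at h2
  rw [two_mul]
  nth_rewrite 2 [h1]
  exact h2

theorem max_def_cross {b : BF V} (hb : IsF b) (M : Submodule Q V) (x : V)
    (hM : ∀ m ∈ M, ∀ m' ∈ M, b m m' = 0)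
    (hx : ∀ m ∈ M, b m x = 0) (hxx : b x x = 0) (m m' : V) (hm : m ∈ M) (hm' : m' ∈ M)
    (p q : Q) : b (m + q • x) (m' + p • x) = 0 := by
  have h1 : b (q • x) (p • x) = 0 := by
    rw [hb.adj, smul_smul]
    have := max_def_self hb x (star q * p)
    rw [hxx, mul_zero] at this
    linarith
  have h2 : b m (p • x) = 0 := by
    rw [hb.symm, hb.adj, hb.symm]
    exact hx _ (M.smul_mem _ hm)
  have h3 : b (q • x) m' = 0 := by
    rw [hb.adj, hb.symm]
    exact hx _ (M.smul_mem _ hm')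
  rw [map_add, map_add, LinearMap.add_apply, LinearMap.add_apply, hM m hm m' hm', h1, h2, h3]
  simp

/-- at a maximal neutral subspace some member of the pencil is definite transversally -/
theorem max_def [FiniteDimensional Q V] {b a : BF V} (hb : IsF b) (ha : IsF a)
    {M : Submodule Q V} (hM : MaxNeu b a M) :
    ∃ μ ν : ℝ, ∀ v, (∀ m ∈ M, b m v = 0 ∧ a m v = 0) → v ∉ M → 0 < (μ • b + ν • a) v v := by
  obtain ⟨hN, hmax⟩ := hM
  obtain ⟨C, hC⟩ := Submodule.exists_isCompl M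
  have hMp : M ≤ orth b hb M ⊓ orth a ha M := by
    intro y hy
    exact ⟨fun x hx => (hN x hx y hy).1, fun x hx => (hN x hx y hy).2⟩
  -- isotropic vectors of Mp lie in M
  have hiso : ∀ x, (∀ m ∈ M, b m x = 0 ∧ a m x = 0) → b x x = 0 → a x x = 0 → x ∈ M := by
    intro x hx hb0 ha0
    have hneu : Neu b a (M ⊔ Submodule.span Q {x}) := by
      intro u hu v hv
      obtain ⟨m, hm, s, hs, rfl⟩ := Submodule.mem_sup.mp hu
      obtain ⟨m', hm', s', hs', rfl⟩ := Submodule.mem_sup.mp hv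
      obtain ⟨q, rfl⟩ := Submodule.mem_span_singleton.mp hs
      obtain ⟨p, rfl⟩ := Submodule.mem_span_singleton.mp hs'
      exact ⟨max_def_cross hb M x (fun m hm m' hm' => (hN m hm m' hm').1)
          (fun m hm => (hx m hm).1) hb0 m m' hm hm' p q,
        max_def_cross ha M x (fun m hm m' hm' => (hN m hm m' hm').2)
          (fun m hm => (hx m hm).2) ha0 m m' hm hm' p q⟩
    have heq := hmax _ hneu le_sup_left
    rw [← heq]
    exact Submodule.mem_sup_right (Submodule.mem_span_singleton_self x)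
  obtain ⟨μ, ν, hμν⟩ := def_lemma hb ha (C ⊓ (orth b hb M ⊓ orth a ha M)) (by
    intro x hx h1 h2
    have hxM : x ∈ M := hiso x (fun m hm => ⟨hx.2.1 m hm, hx.2.2 m hm⟩) h1 h2
    have := hC.disjoint.le_bot ⟨hxM, hx.1⟩
    exact (Submodule.mem_bot Q).mp this)
  refine ⟨μ, ν, ?_⟩
  intro v hv hvM
  have hvMp : v ∈ orth b hb M ⊓ orth a ha M := ⟨fun m hm => (hv m hm).1, fun m hm => (hv m hm).2⟩
  have hmod : M ⊔ C ⊓ (orth b hb M ⊓ orth a ha M) = orth b hb M ⊓ orth a ha M := by
    rw [← sup_inf_assoc_of_le _ hMp, hC.sup_eq_top, top_inf_eq]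
  rw [← hmod] at hvMp
  obtain ⟨m, hm, x, hx, rfl⟩ := Submodule.mem_sup.mp hvMp
  have hx0 : x ≠ 0 := by
    rintro rfl
    apply hvM
    rw [add_zero]
    exact hm
  have key := hμν x hx hx0
  have hbx : b m x = 0 := hx.2.1 m hm
  have hax : a m x = 0 := hx.2.2 m hm
  have hbx' : b x m = 0 := by rw [hb.symm]; exact hbx
  have hax' : a x m = 0 := by rw [ha.symm]; exact hax
  have hbm : b m m = 0 := (hN m hm m hm).1
  have ham : a m m = 0 := (hN m hm m hm).2
  have e1 : b (m + x) (m + x) = b x x := by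
    rw [map_add, map_add, LinearMap.add_apply, LinearMap.add_apply, hbm, hbx, hbx']
    ring
  have e2 : a (m + x) (m + x) = a x x := by
    rw [map_add, map_add, LinearMap.add_apply, LinearMap.add_apply, ham, hax, hax']
    ring
  simp only [LinearMap.add_apply, LinearMap.smul_apply, smul_eq_mul] at key ⊢
  rw [e1, e2]
  exact key
end

section
/-! Pairs of quaternionic hermitian forms.  A right quaternionic space is a module over `Q`, the
opposite of the quaternions.  A quaternionic hermitian form `h` is represented by its real part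
`b x y = Re h x y`, a real bilinear symmetric form with `b (q • x) y = b x (star q • y)`.
Subspaces are `Submodule Q V`, dimension is `Module.finrank Q`. -/
open scoped Quaternion
variable {V : Type} [AddCommGroup V] [Module Q V] [Module ℝ V] [IsScalarTower ℝ Q V]


theorem max_def_nd [FiniteDimensional Q V] {b a : BF V} (hb : IsF b) (ha : IsF a)
    (hreg : ∃ μ ν : ℝ, Nd (μ • b + ν • a)) {M : Submodule Q V} (hM : MaxNeu b a M) :
    ∃ μ ν : ℝ, Nd (μ • b + ν • a) ∧
      ∀ v, (∀ m ∈ M, b m v = 0 ∧ a m v = 0) → v ∉ M → 0 < (μ • b + ν • a) v v := by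
  obtain ⟨μ, ν, hμν⟩ := max_def hb ha hM
  obtain ⟨N, hN⟩ := Submodule.exists_isCompl M
  have hMp : M ≤ orth b hb M ⊓ orth a ha M := by
    intro x hx
    exact ⟨fun y hy => (hM.1 y hy x hx).1, fun y hy => (hM.1 y hy x hx).2⟩
  set M' : Submodule Q V := N ⊓ (orth b hb M ⊓ orth a ha M) with hM'
  have hneg : NegOn (-(μ • b + ν • a)) M' := by
    intro x hx hx0
    have h1 : x ∉ M := by
      intro hxM
      have : x ∈ M ⊓ N := ⟨hxM, hx.1⟩
      rw [hN.inf_eq_bot] at this
      exact hx0 ((Submodule.mem_bot Q).mp this)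
    have h2 := hμν x (fun m hm => ⟨hx.2.1 m hm, hx.2.2 m hm⟩) h1
    simp only [LinearMap.neg_apply]
    linarith
  obtain ⟨ε1, hε1, H1⟩ := neg_open (-(μ • b + ν • a)) b M' hneg
  obtain ⟨ε2, hε2, H2⟩ := neg_open (-(μ • b + ν • a)) a M' hneg
  have hε : 0 < min ε1 ε2 / 2 := by positivity
  obtain ⟨μ', ν', hμ', hν', hnd⟩ := nd_generic hb ha hreg μ ν (min ε1 ε2 / 2) hε
  refine ⟨μ', ν', hnd, ?_⟩
  have hpos : ∀ w ∈ M', w ≠ 0 → 0 < (μ' • b + ν' • a) w w := by
    intro w hw hw0
    have m1 : min ε1 ε2 ≤ ε1 := min_le_left _ _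
    have m2 : min ε1 ε2 ≤ ε2 := min_le_right _ _
    have k1 := H1 0 (-(2 * (μ' - μ))) (by simpa using hε1)
      (by rw [abs_neg, abs_mul, abs_two]; linarith) w hw hw0
    have k2 := H2 0 (-(2 * (ν' - ν))) (by simpa using hε2)
      (by rw [abs_neg, abs_mul, abs_two]; linarith) w hw hw0
    simp only [LinearMap.add_apply, LinearMap.smul_apply, LinearMap.neg_apply, smul_eq_mul] at k1 k2 ⊢
    linarith
  intro v hv hvM
  have hvp : v ∈ orth b hb M ⊓ orth a ha M := ⟨fun m hm => (hv m hm).1, fun m hm => (hv m hm).2⟩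
  have hsup : M ⊔ M' = orth b hb M ⊓ orth a ha M := by
    rw [hM', ← sup_inf_assoc_of_le N hMp, hN.sup_eq_top, top_inf_eq]
  rw [← hsup] at hvp
  obtain ⟨m, hm, w, hw, rfl⟩ := Submodule.mem_sup.mp hvp
  have hw0 : w ≠ 0 := by
    rintro rfl
    exact hvM (by simpa using hm)
  have hd := hpos w hw hw0
  have b1 : b m m = 0 := (hM.1 m hm m hm).1
  have a1 : a m m = 0 := (hM.1 m hm m hm).2
  have b2 : b m w = 0 := hw.2.1 m hm
  have a2 : a m w = 0 := hw.2.2 m hm
  have b3 : b w m = 0 := by rw [hb.symm, b2]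
  have a3 : a w m = 0 := by rw [ha.symm, a2]
  simp only [LinearMap.add_apply, LinearMap.smul_apply, smul_eq_mul, map_add] at hd ⊢
  rw [b1, a1, b2, a2, b3, a3]
  linarith
end

end Pool.QN
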