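import Pool.Agent.Helper9.QN.Defs
import Pool.Agent.Helper9.QP.A1
import Pool.Agent.Helper9.QP.B1

set_option autoImplicit false
set_option maxHeartbeats 1000000

namespace Pool.QN

section
/-! Pairs of quaternionic hermitian forms.  A right quaternionic space is a module over `Q`, the
opposite of the quaternions.  A quaternionic hermitian form `h` is represented by its real part
`b x y = Re h x y`, a real bilinear symmetric form with `b (q • x) y = b x (star q • y)`.
Subspaces are `Submodule Q V`, dimension is `Module.finrank Q`. -/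
open scoped Quaternion
variable {V : Type} [AddCommGroup V] [Module Q V] [Module ℝ V] [IsScalarTower ℝ Q V]


theorem tt_app' (b : BF V) (X : V →ₗ[Q] V) (x y : V) : tt b X x y = b (X x) (X y) := rfl

/-- a vector of square zero in a semidefinite subspace is in the radical -/
theorem cs_zero' {S : BF V} (hS : IsF S) (M2 : Submodule Q V) (hn : NonnegOn S M2) {r m : V}
    (hr : r ∈ M2) (hm : m ∈ M2) (h0 : S r r = 0) : S r m = 0 := by
  have key : ∀ t : ℝ, 0 ≤ S m m + 2 * t * S r m := by
    intro t
    have ht : t • r ∈ M2 := by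
      have : (t • r : V) = (t • (1 : Q)) • r := by rw [smul_assoc, one_smul]
      rw [this]
      exact M2.smul_mem _ hr
    have h1 := hn (m + t • r) (M2.add_mem hm ht)
    have h2 : S (m + t • r) (m + t • r) = S m m + 2 * t * S r m := by
      simp only [map_add, LinearMap.add_apply, map_smul, LinearMap.smul_apply, smul_eq_mul]
      rw [h0, hS.symm m r]
      ring
    rw [h2] at h1
    exact h1
  by_contra hne
  have h3 := key (-(S m m + 1) / (2 * S r m))
  have h4 : 2 * (-(S m m + 1) / (2 * S r m)) * S r m = -(S m m + 1) := by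
    field_simp
  rw [h4] at h3
  linarith

theorem inertia_bound [FiniteDimensional Q V] {C D : BF V} (hC : IsF C) (hD : IsF D)
    (hnd : Nd C) (X : V →ₗ[Q] V) (hX : ∀ x y, C x (X y) = D x y) (M : Submodule Q V)
    (hM : Neu C D M)
    (hpos : ∀ v, (∀ m ∈ M, C m v = 0 ∧ D m v = 0) → v ∉ M → 0 < C v v) (p q : ℝ) :
    nn C ⊤ ≤ Module.finrank Q M + nn (tt C X + p • D + q • C) ⊤ := by
  have hS : IsF (tt C X) := isF_tt hC X
  have hXl : ∀ x y, C (X x) y = D x y := by
    intro x y
    rw [hC.symm, hX, hD.symm]
  obtain ⟨M1, M2, hM1, hM2, hneg, hnonneg, hort, _, hsup, _, _⟩ := exists_decomp hS M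
  -- the splitting of `M2`
  obtain ⟨M3, R, hM3, hR, hpos3, hR0, hort3, _, hsup2, _, _⟩ :=
    exists_decomp (isF_smul hS (-1)) M2
  have hpos3' : ∀ x ∈ M3, x ≠ 0 → 0 < tt C X x x := by
    intro x hx hx0
    have h1 := hpos3 x hx hx0
    have h2 : ((-1 : ℝ) • tt C X) x x = -(tt C X x x) := by
      simp
    rw [h2] at h1
    linarith
  have hRz : ∀ x ∈ R, tt C X x x = 0 := by
    intro x hx
    have h1 := hR0 x hx
    have h2 : ((-1 : ℝ) • tt C X) x x = -(tt C X x x) := by
      simp
    rw [h2] at h1
    have h3 := hnonneg x (hR hx)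
    linarith
  have hRM : ∀ r ∈ R, ∀ m ∈ M, tt C X r m = 0 := by
    intro r hr m hm
    rw [← hsup] at hm
    obtain ⟨m1, hm1, m2, hm2, rfl⟩ := Submodule.mem_sup.mp hm
    rw [map_add, cs_zero' hS M2 hnonneg (hR hr) hm2 (hRz r hr), add_zero, hS.symm]
    exact hort m1 hm1 r (hR hr)
  have hXR : ∀ r ∈ R, X r ∈ M := by
    intro r hr
    by_contra hn
    have h1 := hpos (X r) (by
      intro m hm
      constructor
      · rw [hX]
        exact (hM m hm r (hM2 (hR hr))).2
      · rw [← hXl, ← tt_app', hS.symm]
        exact hRM r hr m hm) hn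
    rw [← tt_app', hRz r hr] at h1
    exact lt_irrefl _ h1
  -- the negative part
  have hG : Module.finrank Q M1 ≤ nn (tt C X + p • D + q • C) ⊤ := by
    apply le_nn _ le_top
    intro x hx hx0
    have h1 := hneg x hx hx0
    have h2 := hM x (hM1 hx) x (hM1 hx)
    have h3 : (tt C X + p • D + q • C) x x = tt C X x x := by
      simp only [LinearMap.add_apply, LinearMap.smul_apply, smul_eq_mul]
      rw [h2.1, h2.2]
      ring
    rw [h3]
    exact h1
  -- the space `W`
  have hW : NonnegOn C (orth C hC (M ⊔ M1.map X)) := by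
    intro w hw
    have hw1 : ∀ m ∈ M, C m w = 0 := fun m hm => hw m (Submodule.mem_sup_left hm)
    have hw2 : ∀ m ∈ M1, C (X m) w = 0 := fun m hm =>
      hw (X m) (Submodule.mem_sup_right (Submodule.mem_map_of_mem hm))
    have hU := orth_compl_in hC (M3.map X) ⊤ le_top (by
      rintro x hx hxy
      obtain ⟨m, hm, rfl⟩ := Submodule.mem_map.mp hx
      by_contra hne
      have hm0 : m ≠ 0 := by
        rintro rfl
        exact hne (map_zero X)
      have h1 := hpos3' m hm hm0
      rw [tt_app', hxy (X m) hx] at h1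
      exact lt_irrefl _ h1)
    have hwtop : w ∈ M3.map X ⊔ (⊤ ⊓ orth C hC (M3.map X)) := by
      rw [hU.2]
      exact Submodule.mem_top
    obtain ⟨u, hu, w', hw', huw⟩ := Submodule.mem_sup.mp hwtop
    obtain ⟨m3, hm3, rfl⟩ := Submodule.mem_map.mp hu
    have hm3M : m3 ∈ M := hM2 (hM3 hm3)
    have hw'3 : ∀ m ∈ M3, C (X m) w' = 0 := fun m hm => hw'.2 (X m) (Submodule.mem_map_of_mem hm)
    have hw'M : ∀ m ∈ M, C m w' = 0 := by
      intro m hm
      have h1 := hw1 m hm
      rw [← huw, map_add, hX, (hM m hm m3 hm3M).2, zero_add] at h1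
      exact h1
    have hw'1 : ∀ m ∈ M1, C (X m) w' = 0 := by
      intro m hm
      have h1 := hw2 m hm
      rw [← huw, map_add, ← tt_app', hort m hm m3 (hM3 hm3), zero_add] at h1
      exact h1
    have hw'X : ∀ m ∈ M, C (X m) w' = 0 := by
      intro m hm
      rw [← hsup] at hm
      obtain ⟨m1, hm1, m2, hm2, rfl⟩ := Submodule.mem_sup.mp hm
      rw [← hsup2] at hm2
      obtain ⟨a, ha, r, hr, rfl⟩ := Submodule.mem_sup.mp hm2
      rw [map_add, map_add, map_add, map_add, LinearMap.add_apply, LinearMap.add_apply,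
        hw'1 m1 hm1, hw'3 a ha, hw'M (X r) (hXR r hr)]
      ring
    have hw'pos : 0 ≤ C w' w' := by
      by_cases hmem : w' ∈ M
      · rw [(hM w' hmem w' hmem).1]
      · exact (hpos w' (fun m hm => ⟨hw'M m hm, by rw [← hXl]; exact hw'X m hm⟩) hmem).le
    have hS3 : 0 ≤ tt C X m3 m3 := hnonneg m3 (hM3 hm3)
    have hww : C w w = tt C X m3 m3 + C w' w' := by
      rw [← huw, tt_app']
      simp only [map_add, LinearMap.add_apply]
      rw [hC.symm w' (X m3), hw'3 m3 hm3]
      ring
    rw [hww]
    linarith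
  have h1 := nn_add_le C (P := orth C hC (M ⊔ M1.map X)) le_top hW
  have h2 := finrank_orth_ge hC (M ⊔ M1.map X)
  have h3 : Module.finrank Q (M ⊔ M1.map X : Submodule Q V) ≤
      Module.finrank Q M + Module.finrank Q (M1.map X) :=
    Submodule.finrank_add_le_finrank_add_finrank M (M1.map X)
  have h4 : Module.finrank Q (M1.map X) ≤ Module.finrank Q M1 := Submodule.finrank_map_le X M1
  rw [finrank_top] at h1
  omega
end

section
/-! Pairs of quaternionic hermitian forms.  A right quaternionic space is a module over `Q`, the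
opposite of the quaternions.  A quaternionic hermitian form `h` is represented by its real part
`b x y = Re h x y`, a real bilinear symmetric form with `b (q • x) y = b x (star q • y)`.
Subspaces are `Submodule Q V`, dimension is `Module.finrank Q`. -/
open scoped Quaternion
variable {V : Type} [AddCommGroup V] [Module Q V] [Module ℝ V] [IsScalarTower ℝ Q V]


theorem neu_le [FiniteDimensional Q V] {b : BF V} (hb : IsF b) (hnd : Nd b)
    {M : Submodule Q V} (h : ∀ x ∈ M, b x x = 0) : Module.finrank Q M ≤ nn b ⊤ := by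
  exact nonpos_le_nn hb hnd M (fun x hx => (h x hx).le)
end

section
/-! Pairs of quaternionic hermitian forms.  A right quaternionic space is a module over `Q`, the
opposite of the quaternions.  A quaternionic hermitian form `h` is represented by its real part
`b x y = Re h x y`, a real bilinear symmetric form with `b (q • x) y = b x (star q • y)`.
Subspaces are `Submodule Q V`, dimension is `Module.finrank Q`. -/
open scoped Quaternion
variable {V : Type} [AddCommGroup V] [Module Q V] [Module ℝ V] [IsScalarTower ℝ Q V]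


theorem kmin_iff {b a : BF V} (hreg : ∃ μ ν : ℝ, Nd (μ • b + ν • a)) (c : BF V) :
    KMin b a c ↔ Nd c := by
  obtain ⟨μ, ν, hn⟩ := hreg
  constructor
  · intro hk x hx
    obtain ⟨h1, h2⟩ := hk x hx
    refine hn x (fun y => ?_)
    simp [h1 y, h2 y]
  · intro hc x hx
    have h0 := hc x hx
    subst h0
    exact ⟨fun y => by simp, fun y => by simp⟩
end

section
/-! Pairs of quaternionic hermitian forms.  A right quaternionic space is a module over `Q`, the
opposite of the quaternions.  A quaternionic hermitian form `h` is represented by its real part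
`b x y = Re h x y`, a real bilinear symmetric form with `b (q • x) y = b x (star q • y)`.
Subspaces are `Submodule Q V`, dimension is `Module.finrank Q`. -/
open scoped Quaternion
variable {V : Type} [AddCommGroup V] [Module Q V] [Module ℝ V] [IsScalarTower ℝ Q V]


theorem kap_spec [FiniteDimensional Q V] {b a : BF V} (hreg : ∃ μ ν : ℝ, Nd (μ • b + ν • a)) :
    (∃ μ ν : ℝ, Nd (μ • b + ν • a) ∧ nn (μ • b + ν • a) ⊤ = kap b a) ∧
    (∀ μ ν : ℝ, Nd (μ • b + ν • a) → kap b a ≤ nn (μ • b + ν • a) ⊤) := by
  constructor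
  · have hne : {k | ∃ μ ν : ℝ, KMin b a (μ • b + ν • a) ∧ nn (μ • b + ν • a) ⊤ = k}.Nonempty := by
      obtain ⟨μ, ν, h⟩ := hreg
      exact ⟨_, μ, ν, (kmin_iff ⟨μ, ν, h⟩ _).mpr h, rfl⟩
    obtain ⟨μ, ν, h1, h2⟩ := Nat.sInf_mem hne
    exact ⟨μ, ν, (kmin_iff hreg _).mp h1, h2⟩
  · intro μ ν h
    exact Nat.sInf_le ⟨μ, ν, (kmin_iff hreg _).mpr h, rfl⟩
end

section
/-! Pairs of quaternionic hermitian forms.  A right quaternionic space is a module over `Q`, the
opposite of the quaternions.  A quaternionic hermitian form `h` is represented by its real part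
`b x y = Re h x y`, a real bilinear symmetric form with `b (q • x) y = b x (star q • y)`.
Subspaces are `Submodule Q V`, dimension is `Module.finrank Q`. -/
open scoped Quaternion
variable {V : Type} [AddCommGroup V] [Module Q V] [Module ℝ V] [IsScalarTower ℝ Q V]


/-- the complementary bound for all members of the pencil -/
theorem kap_all [FiniteDimensional Q V] {b a : BF V} (hb : IsF b) (ha : IsF a)
    (hreg : ∃ μ ν : ℝ, Nd (μ • b + ν • a)) (μ ν : ℝ) :
    nn (μ • b + ν • a) ⊤ + kap b a ≤ Module.finrank Q V := by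
  obtain ⟨U, -, hU, hUr⟩ := exists_neg (μ • b + ν • a) (⊤ : Submodule Q V)
  obtain ⟨ε1, h1, H1⟩ := neg_open (μ • b + ν • a) b U hU
  obtain ⟨ε2, h2, H2⟩ := neg_open (μ • b + ν • a) a U hU
  have hmin : 0 < min ε1 ε2 / 2 := by
    have := lt_min h1 h2
    linarith
  obtain ⟨μ', ν', hμ, hν, hnd⟩ := nd_generic hb ha hreg μ ν (min ε1 ε2 / 2) hmin
  have hneg : NegOn (μ' • b + ν' • a) U := by
    intro x hx hx0
    have m1 : |2 * (μ' - μ)| < ε1 := by
      rw [abs_mul, abs_two]
      have := min_le_left ε1 ε2
      linarith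
    have m2 : |2 * (ν' - ν)| < ε2 := by
      rw [abs_mul, abs_two]
      have := min_le_right ε1 ε2
      linarith
    have e1 := H1 0 (2 * (μ' - μ)) (by rw [abs_zero]; exact h1) m1 x hx hx0
    have e2 := H2 0 (2 * (ν' - ν)) (by rw [abs_zero]; exact h2) m2 x hx hx0
    simp only [LinearMap.add_apply, LinearMap.smul_apply, smul_eq_mul] at e1 e2 ⊢
    linarith
  have h3 := le_nn (μ' • b + ν' • a) (le_top : U ≤ ⊤) hneg
  have hF : IsF (μ' • b + ν' • a) := isF_add (isF_smul hb μ') (isF_smul ha ν')
  have h4 := nn_neg_add hF hnd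
  have h5 : -(μ' • b + ν' • a) = (-μ') • b + (-ν') • a := by
    apply LinearMap.ext
    intro x
    apply LinearMap.ext
    intro y
    simp only [LinearMap.neg_apply, LinearMap.add_apply, LinearMap.smul_apply, smul_eq_mul]
    ring
  have hnd' : Nd ((-μ') • b + (-ν') • a) := by
    intro x hx
    apply hnd x
    intro y
    have h6 := hx y
    rw [← h5] at h6
    simp only [LinearMap.neg_apply] at h6
    exact neg_eq_zero.mp h6
  have h7 := (kap_spec hreg).2 (-μ') (-ν') hnd'
  rw [← h5] at h7
  omega
end

section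
/-! Pairs of quaternionic hermitian forms.  A right quaternionic space is a module over `Q`, the
opposite of the quaternions.  A quaternionic hermitian form `h` is represented by its real part
`b x y = Re h x y`, a real bilinear symmetric form with `b (q • x) y = b x (star q • y)`.
Subspaces are `Submodule Q V`, dimension is `Module.finrank Q`. -/
open scoped Quaternion
variable {V : Type} [AddCommGroup V] [Module Q V] [Module ℝ V] [IsScalarTower ℝ Q V]


/-- neutrality passes to another basis of the pencil -/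
theorem neu_comb {b a : BF V} {μ ν ρ τ : ℝ} (hd : μ * τ - ν * ρ ≠ 0) (M : Submodule Q V) :
    Neu (μ • b + ν • a) (ρ • b + τ • a) M ↔ Neu b a M := by
  have hc : ∀ (p q : ℝ) (x y : V), (p • b + q • a) x y = p * b x y + q * a x y := by
    intro p q x y
    simp only [LinearMap.add_apply, LinearMap.smul_apply, smul_eq_mul]
  constructor
  · intro h x hx y hy
    obtain ⟨h1, h2⟩ := h x hx y hy
    rw [hc] at h1 h2
    constructor
    · have h3 : (μ * τ - ν * ρ) * b x y = 0 := by linear_combination τ * h1 - ν * h2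
      exact (mul_eq_zero.1 h3).resolve_left hd
    · have h3 : (μ * τ - ν * ρ) * a x y = 0 := by linear_combination μ * h2 - ρ * h1
      exact (mul_eq_zero.1 h3).resolve_left hd
  · intro h x hx y hy
    obtain ⟨h1, h2⟩ := h x hx y hy
    rw [hc, hc, h1, h2]
    constructor <;> ring
end

section
/-! Pairs of quaternionic hermitian forms.  A right quaternionic space is a module over `Q`, the
opposite of the quaternions.  A quaternionic hermitian form `h` is represented by its real part
`b x y = Re h x y`, a real bilinear symmetric form with `b (q • x) y = b x (star q • y)`.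
Subspaces are `Submodule Q V`, dimension is `Module.finrank Q`. -/
open scoped Quaternion
variable {V : Type} [AddCommGroup V] [Module Q V] [Module ℝ V] [IsScalarTower ℝ Q V]


theorem maxNeu_comb {b a : BF V} {μ ν ρ τ : ℝ} (hd : μ * τ - ν * ρ ≠ 0) (M : Submodule Q V) :
    MaxNeu (μ • b + ν • a) (ρ • b + τ • a) M ↔ MaxNeu b a M := by
  have h : ∀ N : Submodule Q V, Neu (μ • b + ν • a) (ρ • b + τ • a) N ↔ Neu b a N :=
    fun N => neu_comb hd N
  unfold MaxNeu
  rw [h M]
  constructor
  · rintro ⟨h1, h2⟩
    exact ⟨h1, fun M' hM' hle => h2 M' ((h M').2 hM') hle⟩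
  · rintro ⟨h1, h2⟩
    exact ⟨h1, fun M' hM' hle => h2 M' ((h M').1 hM') hle⟩
end

section
/-! Pairs of quaternionic hermitian forms.  A right quaternionic space is a module over `Q`, the
opposite of the quaternions.  A quaternionic hermitian form `h` is represented by its real part
`b x y = Re h x y`, a real bilinear symmetric form with `b (q • x) y = b x (star q • y)`.
Subspaces are `Submodule Q V`, dimension is `Module.finrank Q`. -/
open scoped Quaternion
variable {V : Type} [AddCommGroup V] [Module Q V] [Module ℝ V] [IsScalarTower ℝ Q V]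


/-- sufficiency of the inertia criterion, regular case -/
theorem suff [FiniteDimensional Q V] {b a : BF V} (hb : IsF b) (ha : IsF a)
    (hreg : ∃ μ ν : ℝ, Nd (μ • b + ν • a)) (hcrit : Crit b a) {M : Submodule Q V}
    (hM : MaxNeu b a M) : Module.finrank Q M = kap b a := by
  have hF : ∀ μ ν : ℝ, IsF (μ • b + ν • a) := fun μ ν => isF_add (isF_smul hb μ) (isF_smul ha ν)
  have hap : ∀ (μ ν : ℝ) (x y : V), (μ • b + ν • a) x y = μ * b x y + ν * a x y := by
    intro μ ν x y
    simp [LinearMap.add_apply, LinearMap.smul_apply]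
  obtain ⟨⟨μ0, ν0, hnd0, hk⟩, hmin⟩ := kap_spec hreg
  apply le_antisymm
  · rw [← hk]
    apply neu_le (hF μ0 ν0) hnd0
    intro x hx
    obtain ⟨h1, h2⟩ := hM.1 x hx x hx
    rw [hap, h1, h2]; ring
  · obtain ⟨μ, ν, hnd, hpos⟩ := max_def_nd hb ha hreg hM
    have key : ∀ ρ τ : ℝ, μ * τ - ν * ρ ≠ 0 → kap b a ≤ Module.finrank Q M := by
      intro ρ τ hd
      obtain ⟨X, hX, p, q, hineq⟩ := hcrit μ ν ρ τ hd ((kmin_iff hreg _).2 hnd)
      have hib := inertia_bound (hF μ ν) (hF ρ τ) hnd X hX M ((neu_comb hd M).2 hM.1) (by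
        intro v hv hvM
        apply hpos v _ hvM
        intro m hm
        obtain ⟨h1, h2⟩ := hv m hm
        rw [hap] at h1 h2
        have e1 : (μ * τ - ν * ρ) * b m v = 0 := by linear_combination τ * h1 - ν * h2
        have e2 : (μ * τ - ν * ρ) * a m v = 0 := by linear_combination μ * h2 - ρ * h1
        exact ⟨(mul_eq_zero.1 e1).resolve_left hd, (mul_eq_zero.1 e2).resolve_left hd⟩) p q
      omega
    by_cases hμ : μ = 0
    · by_cases hν : ν = 0
      · have hV : ∀ x : V, x = 0 := by
          intro x
          apply hnd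
          intro y
          rw [hap, hμ, hν]; ring
        have h1 := hmin μ ν hnd
        have h2 : nn (μ • b + ν • a) ⊤ ≤ 0 := by
          unfold nn
          apply csSup_le'
          rintro k ⟨U, -, -, rfl⟩
          have hsub : Subsingleton U := ⟨fun u v => Subtype.ext ((hV u.1).trans (hV v.1).symm)⟩
          rw [Module.finrank_zero_of_subsingleton]
        omega
      · exact key 1 0 (by
          rw [mul_zero, mul_one, zero_sub]
          exact neg_ne_zero.2 hν)
    · exact key 0 1 (by
        rw [mul_zero, mul_one, sub_zero]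
        exact hμ)
end

section
/-! Pairs of quaternionic hermitian forms.  A right quaternionic space is a module over `Q`, the
opposite of the quaternions.  A quaternionic hermitian form `h` is represented by its real part
`b x y = Re h x y`, a real bilinear symmetric form with `b (q • x) y = b x (star q • y)`.
Subspaces are `Submodule Q V`, dimension is `Module.finrank Q`. -/
open scoped Quaternion
variable {V : Type} [AddCommGroup V] [Module Q V] [Module ℝ V] [IsScalarTower ℝ Q V]


section suff
variable {V : Type} [AddCommGroup V] [Module Q V] [Module ℝ V] [IsScalarTower ℝ Q V]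

theorem sd_finite_real [FiniteDimensional Q V] (M : Submodule Q V) : Module.Finite ℝ M := by
  have h1 : Module.Finite ℝ Q := inferInstance
  exact Module.Finite.trans Q M

theorem sd_finrank [FiniteDimensional Q V] (M : Submodule Q V) :
    Module.finrank ℝ M = Module.finrank ℝ Q * Module.finrank Q M :=
  (Module.finrank_mul_finrank ℝ Q M).symm

theorem sd_pos : 0 < Module.finrank ℝ Q := by
  have h1 : Module.Finite ℝ Q := inferInstance
  exact Module.finrank_pos

/-- Cauchy-Schwarz for semidefinite forms -/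
theorem sd_kernel {c : BF V} (hc : IsF c) (h0 : ∀ x, 0 ≤ c x x) (x : V) (hx : c x x = 0) (y : V) :
    c x y = 0 := by
  by_contra hne
  have h1 : ∀ t : ℝ, 0 ≤ 2 * t * c x y + t ^ 2 * c y y := by
    intro t
    have h2 := h0 (x + t • y)
    have h3 : c (x + t • y) (x + t • y) = 2 * t * c x y + t ^ 2 * c y y := by
      simp only [map_add, LinearMap.add_apply, map_smul, LinearMap.smul_apply, smul_eq_mul]
      rw [hx, hc.symm y x]
      ring
    rw [h3] at h2
    exact h2
  have hr := h0 y
  have h4 := h1 (-(c x y) / (c y y + 1))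
  have hpos : 0 < c y y + 1 := by linarith
  have h5 : 2 * (-(c x y) / (c y y + 1)) * c x y + (-(c x y) / (c y y + 1)) ^ 2 * c y y =
      -(c x y) ^ 2 * (c y y + 2) / (c y y + 1) ^ 2 := by
    field_simp
    ring
  rw [h5] at h4
  have h6 : 0 < (c x y) ^ 2 := by positivity
  have h7 : -(c x y) ^ 2 * (c y y + 2) / (c y y + 1) ^ 2 < 0 := by
    apply div_neg_of_neg_of_pos
    · nlinarith
    · positivity
  linarith

/-- the pairing -/
noncomputable def sd_pair (d : BF V) (M N : Submodule Q V) : M →ₗ[ℝ] Module.Dual ℝ N :=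
  LinearMap.mk₂ ℝ (fun (x : M) (y : N) => d (y : V) (x : V))
    (fun x x' y => by
      rw [Submodule.coe_add, map_add])
    (fun r x y => by
      have h : ((r • x : M) : V) = r • (x : V) := rfl
      rw [h, map_smul])
    (fun x y y' => by
      rw [Submodule.coe_add, map_add, LinearMap.add_apply])
    (fun r x y => by
      have h : ((r • y : N) : V) = r • (y : V) := rfl
      rw [h, map_smul, LinearMap.smul_apply])

theorem sd_dim [FiniteDimensional Q V] (d : BF V) (M N : Submodule Q V)
    (hM : ∀ x ∈ M, ∀ y ∈ M, d x y = 0) (hN : ∀ x ∈ M, (∀ y ∈ N, d y x = 0) → x ∈ N) :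
    Module.finrank ℝ M ≤ Module.finrank ℝ N := by
  have hMf := sd_finite_real M
  have hNf := sd_finite_real N
  let P : Submodule ℝ N :=
    { carrier := {y | (y : V) ∈ M}
      add_mem' := fun {a b} ha hb => M.add_mem ha hb
      zero_mem' := M.zero_mem
      smul_mem' := fun r y hy => by
        have h : ((r • y : N) : V) = (r • (1 : Q)) • (y : V) := by
          rw [smul_assoc, one_smul]
          rfl
        change ((r • y : N) : V) ∈ M
        rw [h]
        exact M.smul_mem _ hy }
  have h1 := LinearMap.finrank_range_add_finrank_ker (sd_pair d M N)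
  have h2 : LinearMap.range (sd_pair d M N) ≤ P.dualAnnihilator := by
    rintro _ ⟨x, rfl⟩
    rw [Submodule.mem_dualAnnihilator]
    intro y hy
    exact hM (y : V) hy (x : V) x.2
  have h3 : Module.finrank ℝ (LinearMap.range (sd_pair d M N)) ≤
      Module.finrank ℝ P.dualAnnihilator := Submodule.finrank_mono h2
  have h4 := Subspace.finrank_add_finrank_dualAnnihilator_eq P
  have hkerN : ∀ x : LinearMap.ker (sd_pair d M N), ((x : M) : V) ∈ N := by
    intro x
    refine hN _ (x : M).2 fun y hy => ?_
    have h5 : sd_pair d M N (x : M) = 0 := x.2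
    have h6 := congrArg (fun f => f ⟨y, hy⟩) h5
    exact h6
  let ψ : LinearMap.ker (sd_pair d M N) →ₗ[ℝ] P :=
    { toFun := fun x => ⟨⟨((x : M) : V), hkerN x⟩, (x : M).2⟩
      map_add' := fun x y => rfl
      map_smul' := fun r x => rfl }
  have h5 : Function.Injective ψ := by
    intro x y hxy
    have h6 : ((x : M) : V) = ((y : M) : V) := congrArg (fun z : P => ((z : N) : V)) hxy
    exact Subtype.ext (Subtype.ext h6)
  have h6 := LinearMap.finrank_le_finrank_of_injective h5
  omega

/-- maximal neutral subspaces of a pair with a semidefinite member -/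
theorem sd_mem {c d : BF V} (hc : IsF c) (hd : IsF d) (h0 : ∀ x, 0 ≤ c x x)
    (M N : Submodule Q V) (hM : Neu c d M) (hN : MaxNeu c d N) (x : V) (hx : x ∈ M)
    (hxN : ∀ y ∈ N, d y x = 0) : x ∈ N := by
  have hkM : ∀ z ∈ M, ∀ y, c z y = 0 := fun z hz y =>
    sd_kernel hc h0 z (hM z hz z hz).1 y
  have hkN : ∀ z ∈ N, ∀ y, c z y = 0 := fun z hz y =>
    sd_kernel hc h0 z (hN.1 z hz z hz).1 y
  have hneu : Neu c d (N ⊔ (M ⊓ orth d hd N)) := by
    intro z hz w hw
    obtain ⟨n, hn, m, hm, rfl⟩ := Submodule.mem_sup.1 hz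
    obtain ⟨n', hn', m', hm', rfl⟩ := Submodule.mem_sup.1 hw
    obtain ⟨hmM, hmo⟩ := Submodule.mem_inf.1 hm
    obtain ⟨hmM', hmo'⟩ := Submodule.mem_inf.1 hm'
    have hmo1 : ∀ y ∈ N, d y m = 0 := hmo
    have hmo2 : ∀ y ∈ N, d y m' = 0 := hmo'
    constructor
    · simp only [map_add, LinearMap.add_apply]
      rw [hkN n hn, hkM m hmM, hkN n hn, hkM m hmM]
      ring
    · simp only [map_add, LinearMap.add_apply]
      rw [(hN.1 n hn n' hn').2,
        hmo2 n hn, (hM m hmM m' hmM').2, hd.symm m n', hmo1 n' hn']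
      ring
  have h1 := hN.2 _ hneu le_sup_left
  have h2 : x ∈ N ⊔ (M ⊓ orth d hd N) :=
    Submodule.mem_sup_right (Submodule.mem_inf.2 ⟨hx, hxN⟩)
  rw [h1] at h2
  exact h2

end suff

/-- sufficiency of semidefiniteness -/
theorem suff_sd [FiniteDimensional Q V] {b a : BF V} (hb : IsF b) (ha : IsF a)
    (h : SD b a) : PP b a := by
  obtain ⟨μ, ν, hne, h0⟩ := h
  intro M N hM hN
  have hd : μ * μ - ν * (-ν) ≠ 0 := by
    have h1 : 0 < μ ^ 2 + ν ^ 2 := by
      rcases hne with h | h
      · positivity
      · positivity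
    intro h2
    nlinarith
  rw [← maxNeu_comb hd] at hM hN
  have hc : IsF (μ • b + ν • a) := isF_add (isF_smul hb μ) (isF_smul ha ν)
  have hdd : IsF ((-ν) • b + μ • a) := isF_add (isF_smul hb (-ν)) (isF_smul ha μ)
  have e1 := sd_dim ((-ν) • b + μ • a) M N (fun x hx y hy => (hM.1 x hx y hy).2)
    (fun x hx hxN => sd_mem hc hdd h0 M N hM.1 hN x hx hxN)
  have e2 := sd_dim ((-ν) • b + μ • a) N M (fun x hx y hy => (hN.1 x hx y hy).2)
    (fun x hx hxN => sd_mem hc hdd h0 N M hN.1 hM x hx hxN)
  have e3 := le_antisymm e1 e2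
  rw [sd_finrank, sd_finrank] at e3
  exact Nat.eq_of_mul_eq_mul_left sd_pos e3
end

section
/-! Pairs of quaternionic hermitian forms.  A right quaternionic space is a module over `Q`, the
opposite of the quaternions.  A quaternionic hermitian form `h` is represented by its real part
`b x y = Re h x y`, a real bilinear symmetric form with `b (q • x) y = b x (star q • y)`.
Subspaces are `Submodule Q V`, dimension is `Module.finrank Q`. -/
open scoped Quaternion
variable {V : Type} [AddCommGroup V] [Module Q V] [Module ℝ V] [IsScalarTower ℝ Q V]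


theorem ext_max [FiniteDimensional Q V] (b a : BF V) (M : Submodule Q V) (hM : Neu b a M) :
    ∃ N : Submodule Q V, MaxNeu b a N ∧ M ≤ N := by
  obtain ⟨N, ⟨hN1, hN2⟩, hN3⟩ :=
    (wellFounded_gt : WellFounded (fun A B : Submodule Q V => A > B)).has_min
      {N : Submodule Q V | Neu b a N ∧ M ≤ N} ⟨M, hM, le_rfl⟩
  refine ⟨N, ⟨hN1, fun M' h1 h2 => ?_⟩, hN2⟩
  by_contra hne
  exact hN3 M' ⟨h1, le_trans hN2 h2⟩ (lt_of_le_of_ne h2 (Ne.symm hne))
end

section
/-! Pairs of quaternionic hermitian forms.  A right quaternionic space is a module over `Q`, the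
opposite of the quaternions.  A quaternionic hermitian form `h` is represented by its real part
`b x y = Re h x y`, a real bilinear symmetric form with `b (q • x) y = b x (star q • y)`.
Subspaces are `Submodule Q V`, dimension is `Module.finrank Q`. -/
open scoped Quaternion
variable {V : Type} [AddCommGroup V] [Module Q V] [Module ℝ V] [IsScalarTower ℝ Q V]


theorem delta_bound [FiniteDimensional Q V] {b : BF V} (hb : IsF b) (hnd : Nd b)
    {X R : V →ₗ[Q] V} (hX : SA b X) (t σ : ℝ) (hσ : σ ≠ 0) (hR1 : ∀ x, R (sh X t x) = x)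
    (hR2 : ∀ x, sh X t (R x) = x) {M N : Submodule Q V} (hMN : M ≤ N)
    (hN : Neu b (tw b X) N) (hM : NegOn (σ • tw b R) M) :
    Module.finrank Q N + Module.finrank Q M ≤ nn (σ • tw b (sh X t)) ⊤ := by
  have hsh : ∀ x, sh X t x = X x - t • x := fun x => rfl
  have hSA : SA b (sh X t) := by
    intro x y
    rw [hsh, hsh, map_sub, LinearMap.sub_apply, map_smul, LinearMap.smul_apply, map_sub,
      map_smul, hX x y]
  set e : BF V := σ • tw b (sh X t) with he
  have hea : ∀ x y, e x y = σ * b x (sh X t y) := fun x y => rfl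
  have heF : IsF e := isF_smul (isF_tw hb hSA) σ
  have heN : Nd e := by
    intro x hx
    apply hnd
    intro z
    have h1 := hx (R z)
    rw [hea, hR2] at h1
    exact (mul_eq_zero.1 h1).resolve_left hσ
  have hinj : Function.Injective R := by
    intro x y hxy
    rw [← hR2 x, ← hR2 y, hxy]
  have hfin : Module.finrank Q (M.map R) = Module.finrank Q M :=
    (LinearEquiv.finrank_eq (Submodule.equivMapOfInjective R hinj M)).symm
  have hneg : ∀ m ∈ M, m ≠ 0 → e (R m) (R m) < 0 := by
    intro m hm hm0
    have h1 := hM m hm hm0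
    have h2 : (σ • tw b R) m m = σ * b m (R m) := rfl
    rw [h2] at h1
    rw [hea, hR2, hb.symm]
    exact h1
  have hnm : ∀ n ∈ N, ∀ m ∈ M, e n (R m) = 0 := by
    intro n hn m hm
    rw [hea, hR2, (hN n hn m (hMN hm)).1, mul_zero]
  have hnn : ∀ n ∈ N, e n n = 0 := by
    intro n hn
    have h1 : b n (X n) = 0 := (hN n hn n hn).2
    rw [hea, hsh, map_sub, map_smul, h1, (hN n hn n hn).1]
    simp
  have hdisj : N ⊓ M.map R = ⊥ := by
    rw [eq_bot_iff]
    rintro x ⟨hx1, hx2⟩
    obtain ⟨m, hm, rfl⟩ := hx2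
    by_cases hm0 : m = 0
    · rw [hm0, map_zero]
      exact Submodule.zero_mem _
    · exact absurd (hnn _ hx1) (hneg m hm hm0).ne
  have hle : ∀ x ∈ N ⊔ M.map R, e x x ≤ 0 := by
    intro x hx
    obtain ⟨n, hn, y, hy, rfl⟩ := Submodule.mem_sup.1 hx
    obtain ⟨m, hm, rfl⟩ := hy
    have h1 : e (n + R m) (n + R m) = e n n + e n (R m) + e (R m) n + e (R m) (R m) := by
      rw [LinearMap.map_add₂, map_add, map_add]
      ring
    have h2 : e (R m) n = e n (R m) := heF.symm _ _
    rw [h1, h2, hnn n hn, hnm n hn m hm]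
    by_cases hm0 : m = 0
    · rw [hm0, map_zero, map_zero]
      simp
    · have := hneg m hm hm0
      linarith
  have h1 := nonpos_le_nn heF heN (N ⊔ M.map R) hle
  have h2 := Submodule.finrank_sup_add_finrank_inf_eq N (M.map R)
  rw [hdisj, finrank_bot, add_zero, hfin] at h2
  rw [← h2]
  exact h1
end

end Pool.QN
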