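import Pool.Agent.Helper9.QN.Defs

set_option autoImplicit false
set_option maxHeartbeats 1000000

namespace Pool.QN

section
/-! Pairs of quaternionic hermitian forms.  A right quaternionic space is a module over `Q`, the
opposite of the quaternions.  A quaternionic hermitian form `h` is represented by its real part
`b x y = Re h x y`, a real bilinear symmetric form with `b (q • x) y = b x (star q • y)`.
Subspaces are `Submodule Q V`, dimension is `Module.finrank Q`. -/
open scoped Quaternion
variable {V : Type} [AddCommGroup V] [Module Q V] [Module ℝ V] [IsScalarTower ℝ Q V]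


theorem fp_E {N : ℕ} (y : Fin (N + 1) → ℝ) (w : Fin N → ℝ) (hy : Function.Injective y)
    (hne : ∀ i j, y i - w j ≠ 0) (k : Fin N) :
    ∑ i, ((∏ l, (y i - w l)) / ∏ l ∈ Finset.univ.erase i, (y i - y l)) / (y i - w k) = 0 := by
  classical
  have hdeg : (∏ l ∈ Finset.univ.erase k, (Polynomial.X - Polynomial.C (w l))).natDegree < N := by
    rw [Polynomial.natDegree_prod_of_monic _ _ (fun l _ => Polynomial.monic_X_sub_C _)]
    simp only [Polynomial.natDegree_X_sub_C, Finset.sum_const, smul_eq_mul, mul_one]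
    rw [Finset.card_erase_of_mem (Finset.mem_univ _), Finset.card_univ, Fintype.card_fin]
    have := k.2
    omega
  have h1 := Lagrange.coeff_eq_sum (s := (Finset.univ : Finset (Fin (N + 1)))) (v := y)
    (P := ∏ l ∈ Finset.univ.erase k, (Polynomial.X - Polynomial.C (w l))) hy.injOn (by
      refine (Polynomial.degree_le_natDegree).trans_lt ?_
      rw [Finset.card_univ, Fintype.card_fin]
      exact_mod_cast (by omega : _ < N + 1))
  rw [Finset.card_univ, Fintype.card_fin, Nat.add_sub_cancel,
    Polynomial.coeff_eq_zero_of_natDegree_lt hdeg] at h1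
  rw [h1]
  refine Finset.sum_congr rfl (fun i _ => ?_)
  rw [Polynomial.eval_prod]
  simp only [Polynomial.eval_sub, Polynomial.eval_X, Polynomial.eval_C]
  rw [← Finset.mul_prod_erase Finset.univ (fun l => y i - w l) (Finset.mem_univ k)]
  have := hne i k
  field_simp

theorem fp_pos {N : ℕ} (y : Fin (N + 1) → ℝ) (w : Fin N → ℝ) (hy : StrictMono y)
    (h1 : ∀ j : Fin N, y j.castSucc < w j) (h2 : ∀ j : Fin N, w j < y j.succ) (i : Fin (N + 1)) :
    0 < (∏ l, (y i - w l)) / ∏ l ∈ Finset.univ.erase i, (y i - y l) := by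
  have e1 : (Finset.univ.erase i : Finset (Fin (N + 1))) = Finset.univ.map i.succAboveEmb := by
    ext x
    simp only [Finset.mem_erase, Finset.mem_univ, and_true, Finset.mem_map, true_and]
    constructor
    · intro hx
      obtain ⟨z, hz⟩ := Fin.exists_succAbove_eq hx
      exact ⟨z, hz⟩
    · rintro ⟨z, rfl⟩
      exact Fin.succAbove_ne i z
  rw [e1, Finset.prod_map, ← Finset.prod_div_distrib]
  apply Finset.prod_pos
  intro l _
  rw [Fin.coe_succAboveEmb]
  rcases lt_or_ge l.castSucc i with h | h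
  · rw [Fin.succAbove_of_castSucc_lt _ _ h]
    have h3 : y l.castSucc < y i := hy h
    have h4 : l.succ ≤ i := by
      rw [Fin.le_def]; rw [Fin.lt_def] at h; simp at h ⊢; omega
    have h5 : w l < y i := (h2 l).trans_le (hy.monotone h4)
    exact div_pos (by linarith) (by linarith)
  · rw [Fin.succAbove_of_le_castSucc _ _ h]
    have h4 : i < l.succ := by
      rw [Fin.lt_def]; rw [Fin.le_def] at h; simp at h ⊢; omega
    have h3 : y i < y l.succ := hy h4
    have h5 : y i < w l := (hy.monotone h).trans_lt (h1 l)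
    exact div_pos_of_neg_of_neg (by linarith) (by linarith)

theorem fp_strict {N : ℕ} (y : Fin (N + 1) → ℝ) (w : Fin N → ℝ)
    (h1 : ∀ j : Fin N, y j.castSucc < w j) (h2 : ∀ j : Fin N, w j < y j.succ) :
    ∃ Z : Fin (N + 1) → Fin N → ℝ, (∀ j k, ∑ i, Z i j * Z i k = if j = k then 1 else 0) ∧
      (∀ j k, ∑ i, Z i j * y i * Z i k = if j = k then w j else 0) := by
  have hy : StrictMono y := Fin.strictMono_iff_lt_succ.2 (fun j => (h1 j).trans (h2 j))
  have hw : StrictMono w := by
    intro j k hjk
    have h3 : j.succ ≤ k.castSucc := by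
      rw [Fin.le_def]; rw [Fin.lt_def] at hjk; simp; omega
    exact (h2 j).trans_le ((hy.monotone h3).trans (h1 k).le)
  have hne : ∀ i j, y i - w j ≠ 0 := by
    intro i j
    rcases le_or_gt i j.castSucc with h | h
    · have := (hy.monotone h).trans_lt (h1 j)
      exact (by linarith : y i - w j < 0).ne
    · have h4 : j.succ ≤ i := by
        rw [Fin.le_def]; rw [Fin.lt_def] at h; simp at h ⊢; omega
      have := (h2 j).trans_le (hy.monotone h4)
      exact (by linarith : 0 < y i - w j).ne'
  obtain ⟨v, hv, hE⟩ : ∃ v : Fin (N + 1) → ℝ, (∀ i, 0 < v i) ∧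
      ∀ k, ∑ i, v i / (y i - w k) = 0 :=
    ⟨fun i => (∏ l, (y i - w l)) / ∏ l ∈ Finset.univ.erase i, (y i - y l),
      fp_pos y w hy h1 h2, fp_E y w hy.injective hne⟩
  have hM0 : ∀ j k, j ≠ k → ∑ i, v i / ((y i - w j) * (y i - w k)) = 0 := by
    intro j k hjk
    have hwjk : w j - w k ≠ 0 := sub_ne_zero.2 (fun h => hjk (hw.injective h))
    have h3 : ∀ i, v i / ((y i - w j) * (y i - w k)) =
        (v i / (y i - w j) - v i / (y i - w k)) * (w j - w k)⁻¹ := by
      intro i
      have a1 := hne i j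
      have a2 := hne i k
      field_simp
      ring
    simp only [h3]
    rw [← Finset.sum_mul, Finset.sum_sub_distrib, hE, hE]; simp
  have hMy : ∀ j k, ∑ i, v i * y i / ((y i - w j) * (y i - w k)) =
      w j * ∑ i, v i / ((y i - w j) * (y i - w k)) := by
    intro j k
    have h3 : ∀ i, v i * y i / ((y i - w j) * (y i - w k)) =
        v i / (y i - w k) + w j * (v i / ((y i - w j) * (y i - w k))) := by
      intro i
      have a1 := hne i j
      have a2 := hne i k
      field_simp
      ring
    simp only [h3]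
    rw [Finset.sum_add_distrib, hE, zero_add, Finset.mul_sum]
  have hMpos : ∀ j, 0 < ∑ i, v i / ((y i - w j) * (y i - w j)) := by
    intro j
    apply Finset.sum_pos
    · intro i _
      exact div_pos (hv i) (mul_self_pos.2 (hne i j))
    · exact Finset.univ_nonempty
  set c : Fin N → ℝ := fun j => (√(∑ i, v i / ((y i - w j) * (y i - w j))))⁻¹ with hc
  have hcc : ∀ j, c j * c j * ∑ i, v i / ((y i - w j) * (y i - w j)) = 1 := by
    intro j
    have h3 := Real.mul_self_sqrt (hMpos j).le
    have h4 : √(∑ i, v i / ((y i - w j) * (y i - w j))) ≠ 0 := (Real.sqrt_pos.2 (hMpos j)).ne'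
    simp only [hc]
    rw [← mul_inv, h3]
    exact inv_mul_cancel₀ (hMpos j).ne'
  have hsq : ∀ i, √(v i) * √(v i) = v i := fun i => Real.mul_self_sqrt (hv i).le
  refine ⟨fun i j => √(v i) * c j / (y i - w j), ?_, ?_⟩
  · intro j k
    have h3 : ∀ i, √(v i) * c j / (y i - w j) * (√(v i) * c k / (y i - w k)) =
        c j * c k * (v i / ((y i - w j) * (y i - w k))) := by
      intro i
      have a1 := hne i j
      have a2 := hne i k
      rw [div_mul_div_comm, ← mul_div_assoc]
      congr 1
      calc √(v i) * c j * (√(v i) * c k) = c j * c k * (√(v i) * √(v i)) := by ring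
        _ = _ := by rw [hsq]
    simp only [h3]
    rw [← Finset.mul_sum]
    by_cases hjk : j = k
    · subst hjk
      rw [if_pos rfl, hcc]
    · rw [if_neg hjk, hM0 j k hjk, mul_zero]
  · intro j k
    have h3 : ∀ i, √(v i) * c j / (y i - w j) * y i * (√(v i) * c k / (y i - w k)) =
        c j * c k * (v i * y i / ((y i - w j) * (y i - w k))) := by
      intro i
      have a1 := hne i j
      have a2 := hne i k
      rw [div_mul_eq_mul_div, div_mul_div_comm, ← mul_div_assoc]
      congr 1
      calc √(v i) * c j * y i * (√(v i) * c k) = c j * c k * ((√(v i) * √(v i)) * y i) := by ring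
        _ = _ := by rw [hsq]
    simp only [h3]
    rw [← Finset.mul_sum, hMy]
    by_cases hjk : j = k
    · subst hjk
      rw [if_pos rfl]
      have := hcc j
      calc c j * c j * (w j * ∑ i, v i / ((y i - w j) * (y i - w j))) =
          w j * (c j * c j * ∑ i, v i / ((y i - w j) * (y i - w j))) := by ring
        _ = w j := by rw [this, mul_one]
    · rw [if_neg hjk, hM0 j k hjk, mul_zero, mul_zero]

theorem fp_weak {N : ℕ} (y : Fin (N + 1) → ℝ) (w : Fin N → ℝ)
    (h1 : ∀ j : Fin N, y j.castSucc ≤ w j) (h2 : ∀ j : Fin N, w j ≤ y j.succ) :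
    ∃ Z : Fin (N + 1) → Fin N → ℝ, (∀ j k, ∑ i, Z i j * Z i k = if j = k then 1 else 0) ∧
      (∀ j k, ∑ i, Z i j * y i * Z i k = if j = k then w j else 0) := by
  have hex : ∀ n : ℕ, ∃ Z : Fin (N + 1) → Fin N → ℝ,
      (∀ j k, ∑ i, Z i j * Z i k = if j = k then 1 else 0) ∧
      (∀ j k, ∑ i, Z i j * (y i + 2 * (i : ℕ) * (1 / ((n : ℝ) + 1))) * Z i k =
        if j = k then w j + (2 * (j : ℕ) + 1) * (1 / ((n : ℝ) + 1)) else 0) := by
    intro n
    have hn : (0 : ℝ) < 1 / ((n : ℝ) + 1) := by positivity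
    apply fp_strict (fun i => y i + 2 * (i : ℕ) * (1 / ((n : ℝ) + 1)))
      (fun j => w j + (2 * (j : ℕ) + 1) * (1 / ((n : ℝ) + 1)))
    · intro j
      have := h1 j
      simp only [Fin.val_castSucc]
      nlinarith
    · intro j
      have := h2 j
      simp only [Fin.val_succ]
      push_cast
      nlinarith
  choose Z hZ1 hZ2 using hex
  have hK : IsCompact (Set.univ.pi fun _ : Fin (N + 1) => Set.univ.pi fun _ : Fin N =>
      Set.Icc (-1 : ℝ) 1) :=
    isCompact_univ_pi fun _ => isCompact_univ_pi fun _ => isCompact_Icc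
  have hmem : ∀ n, Z n ∈ (Set.univ.pi fun _ : Fin (N + 1) => Set.univ.pi fun _ : Fin N =>
      Set.Icc (-1 : ℝ) 1) := by
    intro n i _ j _
    have h3 := hZ1 n j j
    rw [if_pos rfl] at h3
    have h4 : Z n i j * Z n i j ≤ ∑ i, Z n i j * Z n i j :=
      Finset.single_le_sum (f := fun i => Z n i j * Z n i j)
        (fun i _ => mul_self_nonneg _) (Finset.mem_univ i)
    rw [h3] at h4
    constructor <;> nlinarith
  obtain ⟨Y, -, φ, hφ, hlim⟩ := hK.tendsto_subseq hmem
  have hlim' : ∀ i j, Filter.Tendsto (fun n => Z (φ n) i j) Filter.atTop (nhds (Y i j)) := by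
    intro i j
    exact (tendsto_pi_nhds.1 ((tendsto_pi_nhds.1 hlim) i)) j
  have hε : Filter.Tendsto (fun n => 1 / ((φ n : ℝ) + 1)) Filter.atTop (nhds 0) :=
    (tendsto_one_div_add_atTop_nhds_zero_nat (𝕜 := ℝ)).comp hφ.tendsto_atTop
  refine ⟨Y, ?_, ?_⟩
  · intro j k
    have h3 : Filter.Tendsto (fun n => ∑ i, Z (φ n) i j * Z (φ n) i k) Filter.atTop
        (nhds (∑ i, Y i j * Y i k)) :=
      tendsto_finset_sum _ (fun i _ => (hlim' i j).mul (hlim' i k))
    have h4 : Filter.Tendsto (fun n => ∑ i, Z (φ n) i j * Z (φ n) i k) Filter.atTop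
        (nhds (if j = k then 1 else 0)) := by
      simp only [hZ1]; exact tendsto_const_nhds
    exact tendsto_nhds_unique h3 h4
  · intro j k
    have h3 : Filter.Tendsto (fun n => ∑ i, Z (φ n) i j *
        (y i + 2 * (i : ℕ) * (1 / ((φ n : ℝ) + 1))) * Z (φ n) i k) Filter.atTop
        (nhds (∑ i, Y i j * (y i + 2 * (i : ℕ) * 0) * Y i k)) :=
      tendsto_finset_sum _ (fun i _ => ((hlim' i j).mul
        (tendsto_const_nhds.add (tendsto_const_nhds.mul hε))).mul (hlim' i k))
    simp only [mul_zero, add_zero] at h3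
    have h4 : Filter.Tendsto (fun n => ∑ i, Z (φ n) i j *
        (y i + 2 * (i : ℕ) * (1 / ((φ n : ℝ) + 1))) * Z (φ n) i k) Filter.atTop
        (nhds (if j = k then w j else 0)) := by
      simp only [hZ2]
      by_cases hjk : j = k
      · simp only [hjk, if_true]
        have h5 : Filter.Tendsto (fun n => w k + (2 * (k : ℕ) + 1) * (1 / ((φ n : ℝ) + 1)))
            Filter.atTop (nhds (w k + (2 * (k : ℕ) + 1) * 0)) :=
          tendsto_const_nhds.add (tendsto_const_nhds.mul hε)
        simpa using h5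
      · simp only [hjk, if_false]
        exact tendsto_const_nhds
    exact tendsto_nhds_unique h3 h4

theorem fp_mat {a b : ℕ} (y : Fin a → ℝ) (w : Fin b → ℝ)
    (h : ∃ Z : Fin a → Fin b → ℝ, (∀ j k, ∑ i, Z i j * Z i k = if j = k then 1 else 0) ∧
      (∀ j k, ∑ i, Z i j * y i * Z i k = if j = k then w j else 0)) :
    ∃ Z : Matrix (Fin a) (Fin b) ℝ, Z.transpose * Z = 1 ∧
      Z.transpose * Matrix.diagonal y * Z = Matrix.diagonal w := by
  obtain ⟨Z, h1, h2⟩ := h
  refine ⟨Matrix.of Z, ?_, ?_⟩
  · ext j k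
    rw [Matrix.mul_apply, Matrix.one_apply, ← h1 j k]
    rfl
  · ext j k
    rw [Matrix.mul_apply, Matrix.diagonal_apply, ← h2 j k]
    refine Finset.sum_congr rfl (fun i _ => ?_)
    rw [Matrix.mul_diagonal]
    rfl

theorem fp_comp {a b c : ℕ} (y : Fin a → ℝ) (w : Fin b → ℝ) (z : Fin c → ℝ)
    (h : ∃ Z : Matrix (Fin a) (Fin b) ℝ, Z.transpose * Z = 1 ∧
      Z.transpose * Matrix.diagonal y * Z = Matrix.diagonal w)
    (h' : ∃ Z : Matrix (Fin b) (Fin c) ℝ, Z.transpose * Z = 1 ∧
      Z.transpose * Matrix.diagonal w * Z = Matrix.diagonal z) :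
    ∃ Z : Matrix (Fin a) (Fin c) ℝ, Z.transpose * Z = 1 ∧
      Z.transpose * Matrix.diagonal y * Z = Matrix.diagonal z := by
  obtain ⟨Z, h1, h2⟩ := h
  obtain ⟨Z', h1', h2'⟩ := h'
  refine ⟨Z * Z', ?_, ?_⟩
  · rw [Matrix.transpose_mul, Matrix.mul_assoc, ← Matrix.mul_assoc Z.transpose, h1,
      Matrix.one_mul, h1']
  · rw [Matrix.transpose_mul]
    calc Z'.transpose * Z.transpose * Matrix.diagonal y * (Z * Z')
        = Z'.transpose * (Z.transpose * Matrix.diagonal y * Z) * Z' := by
          simp only [Matrix.mul_assoc]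
      _ = _ := by rw [h2, h2']

/-- converse of Cauchy interlacing -/
theorem fan_pall (m h : ℕ) (y : Fin (m + h) → ℝ) (z : Fin m → ℝ) (hy : Monotone y)
    (hz : Monotone z) (h1 : ∀ j : Fin m, y (Fin.castAdd h j) ≤ z j)
    (h2 : ∀ j : Fin m, z j ≤ y (Fin.natAdd h j |>.cast (Nat.add_comm h m))) :
    ∃ Z : Matrix (Fin (m + h)) (Fin m) ℝ, Z.transpose * Z = 1 ∧
      Z.transpose * Matrix.diagonal y * Z = Matrix.diagonal z := by
  induction h with
  | zero =>
    have hyz : (fun j : Fin m => y (Fin.castAdd 0 j)) = z := by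
      funext j
      exact le_antisymm (h1 j) (by
        have := h2 j
        have e : (Fin.natAdd 0 j |>.cast (Nat.add_comm 0 m)) = Fin.castAdd 0 j := by
          apply Fin.ext; simp
        rwa [e] at this)
    have hyz' : (y : Fin m → ℝ) = z := hyz
    refine ⟨(1 : Matrix (Fin m) (Fin m) ℝ), ?_, ?_⟩
    · show (1 : Matrix (Fin m) (Fin m) ℝ).transpose * 1 = 1
      simp
    · show (1 : Matrix (Fin m) (Fin m) ℝ).transpose * Matrix.diagonal (y : Fin m → ℝ) * 1 = _
      rw [hyz']; simp
  | succ h ih =>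
    let w : Fin (m + h) → ℝ := fun j =>
      if hj : h ≤ (j : ℕ) then max (y (Fin.castSucc j)) (z ⟨(j : ℕ) - h, by have := j.2; omega⟩)
      else y (Fin.castSucc j)
    have w1 : ∀ j, y (Fin.castSucc j) ≤ w j := by
      intro j
      by_cases hj : h ≤ (j : ℕ)
      · simp only [w, dif_pos hj]; exact le_max_left _ _
      · simp only [w, dif_neg hj]; exact le_rfl
    have w2 : ∀ j, w j ≤ y (Fin.succ j) := by
      intro j
      have hyj : y (Fin.castSucc j) ≤ y (Fin.succ j) := hy (Fin.castSucc_lt_succ).le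
      by_cases hj : h ≤ (j : ℕ)
      · simp only [w, dif_pos hj]
        apply max_le hyj
        refine (h2 _).trans (le_of_eq ?_)
        congr 1
        apply Fin.ext
        simp
        omega
      · simp only [w, dif_neg hj]; exact hyj
    have w3 : Monotone w := by
      intro i j hij
      by_cases hi : h ≤ (i : ℕ)
      · have hj : h ≤ (j : ℕ) := hi.trans hij
        simp only [w, dif_pos hi, dif_pos hj]
        apply max_le_max
        · exact hy (by rw [Fin.le_def]; simpa using hij)
        · apply hz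
          rw [Fin.le_def] at hij ⊢
          simp only
          omega
      · have e1 : w i = y (Fin.castSucc i) := by simp only [w, dif_neg hi]
        rw [e1]
        refine le_trans (hy ?_) (w1 j)
        rw [Fin.le_def]; simpa using hij
    have w4 : ∀ j : Fin m, w (Fin.castAdd h j) ≤ z j := by
      intro j
      have hyj : y (Fin.castSucc (Fin.castAdd h j)) ≤ z j := h1 j
      by_cases hj : h ≤ ((Fin.castAdd h j : Fin (m + h)) : ℕ)
      · simp only [w, dif_pos hj]
        apply max_le hyj
        apply hz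
        rw [Fin.le_def]
        simp
      · simp only [w, dif_neg hj]; exact hyj
    have w5 : ∀ j : Fin m, z j ≤ w (Fin.natAdd h j |>.cast (Nat.add_comm h m)) := by
      intro j
      have hj : h ≤ ((Fin.natAdd h j |>.cast (Nat.add_comm h m) : Fin (m + h)) : ℕ) := by simp
      simp only [w, dif_pos hj]
      refine le_trans (le_of_eq ?_) (le_max_right _ _)
      congr 1
      apply Fin.ext
      simp
    exact fp_comp y w z (fp_mat y w (fp_weak y w w1 w2)) (ih w w3 w4 w5)
end

section
/-! Pairs of quaternionic hermitian forms.  A right quaternionic space is a module over `Q`, the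
opposite of the quaternions.  A quaternionic hermitian form `h` is represented by its real part
`b x y = Re h x y`, a real bilinear symmetric form with `b (q • x) y = b x (star q • y)`.
Subspaces are `Submodule Q V`, dimension is `Module.finrank Q`. -/
open scoped Quaternion
variable {V : Type} [AddCommGroup V] [Module Q V] [Module ℝ V] [IsScalarTower ℝ Q V]


/-- a real number in an open interval avoiding a finite set -/
theorem avoid_real {n : ℕ} (f : Fin n → ℝ) {a b : ℝ} (hab : a < b) :
    ∃ t, a < t ∧ t < b ∧ ∀ i, t ≠ f i := by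
  classical
  obtain ⟨t, ht, hn⟩ := (Set.Ioo_infinite hab).exists_notMem_finset (Finset.univ.image f)
  refine ⟨t, ht.1, ht.2, fun i hi => hn ?_⟩
  rw [Finset.mem_image]
  exact ⟨i, Finset.mem_univ i, hi.symm⟩

/-- simultaneously diagonal real pairs have neutral subspaces of the expected dimension -/
theorem diag_real (n k : ℕ) (c d : Fin n → ℝ) (hc : ∀ i, c i ≠ 0)
    (h : ∀ μ ν : ℝ, (Finset.univ.filter fun i => μ * c i + ν * d i < 0).card + k ≤ n) :
    ∃ Z : Matrix (Fin n) (Fin k) ℝ, Z.transpose * Matrix.diagonal c * Z = 0 ∧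
      Z.transpose * Matrix.diagonal d * Z = 0 ∧ LinearIndependent ℝ Z.transpose := by
  classical
  set G : ℝ → ℝ → Prop := fun μ ν => 0 < μ ^ 2 + ν ^ 2 ∧ ∀ i, μ * c i + ν * d i ≠ 0 with hG
  set cn : ℝ → ℝ → ℕ := fun μ ν => (Finset.univ.filter fun i => μ * c i + ν * d i < 0).card with hcn
  set S : Set ℕ := {m | ∃ μ ν, G μ ν ∧ cn μ ν = m} with hS
  have hSne : S.Nonempty := by
    refine ⟨cn 1 0, 1, 0, ⟨by norm_num, fun i => ?_⟩, rfl⟩
    have := hc i
    simpa using this
  have hSb : BddAbove S := by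
    refine ⟨n, ?_⟩
    rintro m ⟨μ, ν, -, rfl⟩
    have := h μ ν
    exact le_trans (Nat.le_add_right _ _) this
  obtain ⟨μ, ν, ⟨hpos, hne⟩, hN⟩ := Nat.sSup_mem hSne hSb
  have hmax : ∀ μ' ν', G μ' ν' → cn μ' ν' ≤ cn μ ν := by
    intro μ' ν' hg
    rw [hN]
    exact le_csSup hSb ⟨μ', ν', hg, rfl⟩
  set C : Fin n → ℝ := fun i => -(μ * c i + ν * d i) with hC
  set D : Fin n → ℝ := fun i => -(ν * c i) + μ * d i with hD
  have hC0 : ∀ i, C i ≠ 0 := fun i => neg_ne_zero.mpr (hne i)
  -- cardinalities
  have hcardP : Fintype.card {i // 0 < C i} = cn μ ν := by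
    rw [Fintype.card_subtype]
    simp only [hcn, hC]
    congr 1
    ext i
    simp only [Finset.mem_filter, Finset.mem_univ, true_and]
    constructor <;> intro hh <;> linarith
  have hcardN : Fintype.card {i // ¬ 0 < C i} = cn (-μ) (-ν) := by
    rw [Fintype.card_subtype]
    simp only [hcn]
    congr 1
    ext i
    simp only [Finset.mem_filter, Finset.mem_univ, true_and]
    have h0 := hC0 i
    simp only [hC] at h0 ⊢
    constructor
    · intro hh
      rcases lt_or_gt_of_ne h0 with h1 | h1
      · linarith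
      · exact absurd h1 hh
    · intro hh
      linarith
  have hsum : Fintype.card {i // 0 < C i} + Fintype.card {i // ¬ 0 < C i} = n := by
    rw [Fintype.card_subtype_compl, Fintype.card_fin]
    have : Fintype.card {i // 0 < C i} ≤ n := by
      have := Fintype.card_subtype_le (fun i => 0 < C i)
      rwa [Fintype.card_fin] at this
    omega
  have hKN : Fintype.card {i // ¬ 0 < C i} ≤ Fintype.card {i // 0 < C i} := by
    rw [hcardN, hcardP]
    refine hmax _ _ ⟨by nlinarith, fun i => ?_⟩
    have := hne i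
    intro h0
    apply this
    linarith
  obtain ⟨K, hK⟩ : ∃ K, Fintype.card {i // ¬ 0 < C i} = K := ⟨_, rfl⟩
  obtain ⟨hh, hNh⟩ : ∃ hh, Fintype.card {i // 0 < C i} = K + hh := by
    rw [hK] at hKN
    exact Nat.exists_eq_add_of_le hKN
  have hkK : k ≤ K := by
    have h1 := h μ ν
    have h2 : cn μ ν = K + hh := by rw [← hcardP, hNh]
    have h3 : (Finset.univ.filter fun i => μ * c i + ν * d i < 0).card = K + hh := h2
    rw [hK, hNh] at hsum
    omega
  have hcnN : cn μ ν = K + hh := by rw [← hcardP, hNh]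
  -- enumerations
  let e0 : Fin (K + hh) ≃ {i // 0 < C i} := (Fintype.equivFinOfCardEq hNh).symm
  let f0 : Fin K ≃ {i // ¬ 0 < C i} := (Fintype.equivFinOfCardEq hK).symm
  let y0 : Fin (K + hh) → ℝ := fun a => D (e0 a) / C (e0 a)
  let z0 : Fin K → ℝ := fun a => D (f0 a) / C (f0 a)
  let eP : Fin (K + hh) ≃ {i // 0 < C i} := (Tuple.sort y0).trans e0
  let fN : Fin K ≃ {i // ¬ 0 < C i} := (Tuple.sort z0).trans f0
  let y : Fin (K + hh) → ℝ := fun a => D (eP a) / C (eP a)
  let z : Fin K → ℝ := fun a => D (fN a) / C (fN a)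
  have hy : Monotone y := Tuple.monotone_sort y0
  have hz : Monotone z := Tuple.monotone_sort z0
  let E : Fin (K + hh) ⊕ Fin K ≃ Fin n :=
    (Equiv.sumCongr eP fN).trans (Equiv.sumCompl (fun i => 0 < C i))
  have hEl : ∀ a, E (Sum.inl a) = (eP a : Fin n) := fun a => rfl
  have hEr : ∀ b, E (Sum.inr b) = (fN b : Fin n) := fun b => rfl
  have hCP : ∀ a, 0 < C (eP a) := fun a => (eP a).2
  have hCN : ∀ b, C (fN b) < 0 := fun b => by
    rcases lt_or_gt_of_ne (hC0 (fN b)) with h1 | h1
    · exact h1
    · exact absurd h1 (fN b).2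
  -- the counting contradiction
  have hcount : ∀ (s t : ℝ), (s = 1 ∨ s = -1) → (∀ i, t ≠ D i / C i) →
      ∀ T : Finset (Fin (K + hh) ⊕ Fin K), (∀ x ∈ T, s * (D (E x) - t * C (E x)) < 0) →
      T.card ≤ K + hh := by
    intro s t hs ht T hT
    have hs2 : s ^ 2 = 1 := by rcases hs with rfl | rfl <;> norm_num
    have key := hmax (s * (-ν + t * μ)) (s * (μ + t * ν)) ⟨by
        have : (s * (-ν + t * μ)) ^ 2 + (s * (μ + t * ν)) ^ 2
            = s ^ 2 * ((1 + t ^ 2) * (μ ^ 2 + ν ^ 2)) := by ring
        rw [this, hs2]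
        positivity, fun i h0 => by
        have h1 : s * (D i - t * C i) = 0 := by
          rw [← h0]; simp only [hC, hD]; ring
        have hs0 : s ≠ 0 := by
          intro h2; rw [h2] at hs2; norm_num at hs2
        have h2 : D i - t * C i = 0 := by
          rcases mul_eq_zero.mp h1 with h3 | h3
          · exact absurd h3 hs0
          · exact h3
        apply ht i
        rw [eq_div_iff (hC0 i)]
        linarith⟩
    rw [hcnN] at key
    refine le_trans ?_ key
    rw [← Finset.card_map E.toEmbedding]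
    apply Finset.card_le_card
    intro i hi
    rw [Finset.mem_map] at hi
    obtain ⟨x, hx, rfl⟩ := hi
    rw [Finset.mem_filter]
    refine ⟨Finset.mem_univ _, ?_⟩
    have h1 := hT x hx
    have h2 : s * (-ν + t * μ) * c (E x) + s * (μ + t * ν) * d (E x)
        = s * (D (E x) - t * C (E x)) := by
      simp only [hC, hD]; ring
    show s * (-ν + t * μ) * c (E x) + s * (μ + t * ν) * d (E x) < 0
    rw [h2]
    exact h1
  have h1 : ∀ j : Fin K, y (Fin.castAdd hh j) ≤ z j := by
    intro j
    by_contra hlt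
    push Not at hlt
    obtain ⟨t, ht1, ht2, ht3⟩ := avoid_real (fun i => D i / C i) hlt
    have := hcount (-1) t (Or.inr rfl) ht3
      ((Finset.Ici (Fin.castAdd hh j)).disjSum (Finset.Iic j)) (by
        intro x hx
        rw [Finset.mem_disjSum] at hx
        rcases hx with ⟨a, ha, rfl⟩ | ⟨b, hb, rfl⟩
        · rw [hEl]
          have h2 : t < D (eP a) / C (eP a) := lt_of_lt_of_le ht2 (hy (Finset.mem_Ici.mp ha))
          rw [lt_div_iff₀ (hCP a)] at h2
          linarith
        · rw [hEr]
          have h2 : D (fN b) / C (fN b) < t := lt_of_le_of_lt (hz (Finset.mem_Iic.mp hb)) ht1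
          rw [div_lt_iff_of_neg (hCN b)] at h2
          linarith)
    rw [Finset.card_disjSum, Fin.card_Ici, Fin.card_Iic] at this
    have hj := j.2
    simp only [Fin.val_castAdd] at this
    omega
  have h2 : ∀ j : Fin K, z j ≤ y (Fin.natAdd hh j |>.cast (Nat.add_comm hh K)) := by
    intro j
    by_contra hlt
    push Not at hlt
    obtain ⟨t, ht1, ht2, ht3⟩ := avoid_real (fun i => D i / C i) hlt
    have := hcount 1 t (Or.inl rfl) ht3
      ((Finset.Iic (Fin.natAdd hh j |>.cast (Nat.add_comm hh K))).disjSum (Finset.Ici j)) (by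
        intro x hx
        rw [Finset.mem_disjSum] at hx
        rcases hx with ⟨a, ha, rfl⟩ | ⟨b, hb, rfl⟩
        · rw [hEl]
          have h2 : D (eP a) / C (eP a) < t := lt_of_le_of_lt (hy (Finset.mem_Iic.mp ha)) ht1
          rw [div_lt_iff₀ (hCP a)] at h2
          linarith
        · rw [hEr]
          have h2 : t < D (fN b) / C (fN b) := lt_of_lt_of_le ht2 (hz (Finset.mem_Ici.mp hb))
          rw [lt_div_iff_of_neg (hCN b)] at h2
          linarith)
    rw [Finset.card_disjSum, Fin.card_Ici, Fin.card_Iic] at this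
    have hj := j.2
    simp only [Fin.val_cast, Fin.val_natAdd] at this
    omega
  obtain ⟨W, hW1, hW2⟩ := fan_pall K hh y z hy hz h1 h2
  -- the big matrix
  let B : Fin (K + hh) ⊕ Fin K → Fin K → ℝ := fun x j =>
    Sum.elim (fun a => W a j / Real.sqrt (C (eP a)))
      (fun b => if b = j then 1 / Real.sqrt (-C (fN b)) else 0) x
  have hBC : ∀ j j', ∑ x, B x j * C (E x) * B x j' = 0 := by
    intro j j'
    rw [Fintype.sum_sum_type]
    have hA : ∑ a, B (Sum.inl a) j * C (E (Sum.inl a)) * B (Sum.inl a) j'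
        = (W.transpose * W) j j' := by
      rw [Matrix.mul_apply]
      apply Finset.sum_congr rfl
      intro a _
      simp only [B, Sum.elim_inl, hEl, Matrix.transpose_apply]
      have h3 := hCP a
      have h4 : Real.sqrt (C (eP a)) ^ 2 = C (eP a) := Real.sq_sqrt h3.le
      have h5 : Real.sqrt (C (eP a)) ≠ 0 := (Real.sqrt_pos.mpr h3).ne'
      field_simp
      rw [h4]
    have hB : ∑ b, B (Sum.inr b) j * C (E (Sum.inr b)) * B (Sum.inr b) j'
        = -((1 : Matrix (Fin K) (Fin K) ℝ) j j') := by
      simp only [B, Sum.elim_inr, hEr]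
      rw [Finset.sum_eq_single j]
      · rw [if_pos rfl, Matrix.one_apply]
        by_cases hjj : j = j'
        · rw [if_pos hjj, if_pos hjj]
          have h3 : 0 < -C (fN j) := by have := hCN j; linarith
          have h4 : Real.sqrt (-C (fN j)) ^ 2 = -C (fN j) := Real.sq_sqrt h3.le
          have h5 : Real.sqrt (-C (fN j)) ≠ 0 := (Real.sqrt_pos.mpr h3).ne'
          field_simp
          rw [h4]; ring
        · rw [if_neg hjj, if_neg hjj]; ring
      · intro b _ hb
        rw [if_neg hb]; ring
      · intro hj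
        exact absurd (Finset.mem_univ j) hj
    rw [hA, hB, hW1]
    ring
  have hBD : ∀ j j', ∑ x, B x j * D (E x) * B x j' = 0 := by
    intro j j'
    rw [Fintype.sum_sum_type]
    have hA : ∑ a, B (Sum.inl a) j * D (E (Sum.inl a)) * B (Sum.inl a) j'
        = (W.transpose * Matrix.diagonal y * W) j j' := by
      rw [Matrix.mul_apply]
      apply Finset.sum_congr rfl
      intro a _
      rw [Matrix.mul_diagonal]
      simp only [B, Sum.elim_inl, hEl, Matrix.transpose_apply, y]
      have h3 := hCP a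
      have h4 : Real.sqrt (C (eP a)) ^ 2 = C (eP a) := Real.sq_sqrt h3.le
      have h5 : Real.sqrt (C (eP a)) ≠ 0 := (Real.sqrt_pos.mpr h3).ne'
      have h6 : C (eP a) ≠ 0 := h3.ne'
      field_simp
      rw [h4]
      ring
    have hB : ∑ b, B (Sum.inr b) j * D (E (Sum.inr b)) * B (Sum.inr b) j'
        = -((Matrix.diagonal z : Matrix (Fin K) (Fin K) ℝ) j j') := by
      simp only [B, Sum.elim_inr, hEr]
      rw [Finset.sum_eq_single j]
      · rw [if_pos rfl, Matrix.diagonal_apply]
        by_cases hjj : j = j'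
        · rw [if_pos hjj, if_pos hjj]
          simp only [z]
          have h3 : 0 < -C (fN j) := by have := hCN j; linarith
          have h4 : Real.sqrt (-C (fN j)) ^ 2 = -C (fN j) := Real.sq_sqrt h3.le
          have h5 : Real.sqrt (-C (fN j)) ≠ 0 := (Real.sqrt_pos.mpr h3).ne'
          have h6 : C (fN j) ≠ 0 := hC0 _
          field_simp
          rw [h4]; ring
        · rw [if_neg hjj, if_neg hjj]; ring
      · intro b _ hb
        rw [if_neg hb]; ring
      · intro hj
        exact absurd (Finset.mem_univ j) hj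
    rw [hA, hB, hW2]
    ring
  let Z : Matrix (Fin n) (Fin k) ℝ := fun i j => B (E.symm i) (Fin.castLE hkK j)
  have hform : ∀ (w : Fin n → ℝ) (j j' : Fin k), (Z.transpose * Matrix.diagonal w * Z) j j'
      = ∑ x, B x (Fin.castLE hkK j) * w (E x) * B x (Fin.castLE hkK j') := by
    intro w j j'
    rw [Matrix.mul_apply, ← E.sum_comp]
    apply Finset.sum_congr rfl
    intro x _
    rw [Matrix.mul_diagonal, Matrix.transpose_apply]
    have e1 : ∀ q, Z (E x) q = B x (Fin.castLE hkK q) := by
      intro q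
      show B (E.symm (E x)) (Fin.castLE hkK q) = _
      rw [Equiv.symm_apply_apply]
    rw [e1, e1]
  have hlin : ∀ (α β : ℝ) (w : Fin n → ℝ), (∀ i, w i = α * C i + β * D i) →
      Z.transpose * Matrix.diagonal w * Z = 0 := by
    intro α β w hw
    ext j j'
    rw [hform, Matrix.zero_apply]
    have h3 : ∑ x, B x (Fin.castLE hkK j) * w (E x) * B x (Fin.castLE hkK j')
        = α * ∑ x, B x (Fin.castLE hkK j) * C (E x) * B x (Fin.castLE hkK j')
          + β * ∑ x, B x (Fin.castLE hkK j) * D (E x) * B x (Fin.castLE hkK j') := by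
      rw [Finset.mul_sum, Finset.mul_sum, ← Finset.sum_add_distrib]
      apply Finset.sum_congr rfl
      intro x _
      rw [hw]; ring
    rw [h3, hBC, hBD]; ring
  refine ⟨Z, hlin (-μ / (μ ^ 2 + ν ^ 2)) (-ν / (μ ^ 2 + ν ^ 2)) c ?_,
    hlin (-ν / (μ ^ 2 + ν ^ 2)) (μ / (μ ^ 2 + ν ^ 2)) d ?_, ?_⟩
  · intro i
    simp only [hC, hD]
    field_simp
    ring
  · intro i
    simp only [hC, hD]
    field_simp
    ring
  · have hli : LinearIndependent ℝ (fun (j : Fin k) (i : Fin n) => Z i j) := by
     rw [Fintype.linearIndependent_iff]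
     intro g hg j
     have h3 := congrFun hg (E (Sum.inr (Fin.castLE hkK j)))
     rw [Finset.sum_apply] at h3
     have e2 : ∀ q : Fin k, (g q • fun i : Fin n => Z i q) (E (Sum.inr (Fin.castLE hkK j)))
        = g q * (if Fin.castLE hkK j = Fin.castLE hkK q then
          1 / Real.sqrt (-C (fN (Fin.castLE hkK j))) else 0) := by
      intro q
      show g q * B (E.symm (E (Sum.inr (Fin.castLE hkK j)))) (Fin.castLE hkK q) = _
      rw [Equiv.symm_apply_apply]
      rfl
     rw [Finset.sum_congr rfl (fun q _ => e2 q)] at h3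
     rw [Finset.sum_eq_single j] at h3
     · rw [if_pos rfl, Pi.zero_apply] at h3
       have h4 : 0 < -C (fN (Fin.castLE hkK j)) := by have := hCN (Fin.castLE hkK j); linarith
       have h5 : Real.sqrt (-C (fN (Fin.castLE hkK j))) ≠ 0 := (Real.sqrt_pos.mpr h4).ne'
       have h6 : 1 / Real.sqrt (-C (fN (Fin.castLE hkK j))) ≠ 0 := one_div_ne_zero h5
       rcases mul_eq_zero.mp h3 with h7 | h7
       · exact h7
       · exact absurd h7 h6
     · intro b _ hb
       rw [if_neg, mul_zero]
       intro h4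
       apply hb
       have := Fin.castLE_injective hkK h4
       exact this.symm
     · intro hj
       exact absurd (Finset.mem_univ j) hj
    exact hli
end

end Pool.QN
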