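import Pool.Agent.Helper9.QN.Defs
import Pool.Agent.Helper9.QP.A1

set_option autoImplicit false
set_option maxHeartbeats 1000000

namespace Pool.QN

section
/-! Pairs of quaternionic hermitian forms.  A right quaternionic space is a module over `Q`, the
opposite of the quaternions.  A quaternionic hermitian form `h` is represented by its real part
`b x y = Re h x y`, a real bilinear symmetric form with `b (q • x) y = b x (star q • y)`.
Subspaces are `Submodule Q V`, dimension is `Module.finrank Q`. -/
open scoped Quaternion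
variable {V : Type} [AddCommGroup V] [Module Q V] [Module ℝ V] [IsScalarTower ℝ Q V]


theorem exists_eig [FiniteDimensional Q V] (X : V →ₗ[Q] V) (W : Submodule Q V) (hW : W ≠ ⊥)
    (hX : ∀ w ∈ W, X w ∈ W) :
    ∃ v ∈ W, v ≠ 0 ∧ ((∃ r : ℝ, sh X r v = 0) ∨
      (∃ r s : ℝ, s ≠ 0 ∧ sh X r (sh X r v) = -(s ^ 2) • v)) := by
  haveI fH : Module.Finite ℝ (ℍ[ℝ]) := by infer_instance
  haveI fQ : Module.Finite ℝ Q := Module.Finite.equiv (MulOpposite.opLinearEquiv ℝ)
  haveI fV : Module.Finite ℝ V := Module.Finite.trans Q V
  have hshv : ∀ (r : ℝ) (v : V), sh X r v = X v - r • v := by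
    intro r v
    simp [sh]
  let WR : Submodule ℝ V := W.restrictScalars ℝ
  let T : WR →ₗ[ℝ] WR := (X.restrictScalars ℝ).restrict (fun w hw => hX w hw)
  have hTv : ∀ w : WR, ((T w : WR) : V) = X (w : V) := fun w => rfl
  haveI : Nontrivial WR := by
    obtain ⟨w, hw, hw0⟩ := Submodule.exists_mem_ne_zero_of_ne_bot hW
    exact ⟨⟨⟨w, hw⟩, 0, fun h => hw0 (congrArg Subtype.val h)⟩⟩
  have hint : IsIntegral ℝ T := Algebra.IsIntegral.isIntegral T
  have hmon := minpoly.monic hint
  have hnu : ¬ IsUnit (minpoly ℝ T) := minpoly.not_isUnit ℝ T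
  have hne0 : minpoly ℝ T ≠ 0 := hmon.ne_zero
  obtain ⟨p, hp, q, hpq⟩ := WfDvdMonoid.exists_irreducible_factor hnu hne0
  have hq0 : q ≠ 0 := by
    rintro rfl
    rw [mul_zero] at hpq
    exact hne0 hpq
  have hp0 : p ≠ 0 := hp.ne_zero
  have hpdeg : 0 < p.natDegree := hp.natDegree_pos
  have hqT : Polynomial.aeval T q ≠ 0 := by
    intro h
    have h1 := minpoly.degree_le_of_ne_zero ℝ T hq0 h
    rw [hpq, Polynomial.degree_mul, Polynomial.degree_eq_natDegree hp0,
      Polynomial.degree_eq_natDegree hq0] at h1
    have h2 : p.natDegree + q.natDegree ≤ q.natDegree := by exact_mod_cast h1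
    omega
  obtain ⟨w, hw⟩ : ∃ w, Polynomial.aeval T q w ≠ 0 := by
    by_contra hcon
    push Not at hcon
    exact hqT (LinearMap.ext hcon)
  set v : WR := Polynomial.aeval T q w with hv
  have hpv : Polynomial.aeval T p v = 0 := by
    have h1 : Polynomial.aeval T (p * q) = 0 := by rw [← hpq]; exact minpoly.aeval ℝ T
    rw [map_mul] at h1
    have h2 := LinearMap.congr_fun h1 w
    simpa using h2
  have hv0 : (v : V) ≠ 0 := fun h => hw (Subtype.ext h)
  refine ⟨v, v.2, hv0, ?_⟩
  have hdeg2 : p.natDegree ≤ 2 := Irreducible.natDegree_le_two hp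
  have hp2 : p = Polynomial.C (p.coeff 2) * Polynomial.X ^ 2 + Polynomial.C (p.coeff 1) *
      Polynomial.X + Polynomial.C (p.coeff 0) := Polynomial.eq_quadratic_of_degree_le_two
        (Polynomial.natDegree_le_iff_degree_le.1 hdeg2)
  set a := p.coeff 2 with ha
  set b := p.coeff 1 with hb
  set c := p.coeff 0 with hc
  have hTT : a • T (T v) + b • T v + c • v = 0 := by
    rw [hp2] at hpv
    simpa [pow_two, Algebra.algebraMap_eq_smul_one] using hpv
  have hXX : a • X (X (v : V)) + b • X (v : V) + c • (v : V) = 0 := by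
    have := congrArg Subtype.val hTT
    simpa [hTv] using this
  by_cases ha0 : a = 0
  · left
    have hb0 : b ≠ 0 := by
      intro hb0
      have : p = Polynomial.C c := by
        rw [hp2, ha0, hb0]
        simp
      rw [this] at hpdeg
      simp at hpdeg
    refine ⟨-(c / b), ?_⟩
    rw [hshv]
    rw [ha0, zero_smul, zero_add] at hXX
    have h3 : X (v : V) = -((c / b) • (v : V)) := by
      have h4 : b • X (v : V) = -(c • (v : V)) := eq_neg_of_add_eq_zero_left hXX
      have h5 : X (v : V) = b⁻¹ • (b • X (v : V)) := by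
        rw [smul_smul, inv_mul_cancel₀ hb0, one_smul]
      rw [h5, h4, smul_neg, smul_smul]
      congr 2
      field_simp
    rw [h3, neg_smul, sub_neg_eq_add, neg_add_cancel]
  · right
    have hroot : ∀ x : ℝ, a * x ^ 2 + b * x + c ≠ 0 := by
      intro x hx
      have hr : p.IsRoot x := by
        rw [Polynomial.IsRoot.def, hp2]
        simpa using hx
      have h1 := Polynomial.degree_eq_one_of_irreducible_of_root hp hr
      have h2 : p.natDegree = 1 := Polynomial.natDegree_eq_of_degree_eq_some h1
      apply ha0
      rw [ha]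
      exact Polynomial.coeff_eq_zero_of_natDegree_lt (by omega)
    have hdisc : b ^ 2 - 4 * a * c < 0 := by
      by_contra hcon
      push Not at hcon
      apply hroot ((-b + Real.sqrt (b ^ 2 - 4 * a * c)) / (2 * a))
      have h1 := Real.sq_sqrt hcon
      set d := Real.sqrt (b ^ 2 - 4 * a * c)
      field_simp
      linear_combination h1
    set r : ℝ := -(b / (2 * a)) with hr
    have hpos : 0 < c / a - r ^ 2 := by
      have e : c / a - r ^ 2 = -(b ^ 2 - 4 * a * c) / (4 * a ^ 2) := by
        rw [hr]
        field_simp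
        ring
      rw [e]
      apply div_pos
      · linarith
      · positivity
    refine ⟨r, Real.sqrt (c / a - r ^ 2), (Real.sqrt_pos.2 hpos).ne', ?_⟩
    rw [Real.sq_sqrt hpos.le, hshv, hshv, map_sub]
    have hXr : X (r • (v : V)) = r • X (v : V) := (X.restrictScalars ℝ).map_smul r (v : V)
    rw [hXr]
    have h3 : X (X (v : V)) = -((b / a) • X (v : V)) - (c / a) • (v : V) := by
      have h4 : a • X (X (v : V)) = -(b • X (v : V) + c • (v : V)) := by
        rw [add_assoc] at hXX
        exact eq_neg_of_add_eq_zero_left hXX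
      have h5 : X (X (v : V)) = a⁻¹ • (a • X (X (v : V))) := by
        rw [smul_smul, inv_mul_cancel₀ ha0, one_smul]
      rw [h5, h4, smul_neg, smul_add, smul_smul, smul_smul]
      have e1 : a⁻¹ * b = b / a := by field_simp
      have e2 : a⁻¹ * c = c / a := by field_simp
      rw [e1, e2]
      abel
    rw [h3]
    have e1 : b / a = -(2 * r) := by
      rw [hr]
      field_simp
    rw [e1]
    module
end

section
/-! Pairs of quaternionic hermitian forms.  A right quaternionic space is a module over `Q`, the
opposite of the quaternions.  A quaternionic hermitian form `h` is represented by its real part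
`b x y = Re h x y`, a real bilinear symmetric form with `b (q • x) y = b x (star q • y)`.
Subspaces are `Submodule Q V`, dimension is `Module.finrank Q`. -/
open scoped Quaternion
variable {V : Type} [AddCommGroup V] [Module Q V] [Module ℝ V] [IsScalarTower ℝ Q V]


/-- every invariant subspace contains an invariant line -/
theorem exists_qeig [FiniteDimensional Q V] (X : V →ₗ[Q] V) (W : Submodule Q V) (hW : W ≠ ⊥)
    (hX : ∀ w ∈ W, X w ∈ W) : ∃ v ∈ W, v ≠ 0 ∧ ∃ q : Q, X v = q • v := by
  have hsm : ∀ (r : ℝ) (v : V), (r • (1 : Q)) • v = r • v := by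
    intro r v
    rw [smul_assoc, one_smul]
  have hN : ∀ (r : ℝ) (v : V), X v = r • v + sh X r v := by
    intro r v
    simp only [sh, LinearMap.sub_apply, LinearMap.smul_apply, LinearMap.id_apply]
    abel
  obtain ⟨v, hvW, hv0, hr | hrs⟩ := exists_eig X W hW hX
  · obtain ⟨r, hr⟩ := hr
    refine ⟨v, hvW, hv0, r • (1 : Q), ?_⟩
    rw [hsm, hN r v, hr, add_zero]
  · obtain ⟨r, s, hs, hrs⟩ := hrs
    set i : Q := MulOpposite.op (⟨0, 1, 0, 0⟩ : ℍ[ℝ]) with hi
    have hii : i * i = -1 := by
      rw [hi, ← MulOpposite.op_mul, ← MulOpposite.op_one, ← MulOpposite.op_neg]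
      congr 1
      ext <;> simp
    set j : Q := s • i with hj
    have hjj : j * j = (-(s ^ 2)) • (1 : Q) := by
      rw [hj, smul_mul_smul_comm, hii, smul_neg, neg_smul, pow_two]
    have hjjv : ∀ u : V, j • j • u = (-(s ^ 2)) • u := by
      intro u
      rw [← mul_smul, hjj, hsm]
    by_cases hw : sh X r v - j • v = 0
    · refine ⟨v, hvW, hv0, r • (1 : Q) + j, ?_⟩
      rw [add_smul, hsm, hN r v, sub_eq_zero.mp hw]
    · refine ⟨sh X r v - j • v, ?_, hw, r • (1 : Q) - j, ?_⟩
      · apply W.sub_mem
        · have h1 : sh X r v = X v - (r • (1 : Q)) • v := by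
            rw [hsm, hN r v]
            abel
          rw [h1]
          exact W.sub_mem (hX v hvW) (W.smul_mem _ hvW)
        · exact W.smul_mem _ hvW
      · rw [sub_smul, hsm, hN r, map_sub, hrs, map_smul, ← hjjv v, smul_sub j]
        abel
end

section
/-! Pairs of quaternionic hermitian forms.  A right quaternionic space is a module over `Q`, the
opposite of the quaternions.  A quaternionic hermitian form `h` is represented by its real part
`b x y = Re h x y`, a real bilinear symmetric form with `b (q • x) y = b x (star q • y)`.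
Subspaces are `Submodule Q V`, dimension is `Module.finrank Q`. -/
open scoped Quaternion
variable {V : Type} [AddCommGroup V] [Module Q V] [Module ℝ V] [IsScalarTower ℝ Q V]


theorem qeig_neutral {b : BF V} (hb : IsF b) {X : V →ₗ[Q] V} (hX : SA b X) (v : V) (q : Q)
    (hv : X v = q • v) (hq : q.unop ≠ ((q.unop.re : ℝ) : ℍ[ℝ])) : b v v = 0 := by
  have key : ∀ p : Q, ((star q * p).unop.re - (p * q).unop.re) * b v v = 0 := by
    intro p
    have h1 := hX v (p • v)
    have hXp : X (p • v) = p • (q • v) := by rw [LinearMap.map_smul, hv]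
    rw [hXp, hv, hb.adj, smul_smul, smul_smul] at h1
    rw [(self_smul hb v _).1, (self_smul hb v _).1] at h1
    rw [sub_mul, h1, sub_self]
  set z : ℍ[ℝ] := star q.unop - q.unop with hz
  have h2 := key (MulOpposite.op (star z))
  rw [MulOpposite.unop_mul, MulOpposite.unop_mul, MulOpposite.unop_op, MulOpposite.unop_star] at h2
  have h3 : (q.unop * star z).re = (star z * q.unop).re := by
    simp only [Quaternion.re_mul]
    ring
  have h4 : (star z * star q.unop).re - (q.unop * star z).re = Quaternion.normSq z := by
    rw [h3, ← Quaternion.re_sub, ← mul_sub, ← hz, Quaternion.star_mul_self]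
    simp
  rw [h4] at h2
  rcases mul_eq_zero.1 h2 with h5 | h5
  · exfalso
    apply hq
    have h6 : z = 0 := Quaternion.normSq_eq_zero.1 h5
    have h7 : star q.unop = q.unop := sub_eq_zero.1 (hz ▸ h6)
    exact Quaternion.star_eq_self.1 h7
  · exact h5
end

section
/-! Pairs of quaternionic hermitian forms.  A right quaternionic space is a module over `Q`, the
opposite of the quaternions.  A quaternionic hermitian form `h` is represented by its real part
`b x y = Re h x y`, a real bilinear symmetric form with `b (q • x) y = b x (star q • y)`.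
Subspaces are `Submodule Q V`, dimension is `Module.finrank Q`. -/
open scoped Quaternion
variable {V : Type} [AddCommGroup V] [Module Q V] [Module ℝ V] [IsScalarTower ℝ Q V]


/-- without neutral invariant lines everything is diagonal -/
theorem ray_nf [FiniteDimensional Q V] {b : BF V} (hb : IsF b) (hnd : Nd b) {X : V →ₗ[Q] V}
    (hX : SA b X) (h : ∀ v, v ≠ 0 → ∀ q : Q, X v = q • v → b v v ≠ 0) :
    ∃ l : List (Piece × V), IsNF b X l ⊤ ∧ ∀ p ∈ l, ∃ e x, p.1 = Piece.ray e x := by
  have main : ∀ (n : ℕ) (W : Submodule Q V), Module.finrank Q W = n → (∀ w ∈ W, X w ∈ W) →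
      (∀ x ∈ W, (∀ y ∈ W, b x y = 0) → x = 0) →
      ∃ l : List (Piece × V), IsNF b X l W ∧ ∀ p ∈ l, ∃ e x, p.1 = Piece.ray e x := by
    intro n
    induction n using Nat.strong_induction_on with
    | _ n ih =>
      intro W hn hXW hW
      by_cases hbot : W = ⊥
      · exact ⟨[], hbot, by simp⟩
      · obtain ⟨v, hvW, hv0, q, hq⟩ := exists_qeig X W hbot hXW
        have hbv := h v hv0 q hq
        have hreal : q.unop = ((q.unop.re : ℝ) : ℍ[ℝ]) := by
          by_contra hcon
          exact hbv (qeig_neutral hb hX v q hq hcon)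
        set r : ℝ := q.unop.re with hr
        have hXv : X v = r • v := by
          rw [hq]
          have e : q = r • (1 : Q) := by
            apply MulOpposite.unop_injective
            rw [hreal, MulOpposite.unop_smul, MulOpposite.unop_one]
            ext <;> simp
          rw [e, smul_assoc, one_smul]
        set β : ℝ := b v v with hβ
        have habs : 0 < |β| := abs_pos.2 hbv
        set c : ℝ := (Real.sqrt |β|)⁻¹ with hc
        have hc0 : c ≠ 0 := inv_ne_zero (Real.sqrt_pos.2 habs).ne'
        have hc2 : c * c * |β| = 1 := by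
          rw [hc, ← mul_inv, Real.mul_self_sqrt habs.le, inv_mul_cancel₀ habs.ne']
        set f : V := c • v with hf
        have hXf : X f = r • f := by
          have h1 : X (c • v) = c • X v := (X.restrictScalars ℝ).map_smul c v
          rw [hf, h1, hXv, smul_comm]
        have hfW : f ∈ W := (W.restrictScalars ℝ).smul_mem c hvW
        have hbf : b f f = sg (decide (0 < β)) := by
          have h1 : b f f = c * c * β := by
            rw [hf]
            simp only [map_smul, LinearMap.smul_apply, smul_eq_mul]
            ring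
          rw [h1]
          by_cases hpos : 0 < β
          · rw [abs_of_pos hpos] at hc2
            simp [sg, hpos, hc2]
          · have hneg : β < 0 := lt_of_le_of_ne (not_lt.1 hpos) hbv
            rw [abs_of_neg hneg] at hc2
            simp only [sg, hpos, decide_false, Bool.false_eq_true, if_false]
            linarith
        have hbf0 : b f f ≠ 0 := by
          rw [hbf]
          unfold sg
          split_ifs <;> norm_num
        have hsm : ∀ x : ℝ, x • f ∈ Submodule.span Q {f} := fun x =>
          ((Submodule.span Q {f}).restrictScalars ℝ).smul_mem x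
            (Submodule.mem_span_singleton_self f)
        have hcyc : cyc X f = Submodule.span Q {f} := by
          apply le_antisymm
          · unfold cyc
            rw [Submodule.span_le]
            intro x hx
            rcases hx with rfl | rfl | rfl
            · exact Submodule.mem_span_singleton_self _
            · rw [hXf]; exact hsm r
            · have h1 : X (r • f) = r • X f := (X.restrictScalars ℝ).map_smul r f
              rw [hXf, h1, hXf, smul_smul]
              exact hsm _
          · apply Submodule.span_mono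
            intro x hx
            rw [Set.mem_singleton_iff] at hx
            subst hx
            exact Or.inl rfl
        set U := cyc X f with hU
        have hUf : f ∈ U := by
          rw [hcyc]
          exact Submodule.mem_span_singleton_self f
        have hUW : U ≤ W := by
          rw [hcyc, Submodule.span_le]
          intro x hx
          rw [Set.mem_singleton_iff] at hx
          subst hx
          exact hfW
        have hUnd : ∀ x ∈ U, (∀ y ∈ U, b x y = 0) → x = 0 := by
          intro x hx hxy
          have hx' := hx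
          rw [hcyc] at hx'
          obtain ⟨p, rfl⟩ := Submodule.mem_span_singleton.1 hx'
          have h1 := hxy _ hx
          rw [(self_smul hb f p).2] at h1
          rcases mul_eq_zero.1 h1 with h2 | h2
          · have h3 : p.unop = 0 := Quaternion.normSq_eq_zero.1 h2
            have h4 : p = 0 := MulOpposite.unop_injective h3
            rw [h4, zero_smul]
          · exact absurd h2 hbf0
        have hXU : ∀ u ∈ U, X u ∈ U := by
          intro u hu
          rw [hcyc] at hu ⊢
          obtain ⟨p, rfl⟩ := Submodule.mem_span_singleton.1 hu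
          rw [LinearMap.map_smul, hXf]
          exact Submodule.smul_mem _ _ (hsm r)
        obtain ⟨hint, hsup⟩ := orth_compl_in hb U W hUW hUnd
        set W' : Submodule Q V := W ⊓ orth b hb U with hW'
        have hWle : W' ≤ W := inf_le_left
        have horth : ∀ u ∈ U, ∀ w ∈ W', b u w = 0 := fun u hu w hw => hw.2 u hu
        have hlt : W' < W := by
          refine lt_of_le_of_ne hWle (fun he => ?_)
          have h1 : f ∈ W' := by rw [he]; exact hfW
          exact hbf0 (horth f hUf f h1)
        have hXW' : ∀ w ∈ W', X w ∈ W' := by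
          intro w hw
          refine ⟨hXW w hw.1, fun u hu => ?_⟩
          rw [← hX u w]
          exact horth _ (hXU u hu) w hw
        have hW'nd : ∀ x ∈ W', (∀ y ∈ W', b x y = 0) → x = 0 := by
          intro x hx hxy
          refine hW x hx.1 (fun y hy => ?_)
          rw [← hsup] at hy
          obtain ⟨u, hu, w, hw, rfl⟩ := Submodule.mem_sup.1 hy
          rw [map_add, hxy w hw, hb.symm x u, horth u hu x hx, add_zero]
        obtain ⟨l, hl, hl2⟩ := ih (Module.finrank Q W') (by
          rw [← hn]
          exact Submodule.finrank_lt_finrank_of_lt hlt) W' rfl hXW' hW'nd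
        refine ⟨(Piece.ray (decide (0 < β)) r, f) :: l, ⟨⟨hbf, ?_⟩, W', hl, horth, hsup⟩, ?_⟩
        · simp [sh, hXf]
        · intro p hp
          rcases List.mem_cons.1 hp with rfl | hp
          · exact ⟨_, _, rfl⟩
          · exact hl2 p hp
  refine main _ ⊤ rfl (fun w _ => trivial) (fun x _ hx => hnd x (fun y => hx y trivial))
end

section
/-! Pairs of quaternionic hermitian forms.  A right quaternionic space is a module over `Q`, the
opposite of the quaternions.  A quaternionic hermitian form `h` is represented by its real part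
`b x y = Re h x y`, a real bilinear symmetric form with `b (q • x) y = b x (star q • y)`.
Subspaces are `Submodule Q V`, dimension is `Module.finrank Q`. -/
open scoped Quaternion
variable {V : Type} [AddCommGroup V] [Module Q V] [Module ℝ V] [IsScalarTower ℝ Q V]


/-- the main case -/
theorem aux_case [FiniteDimensional Q V] {b : BF V} (hb : IsF b) (hnd : Nd b)
    {X : V →ₗ[Q] V} (hX : SA b X) (v : V) (q : Q) (hq : X v = q • v)
    (hbv : ∀ p : Q, b (p • v) v = 0) (U : Submodule Q V)
    (hU : ∀ u ∈ U, ∀ p : Q, b (p • v) u = 0) (μ ν : ℝ)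
    (h0 : μ • v + ν • (q • v) ≠ 0) (hneg : NegOn (μ • b + ν • tw b X) U) :
    Module.finrank Q U + 1 ≤ nn (μ • b + ν • tw b X) ⊤ := by
  have hsc : μ • v + ν • (q • v) = (μ • (1 : Q) + ν • q) • v := by
    rw [add_smul, smul_assoc, smul_assoc, one_smul]
  set p0 : Q := μ • (1 : Q) + ν • q with hp0
  have hc : IsF (μ • b + ν • tw b X) := isF_add (isF_smul hb μ) (isF_smul (isF_tw hb hX) ν)
  have hcapp : ∀ x y, (μ • b + ν • tw b X) x y = μ * b x y + ν * b x (X y) := by
    intro x y
    simp only [LinearMap.add_apply, LinearMap.smul_apply, smul_eq_mul, tw, LinearMap.compl₂_apply,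
      LinearMap.coe_restrictScalars]
  set c : BF V := μ • b + ν • tw b X with hcdef
  have hcv : ∀ y, c v y = b (p0 • v) y := by
    intro y
    rw [hcapp, ← hX v y, hq, ← hsc]
    simp only [map_add, map_smul, LinearMap.add_apply, LinearMap.smul_apply, smul_eq_mul]
  -- a vector pairing to -1
  obtain ⟨y0, hy0⟩ : ∃ y0, c v y0 = -1 := by
    have hne : ∃ y, b (p0 • v) y ≠ 0 := by
      by_contra hcon
      push Not at hcon
      apply h0
      rw [hsc]
      exact hnd _ hcon
    obtain ⟨y, hy⟩ := hne
    refine ⟨(-(b (p0 • v) y)⁻¹) • y, ?_⟩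
    rw [hcv, map_smul, smul_eq_mul]
    field_simp
  have hUc : ∀ x ∈ U, (∀ y ∈ U, c x y = 0) → x = 0 := by
    intro x hx h
    by_contra hne
    have h1 := hneg x hx hne
    rw [h x hx] at h1
    exact lt_irrefl _ h1
  obtain ⟨hO1, hO2⟩ := orth_compl hc U hUc
  have hy0mem : y0 ∈ U ⊔ orth c hc U := by rw [hO2]; trivial
  obtain ⟨u0, hu0, y', hy', hsum⟩ := Submodule.mem_sup.1 hy0mem
  have hvU : ∀ u ∈ U, c v u = 0 := fun u hu => by rw [hcv]; exact hU u hu p0
  have hvy' : c v y' = -1 := by
    have h1 : c v y0 = c v u0 + c v y' := by rw [← hsum, map_add]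
    rw [hvU u0 hu0, hy0] at h1
    linarith
  have hvv : c v v = 0 := by rw [hcv]; exact hbv p0
  have hvorth : v ∈ orth c hc U := by
    intro u hu
    rw [hc.symm]
    exact hvU u hu
  obtain ⟨T, hT⟩ : ∃ T : ℝ, c y' y' - 2 * T < 0 := ⟨(c y' y' + 1) / 2, by linarith⟩
  set z : V := T • v + y' with hz
  have hTv : T • v ∈ orth c hc U := by
    have : T • v = (T • (1 : Q)) • v := by rw [smul_assoc, one_smul]
    rw [this]
    exact (orth c hc U).smul_mem _ hvorth
  have hzorth : z ∈ orth c hc U := (orth c hc U).add_mem hTv hy'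
  have hzz : c z z < 0 := by
    have h1 : c z z = T * (T * c v v) + T * c v y' + T * c y' v + c y' y' := by
      rw [hz]
      simp only [map_add, map_smul, LinearMap.add_apply, LinearMap.smul_apply, smul_eq_mul]
      ring
    rw [h1, hc.symm y' v, hvv, hvy']
    linarith
  have hpz : ∀ p : Q, c (p • z) (p • z) = Quaternion.normSq p.unop * c z z := fun p =>
    (self_smul hc z p).2
  have hUz : ∀ u ∈ U, ∀ p : Q, c u (p • z) = 0 := fun u hu p =>
    (orth c hc U).smul_mem p hzorth u hu
  have hnorm : ∀ p : Q, p ≠ 0 → 0 < Quaternion.normSq p.unop := by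
    intro p hp
    have h1 : p.unop ≠ 0 := by
      intro h
      apply hp
      rw [← MulOpposite.unop_inj, h, MulOpposite.unop_zero]
    have h2 := Quaternion.normSq_nonneg (a := p.unop)
    exact lt_of_le_of_ne h2 (fun h => h1 (Quaternion.normSq_eq_zero.1 h.symm))
  have hdisj : U ⊓ Submodule.span Q {z} = ⊥ := by
    rw [Submodule.eq_bot_iff]
    rintro x ⟨hxU, hxz⟩
    obtain ⟨p, rfl⟩ := Submodule.mem_span_singleton.1 hxz
    by_contra hne
    have h1 := hUz _ hxU p
    have h2 := hneg _ hxU hne
    linarith
  have hz0 : z ≠ 0 := by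
    intro h
    rw [h] at hzz
    simp at hzz
  have hNeg : NegOn c (U ⊔ Submodule.span Q {z}) := by
    intro x hx hx0
    obtain ⟨u, hu, w, hw, rfl⟩ := Submodule.mem_sup.1 hx
    obtain ⟨p, rfl⟩ := Submodule.mem_span_singleton.1 hw
    have h1 : c (u + p • z) (u + p • z) = c u u + Quaternion.normSq p.unop * c z z := by
      rw [← hpz p]
      simp only [map_add, LinearMap.add_apply]
      rw [hc.symm (p • z) u, hUz u hu p]
      ring
    rw [h1]
    by_cases hp : p = 0
    · subst hp
      have hu0 : u ≠ 0 := by
        intro h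
        apply hx0
        rw [h, zero_smul, add_zero]
      have := hneg u hu hu0
      simpa using this
    · have h2 : Quaternion.normSq p.unop * c z z < 0 := mul_neg_of_pos_of_neg (hnorm p hp) hzz
      by_cases hu0 : u = 0
      · subst hu0
        simpa using h2
      · have := hneg u hu hu0
        linarith
  have hfr : Module.finrank Q ↥(U ⊔ Submodule.span Q {z}) = Module.finrank Q U + 1 := by
    have h1 := Submodule.finrank_sup_add_finrank_inf_eq U (Submodule.span Q {z})
    rw [hdisj, finrank_bot, finrank_span_singleton hz0] at h1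
    simpa using h1
  have h3 := le_nn c (U := U ⊔ Submodule.span Q {z}) (W := ⊤) le_top hNeg
  rw [hfr] at h3
  exact h3

/-- reduction at a neutral invariant line -/
theorem reduce_line [FiniteDimensional Q V] {b : BF V} (hb : IsF b) (hnd : Nd b)
    {X : V →ₗ[Q] V} (hX : SA b X) (v : V) (hv : v ≠ 0) (q : Q) (hq : X v = q • v)
    (hbv : b v v = 0) :
    ∃ W : Submodule Q V, Module.finrank Q W + 2 = Module.finrank Q V ∧
      (∀ w ∈ W, b v w = 0) ∧ Submodule.span Q {v} ⊓ W = ⊥ ∧
      (∀ x ∈ W, (∀ y ∈ W, b x y = 0) → x = 0) ∧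
      (∀ U ≤ W, ∀ μ ν : ℝ, (μ ≠ 0 ∨ ν ≠ 0) → NegOn (μ • b + ν • tw b X) U →
        ∃ μ' ν' : ℝ, Module.finrank Q U + 1 ≤ nn (μ' • b + ν' • tw b X) ⊤) := by
  have hpv : ∀ p : Q, b (p • v) v = 0 := by
    intro p
    rw [hb.symm, (self_smul hb v p).1, hbv, mul_zero]
  set L : Submodule Q V := Submodule.span Q {v} with hL
  have hvO : v ∈ orth b hb L := by
    intro x hx
    obtain ⟨p, rfl⟩ := Submodule.mem_span_singleton.1 hx
    exact hpv p
  have hLO : L ≤ orth b hb L := by
    rw [hL, Submodule.span_singleton_le_iff_mem]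
    exact hvO
  have hfL : Module.finrank Q L = 1 := finrank_span_singleton hv
  have hfO := finrank_orth hb hnd L
  obtain ⟨K, hK⟩ := Submodule.exists_isCompl L
  have hsup : L ⊔ (K ⊓ orth b hb L) = orth b hb L := by
    rw [← sup_inf_assoc_of_le K hLO, hK.sup_eq_top, top_inf_eq]
  have hinf : L ⊓ (K ⊓ orth b hb L) = ⊥ := by
    rw [← inf_assoc, hK.inf_eq_bot, bot_inf_eq]
  refine ⟨K ⊓ orth b hb L, ?_, ?_, hinf, ?_, ?_⟩
  · have h1 := Submodule.finrank_sup_add_finrank_inf_eq L (K ⊓ orth b hb L)
    rw [hsup, hinf, finrank_bot] at h1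
    omega
  · intro w hw
    exact hw.2 v (Submodule.mem_span_singleton_self v)
  · intro x hx h
    have hxL : x ∈ L := by
      have hOO : L = orth b hb (orth b hb L) := by
        apply Submodule.eq_of_le_of_finrank_eq
        · intro y hy w hw
          rw [hb.symm]
          exact hw y hy
        · have h1 := finrank_orth hb hnd (orth b hb L)
          omega
      rw [hOO]
      intro y hy
      rw [← hsup] at hy
      obtain ⟨l, hl, w, hw, rfl⟩ := Submodule.mem_sup.1 hy
      rw [map_add, LinearMap.add_apply, hx.2 l hl, hb.symm, h w hw, add_zero]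
    have : x ∈ L ⊓ (K ⊓ orth b hb L) := ⟨hxL, hx⟩
    rw [hinf] at this
    exact (Submodule.mem_bot Q).1 this
  · intro U hUW μ ν hμν hneg
    have hU : ∀ u ∈ U, ∀ p : Q, b (p • v) u = 0 := by
      intro u hu p
      exact (hUW hu).2 _ (Submodule.mem_span_singleton.2 ⟨p, rfl⟩)
    by_cases h0 : μ • v + ν • (q • v) = 0
    · obtain ⟨ε, hε, hop⟩ := neg_open (μ • b + ν • tw b X) b U hneg
      have h1 := hop 0 (ε / 2) (by simpa using hε) (by rw [abs_of_pos (by linarith)]; linarith)
      have h2 : ((1 : ℝ) + 0) • (μ • b + ν • tw b X) + (ε / 2) • b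
          = (μ + ε / 2) • b + ν • tw b X := by module
      rw [h2] at h1
      refine ⟨μ + ε / 2, ν, aux_case hb hnd hX v q hq hpv U hU (μ + ε / 2) ν ?_ h1⟩
      have h3 : (μ + ε / 2) • v + ν • (q • v) = (μ • v + ν • (q • v)) + (ε / 2) • v := by
        rw [add_smul]; abel
      rw [h3, h0, zero_add]
      intro h4
      rcases smul_eq_zero.1 h4 with h5 | h5
      · linarith
      · exact hv h5
    · exact ⟨μ, ν, aux_case hb hnd hX v q hq hpv U hU μ ν h0 hneg⟩
end

end Pool.QN
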