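import Pool.Agent.Helper9.QN.Defs
import Pool.Agent.Helper9.QP.A1
import Pool.Agent.Helper9.QP.B1
import Pool.Agent.Helper9.QP.B2
import Pool.Agent.Helper9.QP.E0
import Pool.Agent.Helper9.QP.E1

set_option autoImplicit false
set_option maxHeartbeats 1000000

namespace Pool.QN

section
/-! Pairs of quaternionic hermitian forms.  A right quaternionic space is a module over `Q`, the
opposite of the quaternions.  A quaternionic hermitian form `h` is represented by its real part
`b x y = Re h x y`, a real bilinear symmetric form with `b (q • x) y = b x (star q • y)`.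
Subspaces are `Submodule Q V`, dimension is `Module.finrank Q`. -/
open scoped Quaternion
variable {V : Type} [AddCommGroup V] [Module Q V] [Module ℝ V] [IsScalarTower ℝ Q V]


theorem IsF_tw {b : BF V} (hb : IsF b) {X : V →ₗ[Q] V} (hX : SA b X) : IsF (tw b X) := by
  constructor
  · intro x y
    show b x (X y) = b y (X x)
    rw [← hX x y, hb.symm]
  · intro q x y
    show b (q • x) (X y) = b x (X (star q • y))
    rw [hb.adj]
    exact congrArg (b x) (X.map_smul (star q) y).symm

/-- diagonal family -/
def Dg {ι : Type} [DecidableEq ι] (g : BF V) (u : ι → V) (γ : ι → ℝ) : Prop :=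
  ∀ i j, ∀ q : Q, g (u i) (q • u j) = if i = j then q.unop.re * γ i else 0

theorem Dg.expand {ι : Type} [Fintype ι] [DecidableEq ι] {g : BF V} (hg : IsF g) {u : ι → V}
    {γ : ι → ℝ} (h : Dg g u γ) (p q : ι → Q) :
    g (∑ i, p i • u i) (∑ j, q j • u j) = ∑ i, (star (p i) * q i).unop.re * γ i := by
  have h1 : g (∑ i, p i • u i) (∑ j, q j • u j) = ∑ i, ∑ j, g (p i • u i) (q j • u j) := by
    rw [LinearMap.map_sum₂]
    apply Finset.sum_congr rfl
    intro i _
    rw [map_sum]
  rw [h1]
  apply Finset.sum_congr rfl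
  intro i _
  rw [Finset.sum_eq_single i]
  · rw [hg.adj, smul_smul, h i i, if_pos rfl]
  · intro j _ hj
    rw [hg.adj, smul_smul, h i j, if_neg (fun h => hj h.symm)]
  · intro h; exact absurd (Finset.mem_univ _) h

theorem re_star_mul (p : Q) : (star p * p).unop.re = Quaternion.normSq p.unop := by
  have h1 : (star p * p).unop = p.unop * star p.unop := by
    rw [MulOpposite.unop_mul, MulOpposite.unop_star]
  rw [h1]
  rfl

theorem Dg.self {ι : Type} [Fintype ι] [DecidableEq ι] {g : BF V} (hg : IsF g) {u : ι → V}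
    {γ : ι → ℝ} (h : Dg g u γ) (p : ι → Q) :
    g (∑ i, p i • u i) (∑ j, p j • u j) = ∑ i, Quaternion.normSq (p i).unop * γ i := by
  rw [h.expand hg]
  apply Finset.sum_congr rfl
  intro i _
  rw [re_star_mul]

theorem normSq_pos_of {p : Q} (hp : p ≠ 0) : 0 < Quaternion.normSq p.unop := by
  have h1 : 0 ≤ Quaternion.normSq p.unop := Quaternion.normSq_nonneg
  have h2 : Quaternion.normSq p.unop ≠ 0 := by
    intro h
    apply hp
    rw [Quaternion.normSq_eq_zero] at h
    rwa [MulOpposite.unop_eq_zero_iff] at h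
  exact lt_of_le_of_ne h1 h2.symm

theorem Dg.negOn {ι : Type} [Fintype ι] [DecidableEq ι] {g : BF V} (hg : IsF g) {u : ι → V}
    {γ : ι → ℝ} (h : Dg g u γ) (hγ : ∀ i, γ i < 0) :
    NegOn g (Submodule.span Q (Set.range u)) := by
  intro x hx hx0
  obtain ⟨p, rfl⟩ := (Submodule.mem_span_range_iff_exists_fun Q).1 hx
  rw [h.self hg]
  have : ∃ i, p i ≠ 0 := by
    by_contra hcon
    push Not at hcon
    apply hx0
    apply Finset.sum_eq_zero
    intro i _
    rw [hcon i, zero_smul]
  obtain ⟨i, hi⟩ := this
  have : ∑ i, Quaternion.normSq (p i).unop * γ i < ∑ i : ι, (0:ℝ) := by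
    apply Finset.sum_lt_sum
    · intro j _
      have : 0 ≤ Quaternion.normSq (p j).unop := Quaternion.normSq_nonneg
      nlinarith [hγ j]
    · exact ⟨i, Finset.mem_univ _, by
        have := normSq_pos_of hi
        nlinarith [hγ i]⟩
  simpa using this

theorem Dg.li {ι : Type} [Fintype ι] [DecidableEq ι] {g : BF V} {u : ι → V}
    {γ : ι → ℝ} (h : Dg g u γ) (hγ : ∀ i, γ i ≠ 0) : LinearIndependent Q u := by
  rw [Fintype.linearIndependent_iff]
  intro p hp i
  by_contra hi
  have h1 : g (u i) (star (p i) • ∑ j, p j • u j) = 0 := by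
    rw [hp, smul_zero, map_zero]
  rw [Finset.smul_sum, map_sum, Finset.sum_eq_single i] at h1
  · rw [smul_smul, h i i, if_pos rfl, re_star_mul] at h1
    have := normSq_pos_of hi
    rcases mul_eq_zero.1 h1 with h2 | h2
    · linarith
    · exact hγ i h2
  · intro j _ hj
    rw [smul_smul, h i j, if_neg (fun h => hj h.symm)]
  · intro h; exact absurd (Finset.mem_univ _) h

theorem exists_frame {b : BF V} (hb : IsF b) {X : V →ₗ[Q] V} :
    ∀ (l : List (Piece × V)) (W : Submodule Q V), IsNF b X l W →
    (∀ p ∈ l, ∃ e x, p.1 = Piece.ray e x) →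
    ∃ (n : ℕ) (u : Fin n → V) (e : Fin n → Bool) (x : Fin n → ℝ),
      (∀ i, b (u i) (u i) = sg (e i)) ∧ (∀ i, X (u i) = x i • u i) ∧
      (∀ i j, i ≠ j → ∀ q : Q, b (u i) (q • u j) = 0) ∧
      Submodule.span Q (Set.range u) = W := by
  intro l
  induction l with
  | nil =>
    intro W hW _
    refine ⟨0, Fin.elim0, Fin.elim0, Fin.elim0, fun i => i.elim0, fun i => i.elim0,
      fun i => i.elim0, ?_⟩
    rw [Set.range_eq_empty, Submodule.span_empty]
    exact hW.symm
  | cons pf l ih =>
    obtain ⟨p, f⟩ := pf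
    intro W hW hr
    obtain ⟨hp, W', hW', ho, hsup⟩ := hW
    obtain ⟨e0, x0, hpe⟩ := hr (p, f) (List.mem_cons_self ..)
    have hpe' : p = Piece.ray e0 x0 := hpe
    subst hpe'
    obtain ⟨n, u, e, x, h1, h2, h3, h4⟩ := ih W' hW' (fun q hq => hr q (List.mem_cons_of_mem _ hq))
    obtain ⟨hf1, hf2⟩ := hp
    have hXf : X f = x0 • f := by
      have : X f - x0 • f = 0 := hf2
      exact sub_eq_zero.1 this
    have hfc : f ∈ cyc X f := Submodule.subset_span (by simp)
    have huW : ∀ j, u j ∈ W' := fun j => by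
      rw [← h4]; exact Submodule.subset_span (Set.mem_range_self j)
    refine ⟨n + 1, Fin.cons f u, Fin.cons e0 e, Fin.cons x0 x, ?_, ?_, ?_, ?_⟩
    · intro i
      refine Fin.cases ?_ ?_ i
      · simpa using hf1
      · intro j; simpa using h1 j
    · intro i
      refine Fin.cases ?_ ?_ i
      · simpa using hXf
      · intro j; simpa using h2 j
    · intro i
      refine Fin.cases ?_ ?_ i
      · intro j
        refine Fin.cases ?_ ?_ j
        · intro h; exact absurd rfl h
        · intro j' _ q
          simp only [Fin.cons_zero, Fin.cons_succ]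
          exact ho f hfc _ (W'.smul_mem q (huW j'))
      · intro i' j
        refine Fin.cases ?_ ?_ j
        · intro _ q
          simp only [Fin.cons_zero, Fin.cons_succ]
          rw [hb.symm]
          exact ho _ ((cyc X f).smul_mem q hfc) _ (huW i')
        · intro j' hne q
          simp only [Fin.cons_succ]
          exact h3 i' j' (fun h => hne (by rw [h])) q
    · rw [Fin.range_cons, Submodule.span_insert, h4, ← hsup]
      congr 1
      apply le_antisymm
      · rw [Submodule.span_singleton_le_iff_mem]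
        exact hfc
      · unfold cyc
        rw [Submodule.span_le]
        have hff : f ∈ Submodule.span Q ({f} : Set V) := Submodule.mem_span_singleton_self f
        have hrs : ∀ (r : ℝ) (v : V), v ∈ Submodule.span Q ({f} : Set V) →
            r • v ∈ Submodule.span Q ({f} : Set V) := by
          intro r v hv
          rw [← algebraMap_smul Q r v]
          exact Submodule.smul_mem _ _ hv
        have hX1 : X f ∈ Submodule.span Q ({f} : Set V) := by
          rw [hXf]; exact hrs _ _ hff
        have hX2 : X (X f) ∈ Submodule.span Q ({f} : Set V) := by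
          rw [hXf, ← algebraMap_smul Q x0 f, map_smul, hXf]
          exact Submodule.smul_mem _ _ (hrs _ _ hff)
        intro v hv
        simp only [Set.mem_insert_iff, Set.mem_singleton_iff] at hv
        rcases hv with rfl | rfl | rfl
        · exact hff
        · exact hX1
        · exact hX2

theorem Dg.neutral {n k : ℕ} {g : BF V} (hg : IsF g) {u : Fin n → V}
    {γ : Fin n → ℝ} (h : Dg g u γ) (Z : Matrix (Fin n) (Fin k) ℝ)
    (hZ : Z.transpose * Matrix.diagonal γ * Z = 0) :
    ∀ x ∈ Submodule.span Q (Set.range fun j => ∑ i, Z i j • u i),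
      ∀ y ∈ Submodule.span Q (Set.range fun j => ∑ i, Z i j • u i), g x y = 0 := by
  intro x hx y hy
  obtain ⟨p, rfl⟩ := (Submodule.mem_span_range_iff_exists_fun Q).1 hx
  obtain ⟨q, rfl⟩ := (Submodule.mem_span_range_iff_exists_fun Q).1 hy
  have h1 : ∀ j j' : Fin k, ∀ r : Q, g (∑ i, Z i j • u i) (r • ∑ i, Z i j' • u i) = 0 := by
    intro j j' r
    have e1 : (∑ i, Z i j • u i) = ∑ i, (algebraMap ℝ Q (Z i j)) • u i := by
      apply Finset.sum_congr rfl
      intro i _
      rw [algebraMap_smul]
    have e2 : (r • ∑ i, Z i j' • u i) = ∑ i, (r * algebraMap ℝ Q (Z i j')) • u i := by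
      rw [Finset.smul_sum]
      apply Finset.sum_congr rfl
      intro i _
      rw [mul_smul, algebraMap_smul]
    rw [e1, e2, h.expand hg]
    have h2 : (Z.transpose * Matrix.diagonal γ * Z) j j' = 0 := by rw [hZ]; rfl
    rw [Matrix.mul_apply] at h2
    have h3 : ∑ i, Z i j * γ i * Z i j' = 0 := by
      rw [← h2]
      apply Finset.sum_congr rfl
      intro i _
      rw [Matrix.mul_diagonal, Matrix.transpose_apply]
    have h4 : ∀ i, (star (algebraMap ℝ Q (Z i j)) * (r * algebraMap ℝ Q (Z i j'))).unop.re * γ i =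
        r.unop.re * (Z i j * γ i * Z i j') := by
      intro i
      have : (star (algebraMap ℝ Q (Z i j)) * (r * algebraMap ℝ Q (Z i j'))).unop =
          (algebraMap ℝ ℍ[ℝ] (Z i j')) * r.unop * star (algebraMap ℝ ℍ[ℝ] (Z i j)) := by
        rw [MulOpposite.unop_mul, MulOpposite.unop_mul, MulOpposite.unop_star]
        rfl
      rw [this]
      have h5 : (algebraMap ℝ ℍ[ℝ] (Z i j')) = ((Z i j' : ℝ) : ℍ[ℝ]) := rfl
      have h6 : (algebraMap ℝ ℍ[ℝ] (Z i j)) = ((Z i j : ℝ) : ℍ[ℝ]) := rfl
      rw [h5, h6, Quaternion.star_coe]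
      simp only [Quaternion.re_mul, Quaternion.re_coe, Quaternion.imI_coe, Quaternion.imJ_coe,
        Quaternion.imK_coe]
      ring
    rw [Finset.sum_congr rfl (fun i _ => h4 i), ← Finset.mul_sum, h3, mul_zero]
  rw [LinearMap.map_sum₂]
  apply Finset.sum_eq_zero
  intro j _
  rw [map_sum]
  apply Finset.sum_eq_zero
  intro j' _
  rw [hg.adj, smul_smul]
  exact h1 j j' _

theorem li_comb {n k : ℕ} {u : Fin n → V} (hu : LinearIndependent Q u)
    (Z : Matrix (Fin n) (Fin k) ℝ) (hZ : LinearIndependent ℝ Z.transpose) :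
    LinearIndependent Q (fun j => ∑ i, Z i j • u i) := by
  rw [Fintype.linearIndependent_iff] at hu hZ ⊢
  intro p hp
  have h1 : ∑ i, (∑ j, p j * algebraMap ℝ Q (Z i j)) • u i = 0 := by
    rw [← hp]
    simp only [Finset.smul_sum, Finset.sum_smul]
    rw [Finset.sum_comm]
    apply Finset.sum_congr rfl
    intro j _
    apply Finset.sum_congr rfl
    intro i _
    rw [mul_smul, algebraMap_smul]
  have h2 := hu _ h1
  have key : ∀ φ : Q →ₗ[ℝ] ℝ, ∀ j, φ (p j) = 0 := by
    intro φ
    apply hZ
    ext i
    rw [Finset.sum_apply]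
    have h3 := congrArg φ (h2 i)
    rw [map_zero, map_sum] at h3
    show ∑ j, φ (p j) * Z i j = 0
    rw [← h3]
    apply Finset.sum_congr rfl
    intro j _
    have : p j * algebraMap ℝ Q (Z i j) = Z i j • p j := by
      rw [← Algebra.commutes, Algebra.smul_def]
    rw [this, map_smul, smul_eq_mul, mul_comm]
  intro j
  have k1 : (p j).unop.re = 0 := key
    { toFun := fun q => q.unop.re, map_add' := fun _ _ => rfl, map_smul' := fun _ _ => by simp } j
  have k2 : (p j).unop.imI = 0 := key
    { toFun := fun q => q.unop.imI, map_add' := fun _ _ => rfl, map_smul' := fun _ _ => by simp } j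
  have k3 : (p j).unop.imJ = 0 := key
    { toFun := fun q => q.unop.imJ, map_add' := fun _ _ => rfl, map_smul' := fun _ _ => by simp } j
  have k4 : (p j).unop.imK = 0 := key
    { toFun := fun q => q.unop.imK, map_add' := fun _ _ => rfl, map_smul' := fun _ _ => by simp } j
  rw [← MulOpposite.unop_eq_zero_iff]
  exact Quaternion.ext _ _ k1 k2 k3 k4

theorem diag_neutral [FiniteDimensional Q V] {b : BF V} (hb : IsF b) (hnd : Nd b)
    {X : V →ₗ[Q] V} (hX : SA b X) (l : List (Piece × V)) (hl : IsNF b X l ⊤)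
    (hr : ∀ p ∈ l, ∃ e x, p.1 = Piece.ray e x) (k : ℕ)
    (h : ∀ μ ν : ℝ, nn (μ • b + ν • tw b X) ⊤ + k ≤ Module.finrank Q V) :
    ∃ M : Submodule Q V, Neu b (tw b X) M ∧ Module.finrank Q M = k := by
  obtain ⟨n, u, e, x, h1, h2, h3, h4⟩ := exists_frame hb l ⊤ hl hr
  have hsg : ∀ e : Bool, sg e ≠ 0 := by
    intro e; unfold sg; split_ifs <;> norm_num
  have ha : IsF (tw b X) := IsF_tw hb hX
  have dgb : Dg b u (fun i => sg (e i)) := by
    intro i j q
    split_ifs with hij
    · subst hij
      rw [(self_smul hb (u i) q).1, h1]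
    · exact h3 i j hij q
  have dga : Dg (tw b X) u (fun i => sg (e i) * x i) := by
    intro i j q
    have : tw b X (u i) (q • u j) = x j * b (u i) (q • u j) := by
      show b (u i) (X (q • u j)) = _
      rw [map_smul, h2, smul_comm, map_smul, smul_eq_mul]
    rw [this, dgb i j q]
    split_ifs with hij
    · subst hij; ring
    · ring
  have hli : LinearIndependent Q u := dgb.li (fun i => hsg _)
  have hn : Module.finrank Q V = n := by
    have := finrank_span_eq_card hli
    rw [h4, finrank_top, Fintype.card_fin] at this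
    exact this
  have hcard : ∀ μ ν : ℝ, (Finset.univ.filter fun i =>
      μ * sg (e i) + ν * (sg (e i) * x i) < 0).card + k ≤ n := by
    intro μ ν
    have hF : IsF (μ • b + ν • tw b X) := by
      constructor
      · intro x y
        show μ * b x y + ν * tw b X x y = μ * b y x + ν * tw b X y x
        rw [hb.symm x y, ha.symm x y]
      · intro q x y
        show μ * b (q • x) y + ν * tw b X (q • x) y =
          μ * b x (star q • y) + ν * tw b X x (star q • y)
        rw [hb.adj, ha.adj]
    let S : Finset (Fin n) := Finset.univ.filter fun i =>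
      μ * sg (e i) + ν * (sg (e i) * x i) < 0
    have dg : Dg (μ • b + ν • tw b X) (fun i : S => u i)
        (fun i : S => μ * sg (e i) + ν * (sg (e i) * x i)) := by
      intro i j q
      show μ * b (u i) (q • u j) + ν * tw b X (u i) (q • u j) = _
      rw [dgb i j q, dga i j q]
      by_cases hij : i = j
      · subst hij
        rw [if_pos rfl, if_pos rfl, if_pos rfl]
        ring
      · have : (i : Fin n) ≠ j := fun h => hij (Subtype.ext h)
        rw [if_neg this, if_neg this, if_neg hij]
        ring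
    have hneg := dg.negOn hF (fun i => (Finset.mem_filter.1 i.2).2)
    have hle := le_nn _ (le_top) hneg
    have hliS : LinearIndependent Q (fun i : S => u i) := hli.comp _ Subtype.val_injective
    rw [finrank_span_eq_card hliS, Fintype.card_coe] at hle
    have := h μ ν
    rw [hn] at this
    show S.card + k ≤ n
    omega
  obtain ⟨Z, hZ1, hZ2, hZ3⟩ := diag_real n k (fun i => sg (e i)) (fun i => sg (e i) * x i)
    (fun i => hsg _) hcard
  refine ⟨Submodule.span Q (Set.range fun j => ∑ i, Z i j • u i), ?_, ?_⟩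
  · intro y hy z hz
    exact ⟨dgb.neutral hb Z hZ1 y hy z hz, dga.neutral ha Z hZ2 y hy z hz⟩
  · rw [finrank_span_eq_card (li_comb hli Z hZ3), Fintype.card_fin]
end

section
/-! Pairs of quaternionic hermitian forms.  A right quaternionic space is a module over `Q`, the
opposite of the quaternions.  A quaternionic hermitian form `h` is represented by its real part
`b x y = Re h x y`, a real bilinear symmetric form with `b (q • x) y = b x (star q • y)`.
Subspaces are `Submodule Q V`, dimension is `Module.finrank Q`. -/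
open scoped Quaternion
variable {V : Type} [AddCommGroup V] [Module Q V] [Module ℝ V] [IsScalarTower ℝ Q V]


theorem exists_neutral_aux_line {b : BF V} (hb : IsF b) {X : V →ₗ[Q] V} (v : V) (q : Q) (hq : X v = q • v)
    (hbv : b v v = 0) (W : Submodule Q V) (hW : ∀ w ∈ W, b v w = 0) :
    (∀ (s : Q), ∀ w ∈ W, b (s • v) w = 0) ∧ (∀ (s : Q), ∀ w ∈ W, b w (s • v) = 0) ∧
    (∀ s t : Q, b (s • v) (t • v) = 0) ∧ (∀ s : Q, X (s • v) = (s * q) • v) := by
  have h1 : ∀ (s : Q), ∀ w ∈ W, b (s • v) w = 0 := by
    intro s w hw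
    rw [hb.adj]
    exact hW _ (W.smul_mem _ hw)
  refine ⟨h1, ?_, ?_, ?_⟩
  · intro s w hw
    rw [hb.symm]
    exact h1 s w hw
  · intro s t
    rw [hb.adj, smul_smul, (self_smul hb v _).1, hbv, mul_zero]
  · intro s
    rw [map_smul, hq, smul_smul]

theorem exists_neutral_aux_sup {b : BF V} (hb : IsF b) {X : V →ₗ[Q] V} (hX : SA b X) (v : V) (q : Q)
    (hq : X v = q • v) (hbv : b v v = 0) (W : Submodule Q V) (hW : ∀ w ∈ W, b v w = 0)
    (M : Submodule Q V) (hM : M ≤ W) (hneu : Neu b (tw b X) M) :
    Neu b (tw b X) (M ⊔ Submodule.span Q {v}) := by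
  obtain ⟨h1, h2, h3, h4⟩ := exists_neutral_aux_line hb v q hq hbv W hW
  have htw : ∀ x y, tw b X x y = b x (X y) := fun x y => rfl
  intro x hx y hy
  obtain ⟨m, hm, z, hz, rfl⟩ := Submodule.mem_sup.mp hx
  obtain ⟨m', hm', z', hz', rfl⟩ := Submodule.mem_sup.mp hy
  obtain ⟨s, rfl⟩ := Submodule.mem_span_singleton.mp hz
  obtain ⟨t, rfl⟩ := Submodule.mem_span_singleton.mp hz'
  obtain ⟨e1, e2⟩ := hneu m hm m' hm'
  constructor
  · rw [map_add, map_add, LinearMap.add_apply, LinearMap.add_apply, e1, h2 t m (hM hm), h1 s m' (hM hm'), h3]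
    simp
  · rw [htw] at e2 ⊢
    rw [map_add X, h4, map_add b, LinearMap.add_apply, map_add, map_add, e2, h2 _ m (hM hm), h3,
      ← hX (s • v) m', h4, h1 _ m' (hM hm')]
    simp

theorem exists_neutral_aux (n : ℕ) : ∀ (V : Type) [AddCommGroup V] [Module Q V] [Module ℝ V]
    [IsScalarTower ℝ Q V] [FiniteDimensional Q V], Module.finrank Q V = n →
    ∀ (b : BF V), IsF b → Nd b → ∀ X : V →ₗ[Q] V, SA b X → ∀ k : ℕ,
    (∀ μ ν : ℝ, nn (μ • b + ν • tw b X) ⊤ + k ≤ n) →
    ∃ M : Submodule Q V, Neu b (tw b X) M ∧ Module.finrank Q M = k := by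
  induction n using Nat.strong_induction_on with
  | _ n ih =>
    intro V _ _ _ _ _ hn b hb hnd X hX k hk
    rcases Nat.eq_zero_or_pos k with hk0 | hkpos
    · refine ⟨⊥, ?_, by rw [hk0, finrank_bot]⟩
      intro x hx y _
      rw [Submodule.mem_bot] at hx
      rw [hx, map_zero, map_zero]
      exact ⟨rfl, rfl⟩
    by_cases hex : ∃ v : V, v ≠ 0 ∧ ∃ q : Q, X v = q • v ∧ b v v = 0
    · obtain ⟨v, hv, q, hq, hbv⟩ := hex
      obtain ⟨W, hW1, hW2, hW3, hW4, hW5⟩ := reduce_line hb hnd hX v hv q hq hbv
      have hb' : IsF (rs b W) := isF_rs hb W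
      have ha' : IsF (rs (tw b X) W) := isF_rs (isF_tw hb hX) W
      have hnd' : Nd (rs b W) := by
        intro x hx
        apply Subtype.ext
        exact hW4 x x.2 (fun y hy => hx ⟨y, hy⟩)
      obtain ⟨X', hX'1, hX'2⟩ := exists_op hb' ha' hnd'
      have htw : tw (rs b W) X' = rs (tw b X) W := by
        apply LinearMap.ext
        intro x
        apply LinearMap.ext
        intro y
        exact hX'1 x y
      have hbound : ∀ U ≤ W, ∀ μ ν : ℝ, NegOn (μ • b + ν • tw b X) U →
          Module.finrank Q U + (k - 1) ≤ n - 2 := by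
        intro U hU μ ν hneg
        by_cases hmn : μ ≠ 0 ∨ ν ≠ 0
        · obtain ⟨μ', ν', h1⟩ := hW5 U hU μ ν hmn hneg
          have h2 := hk μ' ν'
          omega
        · push Not at hmn
          have hU0 : U = ⊥ := by
            rw [Submodule.eq_bot_iff]
            intro x hx
            by_contra hx0
            have := hneg x hx hx0
            rw [hmn.1, hmn.2, zero_smul, zero_smul, add_zero] at this
            simp at this
          obtain ⟨μ', ν', h1⟩ := hW5 ⊥ bot_le 1 0 (Or.inl one_ne_zero) (by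
            intro x hx hx0
            exact absurd ((Submodule.mem_bot Q).mp hx) hx0)
          have h2 := hk μ' ν'
          rw [hU0, finrank_bot]
          rw [finrank_bot] at h1
          omega
      have hhyp : ∀ μ ν : ℝ, nn (μ • rs b W + ν • tw (rs b W) X') ⊤ + (k - 1) ≤ n - 2 := by
        intro μ ν
        have e1 : μ • rs b W + ν • tw (rs b W) X' = rs (μ • b + ν • tw b X) W := by
          rw [htw]
          rfl
        rw [e1, nn_rs]
        have hle : k - 1 ≤ n - 2 := by
          have := hbound ⊥ bot_le 1 0 (by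
            intro x hx hx0
            exact absurd ((Submodule.mem_bot Q).mp hx) hx0)
          rw [finrank_bot] at this
          omega
        have hnn : nn (μ • b + ν • tw b X) W ≤ (n - 2) - (k - 1) := by
          apply csSup_le
          · refine ⟨0, ⊥, bot_le, ?_, finrank_bot Q V⟩
            intro x hx hx0
            exact absurd ((Submodule.mem_bot Q).mp hx) hx0
          · rintro j ⟨U, hU, hneg, rfl⟩
            have := hbound U hU μ ν hneg
            omega
        omega
      obtain ⟨M', hM'1, hM'2⟩ := ih (n - 2) (by omega) W (by omega) (rs b W) hb' hnd' X' hX'2 (k - 1) hhyp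
      have hMW : M'.map W.subtype ≤ W := Submodule.map_subtype_le W M'
      have hneu : Neu b (tw b X) (M'.map W.subtype) := by
        rintro _ ⟨x, hx, rfl⟩ _ ⟨y, hy, rfl⟩
        obtain ⟨e1, e2⟩ := hM'1 x hx y hy
        refine ⟨e1, ?_⟩
        rw [htw] at e2
        exact e2
      refine ⟨M'.map W.subtype ⊔ Submodule.span Q {v},
        exists_neutral_aux_sup hb hX v q hq hbv W hW2 _ hMW hneu, ?_⟩
      have h1 := Submodule.finrank_sup_add_finrank_inf_eq (M'.map W.subtype) (Submodule.span Q {v})
      have h2 : M'.map W.subtype ⊓ Submodule.span Q {v} = ⊥ := by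
        rw [eq_bot_iff, ← hW3, inf_comm]
        exact inf_le_inf_left _ hMW
      rw [h2, finrank_bot, finrank_span_singleton hv, Submodule.finrank_map_subtype_eq, hM'2] at h1
      omega
    · push Not at hex
      obtain ⟨l, hl1, hl2⟩ := ray_nf hb hnd hX (fun v hv q hq => hex v hv q hq)
      exact diag_neutral hb hnd hX l hl1 hl2 k (by rw [hn]; exact hk)
end

section
/-! Pairs of quaternionic hermitian forms.  A right quaternionic space is a module over `Q`, the
opposite of the quaternions.  A quaternionic hermitian form `h` is represented by its real part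
`b x y = Re h x y`, a real bilinear symmetric form with `b (q • x) y = b x (star q • y)`.
Subspaces are `Submodule Q V`, dimension is `Module.finrank Q`. -/
open scoped Quaternion
variable {V : Type} [AddCommGroup V] [Module Q V] [Module ℝ V] [IsScalarTower ℝ Q V]


theorem exists_neutral [FiniteDimensional Q V] {b a : BF V} (hb : IsF b) (ha : IsF a)
    (hreg : ∃ μ ν : ℝ, Nd (μ • b + ν • a)) (k : ℕ)
    (h : ∀ μ ν : ℝ, nn (μ • b + ν • a) ⊤ + k ≤ Module.finrank Q V) :
    ∃ M : Submodule Q V, Neu b a M ∧ Module.finrank Q M = k := by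
  obtain ⟨μ0, ν0, hC⟩ := hreg
  by_cases h0 : μ0 ^ 2 + ν0 ^ 2 = 0
  · have hμ : μ0 = 0 := by nlinarith [sq_nonneg μ0, sq_nonneg ν0]
    have hν : ν0 = 0 := by nlinarith [sq_nonneg μ0, sq_nonneg ν0]
    have hz : ∀ x : V, x = 0 := by
      intro x
      refine hC x (fun y => ?_)
      rw [hμ, hν]
      simp
    have hfr : Module.finrank Q V = 0 := by
      have : Subsingleton V := ⟨fun x y => by rw [hz x, hz y]⟩
      exact Module.finrank_zero_of_subsingleton
    have hk := h 0 0
    have hk0 : k = 0 := by omega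
    refine ⟨⊥, ?_, ?_⟩
    · intro x hx y hy
      rw [hz x]
      simp
    · rw [hk0]
      exact finrank_bot Q V
  · have hCF : IsF (μ0 • b + ν0 • a) := isF_add (isF_smul hb μ0) (isF_smul ha ν0)
    have hDF : IsF ((-ν0) • b + μ0 • a) := isF_add (isF_smul hb _) (isF_smul ha _)
    obtain ⟨X, hX, hSA⟩ := exists_op hCF hDF hC
    have htw : tw (μ0 • b + ν0 • a) X = (-ν0) • b + μ0 • a := by
      ext x y
      exact hX x y
    have hall : ∀ μ ν : ℝ, nn (μ • (μ0 • b + ν0 • a) + ν • tw (μ0 • b + ν0 • a) X) ⊤ + k ≤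
        Module.finrank Q V := by
      intro μ ν
      rw [htw]
      have e : μ • (μ0 • b + ν0 • a) + ν • ((-ν0) • b + μ0 • a) =
          (μ * μ0 - ν * ν0) • b + (μ * ν0 + ν * μ0) • a := by
        module
      rw [e]
      exact h _ _
    obtain ⟨M, hM1, hM2⟩ := exists_neutral_aux (Module.finrank Q V) V rfl (μ0 • b + ν0 • a) hCF hC X
      hSA k hall
    rw [htw] at hM1
    refine ⟨M, (neu_comb (μ := μ0) (ν := ν0) (ρ := -ν0) (τ := μ0) ?_ M).1 hM1, hM2⟩
    intro hd
    exact h0 (by linarith)
end

section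
/-! Pairs of quaternionic hermitian forms.  A right quaternionic space is a module over `Q`, the
opposite of the quaternions.  A quaternionic hermitian form `h` is represented by its real part
`b x y = Re h x y`, a real bilinear symmetric form with `b (q • x) y = b x (star q • y)`.
Subspaces are `Submodule Q V`, dimension is `Module.finrank Q`. -/
open scoped Quaternion
variable {V : Type} [AddCommGroup V] [Module Q V] [Module ℝ V] [IsScalarTower ℝ Q V]


/-- all maximal neutral subspaces have dimension `kap` when the property holds -/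
theorem gamma [FiniteDimensional Q V] {b a : BF V} (hb : IsF b) (ha : IsF a)
    (hreg : ∃ μ ν : ℝ, Nd (μ • b + ν • a)) (hP : PP b a) {M : Submodule Q V}
    (hM : MaxNeu b a M) : Module.finrank Q M = kap b a := by
  apply le_antisymm
  · obtain ⟨⟨μ, ν, hnd, hk⟩, _⟩ := kap_spec (b := b) (a := a) hreg
    have hF : IsF (μ • b + ν • a) := by
      constructor
      · intro x y
        simp only [LinearMap.add_apply, LinearMap.smul_apply]
        rw [hb.symm x y, ha.symm x y]
      · intro q x y
        simp only [LinearMap.add_apply, LinearMap.smul_apply]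
        rw [hb.adj q x y, ha.adj q x y]
    rw [← hk]
    refine neu_le hF hnd ?_
    intro x hx
    obtain ⟨h1, h2⟩ := hM.1 x hx x hx
    simp only [LinearMap.add_apply, LinearMap.smul_apply]
    rw [h1, h2]
    simp
  · obtain ⟨M0, hM0, hk⟩ := exists_neutral hb ha hreg (kap b a) (kap_all hb ha hreg)
    obtain ⟨N, hN, hle⟩ := ext_max b a M0 hM0
    rw [hP M N hM hN, ← hk]
    exact Submodule.finrank_mono hle
end

section
/-! Pairs of quaternionic hermitian forms.  A right quaternionic space is a module over `Q`, the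
opposite of the quaternions.  A quaternionic hermitian form `h` is represented by its real part
`b x y = Re h x y`, a real bilinear symmetric form with `b (q • x) y = b x (star q • y)`.
Subspaces are `Submodule Q V`, dimension is `Module.finrank Q`. -/
open scoped Quaternion
variable {V : Type} [AddCommGroup V] [Module Q V] [Module ℝ V] [IsScalarTower ℝ Q V]


omit [Module Q V] [IsScalarTower ℝ Q V] in
theorem bf_exp_add (F : BF V) (u v : V) :
    F (u + v) (u + v) = F u u + F u v + (F v u + F v v) := by
  rw [map_add F u v, LinearMap.add_apply, map_add (F u), map_add (F v)]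

/-- the S-lemma at a member of smallest index -/
theorem good_exists [FiniteDimensional Q V] {b a : BF V} (hb : IsF b) (ha : IsF a)
    (hreg : ∃ μ ν : ℝ, Nd (μ • b + ν • a)) (hSD : ¬ SD b a) (hP : PP b a) :
    ∃ μ ν ρ τ : ℝ, μ * τ - ν * ρ ≠ 0 ∧ Nd (μ • b + ν • a) ∧ nn (μ • b + ν • a) ⊤ = kap b a ∧
      ∃ X : V →ₗ[Q] V, (∀ x y, (μ • b + ν • a) x (X y) = (ρ • b + τ • a) x y) ∧
        ∃ p q : ℝ, ∀ x, 0 ≤ (tt (μ • b + ν • a) X + p • (ρ • b + τ • a) + q • (μ • b + ν • a)) x x := by
  obtain ⟨μ, ν, hNd, hnn⟩ := (kap_spec hreg).1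
  have hne : μ ≠ 0 ∨ ν ≠ 0 := by
    by_contra hcon
    push Not at hcon
    obtain ⟨h1, h2⟩ := hcon
    apply hSD
    refine ⟨1, 0, Or.inl one_ne_zero, fun x => ?_⟩
    have hx : x = 0 := by
      apply hNd x
      intro y
      rw [h1, h2]
      simp
    rw [hx]
    simp
  have hdet0 : 0 < μ ^ 2 + ν ^ 2 := by
    rcases hne with h | h
    · have := sq_pos_of_ne_zero h
      positivity
    · have := sq_pos_of_ne_zero h
      positivity
  have hdet : μ * μ - ν * (-ν) ≠ 0 := by
    have : μ * μ - ν * (-ν) = μ ^ 2 + ν ^ 2 := by ring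
    rw [this]
    exact hdet0.ne'
  have hC : IsF (μ • b + ν • a) := isF_add (isF_smul hb μ) (isF_smul ha ν)
  have hD : IsF ((-ν) • b + μ • a) := isF_add (isF_smul hb (-ν)) (isF_smul ha μ)
  set C := μ • b + ν • a with hCdef
  set Dd := (-ν) • b + μ • a with hDdef
  obtain ⟨X, hX, hSA⟩ := exists_op hC hD hNd
  have hcross : ∀ (F : BF V), IsF F → ∀ x, F x x = 0 → ∀ q1 q2 : Q, F (q1 • x) (q2 • x) = 0 := by
    intro F hF x hx q1 q2
    rw [hF.adj, ← mul_smul, (self_smul hF x _).1, hx, mul_zero]
  have claim : ∀ x, Dd x x = 0 → C x x = 0 → 0 ≤ (tt C X) x x := by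
    intro x hDx hCx
    by_contra hneg
    have hneg' : C (X x) (X x) < 0 := not_le.1 hneg
    have hNeu : Neu C Dd (Submodule.span Q {x}) := by
      intro u hu v hv
      obtain ⟨q1, rfl⟩ := Submodule.mem_span_singleton.1 hu
      obtain ⟨q2, rfl⟩ := Submodule.mem_span_singleton.1 hv
      exact ⟨hcross C hC x hCx q1 q2, hcross Dd hD x hDx q1 q2⟩
    obtain ⟨N, hN, hMN⟩ := ext_max b a (Submodule.span Q {x}) ((neu_comb hdet _).1 hNeu)
    have hfin := gamma hb ha hreg hP hN
    have hNN : Neu C Dd N := (neu_comb hdet N).2 hN.1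
    have hle : ∀ v ∈ N ⊔ Submodule.span Q {X x}, C v v ≤ 0 := by
      intro v hv
      obtain ⟨n, hn, w, hw, rfl⟩ := Submodule.mem_sup.1 hv
      obtain ⟨q, rfl⟩ := Submodule.mem_span_singleton.1 hw
      have h1 : C n n = 0 := (hNN n hn n hn).1
      have h2 : C n (q • X x) = 0 := by
        rw [← map_smul, hX]
        exact (hNN n hn _ (hMN (Submodule.smul_mem _ q (Submodule.mem_span_singleton_self x)))).2
      have h3 : C (q • X x) n = 0 := by rw [hC.symm]; exact h2
      have h4 : C (q • X x) (q • X x) ≤ 0 := by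
        rw [(self_smul hC (X x) q).2]
        have h5 : 0 ≤ Quaternion.normSq q.unop := Quaternion.normSq_nonneg
        nlinarith
      rw [bf_exp_add C n (q • X x), h1, h2, h3]
      linarith
    have hfin2 := nonpos_le_nn hC hNd _ hle
    rw [hnn, ← hfin] at hfin2
    have heq := Submodule.eq_of_le_of_finrank_le
      (le_sup_left : N ≤ N ⊔ Submodule.span Q {X x}) hfin2
    have hXN : X x ∈ N := by
      rw [heq]
      exact Submodule.mem_sup_right (Submodule.mem_span_singleton_self _)
    have h6 := (hNN _ hXN _ hXN).1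
    linarith
  obtain ⟨l, m1, n1, hl, hor, hall⟩ := s_lemma hD hC (isF_tt hC X) claim
  have hlpos : 0 < l := by
    rcases hl.lt_or_eq with h | h
    · exact h
    · exfalso
      rw [← h] at hor hall
      have hmn : m1 ≠ 0 ∨ n1 ≠ 0 := by
        rcases hor with h1 | h1
        · exact absurd rfl h1
        · exact h1
      apply hSD
      refine ⟨m1 * (-ν) + n1 * μ, m1 * μ + n1 * ν, ?_, fun x => ?_⟩
      · by_contra hcon
        push Not at hcon
        obtain ⟨e1, e2⟩ := hcon
        have e3 : m1 * (μ ^ 2 + ν ^ 2) = 0 := by linear_combination μ * e2 - ν * e1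
        have e4 : n1 * (μ ^ 2 + ν ^ 2) = 0 := by linear_combination μ * e1 + ν * e2
        rcases hmn with h1 | h1
        · exact h1 ((mul_eq_zero.1 e3).resolve_right hdet0.ne')
        · exact h1 ((mul_eq_zero.1 e4).resolve_right hdet0.ne')
      · have h1 := hall x
        rw [hCdef, hDdef] at h1
        simp only [LinearMap.add_apply, LinearMap.smul_apply, smul_eq_mul] at h1 ⊢
        linarith
  refine ⟨μ, ν, -ν, μ, hdet, hNd, hnn, X, hX, m1 / l, n1 / l, fun x => ?_⟩
  have h1 := hall x
  have h2 : (tt C X + (m1 / l) • Dd + (n1 / l) • C) x x =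
      (l * (tt C X) x x + m1 * Dd x x + n1 * C x x) / l := by
    simp only [LinearMap.add_apply, LinearMap.smul_apply, smul_eq_mul]
    field_simp
  rw [h2]
  exact div_nonneg h1 hlpos.le

/-! ### existence of large neutral subspaces -/
end

end Pool.QN
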