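import Pool.Agent.Helper9.QN.Defs
import Pool.Agent.Helper9.QP.A1
import Pool.Agent.Helper9.QP.E1

set_option autoImplicit false
set_option maxHeartbeats 1000000

namespace Pool.QN

section
/-! Pairs of quaternionic hermitian forms.  A right quaternionic space is a module over `Q`, the
opposite of the quaternions.  A quaternionic hermitian form `h` is represented by its real part
`b x y = Re h x y`, a real bilinear symmetric form with `b (q • x) y = b x (star q • y)`.
Subspaces are `Submodule Q V`, dimension is `Module.finrank Q`. -/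
open scoped Quaternion
variable {V : Type} [AddCommGroup V] [Module Q V] [Module ℝ V] [IsScalarTower ℝ Q V]

theorem lin_zero_aux (B C : ℝ) (hC : 0 ≤ C) (h : ∀ t : ℝ, 0 ≤ t * B + t ^ 2 * C) : B = 0 := by
  have h1 := h (-B / (C + 1))
  have hC1 : (C + 1) ≠ 0 := by positivity
  have e : -B / (C + 1) * B + (-B / (C + 1)) ^ 2 * C = - (B / (C + 1)) ^ 2 := by
    field_simp
    ring
  rw [e] at h1
  have h2 : (B / (C + 1)) ^ 2 ≤ 0 := by linarith
  have h3 : B / (C + 1) = 0 := by
    have := le_antisymm h2 (sq_nonneg _)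
    exact pow_eq_zero_iff (by norm_num) |>.1 this
  rcases div_eq_zero_iff.1 h3 with h4 | h4
  · exact h4
  · exact absurd h4 hC1

theorem good_ker {b : BF V} (hb : IsF b) {X : V →ₗ[Q] V} (hX : SA b X) {p q : ℝ}
    {W : Submodule Q V} (hW : Good b X p q W) (x : V) (hx : x ∈ W)
    (h : b (X x) (X x) + p * b x (X x) + q * b x x = 0) : X (X x) + p • X x + q • x = 0 := by
  have hXs : ∀ (t : ℝ) (y : V), X (t • y) = t • X y := fun t y =>
    LinearMap.map_smul_of_tower X t y
  apply hW.nd
  · exact W.add_mem (W.add_mem (hW.inv _ (hW.inv _ hx)) (W.smul_of_tower_mem p (hW.inv _ hx)))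
      (W.smul_of_tower_mem q hx)
  · intro y hy
    have key : 2 * (b (X x) (X y) + p * b x (X y) + q * b x y) = 0 := by
      apply lin_zero_aux _ (b (X y) (X y) + p * b y (X y) + q * b y y) (hW.pos y hy)
      intro t
      have h1 := hW.pos (x + t • y) (W.add_mem hx (W.smul_of_tower_mem t hy))
      have e1 : b (X y) (X x) = b (X x) (X y) := hb.symm _ _
      have e2 : b y (X x) = b x (X y) := by rw [hb.symm y (X x), hX]
      have e3 : b y x = b x y := hb.symm _ _
      have e : b (X (x + t • y)) (X (x + t • y)) + p * b (x + t • y) (X (x + t • y)) +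
          q * b (x + t • y) (x + t • y) =
          (b (X x) (X x) + p * b x (X x) + q * b x x) +
          (t * (2 * (b (X x) (X y) + p * b x (X y) + q * b x y)) +
          t ^ 2 * (b (X y) (X y) + p * b y (X y) + q * b y y)) := by
        rw [map_add X, hXs]
        simp only [map_add, map_smul, LinearMap.add_apply, LinearMap.smul_apply, smul_eq_mul]
        rw [e1, e2, e3]
        ring
      rw [e, h, zero_add] at h1
      exact h1
    simp only [map_add, map_smul, LinearMap.add_apply, LinearMap.smul_apply, smul_eq_mul]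
    rw [hX (X x) y, hX x y]
    linarith
end

section
/-! Pairs of quaternionic hermitian forms.  A right quaternionic space is a module over `Q`, the
opposite of the quaternions.  A quaternionic hermitian form `h` is represented by its real part
`b x y = Re h x y`, a real bilinear symmetric form with `b (q • x) y = b x (star q • y)`.
Subspaces are `Submodule Q V`, dimension is `Module.finrank Q`. -/
open scoped Quaternion
variable {V : Type} [AddCommGroup V] [Module Q V] [Module ℝ V] [IsScalarTower ℝ Q V]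


/-- a nonzero hermitian form on an invariant nondegenerate subspace has a nonzero value -/
theorem form_ne {b : BF V} (hb : IsF b) {Y : V →ₗ[Q] V} (hY : SA b Y) (W : Submodule Q V)
    (hinv : ∀ w ∈ W, Y w ∈ W) (hnd : ∀ x ∈ W, (∀ y ∈ W, b x y = 0) → x = 0)
    (hne : ∃ w ∈ W, Y w ≠ 0) : ∃ f ∈ W, b f (Y f) ≠ 0 := by
  by_contra hcon
  push Not at hcon
  obtain ⟨w, hw, hYw⟩ := hne
  apply hYw
  apply hnd _ (hinv w hw)
  intro y hy
  have h1 := hcon _ (W.add_mem hy hw)
  have h2 := hcon y hy
  have h3 := hcon w hw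
  have h4 : b w (Y y) = b y (Y w) := by
    rw [← hY w y, hb.symm]
  rw [map_add, map_add, map_add, LinearMap.add_apply, LinearMap.add_apply, h2, h3, h4] at h1
  rw [hb.symm]
  linarith
end

section
/-! Pairs of quaternionic hermitian forms.  A right quaternionic space is a module over `Q`, the
opposite of the quaternions.  A quaternionic hermitian form `h` is represented by its real part
`b x y = Re h x y`, a real bilinear symmetric form with `b (q • x) y = b x (star q • y)`.
Subspaces are `Submodule Q V`, dimension is `Module.finrank Q`. -/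
open scoped Quaternion
variable {V : Type} [AddCommGroup V] [Module Q V] [Module ℝ V] [IsScalarTower ℝ Q V]


/-- if `Y` is selfadjoint and `ker Y² = ker Y` on `W` then `b` is nondegenerate on `W ∩ ker Y` -/
theorem kernel_nd [FiniteDimensional Q V] {b : BF V} (hb : IsF b) {Y : V →ₗ[Q] V} (hY : SA b Y)
    (W : Submodule Q V) (hinv : ∀ w ∈ W, Y w ∈ W)
    (hnd : ∀ x ∈ W, (∀ y ∈ W, b x y = 0) → x = 0) (hk : ∀ w ∈ W, Y (Y w) = 0 → Y w = 0)
    (x : V) (hx : x ∈ W) (hYx : Y x = 0) (h : ∀ y ∈ W, Y y = 0 → b x y = 0) : x = 0 := by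
  let F : W →ₗ[Q] W := Y.restrict hinv
  have hF : ∀ w : W, ((F w : W) : V) = Y (w : V) := fun w => rfl
  have hker : LinearMap.ker (F ∘ₗ F) = LinearMap.ker F := by
    ext w
    rw [LinearMap.mem_ker, LinearMap.mem_ker, LinearMap.comp_apply]
    constructor
    · intro h0
      apply Subtype.ext
      rw [hF]
      apply hk _ w.2
      have := congrArg (Subtype.val) h0
      rwa [hF, hF] at this
    · intro h0
      rw [h0, map_zero]
  have hr : LinearMap.range (F ∘ₗ F) = LinearMap.range F := by
    apply Submodule.eq_of_le_of_finrank_eq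
    · rintro _ ⟨w, rfl⟩
      exact ⟨F w, rfl⟩
    · have h1 := LinearMap.finrank_range_add_finrank_ker F
      have h2 := LinearMap.finrank_range_add_finrank_ker (F ∘ₗ F)
      rw [hker] at h2
      omega
  apply hnd x hx
  intro w hw
  have h3 : F ⟨w, hw⟩ ∈ LinearMap.range (F ∘ₗ F) := by
    rw [hr]
    exact ⟨_, rfl⟩
  obtain ⟨u, hu⟩ := h3
  have hu' : Y (Y (u : V)) = Y w := congrArg Subtype.val hu
  have h4 : b x (w - Y (u : V)) = 0 := by
    apply h _ (W.sub_mem hw (hinv _ u.2))
    rw [map_sub, hu', sub_self]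
  have h5 : b x (Y (u : V)) = 0 := by
    rw [← hY x u, hYx, map_zero]
    rfl
  rw [map_sub, h5, sub_zero] at h4
  exact h4
end

section
/-! Pairs of quaternionic hermitian forms.  A right quaternionic space is a module over `Q`, the
opposite of the quaternions.  A quaternionic hermitian form `h` is represented by its real part
`b x y = Re h x y`, a real bilinear symmetric form with `b (q • x) y = b x (star q • y)`.
Subspaces are `Submodule Q V`, dimension is `Module.finrank Q`. -/
open scoped Quaternion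
variable {V : Type} [AddCommGroup V] [Module Q V] [Module ℝ V] [IsScalarTower ℝ Q V]


theorem piece_cx [FiniteDimensional Q V] {b : BF V} (hb : IsF b) {X : V →ₗ[Q] V} (hX : SA b X)
    {p q : ℝ} {W : Submodule Q V} (hW : Good b X p q W) (v : V) (hv : v ∈ W) (hv0 : v ≠ 0)
    (r s : ℝ) (hs : s ≠ 0) (h : sh X r (sh X r v) = -(s ^ 2) • v) :
    ∃ f ∈ W, IsPiece b X (Piece.cx r s) f := by
  have hXs : ∀ (c : ℝ) (w : V), X (c • w) = c • X w := fun c w => LinearMap.map_smul_of_tower X c w
  have hN : ∀ w, sh X r w = X w - r • w := fun w => rfl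
  have hNs : ∀ (c : ℝ) (w : V), sh X r (c • w) = c • sh X r w :=
    fun c w => LinearMap.map_smul_of_tower _ c w
  have hbal : ∀ x y z, b (x + y) z = b x z + b y z := fun x y z => by
    rw [map_add, LinearMap.add_apply]
  have hbar : ∀ x y z, b x (y + z) = b x y + b x z := fun x y z => by rw [map_add]
  have hbsl : ∀ (c : ℝ) x y, b (c • x) y = c * b x y := fun c x y => by
    rw [map_smul, LinearMap.smul_apply, smul_eq_mul]
  have hbsr : ∀ (c : ℝ) x y, b x (c • y) = c * b x y := fun c x y => by
    rw [map_smul, smul_eq_mul]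
  have hbsubl : ∀ x y z, b (x - y) z = b x z - b y z := fun x y z => by
    rw [map_sub, LinearMap.sub_apply]
  have hbsubr : ∀ x y z, b x (y - z) = b x y - b x z := fun x y z => by rw [map_sub]
  have hNsa : ∀ x y, b (sh X r x) y = b x (sh X r y) := by
    intro x y
    rw [hN, hN, hbsubl, hbsubr, hbsl, hbsr, hX x y]
  obtain ⟨Y, hYdef⟩ : ∃ Y : V →ₗ[Q] V, ∀ w, Y w = X (X w) + p • X w + q • w :=
    ⟨X ∘ₗ X + p • X + q • LinearMap.id, fun w => rfl⟩
  have hYs : ∀ (c : ℝ) (w : V), Y (c • w) = c • Y w :=
    fun c w => LinearMap.map_smul_of_tower Y c w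
  have hYsa : SA b Y := by
    intro x y
    rw [hYdef, hYdef]
    simp only [hbal, hbar, hbsl, hbsr]
    rw [hX (X x) y, hX x (X y), hX x y]
  have hG : ∀ w, b (X w) (X w) + p * b w (X w) + q * b w w = b w (Y w) := by
    intro w
    rw [hYdef, hbar, hbar, hbsr, hbsr, hX w (X w)]
  have hcomm : ∀ w, sh X r (Y w) = Y (sh X r w) := by
    intro w
    simp only [hN, hYdef, map_add, map_sub, hXs]
    module
  have hNW : ∀ w ∈ W, sh X r w ∈ W := by
    intro w hw
    rw [hN]
    exact W.sub_mem (hW.inv w hw) (W.smul_of_tower_mem r hw)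
  have hYW : ∀ w ∈ W, Y w ∈ W := by
    intro w hw
    rw [hYdef]
    exact W.add_mem (W.add_mem (hW.inv _ (hW.inv w hw)) (W.smul_of_tower_mem p (hW.inv w hw)))
      (W.smul_of_tower_mem q hw)
  have hpos : ∀ w ∈ W, 0 ≤ b w (Y w) := by
    intro w hw
    rw [← hG]
    exact hW.pos w hw
  have hker : ∀ w ∈ W, b w (Y w) = 0 → Y w = 0 := by
    intro w hw h0
    rw [hYdef]
    exact good_ker hb hX hW w hw (by rw [hG]; exact h0)
  have hs2 : 0 < s ^ 2 := by positivity
  have hGN : ∀ w, b (sh X r w) (Y (sh X r w)) = b w (Y (sh X r (sh X r w))) := by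
    intro w
    rw [hNsa, hcomm]
  -- step 1
  have hYv : Y v = 0 := by
    apply hker v hv
    have h1 := hpos _ (hNW v hv)
    have h2 := hpos v hv
    rw [hGN, h, hYs, hbsr] at h1
    nlinarith
  -- step 2
  have hlin : (p + 2 * r) • X v + (q - r ^ 2 - s ^ 2) • v = 0 := by
    have h1 : X (X v) + p • X v + q • v = 0 := by rw [← hYdef]; exact hYv
    have h2 : X (X v) - r • X v - r • (X v - r • v) = -(s ^ 2) • v := by
      have h3 := h
      rw [hN v, hN, map_sub, hXs] at h3
      exact h3
    have h3 : (p + 2 * r) • X v + (q - r ^ 2 - s ^ 2) • v =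
        (X (X v) + p • X v + q • v) -
          ((X (X v) - r • X v - r • (X v - r • v)) - -(s ^ 2) • v) := by
      module
    rw [h3, h1, h2]
    simp
  have hα : p + 2 * r = 0 := by
    by_contra hα
    set x0 : ℝ := -((q - r ^ 2 - s ^ 2) / (p + 2 * r)) with hx0
    have hXv : X v = x0 • v := by
      have h1 : (p + 2 * r) • (X v - x0 • v) = 0 := by
        rw [← hlin, hx0]
        have h2 : (p + 2 * r) * ((q - r ^ 2 - s ^ 2) / (p + 2 * r)) = q - r ^ 2 - s ^ 2 := by
          field_simp
        rw [smul_sub, smul_smul, mul_neg, h2]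
        module
      rcases smul_eq_zero.1 h1 with h2 | h2
      · exact absurd h2 hα
      · exact sub_eq_zero.1 h2
    have hNv : sh X r v = (x0 - r) • v := by
      rw [hN, hXv]; module
    rw [hNv, hNs, hNv] at h
    have h4 : ((x0 - r) ^ 2 + s ^ 2) • v = 0 := by
      have h5 : ((x0 - r) ^ 2 + s ^ 2) • v = (x0 - r) • (x0 - r) • v - -(s ^ 2) • v := by module
      rw [h5, h, sub_self]
    rcases smul_eq_zero.1 h4 with h5 | h5
    · nlinarith [sq_nonneg (x0 - r)]
    · exact hv0 h5
  have hβ : q - r ^ 2 - s ^ 2 = 0 := by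
    rw [hα, zero_smul, zero_add] at hlin
    rcases smul_eq_zero.1 hlin with h5 | h5
    · exact h5
    · exact absurd h5 hv0
  have hYN : ∀ w, Y w = sh X r (sh X r w) + s ^ 2 • w := by
    intro w
    have hp : p = -2 * r := by linarith
    have hq : q = r ^ 2 + s ^ 2 := by linarith
    rw [hYdef, hN, hN, map_sub, hXs, hp, hq]
    module
  -- step 3
  have hk : ∀ w ∈ W, Y (Y w) = 0 → Y w = 0 := by
    intro w hw hYY
    apply hker w hw
    have h1 := hpos _ (hNW w hw)
    have h2 := hpos w hw
    have h3 : sh X r (sh X r w) = Y w - s ^ 2 • w := by rw [hYN]; abel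
    rw [hGN, h3, map_sub, hYY, hYs, zero_sub, map_neg, hbsr] at h1
    nlinarith
  -- step 4
  have hex : ∃ f ∈ W, Y f = 0 ∧ b f f ≠ 0 := by
    by_contra hcon
    push Not at hcon
    apply hv0
    refine kernel_nd hb hYsa W hYW hW.nd hk v hv hYv ?_
    intro y hy hYy
    have h1 := hcon v hv hYv
    have h2 := hcon y hy hYy
    have h3 := hcon (v + y) (W.add_mem hv hy) (by rw [map_add, hYv, hYy, add_zero])
    rw [hbal, hbar, hbar, h1, h2, hb.symm y v] at h3
    linarith
  obtain ⟨f, hf, hYf, hff⟩ := hex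
  -- step 5
  have hNNf : sh X r (sh X r f) = -(s ^ 2) • f := by
    have h1 := hYN f
    rw [hYf] at h1
    have h2 : sh X r (sh X r f) = -(s ^ 2 • f) := by
      rw [eq_neg_iff_add_eq_zero]; exact h1.symm
    rw [h2, neg_smul]
  obtain ⟨g, hg⟩ : ∃ g : V, g = s⁻¹ • sh X r f := ⟨_, rfl⟩
  have hNf : sh X r f = s • g := by
    rw [hg, smul_smul, mul_inv_cancel₀ hs, one_smul]
  have hNg : sh X r g = (-s) • f := by
    rw [hg, hNs, hNNf, smul_smul]
    congr 1
    field_simp
  have hgW : g ∈ W := by
    rw [hg]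
    exact W.smul_of_tower_mem _ (hNW f hf)
  set c := b f f with hc
  set β := b f g with hβdef
  have hgg : b g g = -c := by
    have h1 : b (sh X r f) g = b f (sh X r g) := hNsa f g
    rw [hNf, hNg, hbsl, hbsr] at h1
    have h2 : s * (b g g + c) = 0 := by rw [hc]; linarith
    rcases mul_eq_zero.1 h2 with h3 | h3
    · exact absurd h3 hs
    · linarith
  have hgf : b g f = β := hb.symm g f
  have hD : 0 < c ^ 2 + β ^ 2 := by positivity
  obtain ⟨z, hz⟩ := IsAlgClosed.exists_pow_nat_eq
    (⟨c / (c ^ 2 + β ^ 2), β / (c ^ 2 + β ^ 2)⟩ : ℂ) (n := 2) (by norm_num)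
  have hz1 : z.re ^ 2 - z.im ^ 2 = c / (c ^ 2 + β ^ 2) := by
    have := congrArg Complex.re hz
    rw [sq, Complex.mul_re] at this
    simp only at this
    rw [← this]; ring
  have hz2 : 2 * z.re * z.im = β / (c ^ 2 + β ^ 2) := by
    have := congrArg Complex.im hz
    rw [sq, Complex.mul_im] at this
    simp only at this
    rw [← this]; ring
  have hNf' : sh X r (z.re • f + z.im • g) = (s * z.re) • g + (-(s * z.im)) • f := by
    rw [map_add, hNs, hNs, hNf, hNg]
    module
  refine ⟨z.re • f + z.im • g, W.add_mem (W.smul_of_tower_mem _ hf) (W.smul_of_tower_mem _ hgW),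
    hs, ?_, ?_, ?_⟩
  · rw [hNf', map_add, hNs, hNs, hNf, hNg]
    module
  · simp only [hbal, hbar, hbsl, hbsr, hgg, hgf]
    rw [← hc, ← hβdef]
    have h1 : z.re * (z.re * c + z.im * β) + z.im * (z.re * β + z.im * -c) =
        (z.re ^ 2 - z.im ^ 2) * c + (2 * z.re * z.im) * β := by ring
    have h2 : c / (c ^ 2 + β ^ 2) * c + β / (c ^ 2 + β ^ 2) * β = 1 := by
      field_simp
    calc _ = (z.re ^ 2 - z.im ^ 2) * c + (2 * z.re * z.im) * β := by ring
      _ = 1 := by rw [hz1, hz2, h2]
  · rw [hNf']
    simp only [hbal, hbar, hbsl, hbsr, hgg, hgf]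
    rw [← hc, ← hβdef]
    have h2 : c / (c ^ 2 + β ^ 2) * β - β / (c ^ 2 + β ^ 2) * c = 0 := by
      field_simp
      ring
    calc _ = s * ((z.re ^ 2 - z.im ^ 2) * β - (2 * z.re * z.im) * c) := by ring
      _ = 0 := by rw [hz1, hz2, h2, mul_zero]
end

section
/-! Pairs of quaternionic hermitian forms.  A right quaternionic space is a module over `Q`, the
opposite of the quaternions.  A quaternionic hermitian form `h` is represented by its real part
`b x y = Re h x y`, a real bilinear symmetric form with `b (q • x) y = b x (star q • y)`.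
Subspaces are `Submodule Q V`, dimension is `Module.finrank Q`. -/
open scoped Quaternion
variable {V : Type} [AddCommGroup V] [Module Q V] [Module ℝ V] [IsScalarTower ℝ Q V]


theorem piece_ray {b : BF V} (hb : IsF b) {X : V →ₗ[Q] V} (hX : SA b X)
    {p q : ℝ} {W : Submodule Q V} (hW : Good b X p q W) (v : V) (hv : v ∈ W) (hv0 : v ≠ 0)
    (x : ℝ) (h : sh X x v = 0) (hx : x ^ 2 + p * x + q ≠ 0) :
    ∃ e, ∃ f ∈ W, IsPiece b X (Piece.ray e x) f := by
  have hXv : X v = x • v := by
    have h1 : X v - x • v = 0 := h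
    exact sub_eq_zero.1 h1
  have hXXv : X (X v) = x • X v := by
    rw [hXv, LinearMap.map_smul_of_tower, hXv]
  have hc : b v v ≠ 0 := by
    intro h0
    have h1 : b (X v) (X v) + p * b v (X v) + q * b v v = 0 := by
      have e1 : b (x • v) (x • v) = x * (x * b v v) := by
        simp only [map_smul, LinearMap.smul_apply, smul_eq_mul]
      have e2 : b v (x • v) = x * b v v := by
        simp only [map_smul, smul_eq_mul]
      rw [hXv, e1, e2, h0]
      simp
    have h2 := good_ker hb hX hW v hv h1
    rw [hXXv, hXv, smul_smul, smul_smul, ← add_smul, ← add_smul] at h2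
    rcases smul_eq_zero.1 h2 with h3 | h3
    · exact hx (by linear_combination h3)
    · exact hv0 h3
  obtain ⟨r, hr⟩ : ∃ r : ℝ, r = (Real.sqrt |b v v|)⁻¹ := ⟨_, rfl⟩
  have hr2 : r ^ 2 = |b v v|⁻¹ := by
    rw [hr, inv_pow, Real.sq_sqrt (abs_nonneg _)]
  refine ⟨decide (0 < b v v), r • v, W.smul_of_tower_mem r hv, ?_, ?_⟩
  · have e1 : b (r • v) (r • v) = r * (r * b v v) := by
      simp only [map_smul, LinearMap.smul_apply, smul_eq_mul]
    rw [e1]
    have h1 : r * (r * b v v) = |b v v|⁻¹ * b v v := by rw [← hr2]; ring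
    rw [h1]
    unfold sg
    by_cases h2 : 0 < b v v
    · rw [if_pos (decide_eq_true h2), abs_of_pos h2, inv_mul_cancel₀ hc]
    · have h3 : b v v < 0 := lt_of_le_of_ne (not_lt.1 h2) hc
      rw [if_neg (by simpa using h2), abs_of_neg h3]
      field_simp
  · rw [LinearMap.map_smul_of_tower, h, smul_zero]
end

section
/-! Pairs of quaternionic hermitian forms.  A right quaternionic space is a module over `Q`, the
opposite of the quaternions.  A quaternionic hermitian form `h` is represented by its real part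
`b x y = Re h x y`, a real bilinear symmetric form with `b (q • x) y = b x (star q • y)`.
Subspaces are `Submodule Q V`, dimension is `Module.finrank Q`. -/
open scoped Quaternion
variable {V : Type} [AddCommGroup V] [Module Q V] [Module ℝ V] [IsScalarTower ℝ Q V]


theorem nil_step_sh (X : V →ₗ[Q] V) (r : ℝ) (y : V) : sh X r y = X y - r • y := rfl

theorem nil_step_SA {b : BF V} {X : V →ₗ[Q] V} (hX : SA b X) (r : ℝ) (x y : V) :
    b (sh X r x) y = b x (sh X r y) := by
  rw [nil_step_sh, nil_step_sh, map_sub, map_sub, LinearMap.sub_apply, map_smul, map_smul,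
    LinearMap.smul_apply, hX x y]

theorem nil_step_poly (X : V →ₗ[Q] V) {p q r : ℝ} (hr : r ^ 2 + p * r + q = 0) (y : V) :
    X (X y) + p • X y + q • y = sh X r (sh X r y) + (2 * r + p) • sh X r y := by
  simp only [nil_step_sh, map_sub, LinearMap.map_smul_of_tower]
  have hq : q = -(r ^ 2) - p * r := by linarith
  rw [hq]
  module

theorem nil_step_G {b : BF V} {X : V →ₗ[Q] V} (hX : SA b X) {p q r : ℝ}
    (hr : r ^ 2 + p * r + q = 0) (y : V) :
    b (X y) (X y) + p * b y (X y) + q * b y y =
      b y (sh X r (sh X r y) + (2 * r + p) • sh X r y) := by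
  rw [← nil_step_poly X hr y, hX y (X y), map_add, map_add, map_smul, map_smul, smul_eq_mul,
    smul_eq_mul]

theorem nil_step_mem {X : V →ₗ[Q] V} {W : Submodule Q V} (hW : ∀ w ∈ W, X w ∈ W) (r : ℝ)
    (y : V) (hy : y ∈ W) : sh X r y ∈ W := by
  rw [nil_step_sh]
  exact W.sub_mem (hW y hy) (W.smul_of_tower_mem r hy)

theorem nil_step {b : BF V} (hb : IsF b) {X : V →ₗ[Q] V} (hX : SA b X)
    {p q : ℝ} {W : Submodule Q V} (hW : Good b X p q W) (r : ℝ) (hr : r ^ 2 + p * r + q = 0)
    (x : V) (hx : x ∈ W) (h : sh X r (sh X r (sh X r (sh X r x))) = 0) :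
    sh X r (sh X r (sh X r x)) = 0 := by
  have hN1 := nil_step_mem hW.inv r x hx
  have hN2 := nil_step_mem hW.inv r _ hN1
  by_cases hδ : 2 * r + p = 0
  · have hG : b (X (sh X r x)) (X (sh X r x)) + p * b (sh X r x) (X (sh X r x)) +
        q * b (sh X r x) (sh X r x) = 0 := by
      rw [nil_step_G hX hr, hδ, zero_smul, add_zero, nil_step_SA hX, h, map_zero]
    have h1 := good_ker hb hX hW (sh X r x) hN1 hG
    rw [nil_step_poly X hr, hδ, zero_smul, add_zero] at h1
    exact h1
  · have hG : b (X (sh X r (sh X r x))) (X (sh X r (sh X r x))) +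
        p * b (sh X r (sh X r x)) (X (sh X r (sh X r x))) +
        q * b (sh X r (sh X r x)) (sh X r (sh X r x)) = 0 := by
      rw [nil_step_G hX hr, h, zero_add, map_smul, nil_step_SA hX, h, map_zero, smul_zero]
    have h1 := good_ker hb hX hW (sh X r (sh X r x)) hN2 hG
    rw [nil_step_poly X hr, h, zero_add] at h1
    exact (smul_eq_zero.mp h1).resolve_left hδ
end

section
/-! Pairs of quaternionic hermitian forms.  A right quaternionic space is a module over `Q`, the
opposite of the quaternions.  A quaternionic hermitian form `h` is represented by its real part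
`b x y = Re h x y`, a real bilinear symmetric form with `b (q • x) y = b x (star q • y)`.
Subspaces are `Submodule Q V`, dimension is `Module.finrank Q`. -/
open scoped Quaternion
variable {V : Type} [AddCommGroup V] [Module Q V] [Module ℝ V] [IsScalarTower ℝ Q V]


/-- if `r` is a simple root then the generalised eigenspace has nilpotency at most 2 -/
theorem nil_step2 {b : BF V} (hb : IsF b) {X : V →ₗ[Q] V} (hX : SA b X)
    {p q : ℝ} {W : Submodule Q V} (hW : Good b X p q W) (r : ℝ) (hr : r ^ 2 + p * r + q = 0)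
    (hd : 2 * r + p ≠ 0) (x : V) (hx : x ∈ W) (h : sh X r (sh X r (sh X r x)) = 0) :
    sh X r (sh X r x) = 0 := by
  have hXr : ∀ (c : ℝ) (v : V), X (c • v) = c • X v := fun c v =>
    (X.restrictScalars ℝ).map_smul c v
  have hsh : ∀ v, sh X r v = X v - r • v := fun v => rfl
  have hWr : ∀ (c : ℝ) (v : V), v ∈ W → c • v ∈ W := by
    intro c v hv
    have h1 : c • v = (c • (1 : Q)) • v := by rw [smul_assoc, one_smul]
    rw [h1]
    exact W.smul_mem _ hv
  have hW1 : sh X r x ∈ W := by
    rw [hsh]
    exact W.sub_mem (hW.inv x hx) (hWr r x hx)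
  have hSA : ∀ u v, b (sh X r u) v = b u (sh X r v) := by
    intro u v
    rw [hsh, hsh, map_sub, map_sub, LinearMap.sub_apply, map_smul, map_smul,
      LinearMap.smul_apply, hX u v]
  set y := sh X r x with hy
  have hpol : ∀ v : V, X (X v) + p • X v + q • v
      = sh X r (sh X r v) + (2 * r + p) • sh X r v := by
    intro v
    have hq : q = -(r ^ 2 + p * r) := by linarith
    rw [hsh (sh X r v), hsh v, map_sub, hXr, hq]
    module
  have h0 : b (X y) (X y) + p * b y (X y) + q * b y y = 0 := by
    have h1 : b (X y) (X y) + p * b y (X y) + q * b y y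
        = b y (X (X y) + p • X y + q • y) := by
      rw [map_add, map_add, map_smul, map_smul, hX y (X y), smul_eq_mul, smul_eq_mul]
    rw [h1, hpol, h, zero_add, map_smul, smul_eq_mul, hy, hSA, ← hy, h, map_zero, mul_zero]
  have h2 := good_ker hb hX hW y hW1 h0
  rw [hpol, h, zero_add] at h2
  rcases smul_eq_zero.mp h2 with h3 | h3
  · exact absurd h3 hd
  · exact h3
end

section
/-! Pairs of quaternionic hermitian forms.  A right quaternionic space is a module over `Q`, the
opposite of the quaternions.  A quaternionic hermitian form `h` is represented by its real part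
`b x y = Re h x y`, a real bilinear symmetric form with `b (q • x) y = b x (star q • y)`.
Subspaces are `Submodule Q V`, dimension is `Module.finrank Q`. -/
open scoped Quaternion
variable {V : Type} [AddCommGroup V] [Module Q V] [Module ℝ V] [IsScalarTower ℝ Q V]


theorem pn_scale (s : ℝ) (hs : s ≠ 0) : ∃ c : ℝ, ∃ e : Bool, c * c * s = sg e := by
  rcases lt_or_gt_of_ne hs with h | h
  · refine ⟨1 / Real.sqrt (-s), false, ?_⟩
    have h1 : 0 < -s := by linarith
    have h2 : Real.sqrt (-s) * Real.sqrt (-s) = -s := Real.mul_self_sqrt h1.le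
    have h3 : Real.sqrt (-s) ≠ 0 := (Real.sqrt_pos.mpr h1).ne'
    simp only [sg]
    field_simp
    rw [sq, h2]
    simp
  · refine ⟨1 / Real.sqrt s, true, ?_⟩
    have h2 : Real.sqrt s * Real.sqrt s = s := Real.mul_self_sqrt h.le
    have h3 : Real.sqrt s ≠ 0 := (Real.sqrt_pos.mpr h).ne'
    simp only [sg]
    field_simp
    rw [sq, h2]
    simp

theorem pn_scale_pos (s : ℝ) (h : 0 < s) : ∃ c : ℝ, c * c * s = 1 := by
  refine ⟨1 / Real.sqrt s, ?_⟩
  have h2 : Real.sqrt s * Real.sqrt s = s := Real.mul_self_sqrt h.le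
  have h3 : Real.sqrt s ≠ 0 := (Real.sqrt_pos.mpr h).ne'
  field_simp
  rw [sq, h2]

theorem pn_sg_sq (e : Bool) : sg e * sg e = 1 := by
  cases e <;> simp [sg]

theorem pn_sh_apply (X : V →ₗ[Q] V) (r : ℝ) (x : V) : sh X r x = X x - r • x := rfl

theorem pn_real_smul (N : V →ₗ[Q] V) (c : ℝ) (x : V) : N (c • x) = c • N x :=
  LinearMap.map_smul_of_tower N c x

theorem pn_sa {b : BF V} {X : V →ₗ[Q] V} (hX : SA b X) (r : ℝ) : SA b (sh X r) := by
  intro x y
  rw [pn_sh_apply, pn_sh_apply, map_sub, map_sub, LinearMap.sub_apply, map_smul, map_smul,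
    LinearMap.smul_apply, hX x y]

theorem piece_nil [FiniteDimensional Q V] {b : BF V} (hb : IsF b) {X : V →ₗ[Q] V} (hX : SA b X)
    {p q : ℝ} {W : Submodule Q V} (hW : Good b X p q W) (r : ℝ) (hr : r ^ 2 + p * r + q = 0)
    (v : V) (hv : v ∈ W) (hv0 : v ≠ 0) (h : sh X r v = 0) :
    ∃ P, ∃ f ∈ W, IsPiece b X P f := by
  obtain ⟨N, hN⟩ : ∃ N : V →ₗ[Q] V, N = sh X r := ⟨_, rfl⟩
  have hNX : ∀ x, X x = N x + r • x := by
    intro x; rw [hN, pn_sh_apply]; abel
  have hNS : SA b N := by rw [hN]; exact pn_sa hX r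
  have hNc : ∀ (c : ℝ) (x : V), N (c • x) = c • N x := fun c x => pn_real_smul N c x
  have hWs : ∀ (c : ℝ) (x : V), x ∈ W → c • x ∈ W := fun c x hx => W.smul_of_tower_mem c hx
  have hNW : ∀ w ∈ W, N w ∈ W := by
    intro w hw
    rw [hN, pn_sh_apply]
    exact W.sub_mem (hW.inv w hw) (hWs r w hw)
  have step1 : ∀ x ∈ W, N (N (N (N x))) = 0 → N (N (N x)) = 0 := by
    intro x hx h1
    rw [hN] at h1 ⊢
    exact nil_step hb hX hW r hr x hx h1
  have hG : ∀ x ∈ W, 0 ≤ b x (N (N x)) + (2 * r + p) * b x (N x) := by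
    intro x hx
    have h1 := hW.pos x hx
    have e1 : b (X x) (X x) = b x (N (N x)) + 2 * r * b x (N x) + r ^ 2 * b x x := by
      rw [hNX x]
      simp only [map_add, LinearMap.add_apply, map_smul, LinearMap.smul_apply, smul_eq_mul]
      rw [hNS x (N x), hNS x x]
      ring
    have e2 : b x (X x) = b x (N x) + r * b x x := by
      rw [hNX x]
      simp only [map_add, map_smul, smul_eq_mul]
    rw [e1, e2] at h1
    have e3 : b x (N (N x)) + 2 * r * b x (N x) + r ^ 2 * b x x + p * (b x (N x) + r * b x x) + q * b x x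
        = b x (N (N x)) + (2 * r + p) * b x (N x) + (r ^ 2 + p * r + q) * b x x := by ring
    rw [e3, hr] at h1
    linarith
  -- the subspace W3
  obtain ⟨W3, hW3⟩ : ∃ W3 : Submodule Q V, W3 = W ⊓ LinearMap.ker (N ∘ₗ N ∘ₗ N) := ⟨_, rfl⟩
  have mem3 : ∀ x, x ∈ W3 ↔ x ∈ W ∧ N (N (N x)) = 0 := by
    intro x; rw [hW3]; simp [LinearMap.mem_ker]
  have hYS : SA b (N ∘ₗ N ∘ₗ N) := by
    intro x y
    simp only [LinearMap.comp_apply]
    rw [hNS, hNS, hNS]
  have inv3 : ∀ w ∈ W3, N w ∈ W3 := by
    intro w hw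
    rw [mem3] at hw ⊢
    exact ⟨hNW w hw.1, by rw [hw.2, map_zero]⟩
  have nd3 : ∀ x ∈ W3, (∀ y ∈ W3, b x y = 0) → x = 0 := by
    intro x hx hxy
    rw [mem3] at hx
    refine kernel_nd hb hYS W ?_ hW.nd ?_ x hx.1 hx.2 ?_
    · intro w hw
      exact hNW _ (hNW _ (hNW _ hw))
    · intro w hw h6
      simp only [LinearMap.comp_apply] at h6 ⊢
      have h5 := step1 (N (N w)) (hNW _ (hNW _ hw)) h6
      have h4 := step1 (N w) (hNW _ hw) h5
      exact step1 w hw h4
    · intro y hy hy2
      exact hxy y ((mem3 y).mpr ⟨hy, hy2⟩)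
  have hv3 : v ∈ W3 := by
    rw [mem3]
    refine ⟨hv, ?_⟩
    rw [hN, h, map_zero, map_zero]
  have bl : ∀ (c : ℝ) (x y : V), b (c • x) (c • y) = c * c * b x y := by
    intro c x y
    rw [map_smul, map_smul, LinearMap.smul_apply, smul_eq_mul, smul_eq_mul]; ring
  by_cases hA : ∃ w ∈ W3, N (N w) ≠ 0
  · obtain ⟨w, hw, hw2⟩ := hA
    have hd : 2 * r + p = 0 := by
      by_contra hd
      apply hw2
      have := nil_step2 hb hX hW r hr hd w ((mem3 w).mp hw).1 (by rw [← hN]; exact ((mem3 w).mp hw).2)
      rw [← hN] at this; exact this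
    have hY2 : SA b (N ∘ₗ N) := by
      intro x y
      simp only [LinearMap.comp_apply]
      rw [hNS, hNS]
    obtain ⟨f, hf, hfne⟩ := form_ne hb hY2 W3 (fun w hw => inv3 _ (inv3 _ hw)) nd3 ⟨w, hw, hw2⟩
    simp only [LinearMap.comp_apply] at hfne
    have hf' := (mem3 f).mp hf
    have hpos : 0 < b f (N (N f)) := by
      have := hG f hf'.1
      rw [hd, zero_mul, add_zero] at this
      exact lt_of_le_of_ne this (Ne.symm hfne)
    obtain ⟨c, hc⟩ := pn_scale_pos _ hpos
    obtain ⟨g, hg⟩ : ∃ g, g = c • f := ⟨_, rfl⟩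
    have hgW : g ∈ W := by rw [hg]; exact hWs c f hf'.1
    have hg3 : N (N (N g)) = 0 := by
      rw [hg, hNc, hNc, hNc, hf'.2, smul_zero]
    have hg2 : b g (N (N g)) = 1 := by
      rw [hg, hNc, hNc, bl, hc]
    have a11 : b (N g) (N g) = 1 := by rw [hNS, hg2]
    have a12 : b (N g) (N (N g)) = 0 := by rw [hNS, hg3, map_zero]
    have a21 : b (N (N g)) (N g) = 0 := by rw [hb.symm, a12]
    have a22 : b (N (N g)) (N (N g)) = 0 := by rw [hNS, hg3, map_zero]
    have a10 : b (N g) g = b g (N g) := hb.symm _ _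
    have a20 : b (N (N g)) g = 1 := by rw [hb.symm, hg2]
    refine ⟨Piece.b3 r, g + (-(b g (N g)) / 2) • N g +
      (-(b g g + ((-(b g (N g)) / 2)) ^ 2 + 2 * (-(b g (N g)) / 2) * b g (N g)) / 2) • N (N g), ?_, ?_⟩
    · exact W.add_mem (W.add_mem hgW (hWs _ _ (hNW _ hgW))) (hWs _ _ (hNW _ (hNW _ hgW)))
    · generalize hα : (-(b g (N g)) / 2) = α
      generalize hβ : (-(b g g + α ^ 2 + 2 * α * b g (N g)) / 2) = β
      have n1 : N (g + α • N g + β • N (N g)) = N g + α • N (N g) := by
        rw [map_add, map_add, hNc, hNc, hg3, smul_zero, add_zero]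
      have n2 : N (N g + α • N (N g)) = N (N g) := by
        rw [map_add, hNc, hg3, smul_zero, add_zero]
      simp only [IsPiece]
      rw [← hN, n1, n2, hg3]
      refine ⟨rfl, ?_, ?_, ?_⟩
      · simp only [map_add, LinearMap.add_apply, map_smul, LinearMap.smul_apply, smul_eq_mul]
        rw [hg2, a12, a22]; ring
      · simp only [map_add, LinearMap.add_apply, map_smul, LinearMap.smul_apply, smul_eq_mul]
        rw [hg2, a12, a22, a11, a21, ← hα]; ring
      · simp only [map_add, LinearMap.add_apply, map_smul, LinearMap.smul_apply, smul_eq_mul]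
        rw [hg2, a12, a22, a11, a21, a10, a20, ← hβ]; ring
  · push Not at hA
    by_cases hB : ∃ w ∈ W3, N w ≠ 0
    · obtain ⟨f, hf, hfne⟩ := form_ne hb hNS W3 inv3 nd3 hB
      have hf' := (mem3 f).mp hf
      obtain ⟨c, e, hc⟩ := pn_scale _ hfne
      obtain ⟨g, hg⟩ : ∃ g, g = c • f := ⟨_, rfl⟩
      have hgW : g ∈ W := by rw [hg]; exact hWs c f hf'.1
      have hg2 : N (N g) = 0 := by
        rw [hg, hNc, hNc, hA f hf, smul_zero]
      have hg1 : b g (N g) = sg e := by
        rw [hg, hNc, bl, hc]
      have a11 : b (N g) (N g) = 0 := by rw [hNS, hg2, map_zero]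
      have a10 : b (N g) g = sg e := by rw [hb.symm, hg1]
      have hsg := pn_sg_sq e
      refine ⟨Piece.b2 e r, g + (-(b g g) * sg e / 2) • N g, ?_, ?_⟩
      · exact W.add_mem hgW (hWs _ _ (hNW _ hgW))
      · generalize hα : (-(b g g) * sg e / 2) = α
        have n1 : N (g + α • N g) = N g := by
          rw [map_add, hNc, hg2, smul_zero, add_zero]
        simp only [IsPiece]
        rw [← hN, n1, hg2]
        refine ⟨rfl, ?_, ?_⟩
        · simp only [map_add, LinearMap.add_apply, map_smul, LinearMap.smul_apply, smul_eq_mul]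
          rw [hg1, a11]; ring
        · simp only [map_add, LinearMap.add_apply, map_smul, LinearMap.smul_apply, smul_eq_mul]
          rw [hg1, a11, a10, ← hα]
          have : b g g + -(b g g) * sg e / 2 * sg e + -(b g g) * sg e / 2 * (sg e + -(b g g) * sg e / 2 * 0)
            = b g g - b g g * (sg e * sg e) := by ring
          rw [this, hsg]; ring
    · push Not at hB
      have hid : SA b (LinearMap.id : V →ₗ[Q] V) := fun x y => rfl
      obtain ⟨f, hf, hfne⟩ := form_ne hb hid W3 (fun w hw => hw) nd3 ⟨v, hv3, hv0⟩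
      simp only [LinearMap.id_apply] at hfne
      have hf' := (mem3 f).mp hf
      obtain ⟨c, e, hc⟩ := pn_scale _ hfne
      refine ⟨Piece.ray e r, c • f, hWs c f hf'.1, ?_, ?_⟩
      · rw [bl, hc]
      · rw [← hN, hNc, hB f hf, smul_zero]
end

section
/-! Pairs of quaternionic hermitian forms.  A right quaternionic space is a module over `Q`, the
opposite of the quaternions.  A quaternionic hermitian form `h` is represented by its real part
`b x y = Re h x y`, a real bilinear symmetric form with `b (q • x) y = b x (star q • y)`.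
Subspaces are `Submodule Q V`, dimension is `Module.finrank Q`. -/
open scoped Quaternion
variable {V : Type} [AddCommGroup V] [Module Q V] [Module ℝ V] [IsScalarTower ℝ Q V]


theorem piece_exists [FiniteDimensional Q V] {b : BF V} (hb : IsF b) {X : V →ₗ[Q] V}
    (hX : SA b X) {p q : ℝ} {W : Submodule Q V} (hW : Good b X p q W) (hne : W ≠ ⊥) :
    ∃ P, ∃ f ∈ W, IsPiece b X P f := by
  obtain ⟨v, hv, hv0, h⟩ := exists_eig X W hne hW.inv
  rcases h with ⟨r, hr⟩ | ⟨r, s, hs, hrs⟩
  · by_cases h0 : r ^ 2 + p * r + q = 0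
    · exact piece_nil hb hX hW r h0 v hv hv0 hr
    · obtain ⟨e, f, hf, hp⟩ := piece_ray hb hX hW v hv hv0 r hr h0
      exact ⟨_, f, hf, hp⟩
  · obtain ⟨f, hf, hp⟩ := piece_cx hb hX hW v hv hv0 r s hs hrs
    exact ⟨_, f, hf, hp⟩
end

section
/-! Pairs of quaternionic hermitian forms.  A right quaternionic space is a module over `Q`, the
opposite of the quaternions.  A quaternionic hermitian form `h` is represented by its real part
`b x y = Re h x y`, a real bilinear symmetric form with `b (q • x) y = b x (star q • y)`.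
Subspaces are `Submodule Q V`, dimension is `Module.finrank Q`. -/
open scoped Quaternion
variable {V : Type} [AddCommGroup V] [Module Q V] [Module ℝ V] [IsScalarTower ℝ Q V]


theorem ci_comb {X : V →ₗ[Q] V} {f : V} (α β γ : ℝ)
    (h : X (X (X f)) = α • f + β • X f + γ • X (X f)) : ∀ w ∈ cyc X f, X w ∈ cyc X f := by
  have h0 : f ∈ cyc X f := Submodule.subset_span (by simp)
  have h1 : X f ∈ cyc X f := Submodule.subset_span (by simp)
  have h2 : X (X f) ∈ cyc X f := Submodule.subset_span (by simp)
  have h3 : X (X (X f)) ∈ cyc X f := by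
    rw [h]
    exact add_mem (add_mem (Submodule.smul_of_tower_mem _ α h0)
      (Submodule.smul_of_tower_mem _ β h1)) (Submodule.smul_of_tower_mem _ γ h2)
  intro w hw
  have hle : cyc X f ≤ (cyc X f).comap X := by
    conv_lhs => rw [cyc]
    rw [Submodule.span_le]
    intro x hx
    simp only [Set.mem_insert_iff, Set.mem_singleton_iff] at hx
    rcases hx with rfl | rfl | rfl
    · exact h1
    · exact h2
    · exact h3
  exact hle hw

theorem cyc_inv {b : BF V} {X : V →ₗ[Q] V} {P : Piece} {f : V} (h : IsPiece b X P f) :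
    ∀ w ∈ cyc X f, X w ∈ cyc X f := by
  cases P with
  | ray e x =>
    obtain ⟨_, h⟩ := h
    have h1 : X f = x • f := by
      simp only [sh, LinearMap.sub_apply, LinearMap.smul_apply, LinearMap.id_apply] at h
      exact sub_eq_zero.1 h
    refine ci_comb 0 0 x ?_
    have h2 : X (X f) = x • X f := by
      conv_lhs => rw [h1]
      rw [LinearMap.map_smul_of_tower]
    conv_lhs => rw [h2]
    rw [LinearMap.map_smul_of_tower]
    module
  | cx r s =>
    obtain ⟨_, h, _, _⟩ := h
    have h1 : X (X f) = (2 * r) • X f - (r ^ 2 + s ^ 2) • f := by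
      simp only [sh, LinearMap.sub_apply, LinearMap.smul_apply, LinearMap.id_apply, map_sub,
        LinearMap.map_smul_of_tower] at h
      linear_combination (norm := module) h
    refine ci_comb 0 (-(r ^ 2 + s ^ 2)) (2 * r) ?_
    conv_lhs => rw [h1]
    rw [map_sub, LinearMap.map_smul_of_tower, LinearMap.map_smul_of_tower]
    module
  | b2 e r =>
    obtain ⟨h, _, _⟩ := h
    have h1 : X (X f) = (2 * r) • X f - (r ^ 2) • f := by
      simp only [sh, LinearMap.sub_apply, LinearMap.smul_apply, LinearMap.id_apply, map_sub,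
        LinearMap.map_smul_of_tower] at h
      linear_combination (norm := module) h
    refine ci_comb 0 (-(r ^ 2)) (2 * r) ?_
    conv_lhs => rw [h1]
    rw [map_sub, LinearMap.map_smul_of_tower, LinearMap.map_smul_of_tower]
    module
  | b3 r =>
    obtain ⟨h, _, _, _⟩ := h
    refine ci_comb (r ^ 3) (-(3 * r ^ 2)) (3 * r) ?_
    simp only [sh, LinearMap.sub_apply, LinearMap.smul_apply, LinearMap.id_apply, map_sub,
      LinearMap.map_smul_of_tower] at h
    linear_combination (norm := module) h
end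

section
/-! Pairs of quaternionic hermitian forms.  A right quaternionic space is a module over `Q`, the
opposite of the quaternions.  A quaternionic hermitian form `h` is represented by its real part
`b x y = Re h x y`, a real bilinear symmetric form with `b (q • x) y = b x (star q • y)`.
Subspaces are `Submodule Q V`, dimension is `Module.finrank Q`. -/
open scoped Quaternion
variable {V : Type} [AddCommGroup V] [Module Q V] [Module ℝ V] [IsScalarTower ℝ Q V]


theorem cyc_nd_sh (X : V →ₗ[Q] V) (r : ℝ) (v : V) : sh X r v = X v - r • v := by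
  simp [sh]

theorem cyc_nd_SA {b : BF V} {X : V →ₗ[Q] V} (hX : SA b X) (r : ℝ) : SA b (sh X r) := by
  intro x y
  rw [cyc_nd_sh, cyc_nd_sh, map_sub, map_smul, LinearMap.sub_apply, LinearMap.smul_apply,
    map_sub, map_smul, hX]

theorem cyc_nd_span (X : V →ₗ[Q] V) (r : ℝ) (f : V) :
    cyc X f = Submodule.span Q {f, sh X r f, sh X r (sh X r f)} := by
  have e1 : X f = sh X r f + r • f := by rw [cyc_nd_sh]; abel
  have e2 : X (X f) = sh X r (sh X r f) + (2 * r) • sh X r f + (r ^ 2) • f := by
    simp only [cyc_nd_sh, map_sub, LinearMap.map_smul_of_tower, smul_sub, smul_smul]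
    module
  have e3 : sh X r f = X f - r • f := cyc_nd_sh X r f
  have e4 : sh X r (sh X r f) = X (X f) - (2 * r) • X f + (r ^ 2) • f := by
    simp only [cyc_nd_sh, map_sub, LinearMap.map_smul_of_tower, smul_sub, smul_smul]
    module
  unfold cyc
  apply le_antisymm
  · rw [Submodule.span_le]
    have m1 : f ∈ Submodule.span Q {f, sh X r f, sh X r (sh X r f)} :=
      Submodule.subset_span (by simp)
    have m2 : sh X r f ∈ Submodule.span Q {f, sh X r f, sh X r (sh X r f)} :=
      Submodule.subset_span (by simp)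
    have m3 : sh X r (sh X r f) ∈ Submodule.span Q {f, sh X r f, sh X r (sh X r f)} :=
      Submodule.subset_span (by simp)
    intro z hz
    simp only [Set.mem_insert_iff, Set.mem_singleton_iff] at hz
    rcases hz with rfl | rfl | rfl
    · exact m1
    · rw [SetLike.mem_coe, e1]
      exact Submodule.add_mem _ m2 (Submodule.smul_of_tower_mem _ r m1)
    · rw [SetLike.mem_coe, e2]
      exact Submodule.add_mem _ (Submodule.add_mem _ m3 (Submodule.smul_of_tower_mem _ _ m2))
        (Submodule.smul_of_tower_mem _ _ m1)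
  · rw [Submodule.span_le]
    have m1 : f ∈ Submodule.span Q {f, X f, X (X f)} := Submodule.subset_span (by simp)
    have m2 : X f ∈ Submodule.span Q {f, X f, X (X f)} := Submodule.subset_span (by simp)
    have m3 : X (X f) ∈ Submodule.span Q {f, X f, X (X f)} := Submodule.subset_span (by simp)
    intro z hz
    simp only [Set.mem_insert_iff, Set.mem_singleton_iff] at hz
    rcases hz with rfl | rfl | rfl
    · exact m1
    · rw [SetLike.mem_coe, e3]
      exact Submodule.sub_mem _ m2 (Submodule.smul_of_tower_mem _ r m1)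
    · rw [SetLike.mem_coe, e4]
      exact Submodule.add_mem _ (Submodule.sub_mem _ m3 (Submodule.smul_of_tower_mem _ _ m2))
        (Submodule.smul_of_tower_mem _ _ m1)

theorem cyc_nd_pair2 {b : BF V} (hb : IsF b) {Y : V →ₗ[Q] V} (hY : SA b Y) (f : V) (β α : Q) :
    b (β • f) (α • Y f) = (star β * α).unop.re * b f (Y f) := by
  have h1 := (self_smul (isF_tw hb hY) f (star β * α)).1
  have h2 : tw b Y f ((star β * α) • f) = b f (Y ((star β * α) • f)) := rfl
  have h3 : tw b Y f f = b f (Y f) := rfl
  rw [h2, h3, Y.map_smul] at h1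
  rw [hb.adj, smul_smul, h1]

theorem cyc_nd_pair {b : BF V} (hb : IsF b) {Y : V →ₗ[Q] V} (hY : SA b Y) (f : V) (α : Q) :
    b (α • f) (α • Y f) = Quaternion.normSq α.unop * b f (Y f) := by
  rw [cyc_nd_pair2 hb hY]
  rfl

theorem cyc_nd_pair0 {b : BF V} (hb : IsF b) (f : V) (α : Q) :
    b (α • f) (α • f) = Quaternion.normSq α.unop * b f f := by
  have := cyc_nd_pair hb (Y := LinearMap.id) (fun x y => rfl) f α
  simpa using! this

theorem cyc_nd_zero (α : Q) (h : Quaternion.normSq α.unop = 0) : α = 0 := by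
  have := Quaternion.normSq_eq_zero.1 h
  exact MulOpposite.unop_injective this

theorem cyc_nd_move {b : BF V} {N : V →ₗ[Q] V} (hN : SA b N) (α q : Q) (u v : V) :
    b (α • N u) (q • v) = b (α • u) (q • N v) := by
  rw [← N.map_smul, hN, N.map_smul]

theorem cyc_nd {b : BF V} (hb : IsF b) {X : V →ₗ[Q] V} (hX : SA b X) {P : Piece} {f : V}
    (h : IsPiece b X P f) : ∀ x ∈ cyc X f, (∀ y ∈ cyc X f, b x y = 0) → x = 0 := by
  have main : ∀ (r : ℝ), ∀ x ∈ cyc X f, ∃ α β γ : Q,
      x = α • f + β • sh X r f + γ • sh X r (sh X r f) := by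
    intro r x hx
    rw [cyc_nd_span X r f] at hx
    obtain ⟨α, z, hz, rfl⟩ := Submodule.mem_span_insert.1 hx
    obtain ⟨β, z', hz', rfl⟩ := Submodule.mem_span_insert.1 hz
    obtain ⟨γ, rfl⟩ := Submodule.mem_span_singleton.1 hz'
    exact ⟨α, β, γ, by rw [add_assoc]⟩
  have mem : ∀ (r : ℝ) (α : Q), α • f ∈ cyc X f ∧ α • sh X r f ∈ cyc X f ∧
      α • sh X r (sh X r f) ∈ cyc X f := by
    intro r α
    rw [cyc_nd_span X r f]
    exact ⟨Submodule.smul_mem _ _ (Submodule.subset_span (by simp)),
      Submodule.smul_mem _ _ (Submodule.subset_span (by simp)),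
      Submodule.smul_mem _ _ (Submodule.subset_span (by simp))⟩
  intro x hx hy
  cases P with
  | ray e r =>
    obtain ⟨h1, h2⟩ := h
    obtain ⟨α, β, γ, rfl⟩ := main r x hx
    have hsg : sg e ≠ 0 := by unfold sg; split_ifs <;> norm_num
    rw [h2] at hy ⊢
    simp only [map_zero, smul_zero, add_zero] at hy ⊢
    have h3 := hy _ (mem r α).1
    rw [cyc_nd_pair0 hb, h1] at h3
    rw [cyc_nd_zero α ((mul_eq_zero.1 h3).resolve_right hsg), zero_smul]
  | cx r s =>
    obtain ⟨hs, h1, h2, h3⟩ := h
    obtain ⟨α, β, γ, rfl⟩ := main r x hx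
    have hN := cyc_nd_SA hX r
    have e1 : γ • sh X r (sh X r f) = ((-(s ^ 2) : ℝ) • γ) • f := by
      rw [h1, smul_assoc, smul_comm]
    set α' : Q := α + (-(s ^ 2) : ℝ) • γ with hα'
    have e2 : α • f + β • sh X r f + γ • sh X r (sh X r f) = α' • f + β • sh X r f := by
      rw [e1, hα', add_smul]; abel
    rw [e2] at hy ⊢
    have hf3 : b f (sh X r (sh X r f)) = -(s ^ 2) := by
      rw [h1, map_smul, h2]; simp
    have ha := hy _ (mem r α').1
    rw [map_add, LinearMap.add_apply, cyc_nd_pair0 hb, h2, mul_one, cyc_nd_move hN,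
      cyc_nd_pair2 hb hN, h3, mul_zero, add_zero] at ha
    have hα := cyc_nd_zero α' ha
    rw [hα] at hy ⊢
    simp only [zero_smul, zero_add] at hy ⊢
    have hNN : SA b (sh X r ∘ₗ sh X r) := fun u v => by
      simp only [LinearMap.comp_apply]
      rw [hN, hN]
    have hp := cyc_nd_pair hb hNN f
    simp only [LinearMap.comp_apply] at hp
    have hb' := hy _ (mem r β).2.1
    rw [cyc_nd_move hN, hp, hf3] at hb'
    rw [cyc_nd_zero β ((mul_eq_zero.1 hb').resolve_right (neg_ne_zero.2 (pow_ne_zero 2 hs))),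
      zero_smul]
  | b2 e r =>
    obtain ⟨h1, h2, h3⟩ := h
    obtain ⟨α, β, γ, rfl⟩ := main r x hx
    have hN := cyc_nd_SA hX r
    have hsg : sg e ≠ 0 := by unfold sg; split_ifs <;> norm_num
    rw [h1] at hy ⊢
    simp only [smul_zero, add_zero] at hy ⊢
    have ha := hy _ (mem r α).2.1
    rw [map_add, LinearMap.add_apply, cyc_nd_pair hb hN, h2, cyc_nd_move hN, h1, smul_zero,
      map_zero, add_zero] at ha
    have hα := cyc_nd_zero α ((mul_eq_zero.1 ha).resolve_right hsg)
    subst hα
    simp only [zero_smul, zero_add] at hy ⊢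
    have hb' := hy _ (mem r β).1
    rw [cyc_nd_move hN, cyc_nd_pair hb hN, h2] at hb'
    rw [cyc_nd_zero β ((mul_eq_zero.1 hb').resolve_right hsg), zero_smul]
  | b3 r =>
    obtain ⟨h1, h2, h3, h4⟩ := h
    obtain ⟨α, β, γ, rfl⟩ := main r x hx
    have hN := cyc_nd_SA hX r
    have hNN : SA b (sh X r ∘ₗ sh X r) := fun u v => by
      simp only [LinearMap.comp_apply]
      rw [hN, hN]
    have ha := hy _ (mem r α).2.2
    have hp := cyc_nd_pair hb hNN f
    simp only [LinearMap.comp_apply] at hp
    rw [map_add, map_add, LinearMap.add_apply, LinearMap.add_apply, hp, h2, cyc_nd_move hN,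
      cyc_nd_move hN, h1, smul_zero, map_zero, map_zero, add_zero, add_zero, mul_one] at ha
    have hα := cyc_nd_zero α ha
    subst hα
    simp only [zero_smul, zero_add] at hy ⊢
    have hb' := hy _ (mem r β).2.1
    rw [map_add, LinearMap.add_apply, cyc_nd_move hN, hp, h2, cyc_nd_move hN, cyc_nd_move hN, h1,
      smul_zero, map_zero, add_zero, mul_one] at hb'
    have hβ := cyc_nd_zero β hb'
    subst hβ
    simp only [zero_smul, zero_add] at hy ⊢
    have hc := hy _ (mem r γ).1
    rw [cyc_nd_move hN, cyc_nd_move hN, hp, h2, mul_one] at hc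
    rw [cyc_nd_zero γ hc, zero_smul]
end

section
/-! Pairs of quaternionic hermitian forms.  A right quaternionic space is a module over `Q`, the
opposite of the quaternions.  A quaternionic hermitian form `h` is represented by its real part
`b x y = Re h x y`, a real bilinear symmetric form with `b (q • x) y = b x (star q • y)`.
Subspaces are `Submodule Q V`, dimension is `Module.finrank Q`. -/
open scoped Quaternion
variable {V : Type} [AddCommGroup V] [Module Q V] [Module ℝ V] [IsScalarTower ℝ Q V]


theorem piece_ne {b : BF V} {X : V →ₗ[Q] V} {P : Piece} {f : V}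
    (h : IsPiece b X P f) : f ≠ 0 := by
  rintro rfl
  have h0 : ∀ y, b (0 : V) y = 0 := fun y => by rw [map_zero]; rfl
  have hsg : ∀ e, sg e ≠ 0 := by
    intro e
    unfold sg
    split_ifs <;> norm_num
  cases P with
  | ray e x =>
    have h1 := h.1
    rw [h0] at h1
    exact hsg e h1.symm
  | cx r s =>
    have h1 := h.2.2.1
    rw [h0] at h1
    exact zero_ne_one h1
  | b2 e r =>
    have h1 := h.2.1
    rw [h0] at h1
    exact hsg e h1.symm
  | b3 r =>
    have h1 := h.2.1
    rw [h0] at h1
    exact zero_ne_one h1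
end

section
/-! Pairs of quaternionic hermitian forms.  A right quaternionic space is a module over `Q`, the
opposite of the quaternions.  A quaternionic hermitian form `h` is represented by its real part
`b x y = Re h x y`, a real bilinear symmetric form with `b (q • x) y = b x (star q • y)`.
Subspaces are `Submodule Q V`, dimension is `Module.finrank Q`. -/
open scoped Quaternion
variable {V : Type} [AddCommGroup V] [Module Q V] [Module ℝ V] [IsScalarTower ℝ Q V]


theorem nf_exists_aux [FiniteDimensional Q V] {b : BF V} (hb : IsF b)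
    {X : V →ₗ[Q] V} (hX : SA b X) (p q : ℝ) (n : ℕ) :
    ∀ W : Submodule Q V, Module.finrank Q W = n → Good b X p q W →
      ∃ l : List (Piece × V), IsNF b X l W := by
  induction n using Nat.strong_induction_on with
  | _ n ih =>
    intro W hn hW
    by_cases hne : W = ⊥
    · exact ⟨[], hne⟩
    · obtain ⟨P, f, hfW, hPf⟩ := piece_exists hb hX hW hne
      have hUW : cyc X f ≤ W := by
        unfold cyc
        rw [Submodule.span_le]
        intro x hx
        simp only [Set.mem_insert_iff, Set.mem_singleton_iff] at hx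
        rcases hx with rfl | rfl | rfl
        · exact hfW
        · exact hW.inv _ hfW
        · exact hW.inv _ (hW.inv _ hfW)
      have hfU : f ∈ cyc X f := Submodule.subset_span (by simp)
      obtain ⟨h1, h2⟩ := orth_compl_in hb (cyc X f) W hUW (cyc_nd hb hX hPf)
      have hgood : Good b X p q (W ⊓ orth b hb (cyc X f)) := by
        refine ⟨?_, ?_, ?_⟩
        · rintro w ⟨hw1, hw2⟩
          refine ⟨hW.inv w hw1, ?_⟩
          intro x hx
          rw [← hX x w]
          exact hw2 _ (cyc_inv hPf x hx)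
        · rintro x ⟨hx1, hx2⟩ hxy
          refine hW.nd x hx1 ?_
          intro y hy
          rw [← h2] at hy
          obtain ⟨u, hu, w', hw', rfl⟩ := Submodule.mem_sup.1 hy
          rw [map_add, hxy w' hw', hb.symm x u, hx2 u hu, add_zero]
        · rintro x ⟨hx1, _⟩
          exact hW.pos x hx1
      have hlt : W ⊓ orth b hb (cyc X f) < W := by
        refine lt_of_le_of_ne inf_le_left ?_
        intro heq
        rw [heq] at h1
        have : f ∈ cyc X f ⊓ W := ⟨hfU, hfW⟩
        rw [h1] at this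
        exact piece_ne hPf ((Submodule.mem_bot Q).1 this)
      obtain ⟨l, hl⟩ := ih _ (hn ▸ Submodule.finrank_lt_finrank_of_lt hlt) _ rfl hgood
      refine ⟨(P, f) :: l, hPf, W ⊓ orth b hb (cyc X f), hl, ?_, h2⟩
      intro u hu w hw
      exact hw.2 u hu

theorem nf_exists [FiniteDimensional Q V] {b : BF V} (hb : IsF b) (hnd : Nd b)
    {X : V →ₗ[Q] V} (hX : SA b X) (p q : ℝ)
    (hg : ∀ x, 0 ≤ (tt b X + p • tw b X + q • b) x x) :
    ∃ l : List (Piece × V), IsNF b X l ⊤ := by
  refine nf_exists_aux hb hX p q _ ⊤ rfl ⟨fun _ _ => trivial, ?_, ?_⟩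
  · intro x _ hx
    exact hnd x fun y => hx y trivial
  · intro x _
    have h := hg x
    simpa [tt, tw] using h

/-! ### indices on normal forms -/
end

end Pool.QN
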