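import Pool.Agent.Helper9.QN.Defs
import Pool.Agent.Helper9.QP.A1
import Pool.Agent.Helper9.QP.G1

set_option autoImplicit false
set_option maxHeartbeats 1000000

namespace Pool.QN

section
/-! Pairs of quaternionic hermitian forms.  A right quaternionic space is a module over `Q`, the
opposite of the quaternions.  A quaternionic hermitian form `h` is represented by its real part
`b x y = Re h x y`, a real bilinear symmetric form with `b (q • x) y = b x (star q • y)`.
Subspaces are `Submodule Q V`, dimension is `Module.finrank Q`. -/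
open scoped Quaternion
variable {V : Type} [AddCommGroup V] [Module Q V] [Module ℝ V] [IsScalarTower ℝ Q V]


theorem ray_aeval {X : V →ₗ[Q] V} {x : ℝ} {f : V} (hf : X f = x • f) (m : Polynomial ℝ) :
    (Polynomial.aeval (R := ℝ) (A := Module.End Q V) X m) f = m.eval x • f := by
  induction m using Polynomial.induction_on' with
  | add p q hp hq =>
    rw [map_add, LinearMap.add_apply, hp, hq, Polynomial.eval_add, add_smul]
  | monomial n a =>
    rw [Polynomial.aeval_monomial, Polynomial.eval_monomial]
    have h1 : ∀ k : ℕ, ((X : Module.End Q V) ^ k) f = x ^ k • f := by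
      intro k
      induction k with
      | zero => simp
      | succ k ih =>
        rw [pow_succ', Module.End.mul_apply, ih]
        have h2 : X (x ^ k • f) = x ^ k • X f := LinearMap.map_smul_of_tower X (x ^ k) f
        rw [h2, hf, smul_smul, pow_succ]
    rw [Module.End.mul_apply, h1, mul_smul]
    rfl

theorem idx_ray [FiniteDimensional Q V] {b : BF V} (hb : IsF b) {X : V →ₗ[Q] V} (hX : SA b X)
    (m : Polynomial ℝ) (e : Bool) (x : ℝ) (f : V) (h : IsPiece b X (Piece.ray e x) f) :
    nn (tw b (Polynomial.aeval (R := ℝ) (A := Module.End Q V) X m)) (cyc X f)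
      = idx m (Piece.ray e x) := by
  obtain ⟨hff, hsh⟩ := h
  have hXf : X f = x • f := by
    have h1 : X f - x • f = 0 := hsh
    exact sub_eq_zero.mp h1
  have hsg : sg e ≠ 0 := by
    unfold sg
    split_ifs <;> norm_num
  have hf0 : f ≠ 0 := by
    intro h0
    rw [h0, map_zero] at hff
    exact hsg hff.symm
  have hcyc : cyc X f = Submodule.span Q {f} := by
    unfold cyc
    apply le_antisymm
    · rw [Submodule.span_le]
      have hmem : f ∈ Submodule.span Q {f} := Submodule.mem_span_singleton_self f
      have hsm : ∀ (r : ℝ) (y : V), y ∈ Submodule.span Q {f} → r • y ∈ Submodule.span Q {f} :=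
        fun r y hy => Submodule.smul_of_tower_mem _ r hy
      intro y hy
      rcases hy with rfl | rfl | hy
      · exact hmem
      · rw [hXf]
        exact hsm x f hmem
      · have h2 : y = X (X f) := hy
        rw [h2, hXf, LinearMap.map_smul_of_tower X x f, hXf]
        exact hsm x _ (hsm x f hmem)
    · apply Submodule.span_mono
      intro y hy
      exact Or.inl hy
  have hrk : Module.finrank Q (cyc X f) = 1 := by
    rw [hcyc]
    exact finrank_span_singleton hf0
  have hform : ∀ y ∈ cyc X f, ∃ q : Q, y = q • f ∧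
      tw b (Polynomial.aeval (R := ℝ) (A := Module.End Q V) X m) y y
        = Quaternion.normSq q.unop * (sg e * m.eval x) := by
    intro y hy
    rw [hcyc, Submodule.mem_span_singleton] at hy
    obtain ⟨q, rfl⟩ := hy
    refine ⟨q, rfl, ?_⟩
    have h1 : tw b (Polynomial.aeval (R := ℝ) (A := Module.End Q V) X m) (q • f) (q • f)
        = b (q • f) ((Polynomial.aeval (R := ℝ) (A := Module.End Q V) X m) (q • f)) := rfl
    have h2 : (Polynomial.aeval (R := ℝ) (A := Module.End Q V) X m) (q • f)
        = q • (Polynomial.aeval (R := ℝ) (A := Module.End Q V) X m) f := LinearMap.map_smul _ q f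
    have h3 : q • (m.eval x • f) = m.eval x • (q • f) := smul_comm _ _ _
    have h4 : b (q • f) (m.eval x • (q • f)) = m.eval x * b (q • f) (q • f) := by
      rw [LinearMap.map_smul, smul_eq_mul]
    rw [h1, h2, ray_aeval hXf, h3, h4, (self_smul hb f q).2, hff]
    ring
  have hle : nn (tw b (Polynomial.aeval (R := ℝ) (A := Module.End Q V) X m)) (cyc X f) ≤ 1 := by
    obtain ⟨U, hU1, hU2, hU3⟩ :=
      exists_neg (tw b (Polynomial.aeval (R := ℝ) (A := Module.End Q V) X m)) (cyc X f)
    rw [← hU3, ← hrk]
    exact Submodule.finrank_mono hU1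
  show _ = (if sg e * m.eval x < 0 then 1 else 0)
  split_ifs with hneg
  · apply le_antisymm hle
    have h1 := le_nn (tw b (Polynomial.aeval (R := ℝ) (A := Module.End Q V) X m))
      (le_refl (cyc X f)) (by
        intro y hy hy0
        obtain ⟨q, hq, hval⟩ := hform y hy
        rw [hval]
        apply mul_neg_of_pos_of_neg _ hneg
        have hq0 : q.unop ≠ 0 := by
          intro h0
          apply hy0
          have h2 : q = 0 := MulOpposite.unop_injective h0
          rw [hq, h2, zero_smul]
        exact lt_of_le_of_ne Quaternion.normSq_nonneg (Ne.symm (Quaternion.normSq_ne_zero.mpr hq0)))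
    rw [hrk] at h1
    exact h1
  · have h1 := nn_add_le (tw b (Polynomial.aeval (R := ℝ) (A := Module.End Q V) X m))
      (le_refl (cyc X f)) (by
        intro y hy
        obtain ⟨q, hq, hval⟩ := hform y hy
        rw [hval]
        exact mul_nonneg Quaternion.normSq_nonneg (not_lt.mp hneg))
    rw [hrk] at h1
    omega
end

section
/-! Pairs of quaternionic hermitian forms.  A right quaternionic space is a module over `Q`, the
opposite of the quaternions.  A quaternionic hermitian form `h` is represented by its real part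
`b x y = Re h x y`, a real bilinear symmetric form with `b (q • x) y = b x (star q • y)`.
Subspaces are `Submodule Q V`, dimension is `Module.finrank Q`. -/
open scoped Quaternion
variable {V : Type} [AddCommGroup V] [Module Q V] [Module ℝ V] [IsScalarTower ℝ Q V]


theorem cx786_sh (X : V →ₗ[Q] V) (r : ℝ) (x : V) : sh X r x = X x - r • x := by
  simp [sh]

theorem cx786_step (X : V →ₗ[Q] V) (n : ℕ) (a : ℝ) :
    Polynomial.aeval (R := ℝ) (A := Module.End Q V) X (Polynomial.C a * Polynomial.X ^ (n + 1)) =
      Polynomial.aeval (R := ℝ) (A := Module.End Q V) X (Polynomial.C a * Polynomial.X ^ n) * X := by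
  rw [pow_succ, ← mul_assoc, map_mul, Polynomial.aeval_X]

theorem cx786_comm (X : V →ₗ[Q] V) (p : Polynomial ℝ) (y : V) :
    X (Polynomial.aeval (R := ℝ) (A := Module.End Q V) X p y) =
      Polynomial.aeval (R := ℝ) (A := Module.End Q V) X p (X y) := by
  have h : (X : Module.End Q V) * Polynomial.aeval (R := ℝ) (A := Module.End Q V) X p =
      Polynomial.aeval (R := ℝ) (A := Module.End Q V) X p * X := by
    have h1 : Polynomial.aeval (R := ℝ) (A := Module.End Q V) X (Polynomial.X * p) =
      Polynomial.aeval (R := ℝ) (A := Module.End Q V) X (p * Polynomial.X) := by rw [mul_comm]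
    rw [map_mul, map_mul, Polynomial.aeval_X] at h1
    exact h1
  exact LinearMap.congr_fun h y

theorem cx786_SA {b : BF V} {X : V →ₗ[Q] V} (hX : SA b X) (m : Polynomial ℝ) :
    SA b (Polynomial.aeval (R := ℝ) (A := Module.End Q V) X m) := by
  induction m using Polynomial.induction_on with
  | C a =>
    intro x y
    rw [Polynomial.aeval_C, Module.algebraMap_end_apply, Module.algebraMap_end_apply, map_smul,
      map_smul, LinearMap.smul_apply]
  | add p q hp hq =>
    intro x y
    rw [map_add, LinearMap.add_apply, LinearMap.add_apply, map_add, LinearMap.add_apply, map_add,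
      hp, hq]
  | monomial n a h =>
    intro x y
    rw [cx786_step, Module.End.mul_apply, Module.End.mul_apply, h, hX, cx786_comm]

theorem cx786_aeval (X : V →ₗ[Q] V) (r s : ℝ) (f g : V) (hf : X f = r • f + s • g)
    (hg : X g = r • g - s • f) (m : Polynomial ℝ) :
    (Polynomial.aeval (R := ℝ) (A := Module.End Q V) X m f =
      (cval m r s).re • f + (cval m r s).im • g) ∧
    (Polynomial.aeval (R := ℝ) (A := Module.End Q V) X m g =
      (cval m r s).re • g - (cval m r s).im • f) := by
  induction m using Polynomial.induction_on with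
  | C a =>
    have h1 : cval (Polynomial.C a) r s = (a : ℂ) := by
      unfold cval
      rw [Polynomial.aeval_C]
      rfl
    rw [Polynomial.aeval_C, Module.algebraMap_end_apply, Module.algebraMap_end_apply, h1,
      Complex.ofReal_re, Complex.ofReal_im, zero_smul, zero_smul, add_zero, sub_zero]
    exact ⟨rfl, rfl⟩
  | add p q hp hq =>
    have h1 : cval (p + q) r s = cval p r s + cval q r s := by
      unfold cval
      rw [map_add]
    rw [map_add, LinearMap.add_apply, LinearMap.add_apply, hp.1, hp.2, hq.1, hq.2, h1,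
      Complex.add_re, Complex.add_im]
    constructor <;> module
  | monomial n a h =>
    have h1 : cval (Polynomial.C a * Polynomial.X ^ (n + 1)) r s =
        cval (Polynomial.C a * Polynomial.X ^ n) r s * ((r : ℂ) + (s : ℂ) * Complex.I) := by
      unfold cval
      rw [pow_succ, ← mul_assoc, map_mul, Polynomial.aeval_X]
    have h2 : ((r : ℂ) + (s : ℂ) * Complex.I).re = r := by simp
    have h3 : ((r : ℂ) + (s : ℂ) * Complex.I).im = s := by simp
    rw [cx786_step, Module.End.mul_apply, Module.End.mul_apply, hf, hg, map_add, map_sub,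
      LinearMap.map_smul_of_tower, LinearMap.map_smul_of_tower, LinearMap.map_smul_of_tower,
      LinearMap.map_smul_of_tower, h.1, h.2, h1, Complex.mul_re, Complex.mul_im, h2, h3]
    constructor <;> module

theorem cx786_neg [FiniteDimensional Q V] {T : BF V} (hT : IsF T) {W : Submodule Q V} {u : V}
    (hu : u ∈ W) (hneg : T u u < 0) : 1 ≤ nn T W := by
  have hu0 : u ≠ 0 := by
    intro h0
    rw [h0] at hneg
    simp at hneg
  have h1 := finrank_span_singleton (K := Q) hu0
  rw [← h1]
  apply le_nn
  · rw [Submodule.span_le]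
    intro x hx
    rw [Set.mem_singleton_iff] at hx
    rw [hx]
    exact hu
  · intro x hx hx0
    obtain ⟨q, rfl⟩ := Submodule.mem_span_singleton.1 hx
    rw [(self_smul hT u q).2]
    have hq : q.unop ≠ 0 := by
      intro h0
      apply hx0
      have : q = 0 := by
        rw [← MulOpposite.op_unop q, h0, MulOpposite.op_zero]
      rw [this, zero_smul]
    have h2 : 0 < Quaternion.normSq q.unop :=
      lt_of_le_of_ne Quaternion.normSq_nonneg (Ne.symm (Quaternion.normSq_ne_zero.2 hq))
    exact mul_neg_of_pos_of_neg h2 hneg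

theorem cx786_pos [FiniteDimensional Q V] {T : BF V} (hT : IsF T) {W : Submodule Q V} {u : V}
    (hu : u ∈ W) (hpos : 0 < T u u) : nn T W + 1 ≤ Module.finrank Q W := by
  have hu0 : u ≠ 0 := by
    intro h0
    rw [h0] at hpos
    simp at hpos
  have h1 := finrank_span_singleton (K := Q) hu0
  rw [← h1]
  apply nn_add_le
  · rw [Submodule.span_le]
    intro x hx
    rw [Set.mem_singleton_iff] at hx
    rw [hx]
    exact hu
  · intro x hx
    obtain ⟨q, rfl⟩ := Submodule.mem_span_singleton.1 hx
    rw [(self_smul hT u q).2]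
    exact mul_nonneg Quaternion.normSq_nonneg hpos.le

theorem idx_cx [FiniteDimensional Q V] {b : BF V} (hb : IsF b) {X : V →ₗ[Q] V} (hX : SA b X)
    (m : Polynomial ℝ) (r s : ℝ) (f : V) (h : IsPiece b X (Piece.cx r s) f) :
    nn (tw b (Polynomial.aeval (R := ℝ) (A := Module.End Q V) X m)) (cyc X f)
      = idx m (Piece.cx r s) := by
  obtain ⟨hs, hNN, hff, hfN⟩ := h
  rw [cx786_sh] at hfN
  have hNN' : X (X f) = (2 * r) • X f - (r ^ 2 + s ^ 2) • f := by
    rw [cx786_sh, cx786_sh, map_sub, LinearMap.map_smul_of_tower] at hNN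
    have : X (X f) = -s ^ 2 • f + r • X f + r • (X f - r • f) := by
      rw [← hNN]
      abel
    rw [this]
    module
  obtain ⟨g, hg⟩ : ∃ g : V, g = s⁻¹ • (X f - r • f) := ⟨_, rfl⟩
  have hXf : X f = r • f + s • g := by
    rw [hg, smul_smul, mul_inv_cancel₀ hs, one_smul]
    abel
  have hXg : X g = r • g - s • f := by
    rw [hg, LinearMap.map_smul_of_tower, map_sub, LinearMap.map_smul_of_tower, hNN']
    have e1 : s • f = s⁻¹ • (s ^ 2 • f) := by
      rw [smul_smul]
      congr 1
      field_simp
    rw [e1]
    module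
  have hfXf : b f (X f) = r := by
    rw [map_sub, map_smul, hff, smul_eq_mul, mul_one] at hfN
    linarith
  have hbfg : b f g = 0 := by
    rw [hg, map_smul, map_sub, map_smul, hfXf, hff]
    simp
  have hbgf : b g f = 0 := by rw [hb.symm, hbfg]
  have hbgg : b g g = -1 := by
    -- b (X f) g = b f (X g)
    have e1 := hX f g
    rw [hXf, hXg, map_add, LinearMap.add_apply, map_smul, map_smul, LinearMap.smul_apply,
      LinearMap.smul_apply, map_sub, map_smul, map_smul, hbfg, hff] at e1
    simp only [smul_eq_mul, mul_zero, zero_add, mul_one, zero_sub] at e1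
    have e2 : s * (b g g + 1) = 0 := by linarith
    have e3 := (mul_eq_zero.1 e2).resolve_left hs
    linarith
  obtain ⟨hYf, hYg⟩ := cx786_aeval X r s f g hXf hXg m
  set Y : V →ₗ[Q] V := Polynomial.aeval (R := ℝ) (A := Module.End Q V) X m with hY
  have hSA : SA b Y := cx786_SA hX m
  have hT : IsF (tw b Y) := isF_tw hb hSA
  have hTapp : ∀ x y, tw b Y x y = b x (Y y) := fun x y => rfl
  have hfm : f ∈ cyc X f := Submodule.subset_span (by simp)
  have hXfm : X f ∈ cyc X f := Submodule.subset_span (by simp)
  have hgm : g ∈ cyc X f := by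
    rw [hg]
    exact Submodule.smul_of_tower_mem _ _
      (Submodule.sub_mem _ hXfm (Submodule.smul_of_tower_mem _ _ hfm))
  have hcyc : cyc X f = Submodule.span Q {f} ⊔ Submodule.span Q {g} := by
    apply le_antisymm
    · unfold cyc
      rw [Submodule.span_le]
      have hf' : f ∈ Submodule.span Q {f} ⊔ Submodule.span Q {g} :=
        Submodule.mem_sup_left (Submodule.mem_span_singleton_self f)
      have hg' : g ∈ Submodule.span Q {f} ⊔ Submodule.span Q {g} :=
        Submodule.mem_sup_right (Submodule.mem_span_singleton_self g)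
      have hXf' : X f ∈ Submodule.span Q {f} ⊔ Submodule.span Q {g} := by
        rw [hXf]
        exact Submodule.add_mem _ (Submodule.smul_of_tower_mem _ _ hf')
          (Submodule.smul_of_tower_mem _ _ hg')
      intro x hx
      rcases hx with rfl | rfl | hx
      · exact hf'
      · exact hXf'
      · rw [Set.mem_singleton_iff] at hx
        rw [hx, hNN']
        exact Submodule.sub_mem _ (Submodule.smul_of_tower_mem _ _ hXf')
          (Submodule.smul_of_tower_mem _ _ hf')
    · rw [sup_le_iff, Submodule.span_le, Submodule.span_le]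
      constructor
      · intro x hx
        rw [Set.mem_singleton_iff] at hx
        rw [hx]
        exact hfm
      · intro x hx
        rw [Set.mem_singleton_iff] at hx
        rw [hx]
        exact hgm
  by_cases hc : cval m r s = 0
  · have hidx : idx m (Piece.cx r s) = 0 := by
      show (if cval m r s = 0 then 0 else 1) = 0
      rw [if_pos hc]
    rw [hidx]
    rw [hc, Complex.zero_re, Complex.zero_im, zero_smul, zero_smul] at hYf hYg
    rw [add_zero] at hYf
    rw [sub_zero] at hYg
    obtain ⟨U, hU, hneg, hfin⟩ := exists_neg (tw b Y) (cyc X f)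
    rw [← hfin]
    have hU0 : U = ⊥ := by
      rw [Submodule.eq_bot_iff]
      intro x hx
      by_contra hx0
      have h1 := hneg x hx hx0
      have h2 : Y x = 0 := by
        have h3 := hU hx
        rw [hcyc] at h3
        obtain ⟨y, hy, z, hz, rfl⟩ := Submodule.mem_sup.1 h3
        obtain ⟨p, rfl⟩ := Submodule.mem_span_singleton.1 hy
        obtain ⟨q, rfl⟩ := Submodule.mem_span_singleton.1 hz
        rw [map_add, map_smul, map_smul, hYf, hYg, smul_zero, smul_zero, add_zero]
      rw [hTapp, h2, map_zero] at h1
      exact lt_irrefl _ h1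
    rw [hU0, finrank_bot]
  · have hidx : idx m (Piece.cx r s) = 1 := by
      show (if cval m r s = 0 then 0 else 1) = 1
      rw [if_neg hc]
    rw [hidx]
    generalize hA : (cval m r s).re = A at hYf hYg
    generalize hC : (cval m r s).im = C at hYf hYg
    have hval : ∀ α β : ℝ, tw b Y (α • f + β • g) (α • f + β • g) =
        A * (α ^ 2 - β ^ 2) - 2 * C * (α * β) := by
      intro α β
      rw [hTapp]
      have e1 : Y (α • f + β • g) = (α * A - β * C) • f + (α * C + β * A) • g := by
        rw [map_add, LinearMap.map_smul_of_tower, LinearMap.map_smul_of_tower, hYf, hYg]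
        module
      rw [e1]
      simp only [map_add, map_smul, LinearMap.add_apply, LinearMap.smul_apply, smul_eq_mul, hff,
        hbfg, hbgf, hbgg]
      ring
    have hmem : ∀ α β : ℝ, α • f + β • g ∈ cyc X f := fun α β =>
      Submodule.add_mem _ (Submodule.smul_of_tower_mem _ _ hfm)
        (Submodule.smul_of_tower_mem _ _ hgm)
    have hne : A ≠ 0 ∨ C ≠ 0 := by
      by_contra hcon
      push Not at hcon
      apply hc
      apply Complex.ext
      · rw [hA, hcon.1]
        rfl
      · rw [hC, hcon.2]
        rfl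
    obtain ⟨α, β, hn⟩ : ∃ α β : ℝ, A * (α ^ 2 - β ^ 2) - 2 * C * (α * β) < 0 := by
      rcases lt_trichotomy A 0 with hA0 | hA0 | hA0
      · exact ⟨1, 0, by nlinarith⟩
      · have hC0 : C ≠ 0 := by
          rcases hne with h | h
          · exact absurd hA0 h
          · exact h
        refine ⟨1, C, ?_⟩
        have : 0 < C ^ 2 := by positivity
        rw [hA0]
        nlinarith
      · exact ⟨0, 1, by nlinarith⟩
    obtain ⟨α', β', hp⟩ : ∃ α β : ℝ, 0 < A * (α ^ 2 - β ^ 2) - 2 * C * (α * β) := by
      rcases lt_trichotomy A 0 with hA0 | hA0 | hA0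
      · exact ⟨0, 1, by nlinarith⟩
      · have hC0 : C ≠ 0 := by
          rcases hne with h | h
          · exact absurd hA0 h
          · exact h
        refine ⟨1, -C, ?_⟩
        have : 0 < C ^ 2 := by positivity
        rw [hA0]
        nlinarith
      · exact ⟨1, 0, by nlinarith⟩
    have h1 : 1 ≤ nn (tw b Y) (cyc X f) :=
      cx786_neg hT (hmem α β) (by rw [hval]; exact hn)
    have h2 : nn (tw b Y) (cyc X f) + 1 ≤ Module.finrank Q (cyc X f) :=
      cx786_pos hT (hmem α' β') (by rw [hval]; exact hp)
    have hf0 : f ≠ 0 := by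
      intro h0
      rw [h0] at hff
      simp at hff
    have hg0 : g ≠ 0 := by
      intro h0
      rw [h0] at hbgg
      simp at hbgg
    have h3 : Module.finrank Q (cyc X f) ≤ 2 := by
      rw [hcyc]
      have e1 := Submodule.finrank_add_le_finrank_add_finrank (Submodule.span Q {f})
        (Submodule.span Q {g})
      rw [finrank_span_singleton hf0, finrank_span_singleton hg0] at e1
      exact e1
    omega
end

section
/-! Pairs of quaternionic hermitian forms.  A right quaternionic space is a module over `Q`, the
opposite of the quaternions.  A quaternionic hermitian form `h` is represented by its real part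
`b x y = Re h x y`, a real bilinear symmetric form with `b (q • x) y = b x (star q • y)`.
Subspaces are `Submodule Q V`, dimension is `Module.finrank Q`. -/
open scoped Quaternion
variable {V : Type} [AddCommGroup V] [Module Q V] [Module ℝ V] [IsScalarTower ℝ Q V]


theorem b2_sa {b : BF V} {X : V →ₗ[Q] V} (hX : SA b X) (m : Polynomial ℝ) :
    SA b (Polynomial.aeval (R := ℝ) (A := Module.End Q V) X m) := by
  have hcomm : ∀ m : Polynomial ℝ, ∀ x : V,
      Polynomial.aeval (R := ℝ) (A := Module.End Q V) X (m * Polynomial.X) x =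
        Polynomial.aeval (R := ℝ) (A := Module.End Q V) X m (X x) := by
    intro m x
    rw [map_mul, Polynomial.aeval_X, Module.End.mul_apply]
  have hcomm2 : ∀ m : Polynomial ℝ, ∀ x : V,
      Polynomial.aeval (R := ℝ) (A := Module.End Q V) X (m * Polynomial.X) x =
        X (Polynomial.aeval (R := ℝ) (A := Module.End Q V) X m x) := by
    intro m x
    rw [mul_comm, map_mul, Polynomial.aeval_X, Module.End.mul_apply]
  induction m using Polynomial.induction_on with
  | C a =>
    intro x y
    rw [Polynomial.aeval_C, Module.algebraMap_end_apply, Module.algebraMap_end_apply]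
    rw [map_smul, map_smul, LinearMap.smul_apply]
  | add p q hp hq =>
    intro x y
    rw [map_add, LinearMap.add_apply, LinearMap.add_apply, map_add, map_add, LinearMap.add_apply,
      hp x y, hq x y]
  | monomial n a ih =>
    intro x y
    rw [pow_succ, ← mul_assoc, hcomm, hcomm2, ih, hX]

theorem b2_act {X : V →ₗ[Q] V} (m : Polynomial ℝ) (r : ℝ) (f : V)
    (h : sh X r (sh X r f) = 0) :
    Polynomial.aeval (R := ℝ) (A := Module.End Q V) X m (sh X r f) = m.eval r • sh X r f ∧
    Polynomial.aeval (R := ℝ) (A := Module.End Q V) X m f =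
      m.eval r • f + m.derivative.eval r • sh X r f := by
  have hcomm : ∀ m : Polynomial ℝ, ∀ x : V,
      Polynomial.aeval (R := ℝ) (A := Module.End Q V) X (m * Polynomial.X) x =
        Polynomial.aeval (R := ℝ) (A := Module.End Q V) X m (X x) := by
    intro m x
    rw [map_mul, Polynomial.aeval_X, Module.End.mul_apply]
  have hXx : ∀ x : V, X x = sh X r x + r • x := by
    intro x
    simp [sh]
  have hX1 : X (sh X r f) = r • sh X r f := by
    rw [hXx, h, zero_add]
  have hsm : ∀ (M : Module.End Q V) (a : ℝ) (x : V), M (a • x) = a • M x := by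
    intro M a x
    exact LinearMap.map_smul_of_tower M a x
  induction m using Polynomial.induction_on with
  | C a =>
    rw [Polynomial.aeval_C, Module.algebraMap_end_apply, Module.algebraMap_end_apply]
    simp
  | add p q hp hq =>
    rw [map_add, LinearMap.add_apply, LinearMap.add_apply, hp.1, hq.1, hp.2, hq.2]
    simp only [Polynomial.eval_add, Polynomial.derivative_add, add_smul]
    refine ⟨trivial, ?_⟩
    abel
  | monomial n a ih =>
    rw [pow_succ, ← mul_assoc, hcomm, hcomm, hX1, hXx f, hsm, map_add, hsm, ih.1, ih.2]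
    simp only [Polynomial.eval_mul, Polynomial.derivative_mul, Polynomial.eval_X,
      Polynomial.derivative_X, mul_one, Polynomial.eval_add, smul_add, smul_smul, add_smul]
    refine ⟨?_, ?_⟩
    · rw [mul_comm]
    · module

theorem b2_cyc {X : V →ₗ[Q] V} (r : ℝ) (f : V) (h : sh X r (sh X r f) = 0) :
    cyc X f = Submodule.span Q {f, sh X r f} := by
  have hXx : ∀ x : V, X x = sh X r x + r • x := by
    intro x
    simp [sh]
  have hrq : ∀ (a : ℝ) (x : V), a • x = (algebraMap ℝ Q a) • x := by
    intro a x
    rw [algebraMap_smul]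
  have hf : f ∈ Submodule.span Q {f, sh X r f} := Submodule.subset_span (by simp)
  have hN : sh X r f ∈ Submodule.span Q {f, sh X r f} := Submodule.subset_span (by simp)
  have hsm : ∀ (U : Submodule Q V) (a : ℝ) (x : V), x ∈ U → a • x ∈ U := by
    intro U a x hx
    rw [hrq]
    exact U.smul_mem _ hx
  apply le_antisymm
  · rw [cyc, Submodule.span_le]
    intro x hx
    simp only [Set.mem_insert_iff, Set.mem_singleton_iff] at hx
    rcases hx with rfl | rfl | rfl
    · exact hf
    · rw [hXx]
      exact Submodule.add_mem _ hN (hsm _ _ _ hf)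
    · have hX1 : X (sh X r f) = r • sh X r f := by
        rw [hXx, h, zero_add]
      have : X (X f) = r • sh X r f + r • X f := by
        conv_lhs => rw [hXx f, map_add, hX1, LinearMap.map_smul_of_tower]
      rw [this, hXx f]
      exact Submodule.add_mem _ (hsm _ _ _ hN)
        (hsm _ _ _ (Submodule.add_mem _ hN (hsm _ _ _ hf)))
  · rw [Submodule.span_le]
    have hf' : f ∈ cyc X f := Submodule.subset_span (by simp)
    have hXf : X f ∈ cyc X f := Submodule.subset_span (by simp)
    intro x hx
    simp only [Set.mem_insert_iff, Set.mem_singleton_iff] at hx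
    rcases hx with rfl | rfl
    · exact hf'
    · have : sh X r f = X f - r • f := by simp [sh]
      rw [this]
      exact Submodule.sub_mem _ hXf (hsm _ _ _ hf')

theorem idx_b2 [FiniteDimensional Q V] {b : BF V} (hb : IsF b) {X : V →ₗ[Q] V} (hX : SA b X)
    (m : Polynomial ℝ) (e : Bool) (r : ℝ) (f : V) (h : IsPiece b X (Piece.b2 e r) f) :
    nn (tw b (Polynomial.aeval (R := ℝ) (A := Module.End Q V) X m)) (cyc X f)
      = idx m (Piece.b2 e r) := by
  obtain ⟨h1, h2, h3⟩ := h
  obtain ⟨a1, a2⟩ := b2_act m r f h1
  have hSM := b2_sa hX m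
  have hcy := b2_cyc r f h1
  set M : Module.End Q V := Polynomial.aeval (R := ℝ) (A := Module.End Q V) X m with hM
  have hSN : SA b (sh X r) := by
    intro x y
    simp only [sh, LinearMap.sub_apply, LinearMap.smul_apply, LinearMap.id_apply, map_sub,
      map_smul]
    rw [hX x y]
  set g : V := sh X r f with hgdef
  have hc : IsF (tw b M) := isF_tw hb hSM
  have htw : ∀ x y, tw b M x y = b x (M y) := by
    intro x y
    rfl
  have hs2 : sg e * sg e = 1 := by
    cases e <;> norm_num [sg]
  have hs0 : sg e ≠ 0 := by
    intro h0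
    rw [h0] at hs2
    norm_num at hs2
  have hgg : b g g = 0 := by
    have := hSN f g
    rw [h1, map_zero] at this
    exact this
  have cff : tw b M f f = m.derivative.eval r * sg e := by
    rw [htw, a2, map_add, map_smul, map_smul, h2, h3]
    simp
  have cfg : tw b M f g = m.eval r * sg e := by
    rw [htw, a1, map_smul, h2]
    simp
  have cgg : tw b M g g = 0 := by
    rw [htw, a1, map_smul, hgg]
    simp
  have hg0 : g ≠ 0 := by
    intro h0
    rw [h0, map_zero] at h2
    exact hs0 h2.symm
  have hf0 : f ≠ 0 := by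
    intro h0
    apply hg0
    rw [hgdef, h0, map_zero]
  have hdim : Module.finrank Q (cyc X f) ≤ 2 := by
    rw [hcy]
    classical
    have : ({f, g} : Set V) = (({f, g} : Finset V) : Set V) := by simp
    rw [this]
    exact (finrank_span_finset_le_card _).trans Finset.card_le_two
  have hup : nn (tw b M) (cyc X f) ≤ 1 := by
    have hP : Submodule.span Q {g} ≤ cyc X f := by
      rw [hcy]
      apply Submodule.span_mono
      simp
    have hN : NonnegOn (tw b M) (Submodule.span Q {g}) := by
      intro x hx
      obtain ⟨q, rfl⟩ := Submodule.mem_span_singleton.1 hx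
      rw [(self_smul hc g q).2, cgg, mul_zero]
    have h4 := nn_add_le (tw b M) hP hN
    rw [finrank_span_singleton hg0] at h4
    omega
  have hlow : ∀ x ∈ cyc X f, tw b M x x < 0 → 1 ≤ nn (tw b M) (cyc X f) := by
    intro x hx hneg
    have hx0 : x ≠ 0 := by
      intro h0
      rw [h0, map_zero] at hneg
      simp at hneg
    have hU : Submodule.span Q {x} ≤ cyc X f := by
      rw [Submodule.span_singleton_le_iff_mem]
      exact hx
    have hN : NegOn (tw b M) (Submodule.span Q {x}) := by
      intro y hy hy0
      obtain ⟨q, rfl⟩ := Submodule.mem_span_singleton.1 hy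
      rw [(self_smul hc x q).2]
      have hq : q.unop ≠ 0 := by
        intro hq
        apply hy0
        have : q = 0 := MulOpposite.unop_injective hq
        rw [this, zero_smul]
      have : 0 < Quaternion.normSq q.unop := by
        rcases lt_or_eq_of_le (Quaternion.normSq_nonneg (a := q.unop)) with h | h
        · exact h
        · exact absurd (Quaternion.normSq_eq_zero.1 h.symm) hq
      exact mul_neg_of_pos_of_neg this hneg
    have h4 := le_nn (tw b M) hU hN
    rw [finrank_span_singleton hx0] at h4
    exact h4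
  have hfm : f ∈ cyc X f := Submodule.subset_span (by simp)
  have hgm : g ∈ cyc X f := by
    rw [hcy]
    exact Submodule.subset_span (by simp)
  have hrq : ∀ (a : ℝ) (x : V), a • x = (algebraMap ℝ Q a) • x := by
    intro a x
    rw [algebraMap_smul]
  simp only [idx]
  by_cases hm : m.eval r = 0
  · rw [if_pos hm]
    by_cases hd : sg e * m.derivative.eval r < 0
    · rw [if_pos hd]
      apply le_antisymm hup
      apply hlow f hfm
      rw [cff, mul_comm]
      exact hd
    · rw [if_neg hd]
      have hN : NonnegOn (tw b M) (cyc X f) := by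
        intro x hx
        rw [hcy, Submodule.mem_span_pair] at hx
        obtain ⟨p, q, rfl⟩ := hx
        have hz : ∀ y, tw b M y (q • g) = 0 := by
          intro y
          rw [htw, map_smul, a1, hm, zero_smul, smul_zero, map_zero]
        have hz2 : ∀ y, tw b M (q • g) y = 0 := by
          intro y
          rw [hc.symm, hz]
        rw [map_add, hz, add_zero, map_add, LinearMap.add_apply, hz2, add_zero,
          (self_smul hc f p).2, cff]
        have : 0 ≤ sg e * m.derivative.eval r := not_lt.1 hd
        have h5 : 0 ≤ Quaternion.normSq p.unop := Quaternion.normSq_nonneg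
        nlinarith [mul_nonneg h5 this]
      have h4 := nn_add_le (tw b M) (le_refl (cyc X f)) hN
      omega
  · rw [if_neg hm]
    apply le_antisymm hup
    apply hlow (f + ((-sg e - m.derivative.eval r) / (2 * m.eval r)) • g)
    · rw [hrq]
      exact Submodule.add_mem _ hfm (Submodule.smul_mem _ _ hgm)
    · have cgf : tw b M g f = m.eval r * sg e := by
        rw [hc.symm, cfg]
      simp only [map_add, map_smul, LinearMap.add_apply, LinearMap.smul_apply, cff, cfg, cgg, cgf,
        smul_eq_mul, mul_zero, add_zero]
      have : m.derivative.eval r * sg e +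
          (-sg e - m.derivative.eval r) / (2 * m.eval r) * (m.eval r * sg e) +
          (-sg e - m.derivative.eval r) / (2 * m.eval r) * (m.eval r * sg e) = -(sg e * sg e) := by
        field_simp
        ring
      linarith
end

section
/-! Pairs of quaternionic hermitian forms.  A right quaternionic space is a module over `Q`, the
opposite of the quaternions.  A quaternionic hermitian form `h` is represented by its real part
`b x y = Re h x y`, a real bilinear symmetric form with `b (q • x) y = b x (star q • y)`.
Subspaces are `Submodule Q V`, dimension is `Module.finrank Q`. -/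
open scoped Quaternion
variable {V : Type} [AddCommGroup V] [Module Q V] [Module ℝ V] [IsScalarTower ℝ Q V]


theorem ib3_sh (X : V →ₗ[Q] V) (r : ℝ) (x : V) : sh X r x = X x - r • x := by
  simp [sh]

theorem ib3_SA_sh {b : BF V} {X : V →ₗ[Q] V} (hX : SA b X) (r : ℝ) : SA b (sh X r) := by
  intro x y
  rw [ib3_sh, ib3_sh, map_sub, map_sub, LinearMap.sub_apply, hX, map_smul, map_smul,
    LinearMap.smul_apply]

theorem ib3_SA_pow {b : BF V} {N : V →ₗ[Q] V} (hN : SA b N) (k : ℕ) :
    SA b ((N : Module.End Q V) ^ k) := by
  induction k with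
  | zero => intro x y; simp
  | succ k ih =>
    intro x y
    have h1 : ((N : Module.End Q V) ^ (k + 1)) x = ((N : Module.End Q V) ^ k) (N x) := by
      rw [pow_succ]; rfl
    have h2 : ((N : Module.End Q V) ^ (k + 1)) y = N (((N : Module.End Q V) ^ k) y) := by
      rw [pow_succ']; rfl
    rw [h1, h2, ih, hN]

theorem ib3_D {b : BF V} (hb : IsF b) {N : V →ₗ[Q] V} (hN : SA b N) (f : V) (i j : ℕ) (q : Q) :
    b (((N : Module.End Q V) ^ i) f) (q • ((N : Module.End Q V) ^ j) f) =
      q.unop.re * b f (((N : Module.End Q V) ^ (i + j)) f) := by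
  have h1 := (self_smul (isF_tw hb (ib3_SA_pow hN (i + j))) f q).1
  have h2 : (tw b ((N : Module.End Q V) ^ (i + j))) f (q • f) =
      b f (((N : Module.End Q V) ^ (i + j)) (q • f)) := rfl
  have h3 : (tw b ((N : Module.End Q V) ^ (i + j))) f f =
      b f (((N : Module.End Q V) ^ (i + j)) f) := rfl
  rw [h2, h3] at h1
  have e1 : ((N : Module.End Q V) ^ (i + j)) (q • f) =
      ((N : Module.End Q V) ^ i) (q • ((N : Module.End Q V) ^ j) f) := by
    rw [pow_add, Module.End.mul_apply, LinearMap.map_smul ((N : Module.End Q V) ^ j)]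
  rw [← h1, ib3_SA_pow hN i, e1]

theorem ib3_step (N : Module.End Q V) (p : Polynomial ℝ) (x : V) :
    (Polynomial.aeval (R := ℝ) (A := Module.End Q V) N p) x =
      p.coeff 0 • x + (Polynomial.aeval (R := ℝ) (A := Module.End Q V) N p.divX) (N x) := by
  conv_lhs => rw [← Polynomial.divX_mul_X_add p]
  rw [map_add, map_mul, Polynomial.aeval_X, Polynomial.aeval_C, LinearMap.add_apply,
    Module.algebraMap_end_apply, add_comm]
  rfl

theorem ib3_aevalN (N : Module.End Q V) (p : Polynomial ℝ) (x : V) (h3 : N (N (N x)) = 0) :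
    (Polynomial.aeval (R := ℝ) (A := Module.End Q V) N p) x =
      p.coeff 0 • x + p.coeff 1 • N x + p.coeff 2 • N (N x) := by
  rw [ib3_step, ib3_step, ib3_step, h3, map_zero, Polynomial.coeff_divX, Polynomial.coeff_divX,
    Polynomial.coeff_divX]
  abel

theorem ib3_aevalX (X : V →ₗ[Q] V) (r : ℝ) (m : Polynomial ℝ) :
    Polynomial.aeval (R := ℝ) (A := Module.End Q V) X m =
      Polynomial.aeval (R := ℝ) (A := Module.End Q V) (sh X r) (Polynomial.taylor r m) := by
  rw [Polynomial.taylor_apply, Polynomial.aeval_comp]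
  congr 1
  rw [map_add, Polynomial.aeval_X, Polynomial.aeval_C]
  have : (Polynomial.aeval (R := ℝ) (A := Module.End Q V) X) =
    Polynomial.aeval (R := ℝ) (A := Module.End Q V)
      (sh X r + algebraMap ℝ (Module.End Q V) r) := by
    congr 1
    ext x
    rw [LinearMap.add_apply, ib3_sh, Module.algebraMap_end_apply, sub_add_cancel]
  rw [this]

theorem ib3_SA_aeval {b : BF V} {X : V →ₗ[Q] V} (hX : SA b X) (m : Polynomial ℝ) :
    SA b (Polynomial.aeval (R := ℝ) (A := Module.End Q V) X m) := by
  induction m using Polynomial.induction_on' with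
  | add p q hp hq =>
    intro x y
    rw [map_add, LinearMap.add_apply, LinearMap.add_apply, map_add, map_add, LinearMap.add_apply,
      hp, hq]
  | monomial n a =>
    intro x y
    rw [Polynomial.aeval_monomial, Module.End.mul_apply, Module.End.mul_apply,
      Module.algebraMap_end_apply, Module.algebraMap_end_apply, map_smul, map_smul,
      LinearMap.smul_apply, ib3_SA_pow hX n]

/-- diagonal lemma -/
theorem ib3_diag [FiniteDimensional Q V] {c : BF V} (hc : IsF c) (v : Fin 3 → V) (d : Fin 3 → ℝ)
    (H : ∀ i j (q : Q), c (v i) (q • v j) = if i = j then q.unop.re * d i else 0)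
    (hli : LinearIndependent Q v) (W : Submodule Q V) (hW : ∀ i, v i ∈ W)
    (hWd : Module.finrank Q W ≤ 3) :
    nn c W = (Finset.univ.filter (fun i => d i < 0)).card := by
  classical
  have hfr : ∀ S : Finset (Fin 3),
      Module.finrank Q (Submodule.span Q (v '' (S : Set (Fin 3)))) = S.card := by
    intro S
    have h1 : LinearIndependent Q (fun i : S => v i) := hli.comp _ Subtype.val_injective
    have h2 := finrank_span_eq_card h1
    have h3 : Set.range (fun i : S => v i) = v '' (S : Set (Fin 3)) := by
      ext x; simp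
    rw [h3, Fintype.card_coe] at h2
    exact h2
  have hle : ∀ S : Finset (Fin 3), Submodule.span Q (v '' (S : Set (Fin 3))) ≤ W := by
    intro S
    rw [Submodule.span_le]
    rintro _ ⟨i, _, rfl⟩
    exact hW i
  have hform : ∀ (S : Finset (Fin 3)) (g : Fin 3 → Q),
      c (∑ i ∈ S, g i • v i) (∑ i ∈ S, g i • v i) =
        ∑ i ∈ S, Quaternion.normSq (g i).unop * d i := by
    intro S g
    rw [LinearMap.map_sum₂]
    refine Finset.sum_congr rfl fun i hi => ?_
    rw [map_sum]
    have h1 : ∀ j ∈ S, c (g i • v i) (g j • v j) =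
        if i = j then Quaternion.normSq (g i).unop * d i else 0 := by
      intro j _
      rw [hc.adj, smul_smul, H]
      split_ifs with hij
      · subst hij
        rw [MulOpposite.unop_mul, MulOpposite.unop_star, Quaternion.self_mul_star,
          Quaternion.re_coe]
      · rfl
    rw [Finset.sum_congr rfl h1, Finset.sum_ite_eq, if_pos hi]
  have hneg : NegOn c (Submodule.span Q
      (v '' ((Finset.univ.filter (fun i => d i < 0) : Finset (Fin 3)) : Set (Fin 3)))) := by
    intro x hx hx0
    rw [Submodule.mem_span_image_finset_iff_exists_fun'] at hx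
    obtain ⟨g, rfl⟩ := hx
    rw [hform]
    have hex : ∃ i ∈ (Finset.univ.filter (fun i => d i < 0) : Finset (Fin 3)), g i ≠ 0 := by
      by_contra hcon
      push Not at hcon
      apply hx0
      refine Finset.sum_eq_zero fun i hi => ?_
      rw [hcon i hi, zero_smul]
    obtain ⟨i, hi, hgi⟩ := hex
    refine Finset.sum_neg' ?_ ⟨i, hi, ?_⟩
    · intro j hj
      exact mul_nonpos_of_nonneg_of_nonpos Quaternion.normSq_nonneg
        (Finset.mem_filter.1 hj).2.le
    · refine mul_neg_of_pos_of_neg ?_ (Finset.mem_filter.1 hi).2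
      refine lt_of_le_of_ne Quaternion.normSq_nonneg (Ne.symm ?_)
      rw [Ne, Quaternion.normSq_eq_zero]
      intro h0
      exact hgi (MulOpposite.unop_injective h0)
  have hnon : NonnegOn c (Submodule.span Q
      (v '' ((Finset.univ.filter (fun i => ¬ d i < 0) : Finset (Fin 3)) : Set (Fin 3)))) := by
    intro x hx
    rw [Submodule.mem_span_image_finset_iff_exists_fun'] at hx
    obtain ⟨g, rfl⟩ := hx
    rw [hform]
    refine Finset.sum_nonneg fun i hi => ?_
    exact mul_nonneg Quaternion.normSq_nonneg (not_lt.1 (Finset.mem_filter.1 hi).2)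
  have h1 := le_nn c (hle _) hneg
  have h2 := nn_add_le c (hle _) hnon
  rw [hfr] at h1 h2
  have h3 := Finset.card_filter_add_card_filter_not (s := (Finset.univ : Finset (Fin 3)))
    (fun i => d i < 0)
  rw [Finset.card_univ, Fintype.card_fin] at h3
  omega

/-- real combinations of `f, N f, N² f` -/
noncomputable def ib3_v (N : Module.End Q V) (f : V) (a : Fin 3 → ℝ) : V :=
  a 0 • (N ^ 0) f + a 1 • (N ^ 1) f + a 2 • (N ^ 2) f

theorem ib3_gram (N : V →ₗ[Q] V) (f : V) (g : ℕ → ℝ)
    (c : BF V) (hc : ∀ i j : Fin 3, ∀ q : Q, c (((N : Module.End Q V) ^ (i : ℕ)) f)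
      (q • ((N : Module.End Q V) ^ (j : ℕ)) f) = q.unop.re * g (i + j)) (a a' : Fin 3 → ℝ) (q : Q) :
    c (ib3_v N f a) (q • ib3_v N f a') = q.unop.re *
      (a 0 * a' 0 * g 0 + (a 0 * a' 1 + a 1 * a' 0) * g 1 +
        (a 0 * a' 2 + a 1 * a' 1 + a 2 * a' 0) * g 2 +
        (a 1 * a' 2 + a 2 * a' 1) * g 3 + a 2 * a' 2 * g 4) := by
  have e : ∀ (t : ℝ) (x : V), q • t • x = t • q • x := fun t x => smul_comm q t x
  unfold ib3_v
  have h00 := hc 0 0 q
  have h01 := hc 0 1 q
  have h02 := hc 0 2 q
  have h10 := hc 1 0 q
  have h11 := hc 1 1 q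
  have h12 := hc 1 2 q
  have h20 := hc 2 0 q
  have h21 := hc 2 1 q
  have h22 := hc 2 2 q
  simp only [Fin.val_zero, Fin.val_one, Fin.val_two, Nat.reduceAdd] at h00 h01 h02 h10 h11 h12 h20 h21 h22
  simp only [smul_add, e, map_add, map_smul, LinearMap.add_apply, LinearMap.smul_apply,
    smul_eq_mul, h00, h01, h02, h10, h11, h12, h20, h21, h22]
  ring

theorem idx_b3 [FiniteDimensional Q V] {b : BF V} (hb : IsF b) {X : V →ₗ[Q] V} (hX : SA b X)
    (m : Polynomial ℝ) (r : ℝ) (f : V) (h : IsPiece b X (Piece.b3 r) f) :
    nn (tw b (Polynomial.aeval (R := ℝ) (A := Module.End Q V) X m)) (cyc X f)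
      = idx m (Piece.b3 r) := by
  obtain ⟨hf3, hf2, hf1, hf0⟩ := h
  set N : V →ₗ[Q] V := sh X r with hNdef
  have hNsa : SA b N := ib3_SA_sh hX r
  have p0 : ((N : Module.End Q V) ^ 0) f = f := by simp
  have p1 : ((N : Module.End Q V) ^ 1) f = N f := by simp
  have p2 : ((N : Module.End Q V) ^ 2) f = N (N f) := by rw [pow_two]; rfl
  have p3 : ((N : Module.End Q V) ^ 3) f = 0 := by
    rw [pow_succ, pow_two]; exact hf3
  have p4 : ∀ k, ((N : Module.End Q V) ^ (k + 3)) f = 0 := by
    intro k
    rw [pow_add, Module.End.mul_apply, p3, map_zero]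
  -- the values of `b`
  let gb : ℕ → ℝ := fun k => if k = 2 then 1 else 0
  have hval : ∀ k : ℕ, b f (((N : Module.End Q V) ^ k) f) = gb k := by
    intro k
    rcases k with _ | _ | _ | k
    · rw [p0]; simpa [gb] using hf0
    · rw [p1]; simpa [gb] using hf1
    · rw [p2]; simpa [gb] using hf2
    · rw [p4, map_zero]; simp [gb]
  have hgb : ∀ i j : Fin 3, ∀ q : Q, b (((N : Module.End Q V) ^ (i : ℕ)) f)
      (q • ((N : Module.End Q V) ^ (j : ℕ)) f) = q.unop.re * gb (i + j) := by
    intro i j q
    rw [ib3_D hb hNsa, hval]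
  have hBg := ib3_gram N f gb b hgb
  -- the values of `c`
  set α : ℝ := m.eval r with hα
  set β : ℝ := m.derivative.eval r with hβ
  set γ : ℝ := (Polynomial.taylor r m).coeff 2 with hγ
  have hγ2 : m.derivative.derivative.eval r = 2 * γ := by
    rw [hγ, Polynomial.taylor_coeff]
    have h1 := congrFun (Polynomial.factorial_smul_hasseDeriv (R := ℝ) 2) m
    have h2 : (Nat.factorial 2) • (Polynomial.hasseDeriv 2 m) = m.derivative.derivative := h1
    rw [← h2]
    simp [Nat.factorial]
  let gc : ℕ → ℝ := fun k => if k = 0 then γ else if k = 1 then β else if k = 2 then α else 0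
  set c : BF V := tw b (Polynomial.aeval (R := ℝ) (A := Module.End Q V) X m) with hcdef
  have hSAm : SA b (Polynomial.aeval (R := ℝ) (A := Module.End Q V) X m) := ib3_SA_aeval hX m
  have hcF : IsF c := isF_tw hb hSAm
  have hgc : ∀ i j : Fin 3, ∀ q : Q, c (((N : Module.End Q V) ^ (i : ℕ)) f)
      (q • ((N : Module.End Q V) ^ (j : ℕ)) f) = q.unop.re * gc (i + j) := by
    intro i j q
    have h0 : (Polynomial.aeval (R := ℝ) (A := Module.End Q V) X m)
        (((N : Module.End Q V) ^ (j : ℕ)) f) = α • ((N : Module.End Q V) ^ (j : ℕ)) f +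
          β • ((N : Module.End Q V) ^ ((j : ℕ) + 1)) f +
          γ • ((N : Module.End Q V) ^ ((j : ℕ) + 2)) f := by
      have e1 : ((N : Module.End Q V) ^ ((j : ℕ) + 1)) f = N (((N : Module.End Q V) ^ (j : ℕ)) f) := by
        rw [pow_succ']; rfl
      have e2 : ((N : Module.End Q V) ^ ((j : ℕ) + 2)) f =
          N (N (((N : Module.End Q V) ^ (j : ℕ)) f)) := by
        rw [pow_succ', pow_succ']; rfl
      have e3 : N (N (N (((N : Module.End Q V) ^ (j : ℕ)) f))) = 0 := by
        have : N (N (N (((N : Module.End Q V) ^ (j : ℕ)) f))) =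
            ((N : Module.End Q V) ^ ((j : ℕ) + 3)) f := by
          rw [pow_succ', pow_succ', pow_succ']; rfl
        rw [this, p4]
      rw [ib3_aevalX X r m, ← hNdef, ib3_aevalN N _ _ e3, e1, e2, Polynomial.taylor_coeff_zero,
        Polynomial.taylor_coeff_one]
    have h1 : c (((N : Module.End Q V) ^ (i : ℕ)) f) (q • ((N : Module.End Q V) ^ (j : ℕ)) f) =
        b (((N : Module.End Q V) ^ (i : ℕ)) f) (q •
          (Polynomial.aeval (R := ℝ) (A := Module.End Q V) X m)
            (((N : Module.End Q V) ^ (j : ℕ)) f)) := by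
      have e0 : (Polynomial.aeval (R := ℝ) (A := Module.End Q V) X m)
          (q • ((N : Module.End Q V) ^ (j : ℕ)) f) =
          q • (Polynomial.aeval (R := ℝ) (A := Module.End Q V) X m)
            (((N : Module.End Q V) ^ (j : ℕ)) f) :=
        LinearMap.map_smul (Polynomial.aeval (R := ℝ) (A := Module.End Q V) X m) q _
      rw [← e0]
      rfl
    have e : ∀ (t : ℝ) (x : V), q • t • x = t • q • x := fun t x => smul_comm q t x
    have eb : ∀ (t : ℝ) (x y : V), b x (t • y) = t * b x y := fun t x y => by
      rw [LinearMap.map_smul (b x) t y, smul_eq_mul]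
    rw [h1, h0, smul_add, smul_add, e, e, e, map_add, map_add, eb, eb, eb,
      ib3_D hb hNsa, ib3_D hb hNsa, ib3_D hb hNsa, hval, hval, hval]
    generalize hs : (i : ℕ) + (j : ℕ) = s
    rw [← add_assoc, ← add_assoc, hs]
    generalize (MulOpposite.unop q).re = t
    rcases s with _ | _ | _ | s
    · simp [gb, gc]; try ring
    · simp [gb, gc]; try ring
    · simp [gb, gc]; try ring
    · simp [gb, gc]
  have hCg := ib3_gram N f gc c hgc
  -- the subspace
  have hWf : f ∈ cyc X f := Submodule.subset_span (by simp)
  have hWX : X f ∈ cyc X f := Submodule.subset_span (by simp)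
  have hWXX : X (X f) ∈ cyc X f := Submodule.subset_span (by simp)
  have hW1 : N f ∈ cyc X f := by
    rw [hNdef, ib3_sh]
    exact Submodule.sub_mem _ hWX (Submodule.smul_of_tower_mem _ _ hWf)
  have hW2 : N (N f) ∈ cyc X f := by
    rw [hNdef, ib3_sh, ib3_sh, map_sub]
    refine Submodule.sub_mem _ (Submodule.sub_mem _ hWXX ?_)
      (Submodule.smul_of_tower_mem _ _ (Submodule.sub_mem _ hWX (Submodule.smul_of_tower_mem _ _ hWf)))
    rw [LinearMap.map_smul_of_tower]
    exact Submodule.smul_of_tower_mem _ _ hWX
  have hWv : ∀ a, ib3_v N f a ∈ cyc X f := by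
    intro a
    unfold ib3_v
    rw [p0, p1, p2]
    exact Submodule.add_mem _ (Submodule.add_mem _ (Submodule.smul_of_tower_mem _ _ hWf)
      (Submodule.smul_of_tower_mem _ _ hW1)) (Submodule.smul_of_tower_mem _ _ hW2)
  have hWd : Module.finrank Q (cyc X f) ≤ 3 := by
    classical
    have h1 := finrank_span_finset_le_card (R := Q) ({f, X f, X (X f)} : Finset V)
    have h2 : (({f, X f, X (X f)} : Finset V) : Set V) = {f, X f, X (X f)} := by simp
    rw [Set.finrank, h2] at h1
    exact h1.trans (Finset.card_le_three)
  -- linear independence from a dual family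
  have hli : ∀ A A' : Fin 3 → Fin 3 → ℝ,
      (∀ i j, A' i 0 * A j 2 + A' i 1 * A j 1 + A' i 2 * A j 0 = if i = j then 1 else 0) →
      LinearIndependent Q (fun i => ib3_v N f (A i)) := by
    intro A A' hAA
    rw [Fintype.linearIndependent_iff]
    intro g hg i
    have h1 : ∀ p : Q, b (ib3_v N f (A' i)) (p • ∑ j, g j • ib3_v N f (A j)) = 0 := by
      intro p
      rw [hg, smul_zero, map_zero]
    have h2 := h1 (star (g i))
    rw [Finset.smul_sum, map_sum] at h2
    have h3 : ∀ j, b (ib3_v N f (A' i)) (star (g i) • g j • ib3_v N f (A j)) =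
        if i = j then Quaternion.normSq (g i).unop else 0 := by
      intro j
      rw [smul_smul, hBg]
      have h4 := hAA i j
      have h5 : (A' i 0 * A j 0 * gb 0 + (A' i 0 * A j 1 + A' i 1 * A j 0) * gb 1 +
        (A' i 0 * A j 2 + A' i 1 * A j 1 + A' i 2 * A j 0) * gb 2 +
        (A' i 1 * A j 2 + A' i 2 * A j 1) * gb 3 + A' i 2 * A j 2 * gb 4) =
          if i = j then 1 else 0 := by
        rw [h4]; simp [gb]
      rw [h5]
      split_ifs with hij
      · subst hij
        rw [mul_one, MulOpposite.unop_mul, MulOpposite.unop_star, Quaternion.self_mul_star]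
        simp
      · rw [mul_zero]
    rw [Finset.sum_congr rfl (fun j _ => h3 j), Finset.sum_ite_eq, if_pos (Finset.mem_univ _),
      Quaternion.normSq_eq_zero] at h2
    exact MulOpposite.unop_injective h2
  have fin : ∀ (A A' : Fin 3 → Fin 3 → ℝ) (d : Fin 3 → ℝ),
      (∀ i j, A' i 0 * A j 2 + A' i 1 * A j 1 + A' i 2 * A j 0 = if i = j then 1 else 0) →
      (∀ i j, A i 0 * A j 0 * γ + (A i 0 * A j 1 + A i 1 * A j 0) * β +
        (A i 0 * A j 2 + A i 1 * A j 1 + A i 2 * A j 0) * α = if i = j then d i else 0) →
      nn c (cyc X f) = (Finset.univ.filter (fun i => d i < 0)).card := by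
    intro A A' d h1 h2
    refine ib3_diag hcF (fun i => ib3_v N f (A i)) d ?_ (hli A A' h1) _ (fun i => hWv _) hWd
    intro i j q
    rw [hCg]
    have h5 : (A i 0 * A j 0 * gc 0 + (A i 0 * A j 1 + A i 1 * A j 0) * gc 1 +
        (A i 0 * A j 2 + A i 1 * A j 1 + A i 2 * A j 0) * gc 2 +
        (A i 1 * A j 2 + A i 2 * A j 1) * gc 3 + A i 2 * A j 2 * gc 4) =
          if i = j then d i else 0 := by
      rw [← h2 i j]; simp [gc]
    rw [h5]
    split_ifs <;> simp
  show nn c (cyc X f) = if 0 < α then 1 else if α < 0 then 2 else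
      if β = 0 then (if m.derivative.derivative.eval r < 0 then 1 else 0) else 1
  rw [hγ2]
  by_cases hα0 : α = 0
  · rw [hα0, if_neg (lt_irrefl _), if_neg (lt_irrefl _)]
    by_cases hβ0 : β = 0
    · rw [if_pos hβ0]
      rw [fin ![![1, 0, 0], ![0, 1, 0], ![0, 0, 1]] ![![0, 0, 1], ![0, 1, 0], ![1, 0, 0]]
        ![γ, 0, 0] ?_ ?_]
      · rw [Finset.card_filter, Fin.sum_univ_three]
        have h2 : (2 * γ < 0) ↔ (γ < 0) := by constructor <;> intro h <;> linarith
        by_cases hg : γ < 0
        · simp [h2, hg]
        · simp [h2, hg]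
      · intro i j; fin_cases i <;> fin_cases j <;> simp
      · intro i j; fin_cases i <;> fin_cases j <;> simp [hα0, hβ0]
    · rw [if_neg hβ0]
      have hu : 2 * (γ / (2 * β)) * β = γ := by field_simp
      rw [fin ![![1, 1 - γ / (2 * β), 0], ![1, -(γ / (2 * β)) - 1, 0], ![0, 0, 1]]
        ![![0, 1 / 2, (1 + γ / (2 * β)) / 2], ![0, -1 / 2, (1 - γ / (2 * β)) / 2], ![1, 0, 0]]
        ![2 * β, -(2 * β), 0] ?_ ?_]
      · rw [Finset.card_filter, Fin.sum_univ_three]
        rcases lt_or_gt_of_ne hβ0 with hg | hg
        · have h1 : 2 * β < 0 := by linarith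
          have h2 : ¬ (-(2 * β) < 0) := by linarith
          simp only [Matrix.cons_val_zero, Matrix.cons_val_one, Matrix.cons_val_two,
            Matrix.head_cons, Matrix.tail_cons, Matrix.cons_val, if_pos h1, if_neg h2,
            lt_irrefl, if_false]
        · have h1 : ¬ (2 * β < 0) := by linarith
          have h2 : (-(2 * β) < 0) := by linarith
          simp only [Matrix.cons_val_zero, Matrix.cons_val_one, Matrix.cons_val_two,
            Matrix.head_cons, Matrix.tail_cons, Matrix.cons_val, if_neg h1, if_pos h2,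
            lt_irrefl, if_false]
      · intro i j; fin_cases i <;> fin_cases j <;> simp <;> ring
      · generalize γ / (2 * β) = u at hu
        intro i j; fin_cases i <;> fin_cases j <;> simp [hα0] <;> linarith
  · have ht : 2 * (γ / (2 * α)) * α = γ := by field_simp
    have hs' : (β / α) * α = β := by field_simp
    rw [fin ![![1, 0, 1 - γ / (2 * α)], ![0, 1, -(β / α)], ![1, 0, -(γ / (2 * α)) - 1]]
        ![![1 / 2, (β / α) / 2, (1 + γ / (2 * α)) / 2], ![0, 1, 0],
          ![-1 / 2, -(β / α) / 2, (1 - γ / (2 * α)) / 2]]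
        ![2 * α, α, -(2 * α)] ?_ ?_]
    · rw [Finset.card_filter, Fin.sum_univ_three]
      rcases lt_or_gt_of_ne hα0 with hg | hg
      · have h1 : 2 * α < 0 := by linarith
        have h2 : ¬ (-(2 * α) < 0) := by linarith
        have h3 : ¬ (0 < α) := by linarith
        simp only [Matrix.cons_val_zero, Matrix.cons_val_one, Matrix.cons_val_two,
            Matrix.head_cons, Matrix.tail_cons, Matrix.cons_val, if_pos h1, if_neg h2, if_pos hg,
            if_neg h3]
      · have h1 : ¬ (2 * α < 0) := by linarith
        have h2 : (-(2 * α) < 0) := by linarith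
        have h3 : ¬ (α < 0) := by linarith
        simp only [Matrix.cons_val_zero, Matrix.cons_val_one, Matrix.cons_val_two,
            Matrix.head_cons, Matrix.tail_cons, Matrix.cons_val, if_neg h1, if_pos h2, if_pos hg,
            if_neg h3]
    · intro i j; fin_cases i <;> fin_cases j <;> simp <;> ring
    · generalize γ / (2 * α) = t at ht
      generalize β / α = s' at hs'
      intro i j; fin_cases i <;> fin_cases j <;> simp <;> linarith
end

section
/-! Pairs of quaternionic hermitian forms.  A right quaternionic space is a module over `Q`, the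
opposite of the quaternions.  A quaternionic hermitian form `h` is represented by its real part
`b x y = Re h x y`, a real bilinear symmetric form with `b (q • x) y = b x (star q • y)`.
Subspaces are `Submodule Q V`, dimension is `Module.finrank Q`. -/
open scoped Quaternion
variable {V : Type} [AddCommGroup V] [Module Q V] [Module ℝ V] [IsScalarTower ℝ Q V]


theorem nf_inv {b : BF V} {X : V →ₗ[Q] V} (l : List (Piece × V)) (W : Submodule Q V)
    (h : IsNF b X l W) : ∀ w ∈ W, X w ∈ W := by
  induction l generalizing W with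
  | nil =>
    intro w hw
    have hW : W = ⊥ := h
    rw [hW, Submodule.mem_bot] at hw
    rw [hw, map_zero]
    exact W.zero_mem
  | cons a l ih =>
    obtain ⟨p, f⟩ := a
    obtain ⟨hp, W', hW', _, hsup⟩ := h
    intro w hw
    rw [← hsup] at hw ⊢
    obtain ⟨u, hu, v, hv, rfl⟩ := Submodule.mem_sup.mp hw
    rw [map_add]
    exact Submodule.add_mem_sup (cyc_inv hp u hu) (ih W' hW' v hv)
end

section
/-! Pairs of quaternionic hermitian forms.  A right quaternionic space is a module over `Q`, the
opposite of the quaternions.  A quaternionic hermitian form `h` is represented by its real part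
`b x y = Re h x y`, a real bilinear symmetric form with `b (q • x) y = b x (star q • y)`.
Subspaces are `Submodule Q V`, dimension is `Module.finrank Q`. -/
open scoped Quaternion
variable {V : Type} [AddCommGroup V] [Module Q V] [Module ℝ V] [IsScalarTower ℝ Q V]


theorem nn_nf_sa {b : BF V} {X : V →ₗ[Q] V} (hX : SA b X) (m : Polynomial ℝ) :
    SA b (Polynomial.aeval (R := ℝ) (A := Module.End Q V) X m) := by
  induction m using Polynomial.induction_on' with
  | add p q hp hq =>
    intro x y
    rw [map_add]
    show b (Polynomial.aeval (R := ℝ) (A := Module.End Q V) X p x +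
      Polynomial.aeval (R := ℝ) (A := Module.End Q V) X q x) y =
      b x (Polynomial.aeval (R := ℝ) (A := Module.End Q V) X p y +
      Polynomial.aeval (R := ℝ) (A := Module.End Q V) X q y)
    rw [map_add, map_add, LinearMap.add_apply, hp x y, hq x y]
  | monomial n c =>
    have hpow : ∀ n : ℕ, ∀ x y, b (((X : Module.End Q V) ^ n) x) y =
        b x (((X : Module.End Q V) ^ n) y) := by
      intro n
      induction n with
      | zero => intro x y; rfl
      | succ n ih =>
        intro x y
        rw [pow_succ (X : Module.End Q V) n]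
        have h1 : (X : Module.End Q V) ^ n * X = X * (X : Module.End Q V) ^ n :=
          (Commute.refl (X : Module.End Q V)).pow_left n
        rw [Module.End.mul_apply, ih, hX, ← Module.End.mul_apply, ← h1]
    intro x y
    have h2 : Polynomial.aeval (R := ℝ) (A := Module.End Q V) X (Polynomial.monomial n c) =
        c • (X : Module.End Q V) ^ n := by
      rw [Polynomial.aeval_monomial, Algebra.smul_def]
    rw [h2]
    show b (c • (((X : Module.End Q V) ^ n) x)) y = b x (c • (((X : Module.End Q V) ^ n) y))
    rw [map_smul, map_smul, LinearMap.smul_apply, hpow]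

theorem nn_nf_inv {X : V →ₗ[Q] V} (W : Submodule Q V) (hW : ∀ w ∈ W, X w ∈ W)
    (m : Polynomial ℝ) :
    ∀ w ∈ W, Polynomial.aeval (R := ℝ) (A := Module.End Q V) X m w ∈ W := by
  induction m using Polynomial.induction_on' with
  | add p q hp hq =>
    intro w hw
    rw [map_add]
    exact W.add_mem (hp w hw) (hq w hw)
  | monomial n c =>
    have hpow : ∀ n : ℕ, ∀ w ∈ W, ((X : Module.End Q V) ^ n) w ∈ W := by
      intro n
      induction n with
      | zero => intro w hw; exact hw
      | succ n ih =>
        intro w hw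
        rw [pow_succ (X : Module.End Q V) n, Module.End.mul_apply]
        exact ih _ (hW w hw)
    intro w hw
    have h2 : Polynomial.aeval (R := ℝ) (A := Module.End Q V) X (Polynomial.monomial n c) =
        c • (X : Module.End Q V) ^ n := by
      rw [Polynomial.aeval_monomial, Algebra.smul_def]
    rw [h2]
    show c • (((X : Module.End Q V) ^ n) w) ∈ W
    exact W.smul_of_tower_mem c (hpow n w hw)

theorem nn_nf_bot (b : BF V) : nn b (⊥ : Submodule Q V) = 0 := by
  unfold nn
  have h : {k | ∃ U : Submodule Q V, U ≤ ⊥ ∧ NegOn b U ∧ Module.finrank Q U = k} = {0} := by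
    ext k
    constructor
    · rintro ⟨U, hU, -, hk⟩
      have : U = ⊥ := le_bot_iff.mp hU
      rw [this, finrank_bot] at hk
      exact hk.symm
    · rintro rfl
      refine ⟨⊥, le_rfl, ?_, finrank_bot _ _⟩
      intro x hx hx0
      exact absurd ((Submodule.mem_bot _).mp hx) hx0
  rw [h]
  exact csSup_singleton 0

theorem nn_nf [FiniteDimensional Q V] {b : BF V} (hb : IsF b) {X : V →ₗ[Q] V} (hX : SA b X)
    (m : Polynomial ℝ) (l : List (Piece × V)) (W : Submodule Q V) (h : IsNF b X l W) :
    nn (tw b (Polynomial.aeval (R := ℝ) (A := Module.End Q V) X m)) W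
      = tot m (l.map Prod.fst) :=  by
  induction l generalizing W with
  | nil =>
    have hW : W = ⊥ := h
    rw [hW, nn_nf_bot]
    rfl
  | cons pf l ih =>
    obtain ⟨p, f⟩ := pf
    obtain ⟨hp, W', hW', ho, hs⟩ := h
    have hd : cyc X f ⊓ W' = ⊥ := by
      rw [eq_bot_iff]
      intro x hx
      rw [Submodule.mem_bot]
      refine cyc_nd hb hX hp x hx.1 ?_
      intro y hy
      rw [hb.symm]
      exact ho y hy x hx.2
    have ho' : ∀ x ∈ cyc X f, ∀ y ∈ W',
        (tw b (Polynomial.aeval (R := ℝ) (A := Module.End Q V) X m)) x y = 0 := by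
      intro x hx y hy
      exact ho x hx _ (nn_nf_inv W' (nf_inv l W' hW') m y hy)
    rw [← hs, nn_add (isF_tw hb (nn_nf_sa hX m)) _ _ hd ho', ih W' hW']
    have hidx : nn (tw b (Polynomial.aeval (R := ℝ) (A := Module.End Q V) X m)) (cyc X f) =
        idx m p := by
      cases p with
      | ray e x => exact idx_ray hb hX m e x f hp
      | cx r s => exact idx_cx hb hX m r s f hp
      | b2 e r => exact idx_b2 hb hX m e r f hp
      | b3 r => exact idx_b3 hb hX m r f hp
    rw [hidx]
    simp [tot]
end

section
/-! Pairs of quaternionic hermitian forms.  A right quaternionic space is a module over `Q`, the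
opposite of the quaternions.  A quaternionic hermitian form `h` is represented by its real part
`b x y = Re h x y`, a real bilinear symmetric form with `b (q • x) y = b x (star q • y)`.
Subspaces are `Submodule Q V`, dimension is `Module.finrank Q`. -/
open scoped Quaternion
variable {V : Type} [AddCommGroup V] [Module Q V] [Module ℝ V] [IsScalarTower ℝ Q V]


theorem nf_perm {b : BF V} (hb : IsF b) {X : V →ₗ[Q] V} {l l' : List (Piece × V)}
    (hp : l.Perm l') (W : Submodule Q V) (h : IsNF b X l W) : IsNF b X l' W := by
  induction hp generalizing W with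
  | nil => exact h
  | cons x _ ih =>
    obtain ⟨p, f⟩ := x
    obtain ⟨hP, W', hW', ho, hs⟩ := h
    exact ⟨hP, W', ih W' hW', ho, hs⟩
  | swap x y l =>
    obtain ⟨p, f⟩ := x
    obtain ⟨p', f'⟩ := y
    obtain ⟨hPy, W', ⟨hPx, W'', hW'', ho2, hs2⟩, ho1, hs1⟩ := h
    refine ⟨hPx, cyc X f' ⊔ W'', ⟨hPy, W'', hW'', fun u hu w hw => ?_, rfl⟩, fun u hu w hw => ?_,
      ?_⟩
    · exact ho1 u hu w (hs2 ▸ Submodule.mem_sup_right hw)
    · obtain ⟨w1, hw1, w2, hw2, rfl⟩ := Submodule.mem_sup.1 hw
      rw [map_add, ho2 u hu w2 hw2, add_zero, hb.symm]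
      exact ho1 w1 hw1 u (hs2 ▸ Submodule.mem_sup_left hu)
    · rw [← hs1, ← hs2, sup_left_comm]
  | trans _ _ ih1 ih2 => exact ih2 W (ih1 W h)
end

section
/-! Pairs of quaternionic hermitian forms.  A right quaternionic space is a module over `Q`, the
opposite of the quaternions.  A quaternionic hermitian form `h` is represented by its real part
`b x y = Re h x y`, a real bilinear symmetric form with `b (q • x) y = b x (star q • y)`.
Subspaces are `Submodule Q V`, dimension is `Module.finrank Q`. -/
open scoped Quaternion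
variable {V : Type} [AddCommGroup V] [Module Q V] [Module ℝ V] [IsScalarTower ℝ Q V]


theorem sh_neg (X : V →ₗ[Q] V) (r : ℝ) (v : V) : sh (-X) (-r) v = - sh X r v := by
  simp only [sh, LinearMap.sub_apply, LinearMap.neg_apply, LinearMap.smul_apply, LinearMap.id_apply]
  rw [neg_smul]
  abel

theorem sg_not (e : Bool) : sg (!e) = - sg e := by
  cases e <;> simp [sg]

theorem cyc_neg (X : V →ₗ[Q] V) (f : V) : cyc (-X) f = cyc X f := by
  unfold cyc
  apply le_antisymm
  · rw [Submodule.span_le]
    intro v hv
    simp only [Set.mem_insert_iff, Set.mem_singleton_iff] at hv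
    rcases hv with h | h | h
    · rw [h]; exact Submodule.subset_span (by simp)
    · rw [h, LinearMap.neg_apply]
      exact Submodule.neg_mem _ (Submodule.subset_span (by simp))
    · rw [h]
      simp only [LinearMap.neg_apply, map_neg, neg_neg]
      exact Submodule.subset_span (by simp)
  · rw [Submodule.span_le]
    intro v hv
    simp only [Set.mem_insert_iff, Set.mem_singleton_iff] at hv
    rcases hv with h | h | h
    · rw [h]; exact Submodule.subset_span (by simp)
    · rw [h]
      have : X f = - ((-X) f) := by simp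
      rw [this]
      exact Submodule.neg_mem _ (Submodule.subset_span (by simp))
    · rw [h]
      have : X (X f) = (-X) ((-X) f) := by simp
      rw [this]
      exact Submodule.subset_span (by simp)

theorem isPiece_refl {b : BF V} {X : V →ₗ[Q] V} (p : Piece) (f : V) (h : IsPiece b X p f) :
    IsPiece b (-X) (refl p) f := by
  cases p with
  | ray e x =>
    obtain ⟨h1, h2⟩ := h
    refine ⟨h1, ?_⟩
    rw [sh_neg, h2, neg_zero]
  | cx r s =>
    obtain ⟨h1, h2, h3, h4⟩ := h
    refine ⟨h1, ?_, h3, ?_⟩
    · rw [sh_neg, sh_neg, map_neg, neg_neg, h2]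
    · rw [sh_neg, map_neg, h4, neg_zero]
  | b2 e r =>
    obtain ⟨h1, h2, h3⟩ := h
    refine ⟨?_, ?_, h3⟩
    · rw [sh_neg, sh_neg, map_neg, neg_neg, h1]
    · rw [sh_neg, map_neg, h2, sg_not]
  | b3 r =>
    obtain ⟨h1, h2, h3, h4⟩ := h
    refine ⟨?_, ?_, ?_, h4⟩
    · rw [sh_neg, sh_neg, sh_neg]
      simp only [map_neg, neg_neg, h1, neg_zero]
    · rw [sh_neg, sh_neg]
      simp only [map_neg, neg_neg, h2]
    · rw [sh_neg, map_neg, h3, neg_zero]

theorem nf_refl {b : BF V} {X : V →ₗ[Q] V} (l : List (Piece × V)) (W : Submodule Q V)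
    (h : IsNF b X l W) : IsNF b (-X) (l.map fun p => (refl p.1, p.2)) W := by
  induction l generalizing W with
  | nil => exact h
  | cons a l ih =>
    obtain ⟨p, f⟩ := a
    obtain ⟨h1, W', h2, h3, h4⟩ := h
    refine ⟨isPiece_refl p f h1, W', ih W' h2, ?_, ?_⟩
    · rw [cyc_neg]; exact h3
    · rw [cyc_neg]; exact h4
end

end Pool.QN
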