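import Pool.Agent.Helper9.QN.Defs
import Pool.Agent.Helper9.QP.A1
import Pool.Agent.Helper9.QP.B2

set_option autoImplicit false
set_option maxHeartbeats 1000000

namespace Pool.QN

section
/-! Pairs of quaternionic hermitian forms.  A right quaternionic space is a module over `Q`, the
opposite of the quaternions.  A quaternionic hermitian form `h` is represented by its real part
`b x y = Re h x y`, a real bilinear symmetric form with `b (q • x) y = b x (star q • y)`.
Subspaces are `Submodule Q V`, dimension is `Module.finrank Q`. -/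
open scoped Quaternion
variable {V : Type} [AddCommGroup V] [Module Q V] [Module ℝ V] [IsScalarTower ℝ Q V]


theorem dep_big [FiniteDimensional Q V] {b a : BF V} (hb : IsF b) (ha : IsF a) (k : ℕ)
    (x : Fin k → V) (t : Fin k → ℝ) (hx : LinearIndependent Q x)
    (hker : ∀ i y, (b + t i • a) (x i) y = 0) (z : V) (hz : z ≠ 0) (s : ℝ)
    (hzk : ∀ y, (b + s • a) z y = 0) (hs : ∀ i, t i ≠ s)
    (hmem : z ∈ Submodule.span Q (Set.range x)) : Big b a (Submodule.span Q (Set.range x)) := by
  classical
  have hba : ∀ i (q : Q) y, b (q • x i) y = - (t i * a (q • x i) y) := by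
    intro i q y
    rw [hb.adj, ha.adj]
    have := hker i (star q • y)
    simp only [LinearMap.add_apply, LinearMap.smul_apply, smul_eq_mul] at this
    linarith
  obtain ⟨q, hq⟩ := (Submodule.mem_span_range_iff_exists_fun Q).mp hmem
  set u : V := ∑ i, ((s - t i) • q i) • x i with hu
  have hau : ∀ y, a u y = 0 := by
    intro y
    have h1 := hzk y
    simp only [LinearMap.add_apply, LinearMap.smul_apply, smul_eq_mul] at h1
    rw [← hq] at h1
    simp only [map_sum, LinearMap.sum_apply, hba] at h1
    rw [hu]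
    simp only [map_sum, LinearMap.sum_apply, smul_assoc, map_smul, LinearMap.smul_apply,
      smul_eq_mul]
    rw [Finset.mul_sum, ← Finset.sum_add_distrib] at h1
    rw [← h1]
    apply Finset.sum_congr rfl
    intro i _
    ring
  have hu0 : u ≠ 0 := by
    intro h0
    have h1 := Fintype.linearIndependent_iff.mp hx (fun i => (s - t i) • q i) h0
    apply hz
    rw [← hq]
    apply Finset.sum_eq_zero
    intro i _
    have h2 := h1 i
    have h3 : s - t i ≠ 0 := sub_ne_zero.mpr (hs i).symm
    have h4 : q i = 0 := (smul_eq_zero.mp h2).resolve_left h3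
    rw [h4, zero_smul]
  set Wk : Submodule Q V := Submodule.span Q (Set.range x) with hWk
  have huW : u ∈ Wk := by
    apply Submodule.sum_mem
    intro i _
    exact Submodule.smul_mem _ _ (Submodule.subset_span ⟨i, rfl⟩)
  have huW' : Submodule.span Q {u} ≤ Wk := by
    rw [Submodule.span_singleton_le_iff_mem]
    exact huW
  obtain ⟨C, hC⟩ := Submodule.exists_isCompl (Submodule.span Q {u})
  have hmod : Submodule.span Q {u} ⊔ (C ⊓ Wk) = Wk := by
    rw [← sup_inf_assoc_of_le C huW', hC.sup_eq_top, top_inf_eq]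
  have hdis : Submodule.span Q {u} ⊓ (C ⊓ Wk) = ⊥ := by
    rw [← inf_assoc, hC.inf_eq_bot, bot_inf_eq]
  have hdim := Submodule.finrank_sup_add_finrank_inf_eq (Submodule.span Q {u}) (C ⊓ Wk)
  rw [hmod, hdis, finrank_bot, finrank_span_singleton hu0] at hdim
  have horth : orth a ha (C ⊓ Wk) ≤ orth a ha Wk := by
    intro y hy w hw
    rw [← hmod] at hw
    obtain ⟨w1, hw1, w2, hw2, rfl⟩ := Submodule.mem_sup.mp hw
    obtain ⟨c, rfl⟩ := Submodule.mem_span_singleton.mp hw1
    rw [map_add, LinearMap.add_apply, hy w2 hw2, ha.adj, hau, add_zero]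
  refine ⟨orth a ha Wk, ?_, ?_⟩
  · intro w hw y hy
    refine ⟨?_, hy w hw⟩
    obtain ⟨c, rfl⟩ := (Submodule.mem_span_range_iff_exists_fun Q).mp hw
    simp only [map_sum, LinearMap.sum_apply, hba]
    apply Finset.sum_eq_zero
    intro i _
    have : a (c i • x i) y = 0 := hy _ (Submodule.smul_mem _ _ (Submodule.subset_span ⟨i, rfl⟩))
    rw [this, mul_zero, neg_zero]
  · have h1 := finrank_orth_ge ha (C ⊓ Wk)
    have h2 := Submodule.finrank_mono horth
    omega
end

section
/-! Pairs of quaternionic hermitian forms.  A right quaternionic space is a module over `Q`, the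
opposite of the quaternions.  A quaternionic hermitian form `h` is represented by its real part
`b x y = Re h x y`, a real bilinear symmetric form with `b (q • x) y = b x (star q • y)`.
Subspaces are `Submodule Q V`, dimension is `Module.finrank Q`. -/
open scoped Quaternion
variable {V : Type} [AddCommGroup V] [Module Q V] [Module ℝ V] [IsScalarTower ℝ Q V]


theorem big_exists [FiniteDimensional Q V] {b a : BF V} (hb : IsF b) (ha : IsF a)
    (h : ∀ μ ν : ℝ, ¬ Nd (μ • b + ν • a)) : ∃ W : Submodule Q V, Big b a W := by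
  classical
  have hex : ∀ i : ℕ, ∃ x : V, x ≠ 0 ∧ ∀ y, (b + (i : ℝ) • a) x y = 0 := by
    intro i
    have h1 := h 1 (i : ℝ)
    unfold Nd at h1
    push Not at h1
    obtain ⟨x, hx1, hx2⟩ := h1
    refine ⟨x, hx2, ?_⟩
    intro y
    have h2 := hx1 y
    rw [one_smul] at h2
    exact h2
  choose x hx0 hx using hex
  have hn : ∃ k : ℕ, ¬ LinearIndependent Q (fun i : Fin k => x i) := by
    refine ⟨Module.finrank Q V + 1, ?_⟩
    intro hli
    have := hli.fintype_card_le_finrank
    rw [Fintype.card_fin] at this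
    omega
  have hspec := Nat.find_spec hn
  have hmin := fun m (hm : m < Nat.find hn) => Nat.find_min hn hm
  generalize Nat.find hn = k at hspec hmin
  rcases k with _ | k
  · exact absurd (linearIndependent_empty_type (R := Q) (v := fun i : Fin 0 => x i)) hspec
  · have hP : LinearIndependent Q (fun i : Fin k => x i) := by
      by_contra hcon
      exact hmin k (Nat.lt_succ_self k) hcon
    have hmem : x k ∈ Submodule.span Q (Set.range (fun i : Fin k => x i)) := by
      by_contra hcon
      apply hspec
      rw [linearIndependent_finSucc']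
      exact ⟨hP, hcon⟩
    refine ⟨_, dep_big hb ha k (fun i : Fin k => x i) (fun i : Fin k => ((i : ℕ) : ℝ)) hP
      (fun i y => hx i y) (x k) (hx0 k) (k : ℝ) (hx k) ?_ hmem⟩
    intro i hi
    have h3 : (i : ℕ) = k := by exact_mod_cast hi
    have h4 := i.isLt
    omega
end

section
/-! Pairs of quaternionic hermitian forms.  A right quaternionic space is a module over `Q`, the
opposite of the quaternions.  A quaternionic hermitian form `h` is represented by its real part
`b x y = Re h x y`, a real bilinear symmetric form with `b (q • x) y = b x (star q • y)`.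
Subspaces are `Submodule Q V`, dimension is `Module.finrank Q`. -/
open scoped Quaternion
variable {V : Type} [AddCommGroup V] [Module Q V] [Module ℝ V] [IsScalarTower ℝ Q V]


theorem bm1 [FiniteDimensional Q V] {b a : BF V} (hb : IsF b) (ha : IsF a) (hK : NoRad b a)
    (W : Submodule Q V) (hW : Big b a W) : 2 ≤ Module.finrank Q W := by
  obtain ⟨U, hU, hdim⟩ := hW
  have hUle : Module.finrank Q U ≤ Module.finrank Q V := Submodule.finrank_le U
  by_contra hc
  push Not at hc
  have h1 : Module.finrank Q W = 1 := by omega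
  have h2 : Module.finrank Q U = Module.finrank Q V := by omega
  have hUtop : U = ⊤ := Submodule.eq_top_of_finrank_eq h2
  have hpos : 0 < Module.finrank Q W := by omega
  obtain ⟨w, hw, hw0⟩ : ∃ w ∈ W, w ≠ 0 := by
    by_contra hcon
    push Not at hcon
    have h3 : W = ⊥ := (Submodule.eq_bot_iff W).2 hcon
    rw [h3, finrank_bot] at hpos
    exact lt_irrefl _ hpos
  refine hw0 (hK w (fun y => ?_) (fun y => ?_))
  · exact (hU w hw y (by rw [hUtop]; exact Submodule.mem_top)).1
  · exact (hU w hw y (by rw [hUtop]; exact Submodule.mem_top)).2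
end

section
/-! Pairs of quaternionic hermitian forms.  A right quaternionic space is a module over `Q`, the
opposite of the quaternions.  A quaternionic hermitian form `h` is represented by its real part
`b x y = Re h x y`, a real bilinear symmetric form with `b (q • x) y = b x (star q • y)`.
Subspaces are `Submodule Q V`, dimension is `Module.finrank Q`. -/
open scoped Quaternion
variable {V : Type} [AddCommGroup V] [Module Q V] [Module ℝ V] [IsScalarTower ℝ Q V]


theorem bm2 [FiniteDimensional Q V] {b a : BF V} (hb : IsF b) (ha : IsF a)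
    (W : Submodule Q V) (hW : Big b a W)
    (hmin : ∀ W' : Submodule Q V, Big b a W' → Module.finrank Q W ≤ Module.finrank Q W')
    (U : Submodule Q V) (hU : ∀ w ∈ W, ∀ u ∈ U, b w u = 0 ∧ a w u = 0) :
    Module.finrank Q W + Module.finrank Q U ≤ Module.finrank Q V + 1 := by
  have hne : W ≠ ⊥ := by
    rintro rfl
    obtain ⟨U', _, h⟩ := hW
    have h1 : Module.finrank Q U' ≤ Module.finrank Q V := Submodule.finrank_le U'
    rw [finrank_bot] at h
    omega
  obtain ⟨w, hwW, hw0⟩ := Submodule.exists_mem_ne_zero_of_ne_bot hne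
  let w' : W := ⟨w, hwW⟩
  have hw' : w' ≠ 0 := fun h => hw0 (congrArg Subtype.val h)
  obtain ⟨C, hC⟩ := Submodule.exists_isCompl (Submodule.span Q {w'})
  have h1 := Submodule.finrank_add_eq_of_isCompl hC
  rw [finrank_span_singleton hw'] at h1
  have h2 : Module.finrank Q (C.map W.subtype) = Module.finrank Q C :=
    LinearEquiv.finrank_eq (Submodule.equivMapOfInjective W.subtype W.injective_subtype C).symm
  have h3 : C.map W.subtype ≤ W := by
    rintro _ ⟨x, _, rfl⟩
    exact x.2
  have h4 : ¬ Big b a (C.map W.subtype) := by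
    intro h
    have := hmin _ h
    omega
  by_contra h5
  apply h4
  refine ⟨U, fun x hx u hu => hU x (h3 hx) u hu, ?_⟩
  omega
end

section
/-! Pairs of quaternionic hermitian forms.  A right quaternionic space is a module over `Q`, the
opposite of the quaternions.  A quaternionic hermitian form `h` is represented by its real part
`b x y = Re h x y`, a real bilinear symmetric form with `b (q • x) y = b x (star q • y)`.
Subspaces are `Submodule Q V`, dimension is `Module.finrank Q`. -/
open scoped Quaternion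
variable {V : Type} [AddCommGroup V] [Module Q V] [Module ℝ V] [IsScalarTower ℝ Q V]


theorem bm3 [FiniteDimensional Q V] {b a : BF V} (hb : IsF b) (ha : IsF a)
    (W : Submodule Q V) (hW : Big b a W) (μ ν : ℝ) :
    ∃ v ∈ W, v ≠ 0 ∧ ∀ y, (μ • b + ν • a) v y = 0 := by
  by_contra hcon
  push Not at hcon
  obtain ⟨U, hU, hdim⟩ := hW
  set c : BF V := μ • b + ν • a with hc
  haveI : Module.Finite ℝ Q :=
    Module.Finite.equiv (MulOpposite.opLinearEquiv ℝ : ℍ[ℝ] ≃ₗ[ℝ] (ℍ[ℝ])ᵐᵒᵖ)
  haveI : Module.Finite ℝ V := Module.Finite.trans Q V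
  let φ : W →ₗ[ℝ] Module.Dual ℝ V := c ∘ₗ (W.subtype.restrictScalars ℝ)
  have hinj : Function.Injective φ := by
    rw [← LinearMap.ker_eq_bot, LinearMap.ker_eq_bot']
    intro w hw
    by_contra hne
    obtain ⟨y, hy⟩ := hcon w w.2 (fun h => hne (Subtype.ext h))
    apply hy
    have := LinearMap.congr_fun hw y
    exact this
  have h1 : Module.finrank ℝ (LinearMap.range φ) = Module.finrank ℝ W :=
    LinearMap.finrank_range_of_inj hinj
  have h2 : U.restrictScalars ℝ ≤ (LinearMap.range φ).dualCoannihilator := by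
    intro u hu
    rw [Submodule.mem_dualCoannihilator]
    rintro _ ⟨w, rfl⟩
    obtain ⟨e1, e2⟩ := hU w w.2 u hu
    change c w u = 0
    simp [hc, e1, e2]
  have h3 := Submodule.finrank_mono h2
  have h4 := Subspace.finrank_add_finrank_dualCoannihilator_eq (LinearMap.range φ)
  have h5 := Module.finrank_mul_finrank ℝ Q V
  have h6 := Module.finrank_mul_finrank ℝ Q W
  have h7 := Module.finrank_mul_finrank ℝ Q U
  have h8 : Module.finrank ℝ (U.restrictScalars ℝ) = Module.finrank ℝ U := rfl
  have h9 : 0 < Module.finrank ℝ Q := Module.finrank_pos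
  rw [h8, ← h7] at h3
  rw [h1, ← h6, ← h5] at h4
  have h10 : Module.finrank ℝ Q * (Module.finrank Q W + Module.finrank Q U)
      ≤ Module.finrank ℝ Q * Module.finrank Q V := by
    rw [mul_add]
    omega
  have := Nat.le_of_mul_le_mul_left h10 h9
  omega
end

section
/-! Pairs of quaternionic hermitian forms.  A right quaternionic space is a module over `Q`, the
opposite of the quaternions.  A quaternionic hermitian form `h` is represented by its real part
`b x y = Re h x y`, a real bilinear symmetric form with `b (q • x) y = b x (star q • y)`.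
Subspaces are `Submodule Q V`, dimension is `Module.finrank Q`. -/
open scoped Quaternion
variable {V : Type} [AddCommGroup V] [Module Q V] [Module ℝ V] [IsScalarTower ℝ Q V]


theorem h170_span_orth {b a : BF V} (x : V) (S : Set V)
    (h : ∀ y ∈ S, ∀ p : Q, b x (p • y) = 0 ∧ a x (p • y) = 0) :
    ∀ y ∈ Submodule.span Q S, ∀ p : Q, b x (p • y) = 0 ∧ a x (p • y) = 0 := by
  intro y hy
  induction hy using Submodule.span_induction with
  | mem y hy => exact h y hy
  | zero =>
    intro p
    rw [smul_zero, map_zero, map_zero]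
    exact ⟨rfl, rfl⟩
  | add y z _ _ hy hz =>
    intro p
    rw [smul_add, map_add, map_add, (hy p).1, (hz p).1, (hy p).2, (hz p).2]
    simp
  | smul q y _ hy =>
    intro p
    rw [smul_smul]
    exact hy (p * q)

theorem bm4 [FiniteDimensional Q V] {b a : BF V} (hb : IsF b) (ha : IsF a)
    (W : Submodule Q V) (hW : Big b a W)
    (hmin : ∀ W' : Submodule Q V, Big b a W' → Module.finrank Q W ≤ Module.finrank Q W') :
    Neu b a W := by
  classical
  have hex : ∀ i : ℕ, ∃ v ∈ W, v ≠ 0 ∧ ∀ y, ((1 : ℝ) • b + (i : ℝ) • a) v y = 0 :=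
    fun i => bm3 hb ha W hW 1 i
  choose v hvW hv0 hvk using hex
  have hvk' : ∀ i y, b (v i) y + (i : ℝ) * a (v i) y = 0 := by
    intro i y
    have h := hvk i y
    simpa using h
  have hker : ∀ (i : ℕ) y, (b + (i : ℝ) • a) (v i) y = 0 := by
    intro i y
    have h := hvk' i y
    simpa using h
  -- linear independence
  have hLI : ∀ k : ℕ, k ≤ Module.finrank Q W → ∀ t : Fin k → ℕ, Function.Injective t →
      LinearIndependent Q (fun i => v (t i)) := by
    intro k
    induction k with
    | zero =>
      intro _ t _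
      exact linearIndependent_empty_type
    | succ k ih =>
      intro hk t ht
      rw [linearIndependent_fin_succ']
      have hinit : Function.Injective (fun i : Fin k => t (Fin.castSucc i)) := by
        intro i j hij
        exact Fin.castSucc_injective k (ht hij)
      have h1 := ih (by omega) (fun i : Fin k => t (Fin.castSucc i)) hinit
      refine ⟨h1, ?_⟩
      intro hmem
      have h2 := dep_big hb ha k (fun i : Fin k => v (t (Fin.castSucc i)))
        (fun i : Fin k => ((t (Fin.castSucc i) : ℕ) : ℝ)) h1 (fun i y => hker _ y)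
        (v (t (Fin.last k))) (hv0 _) ((t (Fin.last k) : ℕ) : ℝ) (fun y => hker _ y)
        (by
          intro i h
          have h3 : t (Fin.castSucc i) = t (Fin.last k) := by exact_mod_cast h
          have h4 := ht h3
          exact absurd h4 (Fin.castSucc_lt_last i).ne)
        hmem
      have h3 := hmin _ h2
      have h4 : Module.finrank Q (Submodule.span Q (Set.range
          (fun i : Fin k => v (t (Fin.castSucc i))))) = k := by
        rw [finrank_span_eq_card h1, Fintype.card_fin]
      omega
  have hspan : ∀ t : Fin (Module.finrank Q W) → ℕ, Function.Injective t →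
      Submodule.span Q (Set.range (fun i => v (t i))) = W := by
    intro t ht
    have h1 := hLI _ le_rfl t ht
    apply Submodule.eq_of_le_of_finrank_eq
    · rw [Submodule.span_le]
      rintro _ ⟨i, rfl⟩
      exact hvW _
    · rw [finrank_span_eq_card h1, Fintype.card_fin]
  have hne : ∀ i j : ℕ, i ≠ j → ∀ p : Q, b (v i) (p • v j) = 0 ∧ a (v i) (p • v j) = 0 := by
    intro i j hij p
    have h1 := hvk' i (p • v j)
    have h2 : b (v i) (p • v j) + (j : ℝ) * a (v i) (p • v j) = 0 := by
      have h3 := hvk' j (star p • v i)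
      have h4 : b (v i) (p • v j) = b (v j) (star p • v i) := by
        rw [hb.symm, hb.adj]
      have h5 : a (v i) (p • v j) = a (v j) (star p • v i) := by
        rw [ha.symm, ha.adj]
      rw [h4, h5]
      exact h3
    have hij' : ((i : ℝ) - (j : ℝ)) ≠ 0 := by
      rw [sub_ne_zero]
      exact_mod_cast hij
    have h6 : a (v i) (p • v j) = 0 := by
      have h7 : ((i : ℝ) - (j : ℝ)) * a (v i) (p • v j) = 0 := by linear_combination h1 - h2
      exact (mul_eq_zero.1 h7).resolve_left hij'
    refine ⟨?_, h6⟩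
    rw [h6, mul_zero, add_zero] at h1
    exact h1
  have hall : ∀ i j : ℕ, ∀ p : Q, b (v i) (p • v j) = 0 ∧ a (v i) (p • v j) = 0 := by
    intro i j p
    by_cases hij : i = j
    · subst hij
      have hinj : Function.Injective (fun k : Fin (Module.finrank Q W) => i + 1 + (k : ℕ)) := by
        intro k l hkl
        have : i + 1 + (k : ℕ) = i + 1 + (l : ℕ) := hkl
        exact Fin.ext (by omega)
      have h1 := hspan _ hinj
      apply h170_span_orth (v i) (Set.range (fun k : Fin (Module.finrank Q W) => v (i + 1 + (k : ℕ))))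
      · rintro _ ⟨k, rfl⟩ p
        exact hne i (i + 1 + k) (by omega) p
      · rw [h1]
        exact hvW i
    · exact hne i j hij p
  have hinj : Function.Injective (fun k : Fin (Module.finrank Q W) => (k : ℕ)) :=
    Fin.val_injective
  have hspan0 := hspan _ hinj
  have h2 : ∀ i : ℕ, ∀ y ∈ W, ∀ p : Q, b (v i) (p • y) = 0 ∧ a (v i) (p • y) = 0 := by
    intro i y hy
    apply h170_span_orth (v i) (Set.range (fun k : Fin (Module.finrank Q W) => v (k : ℕ)))
    · rintro _ ⟨k, rfl⟩ p
      exact hall i k p
    · rw [hspan0]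
      exact hy
  intro y hy x hx
  have h3 := h170_span_orth (b := b) (a := a) y
    (Set.range (fun k : Fin (Module.finrank Q W) => v (k : ℕ)))
    (by
      rintro _ ⟨k, rfl⟩ p
      have h4 := h2 k y hy (star p)
      constructor
      · rw [hb.symm, hb.adj]
        exact h4.1
      · rw [ha.symm, ha.adj]
        exact h4.2) x (by rw [hspan0]; exact hx) 1
  rwa [one_smul] at h3
end

section
/-! Pairs of quaternionic hermitian forms.  A right quaternionic space is a module over `Q`, the
opposite of the quaternions.  A quaternionic hermitian form `h` is represented by its real part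
`b x y = Re h x y`, a real bilinear symmetric form with `b (q • x) y = b x (star q • y)`.
Subspaces are `Submodule Q V`, dimension is `Module.finrank Q`. -/
open scoped Quaternion
variable {V : Type} [AddCommGroup V] [Module Q V] [Module ℝ V] [IsScalarTower ℝ Q V]


theorem ppr_neu {b a : BF V} (hb : IsF b) (ha : IsF a) (v : V)
    (h1 : b v v = 0) (h2 : a v v = 0) (W : Submodule Q V)
    (hW : LineCompl b a v W) (M : Submodule Q W) (hM : Neu (rs b W) (rs a W) M) :
    Neu b a (Submodule.span Q {v} ⊔ M.map W.subtype) := by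
  have key : ∀ c : BF V, IsF c → c v v = 0 → (∀ w ∈ W, c v w = 0) →
      (∀ x ∈ M, ∀ y ∈ M, rs c W x y = 0) →
      ∀ x ∈ (Submodule.span Q {v} ⊔ M.map W.subtype : Submodule Q V),
      ∀ y ∈ (Submodule.span Q {v} ⊔ M.map W.subtype : Submodule Q V), c x y = 0 := by
    intro c hc hvv hvw hcM x hx y hy
    rw [Submodule.mem_sup] at hx hy
    obtain ⟨x1, hx1, x2, hx2, rfl⟩ := hx
    obtain ⟨y1, hy1, y2, hy2, rfl⟩ := hy
    rw [Submodule.mem_span_singleton] at hx1 hy1
    obtain ⟨q, rfl⟩ := hx1
    obtain ⟨p, rfl⟩ := hy1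
    obtain ⟨m, hm, rfl⟩ := hx2
    obtain ⟨n, hn, rfl⟩ := hy2
    have e1 : c (q • v) (p • v) = 0 := by
      rw [hc.adj, smul_smul, (self_smul hc v _).1, hvv, mul_zero]
    have e2 : ∀ (r : Q) (w : W), c (r • v) (W.subtype w) = 0 := by
      intro r w
      rw [hc.adj]
      exact hvw _ (W.smul_mem _ w.2)
    have e3 : c (W.subtype m) (W.subtype n) = 0 := hcM m hm n hn
    rw [map_add, map_add, LinearMap.add_apply, LinearMap.add_apply, e1, e2, hc.symm (W.subtype m),
      e2, e3]
    simp
  intro x hx y hy
  exact ⟨key b hb h1 (fun w hw => (hW.1 w hw).1) (fun x hx y hy => (hM x hx y hy).1) x hx y hy,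
    key a ha h2 (fun w hw => (hW.1 w hw).2) (fun x hx y hy => (hM x hx y hy).2) x hx y hy⟩

theorem ppr_max {b a : BF V} (hb : IsF b) (ha : IsF a) (v : V)
    (h1 : b v v = 0) (h2 : a v v = 0) (W : Submodule Q V)
    (hW : LineCompl b a v W) (M : Submodule Q W) (hM : MaxNeu (rs b W) (rs a W) M) :
    MaxNeu b a (Submodule.span Q {v} ⊔ M.map W.subtype) := by
  refine ⟨ppr_neu hb ha v h1 h2 W hW M hM.1, fun N hN hle => le_antisymm ?_ hle⟩
  have hvN : v ∈ N := hle (Submodule.mem_sup_left (Submodule.mem_span_singleton_self v))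
  have hMN : N.comap W.subtype = M := by
    refine hM.2 _ ?_ ?_
    · intro x hx y hy
      exact hN _ hx _ hy
    · intro x hx
      exact hle (Submodule.mem_sup_right (Submodule.mem_map_of_mem hx))
  intro y hy
  have h3 := hW.2.2 y (hN v hvN y hy).1 (hN v hvN y hy).2
    (fun q => hN v hvN _ (N.smul_mem q hy))
  rw [Submodule.mem_sup] at h3 ⊢
  obtain ⟨y1, hy1, w, hw, rfl⟩ := h3
  refine ⟨y1, hy1, w, ?_, rfl⟩
  have hy1N : y1 ∈ N := by
    rw [Submodule.mem_span_singleton] at hy1
    obtain ⟨q, rfl⟩ := hy1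
    exact N.smul_mem _ hvN
  have hwN : w ∈ N := by
    have := N.sub_mem hy hy1N
    rwa [add_sub_cancel_left] at this
  have h4 : (⟨w, hw⟩ : W) ∈ M := by
    rw [← hMN]
    exact hwN
  exact ⟨⟨w, hw⟩, h4, rfl⟩

theorem ppr_rank [FiniteDimensional Q V] (v : V) (hv : v ≠ 0) (W : Submodule Q V)
    (hW : Submodule.span Q {v} ⊓ W = ⊥) (M : Submodule Q W) :
    Module.finrank Q (Submodule.span Q {v} ⊔ M.map W.subtype : Submodule Q V) =
      1 + Module.finrank Q M := by
  have h1 := Submodule.finrank_sup_add_finrank_inf_eq (Submodule.span Q {v}) (M.map W.subtype)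
  have h2 : Submodule.span Q {v} ⊓ M.map W.subtype = ⊥ := by
    rw [eq_bot_iff, ← hW]
    exact inf_le_inf le_rfl (Submodule.map_subtype_le W M)
  rw [h2, finrank_bot, add_zero, finrank_span_singleton hv] at h1
  rw [h1, Submodule.finrank_map_subtype_eq]

theorem pp_reduce [FiniteDimensional Q V] {b a : BF V} (hb : IsF b) (ha : IsF a) (v : V)
    (hv : v ≠ 0) (h1 : b v v = 0) (h2 : a v v = 0) (W : Submodule Q V)
    (hW : LineCompl b a v W) (hP : PP b a) : PP (rs b W) (rs a W) := by
  intro M N hM hN
  have h3 := hP _ _ (ppr_max hb ha v h1 h2 W hW M hM) (ppr_max hb ha v h1 h2 W hW N hN)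
  rw [ppr_rank v hv W hW.2.1, ppr_rank v hv W hW.2.1] at h3
  omega
end

section
/-! Pairs of quaternionic hermitian forms.  A right quaternionic space is a module over `Q`, the
opposite of the quaternions.  A quaternionic hermitian form `h` is represented by its real part
`b x y = Re h x y`, a real bilinear symmetric form with `b (q • x) y = b x (star q • y)`.
Subspaces are `Submodule Q V`, dimension is `Module.finrank Q`. -/
open scoped Quaternion
variable {V : Type} [AddCommGroup V] [Module Q V] [Module ℝ V] [IsScalarTower ℝ Q V]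


theorem lineCompl_exists_self {b : BF V} (hb : IsF b) (v : V) (h : b v v = 0) (q : Q) :
    b (q • v) v = 0 := by
  have h1 : b (q • v) v = b (star q • v) v := by
    rw [hb.adj, hb.symm]
  have h2 : q + star q = (2 * q.unop.re) • (1 : Q) := by
    apply MulOpposite.unop_injective
    rw [MulOpposite.unop_add, MulOpposite.unop_star, MulOpposite.unop_smul, MulOpposite.unop_one]
    ext <;> simp [two_mul]
  have h3 : b ((q + star q) • v) v = 0 := by
    rw [h2, smul_assoc, one_smul, map_smul, LinearMap.smul_apply, h, smul_zero]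
  rw [add_smul, map_add, LinearMap.add_apply, ← h1] at h3
  linarith

theorem lineCompl_exists [FiniteDimensional Q V] {b a : BF V} (hb : IsF b) (ha : IsF a) (v : V)
    (hv : v ≠ 0) (h1 : b v v = 0) (h2 : a v v = 0) :
    ∃ W : Submodule Q V, LineCompl b a v W := by
  let L : Submodule Q V := Submodule.span Q {v}
  let O : Submodule Q V := orth b hb L ⊓ orth a ha L
  have hmem : ∀ y, y ∈ O ↔ (∀ x ∈ L, b x y = 0) ∧ (∀ x ∈ L, a x y = 0) := fun y => Iff.rfl
  have hvO : v ∈ O := by
    rw [hmem]
    constructor
    · intro x hx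
      obtain ⟨q, rfl⟩ := Submodule.mem_span_singleton.mp hx
      exact lineCompl_exists_self hb v h1 q
    · intro x hx
      obtain ⟨q, rfl⟩ := Submodule.mem_span_singleton.mp hx
      exact lineCompl_exists_self ha v h2 q
  have hLO : L ≤ O := by
    rw [Submodule.span_singleton_le_iff_mem]
    exact hvO
  obtain ⟨C, hC⟩ := exists_isCompl L
  refine ⟨C ⊓ O, ?_, ?_, ?_⟩
  · intro w hw
    have hwO := (hmem w).mp hw.2
    have hvL : v ∈ L := Submodule.mem_span_singleton_self v
    exact ⟨hwO.1 v hvL, hwO.2 v hvL⟩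
  · show L ⊓ (C ⊓ O) = ⊥
    rw [← inf_assoc, hC.inf_eq_bot, bot_inf_eq]
  · intro y _ _ hy
    show y ∈ L ⊔ (C ⊓ O)
    rw [← sup_inf_assoc_of_le C hLO, hC.sup_eq_top, top_inf_eq, hmem]
    constructor
    · intro x hx
      obtain ⟨q, rfl⟩ := Submodule.mem_span_singleton.mp hx
      rw [hb.adj]
      exact (hy (star q)).1
    · intro x hx
      obtain ⟨q, rfl⟩ := Submodule.mem_span_singleton.mp hx
      rw [ha.adj]
      exact (hy (star q)).2
end

section
/-! Pairs of quaternionic hermitian forms.  A right quaternionic space is a module over `Q`, the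
opposite of the quaternions.  A quaternionic hermitian form `h` is represented by its real part
`b x y = Re h x y`, a real bilinear symmetric form with `b (q • x) y = b x (star q • y)`.
Subspaces are `Submodule Q V`, dimension is `Module.finrank Q`. -/
open scoped Quaternion
variable {V : Type} [AddCommGroup V] [Module Q V] [Module ℝ V] [IsScalarTower ℝ Q V]


theorem big_step_fr [FiniteDimensional Q V] (L T W' : Submodule Q V) (hLT : L ≤ T)
    (hT : T ≤ L ⊔ W') (hd : L ⊓ W' = ⊥) :
    Module.finrank Q T = Module.finrank Q L + Module.finrank Q (W' ⊓ T : Submodule Q V) := by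
  have h1 : L ⊔ W' ⊓ T = T := by
    rw [← sup_inf_assoc_of_le W' hLT]
    exact inf_eq_right.2 hT
  have h2 : L ⊓ (W' ⊓ T) = ⊥ := by
    rw [← inf_assoc, hd, bot_inf_eq]
  have h3 := Submodule.finrank_sup_add_finrank_inf_eq L (W' ⊓ T)
  rw [h1, h2, finrank_bot, add_zero] at h3
  exact h3

theorem big_step_comap [FiniteDimensional Q V] (T W' : Submodule Q V) :
    Module.finrank Q ((W' ⊓ T).comap W'.subtype) = Module.finrank Q (W' ⊓ T : Submodule Q V) :=
  (Submodule.comapSubtypeEquivOfLe (inf_le_left : W' ⊓ T ≤ W')).finrank_eq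

theorem big_step [FiniteDimensional Q V] {b a : BF V} (hb : IsF b) (ha : IsF a)
    (hK : NoRad b a) (W : Submodule Q V) (hW : Big b a W)
    (hmin : ∀ W' : Submodule Q V, Big b a W' → Module.finrank Q W ≤ Module.finrank Q W')
    (h3 : 3 ≤ Module.finrank Q W) (v : V) (hvW : v ∈ W) (hv : v ≠ 0) (hva : ∀ y, a v y = 0)
    (W' : Submodule Q V) (hW' : LineCompl b a v W') :
    NoRad (rs b W') (rs a W') ∧ ∃ U : Submodule Q W', Big (rs b W') (rs a W') U := by
  obtain ⟨i1, i2, i3⟩ := hW'
  have hN := bm4 hb ha W hW hmin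
  set L : Submodule Q V := Submodule.span Q {v} with hL
  have hvL : v ∈ L := Submodule.mem_span_singleton_self v
  have hLW : L ≤ W := (Submodule.span_singleton_le_iff_mem v W).2 hvW
  have hLfr : Module.finrank Q L = 1 := finrank_span_singleton hv
  set P : Submodule Q V := orth b hb L with hPdef
  have hP : ∀ y, y ∈ P ↔ ∀ x ∈ L, b x y = 0 := fun y => Iff.rfl
  have hW'P : W' ≤ P := by
    intro w hw x hx
    obtain ⟨q, rfl⟩ := Submodule.mem_span_singleton.1 hx
    rw [hb.adj]
    exact (i1 _ (W'.smul_mem _ hw)).1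
  have hLP : L ≤ P := fun y hy x hx => (hN x (hLW hx) y (hLW hy)).1
  have hPle : P ≤ L ⊔ W' := by
    intro y hy
    apply i3 y (hy v hvL) (hva y)
    intro q
    refine ⟨?_, hva _⟩
    have h := hb.adj (star q) v y
    rw [star_star] at h
    rw [← h]
    exact hy _ (L.smul_mem _ hvL)
  have haL : ∀ l ∈ L, ∀ y, a l y = 0 := by
    intro l hl y
    obtain ⟨q, rfl⟩ := Submodule.mem_span_singleton.1 hl
    rw [ha.adj]
    exact hva _
  have hPtop : P ≠ ⊤ := by
    intro h
    apply hv
    apply hK v _ hva
    intro y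
    have : y ∈ P := by rw [h]; trivial
    exact this v hvL
  have hPlt : Module.finrank Q P < Module.finrank Q V := Submodule.finrank_lt hPtop
  have hPge := finrank_orth_ge hb L
  rw [hLfr, ← hPdef] at hPge
  have hPfr := big_step_fr L P W' hLP hPle i2
  rw [inf_eq_left.2 hW'P, hLfr] at hPfr
  constructor
  · -- no common kernel
    intro x h1 h2
    by_contra hx
    have hx0 : (x : V) ≠ 0 := fun h => hx (Subtype.ext h)
    have hbx : ∀ u ∈ P, b (x : V) u = 0 := by
      intro u hu
      obtain ⟨l, hl, w, hw, rfl⟩ := Submodule.mem_sup.1 (hPle hu)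
      rw [map_add, hb.symm _ l, hW'P x.2 l hl, zero_add]
      exact h1 ⟨w, hw⟩
    have hax : ∀ u ∈ P, a (x : V) u = 0 := by
      intro u hu
      obtain ⟨l, hl, w, hw, rfl⟩ := Submodule.mem_sup.1 (hPle hu)
      rw [map_add, ha.symm _ l, haL l hl, zero_add]
      exact h2 ⟨w, hw⟩
    set X : Submodule Q V := Submodule.span Q {(x : V)} with hX
    have hXfr : Module.finrank Q X = 1 := finrank_span_singleton hx0
    have hXW : X ≤ W' := (Submodule.span_singleton_le_iff_mem _ _).2 x.2
    have hLX : L ⊓ X = ⊥ := by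
      rw [eq_bot_iff, ← i2]
      exact inf_le_inf_left L hXW
    have hfr := Submodule.finrank_sup_add_finrank_inf_eq L X
    rw [hLX, finrank_bot, hLfr, hXfr] at hfr
    have hbig : Big b a (L ⊔ X) := by
      refine ⟨P, ?_, by omega⟩
      intro w hw u hu
      obtain ⟨l, hl, m, hm, rfl⟩ := Submodule.mem_sup.1 hw
      obtain ⟨q, rfl⟩ := Submodule.mem_span_singleton.1 hm
      constructor
      · rw [map_add, LinearMap.add_apply, hu l hl, hb.adj, hbx _ (P.smul_mem _ hu), add_zero]
      · rw [map_add, LinearMap.add_apply, haL l hl, ha.adj, hax _ (P.smul_mem _ hu), add_zero]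
    have := hmin _ hbig
    omega
  · -- too large orthogonal subspace
    obtain ⟨U0, hU1, hU2⟩ := hW
    have hU3 : ∀ w ∈ W, ∀ u ∈ U0 ⊔ L, b w u = 0 ∧ a w u = 0 := by
      intro w hw u hu
      obtain ⟨u0, hu0, l, hl, rfl⟩ := Submodule.mem_sup.1 hu
      obtain ⟨e1, e2⟩ := hU1 w hw u0 hu0
      obtain ⟨e3, e4⟩ := hN w hw l (hLW hl)
      rw [map_add, map_add, e1, e2, e3, e4]
      simp
    have hUP : U0 ⊔ L ≤ P := fun u hu x hx => (hU3 x (hLW hx) u hu).1
    have hWP : W ≤ P := fun u hu x hx => (hN x (hLW hx) u hu).1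
    have hf1 := big_step_fr L W W' hLW (hWP.trans hPle) i2
    have hf2 := big_step_fr L (U0 ⊔ L) W' le_sup_right (hUP.trans hPle) i2
    have hf3 : Module.finrank Q U0 ≤ Module.finrank Q (U0 ⊔ L : Submodule Q V) :=
      Submodule.finrank_mono le_sup_left
    refine ⟨(W' ⊓ W).comap W'.subtype, (W' ⊓ (U0 ⊔ L)).comap W'.subtype, ?_, ?_⟩
    · intro w hw u hu
      exact hU3 (w : V) hw.2 (u : V) hu.2
    · rw [big_step_comap, big_step_comap]
      omega
end

section
/-! Pairs of quaternionic hermitian forms.  A right quaternionic space is a module over `Q`, the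
opposite of the quaternions.  A quaternionic hermitian form `h` is represented by its real part
`b x y = Re h x y`, a real bilinear symmetric form with `b (q • x) y = b x (star q • y)`.
Subspaces are `Submodule Q V`, dimension is `Module.finrank Q`. -/
open scoped Quaternion
variable {V : Type} [AddCommGroup V] [Module Q V] [Module ℝ V] [IsScalarTower ℝ Q V]


theorem big_two [FiniteDimensional Q V] {b a : BF V} (hb : IsF b) (ha : IsF a)
    (hK : NoRad b a) (W : Submodule Q V) (hW : Big b a W)
    (hmin : ∀ W' : Submodule Q V, Big b a W' → Module.finrank Q W ≤ Module.finrank Q W')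
    (h2 : Module.finrank Q W = 2) : ¬ PP b a := by
  intro hPP
  obtain ⟨U0, hU0, hdim⟩ := id hW
  have hle := bm2 hb ha W hW hmin U0 hU0
  have hneu := bm4 hb ha W hW hmin
  rw [h2] at hdim hle
  have htop : ∀ f, f ∉ U0 → U0 ⊔ Submodule.span Q {f} = ⊤ := by
    intro f hf
    apply Submodule.eq_top_of_finrank_eq
    have hlt : U0 < U0 ⊔ Submodule.span Q {f} := by
      refine lt_of_le_of_ne le_sup_left ?_
      intro heq
      apply hf
      rw [heq]
      exact Submodule.mem_sup_right (Submodule.mem_span_singleton_self f)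
    have h3 := Submodule.finrank_lt_finrank_of_lt hlt
    have h4 := Submodule.finrank_le (U0 ⊔ Submodule.span Q {f})
    omega
  have hext : ∀ (c : BF V), (∀ w ∈ W, ∀ u ∈ U0, c w u = 0) → ∀ f, f ∉ U0 → ∀ w ∈ W,
      (∀ q : Q, c w (q • f) = 0) → ∀ y, c w y = 0 := by
    intro c hc f hf w hw hq y
    have hy : y ∈ U0 ⊔ Submodule.span Q {f} := by rw [htop f hf]; trivial
    obtain ⟨u, hu, v, hv, rfl⟩ := Submodule.mem_sup.mp hy
    obtain ⟨q, rfl⟩ := Submodule.mem_span_singleton.mp hv
    rw [map_add, hc w hw u hu, hq q, add_zero]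
  have hbU : ∀ w ∈ W, ∀ u ∈ U0, b w u = 0 := fun w hw u hu => (hU0 w hw u hu).1
  have haU : ∀ w ∈ W, ∀ u ∈ U0, a w u = 0 := fun w hw u hu => (hU0 w hw u hu).2
  have hWU : W ≤ U0 := by
    intro w hw
    by_contra hwU
    have h3 := hext b hbU w hwU w hw (fun q => (hneu w hw (q • w) (W.smul_mem q hw)).1)
    have h4 := hext a haU w hwU w hw (fun q => (hneu w hw (q • w) (W.smul_mem q hw)).2)
    exact hwU (by rw [hK w h3 h4]; exact U0.zero_mem)
  obtain ⟨f0, hf0⟩ : ∃ f0, f0 ∉ U0 := by
    by_contra hcon
    push Not at hcon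
    have h3 : U0 = ⊤ := by
      rw [eq_top_iff]
      intro y _
      exact hcon y
    rw [h3, finrank_top] at hle
    omega
  obtain ⟨e0, he0W, he0, hae0⟩ := bm3 hb ha W hW 0 1
  obtain ⟨e1, he1W, he1, hbe1⟩ := bm3 hb ha W hW 1 0
  simp only [zero_smul, one_smul, zero_add, add_zero] at hae0 hbe1
  have hadj : ∀ (c : BF V), IsF c → ∀ (q : Q) (x y : V), c (star q • x) y = c x (q • y) := by
    intro c hc q x y
    rw [hc.adj, star_star]
  obtain ⟨u, huW, hau, hbu⟩ : ∃ u ∈ W, (∀ y, a u y = 0) ∧ b u f0 ≠ 0 := by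
    by_contra hcon
    push Not at hcon
    apply he0
    refine hK e0 (hext b hbU f0 hf0 e0 he0W fun q => ?_) hae0
    rw [← hadj b hb q e0 f0]
    exact hcon _ (W.smul_mem _ he0W) (fun y => by rw [hadj a ha q e0 y]; exact hae0 _)
  obtain ⟨v, hvW, hbv, hav⟩ : ∃ v ∈ W, (∀ y, b v y = 0) ∧ a v f0 ≠ 0 := by
    by_contra hcon
    push Not at hcon
    apply he1
    refine hK e1 hbe1 (hext a haU f0 hf0 e1 he1W fun q => ?_)
    rw [← hadj a ha q e1 f0]
    exact hcon _ (W.smul_mem _ he1W) (fun y => by rw [hadj b hb q e1 y]; exact hbe1 _)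
  obtain ⟨f, hfU, hbf, haf⟩ : ∃ f, f ∉ U0 ∧ b f f = 0 ∧ a f f = 0 := by
    have hb1 : ∀ y, b y v = 0 := fun y => by rw [hb.symm]; exact hbv y
    have ha1 : ∀ y, a y u = 0 := fun y => by rw [ha.symm]; exact hau y
    have hbuu : b u u = 0 := (hneu u huW u huW).1
    have havv : a v v = 0 := (hneu v hvW v hvW).2
    refine ⟨f0 + (-(b f0 f0) / (2 * b u f0)) • u + (-(a f0 f0) / (2 * a v f0)) • v, ?_, ?_, ?_⟩
    · intro hmem
      apply hf0
      have h3 : (-(b f0 f0) / (2 * b u f0)) • u ∈ U0 := U0.smul_of_tower_mem _ (hWU huW)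
      have h4 : (-(a f0 f0) / (2 * a v f0)) • v ∈ U0 := U0.smul_of_tower_mem _ (hWU hvW)
      have h5 := U0.sub_mem (U0.sub_mem hmem h4) h3
      rwa [add_sub_cancel_right, add_sub_cancel_right] at h5
    · simp only [map_add, map_smul, LinearMap.add_apply, LinearMap.smul_apply, smul_eq_mul, hbv,
        hb1, hbuu, hb.symm f0 u]
      field_simp
      ring
    · simp only [map_add, map_smul, LinearMap.add_apply, LinearMap.smul_apply, smul_eq_mul, hau,
        ha1, havv, ha.symm f0 v]
      field_simp
      ring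
  have hspan : Neu b a (Submodule.span Q {f}) := by
    intro x hx y hy
    obtain ⟨q, rfl⟩ := Submodule.mem_span_singleton.mp hx
    obtain ⟨s, rfl⟩ := Submodule.mem_span_singleton.mp hy
    constructor
    · rw [hb.adj, smul_smul, (self_smul hb f _).1, hbf, mul_zero]
    · rw [ha.adj, smul_smul, (self_smul ha f _).1, haf, mul_zero]
  obtain ⟨N2, hN2, hfN2⟩ := ext_max b a _ hspan
  have hfN : f ∈ N2 := hfN2 (Submodule.mem_span_singleton_self f)
  have hinf : W ⊓ (N2 ⊓ U0) = ⊥ := by
    rw [eq_bot_iff]
    intro w hw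
    obtain ⟨hwW, hwN, -⟩ := hw
    rw [Submodule.mem_bot]
    exact hK w (hext b hbU f hfU w hwW fun q => (hN2.1 w hwN (q • f) (N2.smul_mem q hfN)).1)
      (hext a haU f hfU w hwW fun q => (hN2.1 w hwN (q • f) (N2.smul_mem q hfN)).2)
  have hN1 : Neu b a (W ⊔ (N2 ⊓ U0)) := by
    intro x hx y hy
    obtain ⟨w, hw, p, hp, rfl⟩ := Submodule.mem_sup.mp hx
    obtain ⟨w', hw', p', hp', rfl⟩ := Submodule.mem_sup.mp hy
    constructor
    · rw [map_add, map_add, LinearMap.add_apply, LinearMap.add_apply, (hneu w hw w' hw').1,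
        hbU w hw p' hp'.2, hb.symm p w', hbU w' hw' p hp.2, (hN2.1 p hp.1 p' hp'.1).1]
      simp
    · rw [map_add, map_add, LinearMap.add_apply, LinearMap.add_apply, (hneu w hw w' hw').2,
        haU w hw p' hp'.2, ha.symm p w', haU w' hw' p hp.2, (hN2.1 p hp.1 p' hp'.1).2]
      simp
  obtain ⟨N1, hN1m, hN1le⟩ := ext_max b a _ hN1
  have hd1 := Submodule.finrank_sup_add_finrank_inf_eq W (N2 ⊓ U0)
  rw [hinf, finrank_bot, h2] at hd1
  have hd2 := Submodule.finrank_sup_add_finrank_inf_eq N2 U0
  have hd3 := Submodule.finrank_le (N2 ⊔ U0)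
  have hd4 := Submodule.finrank_mono hN1le
  have hd5 := hPP N1 N2 hN1m hN2
  omega
end

section
/-! Pairs of quaternionic hermitian forms.  A right quaternionic space is a module over `Q`, the
opposite of the quaternions.  A quaternionic hermitian form `h` is represented by its real part
`b x y = Re h x y`, a real bilinear symmetric form with `b (q • x) y = b x (star q • y)`.
Subspaces are `Submodule Q V`, dimension is `Module.finrank Q`. -/
open scoped Quaternion
variable {V : Type} [AddCommGroup V] [Module Q V] [Module ℝ V] [IsScalarTower ℝ Q V]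


theorem big_fails (n : ℕ) : ∀ (V : Type) [AddCommGroup V] [Module Q V] [Module ℝ V]
    [IsScalarTower ℝ Q V] [FiniteDimensional Q V], Module.finrank Q V = n →
    ∀ (b a : BF V), IsF b → IsF a → NoRad b a → (∃ W : Submodule Q V, Big b a W) →
    ¬ PP b a := by
  induction n using Nat.strong_induction_on with
  | _ n ih =>
    intro V _ _ _ _ _ hn b a hb ha hK hex0 hP
    obtain ⟨W0, hW0⟩ := hex0
    classical
    obtain ⟨W, hW, hmin⟩ : ∃ W : Submodule Q V, Big b a W ∧
        ∀ W' : Submodule Q V, Big b a W' → Module.finrank Q W ≤ Module.finrank Q W' := by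
      have hex : ∃ k, ∃ W : Submodule Q V, Big b a W ∧ Module.finrank Q W = k :=
        ⟨_, W0, hW0, rfl⟩
      obtain ⟨W, hW, hk⟩ := Nat.find_spec hex
      exact ⟨W, hW, fun W' hW' => by rw [hk]; exact Nat.find_min' hex ⟨W', hW', rfl⟩⟩
    have h2 := bm1 hb ha hK W hW
    rcases Nat.lt_or_ge 2 (Module.finrank Q W) with h3 | h3
    · obtain ⟨v, hvW, hv, hva⟩ := bm3 hb ha W hW 0 1
      have hva' : ∀ y, a v y = 0 := by
        intro y
        simpa using hva y
      have hN := bm4 hb ha W hW hmin
      have hbv := (hN v hvW v hvW).1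
      have hav := hva' v
      obtain ⟨W', hW'⟩ := lineCompl_exists hb ha v hv hbv hav
      obtain ⟨hK', hU⟩ := big_step hb ha hK W hW hmin h3 v hvW hv hva' W' hW'
      have hlt : Module.finrank Q W' < n := by
        rw [← hn]
        apply Submodule.finrank_lt
        intro htop
        have h5 : v ∈ Submodule.span Q {v} ⊓ W' := by
          refine ⟨Submodule.mem_span_singleton_self v, ?_⟩
          rw [htop]
          exact Submodule.mem_top
        rw [hW'.2.1] at h5
        exact hv ((Submodule.mem_bot Q).1 h5)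
      exact ih _ hlt W' rfl (rs b W') (rs a W') (isF_rs hb W') (isF_rs ha W') hK' hU
        (pp_reduce hb ha v hv hbv hav W' hW' hP)
    · exact big_two hb ha hK W hW hmin (le_antisymm h3 h2) hP
end

section
/-! Pairs of quaternionic hermitian forms.  A right quaternionic space is a module over `Q`, the
opposite of the quaternions.  A quaternionic hermitian form `h` is represented by its real part
`b x y = Re h x y`, a real bilinear symmetric form with `b (q • x) y = b x (star q • y)`.
Subspaces are `Submodule Q V`, dimension is `Module.finrank Q`. -/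
open scoped Quaternion
variable {V : Type} [AddCommGroup V] [Module Q V] [Module ℝ V] [IsScalarTower ℝ Q V]


theorem singular_fails [FiniteDimensional Q V] {b a : BF V} (hb : IsF b) (ha : IsF a)
    (hK : NoRad b a) (h : ∀ μ ν : ℝ, ¬ Nd (μ • b + ν • a)) : ¬ PP b a :=
  big_fails (Module.finrank Q V) V rfl b a hb ha hK (big_exists hb ha h)

/-! ### reduction modulo the common kernel -/
end

end Pool.QN
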