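import Pool.Agent.Helper9.QN.Defs

set_option autoImplicit false
set_option maxHeartbeats 1000000

namespace Pool.QN

section
/-! Pairs of quaternionic hermitian forms.  A right quaternionic space is a module over `Q`, the
opposite of the quaternions.  A quaternionic hermitian form `h` is represented by its real part
`b x y = Re h x y`, a real bilinear symmetric form with `b (q • x) y = b x (star q • y)`.
Subspaces are `Submodule Q V`, dimension is `Module.finrank Q`. -/
open scoped Quaternion
variable {V : Type} [AddCommGroup V] [Module Q V] [Module ℝ V] [IsScalarTower ℝ Q V]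


theorem shape_II (r1 r2 : ℝ) (h12 : r1 < r2) (P : Piece)
    (h : idx ((Polynomial.X - Polynomial.C r1) * (Polynomial.X - Polynomial.C r2)) P = 0)
    (hs : ∀ r s, P = Piece.cx r s → s ≠ 0) : shII r1 r2 P := by
  set m : Polynomial ℝ := (Polynomial.X - Polynomial.C r1) * (Polynomial.X - Polynomial.C r2)
    with hm
  have he : ∀ x, m.eval x = (x - r1) * (x - r2) := by
    intro x; simp [hm]
  have hd : ∀ x, m.derivative.eval x = (x - r2) + (x - r1) := by
    intro x; simp [hm, Polynomial.derivative_mul]
  have hroot : ∀ x, m.eval x = 0 → x = r1 ∨ x = r2 := by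
    intro x hx
    rw [he] at hx
    rcases mul_eq_zero.mp hx with h1 | h1
    · left; linarith
    · right; linarith
  cases P with
  | ray e x =>
    have h1 : ¬ (sg e * m.eval x < 0) := by
      intro hc
      have : idx m (Piece.ray e x) = 1 := if_pos hc
      rw [this] at h
      exact one_ne_zero h
    rw [he] at h1
    cases e with
    | true =>
      have h2 : sg true = 1 := if_pos rfl
      rw [h2, one_mul] at h1
      change x ≤ r1 ∨ r2 ≤ x
      by_contra hc
      push Not at hc
      exact h1 (mul_neg_of_pos_of_neg (by linarith) (by linarith))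
    | false =>
      have h2 : sg false = -1 := rfl
      rw [h2] at h1
      change r1 ≤ x ∧ x ≤ r2
      constructor
      · by_contra hc
        push Not at hc
        exact h1 (by nlinarith [mul_pos_of_neg_of_neg (by linarith : x - r1 < 0) (by linarith : x - r2 < 0)])
      · by_contra hc
        push Not at hc
        exact h1 (by nlinarith [mul_pos (by linarith : 0 < x - r1) (by linarith : 0 < x - r2)])
  | cx r s =>
    exfalso
    have h1 : cval m r s = 0 := by
      by_contra hc
      have : idx m (Piece.cx r s) = 1 := if_neg hc
      rw [this] at h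
      exact one_ne_zero h
    unfold cval at h1
    rw [hm, map_mul, map_sub, map_sub, Polynomial.aeval_X, Polynomial.aeval_C,
      Polynomial.aeval_C] at h1
    have hs' := hs r s rfl
    rcases mul_eq_zero.mp h1 with h2 | h2
    · have := congrArg Complex.im h2
      simp at this
      exact hs' this
    · have := congrArg Complex.im h2
      simp at this
      exact hs' this
  | b2 e r =>
    have h1 : m.eval r = 0 := by
      by_contra hc
      have : idx m (Piece.b2 e r) = 1 := if_neg hc
      rw [this] at h
      exact one_ne_zero h
    have h2 : ¬ (sg e * m.derivative.eval r < 0) := by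
      intro hc
      have : idx m (Piece.b2 e r) = 1 := (if_pos h1).trans (if_pos hc)
      rw [this] at h
      exact one_ne_zero h
    rw [hd] at h2
    cases e with
    | true =>
      have h3 : sg true = 1 := if_pos rfl
      rw [h3, one_mul] at h2
      change r = r2
      rcases hroot r h1 with h4 | h4
      · exfalso; apply h2; rw [h4]; linarith
      · exact h4
    | false =>
      have h3 : sg false = -1 := rfl
      rw [h3] at h2
      change r = r1
      rcases hroot r h1 with h4 | h4
      · exact h4
      · exfalso; apply h2; rw [h4]; linarith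
  | b3 r =>
    exfalso
    change (if 0 < m.eval r then 1 else if m.eval r < 0 then 2 else
      if m.derivative.eval r = 0 then (if m.derivative.derivative.eval r < 0 then 1 else 0)
        else 1) = 0 at h
    split_ifs at h with c1 c2 c3 c4
    · have h5 : m.eval r = 0 := le_antisymm (not_lt.mp c1) (not_lt.mp c2)
      rw [hd] at c3
      rcases hroot r h5 with h4 | h4 <;> rw [h4] at c3 <;> linarith
end

section
/-! Pairs of quaternionic hermitian forms.  A right quaternionic space is a module over `Q`, the
opposite of the quaternions.  A quaternionic hermitian form `h` is represented by its real part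
`b x y = Re h x y`, a real bilinear symmetric form with `b (q • x) y = b x (star q • y)`.
Subspaces are `Submodule Q V`, dimension is `Module.finrank Q`. -/
open scoped Quaternion
variable {V : Type} [AddCommGroup V] [Module Q V] [Module ℝ V] [IsScalarTower ℝ Q V]


theorem shape_III (r : ℝ) (P : Piece)
    (h : idx ((Polynomial.X - Polynomial.C r) * (Polynomial.X - Polynomial.C r)) P = 0)
    (hs : ∀ r s, P = Piece.cx r s → s ≠ 0) : shIII r P := by
  have hev : ∀ x : ℝ, ((Polynomial.X - Polynomial.C r) *
      (Polynomial.X - Polynomial.C r) : Polynomial ℝ).eval x = (x - r) ^ 2 := by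
    intro x
    rw [Polynomial.eval_mul, Polynomial.eval_sub, Polynomial.eval_X, Polynomial.eval_C]
    ring
  cases P with
  | ray e x =>
    cases e with
    | true => exact trivial
    | false =>
      show x = r
      have h2 : (if sg false * ((Polynomial.X - Polynomial.C r) *
        (Polynomial.X - Polynomial.C r) : Polynomial ℝ).eval x < 0 then 1 else 0 : ℕ) = 0 := h
      by_contra hne
      have h3 : 0 < (x - r) ^ 2 := by
        have : x - r ≠ 0 := sub_ne_zero.mpr hne
        positivity
      have h4 : sg false * ((Polynomial.X - Polynomial.C r) *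
        (Polynomial.X - Polynomial.C r) : Polynomial ℝ).eval x < 0 := by
        rw [hev]
        unfold sg
        rw [if_neg (by simp)]
        linarith
      rw [if_pos h4] at h2
      exact absurd h2 one_ne_zero
  | cx a s =>
    show False
    have h2 : (if cval ((Polynomial.X - Polynomial.C r) *
      (Polynomial.X - Polynomial.C r)) a s = 0 then 0 else 1 : ℕ) = 0 := h
    have h3 : cval ((Polynomial.X - Polynomial.C r) *
      (Polynomial.X - Polynomial.C r)) a s = 0 := by
      by_contra hne
      rw [if_neg hne] at h2
      exact absurd h2 one_ne_zero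
    have hs0 := hs a s rfl
    unfold cval at h3
    rw [map_mul, map_sub, Polynomial.aeval_X, Polynomial.aeval_C, mul_self_eq_zero] at h3
    have h4 := congrArg Complex.im h3
    simp at h4
    exact hs0 h4
  | b2 e x =>
    show x = r
    have h2 : (if ((Polynomial.X - Polynomial.C r) *
      (Polynomial.X - Polynomial.C r) : Polynomial ℝ).eval x = 0 then
        (if sg e * ((Polynomial.X - Polynomial.C r) *
      (Polynomial.X - Polynomial.C r) : Polynomial ℝ).derivative.eval x < 0 then 1 else 0)
        else 1 : ℕ) = 0 := h
    by_contra hne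
    have h3 : ¬ ((Polynomial.X - Polynomial.C r) *
      (Polynomial.X - Polynomial.C r) : Polynomial ℝ).eval x = 0 := by
      rw [hev]
      exact pow_ne_zero 2 (sub_ne_zero.mpr hne)
    rw [if_neg h3] at h2
    exact absurd h2 one_ne_zero
  | b3 x =>
    show x = r
    by_contra hne
    have h3 : 0 < ((Polynomial.X - Polynomial.C r) *
      (Polynomial.X - Polynomial.C r) : Polynomial ℝ).eval x := by
      rw [hev]
      have : x - r ≠ 0 := sub_ne_zero.mpr hne
      positivity
    have h5 : idx ((Polynomial.X - Polynomial.C r) *
      (Polynomial.X - Polynomial.C r)) (Piece.b3 x) = 1 := if_pos h3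
    rw [h5] at h
    exact absurd h one_ne_zero
end

section
/-! Pairs of quaternionic hermitian forms.  A right quaternionic space is a module over `Q`, the
opposite of the quaternions.  A quaternionic hermitian form `h` is represented by its real part
`b x y = Re h x y`, a real bilinear symmetric form with `b (q • x) y = b x (star q • y)`.
Subspaces are `Submodule Q V`, dimension is `Module.finrank Q`. -/
open scoped Quaternion
variable {V : Type} [AddCommGroup V] [Module Q V] [Module ℝ V] [IsScalarTower ℝ Q V]


theorem shape_I (p q : ℝ) (hd : p ^ 2 < 4 * q) (P : Piece)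
    (h : idx (Polynomial.X ^ 2 + Polynomial.C p * Polynomial.X + Polynomial.C q) P = 0)
    (hs : ∀ r s, P = Piece.cx r s → s ≠ 0) : shI p q P := by
  have hpos : ∀ x : ℝ, 0 < (Polynomial.X ^ 2 + Polynomial.C p * Polynomial.X +
      Polynomial.C q : Polynomial ℝ).eval x := by
    intro x
    simp only [Polynomial.eval_add, Polynomial.eval_pow, Polynomial.eval_X, Polynomial.eval_mul,
      Polynomial.eval_C]
    nlinarith [sq_nonneg (x + p / 2)]
  cases P with
  | ray e x =>
    cases e with
    | true => trivial
    | false =>
      exfalso
      have h1 := hpos x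
      have hsg : sg false = -1 := rfl
      have h2 : sg false * (Polynomial.X ^ 2 + Polynomial.C p * Polynomial.X +
        Polynomial.C q : Polynomial ℝ).eval x < 0 := by rw [hsg]; linarith
      simp only [idx, if_pos h2] at h
      exact absurd h (by norm_num)
  | cx r s =>
    refine ⟨hs r s rfl, ?_⟩
    by_contra hc
    simp only [idx, if_neg hc] at h
    exact absurd h (by norm_num)
  | b2 e r =>
    exfalso
    have h1 := (hpos r).ne'
    simp only [idx, if_neg h1] at h
    exact absurd h (by norm_num)
  | b3 r =>
    exfalso
    have h1 := hpos r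
    simp only [idx, if_pos h1] at h
    exact absurd h (by norm_num)
end

section
/-! Pairs of quaternionic hermitian forms.  A right quaternionic space is a module over `Q`, the
opposite of the quaternions.  A quaternionic hermitian form `h` is represented by its real part
`b x y = Re h x y`, a real bilinear symmetric form with `b (q • x) y = b x (star q • y)`.
Subspaces are `Submodule Q V`, dimension is `Module.finrank Q`. -/
open scoped Quaternion
variable {V : Type} [AddCommGroup V] [Module Q V] [Module ℝ V] [IsScalarTower ℝ Q V]

theorem sum_lemma_aux (L : List Piece) (ell h : Polynomial ℝ) (w : Piece → ℤ)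
    (hp : ∀ P ∈ L, (idx (ell * h) P : ℤ) + (idx 1 P : ℤ) + w P ≤ (idx ell P : ℤ)) :
    (tot (ell * h) L : ℤ) + (tot 1 L : ℤ) + ws w L ≤ (tot ell L : ℤ) := by
  induction L with
  | nil => simp [tot, ws]
  | cons P L ih =>
    have h1 := ih (fun Q hQ => hp Q (List.mem_cons_of_mem _ hQ))
    have h2 := hp P List.mem_cons_self
    simp only [tot, ws, List.map_cons, List.sum_cons, Nat.cast_add] at h1 ⊢
    linarith

theorem sum_lemma (L : List Piece) (ell h : Polynomial ℝ) (w : Piece → ℤ)
    (hp : ∀ P ∈ L, (idx (ell * h) P : ℤ) + (idx 1 P : ℤ) + w P ≤ (idx ell P : ℤ))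
    (hw : 0 ≤ ws w L) : tot (ell * h) L + tot 1 L ≤ tot ell L := by
  have h1 := sum_lemma_aux L ell h w hp
  have h2 : (tot (ell * h) L : ℤ) + (tot 1 L : ℤ) ≤ (tot ell L : ℤ) := by linarith
  exact_mod_cast h2
end

section
/-! Pairs of quaternionic hermitian forms.  A right quaternionic space is a module over `Q`, the
opposite of the quaternions.  A quaternionic hermitian form `h` is represented by its real part
`b x y = Re h x y`, a real bilinear symmetric form with `b (q • x) y = b x (star q • y)`.
Subspaces are `Submodule Q V`, dimension is `Module.finrank Q`. -/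
open scoped Quaternion
variable {V : Type} [AddCommGroup V] [Module Q V] [Module ℝ V] [IsScalarTower ℝ Q V]


theorem lcI_pos (p q : ℝ) (hd : p ^ 2 < 4 * q) (x : ℝ) :
    0 < (Polynomial.X ^ 2 + Polynomial.C p * Polynomial.X + Polynomial.C q : Polynomial ℝ).eval x := by
  simp only [Polynomial.eval_add, Polynomial.eval_mul, Polynomial.eval_pow, Polynomial.eval_X,
    Polynomial.eval_C]
  nlinarith [sq_nonneg (2 * x + p)]

theorem lcI_core (p q : ℝ) (hd : p ^ 2 < 4 * q) (L : List Piece) (hL : ∀ P ∈ L, shI p q P)
    (ell : Polynomial ℝ) (hell : ∀ r s : ℝ, s ≠ 0 → cval ell r s ≠ 0) :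
    tot (ell * (Polynomial.X ^ 2 + Polynomial.C p * Polynomial.X + Polynomial.C q)) L + tot 1 L
      ≤ tot ell L := by
  apply sum_lemma L ell _ (fun _ => 0)
  · intro P hP
    have hsh := hL P hP
    cases P with
    | ray e x =>
      cases e with
      | false => exact absurd hsh (by simp [shI])
      | true =>
        have h1 := lcI_pos p q hd x
        have e1 : idx 1 (Piece.ray true x) = 0 := by
          simp [idx, sg]
        have e2 : idx (ell * (Polynomial.X ^ 2 + Polynomial.C p * Polynomial.X + Polynomial.C q))
            (Piece.ray true x) = idx ell (Piece.ray true x) := by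
          simp only [idx, sg, if_true, one_mul, Polynomial.eval_mul]
          congr 1
          exact propext ⟨fun h => by
            by_contra hc
            push Not at hc
            exact absurd h (not_lt.2 (mul_nonneg hc h1.le)), fun h => mul_neg_of_neg_of_pos h h1⟩
        rw [e1, e2]
        simp
    | cx r s =>
      obtain ⟨hs, hc⟩ := hsh
      have e1 : idx (ell * (Polynomial.X ^ 2 + Polynomial.C p * Polynomial.X + Polynomial.C q))
          (Piece.cx r s) = 0 := by
        have : cval (ell * (Polynomial.X ^ 2 + Polynomial.C p * Polynomial.X + Polynomial.C q)) r s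
            = 0 := by
          unfold cval at hc ⊢
          rw [map_mul, hc, mul_zero]
        simp only [idx]
        rw [if_pos this]
      have e2 : idx 1 (Piece.cx r s) = 1 := by
        have : cval 1 r s ≠ 0 := by
          unfold cval
          rw [map_one]
          exact one_ne_zero
        simp only [idx]
        rw [if_neg this]
      have e3 : idx ell (Piece.cx r s) = 1 := by
        simp only [idx]
        rw [if_neg (hell r s hs)]
      rw [e1, e2, e3]
      simp
    | b2 e r => exact absurd hsh (by simp [shI])
    | b3 r => exact absurd hsh (by simp [shI])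
  · simp [ws]

theorem lcI_cval_C (σ : ℝ) (hσ : σ ≠ 0) (r s : ℝ) : cval (Polynomial.C σ) r s ≠ 0 := by
  unfold cval
  rw [Polynomial.aeval_C]
  simpa using hσ

theorem lcI_cval_lin (t : ℝ) (r s : ℝ) (hs : s ≠ 0) :
    cval (Polynomial.X - Polynomial.C t) r s ≠ 0 := by
  unfold cval
  rw [map_sub, Polynomial.aeval_X, Polynomial.aeval_C]
  intro h
  have := congrArg Complex.im h
  simp at this
  exact hs this

theorem lcrit_I (p q : ℝ) (hd : p ^ 2 < 4 * q) (L : List Piece) (hL : ∀ P ∈ L, shI p q P) :
    LCrit L := by
  have hσ0 : ∀ σ : ℝ, σ = 1 ∨ σ = -1 → σ ≠ 0 := by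
    rintro σ (h | h) <;> rw [h] <;> norm_num
  refine ⟨?_, ?_⟩
  · intro σ hσ
    refine ⟨Polynomial.X ^ 2 + Polynomial.C p * Polynomial.X + Polynomial.C q, ?_, ?_, ?_⟩
    · compute_degree
    · simp [Polynomial.coeff_X, Polynomial.coeff_C]
    · exact lcI_core p q hd L hL _ (fun r s _ => lcI_cval_C σ (hσ0 σ hσ) r s)
  · intro σ t hσ _
    refine ⟨Polynomial.X ^ 2 + Polynomial.C p * Polynomial.X + Polynomial.C q, ?_, ?_, ?_⟩
    · compute_degree
    · exact lcI_pos p q hd t
    · refine lcI_core p q hd L hL _ (fun r s hs => ?_)
      have h1 := lcI_cval_C σ (hσ0 σ hσ) r s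
      have h2 := lcI_cval_lin t r s hs
      unfold cval at h1 h2 ⊢
      rw [map_mul]
      exact mul_ne_zero h1 h2
end

section
/-! Pairs of quaternionic hermitian forms.  A right quaternionic space is a module over `Q`, the
opposite of the quaternions.  A quaternionic hermitian form `h` is represented by its real part
`b x y = Re h x y`, a real bilinear symmetric form with `b (q • x) y = b x (star q • y)`.
Subspaces are `Submodule Q V`, dimension is `Module.finrank Q`. -/
open scoped Quaternion
variable {V : Type} [AddCommGroup V] [Module Q V] [Module ℝ V] [IsScalarTower ℝ Q V]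


/-- pointwise inequality, `h = (X-r)²`, no weight needed -/
theorem pw_III_g (r : ℝ) (P : Piece) (hP : shIII r P) (ell : Polynomial ℝ)
    (he : 0 < ell.eval r) :
    (idx (ell * ((Polynomial.X - Polynomial.C r) * (Polynomial.X - Polynomial.C r))) P : ℤ)
      + (idx 1 P : ℤ) + 0 ≤ (idx ell P : ℤ) := by
  obtain ⟨m, hm⟩ : ∃ m, m = ell * ((Polynomial.X - Polynomial.C r) *
    (Polynomial.X - Polynomial.C r)) := ⟨_, rfl⟩
  have e0 : ∀ x, m.eval x = ell.eval x * ((x - r) * (x - r)) := by
    intro x
    rw [hm]
    simp
  have e1 : m.derivative.eval r = 0 := by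
    rw [hm]
    simp
  have e2 : m.derivative.derivative.eval r = 2 * ell.eval r := by
    rw [hm]
    simp
    ring
  have e00 : m.eval r = 0 := by rw [e0]; ring
  rw [← hm]
  match P, hP with
  | Piece.ray true x, _ =>
    have h1 : idx 1 (Piece.ray true x) = 0 := by
      unfold idx sg
      simp
    rw [h1]
    unfold idx sg
    simp only [if_true, one_mul, e0]
    by_cases hx : ell.eval x < 0
    · rw [if_pos hx]
      split_ifs <;> simp
    · rw [if_neg hx, if_neg]
      · simp
      · push Not at hx ⊢
        exact mul_nonneg hx (mul_self_nonneg _)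
  | Piece.ray false z, hz =>
    have hz' : z = r := hz
    subst hz'
    unfold idx sg
    simp [e00, he]
  | Piece.b2 e x, hx =>
    have hx' : x = r := hx
    subst hx'
    unfold idx
    simp [e00, e1, he.ne']
  | Piece.b3 x, hx =>
    have hx' : x = r := hx
    subst hx'
    unfold idx
    have : ¬ (2 * ell.eval x < 0) := by linarith
    simp [e00, e1, e2, he, this]
  | Piece.cx _ _, h => exact absurd h id
end

section
/-! Pairs of quaternionic hermitian forms.  A right quaternionic space is a module over `Q`, the
opposite of the quaternions.  A quaternionic hermitian form `h` is represented by its real part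
`b x y = Re h x y`, a real bilinear symmetric form with `b (q • x) y = b x (star q • y)`.
Subspaces are `Submodule Q V`, dimension is `Module.finrank Q`. -/
open scoped Quaternion
variable {V : Type} [AddCommGroup V] [Module Q V] [Module ℝ V] [IsScalarTower ℝ Q V]


theorem pw_III_g1 (r : ℝ) (P : Piece) (hP : shIII r P) (ell : Polynomial ℝ)
    (he : ell.eval r < 0) :
    (idx (ell * ((Polynomial.X - Polynomial.C r) * (Polynomial.X - Polynomial.C r))) P : ℤ)
      + (idx 1 P : ℤ) + wC1 r P ≤ (idx ell P : ℤ) := by
  have h0 : (ell * ((Polynomial.X - Polynomial.C r) * (Polynomial.X - Polynomial.C r))).eval r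
      = 0 := by simp
  have h1 : (Polynomial.derivative
      (ell * ((Polynomial.X - Polynomial.C r) * (Polynomial.X - Polynomial.C r)))).eval r
      = 0 := by simp
  have h2 : (Polynomial.derivative (Polynomial.derivative
      (ell * ((Polynomial.X - Polynomial.C r) * (Polynomial.X - Polynomial.C r))))).eval r
      = 2 * ell.eval r := by
    simp; ring
  rcases P with ⟨e, x⟩ | ⟨a, s⟩ | ⟨e, x⟩ | x
  · cases e with
    | true =>
      have hx0 : (ell * ((Polynomial.X - Polynomial.C r) * (Polynomial.X - Polynomial.C r))).eval x
          = ell.eval x * (x - r) ^ 2 := by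
        simp only [Polynomial.eval_mul, Polynomial.eval_sub, Polynomial.eval_X, Polynomial.eval_C]
        ring
      by_cases hx : x = r
      · subst hx
        simp only [idx, sg, wC1, h0]
        have hno : ¬ ((1:ℝ) < 0) := by norm_num
        simp [he, hno]
      · have hpos : 0 < (x - r) ^ 2 := by
          have : x - r ≠ 0 := sub_ne_zero.2 hx
          positivity
        simp only [idx, sg, wC1, hx0]
        have hiff : (ell.eval x * (x - r) ^ 2 < 0) ↔ ell.eval x < 0 := by
          constructor
          · intro h
            by_contra hc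
            push Not at hc
            exact absurd h (not_lt.2 (mul_nonneg hc hpos.le))
          · intro h
            exact mul_neg_of_neg_of_pos h hpos
        simp [hx, hiff]
        norm_num
    | false =>
      have hx : x = r := hP
      subst hx
      simp only [idx, sg, wC1, h0]
      have : ¬ (0 < ell.eval x) := not_lt.2 he.le
      simp
      split_ifs <;> simp
  · exact absurd hP (by simp [shIII])
  · have hx : x = r := by cases e <;> exact hP
    subst hx
    simp only [idx, wC1, h0, h1]
    simp [he.ne]
  · have hx : x = r := hP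
    subst hx
    simp only [idx, wC1, h0, h1, h2]
    have : ¬ (0 < ell.eval x) := not_lt.2 he.le
    have h3 : 2 * ell.eval x < 0 := by linarith
    simp [he, this, h3]
end

section
/-! Pairs of quaternionic hermitian forms.  A right quaternionic space is a module over `Q`, the
opposite of the quaternions.  A quaternionic hermitian form `h` is represented by its real part
`b x y = Re h x y`, a real bilinear symmetric form with `b (q • x) y = b x (star q • y)`.
Subspaces are `Submodule Q V`, dimension is `Module.finrank Q`. -/
open scoped Quaternion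
variable {V : Type} [AddCommGroup V] [Module Q V] [Module ℝ V] [IsScalarTower ℝ Q V]


/-- `h` positive left of `r` (and where `ell > 0`), simple zero at `r`, negative to the right -/
theorem pw_III_b (r : ℝ) (P : Piece) (hP : shIII r P) (ell h : Polynomial ℝ)
    (he : ∀ x, r ≤ x → ell.eval x < 0) (hr : h.eval r = 0) (hd : h.derivative.eval r < 0)
    (hpos : ∀ x, x < r → 0 < h.eval x)
    (hneg : ∀ x, r < x → P = Piece.ray true x → h.eval x < 0) :
    (idx (ell * h) P : ℤ) + (idx 1 P : ℤ) + wC2 r P ≤ (idx ell P : ℤ) := by
  have er := he r le_rfl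
  have m0 : (ell * h).eval r = 0 := by
    rw [Polynomial.eval_mul, hr, mul_zero]
  have m1 : 0 < (ell * h).derivative.eval r := by
    rw [Polynomial.derivative_mul, Polynomial.eval_add, Polynomial.eval_mul, Polynomial.eval_mul, hr,
      mul_zero, zero_add]
    exact mul_pos_of_neg_of_neg er hd
  cases P with
  | ray e x =>
    cases e with
    | true =>
      simp only [idx, sg, wC2, Polynomial.eval_mul, Polynomial.eval_one, if_true, one_mul]
      have k1 : ¬ ((1 : ℝ) < 0) := by norm_num
      rw [if_neg k1]
      rcases lt_trichotomy x r with hx | hx | hx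
      · have h1 := hpos x hx
        rw [if_neg (not_le.mpr hx)]
        by_cases h2 : ell.eval x < 0
        · rw [if_pos h2]
          split_ifs <;> norm_num
        · rw [if_neg h2, if_neg]
          · norm_num
          · rw [not_lt]
            rw [not_lt] at h2
            exact mul_nonneg h2 h1.le
      · subst hx
        rw [hr, mul_zero, if_neg (lt_irrefl _), if_pos le_rfl, if_pos er]
        norm_num
      · have h1 := hneg x hx rfl
        have h2 := he x hx.le
        rw [if_pos hx.le, if_pos h2, if_neg]
        · norm_num
        · rw [not_lt]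
          exact (mul_pos_of_neg_of_neg h2 h1).le
    | false =>
      have hx : x = r := hP
      subst hx
      simp only [idx, sg, wC2, Polynomial.eval_one]
      rw [m0]
      have k1 : ((-1 : ℝ) * 1 < 0) := by norm_num
      have k2 : ¬ ((-1 : ℝ) * ell.eval x < 0) := by
        rw [not_lt]
        linarith
      simp only [Bool.false_eq_true, if_false]
      rw [if_pos k1, if_neg k2, mul_zero, if_neg (lt_irrefl _)]
      norm_num
  | cx x y => exact absurd hP (by simp [shIII])
  | b2 e x =>
    have hx : x = r := hP
    subst hx
    cases e with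
    | true =>
      simp only [idx, sg, wC2, Polynomial.eval_one, if_true, one_mul]
      rw [if_pos m0, if_neg (not_lt.mpr m1.le), if_neg one_ne_zero, if_neg er.ne]
      norm_num
    | false =>
      simp only [idx, sg, wC2, Polynomial.eval_one, Bool.false_eq_true, if_false]
      rw [if_pos m0, if_neg one_ne_zero, if_neg er.ne]
      split_ifs <;> norm_num
  | b3 x =>
    have hx : x = r := hP
    subst hx
    simp only [idx, wC2, Polynomial.eval_one]
    rw [m0, if_neg (lt_irrefl _), if_neg (lt_irrefl _), if_neg m1.ne', if_pos one_pos,
      if_neg (not_lt.mpr er.le), if_pos er]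
    norm_num
end

section
/-! Pairs of quaternionic hermitian forms.  A right quaternionic space is a module over `Q`, the
opposite of the quaternions.  A quaternionic hermitian form `h` is represented by its real part
`b x y = Re h x y`, a real bilinear symmetric form with `b (q • x) y = b x (star q • y)`.
Subspaces are `Submodule Q V`, dimension is `Module.finrank Q`. -/
open scoped Quaternion
variable {V : Type} [AddCommGroup V] [Module Q V] [Module ℝ V] [IsScalarTower ℝ Q V]


theorem pw_III_c (r : ℝ) (P : Piece) (hP : shIII r P) (ell h : Polynomial ℝ)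
    (he : ∀ x, x ≤ r → ell.eval x < 0) (hr : h.eval r = 0) (hd : 0 < h.derivative.eval r)
    (hpos : ∀ x, r < x → 0 < h.eval x)
    (hneg : ∀ x, x < r → P = Piece.ray true x → h.eval x < 0) :
    (idx (ell * h) P : ℤ) + (idx 1 P : ℤ) + wC3 r P ≤ (idx ell P : ℤ) := by
  have her : ell.eval r < 0 := he r le_rfl
  have hm0 : (ell * h).eval r = 0 := by rw [Polynomial.eval_mul, hr, mul_zero]
  have hm1 : (ell * h).derivative.eval r < 0 := by
    rw [Polynomial.derivative_mul, Polynomial.eval_add, Polynomial.eval_mul, Polynomial.eval_mul,
      hr, mul_zero, zero_add]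
    exact mul_neg_of_neg_of_pos her hd
  have h11 : (1 : Polynomial ℝ).eval r = 1 := Polynomial.eval_one
  rcases P with ⟨e, x⟩ | ⟨u, s⟩ | ⟨e, x⟩ | x
  · cases e
    · -- ray false
      have hx : x = r := hP
      subst hx
      simp only [idx, wC3, sg, hm0, h11]
      norm_num
      split_ifs <;> norm_num
    · -- ray true
      simp only [idx, wC3, sg, if_true, one_mul, Polynomial.eval_mul, Polynomial.eval_one]
      rcases lt_trichotomy x r with hx | hx | hx
      · have h1 := hneg x hx rfl
        have h2 := he x hx.le
        have h3 : ¬ (ell.eval x * h.eval x < 0) := not_lt.2 (mul_pos_of_neg_of_neg h2 h1).le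
        rw [if_neg h3, if_neg (by norm_num : ¬ ((1:ℝ) < 0)), if_pos hx.le, if_pos h2]
        norm_num
      · subst hx
        rw [hr, mul_zero, if_neg (lt_irrefl _), if_neg (by norm_num : ¬ ((1:ℝ) < 0)),
          if_pos le_rfl, if_pos her]
        norm_num
      · have h1 := hpos x hx
        rw [if_neg (by norm_num : ¬ ((1:ℝ) < 0)), if_neg (not_le.2 hx)]
        by_cases h2 : ell.eval x < 0
        · rw [if_pos h2, if_pos (mul_neg_of_neg_of_pos h2 h1)]
          norm_num
        · rw [if_neg h2, if_neg (not_lt.2 (mul_nonneg (not_lt.1 h2) h1.le))]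
          norm_num
  · exact hP.elim
  · have hx : x = r := hP
    subst hx
    cases e
    · simp only [idx, wC3, sg, hm0, h11]
      have h2 : ¬ ((-1 : ℝ) * (ell * h).derivative.eval x < 0) := by
        rw [not_lt]; nlinarith
      have h3 : ¬ (ell.eval x = 0) := her.ne
      simp only [Bool.false_eq_true, if_false, if_true, if_neg h2, if_neg h3, one_ne_zero]
      norm_num
    · simp only [idx, wC3, sg, hm0, h11]
      have h3 : ¬ (ell.eval x = 0) := her.ne
      have h2 : (1 : ℝ) * (ell * h).derivative.eval x < 0 := by rw [one_mul]; exact hm1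
      simp only [if_true, if_pos h2, if_neg h3, one_ne_zero, if_false]
      norm_num
  · have hx : x = r := hP
    subst hx
    simp only [idx, wC3, hm0, h11]
    rw [if_neg (lt_irrefl _), if_neg (lt_irrefl _), if_neg hm1.ne, if_pos one_pos,
      if_neg (not_lt.2 her.le), if_pos her]
    norm_num
end

section
/-! Pairs of quaternionic hermitian forms.  A right quaternionic space is a module over `Q`, the
opposite of the quaternions.  A quaternionic hermitian form `h` is represented by its real part
`b x y = Re h x y`, a real bilinear symmetric form with `b (q • x) y = b x (star q • y)`.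
Subspaces are `Submodule Q V`, dimension is `Module.finrank Q`. -/
open scoped Quaternion
variable {V : Type} [AddCommGroup V] [Module Q V] [Module ℝ V] [IsScalarTower ℝ Q V]


theorem l3_deg (r s : ℝ) : ((Polynomial.X - Polynomial.C r) * (Polynomial.X - Polynomial.C s) :
    Polynomial ℝ).natDegree ≤ 2 := by
  refine le_trans Polynomial.natDegree_mul_le ?_
  rw [Polynomial.natDegree_X_sub_C, Polynomial.natDegree_X_sub_C]

theorem l3_coeff (r s : ℝ) : ((Polynomial.X - Polynomial.C r) * (Polynomial.X - Polynomial.C s) :
    Polynomial ℝ).coeff 2 = 1 := by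
  have h := (Polynomial.monic_X_sub_C r).mul (Polynomial.monic_X_sub_C s)
  have hd : ((Polynomial.X - Polynomial.C r) * (Polynomial.X - Polynomial.C s) :
    Polynomial ℝ).natDegree = 2 := by
    rw [(Polynomial.monic_X_sub_C r).natDegree_mul (Polynomial.monic_X_sub_C s),
      Polynomial.natDegree_X_sub_C, Polynomial.natDegree_X_sub_C]
  have h2 := h.coeff_natDegree
  rwa [hd] at h2

/-- a real number attached to a piece -/
def l3_val : Piece → ℝ
  | Piece.ray _ x => x
  | _ => 0

theorem l3_bound (r : ℝ) (L : List Piece) :
    ∃ s, r < s ∧ ∀ P ∈ L, ∀ x, P = Piece.ray true x → x < s := by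
  induction L with
  | nil => exact ⟨r + 1, by linarith, fun P hP => absurd hP (by simp)⟩
  | cons P L ih =>
    obtain ⟨s, hs, h⟩ := ih
    refine ⟨max s (l3_val P + 1), lt_max_of_lt_left hs, ?_⟩
    intro P' hP' x hx
    rcases List.mem_cons.1 hP' with h1 | h1
    · rw [hx] at h1
      apply lt_max_of_lt_right
      rw [← h1]
      show x < x + 1
      linarith
    · exact lt_max_of_lt_left (h P' h1 x hx)

theorem l3_ws0 (L : List Piece) : ws (fun _ => 0) L = 0 := by
  induction L with
  | nil => rfl
  | cons P L ih =>
    unfold ws at *
    rw [List.map_cons, List.sum_cons, ih, add_zero]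

theorem lcrit_III (r : ℝ) (L : List Piece) (hL : ∀ P ∈ L, shIII r P)
    (h1 : 0 ≤ ws (wC1 r) L ∨ 0 ≤ ws (wC2 r) L) (h2 : 0 ≤ ws (wC1 r) L ∨ 0 ≤ ws (wC3 r) L) :
    LCrit L := by
  have hsq : ∀ t : ℝ, t ≠ r → 0 < ((Polynomial.X - Polynomial.C r) *
      (Polynomial.X - Polynomial.C r) : Polynomial ℝ).eval t := by
    intro t ht
    simp only [Polynomial.eval_mul, Polynomial.eval_sub, Polynomial.eval_X, Polynomial.eval_C]
    exact mul_self_pos.2 (sub_ne_zero.2 ht)
  have hg : ∀ ell : Polynomial ℝ, 0 < ell.eval r →
      tot (ell * ((Polynomial.X - Polynomial.C r) * (Polynomial.X - Polynomial.C r))) L + tot 1 L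
        ≤ tot ell L := by
    intro ell he
    exact sum_lemma L ell _ (fun _ => 0) (fun P hP => pw_III_g r P (hL P hP) ell he)
      (l3_ws0 L).ge
  have hg1 : ∀ ell : Polynomial ℝ, ell.eval r < 0 → 0 ≤ ws (wC1 r) L →
      tot (ell * ((Polynomial.X - Polynomial.C r) * (Polynomial.X - Polynomial.C r))) L + tot 1 L
        ≤ tot ell L := by
    intro ell he hw
    exact sum_lemma L ell _ (wC1 r) (fun P hP => pw_III_g1 r P (hL P hP) ell he) hw
  constructor
  · intro σ hσ
    rcases hσ with hσ | hσ
    · subst hσ
      refine ⟨_, l3_deg r r, ?_, hg _ (by simp)⟩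
      rw [l3_coeff]; norm_num
    · subst hσ
      rcases h1 with h | h
      · refine ⟨_, l3_deg r r, ?_, hg1 _ (by simp) h⟩
        rw [l3_coeff]; norm_num
      · obtain ⟨s, hs, hsx⟩ := l3_bound r L
        refine ⟨_, l3_deg r s, ?_, ?_⟩
        · rw [l3_coeff]; norm_num
        · refine sum_lemma L _ _ (wC2 r) (fun P hP => ?_) h
          refine pw_III_b r P (hL P hP) _ _ ?_ ?_ ?_ ?_ ?_
          · intro x _
            simp
          · simp
          · simp
            exact hs
          · intro x hx
            simp only [Polynomial.eval_mul, Polynomial.eval_sub, Polynomial.eval_X,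
              Polynomial.eval_C]
            exact mul_pos_of_neg_of_neg (by linarith) (by linarith)
          · intro x hx hPx
            have hxs := hsx P hP x hPx
            simp only [Polynomial.eval_mul, Polynomial.eval_sub, Polynomial.eval_X,
              Polynomial.eval_C]
            exact mul_neg_of_pos_of_neg (by linarith) (by linarith)
  · intro σ t hσ hav
    have hev : ∀ x : ℝ, (Polynomial.C σ * (Polynomial.X - Polynomial.C t)).eval x = σ * (x - t) := by
      intro x
      simp
    rcases lt_trichotomy t r with htr | htr | htr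
    · rcases hσ with hσ | hσ
      · refine ⟨_, l3_deg r r, hsq t htr.ne, hg _ ?_⟩
        rw [hev, hσ]; linarith
      · rcases h1 with h | h
        · refine ⟨_, l3_deg r r, hsq t htr.ne, hg1 _ ?_ h⟩
          rw [hev, hσ]; linarith
        · refine ⟨Polynomial.C r - Polynomial.X, ?_, ?_, ?_⟩
          · refine le_trans (Polynomial.natDegree_sub_le _ _) ?_
            rw [Polynomial.natDegree_C, Polynomial.natDegree_X]
            norm_num
          · simp only [Polynomial.eval_sub, Polynomial.eval_X, Polynomial.eval_C]
            linarith
          · refine sum_lemma L _ _ (wC2 r) (fun P hP => ?_) h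
            refine pw_III_b r P (hL P hP) _ _ ?_ ?_ ?_ ?_ ?_
            · intro x hx
              rw [hev, hσ]; linarith
            · simp
            · simp
            · intro x hx
              simp only [Polynomial.eval_sub, Polynomial.eval_X, Polynomial.eval_C]
              linarith
            · intro x hx _
              simp only [Polynomial.eval_sub, Polynomial.eval_X, Polynomial.eval_C]
              linarith
    · subst htr
      have hall : ∀ P ∈ L, idx 1 P = 0 := by
        intro P hP
        have hs := hL P hP
        have ha := hav P hP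
        cases P with
        | ray e x =>
          cases e with
          | true => simp [idx, sg]
          | false =>
            simp only [shIII] at hs
            simp only [av] at ha
            exact absurd hs ha
        | cx a b => simp only [shIII] at hs
        | b2 e x =>
          simp only [shIII] at hs
          simp only [av] at ha
          exact absurd hs ha
        | b3 x =>
          simp only [shIII] at hs
          simp only [av] at ha
          exact absurd hs ha
      have htot : tot 1 L = 0 := by
        unfold tot
        apply List.sum_eq_zero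
        intro n hn
        obtain ⟨P, hP, rfl⟩ := List.mem_map.1 hn
        exact hall P hP
      refine ⟨1, by simp, by simp, ?_⟩
      rw [mul_one, htot, add_zero]
    · rcases hσ with hσ | hσ
      · rcases h2 with h | h
        · refine ⟨_, l3_deg r r, hsq t htr.ne', hg1 _ ?_ h⟩
          rw [hev, hσ]; linarith
        · refine ⟨Polynomial.X - Polynomial.C r, ?_, ?_, ?_⟩
          · rw [Polynomial.natDegree_X_sub_C]
            norm_num
          · simp only [Polynomial.eval_sub, Polynomial.eval_X, Polynomial.eval_C]
            linarith
          · refine sum_lemma L _ _ (wC3 r) (fun P hP => ?_) h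
            refine pw_III_c r P (hL P hP) _ _ ?_ ?_ ?_ ?_ ?_
            · intro x hx
              rw [hev, hσ]; linarith
            · simp
            · simp
            · intro x hx
              simp only [Polynomial.eval_sub, Polynomial.eval_X, Polynomial.eval_C]
              linarith
            · intro x hx _
              simp only [Polynomial.eval_sub, Polynomial.eval_X, Polynomial.eval_C]
              linarith
      · refine ⟨_, l3_deg r r, hsq t htr.ne', hg _ ?_⟩
        rw [hev, hσ]; linarith
end

section
/-! Pairs of quaternionic hermitian forms.  A right quaternionic space is a module over `Q`, the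
opposite of the quaternions.  A quaternionic hermitian form `h` is represented by its real part
`b x y = Re h x y`, a real bilinear symmetric form with `b (q • x) y = b x (star q • y)`.
Subspaces are `Submodule Q V`, dimension is `Module.finrank Q`. -/
open scoped Quaternion
variable {V : Type} [AddCommGroup V] [Module Q V] [Module ℝ V] [IsScalarTower ℝ Q V]


theorem eval_quad' (r1 r2 x : ℝ) (ell : Polynomial ℝ) :
    (ell * ((Polynomial.X - Polynomial.C r1) * (Polynomial.X - Polynomial.C r2))).eval x =
      ell.eval x * ((x - r1) * (x - r2)) := by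
  simp

theorem eval_dquad' (r1 r2 x : ℝ) (ell : Polynomial ℝ) :
    (ell * ((Polynomial.X - Polynomial.C r1) * (Polynomial.X - Polynomial.C r2))).derivative.eval x =
      ell.derivative.eval x * ((x - r1) * (x - r2)) + ell.eval x * ((x - r1) + (x - r2)) := by
  simp only [Polynomial.derivative_mul, Polynomial.derivative_sub, Polynomial.derivative_X,
    Polynomial.derivative_C, Polynomial.eval_add, Polynomial.eval_mul, Polynomial.eval_sub,
    Polynomial.eval_X, Polynomial.eval_C, Polynomial.eval_one, Polynomial.eval_zero]
  ring

/-- `h = (X-r1)(X-r2)`, `ell` positive on `[r1,r2]` -/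
theorem pw_II_g (r1 r2 : ℝ) (h12 : r1 < r2) (P : Piece) (hP : shII r1 r2 P)
    (ell : Polynomial ℝ) (he : ∀ x, r1 ≤ x → x ≤ r2 → 0 < ell.eval x) :
    (idx (ell * ((Polynomial.X - Polynomial.C r1) * (Polynomial.X - Polynomial.C r2))) P : ℤ)
      + (idx 1 P : ℤ) + 0 ≤ (idx ell P : ℤ) := by
  rcases P with ⟨e, x⟩ | ⟨r, s⟩ | ⟨e, r⟩ | r
  · cases e with
    | true =>
      have hP' : x ≤ r1 ∨ r2 ≤ x := hP
      have hsg : sg true = 1 := by simp [sg]
      have hnn : 0 ≤ (x - r1) * (x - r2) := by
        rcases hP' with h | h
        · nlinarith
        · nlinarith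
      have e1 : idx 1 (Piece.ray true x) = 0 := by
        simp only [idx, hsg, Polynomial.eval_one]
        norm_num
      rw [e1]
      simp only [idx, hsg, eval_quad', one_mul]
      by_cases h : ell.eval x * ((x - r1) * (x - r2)) < 0
      · have h2 : ell.eval x < 0 := by
          by_contra hcon
          push Not at hcon
          nlinarith [mul_nonneg hcon hnn]
        rw [if_pos h, if_pos h2]
        norm_num
      · rw [if_neg h]
        split_ifs <;> norm_num
    | false =>
      have hP' : r1 ≤ x ∧ x ≤ r2 := hP
      have hsg : sg false = -1 := by simp [sg]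
      have hell := he x hP'.1 hP'.2
      have hnp : 0 ≤ (x - r1) * (r2 - x) := mul_nonneg (by linarith [hP'.1]) (by linarith [hP'.2])
      have e1 : idx 1 (Piece.ray false x) = 1 := by
        simp only [idx, hsg, Polynomial.eval_one]
        norm_num
      have e2 : idx ell (Piece.ray false x) = 1 := by
        simp only [idx, hsg]
        rw [if_pos (by linarith)]
      have e3 : idx (ell * ((Polynomial.X - Polynomial.C r1) * (Polynomial.X - Polynomial.C r2)))
          (Piece.ray false x) = 0 := by
        simp only [idx, hsg, eval_quad']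
        rw [if_neg]
        have h3 := mul_nonneg hell.le hnp
        have h4 : -1 * (ell.eval x * ((x - r1) * (x - r2))) = ell.eval x * ((x - r1) * (r2 - x)) := by
          ring
        rw [h4]
        linarith
      rw [e1, e2, e3]
      norm_num
  · exact absurd hP (by simp [shII])
  · cases e with
    | true =>
      have hP' : r = r2 := hP
      subst hP'
      have hsg : sg true = 1 := by simp [sg]
      have hell := he r h12.le le_rfl
      have e1 : idx 1 (Piece.b2 true r) = 1 := by
        simp only [idx, Polynomial.eval_one]
        norm_num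
      have e2 : idx ell (Piece.b2 true r) = 1 := by
        simp only [idx]
        rw [if_neg hell.ne']
      have e3 : idx (ell * ((Polynomial.X - Polynomial.C r1) * (Polynomial.X - Polynomial.C r)))
          (Piece.b2 true r) = 0 := by
        simp only [idx, hsg, eval_quad', eval_dquad']
        rw [if_pos (by ring), if_neg]
        have h3 : 0 < ell.eval r * (r - r1) := mul_pos hell (by linarith)
        have h4 : 1 * (Polynomial.eval r (Polynomial.derivative ell) * ((r - r1) * (r - r)) +
          Polynomial.eval r ell * (r - r1 + (r - r))) = ell.eval r * (r - r1) := by ring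
        rw [h4]
        linarith
      rw [e1, e2, e3]
      norm_num
    | false =>
      have hP' : r = r1 := hP
      subst hP'
      have hsg : sg false = -1 := by simp [sg]
      have hell := he r le_rfl h12.le
      have e1 : idx 1 (Piece.b2 false r) = 1 := by
        simp only [idx, Polynomial.eval_one]
        norm_num
      have e2 : idx ell (Piece.b2 false r) = 1 := by
        simp only [idx]
        rw [if_neg hell.ne']
      have e3 : idx (ell * ((Polynomial.X - Polynomial.C r) * (Polynomial.X - Polynomial.C r2)))
          (Piece.b2 false r) = 0 := by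
        simp only [idx, hsg, eval_quad', eval_dquad']
        rw [if_pos (by ring), if_neg]
        have h3 : 0 < ell.eval r * (r2 - r) := mul_pos hell (by linarith)
        have h4 : -1 * (Polynomial.eval r (Polynomial.derivative ell) * ((r - r) * (r - r2)) +
          Polynomial.eval r ell * (r - r + (r - r2))) = ell.eval r * (r2 - r) := by ring
        rw [h4]
        linarith
      rw [e1, e2, e3]
      norm_num
  · exact absurd hP (by simp [shII])
end

section
/-! Pairs of quaternionic hermitian forms.  A right quaternionic space is a module over `Q`, the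
opposite of the quaternions.  A quaternionic hermitian form `h` is represented by its real part
`b x y = Re h x y`, a real bilinear symmetric form with `b (q • x) y = b x (star q • y)`.
Subspaces are `Submodule Q V`, dimension is `Module.finrank Q`. -/
open scoped Quaternion
variable {V : Type} [AddCommGroup V] [Module Q V] [Module ℝ V] [IsScalarTower ℝ Q V]


/-- `h = (X-r1)(X-r2)`, `ell` negative on `[r1,r2]` -/
theorem pw_II_g1 (r1 r2 : ℝ) (h12 : r1 < r2) (P : Piece) (hP : shII r1 r2 P)
    (ell : Polynomial ℝ) (he : ∀ x, r1 ≤ x → x ≤ r2 → ell.eval x < 0) :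
    (idx (ell * ((Polynomial.X - Polynomial.C r1) * (Polynomial.X - Polynomial.C r2))) P : ℤ)
      + (idx 1 P : ℤ) + (wA2 r1 r2 P + wB2 r1 r2 P) ≤ (idx ell P : ℤ) := by
  obtain ⟨m, hm⟩ : ∃ m : Polynomial ℝ, m =
    ell * ((Polynomial.X - Polynomial.C r1) * (Polynomial.X - Polynomial.C r2)) := ⟨_, rfl⟩
  have hev : ∀ x, m.eval x = ell.eval x * ((x - r1) * (x - r2)) := by
    intro x
    rw [hm]
    simp
  rw [← hm]
  rcases P with ⟨e, x⟩ | ⟨r, s⟩ | ⟨e, r⟩ | r
  · cases e with
    | true =>
      have hP' : x ≤ r1 ∨ r2 ≤ x := hP
      have i1 : idx m (Piece.ray true x) = if m.eval x < 0 then 1 else 0 := by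
        simp [idx, sg]
      have i2 : idx 1 (Piece.ray true x) = 0 := by
        simp [idx, sg]
      have i3 : idx ell (Piece.ray true x) = if ell.eval x < 0 then 1 else 0 := by
        simp [idx, sg]
      have i4 : wA2 r1 r2 (Piece.ray true x) = if x ≤ r1 then 1 else if r2 < x then -1 else 0 := by
        simp [wA2]
      have i5 : wB2 r1 r2 (Piece.ray true x) = if r2 ≤ x then 1 else if x < r1 then -1 else 0 := by
        simp [wB2]
      rw [i1, i2, i3, i4, i5, hev]
      rcases hP' with h | h
      · rcases h.lt_or_eq with h | h
        · have hg : 0 < (x - r1) * (x - r2) := mul_pos_of_neg_of_neg (by linarith) (by linarith)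
          rw [if_pos h.le, if_neg (by linarith : ¬ r2 ≤ x), if_pos h]
          by_cases hl : ell.eval x < 0
          · rw [if_pos hl, if_pos (mul_neg_of_neg_of_pos hl hg)]
            norm_num
          · rw [if_neg hl, if_neg (not_lt.2 (mul_nonneg (not_lt.1 hl) hg.le))]
            norm_num
        · subst h
          have hl := he x le_rfl h12.le
          rw [if_pos hl, if_pos le_rfl, if_neg (not_le.2 h12), if_neg (lt_irrefl x)]
          simp
      · rcases h.lt_or_eq with h | h
        · have hg : 0 < (x - r1) * (x - r2) := mul_pos (by linarith) (by linarith)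
          rw [if_neg (by linarith : ¬ x ≤ r1), if_pos h, if_pos h.le]
          by_cases hl : ell.eval x < 0
          · rw [if_pos hl, if_pos (mul_neg_of_neg_of_pos hl hg)]
            norm_num
          · rw [if_neg hl, if_neg (not_lt.2 (mul_nonneg (not_lt.1 hl) hg.le))]
            norm_num
        · subst h
          have hl := he r2 h12.le le_rfl
          rw [if_pos hl, if_neg (not_le.2 h12), if_neg (lt_irrefl r2), if_pos le_rfl]
          simp
    | false =>
      have hP' : r1 ≤ x ∧ x ≤ r2 := hP
      have hl := he x hP'.1 hP'.2
      have i1 : idx m (Piece.ray false x) = if 0 < m.eval x then 1 else 0 := by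
        simp [idx, sg]
      have i2 : idx 1 (Piece.ray false x) = 1 := by
        simp [idx, sg]
      have i3 : idx ell (Piece.ray false x) = 0 := by
        simp [idx, sg]
        exact hl.le
      have i4 : wA2 r1 r2 (Piece.ray false x) = if x = r2 then 0 else -1 := by
        simp [wA2]
      have i5 : wB2 r1 r2 (Piece.ray false x) = if x = r1 then 0 else -1 := by
        simp [wB2]
      rw [i1, i2, i3, i4, i5, hev]
      by_cases h1 : x = r1
      · have h2 : ¬ x = r2 := by rw [h1]; exact h12.ne
        rw [if_pos h1, if_neg h2, h1]
        simp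
      · by_cases h2 : x = r2
        · rw [if_neg h1, if_pos h2, h2]
          simp
        · rw [if_neg h1, if_neg h2]
          split_ifs <;> norm_num
  · exact hP.elim
  · cases e with
    | true =>
      have hr : r = r2 := hP
      subst hr
      have hl := he r h12.le le_rfl
      have hd : m.derivative.eval r = ell.eval r * (r - r1) := by
        rw [hm]
        simp [Polynomial.derivative_mul]
      have i1 : idx m (Piece.b2 true r) = 1 := by
        have h1 : m.eval r = 0 := by rw [hev]; ring
        have h2 : m.derivative.eval r < 0 := by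
          rw [hd]; exact mul_neg_of_neg_of_pos hl (by linarith)
        simp [idx, sg, h1, h2]
      have i2 : idx 1 (Piece.b2 true r) = 1 := by
        simp [idx]
      have i3 : idx ell (Piece.b2 true r) = 1 := by
        simp [idx, hl.ne]
      have i4 : wA2 r1 r (Piece.b2 true r) = -1 := by
        simp [wA2]
      have i5 : wB2 r1 r (Piece.b2 true r) = 0 := by
        simp [wB2]
      rw [i1, i2, i3, i4, i5]
      norm_num
    | false =>
      have hr : r = r1 := hP
      subst hr
      have hl := he r le_rfl h12.le
      have hd : m.derivative.eval r = ell.eval r * (r - r2) := by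
        rw [hm]
        simp [Polynomial.derivative_mul]
      have i1 : idx m (Piece.b2 false r) = 1 := by
        have h1 : m.eval r = 0 := by rw [hev]; ring
        have h2 : 0 < m.derivative.eval r := by
          rw [hd]; exact mul_pos_of_neg_of_neg hl (by linarith)
        simp [idx, sg, h1, h2]
      have i2 : idx 1 (Piece.b2 false r) = 1 := by
        simp [idx]
      have i3 : idx ell (Piece.b2 false r) = 1 := by
        simp [idx, hl.ne]
      have i4 : wA2 r r2 (Piece.b2 false r) = 0 := by
        simp [wA2]
      have i5 : wB2 r r2 (Piece.b2 false r) = -1 := by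
        simp [wB2]
      rw [i1, i2, i3, i4, i5]
      norm_num
  · exact hP.elim
end

section
/-! Pairs of quaternionic hermitian forms.  A right quaternionic space is a module over `Q`, the
opposite of the quaternions.  A quaternionic hermitian form `h` is represented by its real part
`b x y = Re h x y`, a real bilinear symmetric form with `b (q • x) y = b x (star q • y)`.
Subspaces are `Submodule Q V`, dimension is `Module.finrank Q`. -/
open scoped Quaternion
variable {V : Type} [AddCommGroup V] [Module Q V] [Module ℝ V] [IsScalarTower ℝ Q V]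


theorem pw_II_4a (r1 r2 t : ℝ) (h1 : r1 < t) (h2 : t < r2) (P : Piece) (hP : shII r1 r2 P)
    (hav : av t P) :
    (idx (Polynomial.C 1 * (Polynomial.X - Polynomial.C t) * (Polynomial.X - Polynomial.C r1)) P : ℤ)
      + (idx 1 P : ℤ) + wA1 r1 P
      ≤ (idx (Polynomial.C 1 * (Polynomial.X - Polynomial.C t)) P : ℤ) := by
  have hm : ∀ x, (Polynomial.C 1 * (Polynomial.X - Polynomial.C t) *
      (Polynomial.X - Polynomial.C r1)).eval x = (x - t) * (x - r1) := by
    intro x; simp
  have hl : ∀ x, (Polynomial.C 1 * (Polynomial.X - Polynomial.C t)).eval x = x - t := by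
    intro x; simp
  have h1e : ∀ x : ℝ, (1 : Polynomial ℝ).eval x = 1 := fun x => Polynomial.eval_one
  have hd : ∀ x, (Polynomial.derivative (Polynomial.C 1 * (Polynomial.X - Polynomial.C t) *
      (Polynomial.X - Polynomial.C r1))).eval x = (x - r1) + (x - t) := by
    intro x
    simp [Polynomial.derivative_mul]
  rcases P with ⟨e, x⟩ | ⟨r, s⟩ | ⟨e, r⟩ | r
  · cases e
    · -- ray false
      have hx1 : r1 ≤ x := hP.1
      have hne : x ≠ t := hav
      simp only [idx, hm, hl, h1e, sg, wA1, Bool.false_eq_true, if_false]
      rcases lt_or_gt_of_ne hne with h | h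
      · have e1 : ¬ ((-1 : ℝ) * ((x - t) * (x - r1)) < 0) := by nlinarith
        have e2 : ((-1 : ℝ) * 1 < 0) := by norm_num
        rw [if_neg e1, if_pos e2]
        split_ifs <;> simp
      · have e1 : ((-1 : ℝ) * (x - t) < 0) := by nlinarith
        have e2 : ((-1 : ℝ) * 1 < 0) := by norm_num
        rw [if_pos e1, if_pos e2]
        split_ifs <;> simp
    · -- ray true
      simp only [idx, hm, hl, h1e, sg, wA1, if_true]
      have e2 : ¬ ((1 : ℝ) * 1 < 0) := by norm_num
      rw [if_neg e2]
      rcases hP with h | h
      · have e1 : ¬ ((1 : ℝ) * ((x - t) * (x - r1)) < 0) := by nlinarith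
        have e3 : ((1 : ℝ) * (x - t) < 0) := by linarith
        rw [if_neg e1, if_pos e3, if_pos h]
        simp
      · have e1 : ¬ ((1 : ℝ) * ((x - t) * (x - r1)) < 0) := by nlinarith
        have e3 : ¬ (x ≤ r1) := by
          push Not
          linarith
        rw [if_neg e1, if_neg e3]
        split_ifs <;> simp
  · exact hP.elim
  · cases e
    · -- b2 false
      have hr : r = r1 := hP
      subst hr
      simp only [idx, hm, hl, hd, h1e, sg, wA1, Bool.false_eq_true, if_false]
      have e1 : (r - t) * (r - r) = 0 := by ring
      have e2 : ¬ ((-1 : ℝ) * ((r - r) + (r - t)) < 0) := by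
        push Not
        linarith
      have e3 : ¬ ((1 : ℝ) = 0) := one_ne_zero
      have e4 : ¬ (r - t = 0) := by
        intro h
        linarith
      rw [if_pos e1, if_neg e2, if_neg e3, if_neg e4]
      simp
    · have hr : r = r2 := hP
      subst hr
      simp only [idx, hm, hl, hd, h1e, sg, wA1, if_true]
      have e1 : ¬ ((r - t) * (r - r1) = 0) := by
        have : 0 < (r - t) * (r - r1) := mul_pos (by linarith) (by linarith)
        exact this.ne'
      have e3 : ¬ ((1 : ℝ) = 0) := one_ne_zero
      have e4 : ¬ (r - t = 0) := by
        intro h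
        linarith
      rw [if_neg e1, if_neg e3, if_neg e4]
      simp
  · exact hP.elim
end

section
/-! Pairs of quaternionic hermitian forms.  A right quaternionic space is a module over `Q`, the
opposite of the quaternions.  A quaternionic hermitian form `h` is represented by its real part
`b x y = Re h x y`, a real bilinear symmetric form with `b (q • x) y = b x (star q • y)`.
Subspaces are `Submodule Q V`, dimension is `Module.finrank Q`. -/
open scoped Quaternion
variable {V : Type} [AddCommGroup V] [Module Q V] [Module ℝ V] [IsScalarTower ℝ Q V]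


theorem pw4b_ev (r1 r2 t x : ℝ) :
    (Polynomial.C 1 * (Polynomial.X - Polynomial.C t) *
      (-((Polynomial.X - Polynomial.C r1) * (Polynomial.X - Polynomial.C r2)))).eval x =
      (x - t) * (-((x - r1) * (x - r2))) := by
  simp

theorem pw4b_ev' (t x : ℝ) :
    (Polynomial.C 1 * (Polynomial.X - Polynomial.C t)).eval x = x - t := by
  simp

theorem pw4b_der (r1 r2 t x : ℝ) :
    (Polynomial.C 1 * (Polynomial.X - Polynomial.C t) *
      (-((Polynomial.X - Polynomial.C r1) * (Polynomial.X - Polynomial.C r2)))).derivative.eval x =
      -((x - r1) * (x - r2)) + (x - t) * (-((x - r2) + (x - r1))) := by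
  simp [Polynomial.derivative_mul]
  ring

theorem pw_II_4b (r1 r2 t : ℝ) (h1 : r1 < t) (h2 : t < r2) (P : Piece) (hP : shII r1 r2 P)
    (hav : av t P) :
    (idx (Polynomial.C 1 * (Polynomial.X - Polynomial.C t) *
      (-((Polynomial.X - Polynomial.C r1) * (Polynomial.X - Polynomial.C r2)))) P : ℤ)
      + (idx 1 P : ℤ) + wA2 r1 r2 P
      ≤ (idx (Polynomial.C 1 * (Polynomial.X - Polynomial.C t)) P : ℤ) := by
  rcases P with ⟨e, x⟩ | ⟨r, s⟩ | ⟨e, r⟩ | ⟨r⟩
  · cases e
    · -- ray false
      obtain ⟨hx1, hx2⟩ := hP
      simp only [idx, wA2, pw4b_ev, pw4b_ev', sg]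
      simp only [Bool.false_eq_true, if_false, Polynomial.eval_one]
      have e1 : ((-1 : ℝ) * 1 < 0) := by norm_num
      rw [if_pos e1]
      by_cases hz : x = r2
      · subst hz
        have e2 : ¬ ((-1 : ℝ) * ((x - t) * (-((x - r1) * (x - x)))) < 0) := by
          rw [sub_self]; simp
        have e3 : (-1 : ℝ) * (x - t) < 0 := by linarith
        rw [if_neg e2, if_pos rfl, if_pos e3]
        norm_num
      · rw [if_neg hz]
        have hzr : x < r2 := lt_of_le_of_ne hx2 hz
        by_cases e2 : (-1 : ℝ) * ((x - t) * (-((x - r1) * (x - r2)))) < 0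
        · have hpos : 0 ≤ (x - r1) * (r2 - x) := mul_nonneg (by linarith) (by linarith)
          have e3 : (-1 : ℝ) * (x - t) < 0 := by
            by_contra hcon
            have : x - t ≤ 0 := by linarith
            nlinarith [mul_nonneg (sub_nonneg.2 (by linarith : x ≤ t)) hpos]
          rw [if_pos e2, if_pos e3]
          norm_num
        · rw [if_neg e2]
          split_ifs <;> norm_num
    · -- ray true
      simp only [idx, wA2, pw4b_ev, pw4b_ev', sg]
      simp only [if_true, Polynomial.eval_one]
      have e1 : ¬ ((1 : ℝ) * 1 < 0) := by norm_num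
      rw [if_neg e1]
      rcases hP with hx | hx
      · have hpos : 0 ≤ (r1 - x) * (r2 - x) := mul_nonneg (by linarith) (by linarith)
        have e2 : ¬ ((1 : ℝ) * ((x - t) * (-((x - r1) * (x - r2)))) < 0) := by
          have := mul_nonneg (by linarith : 0 ≤ t - x) hpos
          nlinarith
        have e3 : (1 : ℝ) * (x - t) < 0 := by linarith
        rw [if_neg e2, if_pos hx, if_pos e3]
        norm_num
      · have hx1 : ¬ x ≤ r1 := by linarith
        have e3 : ¬ ((1 : ℝ) * (x - t) < 0) := by linarith
        rw [if_neg hx1, if_neg e3]
        by_cases hlt : r2 < x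
        · rw [if_pos hlt]
          split_ifs <;> norm_num
        · have hxe : x = r2 := by linarith
          subst hxe
          have e2 : ¬ ((1 : ℝ) * ((x - t) * (-((x - r1) * (x - x)))) < 0) := by
            rw [sub_self]; simp
          rw [if_neg hlt, if_neg e2]
          norm_num
  · exact absurd hP (by simp [shII])
  · cases e
    · -- b2 false, r = r1
      have hr : r = r1 := hP
      subst hr
      simp only [idx, wA2, pw4b_ev, pw4b_ev', pw4b_der, sg]
      have e1 : (r - t) * (-((r - r) * (r - r2))) = 0 := by ring
      have e2 : ¬ ((-1 : ℝ) * (-((r - r) * (r - r2)) + (r - t) * (-((r - r2) + (r - r)))) < 0) := by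
        have := mul_pos (by linarith : 0 < t - r) (by linarith : 0 < r2 - r)
        nlinarith
      have e3 : ¬ (r - t = 0) := by
        intro h; linarith
      rw [if_pos e1, if_neg e3]
      simp only [Bool.false_eq_true, if_false]
      rw [if_neg e2]
      simp
    · have hr : r = r2 := hP
      subst hr
      simp only [idx, wA2, pw4b_ev, pw4b_ev', pw4b_der, sg]
      have e3 : ¬ (r - t = 0) := by
        intro h; linarith
      rw [if_neg e3]
      simp only [if_true, Polynomial.eval_one, one_ne_zero, if_false]
      split_ifs <;> norm_num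
  · exact absurd hP (by simp [shII])
end

section
/-! Pairs of quaternionic hermitian forms.  A right quaternionic space is a module over `Q`, the
opposite of the quaternions.  A quaternionic hermitian form `h` is represented by its real part
`b x y = Re h x y`, a real bilinear symmetric form with `b (q • x) y = b x (star q • y)`.
Subspaces are `Submodule Q V`, dimension is `Module.finrank Q`. -/
open scoped Quaternion
variable {V : Type} [AddCommGroup V] [Module Q V] [Module ℝ V] [IsScalarTower ℝ Q V]


theorem pw_II_5a (r1 r2 t : ℝ) (h1 : r1 < t) (h2 : t < r2) (P : Piece) (hP : shII r1 r2 P)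
    (hav : av t P) :
    (idx (Polynomial.C (-1) * (Polynomial.X - Polynomial.C t) * (Polynomial.C r2 - Polynomial.X)) P : ℤ)
      + (idx 1 P : ℤ) + wB1 r2 P
      ≤ (idx (Polynomial.C (-1) * (Polynomial.X - Polynomial.C t)) P : ℤ) := by
  cases P with
  | ray e x =>
    cases e with
    | true =>
      simp only [shII] at hP
      simp only [idx, sg, wB1, Polynomial.eval_mul, Polynomial.eval_sub, Polynomial.eval_C,
        Polynomial.eval_X, Polynomial.eval_one, if_true]
      rcases hP with hx | hx
      · have a1 : ¬ (1 * (-1 * (x - t) * (r2 - x)) < 0) := by nlinarith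
        have a2 : ¬ ((1:ℝ) * 1 < 0) := by norm_num
        have a3 : ¬ (r2 ≤ x) := by linarith
        rw [if_neg a1, if_neg a2, if_neg a3]
        split_ifs <;> simp
      · have a1 : ¬ (1 * (-1 * (x - t) * (r2 - x)) < 0) := by nlinarith
        have a2 : ¬ ((1:ℝ) * 1 < 0) := by norm_num
        have a4 : 1 * (-1 * (x - t)) < 0 := by linarith
        rw [if_neg a1, if_neg a2, if_pos hx, if_pos a4]
        simp
    | false =>
      simp only [shII] at hP
      simp only [av] at hav
      simp only [idx, sg, wB1, Polynomial.eval_mul, Polynomial.eval_sub, Polynomial.eval_C,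
        Polynomial.eval_X, Polynomial.eval_one, if_false, Bool.false_eq_true]
      have a2 : ((-1:ℝ) * 1 < 0) := by norm_num
      rw [if_pos a2]
      rcases lt_or_gt_of_ne hav with hz | hz
      · have a4 : -1 * (-1 * (x - t)) < 0 := by linarith
        rw [if_pos a4]
        split_ifs <;> simp
      · have a1 : ¬ (-1 * (-1 * (x - t) * (r2 - x)) < 0) := by nlinarith [hP.2]
        rw [if_neg a1]
        split_ifs <;> simp
  | cx r s => simp [shII] at hP
  | b2 e r =>
    cases e with
    | true =>
      simp only [shII] at hP
      subst hP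
      have d1 : (Polynomial.derivative (Polynomial.C (-1) * (Polynomial.X - Polynomial.C t) *
          (Polynomial.C r - Polynomial.X))).eval r = r - t := by
        simp only [Polynomial.derivative_mul, Polynomial.derivative_sub, Polynomial.derivative_C,
          Polynomial.derivative_X, Polynomial.eval_add, Polynomial.eval_mul, Polynomial.eval_sub,
          Polynomial.eval_C, Polynomial.eval_X, Polynomial.eval_zero, Polynomial.eval_one]
        ring
      have e1 : (Polynomial.C (-1) * (Polynomial.X - Polynomial.C t) *
          (Polynomial.C r - Polynomial.X) : Polynomial ℝ).eval r = 0 := by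
        simp
      have e2 : (Polynomial.C (-1) * (Polynomial.X - Polynomial.C t) : Polynomial ℝ).eval r ≠ 0 := by
        simp only [Polynomial.eval_mul, Polynomial.eval_sub, Polynomial.eval_C, Polynomial.eval_X]
        intro h; linarith
      have e3 : (1 : Polynomial ℝ).eval r ≠ 0 := by simp
      have d2 : ¬ (sg true * (r - t) < 0) := by simp only [sg, if_true]; linarith
      simp only [idx, wB1]
      rw [if_pos e1, if_neg e2, if_neg e3, d1, if_neg d2]
      simp
    | false =>
      simp only [shII] at hP
      subst hP
      have e1 : (Polynomial.C (-1) * (Polynomial.X - Polynomial.C t) *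
          (Polynomial.C r2 - Polynomial.X) : Polynomial ℝ).eval r ≠ 0 := by
        simp only [Polynomial.eval_mul, Polynomial.eval_sub, Polynomial.eval_C, Polynomial.eval_X]
        have : -1 * (r - t) * (r2 - r) > 0 := by
          have a : 0 < -1 * (r - t) := by linarith
          have b : 0 < r2 - r := by linarith
          positivity
        exact this.ne'
      have e2 : (Polynomial.C (-1) * (Polynomial.X - Polynomial.C t) : Polynomial ℝ).eval r ≠ 0 := by
        simp only [Polynomial.eval_mul, Polynomial.eval_sub, Polynomial.eval_C, Polynomial.eval_X]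
        intro h; linarith
      have e3 : (1 : Polynomial ℝ).eval r ≠ 0 := by simp
      simp only [idx, wB1]
      rw [if_neg e1, if_neg e2, if_neg e3]
      simp
  | b3 r => simp [shII] at hP
end

section
/-! Pairs of quaternionic hermitian forms.  A right quaternionic space is a module over `Q`, the
opposite of the quaternions.  A quaternionic hermitian form `h` is represented by its real part
`b x y = Re h x y`, a real bilinear symmetric form with `b (q • x) y = b x (star q • y)`.
Subspaces are `Submodule Q V`, dimension is `Module.finrank Q`. -/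
open scoped Quaternion
variable {V : Type} [AddCommGroup V] [Module Q V] [Module ℝ V] [IsScalarTower ℝ Q V]


theorem pw_II_5b_ev (r1 r2 t x : ℝ) : (Polynomial.C (-1) * (Polynomial.X - Polynomial.C t) *
      (-((Polynomial.X - Polynomial.C r1) * (Polynomial.X - Polynomial.C r2)))).eval x
      = (x - t) * (x - r1) * (x - r2) := by
  simp only [Polynomial.eval_mul, Polynomial.eval_neg, Polynomial.eval_sub, Polynomial.eval_X,
    Polynomial.eval_C]
  ring

theorem pw_II_5b_dev (r1 r2 t x : ℝ) : (Polynomial.derivative
      (Polynomial.C (-1) * (Polynomial.X - Polynomial.C t) *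
      (-((Polynomial.X - Polynomial.C r1) * (Polynomial.X - Polynomial.C r2))))).eval x
      = (x - r1) * (x - r2) + (x - t) * (x - r2) + (x - t) * (x - r1) := by
  simp only [Polynomial.derivative_mul, Polynomial.derivative_neg, Polynomial.derivative_sub,
    Polynomial.derivative_X, Polynomial.derivative_C, Polynomial.eval_add,
    Polynomial.eval_mul, Polynomial.eval_neg, Polynomial.eval_sub, Polynomial.eval_X,
    Polynomial.eval_C, Polynomial.eval_one, Polynomial.eval_zero]
  ring

theorem pw_II_5b_el (t x : ℝ) :
    (Polynomial.C (-1) * (Polynomial.X - Polynomial.C t) : Polynomial ℝ).eval x = t - x := by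
  simp only [Polynomial.eval_mul, Polynomial.eval_neg, Polynomial.eval_sub, Polynomial.eval_X,
    Polynomial.eval_C]
  ring

theorem pw_II_5b (r1 r2 t : ℝ) (h1 : r1 < t) (h2 : t < r2) (P : Piece) (hP : shII r1 r2 P)
    (hav : av t P) :
    (idx (Polynomial.C (-1) * (Polynomial.X - Polynomial.C t) *
      (-((Polynomial.X - Polynomial.C r1) * (Polynomial.X - Polynomial.C r2)))) P : ℤ)
      + (idx 1 P : ℤ) + wB2 r1 r2 P
      ≤ (idx (Polynomial.C (-1) * (Polynomial.X - Polynomial.C t)) P : ℤ) := by
  cases P with
  | ray e x =>
    simp only [idx, pw_II_5b_ev, pw_II_5b_el, Polynomial.eval_one]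
    have hx : x ≠ t := hav
    cases e with
    | true =>
      have hP' : x ≤ r1 ∨ r2 ≤ x := hP
      simp only [sg, wB2, if_true, one_mul]
      rw [if_neg (show ¬ ((1 : ℝ) < 0) by norm_num)]
      rcases hP' with h | h
      · rcases h.lt_or_eq with h | h
        · have hm : (x - t) * (x - r1) * (x - r2) < 0 := by
            have : 0 < (x - t) * (x - r1) := mul_pos_of_neg_of_neg (by linarith) (by linarith)
            exact mul_neg_of_pos_of_neg this (by linarith)
          rw [if_pos hm, if_neg (show ¬ (t - x < 0) by linarith), if_neg (show ¬ (r2 ≤ x) by linarith),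
            if_pos h]
          norm_num
        · have hm : (x - t) * (x - r1) * (x - r2) = 0 := by rw [h]; ring
          rw [hm, if_neg (lt_irrefl _), if_neg (show ¬ (t - x < 0) by linarith),
            if_neg (show ¬ (r2 ≤ x) by linarith), if_neg (show ¬ (x < r1) by linarith)]
          norm_num
      · have hm : 0 ≤ (x - t) * (x - r1) * (x - r2) := by
          apply mul_nonneg (mul_nonneg (by linarith) (by linarith)) (by linarith)
        rw [if_neg (not_lt.mpr hm), if_pos (show t - x < 0 by linarith), if_pos h]
        norm_num
    | false =>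
      have hP' : r1 ≤ x ∧ x ≤ r2 := hP
      have hs : sg false = -1 := by simp [sg]
      simp only [hs, wB2]
      rw [if_pos (show (-1 : ℝ) * 1 < 0 by norm_num)]
      by_cases hz : x = r1
      · have hm : (-1 : ℝ) * ((x - t) * (x - r1) * (x - r2)) = 0 := by rw [hz]; ring
        rw [hm, if_neg (lt_irrefl _), if_pos (show (-1 : ℝ) * (t - x) < 0 by linarith), if_pos hz]
        norm_num
      · rw [if_neg hz]
        have hx1 : r1 < x := lt_of_le_of_ne hP'.1 (Ne.symm hz)
        by_cases hxt : x < t
        · rw [if_pos (show (-1 : ℝ) * (t - x) < 0 by linarith)]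
          split_ifs <;> norm_num
        · have hxt' : t < x := lt_of_le_of_ne (not_lt.mp hxt) (Ne.symm hx)
          have hm : 0 ≤ (-1 : ℝ) * ((x - t) * (x - r1) * (x - r2)) := by
            have h3 : 0 ≤ (x - t) * (x - r1) := mul_nonneg (by linarith) (by linarith)
            have h4 : 0 ≤ (x - t) * (x - r1) * (r2 - x) := mul_nonneg h3 (by linarith)
            nlinarith
          rw [if_neg (not_lt.mpr hm)]
          split_ifs <;> norm_num
  | cx r s => exact absurd hP (by simp [shII])
  | b2 e r =>
    simp only [idx, pw_II_5b_ev, pw_II_5b_dev, pw_II_5b_el, Polynomial.eval_one]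
    have hx : r ≠ t := hav
    have hne : t - r ≠ 0 := sub_ne_zero.mpr (Ne.symm hx)
    rw [if_neg (one_ne_zero : (1 : ℝ) ≠ 0), if_neg hne]
    cases e with
    | true =>
      have hr : r = r2 := hP
      subst hr
      have hm : (r - t) * (r - r1) * (r - r) = 0 := by ring
      rw [if_pos hm]
      have hd : 0 < (r - r1) * (r - r) + (r - t) * (r - r) + (r - t) * (r - r1) := by
        have : 0 < (r - t) * (r - r1) := mul_pos (by linarith) (by linarith)
        linarith
      have : ¬ (sg true * ((r - r1) * (r - r) + (r - t) * (r - r) + (r - t) * (r - r1)) < 0) := by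
        simp only [sg, if_true, one_mul]
        exact not_lt.mpr hd.le
      rw [if_neg this]
      simp [wB2]
    | false =>
      have hr : r = r1 := hP
      subst hr
      simp only [wB2]
      split_ifs <;> norm_num
  | b3 r => exact absurd hP (by simp [shII])
end

section
/-! Pairs of quaternionic hermitian forms.  A right quaternionic space is a module over `Q`, the
opposite of the quaternions.  A quaternionic hermitian form `h` is represented by its real part
`b x y = Re h x y`, a real bilinear symmetric form with `b (q • x) y = b x (star q • y)`.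
Subspaces are `Submodule Q V`, dimension is `Module.finrank Q`. -/
open scoped Quaternion
variable {V : Type} [AddCommGroup V] [Module Q V] [Module ℝ V] [IsScalarTower ℝ Q V]


/-- `ell` negative on `[r1,∞)`, `h` positive left of `r2`, simple zero at `r2`, negative right -/
theorem pw_II_6a (r1 r2 : ℝ) (h12 : r1 < r2) (P : Piece) (hP : shII r1 r2 P)
    (ell h : Polynomial ℝ) (he : ∀ x, r1 ≤ x → ell.eval x < 0)
    (hr : h.eval r2 = 0) (hd : h.derivative.eval r2 < 0) (hpos : ∀ x, x < r2 → 0 < h.eval x)
    (hneg : ∀ x, r2 < x → P = Piece.ray true x → h.eval x < 0) :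
    (idx (ell * h) P : ℤ) + (idx 1 P : ℤ) + wB1 r2 P ≤ (idx ell P : ℤ) := by
  have s1 : sg true = 1 := by simp [sg]
  have s2 : sg false = -1 := by simp [sg]
  cases P with
  | ray e x =>
    cases e with
    | true =>
      simp only [idx, wB1, s1, one_mul, Polynomial.eval_mul, Polynomial.eval_one]
      have h1 : ¬ ((1:ℝ) < 0) := by norm_num
      rw [if_neg h1]
      have hP' : x ≤ r1 ∨ r2 ≤ x := hP
      rcases hP' with hx | hx
      · have hp := hpos x (by linarith)
        rw [if_neg (by linarith : ¬ r2 ≤ x)]
        have : (ell.eval x * h.eval x < 0) ↔ (ell.eval x < 0) := by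
          constructor
          · intro h2
            by_contra h3
            push Not at h3
            have := mul_nonneg h3 hp.le
            linarith
          · intro h2
            exact mul_neg_of_neg_of_pos h2 hp
        simp only [this]
        simp
      · have hl := he x (by linarith)
        rw [if_pos hx, if_pos hl]
        have : ¬ (ell.eval x * h.eval x < 0) := by
          rcases eq_or_lt_of_le hx with hx' | hx'
          · rw [← hx', hr, mul_zero]; norm_num
          · have := hneg x hx' rfl
            have := mul_pos_of_neg_of_neg hl this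
            linarith
        rw [if_neg this]
        norm_num
    | false =>
      have hP' : r1 ≤ x ∧ x ≤ r2 := hP
      simp only [idx, wB1, s2, Polynomial.eval_mul, Polynomial.eval_one]
      have hl := he x hP'.1
      have hh : 0 ≤ h.eval x := by
        rcases eq_or_lt_of_le hP'.2 with hx' | hx'
        · rw [hx', hr]
        · exact (hpos x hx').le
      have : ¬ ((-1:ℝ) * (ell.eval x * h.eval x) < 0) := by
        have := mul_nonpos_of_nonpos_of_nonneg hl.le hh
        linarith
      rw [if_neg this]
      have h1 : ((-1:ℝ) * 1 < 0) := by norm_num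
      rw [if_pos h1]
      push_cast
      have : (0:ℤ) ≤ ((if (-1:ℝ) * ell.eval x < 0 then 1 else 0 : ℕ) : ℤ) := Int.natCast_nonneg _
      push_cast at this
      linarith
  | cx r s => exact absurd hP (by simp [shII])
  | b2 e r =>
    cases e with
    | true =>
      have hP' : r = r2 := hP
      subst hP'
      have hl := he r h12.le
      simp only [idx, wB1, s1, one_mul, Polynomial.eval_mul, Polynomial.eval_one, hr, mul_zero,
        if_true, Polynomial.derivative_mul, Polynomial.eval_add, zero_add]
      have h2 : ¬ (ell.eval r * h.derivative.eval r < 0) := by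
        have := mul_pos_of_neg_of_neg hl hd
        linarith
      rw [if_neg h2, if_neg hl.ne, if_neg (one_ne_zero)]
      norm_num
    | false =>
      have hP' : r = r1 := hP
      subst hP'
      have hl := he r le_rfl
      have hh := hpos r h12
      simp only [idx, wB1, Polynomial.eval_mul, Polynomial.eval_one]
      rw [if_neg (mul_ne_zero hl.ne hh.ne'), if_neg hl.ne, if_neg (one_ne_zero)]
      norm_num
  | b3 r => exact absurd hP (by simp [shII])
end

section
/-! Pairs of quaternionic hermitian forms.  A right quaternionic space is a module over `Q`, the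
opposite of the quaternions.  A quaternionic hermitian form `h` is represented by its real part
`b x y = Re h x y`, a real bilinear symmetric form with `b (q • x) y = b x (star q • y)`.
Subspaces are `Submodule Q V`, dimension is `Module.finrank Q`. -/
open scoped Quaternion
variable {V : Type} [AddCommGroup V] [Module Q V] [Module ℝ V] [IsScalarTower ℝ Q V]


/-- `ell` negative on `[r1,∞)`, `h` positive left of `r1`, simple zero at `r1`, negative right -/
theorem pw_II_6c (r1 r2 : ℝ) (h12 : r1 < r2) (P : Piece) (hP : shII r1 r2 P)
    (ell h : Polynomial ℝ) (he : ∀ x, r1 ≤ x → ell.eval x < 0)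
    (hr : h.eval r1 = 0) (hd : h.derivative.eval r1 < 0) (hpos : ∀ x, x < r1 → 0 < h.eval x)
    (hneg : ∀ x, r1 < x → x ≤ r2 → h.eval x < 0)
    (hneg2 : ∀ x, r2 < x → P = Piece.ray true x → h.eval x < 0) :
    (idx (ell * h) P : ℤ) + (idx 1 P : ℤ) + (wA1 r1 P + wB2 r1 r2 P) ≤ (idx ell P : ℤ) := by
  have hst : sg true = 1 := by simp [sg]
  have hsf : sg false = -1 := by simp [sg]
  rcases P with ⟨e, x⟩ | ⟨r, s⟩ | ⟨e, r⟩ | r
  · cases e
    · -- ray false
      have hx : r1 ≤ x ∧ x ≤ r2 := hP
      have hex := he x hx.1
      have i1 : idx 1 (Piece.ray false x) = 1 := by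
        simp only [idx, hsf, Polynomial.eval_one]; norm_num
      have w1 : wA1 r1 (Piece.ray false x) = -1 := rfl
      have hnn : (0 : ℤ) ≤ (idx ell (Piece.ray false x) : ℤ) := Int.natCast_nonneg _
      rcases hx.1.eq_or_lt with heq | hlt
      · subst heq
        have i2 : idx (ell * h) (Piece.ray false r1) = 0 := by
          simp only [idx, hsf, Polynomial.eval_mul, hr]; norm_num
        have w2 : wB2 r1 r2 (Piece.ray false r1) = 0 := by simp [wB2]
        rw [i1, i2, w1, w2]
        norm_num
      · have hhx := hneg x hlt hx.2
        have i2 : idx (ell * h) (Piece.ray false x) = 1 := by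
          simp only [idx, hsf, Polynomial.eval_mul]
          rw [if_pos]
          have := mul_pos_of_neg_of_neg hex hhx
          linarith
        have w2 : wB2 r1 r2 (Piece.ray false x) = -1 := by
          simp only [wB2]
          rw [if_neg hlt.ne']
        rw [i1, i2, w1, w2]
        norm_num
    · -- ray true
      have hx : x ≤ r1 ∨ r2 ≤ x := hP
      have i1 : idx 1 (Piece.ray true x) = 0 := by
        simp only [idx, hst, Polynomial.eval_one]; norm_num
      rcases hx with hx | hx
      · have w1 : wA1 r1 (Piece.ray true x) = 1 := by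
          simp only [wA1]
          rw [if_pos hx]
        rcases hx.lt_or_eq with hlt | heq
        · have hhx := hpos x hlt
          have w2 : wB2 r1 r2 (Piece.ray true x) = -1 := by
            simp only [wB2]
            rw [if_neg (by linarith), if_pos hlt]
          have i2 : idx (ell * h) (Piece.ray true x) = idx ell (Piece.ray true x) := by
            simp only [idx, hst, Polynomial.eval_mul, one_mul]
            have : ell.eval x * h.eval x < 0 ↔ ell.eval x < 0 := by
              rw [mul_neg_iff]
              constructor
              · rintro (⟨_, h2⟩ | ⟨h1, _⟩)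
                · linarith
                · exact h1
              · intro h1
                exact Or.inr ⟨h1, hhx⟩
            by_cases hc : ell.eval x < 0
            · rw [if_pos (this.2 hc), if_pos hc]
            · rw [if_neg (fun h1 => hc (this.1 h1)), if_neg hc]
          rw [i1, i2, w1, w2]
          norm_num
        · subst heq
          have w2 : wB2 x r2 (Piece.ray true x) = 0 := by
            simp only [wB2]
            rw [if_neg (by linarith), if_neg (lt_irrefl _)]
          have i2 : idx (ell * h) (Piece.ray true x) = 0 := by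
            simp only [idx, hst, Polynomial.eval_mul, hr]; norm_num
          have i3 : idx ell (Piece.ray true x) = 1 := by
            simp only [idx, hst, one_mul]
            rw [if_pos (he x le_rfl)]
          rw [i1, i2, i3, w1, w2]
          norm_num
      · have hex := he x (h12.le.trans hx)
        have hhx : h.eval x < 0 := by
          rcases hx.eq_or_lt with heq | hlt
          · rw [← heq]
            exact hneg r2 h12 le_rfl
          · exact hneg2 x hlt rfl
        have w1 : wA1 r1 (Piece.ray true x) = 0 := by
          simp only [wA1]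
          rw [if_neg (by linarith)]
        have w2 : wB2 r1 r2 (Piece.ray true x) = 1 := by
          simp only [wB2]
          rw [if_pos hx]
        have i2 : idx (ell * h) (Piece.ray true x) = 0 := by
          simp only [idx, hst, Polynomial.eval_mul, one_mul]
          rw [if_neg]
          have := mul_pos_of_neg_of_neg hex hhx
          linarith
        have i3 : idx ell (Piece.ray true x) = 1 := by
          simp only [idx, hst, one_mul]
          rw [if_pos hex]
        rw [i1, i2, i3, w1, w2]
        norm_num
  · exact absurd hP id
  · have i1 : idx 1 (Piece.b2 e r) = 1 := by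
      simp only [idx, Polynomial.eval_one]; norm_num
    cases e
    · have hrr : r = r1 := hP
      subst hrr
      have hex := he r le_rfl
      have w1 : wA1 r (Piece.b2 false r) = 0 := rfl
      have w2 : wB2 r r2 (Piece.b2 false r) = -1 := rfl
      have i2 : idx (ell * h) (Piece.b2 false r) = 1 := by
        simp only [idx, hsf, Polynomial.eval_mul, hr, mul_zero, if_true, Polynomial.derivative_mul,
          Polynomial.eval_add, zero_add]
        rw [if_pos]
        have := mul_pos_of_neg_of_neg hex hd
        linarith
      have i3 : idx ell (Piece.b2 false r) = 1 := by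
        simp only [idx]
        rw [if_neg hex.ne]
      rw [i1, i2, i3, w1, w2]
      norm_num
    · have hrr : r = r2 := hP
      subst hrr
      have hex := he r h12.le
      have hhx := hneg r h12 le_rfl
      have w1 : wA1 r1 (Piece.b2 true r) = -1 := rfl
      have w2 : wB2 r1 r (Piece.b2 true r) = 0 := rfl
      have i2 : idx (ell * h) (Piece.b2 true r) = 1 := by
        simp only [idx, Polynomial.eval_mul]
        rw [if_neg (mul_ne_zero hex.ne hhx.ne)]
      have i3 : idx ell (Piece.b2 true r) = 1 := by
        simp only [idx]
        rw [if_neg hex.ne]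
      rw [i1, i2, i3, w1, w2]
      norm_num
  · exact absurd hP id
end

section
/-! Pairs of quaternionic hermitian forms.  A right quaternionic space is a module over `Q`, the
opposite of the quaternions.  A quaternionic hermitian form `h` is represented by its real part
`b x y = Re h x y`, a real bilinear symmetric form with `b (q • x) y = b x (star q • y)`.
Subspaces are `Submodule Q V`, dimension is `Module.finrank Q`. -/
open scoped Quaternion
variable {V : Type} [AddCommGroup V] [Module Q V] [Module ℝ V] [IsScalarTower ℝ Q V]


/-- `ell` negative on `(-∞,r2]`, `h = X - r1` -/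
theorem pw_II_7a (r1 r2 : ℝ) (h12 : r1 < r2) (P : Piece) (hP : shII r1 r2 P)
    (ell : Polynomial ℝ) (he : ∀ x, x ≤ r2 → ell.eval x < 0) :
    (idx (ell * (Polynomial.X - Polynomial.C r1)) P : ℤ) + (idx 1 P : ℤ) + wA1 r1 P
      ≤ (idx ell P : ℤ) := by
  cases P with
  | ray e x =>
    cases e with
    | true =>
      simp only [idx, sg, wA1, shII, Polynomial.eval_mul, Polynomial.eval_sub, Polynomial.eval_X,
        Polynomial.eval_C, Polynomial.eval_one, if_true, one_mul] at hP ⊢
      rw [if_neg (show ¬ ((1:ℝ) < 0) by norm_num)]
      by_cases hx : x ≤ r1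
      · rw [if_pos hx]
        have h1 : ell.eval x < 0 := he x (by linarith)
        rw [if_pos h1, if_neg (by nlinarith)]
        norm_num
      · rw [if_neg hx]
        push Not at hx
        by_cases h1 : ell.eval x < 0
        · rw [if_pos h1]
          split_ifs <;> norm_num
        · rw [if_neg h1, if_neg (by push Not at h1 ⊢; exact mul_nonneg h1 (by linarith))]
          norm_num
    | false =>
      simp only [idx, sg, wA1, shII, Polynomial.eval_mul, Polynomial.eval_sub, Polynomial.eval_X,
        Polynomial.eval_C, Polynomial.eval_one] at hP ⊢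
      have h1 : ell.eval x < 0 := he x hP.2
      have h2 : ¬ ((if false = true then (1:ℝ) else -1) * (ell.eval x * (x - r1)) < 0) := by
        rw [if_neg (by decide)]
        nlinarith [mul_nonneg (by linarith : (0:ℝ) ≤ - ell.eval x) (by linarith [hP.1] : (0:ℝ) ≤ x - r1)]
      rw [if_neg h2]
      have h3 : ((if false = true then (1:ℝ) else -1) * 1 < 0) := by
        rw [if_neg (by decide)]; norm_num
      rw [if_pos h3]
      split_ifs <;> norm_num
  | cx r s => exact absurd hP (by simp [shII])
  | b2 e r =>
    cases e with
    | true =>
      simp only [idx, sg, wA1, shII, Polynomial.eval_mul, Polynomial.eval_sub, Polynomial.eval_X,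
        Polynomial.eval_C, Polynomial.eval_one] at hP ⊢
      subst hP
      have h1 : ell.eval r < 0 := he r le_rfl
      rw [if_neg (show ¬ (ell.eval r * (r - r1) = 0) from
        mul_ne_zero h1.ne (by linarith)), if_neg (show ¬ ((1:ℝ) = 0) by norm_num), if_neg h1.ne]
      norm_num
    | false =>
      simp only [idx, wA1, shII, Polynomial.eval_mul, Polynomial.eval_sub, Polynomial.eval_X,
        Polynomial.eval_C, Polynomial.eval_one] at hP ⊢
      subst hP
      have h1 : ell.eval r < 0 := he r h12.le
      have h3 : ¬ (sg false *
          (Polynomial.derivative (ell * (Polynomial.X - Polynomial.C r))).eval r < 0) := by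
        have h4 : sg false = -1 := by simp [sg]
        rw [h4]
        simp only [Polynomial.derivative_mul, Polynomial.derivative_sub, Polynomial.derivative_X,
          Polynomial.derivative_C, Polynomial.eval_add, Polynomial.eval_mul, Polynomial.eval_sub,
          Polynomial.eval_X, Polynomial.eval_C, Polynomial.eval_one, Polynomial.eval_zero]
        nlinarith
      rw [if_pos (show ell.eval r * (r - r) = 0 by ring), if_neg h3,
        if_neg (show ¬ ((1:ℝ) = 0) by norm_num), if_neg h1.ne]
      norm_num
  | b3 r => exact absurd hP (by simp [shII])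
end

section
/-! Pairs of quaternionic hermitian forms.  A right quaternionic space is a module over `Q`, the
opposite of the quaternions.  A quaternionic hermitian form `h` is represented by its real part
`b x y = Re h x y`, a real bilinear symmetric form with `b (q • x) y = b x (star q • y)`.
Subspaces are `Submodule Q V`, dimension is `Module.finrank Q`. -/
open scoped Quaternion
variable {V : Type} [AddCommGroup V] [Module Q V] [Module ℝ V] [IsScalarTower ℝ Q V]


/-- `ell` negative on `(-∞,r2]`, `h = X - r2` -/
theorem pw_II_7c (r1 r2 : ℝ) (h12 : r1 < r2) (P : Piece) (hP : shII r1 r2 P)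
    (ell : Polynomial ℝ) (he : ∀ x, x ≤ r2 → ell.eval x < 0) :
    (idx (ell * (Polynomial.X - Polynomial.C r2)) P : ℤ) + (idx 1 P : ℤ)
      + (wB1 r2 P + wA2 r1 r2 P) ≤ (idx ell P : ℤ) := by
  classical
  cases P with
  | ray e x =>
    cases e with
    | true =>
      have hP' : x ≤ r1 ∨ r2 ≤ x := hP
      simp only [idx, wB1, wA2, sg, if_true, Polynomial.eval_mul, Polynomial.eval_sub,
        Polynomial.eval_X, Polynomial.eval_C, Polynomial.eval_one, one_mul]
      rcases hP' with h | h
      · have h1 := he x (by linarith)
        have h2 : 0 < ell.eval x * (x - r2) := mul_pos_of_neg_of_neg h1 (by linarith)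
        rw [if_neg (not_lt.2 h2.le), if_neg (by norm_num), if_neg (by linarith), if_pos h, if_pos h1]
        norm_num
      · rcases h.eq_or_lt with h3 | h3
        · subst h3
          have h1 := he r2 le_rfl
          rw [if_neg (by simp), if_neg (by norm_num), if_pos le_rfl, if_neg (by linarith),
            if_neg (lt_irrefl _), if_pos h1]
          norm_num
        · rw [if_neg (show ¬ ((1 : ℝ) < 0) by norm_num), if_pos h, if_neg (show ¬ (x ≤ r1) by linarith),
            if_pos h3]
          by_cases h1 : ell.eval x < 0
          · rw [if_pos h1]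
            split_ifs <;> norm_num
          · have h2 : ¬ (ell.eval x * (x - r2) < 0) := by
              push Not at h1 ⊢
              exact mul_nonneg h1 (by linarith)
            rw [if_neg h1, if_neg h2]; norm_num
    | false =>
      have hP' : r1 ≤ x ∧ x ≤ r2 := hP
      have h1 := he x hP'.2
      simp only [idx, wB1, wA2, sg, Bool.false_eq_true, if_false, Polynomial.eval_mul, Polynomial.eval_sub,
        Polynomial.eval_X, Polynomial.eval_C, Polynomial.eval_one]
      rcases hP'.2.eq_or_lt with h3 | h3
      · subst h3
        rw [if_neg (by simp), if_pos (by norm_num), if_pos rfl, if_neg (by linarith)]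
        norm_num
      · have h2 : 0 < ell.eval x * (x - r2) := mul_pos_of_neg_of_neg h1 (by linarith)
        rw [if_pos (by linarith), if_pos (by norm_num), if_neg h3.ne, if_neg (by linarith)]
        norm_num
  | cx r s => exact absurd hP (by simp [shII])
  | b3 r => exact absurd hP (by simp [shII])
  | b2 e r =>
    cases e with
    | true =>
      have hP' : r = r2 := hP
      subst hP'
      have h1 := he r le_rfl
      simp only [idx, wB1, wA2, sg, if_true, Polynomial.eval_mul, Polynomial.eval_sub,
        Polynomial.eval_X, Polynomial.eval_C, Polynomial.eval_one, one_mul, sub_self, mul_zero,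
        Polynomial.derivative_mul, Polynomial.derivative_sub, Polynomial.derivative_X,
        Polynomial.derivative_C, Polynomial.eval_add, sub_zero, mul_one, zero_add,
        one_ne_zero, if_false]
      rw [if_pos h1, if_neg h1.ne]
      norm_num
    | false =>
      have hP' : r = r1 := hP
      subst hP'
      have h1 := he r h12.le
      have h2 : ell.eval r * (r - r2) ≠ 0 := mul_ne_zero h1.ne (by linarith)
      simp only [idx, wB1, wA2, Polynomial.eval_mul, Polynomial.eval_sub,
        Polynomial.eval_X, Polynomial.eval_C, Polynomial.eval_one, one_ne_zero, if_false]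
      rw [if_neg h2, if_neg h1.ne]
      norm_num
end

section
/-! Pairs of quaternionic hermitian forms.  A right quaternionic space is a module over `Q`, the
opposite of the quaternions.  A quaternionic hermitian form `h` is represented by its real part
`b x y = Re h x y`, a real bilinear symmetric form with `b (q • x) y = b x (star q • y)`.
Subspaces are `Submodule Q V`, dimension is `Module.finrank Q`. -/
open scoped Quaternion
variable {V : Type} [AddCommGroup V] [Module Q V] [Module ℝ V] [IsScalarTower ℝ Q V]


theorem ws_add (w w' : Piece → ℤ) (L : List Piece) :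
    ws (fun P => w P + w' P) L = ws w L + ws w' L := by
  induction L with
  | nil => simp [ws]
  | cons a L ih =>
    simp only [ws, List.map_cons, List.sum_cons] at ih ⊢
    rw [ih]; ring
end

section
/-! Pairs of quaternionic hermitian forms.  A right quaternionic space is a module over `Q`, the
opposite of the quaternions.  A quaternionic hermitian form `h` is represented by its real part
`b x y = Re h x y`, a real bilinear symmetric form with `b (q • x) y = b x (star q • y)`.
Subspaces are `Submodule Q V`, dimension is `Module.finrank Q`. -/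
open scoped Quaternion
variable {V : Type} [AddCommGroup V] [Module Q V] [Module ℝ V] [IsScalarTower ℝ Q V]


theorem shift_r1_exists (r1 : ℝ) (L : List Piece) :
    ∃ r1' < r1, ∀ x : ℝ, Piece.ray true x ∈ L → x < r1 → x < r1' := by
  induction L with
  | nil =>
    refine ⟨r1 - 1, by linarith, ?_⟩
    intro x hx
    exact absurd hx (List.not_mem_nil)
  | cons P L ih =>
    obtain ⟨r0, h0, h⟩ := ih
    by_cases hP : ∃ x : ℝ, P = Piece.ray true x ∧ x < r1
    · obtain ⟨x0, hx0, hx0'⟩ := hP
      refine ⟨max r0 ((x0 + r1) / 2), max_lt h0 (by linarith), ?_⟩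
      intro x hx hxr
      rcases List.mem_cons.mp hx with h1 | h1
      · rw [hx0] at h1
        have h2 : x = x0 := by
          injection h1
        rw [h2]
        exact lt_of_lt_of_le (by linarith) (le_max_right _ _)
      · exact lt_of_lt_of_le (h x h1 hxr) (le_max_left _ _)
    · refine ⟨r0, h0, ?_⟩
      intro x hx hxr
      rcases List.mem_cons.mp hx with h1 | h1
      · exact absurd ⟨x, h1.symm, hxr⟩ hP
      · exact h x h1 hxr

theorem shift_r1_ws (w w' : Piece → ℤ) (L : List Piece) (h : ∀ P ∈ L, w P = w' P) :
    ws w L = ws w' L := by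
  unfold ws
  rw [List.map_congr_left h]

/-- when `r1` is not an eigenvalue it can be moved to the left -/
theorem shift_r1 (r1 r2 : ℝ) (h12 : r1 < r2) (L : List Piece) (hL : ∀ P ∈ L, shII r1 r2 P)
    (hav : ∀ P ∈ L, av r1 P) : ∃ r1' < r1, (∀ P ∈ L, shII r1' r2 P) ∧
      ws (wA1 r1') L = ws (wA1 r1) L ∧ ws (wA2 r1' r2) L = ws (wA2 r1 r2) L ∧
      ws (wB2 r1' r2) L = ws (wB2 r1 r2) L := by
  obtain ⟨r1', hlt, hx⟩ := shift_r1_exists r1 L
  refine ⟨r1', hlt, ?_, ?_, ?_, ?_⟩
  · intro P hP
    have h1 := hL P hP
    have h2 := hav P hP
    rcases P with ⟨e, x⟩ | ⟨r, s⟩ | ⟨e, r⟩ | ⟨r⟩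
    · cases e
      · exact ⟨hlt.le.trans h1.1, h1.2⟩
      · rcases h1 with h1 | h1
        · left
          have h3 : x < r1 := lt_of_le_of_ne h1 h2
          exact (hx x hP h3).le
        · right
          exact h1
    · exact h1
    · cases e
      · exact absurd h1 h2
      · exact h1
    · exact h1
  · refine shift_r1_ws _ _ L fun P hP => ?_
    have h2 := hav P hP
    rcases P with ⟨e, x⟩ | ⟨r, s⟩ | ⟨e, r⟩ | ⟨r⟩
    · cases e
      · rfl
      · change (if x ≤ r1' then (1 : ℤ) else 0) = if x ≤ r1 then (1 : ℤ) else 0
        by_cases h3 : x ≤ r1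
        · have h4 : x < r1 := lt_of_le_of_ne h3 h2
          rw [if_pos (hx x hP h4).le, if_pos h3]
        · rw [if_neg h3, if_neg (fun h => h3 (h.trans hlt.le))]
    · rfl
    · cases e <;> rfl
    · rfl
  · refine shift_r1_ws _ _ L fun P hP => ?_
    have h2 := hav P hP
    rcases P with ⟨e, x⟩ | ⟨r, s⟩ | ⟨e, r⟩ | ⟨r⟩
    · cases e
      · rfl
      · change (if x ≤ r1' then (1 : ℤ) else if r2 < x then -1 else 0) =
          if x ≤ r1 then (1 : ℤ) else if r2 < x then -1 else 0
        by_cases h3 : x ≤ r1
        · have h4 : x < r1 := lt_of_le_of_ne h3 h2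
          rw [if_pos (hx x hP h4).le, if_pos h3]
        · rw [if_neg h3, if_neg (fun h => h3 (h.trans hlt.le))]
    · rfl
    · cases e <;> rfl
    · rfl
  · refine shift_r1_ws _ _ L fun P hP => ?_
    have h1 := hL P hP
    have h2 := hav P hP
    rcases P with ⟨e, x⟩ | ⟨r, s⟩ | ⟨e, r⟩ | ⟨r⟩
    · cases e
      · change (if x = r1' then (0 : ℤ) else -1) = if x = r1 then (0 : ℤ) else -1
        have h3 : x ≠ r1' := by
          have h4 : r1 ≤ x := h1.1
          intro h5
          rw [h5] at h4
          exact absurd hlt (not_lt.mpr h4)
        have h6 : x ≠ r1 := h2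
        rw [if_neg h3, if_neg h6]
      · change (if r2 ≤ x then (1 : ℤ) else if x < r1' then -1 else 0) =
          if r2 ≤ x then (1 : ℤ) else if x < r1 then -1 else 0
        by_cases h3 : x < r1
        · rw [if_pos (hx x hP h3), if_pos h3]
        · rw [if_neg h3, if_neg (show ¬ x < r1' from fun h => h3 (h.trans hlt))]
    · rfl
    · cases e <;> rfl
    · rfl
end

section
/-! Pairs of quaternionic hermitian forms.  A right quaternionic space is a module over `Q`, the
opposite of the quaternions.  A quaternionic hermitian form `h` is represented by its real part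
`b x y = Re h x y`, a real bilinear symmetric form with `b (q • x) y = b x (star q • y)`.
Subspaces are `Submodule Q V`, dimension is `Module.finrank Q`. -/
open scoped Quaternion
variable {V : Type} [AddCommGroup V] [Module Q V] [Module ℝ V] [IsScalarTower ℝ Q V]


theorem exists_shift_19604 (r2 : ℝ) (L : List Piece) : ∃ r2', r2 < r2' ∧
    ∀ P ∈ L, ∀ x, P = Piece.ray true x → r2 < x → r2' < x := by
  induction L with
  | nil => exact ⟨r2 + 1, by linarith, by simp⟩
  | cons P L ih =>
    obtain ⟨r, hr, h⟩ := ih
    by_cases hP : ∃ x, P = Piece.ray true x ∧ r2 < x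
    · obtain ⟨x, hx, hx2⟩ := hP
      refine ⟨min r ((r2 + x) / 2), lt_min hr (by linarith), ?_⟩
      intro P' hP' y hy hy2
      rcases List.mem_cons.1 hP' with h' | h'
      · have : x = y := by
          rw [h', hx] at hy
          injection hy
        subst this
        exact lt_of_le_of_lt (min_le_right _ _) (by linarith)
      · exact lt_of_le_of_lt (min_le_left _ _) (h P' h' y hy hy2)
    · refine ⟨r, hr, ?_⟩
      intro P' hP' y hy hy2
      rcases List.mem_cons.1 hP' with h' | h'
      · exact absurd ⟨y, h' ▸ hy, hy2⟩ hP
      · exact h P' h' y hy hy2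

theorem shift_r2 (r1 r2 : ℝ) (h12 : r1 < r2) (L : List Piece) (hL : ∀ P ∈ L, shII r1 r2 P)
    (hav : ∀ P ∈ L, av r2 P) : ∃ r2', r2 < r2' ∧ (∀ P ∈ L, shII r1 r2' P) ∧
      ws (wB1 r2') L = ws (wB1 r2) L ∧ ws (wA2 r1 r2') L = ws (wA2 r1 r2) L ∧
      ws (wB2 r1 r2') L = ws (wB2 r1 r2) L := by
  obtain ⟨r2', hr, hx⟩ := exists_shift_19604 r2 L
  have key : ∀ P ∈ L, shII r1 r2' P ∧ wB1 r2' P = wB1 r2 P ∧ wA2 r1 r2' P = wA2 r1 r2 P ∧
      wB2 r1 r2' P = wB2 r1 r2 P := by
    intro P hP
    have h1 := hL P hP
    have h2 := hav P hP
    have h3 := hx P hP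
    match P, h1, h2, h3 with
    | Piece.ray true x, h1, h2, h3 =>
      simp only [shII, av] at h1 h2
      have h4 : r2 < x → r2' < x := h3 x rfl
      have e1 : r2' ≤ x ↔ r2 ≤ x := by
        constructor
        · intro h; linarith
        · intro h
          exact (h4 (lt_of_le_of_ne h (Ne.symm h2))).le
      have e2 : r2' < x ↔ r2 < x := ⟨fun h => by linarith, h4⟩
      refine ⟨?_, ?_, ?_, ?_⟩
      · simp only [shII]
        rw [e1]
        exact h1
      · simp only [wB1, e1]
      · simp only [wA2, e2]
      · simp only [wB2, e1]
    | Piece.ray false z, h1, h2, _ =>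
      simp only [shII, av] at h1 h2
      have e1 : z ≠ r2' := by intro h; linarith [h1.2]
      refine ⟨?_, ?_, ?_, ?_⟩
      · simp only [shII]
        exact ⟨h1.1, by linarith [h1.2]⟩
      · simp only [wB1]
      · simp only [wA2, e1, h2, if_false]
      · simp only [wB2]
    | Piece.b2 true r, h1, h2, _ =>
      simp only [shII, av] at h1 h2
      exact absurd h1 h2
    | Piece.b2 false r, h1, h2, _ =>
      simp only [shII] at h1
      exact ⟨h1, rfl, rfl, rfl⟩
    | Piece.b3 r, h1, _, _ => exact absurd h1 (by simp [shII])
    | Piece.cx r s, h1, _, _ => exact absurd h1 (by simp [shII])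
  refine ⟨r2', hr, fun P hP => (key P hP).1, ?_, ?_, ?_⟩
  · unfold ws
    rw [List.map_congr_left (fun P hP => (key P hP).2.1)]
  · unfold ws
    rw [List.map_congr_left (fun P hP => (key P hP).2.2.1)]
  · unfold ws
    rw [List.map_congr_left (fun P hP => (key P hP).2.2.2)]
end

section
/-! Pairs of quaternionic hermitian forms.  A right quaternionic space is a module over `Q`, the
opposite of the quaternions.  A quaternionic hermitian form `h` is represented by its real part
`b x y = Re h x y`, a real bilinear symmetric form with `b (q • x) y = b x (star q • y)`.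
Subspaces are `Submodule Q V`, dimension is `Module.finrank Q`. -/
open scoped Quaternion
variable {V : Type} [AddCommGroup V] [Module Q V] [Module ℝ V] [IsScalarTower ℝ Q V]


theorem lcrit_II_bound (L : List Piece) (r : ℝ) :
    ∃ s, r < s ∧ ∀ x, Piece.ray true x ∈ L → x < s := by
  induction L with
  | nil => exact ⟨r + 1, by linarith, by intro x hx; simp at hx⟩
  | cons P L ih =>
    obtain ⟨s, hs, h⟩ := ih
    cases P with
    | ray e x =>
      refine ⟨max s (x + 1), lt_of_lt_of_le hs (le_max_left _ _), ?_⟩
      intro y hy
      rcases List.mem_cons.1 hy with hy | hy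
      · injection hy with h1 h2
        rw [h2]
        exact lt_of_lt_of_le (by linarith) (le_max_right _ _)
      · exact lt_of_lt_of_le (h y hy) (le_max_left _ _)
    | cx a b =>
      refine ⟨s, hs, ?_⟩
      intro y hy
      rcases List.mem_cons.1 hy with hy | hy
      · exact absurd hy (by simp)
      · exact h y hy
    | b2 a b =>
      refine ⟨s, hs, ?_⟩
      intro y hy
      rcases List.mem_cons.1 hy with hy | hy
      · exact absurd hy (by simp)
      · exact h y hy
    | b3 a =>
      refine ⟨s, hs, ?_⟩
      intro y hy
      rcases List.mem_cons.1 hy with hy | hy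
      · exact absurd hy (by simp)
      · exact h y hy

theorem lcrit_II_nd (a b : ℝ) :
    ((Polynomial.X - Polynomial.C a) * (Polynomial.X - Polynomial.C b)).natDegree ≤ 2 := by
  compute_degree

theorem lcrit_II_c2 (a b : ℝ) :
    0 < ((Polynomial.X - Polynomial.C a) * (Polynomial.X - Polynomial.C b)).coeff 2 := by
  have h : ((Polynomial.X - Polynomial.C a) * (Polynomial.X - Polynomial.C b) : Polynomial ℝ)
      = Polynomial.X ^ 2 - Polynomial.C (a + b) * Polynomial.X + Polynomial.C (a * b) := by
    rw [Polynomial.C_add, Polynomial.C_mul]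
    ring
  rw [h]
  simp

theorem lcrit_II_ev (a b x : ℝ) :
    ((Polynomial.X - Polynomial.C a) * (Polynomial.X - Polynomial.C b)).eval x
      = (x - a) * (x - b) := by
  simp

theorem lcrit_II_dev (a b x : ℝ) :
    ((Polynomial.X - Polynomial.C a) * (Polynomial.X - Polynomial.C b)).derivative.eval x
      = (x - b) + (x - a) := by
  simp

theorem lcrit_II_mid (r1 r2 t : ℝ) (h1 : r1 < t) (h2 : t < r2) (L : List Piece)
    (hL : ∀ P ∈ L, shII r1 r2 P)
    (hA : 0 ≤ ws (wA1 r1) L ∨ 0 ≤ ws (wA2 r1 r2) L)
    (hB : 0 ≤ ws (wB1 r2) L ∨ 0 ≤ ws (wB2 r1 r2) L) (hav : ∀ P ∈ L, av t P)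
    (σ : ℝ) (hσ : σ = 1 ∨ σ = -1) : ∃ h : Polynomial ℝ, h.natDegree ≤ 2 ∧
    0 < h.eval t ∧
    tot (Polynomial.C σ * (Polynomial.X - Polynomial.C t) * h) L + tot 1 L
      ≤ tot (Polynomial.C σ * (Polynomial.X - Polynomial.C t)) L := by
  rcases hσ with rfl | rfl
  · rcases hA with hA | hA
    · refine ⟨Polynomial.X - Polynomial.C r1, ?_, ?_, ?_⟩
      · compute_degree!
      · rw [Polynomial.eval_sub, Polynomial.eval_X, Polynomial.eval_C]
        linarith
      · exact sum_lemma L _ _ (wA1 r1) (fun P hP => pw_II_4a r1 r2 t h1 h2 P (hL P hP) (hav P hP)) hA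
    · refine ⟨-((Polynomial.X - Polynomial.C r1) * (Polynomial.X - Polynomial.C r2)), ?_, ?_, ?_⟩
      · compute_degree
      · rw [Polynomial.eval_neg, lcrit_II_ev]
        nlinarith [mul_pos (sub_pos.2 h1) (sub_pos.2 h2)]
      · exact sum_lemma L _ _ (wA2 r1 r2)
          (fun P hP => pw_II_4b r1 r2 t h1 h2 P (hL P hP) (hav P hP)) hA
  · rcases hB with hB | hB
    · refine ⟨Polynomial.C r2 - Polynomial.X, ?_, ?_, ?_⟩
      · compute_degree!
      · rw [Polynomial.eval_sub, Polynomial.eval_X, Polynomial.eval_C]
        linarith
      · exact sum_lemma L _ _ (wB1 r2) (fun P hP => pw_II_5a r1 r2 t h1 h2 P (hL P hP) (hav P hP)) hB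
    · refine ⟨-((Polynomial.X - Polynomial.C r1) * (Polynomial.X - Polynomial.C r2)), ?_, ?_, ?_⟩
      · compute_degree
      · rw [Polynomial.eval_neg, lcrit_II_ev]
        nlinarith [mul_pos (sub_pos.2 h1) (sub_pos.2 h2)]
      · exact sum_lemma L _ _ (wB2 r1 r2)
          (fun P hP => pw_II_5b r1 r2 t h1 h2 P (hL P hP) (hav P hP)) hB

theorem lcrit_II (r1 r2 : ℝ) (h12 : r1 < r2) (L : List Piece) (hL : ∀ P ∈ L, shII r1 r2 P)
    (hA : 0 ≤ ws (wA1 r1) L ∨ 0 ≤ ws (wA2 r1 r2) L)
    (hB : 0 ≤ ws (wB1 r2) L ∨ 0 ≤ ws (wB2 r1 r2) L) : LCrit L := by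
  -- the positive case
  have G0 : ∀ ell : Polynomial ℝ, (∀ x, r1 ≤ x → x ≤ r2 → 0 < ell.eval x) →
      tot (ell * ((Polynomial.X - Polynomial.C r1) * (Polynomial.X - Polynomial.C r2))) L
        + tot 1 L ≤ tot ell L := by
    intro ell he
    refine sum_lemma L _ _ (fun _ => 0) (fun P hP => pw_II_g r1 r2 h12 P (hL P hP) ell he) ?_
    have : ws (fun _ => 0) L = 0 := by
      unfold ws
      simp
    rw [this]
  have G1 : ∀ ell : Polynomial ℝ, (∀ x, r1 ≤ x → x ≤ r2 → ell.eval x < 0) →
      0 ≤ ws (wA2 r1 r2) L → 0 ≤ ws (wB2 r1 r2) L →
      tot (ell * ((Polynomial.X - Polynomial.C r1) * (Polynomial.X - Polynomial.C r2))) L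
        + tot 1 L ≤ tot ell L := by
    intro ell he ha hb
    refine sum_lemma L _ _ (fun P => wA2 r1 r2 P + wB2 r1 r2 P)
      (fun P hP => pw_II_g1 r1 r2 h12 P (hL P hP) ell he) ?_
    rw [ws_add]
    exact add_nonneg ha hb
  have G6a : ∀ ell h : Polynomial ℝ, (∀ x, r1 ≤ x → ell.eval x < 0) →
      h.eval r2 = 0 → h.derivative.eval r2 < 0 → (∀ x, x < r2 → 0 < h.eval x) →
      (∀ x, r2 < x → Piece.ray true x ∈ L → h.eval x < 0) → 0 ≤ ws (wB1 r2) L →
      tot (ell * h) L + tot 1 L ≤ tot ell L := by
    intro ell h he hr hd hpos hneg hb
    refine sum_lemma L _ _ (wB1 r2) (fun P hP => pw_II_6a r1 r2 h12 P (hL P hP) ell h he hr hd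
      hpos ?_) hb
    intro x hx hPx
    exact hneg x hx (hPx ▸ hP)
  have G6c : ∀ ell h : Polynomial ℝ, (∀ x, r1 ≤ x → ell.eval x < 0) →
      h.eval r1 = 0 → h.derivative.eval r1 < 0 → (∀ x, x < r1 → 0 < h.eval x) →
      (∀ x, r1 < x → x ≤ r2 → h.eval x < 0) →
      (∀ x, r2 < x → Piece.ray true x ∈ L → h.eval x < 0) → 0 ≤ ws (wA1 r1) L →
      0 ≤ ws (wB2 r1 r2) L →
      tot (ell * h) L + tot 1 L ≤ tot ell L := by
    intro ell h he hr hd hpos hneg hneg2 ha hb
    refine sum_lemma L _ _ (fun P => wA1 r1 P + wB2 r1 r2 P)
      (fun P hP => pw_II_6c r1 r2 h12 P (hL P hP) ell h he hr hd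
      hpos hneg ?_) ?_
    · intro x hx hPx
      exact hneg2 x hx (hPx ▸ hP)
    · rw [ws_add]
      exact add_nonneg ha hb
  have G7a : ∀ ell : Polynomial ℝ, (∀ x, x ≤ r2 → ell.eval x < 0) → 0 ≤ ws (wA1 r1) L →
      tot (ell * (Polynomial.X - Polynomial.C r1)) L + tot 1 L ≤ tot ell L := by
    intro ell he ha
    exact sum_lemma L _ _ (wA1 r1) (fun P hP => pw_II_7a r1 r2 h12 P (hL P hP) ell he) ha
  have G7c : ∀ ell : Polynomial ℝ, (∀ x, x ≤ r2 → ell.eval x < 0) → 0 ≤ ws (wB1 r2) L →
      0 ≤ ws (wA2 r1 r2) L →
      tot (ell * (Polynomial.X - Polynomial.C r2)) L + tot 1 L ≤ tot ell L := by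
    intro ell he hb ha
    refine sum_lemma L _ _ (fun P => wB1 r2 P + wA2 r1 r2 P)
      (fun P hP => pw_II_7c r1 r2 h12 P (hL P hP) ell he) ?_
    rw [ws_add]
    exact add_nonneg hb ha
  refine ⟨?_, ?_⟩
  · rintro σ (rfl | rfl)
    · refine ⟨(Polynomial.X - Polynomial.C r1) * (Polynomial.X - Polynomial.C r2),
        lcrit_II_nd _ _, lcrit_II_c2 _ _, G0 _ ?_⟩
      intro x _ _
      rw [Polynomial.eval_C]
      norm_num
    · have hm : ∀ x : ℝ, (Polynomial.C (-1) : Polynomial ℝ).eval x < 0 := by
        intro x
        rw [Polynomial.eval_C]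
        norm_num
      obtain ⟨s, hs, hsL⟩ := lcrit_II_bound L r2
      rcases hB with hB | hB
      · refine ⟨(Polynomial.X - Polynomial.C r2) * (Polynomial.X - Polynomial.C s),
          lcrit_II_nd _ _, lcrit_II_c2 _ _, G6a _ _ (fun x _ => hm x) ?_ ?_ ?_ ?_ hB⟩
        · rw [lcrit_II_ev]; ring
        · rw [lcrit_II_dev]; linarith
        · intro x hx
          rw [lcrit_II_ev]
          exact mul_pos_of_neg_of_neg (by linarith) (by linarith)
        · intro x hx hxL
          rw [lcrit_II_ev]
          exact mul_neg_of_pos_of_neg (by linarith) (by linarith [hsL x hxL])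
      · rcases hA with hA | hA
        · refine ⟨(Polynomial.X - Polynomial.C r1) * (Polynomial.X - Polynomial.C s),
            lcrit_II_nd _ _, lcrit_II_c2 _ _, G6c _ _ (fun x _ => hm x) ?_ ?_ ?_ ?_ ?_ hA hB⟩
          · rw [lcrit_II_ev]; ring
          · rw [lcrit_II_dev]; linarith
          · intro x hx
            rw [lcrit_II_ev]
            exact mul_pos_of_neg_of_neg (by linarith) (by linarith)
          · intro x hx hx2
            rw [lcrit_II_ev]
            exact mul_neg_of_pos_of_neg (by linarith) (by linarith)
          · intro x hx hxL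
            rw [lcrit_II_ev]
            exact mul_neg_of_pos_of_neg (by linarith) (by linarith [hsL x hxL])
        · exact ⟨(Polynomial.X - Polynomial.C r1) * (Polynomial.X - Polynomial.C r2),
            lcrit_II_nd _ _, lcrit_II_c2 _ _, G1 _ (fun x _ _ => hm x) hA hB⟩
  · intro σ t hσ hav
    have hev : ∀ x : ℝ, (Polynomial.C σ * (Polynomial.X - Polynomial.C t)).eval x
        = σ * (x - t) := by
      intro x
      rw [Polynomial.eval_mul, Polynomial.eval_sub, Polynomial.eval_X, Polynomial.eval_C,
        Polynomial.eval_C]
    rcases lt_trichotomy t r1 with ht | ht | ht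
    · -- t < r1
      have hgt : 0 < ((Polynomial.X - Polynomial.C r1) * (Polynomial.X - Polynomial.C r2)).eval t := by
        rw [lcrit_II_ev]
        exact mul_pos_of_neg_of_neg (by linarith) (by linarith)
      rcases hσ with rfl | rfl
      · refine ⟨(Polynomial.X - Polynomial.C r1) * (Polynomial.X - Polynomial.C r2),
          lcrit_II_nd _ _, hgt, G0 _ ?_⟩
        intro x hx1 hx2
        rw [hev]
        linarith
      · have hm : ∀ x : ℝ, r1 ≤ x →
            (Polynomial.C (-1) * (Polynomial.X - Polynomial.C t)).eval x < 0 := by
          intro x hx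
          rw [hev]
          linarith
        rcases hB with hB | hB
        · refine ⟨Polynomial.C r2 - Polynomial.X, ?_, ?_, G6a _ _ hm ?_ ?_ ?_ ?_ hB⟩
          · compute_degree!
          · rw [Polynomial.eval_sub, Polynomial.eval_X, Polynomial.eval_C]
            linarith
          · rw [Polynomial.eval_sub, Polynomial.eval_X, Polynomial.eval_C, sub_self]
          · simp
          · intro x hx
            rw [Polynomial.eval_sub, Polynomial.eval_X, Polynomial.eval_C]
            linarith
          · intro x hx _
            rw [Polynomial.eval_sub, Polynomial.eval_X, Polynomial.eval_C]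
            linarith
        · rcases hA with hA | hA
          · refine ⟨Polynomial.C r1 - Polynomial.X, ?_, ?_, G6c _ _ hm ?_ ?_ ?_ ?_ ?_ hA hB⟩
            · compute_degree!
            · rw [Polynomial.eval_sub, Polynomial.eval_X, Polynomial.eval_C]
              linarith
            · rw [Polynomial.eval_sub, Polynomial.eval_X, Polynomial.eval_C, sub_self]
            · simp
            · intro x hx
              rw [Polynomial.eval_sub, Polynomial.eval_X, Polynomial.eval_C]
              linarith
            · intro x hx _
              rw [Polynomial.eval_sub, Polynomial.eval_X, Polynomial.eval_C]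
              linarith
            · intro x hx _
              rw [Polynomial.eval_sub, Polynomial.eval_X, Polynomial.eval_C]
              linarith
          · exact ⟨(Polynomial.X - Polynomial.C r1) * (Polynomial.X - Polynomial.C r2),
              lcrit_II_nd _ _, hgt, G1 _ (fun x hx _ => hm x hx) hA hB⟩
    · -- t = r1
      subst ht
      obtain ⟨r1', hr1', hL', e1, e2, e3⟩ := shift_r1 t r2 h12 L hL hav
      refine lcrit_II_mid r1' r2 t hr1' h12 L hL' ?_ ?_ hav σ hσ
      · rw [e1, e2]
        exact hA
      · rw [e3]
        exact hB
    · rcases lt_trichotomy t r2 with ht2 | ht2 | ht2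
      · exact lcrit_II_mid r1 r2 t ht ht2 L hL hA hB hav σ hσ
      · -- t = r2
        subst ht2
        obtain ⟨r2', hr2', hL', e1, e2, e3⟩ := shift_r2 r1 t h12 L hL hav
        refine lcrit_II_mid r1 r2' t h12 hr2' L hL' ?_ ?_ hav σ hσ
        · rw [e2]
          exact hA
        · rw [e1, e3]
          exact hB
      · -- t > r2
        have hgt : 0 < ((Polynomial.X - Polynomial.C r1) * (Polynomial.X - Polynomial.C r2)).eval t := by
          rw [lcrit_II_ev]
          exact mul_pos (by linarith) (by linarith)
        rcases hσ with rfl | rfl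
        · have hm : ∀ x : ℝ, x ≤ r2 →
              (Polynomial.C 1 * (Polynomial.X - Polynomial.C t)).eval x < 0 := by
            intro x hx
            rw [hev]
            linarith
          rcases hA with hA | hA
          · refine ⟨Polynomial.X - Polynomial.C r1, ?_, ?_, G7a _ hm hA⟩
            · compute_degree!
            · rw [Polynomial.eval_sub, Polynomial.eval_X, Polynomial.eval_C]
              linarith
          · rcases hB with hB | hB
            · refine ⟨Polynomial.X - Polynomial.C r2, ?_, ?_, G7c _ hm hB hA⟩
              · compute_degree!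
              · rw [Polynomial.eval_sub, Polynomial.eval_X, Polynomial.eval_C]
                linarith
            · exact ⟨(Polynomial.X - Polynomial.C r1) * (Polynomial.X - Polynomial.C r2),
                lcrit_II_nd _ _, hgt, G1 _ (fun x _ hx => hm x hx) hA hB⟩
        · refine ⟨(Polynomial.X - Polynomial.C r1) * (Polynomial.X - Polynomial.C r2),
            lcrit_II_nd _ _, hgt, G0 _ ?_⟩
          intro x hx1 hx2
          rw [hev]
          linarith

/-! ### from LCrit to Crit -/
end

end Pool.QN
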