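import Pool.Agent.Helper9.QN.Defs
import Pool.Agent.Helper9.QP.A1
import Pool.Agent.Helper9.QP.B2
import Pool.Agent.Helper9.QP.G2

set_option autoImplicit false
set_option maxHeartbeats 1000000

namespace Pool.QN

section
/-! Pairs of quaternionic hermitian forms.  A right quaternionic space is a module over `Q`, the
opposite of the quaternions.  A quaternionic hermitian form `h` is represented by its real part
`b x y = Re h x y`, a real bilinear symmetric form with `b (q • x) y = b x (star q • y)`.
Subspaces are `Submodule Q V`, dimension is `Module.finrank Q`. -/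
open scoped Quaternion
variable {V : Type} [AddCommGroup V] [Module Q V] [Module ℝ V] [IsScalarTower ℝ Q V]


theorem poly_comb (μ ν ρ τ : ℝ) (hd : μ * τ - ν * ρ ≠ 0) (h : Polynomial ℝ)
    (hdeg : h.natDegree ≤ 2)
    (hpos : (ν ≠ 0 ∧ 0 < h.eval (-μ / ν)) ∨ (ν = 0 ∧ 0 < h.coeff 2)) :
    ∃ c p q : ℝ, 0 < c ∧ Polynomial.C c * h =
      (Polynomial.C ρ + Polynomial.C τ * Polynomial.X) ^ 2 +
      Polynomial.C p * (Polynomial.C ρ + Polynomial.C τ * Polynomial.X) *
        (Polynomial.C μ + Polynomial.C ν * Polynomial.X) +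
      Polynomial.C q * (Polynomial.C μ + Polynomial.C ν * Polynomial.X) ^ 2 := by
  have hh : h = Polynomial.C (h.coeff 0) + Polynomial.C (h.coeff 1) * Polynomial.X +
      Polynomial.C (h.coeff 2) * Polynomial.X ^ 2 := by
    have := Polynomial.as_sum_range_C_mul_X_pow' h (n := 3) (by omega)
    conv_lhs => rw [this]
    simp [Finset.sum_range_succ]
  generalize h.coeff 0 = a at hh hpos
  generalize h.coeff 1 = b at hh hpos
  generalize h.coeff 2 = e at hh hpos
  subst hh
  have hE : 0 < a * ν ^ 2 - b * ν * μ + e * μ ^ 2 := by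
    rcases hpos with ⟨hν, hp⟩ | ⟨hν, hp⟩
    · simp only [Polynomial.eval_add, Polynomial.eval_mul, Polynomial.eval_C, Polynomial.eval_X,
        Polynomial.eval_pow] at hp
      have h1 : a * ν ^ 2 - b * ν * μ + e * μ ^ 2 = ν ^ 2 * (a + b * (-μ / ν) + e * (-μ / ν) ^ 2) := by
        field_simp
        ring
      rw [h1]
      positivity
    · subst hν
      have hμ : μ ≠ 0 := by
        rintro rfl
        apply hd
        ring
      have : a * 0 ^ 2 - b * 0 * μ + e * μ ^ 2 = e * μ ^ 2 := by ring
      rw [this]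
      positivity
  set D := μ * τ - ν * ρ with hD
  set E := a * ν ^ 2 - b * ν * μ + e * μ ^ 2 with hEd
  have hE0 := hE.ne'
  refine ⟨D ^ 2 / E, (-2 * a * τ * ν + b * (τ * μ + ν * ρ) - 2 * e * μ * ρ) / E,
    (a * τ ^ 2 - b * τ * ρ + e * ρ ^ 2) / E, by positivity, ?_⟩
  have e0 : D ^ 2 / E * a = ρ ^ 2 + (-2 * a * τ * ν + b * (τ * μ + ν * ρ) - 2 * e * μ * ρ) / E * (ρ * μ)
      + (a * τ ^ 2 - b * τ * ρ + e * ρ ^ 2) / E * μ ^ 2 := by
    rw [eq_comm]
    field_simp
    rw [hEd, hD]
    ring
  have e1 : D ^ 2 / E * b = 2 * ρ * τ + (-2 * a * τ * ν + b * (τ * μ + ν * ρ) - 2 * e * μ * ρ) / E *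
      (ρ * ν + τ * μ) + (a * τ ^ 2 - b * τ * ρ + e * ρ ^ 2) / E * (2 * μ * ν) := by
    rw [eq_comm]
    field_simp
    rw [hEd, hD]
    ring
  have e2 : D ^ 2 / E * e = τ ^ 2 + (-2 * a * τ * ν + b * (τ * μ + ν * ρ) - 2 * e * μ * ρ) / E * (τ * ν)
      + (a * τ ^ 2 - b * τ * ρ + e * ρ ^ 2) / E * ν ^ 2 := by
    rw [eq_comm]
    field_simp
    rw [hEd, hD]
    ring
  generalize D ^ 2 / E = c at e0 e1 e2
  generalize (-2 * a * τ * ν + b * (τ * μ + ν * ρ) - 2 * e * μ * ρ) / E = p at e0 e1 e2
  generalize (a * τ ^ 2 - b * τ * ρ + e * ρ ^ 2) / E = q at e0 e1 e2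
  have f0 := congrArg (Polynomial.C : ℝ → Polynomial ℝ) e0
  have f1 := congrArg (Polynomial.C : ℝ → Polynomial ℝ) e1
  have f2 := congrArg (Polynomial.C : ℝ → Polynomial ℝ) e2
  simp only [map_add, map_mul, map_pow] at f0 f1 f2
  have h2 : (Polynomial.C (2:ℝ) : Polynomial ℝ) = 2 := rfl
  rw [h2] at f1
  linear_combination f0 + Polynomial.X * f1 + Polynomial.X ^ 2 * f2
end

section
/-! Pairs of quaternionic hermitian forms.  A right quaternionic space is a module over `Q`, the
opposite of the quaternions.  A quaternionic hermitian form `h` is represented by its real part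
`b x y = Re h x y`, a real bilinear symmetric form with `b (q • x) y = b x (star q • y)`.
Subspaces are `Submodule Q V`, dimension is `Module.finrank Q`. -/
open scoped Quaternion
variable {V : Type} [AddCommGroup V] [Module Q V] [Module ℝ V] [IsScalarTower ℝ Q V]


theorem idx_scale (c : ℝ) (hc : 0 < c) (m : Polynomial ℝ) (P : Piece) :
    idx (Polynomial.C c * m) P = idx m P := by
  have h1 : ∀ x : ℝ, (c * x < 0) = (x < 0) := fun x => by
    rw [eq_iff_iff]
    constructor
    · intro h; by_contra h'; push Not at h'; nlinarith [mul_nonneg hc.le h']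
    · intro h; exact mul_neg_of_pos_of_neg hc h
  have h2 : ∀ x : ℝ, (c * x = 0) = (x = 0) := fun x => by
    rw [eq_iff_iff, mul_eq_zero, or_iff_right hc.ne']
  have h3 : ∀ x : ℝ, (0 < c * x) = (0 < x) := fun x => by
    rw [eq_iff_iff, mul_pos_iff_of_pos_left hc]
  have h4 : ∀ (e : Bool) (x : ℝ), (sg e * (c * x) < 0) = (sg e * x < 0) := fun e x => by
    rw [← h1 (sg e * x)]
    rw [show sg e * (c * x) = c * (sg e * x) by ring]
  cases P with
  | ray e x => simp only [idx, Polynomial.eval_mul, Polynomial.eval_C, h4]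
  | cx r s =>
    have : (cval (Polynomial.C c * m) r s = 0) = (cval m r s = 0) := by
      rw [eq_iff_iff]
      simp only [cval, map_mul, Polynomial.aeval_C, mul_eq_zero]
      rw [or_iff_right]
      simpa using hc.ne'
    simp only [idx, this]
  | b2 e r =>
    simp only [idx, Polynomial.eval_mul, Polynomial.eval_C, h2, Polynomial.derivative_C_mul, h4]
  | b3 r =>
    simp only [idx, Polynomial.eval_mul, Polynomial.eval_C, h1, h2, h3, Polynomial.derivative_C_mul]

theorem tot_scale (c : ℝ) (hc : 0 < c) (m : Polynomial ℝ) (L : List Piece) :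
    tot (Polynomial.C c * m) L = tot m L := by
  unfold tot
  congr 1
  exact List.map_congr_left (fun P _ => idx_scale c hc m P)
end

section
/-! Pairs of quaternionic hermitian forms.  A right quaternionic space is a module over `Q`, the
opposite of the quaternions.  A quaternionic hermitian form `h` is represented by its real part
`b x y = Re h x y`, a real bilinear symmetric form with `b (q • x) y = b x (star q • y)`.
Subspaces are `Submodule Q V`, dimension is `Module.finrank Q`. -/
open scoped Quaternion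
variable {V : Type} [AddCommGroup V] [Module Q V] [Module ℝ V] [IsScalarTower ℝ Q V]


theorem nn_one [FiniteDimensional Q V] {b : BF V} (hb : IsF b) {X : V →ₗ[Q] V} (hX : SA b X)
    (l : List (Piece × V)) (h : IsNF b X l ⊤) : nn b ⊤ = tot 1 (l.map Prod.fst) := by
  have h1 := nn_nf hb hX 1 l ⊤ h
  rw [← h1]
  have h2 : tw b (Polynomial.aeval (R := ℝ) (A := Module.End Q V) X 1) = b := by
    rw [map_one]
    ext x y
    rfl
  rw [h2]
end

section
/-! Pairs of quaternionic hermitian forms.  A right quaternionic space is a module over `Q`, the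
opposite of the quaternions.  A quaternionic hermitian form `h` is represented by its real part
`b x y = Re h x y`, a real bilinear symmetric form with `b (q • x) y = b x (star q • y)`.
Subspaces are `Submodule Q V`, dimension is `Module.finrank Q`. -/
open scoped Quaternion
variable {V : Type} [AddCommGroup V] [Module Q V] [Module ℝ V] [IsScalarTower ℝ Q V]


theorem sg_ne_zero_aux (e : Bool) : sg e ≠ 0 := by
  unfold sg
  split_ifs <;> norm_num

theorem av_of_nd_aux {b : BF V} {X : V →ₗ[Q] V} (t : ℝ) (hinj : ∀ v, sh X t v = 0 → v = 0) :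
    ∀ (l : List (Piece × V)) (W : Submodule Q V), IsNF b X l W →
      ∀ P ∈ l.map Prod.fst, av t P := by
  intro l
  induction l with
  | nil =>
    intro W _ P hP
    simp at hP
  | cons a l ih =>
    obtain ⟨p, f⟩ := a
    intro W h P hP
    obtain ⟨hp, W', hW', _, _⟩ := h
    rw [List.map_cons, List.mem_cons] at hP
    rcases hP with hP | hP
    · subst hP
      cases P with
      | ray e x =>
        intro hx
        subst hx
        obtain ⟨h1, h2⟩ := hp
        have hf := hinj _ h2
        rw [hf] at h1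
        simp only [map_zero] at h1
        exact sg_ne_zero_aux e h1.symm
      | cx r s => exact trivial
      | b2 e r =>
        intro hx
        subst hx
        obtain ⟨h1, h2, h3⟩ := hp
        have hf := hinj _ h1
        rw [hf, map_zero] at h2
        exact sg_ne_zero_aux e h2.symm
      | b3 r =>
        intro hx
        subst hx
        obtain ⟨h1, h2, h3, h4⟩ := hp
        have hf := hinj _ h1
        rw [hf, map_zero] at h2
        exact zero_ne_one h2
    · exact ih W' hW' P hP

theorem av_of_nd [FiniteDimensional Q V] {b : BF V} (hb : IsF b) {X : V →ₗ[Q] V} (hX : SA b X)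
    (l : List (Piece × V)) (h : IsNF b X l ⊤) (t : ℝ) (hinj : ∀ v, sh X t v = 0 → v = 0) :
    ∀ P ∈ l.map Prod.fst, av t P :=
  av_of_nd_aux t hinj l ⊤ h
end

section
/-! Pairs of quaternionic hermitian forms.  A right quaternionic space is a module over `Q`, the
opposite of the quaternions.  A quaternionic hermitian form `h` is represented by its real part
`b x y = Re h x y`, a real bilinear symmetric form with `b (q • x) y = b x (star q • y)`.
Subspaces are `Submodule Q V`, dimension is `Module.finrank Q`. -/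
open scoped Quaternion
variable {V : Type} [AddCommGroup V] [Module Q V] [Module ℝ V] [IsScalarTower ℝ Q V]


theorem cl_tw (b : BF V) (X : V →ₗ[Q] V) (x y : V) : tw b X x y = b x (X y) := rfl

theorem cl_tt (b : BF V) (X : V →ₗ[Q] V) (x y : V) : tt b X x y = b (X x) (X y) := rfl

theorem cl_lin (b : BF V) (X : V →ₗ[Q] V) (μ ν : ℝ) (x y : V) :
    (μ • b + ν • tw b X) x y = b x ((Polynomial.aeval (R := ℝ) (A := Module.End Q V) X
      (Polynomial.C μ + Polynomial.C ν * Polynomial.X)) y) := by
  have h1 : (Polynomial.aeval (R := ℝ) (A := Module.End Q V) X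
      (Polynomial.C μ + Polynomial.C ν * Polynomial.X)) y = μ • y + ν • X y := by
    rw [map_add, map_mul, Polynomial.aeval_C, Polynomial.aeval_C, Polynomial.aeval_X,
      LinearMap.add_apply, Module.End.mul_apply, Module.algebraMap_end_apply,
      Module.algebraMap_end_apply]
  rw [h1, map_add, map_smul, map_smul]
  rfl

theorem cl_sa {b : BF V} {X : V →ₗ[Q] V} (hX : SA b X) (μ ν : ℝ) :
    SA b (Polynomial.aeval (R := ℝ) (A := Module.End Q V) X
      (Polynomial.C μ + Polynomial.C ν * Polynomial.X)) := by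
  intro x y
  have h1 : ∀ y, (Polynomial.aeval (R := ℝ) (A := Module.End Q V) X
      (Polynomial.C μ + Polynomial.C ν * Polynomial.X)) y = μ • y + ν • X y := by
    intro y
    rw [map_add, map_mul, Polynomial.aeval_C, Polynomial.aeval_C, Polynomial.aeval_X,
      LinearMap.add_apply, Module.End.mul_apply, Module.algebraMap_end_apply,
      Module.algebraMap_end_apply]
  rw [h1, h1, map_add, map_add, map_smul, map_smul, map_smul, map_smul, LinearMap.add_apply,
    LinearMap.smul_apply, LinearMap.smul_apply, hX]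

/-- reduction of the criterion at one member to polynomials -/
theorem crit_lin [FiniteDimensional Q V] {b : BF V} (hb : IsF b) (hnd : Nd b) {X : V →ₗ[Q] V}
    (hX : SA b X) (μ ν ρ τ : ℝ) (hE : Nd (μ • b + ν • tw b X)) (p q : ℝ) :
    ∃ X' : V →ₗ[Q] V, (∀ x y, (μ • b + ν • tw b X) x (X' y) = (ρ • b + τ • tw b X) x y) ∧
      nn (tt (μ • b + ν • tw b X) X' + p • (ρ • b + τ • tw b X) + q • (μ • b + ν • tw b X)) ⊤
        = nn (tw b (Polynomial.aeval (R := ℝ) (A := Module.End Q V) X
            ((Polynomial.C μ + Polynomial.C ν * Polynomial.X) *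
              ((Polynomial.C ρ + Polynomial.C τ * Polynomial.X) ^ 2 +
              Polynomial.C p * (Polynomial.C ρ + Polynomial.C τ * Polynomial.X) *
                (Polynomial.C μ + Polynomial.C ν * Polynomial.X) +
              Polynomial.C q * (Polynomial.C μ + Polynomial.C ν * Polynomial.X) ^ 2)))) ⊤ := by
  have hEF : IsF (μ • b + ν • tw b X) := isF_add (isF_smul hb μ) (isF_smul (isF_tw hb hX) ν)
  have hDF : IsF (ρ • b + τ • tw b X) := isF_add (isF_smul hb ρ) (isF_smul (isF_tw hb hX) τ)
  obtain ⟨X', hX', -⟩ := exists_op hEF hDF hE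
  refine ⟨X', hX', ?_⟩
  set pl : Polynomial ℝ := Polynomial.C μ + Polynomial.C ν * Polynomial.X with hpl
  set pd : Polynomial ℝ := Polynomial.C ρ + Polynomial.C τ * Polynomial.X with hpd
  let L : Module.End Q V := Polynomial.aeval (R := ℝ) (A := Module.End Q V) X pl
  let D : Module.End Q V := Polynomial.aeval (R := ℝ) (A := Module.End Q V) X pd
  have hL : ∀ x y, (μ • b + ν • tw b X) x y = b x (L y) := fun x y => cl_lin b X μ ν x y
  have hD : ∀ x y, (ρ • b + τ • tw b X) x y = b x (D y) := fun x y => cl_lin b X ρ τ x y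
  have sL : ∀ x y, b (L x) y = b x (L y) := cl_sa hX μ ν
  have sD : ∀ x y, b (D x) y = b x (D y) := cl_sa hX ρ τ
  have hinj : Function.Injective L := by
    rw [injective_iff_map_eq_zero]
    intro y hy
    apply hE y
    intro x
    rw [hEF.symm, hL, hy, map_zero]
  have hsurj : Function.Surjective L :=
    (LinearMap.injective_iff_surjective (f := (L : V →ₗ[Q] V))).1 hinj
  have hcomm : ∀ y, D (L y) = L (D y) := by
    intro y
    rw [← Module.End.mul_apply, ← Module.End.mul_apply]
    show (Polynomial.aeval (R := ℝ) (A := Module.End Q V) X pd * Polynomial.aeval (R := ℝ) (A := Module.End Q V) X pl) y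
      = (Polynomial.aeval (R := ℝ) (A := Module.End Q V) X pl * Polynomial.aeval (R := ℝ) (A := Module.End Q V) X pd) y
    rw [← map_mul, ← map_mul, mul_comm]
  have h1 : ∀ y, L (X' y) = D y := by
    intro y
    have h2 : ∀ x, b (L (X' y) - D y) x = 0 := by
      intro x
      rw [hb.symm, map_sub, ← hL, ← hD, hX', sub_self]
    exact sub_eq_zero.1 (hnd _ h2)
  have h2 : ∀ y, X' (L y) = D y := by
    intro y
    apply hinj
    rw [h1, hcomm]
  rw [← nn_tt (tt (μ • b + ν • tw b X) X' + p • (ρ • b + τ • tw b X) + q • (μ • b + ν • tw b X)) L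
    ⟨hinj, hsurj⟩]
  congr 1
  ext x y
  have hP : (Polynomial.aeval (R := ℝ) (A := Module.End Q V) X
      (pl * (pd ^ 2 + Polynomial.C p * pd * pl + Polynomial.C q * pl ^ 2))) y
      = L (D (D y)) + p • L (D (L y)) + q • L (L (L y)) := by
    have e : (Polynomial.aeval (R := ℝ) (A := Module.End Q V) X
      (pl * (pd ^ 2 + Polynomial.C p * pd * pl + Polynomial.C q * pl ^ 2))) =
      L * (D * D + algebraMap ℝ (Module.End Q V) p * D * L +
        algebraMap ℝ (Module.End Q V) q * (L * L)) := by
      simp only [map_mul, map_add, map_pow, Polynomial.aeval_C, pow_two]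
      rfl
    rw [e, Module.End.mul_apply, LinearMap.add_apply, LinearMap.add_apply, map_add, map_add,
      Module.End.mul_apply, Module.End.mul_apply, Module.End.mul_apply, Module.End.mul_apply,
      Module.End.mul_apply, Module.algebraMap_end_apply, Module.algebraMap_end_apply,
      LinearMap.map_smul_of_tower, LinearMap.map_smul_of_tower]
  rw [cl_tw, hP, cl_tt]
  have e1 : ((tt (μ • b + ν • tw b X) X' + p • (ρ • b + τ • tw b X) + q • (μ • b + ν • tw b X)) (L x)) (L y)
      = (μ • b + ν • tw b X) (X' (L x)) (X' (L y)) + p * (ρ • b + τ • tw b X) (L x) (L y)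
        + q * (μ • b + ν • tw b X) (L x) (L y) := rfl
  rw [e1, hL, hD, hL, h2, h2, sD, sL, sL, map_add, map_add, map_smul, map_smul, smul_eq_mul,
    smul_eq_mul, hcomm (D y)]
end

section
/-! Pairs of quaternionic hermitian forms.  A right quaternionic space is a module over `Q`, the
opposite of the quaternions.  A quaternionic hermitian form `h` is represented by its real part
`b x y = Re h x y`, a real bilinear symmetric form with `b (q • x) y = b x (star q • y)`.
Subspaces are `Submodule Q V`, dimension is `Module.finrank Q`. -/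
open scoped Quaternion
variable {V : Type} [AddCommGroup V] [Module Q V] [Module ℝ V] [IsScalarTower ℝ Q V]


theorem tw_lin (b : BF V) (X : V →ₗ[Q] V) (μ ν : ℝ) :
    tw b (Polynomial.aeval (R := ℝ) (A := Module.End Q V) X
      (Polynomial.C μ + Polynomial.C ν * Polynomial.X)) = μ • b + ν • tw b X := by
  apply LinearMap.ext
  intro x
  apply LinearMap.ext
  intro y
  have h1 : Polynomial.aeval (R := ℝ) (A := Module.End Q V) X
      (Polynomial.C μ + Polynomial.C ν * Polynomial.X) =
      μ • (LinearMap.id : V →ₗ[Q] V) + ν • X := by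
    rw [map_add, map_mul, Polynomial.aeval_C, Polynomial.aeval_C, Polynomial.aeval_X,
      Algebra.algebraMap_eq_smul_one, Algebra.algebraMap_eq_smul_one, smul_mul_assoc, one_mul]
    rfl
  rw [h1]
  show b x (μ • y + ν • X y) = μ * b x y + ν * b x (X y)
  rw [map_add, map_smul, map_smul, smul_eq_mul, smul_eq_mul]

theorem crit_of_nf [FiniteDimensional Q V] {b : BF V} (hb : IsF b) (hnd : Nd b)
    {X : V →ₗ[Q] V} (hX : SA b X) (l : List (Piece × V)) (hl : IsNF b X l ⊤)
    (hk : nn b ⊤ = kap b (tw b X)) (hL : LCrit (l.map Prod.fst)) : Crit b (tw b X) := by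
  have hreg : ∃ μ ν : ℝ, Nd (μ • b + ν • tw b X) := by
    refine ⟨1, 0, ?_⟩
    rw [one_smul, zero_smul, add_zero]
    exact hnd
  intro μ ν ρ τ hdet hKM
  have hE : Nd (μ • b + ν • tw b X) := (kmin_iff hreg _).1 hKM
  have hkap : kap b (tw b X) = tot 1 (l.map Prod.fst) := by
    rw [← hk]
    exact nn_one hb hX l hl
  have hnl : nn (μ • b + ν • tw b X) ⊤ =
      tot (Polynomial.C μ + Polynomial.C ν * Polynomial.X) (l.map Prod.fst) := by
    rw [← tw_lin b X μ ν]
    exact nn_nf hb hX _ l ⊤ hl
  have main : ∀ h : Polynomial ℝ, h.natDegree ≤ 2 →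
      ((ν ≠ 0 ∧ 0 < h.eval (-μ / ν)) ∨ (ν = 0 ∧ 0 < h.coeff 2)) →
      (∀ c : ℝ, 0 < c → tot ((Polynomial.C μ + Polynomial.C ν * Polynomial.X) *
        (Polynomial.C c * h)) (l.map Prod.fst) + tot 1 (l.map Prod.fst) ≤
        tot (Polynomial.C μ + Polynomial.C ν * Polynomial.X) (l.map Prod.fst)) →
      ∃ X' : V →ₗ[Q] V, (∀ x y, (μ • b + ν • tw b X) x (X' y) = (ρ • b + τ • tw b X) x y) ∧
        ∃ p q : ℝ, nn (tt (μ • b + ν • tw b X) X' + p • (ρ • b + τ • tw b X) +
          q • (μ • b + ν • tw b X)) ⊤ + kap b (tw b X)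
          ≤ nn (μ • b + ν • tw b X) ⊤ := by
    intro h hdeg hpos hle
    obtain ⟨c, p, q, hc, hq⟩ := poly_comb μ ν ρ τ hdet h hdeg hpos
    obtain ⟨X', hX', hnn⟩ := crit_lin hb hnd hX μ ν ρ τ hE p q
    refine ⟨X', hX', p, q, ?_⟩
    rw [hnn, hkap, hnl, ← hq, nn_nf hb hX _ l ⊤ hl]
    exact hle c hc
  by_cases hν : ν = 0
  · have hμ : μ ≠ 0 := by
      rintro rfl
      apply hdet
      rw [hν]
      ring
    obtain ⟨σ, hσ, d, hd, hμσ⟩ : ∃ σ : ℝ, (σ = 1 ∨ σ = -1) ∧ ∃ d : ℝ, 0 < d ∧ μ = d * σ := by
      rcases lt_or_gt_of_ne hμ with h1 | h1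
      · exact ⟨-1, Or.inr rfl, -μ, by linarith, by ring⟩
      · exact ⟨1, Or.inl rfl, μ, h1, by ring⟩
    obtain ⟨h, hdeg, hcoe, hle⟩ := hL.1 σ hσ
    apply main h hdeg (Or.inr ⟨hν, hcoe⟩)
    intro c hc
    have e1 : Polynomial.C μ + Polynomial.C ν * Polynomial.X =
        Polynomial.C d * Polynomial.C σ := by
      rw [hν, hμσ, map_zero, zero_mul, add_zero, map_mul]
    have e2 : (Polynomial.C μ + Polynomial.C ν * Polynomial.X) * (Polynomial.C c * h) =
        Polynomial.C d * (Polynomial.C c * (Polynomial.C σ * h)) := by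
      rw [e1]; ring
    rw [e2, e1, tot_scale d hd, tot_scale c hc, tot_scale d hd]
    exact hle
  · obtain ⟨σ, hσ, d, hd, hνσ⟩ : ∃ σ : ℝ, (σ = 1 ∨ σ = -1) ∧ ∃ d : ℝ, 0 < d ∧ ν = d * σ := by
      rcases lt_or_gt_of_ne hν with h1 | h1
      · exact ⟨-1, Or.inr rfl, -ν, by linarith, by ring⟩
      · exact ⟨1, Or.inl rfl, ν, h1, by ring⟩
    have hinj : ∀ v, sh X (-μ / ν) v = 0 → v = 0 := by
      intro v hv
      apply hE v
      intro y
      have h1 : X v = (-μ / ν) • v := by
        have h2 : X v - (-μ / ν) • v = 0 := hv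
        exact sub_eq_zero.1 h2
      show μ * b v y + ν * b v (X y) = 0
      rw [← hX v y, h1, LinearMap.BilinForm.smul_left]
      field_simp
      ring
    have hav := av_of_nd hb hX l hl _ hinj
    obtain ⟨h, hdeg, hev, hle⟩ := hL.2 σ (-μ / ν) hσ hav
    apply main h hdeg (Or.inl ⟨hν, hev⟩)
    intro c hc
    have e1 : Polynomial.C μ + Polynomial.C ν * Polynomial.X =
        Polynomial.C d * (Polynomial.C σ * (Polynomial.X - Polynomial.C (-μ / ν))) := by
      have h3 : Polynomial.C μ = - (Polynomial.C ν * Polynomial.C (-μ / ν)) := by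
        rw [← map_mul, ← map_neg]
        congr 1
        field_simp
      have h4 : Polynomial.C ν = Polynomial.C d * Polynomial.C σ := by
        rw [← map_mul, ← hνσ]
      rw [h3, ← mul_assoc, ← h4]
      ring
    have e2 : (Polynomial.C μ + Polynomial.C ν * Polynomial.X) * (Polynomial.C c * h) =
        Polynomial.C d * (Polynomial.C c *
          (Polynomial.C σ * (Polynomial.X - Polynomial.C (-μ / ν)) * h)) := by
      rw [e1]; ring
    rw [e2, e1, tot_scale d hd, tot_scale c hc, tot_scale d hd]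
    exact hle
end

section
/-! Pairs of quaternionic hermitian forms.  A right quaternionic space is a module over `Q`, the
opposite of the quaternions.  A quaternionic hermitian form `h` is represented by its real part
`b x y = Re h x y`, a real bilinear symmetric form with `b (q • x) y = b x (star q • y)`.
Subspaces are `Submodule Q V`, dimension is `Module.finrank Q`. -/
open scoped Quaternion
variable {V : Type} [AddCommGroup V] [Module Q V] [Module ℝ V] [IsScalarTower ℝ Q V]


theorem kmin_comb {b a : BF V} {μ ν ρ τ : ℝ} (hd : μ * τ - ν * ρ ≠ 0) (c : BF V) :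
    KMin (μ • b + ν • a) (ρ • b + τ • a) c ↔ KMin b a c := by
  have e : ∀ (s t : ℝ) (x y : V), (s • b + t • a) x y = s * b x y + t * a x y := by
    intro s t x y
    rfl
  constructor
  · intro h x hx
    obtain ⟨h1, h2⟩ := h x hx
    have key : ∀ y, b x y = 0 ∧ a x y = 0 := by
      intro y
      have k1 := h1 y
      have k2 := h2 y
      rw [e] at k1 k2
      constructor
      · have h3 : (μ * τ - ν * ρ) * b x y = 0 := by linear_combination τ * k1 - ν * k2
        exact (mul_eq_zero.mp h3).resolve_left hd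
      · have h3 : (μ * τ - ν * ρ) * a x y = 0 := by linear_combination μ * k2 - ρ * k1
        exact (mul_eq_zero.mp h3).resolve_left hd
    exact ⟨fun y => (key y).1, fun y => (key y).2⟩
  · intro h x hx
    obtain ⟨h1, h2⟩ := h x hx
    exact ⟨fun y => by rw [e, h1, h2, mul_zero, mul_zero, add_zero],
      fun y => by rw [e, h1, h2, mul_zero, mul_zero, add_zero]⟩
end

section
/-! Pairs of quaternionic hermitian forms.  A right quaternionic space is a module over `Q`, the
opposite of the quaternions.  A quaternionic hermitian form `h` is represented by its real part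
`b x y = Re h x y`, a real bilinear symmetric form with `b (q • x) y = b x (star q • y)`.
Subspaces are `Submodule Q V`, dimension is `Module.finrank Q`. -/
open scoped Quaternion
variable {V : Type} [AddCommGroup V] [Module Q V] [Module ℝ V] [IsScalarTower ℝ Q V]


theorem kap_comb {b a : BF V} {μ ν ρ τ : ℝ} (hd : μ * τ - ν * ρ ≠ 0) :
    kap (μ • b + ν • a) (ρ • b + τ • a) = kap b a := by
  have key : ∀ μ' ν' : ℝ, μ' • (μ • b + ν • a) + ν' • (ρ • b + τ • a)
      = (μ' * μ + ν' * ρ) • b + (μ' * ν + ν' * τ) • a := by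
    intro μ' ν'
    module
  unfold kap
  congr 1
  ext k
  constructor
  · rintro ⟨μ', ν', hK, hn⟩
    refine ⟨μ' * μ + ν' * ρ, μ' * ν + ν' * τ, ?_, ?_⟩
    · rw [← key]
      exact (kmin_comb hd _).1 hK
    · rw [← key]
      exact hn
  · rintro ⟨m, n, hK, hn⟩
    have e1 : (m * τ - n * ρ) / (μ * τ - ν * ρ) * μ
        + (n * μ - m * ν) / (μ * τ - ν * ρ) * ρ = m := by
      rw [div_mul_eq_mul_div, div_mul_eq_mul_div, ← add_div, div_eq_iff hd]
      ring
    have e2 : (m * τ - n * ρ) / (μ * τ - ν * ρ) * ν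
        + (n * μ - m * ν) / (μ * τ - ν * ρ) * τ = n := by
      rw [div_mul_eq_mul_div, div_mul_eq_mul_div, ← add_div, div_eq_iff hd]
      ring
    refine ⟨(m * τ - n * ρ) / (μ * τ - ν * ρ), (n * μ - m * ν) / (μ * τ - ν * ρ), ?_, ?_⟩
    · rw [key, e1, e2]
      exact (kmin_comb hd _).2 hK
    · rw [key, e1, e2]
      exact hn
end

section
/-! Pairs of quaternionic hermitian forms.  A right quaternionic space is a module over `Q`, the
opposite of the quaternions.  A quaternionic hermitian form `h` is represented by its real part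
`b x y = Re h x y`, a real bilinear symmetric form with `b (q • x) y = b x (star q • y)`.
Subspaces are `Submodule Q V`, dimension is `Module.finrank Q`. -/
open scoped Quaternion
variable {V : Type} [AddCommGroup V] [Module Q V] [Module ℝ V] [IsScalarTower ℝ Q V]


theorem crit_solve {b a : BF V} {μ ν ρ τ : ℝ} (hd : μ * τ - ν * ρ ≠ 0) (s t : ℝ) :
    ((s * τ - t * ρ) / (μ * τ - ν * ρ)) • (μ • b + ν • a) +
      ((t * μ - s * ν) / (μ * τ - ν * ρ)) • (ρ • b + τ • a) = s • b + t • a := by
  have e1 : ((s * τ - t * ρ) / (μ * τ - ν * ρ)) • (μ • b + ν • a) +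
      ((t * μ - s * ν) / (μ * τ - ν * ρ)) • (ρ • b + τ • a) =
      ((s * τ - t * ρ) / (μ * τ - ν * ρ) * μ + (t * μ - s * ν) / (μ * τ - ν * ρ) * ρ) • b +
      ((s * τ - t * ρ) / (μ * τ - ν * ρ) * ν + (t * μ - s * ν) / (μ * τ - ν * ρ) * τ) • a := by
    rw [smul_add, smul_add, smul_smul, smul_smul, smul_smul, smul_smul, add_smul, add_smul]
    abel
  have e2 : (s * τ - t * ρ) / (μ * τ - ν * ρ) * μ + (t * μ - s * ν) / (μ * τ - ν * ρ) * ρ = s := by
    rw [div_mul_eq_mul_div, div_mul_eq_mul_div, ← add_div, div_eq_iff hd]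
    ring
  have e3 : (s * τ - t * ρ) / (μ * τ - ν * ρ) * ν + (t * μ - s * ν) / (μ * τ - ν * ρ) * τ = t := by
    rw [div_mul_eq_mul_div, div_mul_eq_mul_div, ← add_div, div_eq_iff hd]
    ring
  rw [e1, e2, e3]

theorem crit_comb {b a : BF V} {μ ν ρ τ : ℝ} (hd : μ * τ - ν * ρ ≠ 0)
    (h : Crit (μ • b + ν • a) (ρ • b + τ • a)) : Crit b a := by
  intro μ1 ν1 ρ1 τ1 hd1 hK
  have hd' : (μ1 * τ - ν1 * ρ) / (μ * τ - ν * ρ) * ((τ1 * μ - ρ1 * ν) / (μ * τ - ν * ρ)) -
      (ν1 * μ - μ1 * ν) / (μ * τ - ν * ρ) * ((ρ1 * τ - τ1 * ρ) / (μ * τ - ν * ρ)) ≠ 0 := by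
    have e : (μ1 * τ - ν1 * ρ) / (μ * τ - ν * ρ) * ((τ1 * μ - ρ1 * ν) / (μ * τ - ν * ρ)) -
      (ν1 * μ - μ1 * ν) / (μ * τ - ν * ρ) * ((ρ1 * τ - τ1 * ρ) / (μ * τ - ν * ρ)) =
      (μ1 * τ1 - ν1 * ρ1) / (μ * τ - ν * ρ) := by
      rw [div_mul_div_comm, div_mul_div_comm, ← sub_div, div_eq_div_iff (mul_ne_zero hd hd) hd]
      ring
    rw [e]
    exact div_ne_zero hd1 hd
  have h2 := h _ _ _ _ hd' (by
    rw [crit_solve hd μ1 ν1, kmin_comb hd]
    exact hK)
  rw [crit_solve hd μ1 ν1, crit_solve hd ρ1 τ1, kap_comb hd] at h2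
  exact h2

/-! ### necessity: small neutral pieces -/
end

end Pool.QN
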