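import Pool.Agent.Helper9.QN.Defs
import Pool.Agent.Helper9.QP.A1

set_option autoImplicit false
set_option maxHeartbeats 1000000

namespace Pool.QN

section
/-! Pairs of quaternionic hermitian forms.  A right quaternionic space is a module over `Q`, the
opposite of the quaternions.  A quaternionic hermitian form `h` is represented by its real part
`b x y = Re h x y`, a real bilinear symmetric form with `b (q • x) y = b x (star q • y)`.
Subspaces are `Submodule Q V`, dimension is `Module.finrank Q`. -/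
open scoped Quaternion
variable {V : Type} [AddCommGroup V] [Module Q V] [Module ℝ V] [IsScalarTower ℝ Q V]


theorem vec1 {b : BF V} (hb : IsF b) {X R : V →ₗ[Q] V} (hX : SA b X) (t : ℝ)
    (hR1 : ∀ x, R (sh X t x) = x) (x ρ : ℝ) (f1 f2 : V)
    (h1 : IsPiece b X (Piece.ray true x) f1) (h2 : IsPiece b X (Piece.b2 true ρ) f2)
    (ho : ∀ u ∈ cyc X f1, ∀ w ∈ cyc X f2, b u w = 0) (hxt : x < t) (htr : t < ρ) :
    ∃ v ∈ cyc X f1 ⊔ cyc X f2, b v v = 0 ∧ b v (X v) = 0 ∧ b v (R v) < 0 := by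
  obtain ⟨h11, hX1⟩ := h1
  obtain ⟨hNN, h2g, h22⟩ := h2
  have hshd : ∀ r y, sh X r y = X y - r • y := fun r y => by
    simp [sh]
  have hsg : sg true = 1 := by simp [sg]
  rw [hsg] at h11 h2g
  rw [hshd, sub_eq_zero] at hX1
  set g : V := sh X ρ f2 with hg
  have hgd : g = X f2 - ρ • f2 := by rw [hg, hshd]
  have hXg : X g = ρ • g := by
    rw [hshd, sub_eq_zero] at hNN
    exact hNN
  have hXf2 : X f2 = ρ • f2 + g := by rw [hgd]; abel
  have hg2 : b g f2 = 1 := by rw [hb.symm]; exact h2g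
  have hgg : b g g = 0 := by
    have e1 : b (X f2) g = b f2 (X g) := hX f2 g
    rw [hXf2, hXg, map_add, LinearMap.add_apply, map_smul, LinearMap.smul_apply, map_smul] at e1
    linarith
  have hf1m : f1 ∈ cyc X f1 := Submodule.subset_span (by simp)
  have hf2m : f2 ∈ cyc X f2 := Submodule.subset_span (by simp)
  have hXf2m : X f2 ∈ cyc X f2 := Submodule.subset_span (by simp)
  have hgm : g ∈ cyc X f2 := by
    rw [hgd]
    exact Submodule.sub_mem _ hXf2m (Submodule.smul_of_tower_mem _ _ hf2m)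
  have h12 : b f1 f2 = 0 := ho _ hf1m _ hf2m
  have h1g : b f1 g = 0 := ho _ hf1m _ hgm
  have h21 : b f2 f1 = 0 := by rw [hb.symm]; exact h12
  have hg1 : b g f1 = 0 := by rw [hb.symm]; exact h1g
  have hρx : 0 < ρ - x := by linarith
  set s : ℝ := Real.sqrt (1 / (ρ - x)) with hs
  have hs2 : s ^ 2 = 1 / (ρ - x) := Real.sq_sqrt (by positivity)
  have hs0 : 0 < s ^ 2 := by rw [hs2]; positivity
  have hs3 : s ^ 2 * (ρ - x) = 1 := by rw [hs2]; field_simp
  set al : ℝ := -s ^ 2 / 2 with hal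
  set δ : ℝ := ρ - t with hδ
  have hδ0 : 0 < δ := by rw [hδ]; linarith
  -- values of R
  have hRsm : ∀ (c : ℝ) (y : V), R (c • y) = c • R y := fun c y => LinearMap.map_smul_of_tower R c y
  have hXsm : ∀ (c : ℝ) (y : V), X (c • y) = c • X y := fun c y => LinearMap.map_smul_of_tower X c y
  have hxt' : x - t ≠ 0 := by
    have : x - t < 0 := by linarith
    exact this.ne
  have hRf1 : R f1 = (1 / (x - t)) • f1 := by
    have e1 := hR1 f1
    rw [hshd, hX1, ← sub_smul, hRsm] at e1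
    calc R f1 = (1 / (x - t)) • ((x - t) • R f1) := by
          rw [smul_smul, one_div_mul_cancel hxt', one_smul]
      _ = _ := by rw [e1]
  have hRg : R g = (1 / δ) • g := by
    have e1 := hR1 g
    rw [hshd, hXg, ← sub_smul, hRsm] at e1
    calc R g = (1 / δ) • ((ρ - t) • R g) := by
          rw [smul_smul, one_div_mul_cancel hδ0.ne', one_smul]
      _ = _ := by rw [e1]
  have hRf2 : R f2 = (1 / δ) • f2 - (1 / δ ^ 2) • g := by
    have e1 := hR1 f2
    have e2 : sh X t f2 = δ • f2 + g := by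
      rw [hshd, hXf2, hδ, sub_smul]; abel
    rw [e2, map_add, hRsm, hRg] at e1
    have e3 : δ • R f2 = f2 - (1 / δ) • g := eq_sub_of_add_eq e1
    calc R f2 = (1 / δ) • (δ • R f2) := by
          rw [smul_smul, one_div_mul_cancel hδ0.ne', one_smul]
      _ = _ := by
          rw [e3, smul_sub, smul_smul]
          congr 2
          field_simp
  refine ⟨s • f1 + (f2 + al • g), ?_, ?_, ?_, ?_⟩
  · refine Submodule.add_mem_sup (Submodule.smul_of_tower_mem _ _ hf1m) ?_
    exact Submodule.add_mem _ hf2m (Submodule.smul_of_tower_mem _ _ hgm)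
  · simp only [map_add, LinearMap.add_apply, map_smul, LinearMap.smul_apply, smul_eq_mul,
      h11, h12, h1g, h21, h22, h2g, hg1, hg2, hgg]
    rw [hal]
    ring
  · simp only [map_add, hXsm, hX1, hXf2, hXg, LinearMap.add_apply, map_smul,
      LinearMap.smul_apply, smul_eq_mul, h11, h12, h1g, h21, h22, h2g, hg1, hg2, hgg]
    rw [hal]
    linear_combination -hs3
  · simp only [map_add, map_sub, hRsm, hRf1, hRf2, hRg, LinearMap.add_apply, map_smul,
      LinearMap.smul_apply, smul_eq_mul, h11, h12, h1g, h21, h22, h2g, hg1, hg2, hgg]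
    have q1 : s ^ 2 * (1 / (x - t)) < 0 := by
      apply mul_neg_of_pos_of_neg hs0
      exact one_div_neg.2 (by linarith)
    have q2 : 0 < s ^ 2 * (1 / δ) := by positivity
    have q3 : 0 < 1 / δ ^ 2 := by positivity
    rw [hal]
    linarith
end

section
/-! Pairs of quaternionic hermitian forms.  A right quaternionic space is a module over `Q`, the
opposite of the quaternions.  A quaternionic hermitian form `h` is represented by its real part
`b x y = Re h x y`, a real bilinear symmetric form with `b (q • x) y = b x (star q • y)`.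
Subspaces are `Submodule Q V`, dimension is `Module.finrank Q`. -/
open scoped Quaternion
variable {V : Type} [AddCommGroup V] [Module Q V] [Module ℝ V] [IsScalarTower ℝ Q V]


theorem vec2_form {b : BF V} (f1 f2 f3 : V) (e11 : b f1 f1 = 1) (e22 : b f2 f2 = 1)
    (e33 : b f3 f3 = -1) (e12 : b f1 f2 = 0) (e13 : b f1 f3 = 0) (e23 : b f2 f3 = 0)
    (e21 : b f2 f1 = 0) (e31 : b f3 f1 = 0) (e32 : b f3 f2 = 0) (a1 a2 a3 c1 c2 c3 : ℝ) :
    b (a1 • f1 + (a2 • f2 + a3 • f3)) (c1 • f1 + (c2 • f2 + c3 • f3)) =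
      a1 * c1 + a2 * c2 - a3 * c3 := by
  simp only [map_add, map_smul, LinearMap.add_apply, LinearMap.smul_apply, smul_eq_mul,
    e11, e22, e33, e12, e13, e23, e21, e31, e32]
  ring

theorem vec2_X {X : V →ₗ[Q] V} (x : ℝ) (f : V) (h : sh X x f = 0) : X f = x • f := by
  have h1 : X f - x • f = 0 := h
  exact sub_eq_zero.1 h1

theorem vec2_smul (X : V →ₗ[Q] V) (x : ℝ) (f : V) : X (x • f) = x • X f :=
  (X.restrictScalars ℝ).map_smul x f

theorem vec2_R {X R : V →ₗ[Q] V} (t : ℝ) (hR1 : ∀ x, R (sh X t x) = x) (x : ℝ) (f : V)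
    (h : sh X x f = 0) (hx : x - t ≠ 0) : R f = (x - t)⁻¹ • f := by
  have h1 : sh X t f = (x - t) • f := by
    have h2 : sh X t f = X f - t • f := rfl
    rw [h2, vec2_X x f h, sub_smul]
  have h3 := hR1 f
  rw [h1, vec2_smul] at h3
  rw [← h3, smul_smul, h3]
  rw [inv_mul_cancel₀ hx, one_smul]

theorem vec2 {b : BF V} (hb : IsF b) {X R : V →ₗ[Q] V} (hX : SA b X) (t : ℝ)
    (hR1 : ∀ x, R (sh X t x) = x) (x y z : ℝ) (f1 f2 f3 : V)
    (h1 : IsPiece b X (Piece.ray true x) f1) (h2 : IsPiece b X (Piece.ray true y) f2)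
    (h3 : IsPiece b X (Piece.ray false z) f3)
    (ho12 : ∀ u ∈ cyc X f1, ∀ w ∈ cyc X f2, b u w = 0)
    (ho13 : ∀ u ∈ cyc X f1, ∀ w ∈ cyc X f3, b u w = 0)
    (ho23 : ∀ u ∈ cyc X f2, ∀ w ∈ cyc X f3, b u w = 0)
    (hxt : x < t) (htz : t < z) (hzy : z < y) :
    ∃ v ∈ cyc X f1 ⊔ (cyc X f2 ⊔ cyc X f3), b v v = 0 ∧ b v (X v) = 0 ∧ b v (R v) < 0 := by
  obtain ⟨e11, p1⟩ := h1
  obtain ⟨e22, p2⟩ := h2
  obtain ⟨e33, p3⟩ := h3
  have m1 : f1 ∈ cyc X f1 := Submodule.subset_span (by simp)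
  have m2 : f2 ∈ cyc X f2 := Submodule.subset_span (by simp)
  have m3 : f3 ∈ cyc X f3 := Submodule.subset_span (by simp)
  have e12 := ho12 f1 m1 f2 m2
  have e13 := ho13 f1 m1 f3 m3
  have e23 := ho23 f2 m2 f3 m3
  have e21 : b f2 f1 = 0 := by rw [hb.symm]; exact e12
  have e31 : b f3 f1 = 0 := by rw [hb.symm]; exact e13
  have e32 : b f3 f2 = 0 := by rw [hb.symm]; exact e23
  have e11' : b f1 f1 = 1 := by rw [e11]; simp [sg]
  have e22' : b f2 f2 = 1 := by rw [e22]; simp [sg]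
  have e33' : b f3 f3 = -1 := by rw [e33]; simp [sg]
  have F := vec2_form f1 f2 f3 e11' e22' e33' e12 e13 e23 e21 e31 e32
  have hyx : 0 < y - x := by linarith
  have q1 : 0 ≤ (y - z) / (y - x) := div_nonneg (by linarith) hyx.le
  have q2 : 0 ≤ (z - x) / (y - x) := div_nonneg (by linarith) hyx.le
  have s1 := Real.mul_self_sqrt q1
  have s2 := Real.mul_self_sqrt q2
  set α := Real.sqrt ((y - z) / (y - x)) with hα
  set β := Real.sqrt ((z - x) / (y - x)) with hβ
  refine ⟨α • f1 + (β • f2 + (1 : ℝ) • f3), ?_, ?_, ?_, ?_⟩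
  · refine Submodule.add_mem_sup (Submodule.smul_of_tower_mem _ _ m1)
      (Submodule.add_mem_sup (Submodule.smul_of_tower_mem _ _ m2)
        (Submodule.smul_of_tower_mem _ _ m3))
  · rw [F, s1, s2]
    field_simp
    ring
  · have hXv : X (α • f1 + (β • f2 + (1 : ℝ) • f3)) =
        (α * x) • f1 + ((β * y) • f2 + (1 * z) • f3) := by
      rw [map_add, map_add, vec2_smul, vec2_smul, vec2_smul, vec2_X x f1 p1, vec2_X y f2 p2,
        vec2_X z f3 p3, smul_smul, smul_smul, smul_smul]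
    rw [hXv, F, ← mul_assoc, ← mul_assoc, s1, s2]
    field_simp
    ring
  · have n1 : x - t < 0 := by linarith
    have n2 : 0 < y - t := by linarith
    have n3 : 0 < z - t := by linarith
    have hRv : R (α • f1 + (β • f2 + (1 : ℝ) • f3)) =
        (α * (x - t)⁻¹) • f1 + ((β * (y - t)⁻¹) • f2 + (1 * (z - t)⁻¹) • f3) := by
      rw [map_add, map_add, vec2_smul, vec2_smul, vec2_smul, vec2_R t hR1 x f1 p1 n1.ne,
        vec2_R t hR1 y f2 p2 n2.ne', vec2_R t hR1 z f3 p3 n3.ne', smul_smul, smul_smul, smul_smul]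
    rw [hRv, F, ← mul_assoc, ← mul_assoc, s1, s2]
    have h4 : (y - z) / (y - x) * (x - t)⁻¹ + (z - x) / (y - x) * (y - t)⁻¹ - 1 * (1 * (z - t)⁻¹) =
        -((z - x) * (y - z) / ((t - x) * ((y - t) * (z - t)))) := by
      have k1 : x - t ≠ 0 := n1.ne
      have k1' : t - x ≠ 0 := by linarith [n1] |> fun h : t - x > 0 => h.ne'
      have k2 : y - t ≠ 0 := n2.ne'
      have k3 : z - t ≠ 0 := n3.ne'
      have k4 : y - x ≠ 0 := hyx.ne'
      have k5 : (x - t)⁻¹ = -(t - x)⁻¹ := by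
        rw [← neg_sub t x, inv_neg]
      rw [k5]
      field_simp
      ring
    rw [h4]
    have h5 : 0 < (z - x) * (y - z) / ((t - x) * ((y - t) * (z - t))) := by
      apply div_pos
      · exact mul_pos (by linarith) (by linarith)
      · exact mul_pos (by linarith) (mul_pos n2 n3)
    linarith
end

section
/-! Pairs of quaternionic hermitian forms.  A right quaternionic space is a module over `Q`, the
opposite of the quaternions.  A quaternionic hermitian form `h` is represented by its real part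
`b x y = Re h x y`, a real bilinear symmetric form with `b (q • x) y = b x (star q • y)`.
Subspaces are `Submodule Q V`, dimension is `Module.finrank Q`. -/
open scoped Quaternion
variable {V : Type} [AddCommGroup V] [Module Q V] [Module ℝ V] [IsScalarTower ℝ Q V]


theorem vec3_sh (X : V →ₗ[Q] V) (r : ℝ) (x : V) : sh X r x = X x - r • x := by
  simp [sh]

theorem vec3_R {X R : V →ₗ[Q] V} (t : ℝ) (hR1 : ∀ x, R (sh X t x) = x) (r : ℝ) (hr : r - t ≠ 0)
    (f : V) (hf : sh X r (sh X r f) = 0) :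
    R f = (1 / (r - t)) • f - (1 / (r - t) ^ 2) • sh X r f := by
  have hRs : ∀ (c : ℝ) (x : V), R (c • x) = c • R x := fun c x =>
    (R.restrictScalars ℝ).map_smul c x
  have e1 : sh X t (sh X r f) = (r - t) • sh X r f := by
    have h1 : sh X r (sh X r f) = X (sh X r f) - r • sh X r f := vec3_sh X r _
    rw [hf] at h1
    have h2 : X (sh X r f) = r • sh X r f := (sub_eq_zero.1 h1.symm)
    rw [vec3_sh X t, h2, sub_smul]
  have e2 : sh X t f = sh X r f + (r - t) • f := by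
    rw [vec3_sh, vec3_sh, sub_smul]
    abel
  have h1 := hR1 (sh X r f)
  rw [e1, hRs] at h1
  have h2 := hR1 f
  rw [e2, map_add, hRs] at h2
  have h3 : R (sh X r f) = (1 / (r - t)) • sh X r f := by
    rw [← h1, smul_smul, one_div, inv_mul_cancel₀ hr, one_smul, h1]
  have h4 : (r - t) • R f = f - (1 / (r - t)) • sh X r f := by
    rw [← h3]
    exact eq_sub_of_add_eq' h2
  have h5 : R f = (1 / (r - t)) • ((r - t) • R f) := by
    rw [smul_smul, one_div, inv_mul_cancel₀ hr, one_smul]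
  rw [h5, h4, smul_sub, smul_smul]
  congr 2
  field_simp

theorem vec3 {b : BF V} (hb : IsF b) {X R : V →ₗ[Q] V} (hX : SA b X) (t : ℝ)
    (hR1 : ∀ x, R (sh X t x) = x) (r1 r2 : ℝ) (f1 f2 : V)
    (h1 : IsPiece b X (Piece.b2 false r1) f1) (h2 : IsPiece b X (Piece.b2 true r2) f2)
    (ho : ∀ u ∈ cyc X f1, ∀ w ∈ cyc X f2, b u w = 0) (h1t : r1 < t) (ht2 : t < r2)
    (hc : r2 - t < t - r1) :
    ∃ v ∈ cyc X f1 ⊔ cyc X f2, b v v = 0 ∧ b v (X v) = 0 ∧ b v (R v) < 0 := by
  obtain ⟨n1, s1, z1⟩ := h1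
  obtain ⟨n2, s2, z2⟩ := h2
  have m1 : f1 ∈ cyc X f1 := Submodule.subset_span (by simp)
  have m1' : X f1 ∈ cyc X f1 := Submodule.subset_span (by simp)
  have m2 : f2 ∈ cyc X f2 := Submodule.subset_span (by simp)
  have m2' : X f2 ∈ cyc X f2 := Submodule.subset_span (by simp)
  have o1 : b f1 f2 = 0 := ho _ m1 _ m2
  have o2 : b f2 f1 = 0 := by rw [hb.symm]; exact o1
  have o3 : b f1 (X f2) = 0 := ho _ m1 _ m2'
  have o4 : b f2 (X f1) = 0 := by rw [hb.symm]; exact ho _ m1' _ m2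
  have hs1 : b f1 (sh X r1 f1) = -1 := by rw [s1]; simp [sg]
  have hs2 : b f2 (sh X r2 f2) = 1 := by rw [s2]; simp [sg]
  have x1 : b f1 (X f1) = -1 := by
    rw [vec3_sh, map_sub, map_smul, z1] at hs1
    simpa using hs1
  have x2 : b f2 (X f2) = 1 := by
    rw [vec3_sh, map_sub, map_smul, z2] at hs2
    simpa using hs2
  have y1 : b f1 (sh X r2 f2) = 0 := by
    rw [vec3_sh, map_sub, map_smul, o1, o3]
    simp
  have y2 : b f2 (sh X r1 f1) = 0 := by
    rw [vec3_sh, map_sub, map_smul, o2, o4]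
    simp
  have hr1 : r1 - t ≠ 0 := (sub_neg.2 h1t).ne
  have hr2 : r2 - t ≠ 0 := (sub_pos.2 ht2).ne'
  have R1 := vec3_R t hR1 r1 hr1 f1 n1
  have R2 := vec3_R t hR1 r2 hr2 f2 n2
  refine ⟨f1 + f2, Submodule.add_mem_sup m1 m2, ?_, ?_, ?_⟩
  · simp only [map_add, LinearMap.add_apply, z1, z2, o1, o2]
    norm_num
  · simp only [map_add, LinearMap.add_apply, x1, x2, o3, o4]
    norm_num
  · simp only [map_add, LinearMap.add_apply, R1, R2, map_sub, map_smul, z1, z2, o1, o2, hs1, hs2, y1, y2, smul_eq_mul]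
    have hlt : (r2 - t) ^ 2 < (r1 - t) ^ 2 := by nlinarith
    have hp2 : 0 < (r2 - t) ^ 2 := by positivity
    have := one_div_lt_one_div_of_lt hp2 hlt
    linarith
end

section
/-! Pairs of quaternionic hermitian forms.  A right quaternionic space is a module over `Q`, the
opposite of the quaternions.  A quaternionic hermitian form `h` is represented by its real part
`b x y = Re h x y`, a real bilinear symmetric form with `b (q • x) y = b x (star q • y)`.
Subspaces are `Submodule Q V`, dimension is `Module.finrank Q`. -/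
open scoped Quaternion
variable {V : Type} [AddCommGroup V] [Module Q V] [Module ℝ V] [IsScalarTower ℝ Q V]


theorem vec4_sh (X : V →ₗ[Q] V) (r : ℝ) (x : V) : sh X r x = X x - r • x := rfl

theorem vec4_smul (X : V →ₗ[Q] V) (r : ℝ) (x : V) : X (r • x) = r • X x :=
  LinearMap.map_smul_of_tower X r x

theorem vec4_mem (X : V →ₗ[Q] V) (f : V) : f ∈ cyc X f ∧ X f ∈ cyc X f := by
  unfold cyc
  exact ⟨Submodule.subset_span (by simp), Submodule.subset_span (by simp)⟩

theorem vec4_smem (U : Submodule Q V) (r : ℝ) (x : V) (hx : x ∈ U) : r • x ∈ U :=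
  Submodule.smul_of_tower_mem U r hx

/-- the resolvent on an eigenvector -/
theorem vec4_eig {X R : V →ₗ[Q] V} (t : ℝ) (hR1 : ∀ x, R (sh X t x) = x) (y : ℝ) (f : V)
    (h : sh X y f = 0) (hy : y - t ≠ 0) : X f = y • f ∧ R f = (y - t)⁻¹ • f := by
  rw [vec4_sh, sub_eq_zero] at h
  refine ⟨h, ?_⟩
  have h1 := hR1 f
  rw [vec4_sh, h, ← sub_smul, vec4_smul] at h1
  have h2 : (y - t)⁻¹ • ((y - t) • R f) = (y - t)⁻¹ • f := by rw [h1]
  rw [smul_smul, inv_mul_cancel₀ hy, one_smul] at h2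
  exact h2

theorem vec4 {b : BF V} (hb : IsF b) {X R : V →ₗ[Q] V} (hX : SA b X) (t : ℝ)
    (hR1 : ∀ x, R (sh X t x) = x) (r1 r2 y : ℝ) (f1 f2 f3 : V)
    (h1 : IsPiece b X (Piece.b2 false r1) f1) (h2 : IsPiece b X (Piece.ray true y) f2)
    (h3 : IsPiece b X (Piece.ray false r2) f3)
    (ho12 : ∀ u ∈ cyc X f1, ∀ w ∈ cyc X f2, b u w = 0)
    (ho13 : ∀ u ∈ cyc X f1, ∀ w ∈ cyc X f3, b u w = 0)
    (ho23 : ∀ u ∈ cyc X f2, ∀ w ∈ cyc X f3, b u w = 0)
    (h1t : r1 < t) (ht2 : t < r2) (h2y : r2 < y)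
    (hc : (r2 - t) * (y - t) < (t - r1) ^ 2) :
    ∃ v ∈ cyc X f1 ⊔ (cyc X f2 ⊔ cyc X f3), b v v = 0 ∧ b v (X v) = 0 ∧ b v (R v) < 0 := by
  obtain ⟨p1, p2, p3⟩ := h1
  obtain ⟨q1, q2⟩ := h2
  obtain ⟨s1, s2⟩ := h3
  have e1 : r1 - t ≠ 0 := ne_of_lt (by linarith)
  have e2 : y - t ≠ 0 := ne_of_gt (by linarith)
  have e3 : r2 - t ≠ 0 := ne_of_gt (by linarith)
  obtain ⟨X2, R2⟩ := vec4_eig t hR1 y f2 q2 e2
  obtain ⟨X3, R3⟩ := vec4_eig t hR1 r2 f3 s2 e3
  obtain ⟨g, hg⟩ : ∃ g, g = sh X r1 f1 := ⟨_, rfl⟩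
  rw [← hg] at p1 p2
  obtain ⟨Xg, Rg⟩ := vec4_eig t hR1 r1 g p1 e1
  have X1 : X f1 = r1 • f1 + g := by
    rw [hg, vec4_sh]
    abel
  have R1 : R f1 = (r1 - t)⁻¹ • f1 - ((r1 - t)⁻¹ * (r1 - t)⁻¹) • g := by
    have h4 := hR1 f1
    have h5 : sh X t f1 = (r1 - t) • f1 + g := by
      rw [vec4_sh, X1, sub_smul]
      abel
    rw [h5, map_add, vec4_smul, Rg] at h4
    have h6 : (r1 - t) • R f1 = f1 - (r1 - t)⁻¹ • g := eq_sub_of_add_eq h4
    have h7 : (r1 - t)⁻¹ • ((r1 - t) • R f1) = (r1 - t)⁻¹ • (f1 - (r1 - t)⁻¹ • g) := by rw [h6]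
    rw [smul_smul, inv_mul_cancel₀ e1, one_smul, smul_sub, smul_smul] at h7
    exact h7
  -- table of the form
  obtain ⟨m1, m1'⟩ := vec4_mem X f1
  obtain ⟨m2, m2'⟩ := vec4_mem X f2
  obtain ⟨m3, m3'⟩ := vec4_mem X f3
  have mg : g ∈ cyc X f1 := by
    rw [hg, vec4_sh]
    exact Submodule.sub_mem _ m1' (vec4_smem _ _ _ m1)
  have b12 := ho12 f1 m1 f2 m2
  have b13 := ho13 f1 m1 f3 m3
  have b23 := ho23 f2 m2 f3 m3
  have bg2 := ho12 g mg f2 m2
  have bg3 := ho13 g mg f3 m3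
  have b21 : b f2 f1 = 0 := by rw [hb.symm]; exact b12
  have b31 : b f3 f1 = 0 := by rw [hb.symm]; exact b13
  have b32 : b f3 f2 = 0 := by rw [hb.symm]; exact b23
  have b2g : b f2 g = 0 := by rw [hb.symm]; exact bg2
  have b3g : b f3 g = 0 := by rw [hb.symm]; exact bg3
  have t1 : sg true = 1 := by simp [sg]
  have t2 : sg false = -1 := by simp [sg]
  rw [t2] at p2 s1
  rw [t1] at q1
  obtain ⟨α, hα⟩ : ∃ α : ℝ, α = Real.sqrt (y - r2) := ⟨_, rfl⟩
  have hα2 : α * α = y - r2 := by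
    rw [hα]
    exact Real.mul_self_sqrt (by linarith)
  refine ⟨α • f1 + (f2 + f3), ?_, ?_, ?_, ?_⟩
  · exact Submodule.add_mem_sup (vec4_smem _ _ _ m1) (Submodule.add_mem_sup m2 m3)
  · simp only [map_add, map_smul, LinearMap.add_apply, LinearMap.smul_apply, smul_eq_mul, b12,
      b13, b23, b21, b31, b32, p3, q1, s1]
    ring
  · have hXv : X (α • f1 + (f2 + f3)) = α • (r1 • f1 + g) + (y • f2 + r2 • f3) := by
      rw [map_add X, map_add X, vec4_smul, X1, X2, X3]
    rw [hXv]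
    simp only [map_add, map_smul, LinearMap.add_apply, LinearMap.smul_apply, smul_eq_mul, b12,
      b13, b23, b21, b31, b32, b2g, b3g, p3, q1, s1, p2]
    linear_combination (-1 : ℝ) * hα2
  · have hRv : R (α • f1 + (f2 + f3)) =
        α • ((r1 - t)⁻¹ • f1 - ((r1 - t)⁻¹ * (r1 - t)⁻¹) • g) +
          ((y - t)⁻¹ • f2 + (r2 - t)⁻¹ • f3) := by
      rw [map_add R, map_add R, vec4_smul, R1, R2, R3]
    rw [hRv]
    simp only [map_add, map_sub, map_smul, LinearMap.add_apply, LinearMap.smul_apply,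
      smul_eq_mul, b12, b13, b23, b21, b31, b32, b2g, b3g, p3, q1, s1, p2]
    have hval : (y - r2) * ((r1 - t)⁻¹ * (r1 - t)⁻¹) + (y - t)⁻¹ - (r2 - t)⁻¹ < 0 := by
      have k1 : (r1 - t)⁻¹ * (r1 - t)⁻¹ = 1 / (t - r1) ^ 2 := by
        rw [← mul_inv, one_div]
        congr 1
        ring
      have k2 : (y - t)⁻¹ - (r2 - t)⁻¹ = -((y - r2) * (1 / ((r2 - t) * (y - t)))) := by
        field_simp
        ring
      have k3 : 0 < (r2 - t) * (y - t) := mul_pos (by linarith) (by linarith)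
      have k4 : 1 / (t - r1) ^ 2 < 1 / ((r2 - t) * (y - t)) := one_div_lt_one_div_of_lt k3 hc
      have k5 : 0 < y - r2 := by linarith
      have k6 := mul_lt_mul_of_pos_left k4 k5
      rw [k1, add_sub_assoc, k2]
      linarith
    have hfin : α * α * ((r1 - t)⁻¹ * (r1 - t)⁻¹) + (y - t)⁻¹ - (r2 - t)⁻¹ < 0 := by
      rw [hα2]
      exact hval
    refine lt_of_eq_of_lt ?_ hfin
    ring
end

section
/-! Pairs of quaternionic hermitian forms.  A right quaternionic space is a module over `Q`, the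
opposite of the quaternions.  A quaternionic hermitian form `h` is represented by its real part
`b x y = Re h x y`, a real bilinear symmetric form with `b (q • x) y = b x (star q • y)`.
Subspaces are `Submodule Q V`, dimension is `Module.finrank Q`. -/
open scoped Quaternion
variable {V : Type} [AddCommGroup V] [Module Q V] [Module ℝ V] [IsScalarTower ℝ Q V]


theorem vec5_sh (X : V →ₗ[Q] V) (r : ℝ) (v : V) : sh X r v = X v - r • v := by
  simp [sh]

theorem vec5_cyc1 (X : V →ₗ[Q] V) (f : V) : f ∈ cyc X f :=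
  Submodule.subset_span (by simp)

theorem vec5_cyc2 (X : V →ₗ[Q] V) (f : V) : X f ∈ cyc X f :=
  Submodule.subset_span (by simp)

theorem vec5_div {c : ℝ} (hc : c ≠ 0) {y z : V} (h : c • y = z) : y = (1 / c) • z := by
  rw [← h, smul_smul, one_div, inv_mul_cancel₀ hc, one_smul]

theorem vec5 {b : BF V} (hb : IsF b) {X R : V →ₗ[Q] V} (hX : SA b X) (t : ℝ)
    (hR1 : ∀ x, R (sh X t x) = x) (r x : ℝ) (f1 f2 : V)
    (h1 : IsPiece b X (Piece.b2 false r) f1) (h2 : IsPiece b X (Piece.ray true x) f2)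
    (ho : ∀ u ∈ cyc X f1, ∀ w ∈ cyc X f2, b u w = 0) (htr : t < r) (hrx : r < x) :
    ∃ v ∈ cyc X f1 ⊔ cyc X f2, b v v = 0 ∧ b v (X v) = 0 ∧ 0 < b v (R v) := by
  obtain ⟨h11, h12, h13⟩ := h1
  obtain ⟨h21, h22⟩ := h2
  have hgm : sh X r f1 ∈ cyc X f1 := by
    rw [vec5_sh]
    exact Submodule.sub_mem _ (vec5_cyc2 X f1) (Submodule.smul_of_tower_mem _ r (vec5_cyc1 X f1))
  have hXf1 : X f1 = r • f1 + sh X r f1 := by rw [vec5_sh]; abel
  have hXg : X (sh X r f1) = r • sh X r f1 := by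
    have h := h11
    rw [vec5_sh X r (sh X r f1), sub_eq_zero] at h
    exact h
  have hXf2 : X f2 = x • f2 := by
    have h := h22
    rw [vec5_sh, sub_eq_zero] at h
    exact h
  have bfg : b f1 (sh X r f1) = -1 := by rw [h12]; simp [sg]
  have bff2 : b f2 f2 = 1 := by rw [h21]; simp [sg]
  generalize hg : sh X r f1 = g at *
  have bgf : b g f1 = -1 := by rw [hb.symm]; exact bfg
  have bgg : b g g = 0 := by
    have e1 : b (X f1) g = b f1 (X g) := hX f1 g
    rw [hXf1, hXg] at e1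
    simp only [map_add, LinearMap.add_apply, map_smul, LinearMap.smul_apply, smul_eq_mul] at e1
    linarith
  have bf12 : b f1 f2 = 0 := ho _ (vec5_cyc1 X f1) _ (vec5_cyc1 X f2)
  have bf21 : b f2 f1 = 0 := by rw [hb.symm]; exact bf12
  have bg2 : b g f2 = 0 := ho _ hgm _ (vec5_cyc1 X f2)
  have b2g : b f2 g = 0 := by rw [hb.symm]; exact bg2
  have hRs : ∀ (c : ℝ) (y : V), R (c • y) = c • R y := fun c y => R.map_smul_of_tower c y
  have hXs : ∀ (c : ℝ) (y : V), X (c • y) = c • X y := fun c y => X.map_smul_of_tower c y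
  have hd : 0 < r - t := by linarith
  have hu : 0 < x - r := by linarith
  have hxt : 0 < x - t := by linarith
  have hRg : R g = (1 / (r - t)) • g := by
    have h := hR1 g
    rw [vec5_sh, hXg, ← sub_smul, hRs] at h
    exact vec5_div hd.ne' h
  have hRf2 : R f2 = (1 / (x - t)) • f2 := by
    have h := hR1 f2
    rw [vec5_sh, hXf2, ← sub_smul, hRs] at h
    exact vec5_div hxt.ne' h
  have hRf1 : R f1 = (1 / (r - t)) • (f1 - (1 / (r - t)) • g) := by
    have h := hR1 f1
    have e : r • f1 + g - t • f1 = (r - t) • f1 + g := by rw [sub_smul]; abel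
    rw [vec5_sh, hXf1, e, map_add, hRs, hRg] at h
    exact vec5_div hd.ne' (eq_sub_of_add_eq h)
  obtain ⟨s, hs⟩ : ∃ s : ℝ, s ^ 2 = 1 / (x - r) :=
    ⟨Real.sqrt (1 / (x - r)), Real.sq_sqrt (by positivity)⟩
  refine ⟨s • f2 + (f1 + (s ^ 2 / 2) • g), ?_, ?_, ?_, ?_⟩
  · refine Submodule.add_mem _ ?_ ?_
    · exact Submodule.mem_sup_right (Submodule.smul_of_tower_mem _ s (vec5_cyc1 X f2))
    · exact Submodule.mem_sup_left (Submodule.add_mem _ (vec5_cyc1 X f1)
        (Submodule.smul_of_tower_mem _ _ hgm))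
  · simp only [map_add, LinearMap.add_apply, map_smul, LinearMap.smul_apply, smul_eq_mul,
      bff2, bfg, bgf, bgg, bf12, bf21, bg2, b2g, h13]
    ring
  · rw [map_add X, map_add X f1, hXs, hXs, hXf1, hXg, hXf2]
    simp only [map_add, LinearMap.add_apply, map_smul, LinearMap.smul_apply, smul_eq_mul,
      bff2, bfg, bgf, bgg, bf12, bf21, bg2, b2g, h13]
    have h1 : s ^ 2 * (x - r) = 1 := by rw [hs]; field_simp
    linear_combination h1
  · rw [map_add R, map_add R f1, hRs, hRs, hRf1, hRg, hRf2]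
    simp only [map_add, map_sub, LinearMap.add_apply, map_smul, LinearMap.smul_apply, smul_eq_mul,
      bff2, bfg, bgf, bgg, bf12, bf21, bg2, b2g, h13]
    have key : (x - r) / ((r - t) ^ 2 * (x - t)) > 0 := by positivity
    refine lt_of_lt_of_eq key ?_
    have h2 : x - t = (r - t) + (x - r) := by ring
    generalize r - t = δ at *
    generalize x - r = u at *
    rw [h2] at hxt ⊢
    ring_nf
    have h4 : s ^ 2 = u⁻¹ := by rw [hs, one_div]
    rw [h4]
    field_simp
    ring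
end

section
/-! Pairs of quaternionic hermitian forms.  A right quaternionic space is a module over `Q`, the
opposite of the quaternions.  A quaternionic hermitian form `h` is represented by its real part
`b x y = Re h x y`, a real bilinear symmetric form with `b (q • x) y = b x (star q • y)`.
Subspaces are `Submodule Q V`, dimension is `Module.finrank Q`. -/
open scoped Quaternion
variable {V : Type} [AddCommGroup V] [Module Q V] [Module ℝ V] [IsScalarTower ℝ Q V]


theorem vec6 {b : BF V} (hb : IsF b) {X R : V →ₗ[Q] V} (hX : SA b X) (t : ℝ)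
    (hR1 : ∀ x, R (sh X t x) = x) (r : ℝ) (f : V)
    (h : IsPiece b X (Piece.b3 r) f) (htr : t < r) :
    ∃ v ∈ cyc X f, b v v = 0 ∧ b v (X v) = 0 ∧ 0 < b v (R v) := by
  obtain ⟨h3, h2, h1, h0⟩ : sh X r (sh X r (sh X r f)) = 0 ∧ b f (sh X r (sh X r f)) = 1 ∧
      b f (sh X r f) = 0 ∧ b f f = 0 := h
  have hsh : ∀ (s : ℝ) (x : V), sh X s x = X x - s • x := fun s x => rfl
  have hN : ∀ x : V, sh X t x = sh X r x + (r - t) • x := by
    intro x
    rw [hsh, hsh, sub_smul]
    abel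
  have hδ : 0 < r - t := sub_pos.2 htr
  obtain ⟨δ, hδd⟩ : ∃ δ, δ = r - t := ⟨_, rfl⟩
  rw [← hδd] at hδ
  simp only [← hδd] at hN
  obtain ⟨e, he⟩ : ∃ e, e = δ⁻¹ := ⟨_, rfl⟩
  have he0 : 0 < e := by rw [he]; exact inv_pos.2 hδ
  have hde : δ * e = 1 := by rw [he]; exact mul_inv_cancel₀ hδ.ne'
  have hde2 : δ * e ^ 2 = e := by rw [pow_two, ← mul_assoc, hde, one_mul]
  have hde3 : δ * e ^ 3 = e ^ 2 := by rw [pow_succ', ← mul_assoc, hde, one_mul]
  have hw : sh X t (e • f - e ^ 2 • sh X r f + e ^ 3 • sh X r (sh X r f)) = f := by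
    rw [hN]
    rw [map_add, map_sub, LinearMap.map_smul_of_tower, LinearMap.map_smul_of_tower,
      LinearMap.map_smul_of_tower, h3, smul_zero, smul_add, smul_sub, smul_smul, smul_smul,
      smul_smul, hde, hde2, hde3, one_smul]
    abel
  have hR : R f = e • f - e ^ 2 • sh X r f + e ^ 3 • sh X r (sh X r f) := by
    rw [← hR1 (e • f - e ^ 2 • sh X r f + e ^ 3 • sh X r (sh X r f)), hw]
  refine ⟨f, Submodule.subset_span (by simp), h0, ?_, ?_⟩
  · have h4 : X f = sh X r f + r • f := by rw [hsh]; abel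
    rw [h4, map_add, map_smul, h1, h0]
    simp
  · rw [hR, map_add, map_sub, map_smul, map_smul, map_smul, h0, h1, h2]
    simp only [smul_eq_mul]
    have : 0 < e ^ 3 := by positivity
    linarith
end

end Pool.QN
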