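import Pool.Agent.Helper9.QN.Defs
import Pool.Agent.Helper9.QP.A1
import Pool.Agent.Helper9.QP.B2
import Pool.Agent.Helper9.QP.E2
import Pool.Agent.Helper9.QP.G1
import Pool.Agent.Helper9.QP.G2
import Pool.Agent.Helper9.QP.T2
import Pool.Agent.Helper9.QP.T3

set_option autoImplicit false
set_option maxHeartbeats 1000000

namespace Pool.QN

section
/-! Pairs of quaternionic hermitian forms.  A right quaternionic space is a module over `Q`, the
opposite of the quaternions.  A quaternionic hermitian form `h` is represented by its real part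
`b x y = Re h x y`, a real bilinear symmetric form with `b (q • x) y = b x (star q • y)`.
Subspaces are `Submodule Q V`, dimension is `Module.finrank Q`. -/
open scoped Quaternion
variable {V : Type} [AddCommGroup V] [Module Q V] [Module ℝ V] [IsScalarTower ℝ Q V]


theorem dl_zero (b a s : BF V) (W : Submodule Q V) : DL b a s W 0 := by
  refine ⟨⊥, bot_le, ?_, ?_, ?_⟩
  · intro x hx y hy
    rw [Submodule.mem_bot] at hx hy
    subst hx
    simp
  · intro x hx hx0
    rw [Submodule.mem_bot] at hx
    exact absurd hx hx0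
  · exact finrank_bot Q V
end

section
/-! Pairs of quaternionic hermitian forms.  A right quaternionic space is a module over `Q`, the
opposite of the quaternions.  A quaternionic hermitian form `h` is represented by its real part
`b x y = Re h x y`, a real bilinear symmetric form with `b (q • x) y = b x (star q • y)`.
Subspaces are `Submodule Q V`, dimension is `Module.finrank Q`. -/
open scoped Quaternion
variable {V : Type} [AddCommGroup V] [Module Q V] [Module ℝ V] [IsScalarTower ℝ Q V]


theorem dl_mono [FiniteDimensional Q V] (b a s : BF V) (W : Submodule Q V) {m n : ℕ}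
    (hmn : m ≤ n) (h : DL b a s W n) : DL b a s W m := by
  obtain ⟨M, hMW, hN, hneg, hM⟩ := h
  have h1 : ∃ M' : Submodule Q V, M' ≤ M ∧ Module.finrank Q M' = m := by
    have hb := Module.finBasisOfFinrankEq Q M hM
    have hli : LinearIndependent Q (fun i : Fin m => ((hb (Fin.castLE hmn i) : M) : V)) := by
      have h2 : LinearIndependent Q (fun i : Fin n => ((hb i : M) : V)) := by
        have := hb.linearIndependent.map' M.subtype (Submodule.ker_subtype M)
        exact this
      exact h2.comp _ (Fin.castLE_injective hmn)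
    refine ⟨Submodule.span Q (Set.range (fun i : Fin m => ((hb (Fin.castLE hmn i) : M) : V))),
      ?_, ?_⟩
    · rw [Submodule.span_le]
      rintro _ ⟨i, rfl⟩
      exact (hb (Fin.castLE hmn i)).2
    · rw [finrank_span_eq_card hli, Fintype.card_fin]
  obtain ⟨M', hM', hm⟩ := h1
  exact ⟨M', hM'.trans hMW, fun x hx y hy => hN x (hM' hx) y (hM' hy),
    fun x hx hx0 => hneg x (hM' hx) hx0, hm⟩
end

section
/-! Pairs of quaternionic hermitian forms.  A right quaternionic space is a module over `Q`, the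
opposite of the quaternions.  A quaternionic hermitian form `h` is represented by its real part
`b x y = Re h x y`, a real bilinear symmetric form with `b (q • x) y = b x (star q • y)`.
Subspaces are `Submodule Q V`, dimension is `Module.finrank Q`. -/
open scoped Quaternion
variable {V : Type} [AddCommGroup V] [Module Q V] [Module ℝ V] [IsScalarTower ℝ Q V]


theorem tw_apply' (b : BF V) (X : V →ₗ[Q] V) (x y : V) : tw b X x y = b x (X y) := rfl

theorem sh_apply' (X : V →ₗ[Q] V) (t : ℝ) (x : V) : sh X t x = X x - t • x := rfl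

theorem R_maps [FiniteDimensional Q V] {X R : V →ₗ[Q] V} (t : ℝ)
    (hR1 : ∀ x, R (sh X t x) = x) (W : Submodule Q V) (hWi : ∀ w ∈ W, X w ∈ W) :
    ∀ w ∈ W, R w ∈ W := by
  have hm : ∀ w ∈ W, sh X t w ∈ W := by
    intro w hw
    rw [sh_apply']
    exact W.sub_mem (hWi w hw) (W.smul_of_tower_mem t hw)
  have hinj : Function.Injective ((sh X t).restrict hm) := by
    intro x y hxy
    apply Subtype.ext
    have h1 : sh X t x.1 = sh X t y.1 := congrArg Subtype.val hxy
    rw [← hR1 x.1, h1, hR1]
  have hsurj : Function.Surjective ((sh X t).restrict hm) :=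
    LinearMap.injective_iff_surjective.1 hinj
  intro w hw
  obtain ⟨w', hw'⟩ := hsurj ⟨w, hw⟩
  have h1 : sh X t w'.1 = w := congrArg Subtype.val hw'
  rw [← h1, hR1]
  exact w'.2

theorem R_sa {b : BF V} {X R : V →ₗ[Q] V} (hX : SA b X) (t : ℝ)
    (hR2 : ∀ x, sh X t (R x) = x) : SA b R := by
  have hs : ∀ x y, b (sh X t x) y = b x (sh X t y) := by
    intro x y
    rw [sh_apply', sh_apply', map_sub, map_sub, LinearMap.sub_apply, hX, map_smul, map_smul,
      LinearMap.smul_apply]
  intro x y
  conv_lhs => rw [← hR2 y]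
  rw [← hs, hR2]

theorem dl_cons [FiniteDimensional Q V] {b : BF V} (hb : IsF b) {X R : V →ₗ[Q] V}
    (hX : SA b X) (t σ : ℝ) (hR1 : ∀ x, R (sh X t x) = x) (hR2 : ∀ x, sh X t (R x) = x)
    (U W : Submodule Q V) (hUi : ∀ u ∈ U, X u ∈ U) (hWi : ∀ w ∈ W, X w ∈ W)
    (hU : ∀ x ∈ U, (∀ y ∈ U, b x y = 0) → x = 0)
    (ho : ∀ u ∈ U, ∀ w ∈ W, b u w = 0) (n : ℕ) (h : DL b (tw b X) (σ • tw b R) W n)
    (v : V) (hv : v ∈ U) (h0 : b v v = 0) (h1 : b v (X v) = 0) (h2 : σ * b v (R v) < 0) :
    DL b (tw b X) (σ • tw b R) (U ⊔ W) (n + 1) := by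
  obtain ⟨M, hMW, hneu, hneg, hfin⟩ := h
  have hRW := R_maps t hR1 W hWi
  have hRU := R_maps t hR1 U hUi
  have hRsa : SA b R := R_sa hX t hR2
  have hv0 : v ≠ 0 := by
    rintro rfl
    simp at h2
  have hUW : ∀ x, x ∈ U → x ∈ W → x = 0 := by
    intro x hxU hxW
    refine hU x hxU fun y hy => ?_
    rw [hb.symm]
    exact ho y hy x hxW
  have ho' : ∀ w ∈ W, ∀ u ∈ U, b w u = 0 := fun w hw u hu => by
    rw [hb.symm]; exact ho u hu w hw
  have hcross : ∀ (q q' : Q), b (q • v) (q' • v) = 0 := by
    intro q q'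
    rw [hb.adj, smul_smul, (self_smul hb v _).1, h0, mul_zero]
  have hcrossX : ∀ (q q' : Q), b (q • v) (q' • X v) = 0 := by
    intro q q'
    have h3 := (self_smul (isF_tw hb hX) v (star q * q')).1
    rw [tw_apply', tw_apply', map_smul, h1, mul_zero] at h3
    rw [hb.adj, smul_smul, h3]
  refine ⟨M ⊔ Submodule.span Q {v}, ?_, ?_, ?_, ?_⟩
  · refine sup_le (hMW.trans le_sup_right) ?_
    rw [Submodule.span_singleton_le_iff_mem]
    exact Submodule.mem_sup_left hv
  · intro x hx y hy
    obtain ⟨m, hm, x1, hx1, rfl⟩ := Submodule.mem_sup.1 hx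
    obtain ⟨q, rfl⟩ := Submodule.mem_span_singleton.1 hx1
    obtain ⟨m', hm', y1, hy1, rfl⟩ := Submodule.mem_sup.1 hy
    obtain ⟨q', rfl⟩ := Submodule.mem_span_singleton.1 hy1
    have e1 := (hneu m hm m' hm').1
    have e2 := (hneu m hm m' hm').2
    rw [tw_apply'] at e2
    constructor
    · rw [map_add, map_add, LinearMap.add_apply, LinearMap.add_apply, e1,
        ho _ (U.smul_mem q hv) _ (hMW hm'), ho' _ (hMW hm) _ (U.smul_mem q' hv), hcross]
      ring
    · rw [tw_apply', map_add X, LinearMap.map_smul X q' v, map_add, map_add, LinearMap.add_apply,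
        LinearMap.add_apply, e2, ho _ (U.smul_mem q hv) _ (hWi _ (hMW hm')),
        ho' _ (hMW hm) _ (U.smul_mem q' (hUi v hv)), hcrossX]
      ring
  · intro x hx hx0
    obtain ⟨m, hm, x1, hx1, rfl⟩ := Submodule.mem_sup.1 hx
    obtain ⟨q, rfl⟩ := Submodule.mem_span_singleton.1 hx1
    have e3 := (self_smul (isF_tw hb hRsa) v q).2
    rw [tw_apply', tw_apply', LinearMap.map_smul R q v] at e3
    have e4 : (σ • tw b R) (m + q • v) (m + q • v) =
        σ * b m (R m) + Quaternion.normSq q.unop * (σ * b v (R v)) := by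
      show σ * b (m + q • v) (R (m + q • v)) = _
      rw [map_add R, LinearMap.map_smul R q v, map_add, map_add, LinearMap.add_apply,
        LinearMap.add_apply, ho _ (U.smul_mem q hv) _ (hRW _ (hMW hm)),
        ho' _ (hMW hm) _ (U.smul_mem q (hRU v hv)), e3]
      ring
    rw [e4]
    have hn : 0 ≤ Quaternion.normSq q.unop := Quaternion.normSq_nonneg
    by_cases hm0 : m = 0
    · have hq : q ≠ 0 := by
        rintro rfl
        apply hx0
        rw [hm0, zero_smul, add_zero]
      have hq' : Quaternion.normSq q.unop ≠ 0 := by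
        rw [Ne, Quaternion.normSq_eq_zero]
        exact fun h => hq (MulOpposite.unop_injective h)
      have hq2 : 0 < Quaternion.normSq q.unop := lt_of_le_of_ne hn (Ne.symm hq')
      rw [hm0]
      simp only [map_zero, mul_zero, zero_add]
      exact mul_neg_of_pos_of_neg hq2 h2
    · have h5 : σ * b m (R m) < 0 := hneg m hm hm0
      have h6 : Quaternion.normSq q.unop * (σ * b v (R v)) ≤ 0 :=
        mul_nonpos_of_nonneg_of_nonpos hn h2.le
      linarith
  · have hinf : M ⊓ Submodule.span Q {v} = ⊥ := by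
      rw [eq_bot_iff]
      rintro x ⟨hx1, hx2⟩
      rw [Submodule.mem_bot]
      refine hUW x ?_ (hMW hx1)
      exact (Submodule.span_singleton_le_iff_mem v U).2 hv hx2
    have h3 := Submodule.finrank_sup_add_finrank_inf_eq M (Submodule.span Q {v})
    rw [hinf, finrank_bot, add_zero, finrank_span_singleton hv0, hfin] at h3
    exact h3
end

section
/-! Pairs of quaternionic hermitian forms.  A right quaternionic space is a module over `Q`, the
opposite of the quaternions.  A quaternionic hermitian form `h` is represented by its real part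
`b x y = Re h x y`, a real bilinear symmetric form with `b (q • x) y = b x (star q • y)`.
Subspaces are `Submodule Q V`, dimension is `Module.finrank Q`. -/
open scoped Quaternion
variable {V : Type} [AddCommGroup V] [Module Q V] [Module ℝ V] [IsScalarTower ℝ Q V]


theorem dl_cons1 [FiniteDimensional Q V] {b : BF V} (hb : IsF b) {X R : V →ₗ[Q] V}
    (hX : SA b X) (t σ : ℝ) (hR1 : ∀ x, R (sh X t x) = x) (hR2 : ∀ x, sh X t (R x) = x)
    (P1 : Piece) (f1 : V) (l : List (Piece × V)) (W : Submodule Q V)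
    (hW : IsNF b X ((P1, f1) :: l) W)
    (hv : ∃ v ∈ cyc X f1, b v v = 0 ∧ b v (X v) = 0 ∧ σ * b v (R v) < 0) (n : ℕ)
    (h : ∀ W', IsNF b X l W' → DL b (tw b X) (σ • tw b R) W' n) :
    DL b (tw b X) (σ • tw b R) W (n + 1) := by
  obtain ⟨hp, W', hW', ho, rfl⟩ := hW
  obtain ⟨v, hv, h0, h1, h2⟩ := hv
  exact dl_cons hb hX t σ hR1 hR2 (cyc X f1) W' (cyc_inv hp) (nf_inv l W' hW') (cyc_nd hb hX hp)
    ho n (h W' hW') v hv h0 h1 h2
end

section
/-! Pairs of quaternionic hermitian forms.  A right quaternionic space is a module over `Q`, the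
opposite of the quaternions.  A quaternionic hermitian form `h` is represented by its real part
`b x y = Re h x y`, a real bilinear symmetric form with `b (q • x) y = b x (star q • y)`.
Subspaces are `Submodule Q V`, dimension is `Module.finrank Q`. -/
open scoped Quaternion
variable {V : Type} [AddCommGroup V] [Module Q V] [Module ℝ V] [IsScalarTower ℝ Q V]


/-- a piece may be ignored -/
theorem dl_skip {b : BF V} {X : V →ₗ[Q] V} (s : BF V)
    (P1 : Piece) (f1 : V) (l : List (Piece × V)) (W : Submodule Q V)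
    (hW : IsNF b X ((P1, f1) :: l) W) (n : ℕ)
    (h : ∀ W', IsNF b X l W' → DL b (tw b X) s W' n) : DL b (tw b X) s W n := by
  obtain ⟨_, W', hW', _, hsup⟩ := hW
  obtain ⟨M, hM, h1, h2, h3⟩ := h W' hW'
  exact ⟨M, hM.trans (by rw [← hsup]; exact le_sup_right), h1, h2, h3⟩
end

section
/-! Pairs of quaternionic hermitian forms.  A right quaternionic space is a module over `Q`, the
opposite of the quaternions.  A quaternionic hermitian form `h` is represented by its real part
`b x y = Re h x y`, a real bilinear symmetric form with `b (q • x) y = b x (star q • y)`.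
Subspaces are `Submodule Q V`, dimension is `Module.finrank Q`. -/
open scoped Quaternion
variable {V : Type} [AddCommGroup V] [Module Q V] [Module ℝ V] [IsScalarTower ℝ Q V]


theorem dl_cons2 [FiniteDimensional Q V] {b : BF V} (hb : IsF b) {X R : V →ₗ[Q] V}
    (hX : SA b X) (t σ : ℝ) (hR1 : ∀ x, R (sh X t x) = x) (hR2 : ∀ x, sh X t (R x) = x)
    (P1 P2 : Piece) (f1 f2 : V) (l : List (Piece × V)) (W : Submodule Q V)
    (hW : IsNF b X ((P1, f1) :: (P2, f2) :: l) W)
    (hv : (∀ u ∈ cyc X f1, ∀ w ∈ cyc X f2, b u w = 0) →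
      ∃ v ∈ cyc X f1 ⊔ cyc X f2, b v v = 0 ∧ b v (X v) = 0 ∧ σ * b v (R v) < 0) (n : ℕ)
    (h : ∀ W', IsNF b X l W' → DL b (tw b X) (σ • tw b R) W' n) :
    DL b (tw b X) (σ • tw b R) W (n + 1) := by
  obtain ⟨hp1, W1, ⟨hp2, W2, hnf, ho2, hW2⟩, ho1, hW1⟩ := hW
  have hle2 : cyc X f2 ≤ W1 := by rw [← hW2]; exact le_sup_left
  have hle3 : W2 ≤ W1 := by rw [← hW2]; exact le_sup_right
  have h12 : ∀ u ∈ cyc X f1, ∀ w ∈ cyc X f2, b u w = 0 := fun u hu w hw => ho1 u hu w (hle2 hw)
  obtain ⟨v, hvU, hv0, hv1, hv2⟩ := hv h12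
  have hWe : (cyc X f1 ⊔ cyc X f2) ⊔ W2 = W := by rw [sup_assoc, hW2, hW1]
  rw [← hWe]
  refine dl_cons hb hX t σ hR1 hR2 (cyc X f1 ⊔ cyc X f2) W2 ?_ (nf_inv l W2 hnf) ?_ ?_ n
    (h W2 hnf) v hvU hv0 hv1 hv2
  · intro u hu
    obtain ⟨u1, hu1, u2, hu2, rfl⟩ := Submodule.mem_sup.1 hu
    rw [map_add]
    exact Submodule.add_mem_sup (cyc_inv hp1 u1 hu1) (cyc_inv hp2 u2 hu2)
  · intro x hx hy
    obtain ⟨u1, hu1, u2, hu2, rfl⟩ := Submodule.mem_sup.1 hx
    have e1 : u1 = 0 := by
      refine cyc_nd hb hX hp1 u1 hu1 fun y hy1 => ?_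
      have h5 := hy y (Submodule.mem_sup_left hy1)
      rw [map_add, LinearMap.add_apply, hb.symm u2 y, h12 y hy1 u2 hu2, add_zero] at h5
      exact h5
    have e2 : u2 = 0 := by
      refine cyc_nd hb hX hp2 u2 hu2 fun y hy2 => ?_
      have h5 := hy y (Submodule.mem_sup_right hy2)
      rw [map_add, LinearMap.add_apply, h12 u1 hu1 y hy2, zero_add] at h5
      exact h5
    rw [e1, e2, add_zero]
  · intro u hu w hw
    obtain ⟨u1, hu1, u2, hu2, rfl⟩ := Submodule.mem_sup.1 hu
    rw [map_add, LinearMap.add_apply, ho1 u1 hu1 w (hle3 hw), ho2 u2 hu2 w hw, add_zero]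
end

section
/-! Pairs of quaternionic hermitian forms.  A right quaternionic space is a module over `Q`, the
opposite of the quaternions.  A quaternionic hermitian form `h` is represented by its real part
`b x y = Re h x y`, a real bilinear symmetric form with `b (q • x) y = b x (star q • y)`.
Subspaces are `Submodule Q V`, dimension is `Module.finrank Q`. -/
open scoped Quaternion
variable {V : Type} [AddCommGroup V] [Module Q V] [Module ℝ V] [IsScalarTower ℝ Q V]


theorem dc3_inv {X : V →ₗ[Q] V} {C D : Submodule Q V} (hC : ∀ w ∈ C, X w ∈ C)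
    (hD : ∀ w ∈ D, X w ∈ D) : ∀ w ∈ C ⊔ D, X w ∈ C ⊔ D := by
  intro w hw
  obtain ⟨c, hc, d, hd, rfl⟩ := Submodule.mem_sup.1 hw
  rw [map_add]
  exact Submodule.add_mem_sup (hC c hc) (hD d hd)

theorem dc3_nd {b : BF V} (hb : IsF b) {C D : Submodule Q V}
    (hC : ∀ x ∈ C, (∀ y ∈ C, b x y = 0) → x = 0) (hD : ∀ x ∈ D, (∀ y ∈ D, b x y = 0) → x = 0)
    (ho : ∀ u ∈ C, ∀ w ∈ D, b u w = 0) :
    ∀ x ∈ C ⊔ D, (∀ y ∈ C ⊔ D, b x y = 0) → x = 0 := by
  intro x hx h
  obtain ⟨c, hc, d, hd, rfl⟩ := Submodule.mem_sup.1 hx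
  have h1 : c = 0 := by
    refine hC c hc fun y hy => ?_
    have h2 := h y (Submodule.mem_sup_left hy)
    rw [map_add, LinearMap.add_apply, hb.symm d y, ho y hy d hd, add_zero] at h2
    exact h2
  have h3 : d = 0 := by
    refine hD d hd fun y hy => ?_
    have h2 := h y (Submodule.mem_sup_right hy)
    rw [map_add, LinearMap.add_apply, ho c hc y hy, zero_add] at h2
    exact h2
  rw [h1, h3, add_zero]

theorem dl_cons3 [FiniteDimensional Q V] {b : BF V} (hb : IsF b) {X R : V →ₗ[Q] V}
    (hX : SA b X) (t σ : ℝ) (hR1 : ∀ x, R (sh X t x) = x) (hR2 : ∀ x, sh X t (R x) = x)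
    (P1 P2 P3 : Piece) (f1 f2 f3 : V) (l : List (Piece × V)) (W : Submodule Q V)
    (hW : IsNF b X ((P1, f1) :: (P2, f2) :: (P3, f3) :: l) W)
    (hv : (∀ u ∈ cyc X f1, ∀ w ∈ cyc X f2, b u w = 0) →
      (∀ u ∈ cyc X f1, ∀ w ∈ cyc X f3, b u w = 0) →
      (∀ u ∈ cyc X f2, ∀ w ∈ cyc X f3, b u w = 0) →
      ∃ v ∈ cyc X f1 ⊔ (cyc X f2 ⊔ cyc X f3), b v v = 0 ∧ b v (X v) = 0 ∧ σ * b v (R v) < 0)
    (n : ℕ) (h : ∀ W', IsNF b X l W' → DL b (tw b X) (σ • tw b R) W' n) :
    DL b (tw b X) (σ • tw b R) W (n + 1) := by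
  obtain ⟨p1, W1, hW1, o1, rfl⟩ := hW
  obtain ⟨p2, W2, hW2, o2, rfl⟩ := hW1
  obtain ⟨p3, W3, hW3, o3, rfl⟩ := hW2
  have o12 : ∀ u ∈ cyc X f1, ∀ w ∈ cyc X f2, b u w = 0 := fun u hu w hw =>
    o1 u hu w (Submodule.mem_sup_left hw)
  have o13 : ∀ u ∈ cyc X f1, ∀ w ∈ cyc X f3, b u w = 0 := fun u hu w hw =>
    o1 u hu w (Submodule.mem_sup_right (Submodule.mem_sup_left hw))
  have o23 : ∀ u ∈ cyc X f2, ∀ w ∈ cyc X f3, b u w = 0 := fun u hu w hw =>
    o2 u hu w (Submodule.mem_sup_left hw)
  have o1w : ∀ u ∈ cyc X f1, ∀ w ∈ W3, b u w = 0 := fun u hu w hw =>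
    o1 u hu w (Submodule.mem_sup_right (Submodule.mem_sup_right hw))
  have o2w : ∀ u ∈ cyc X f2, ∀ w ∈ W3, b u w = 0 := fun u hu w hw =>
    o2 u hu w (Submodule.mem_sup_right hw)
  have o123 : ∀ u ∈ cyc X f1, ∀ w ∈ cyc X f2 ⊔ cyc X f3, b u w = 0 := by
    intro u hu w hw
    obtain ⟨c, hc, d, hd, rfl⟩ := Submodule.mem_sup.1 hw
    rw [map_add, o12 u hu c hc, o13 u hu d hd, add_zero]
  obtain ⟨v, hvm, h0, h1, h2⟩ := hv o12 o13 o23
  have key := dl_cons hb hX t σ hR1 hR2 (cyc X f1 ⊔ (cyc X f2 ⊔ cyc X f3)) W3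
    (dc3_inv (cyc_inv p1) (dc3_inv (cyc_inv p2) (cyc_inv p3))) (nf_inv l W3 hW3)
    (dc3_nd hb (cyc_nd hb hX p1) (dc3_nd hb (cyc_nd hb hX p2) (cyc_nd hb hX p3) o23) o123)
    (by
      intro u hu w hw
      obtain ⟨c, hc, d, hd, rfl⟩ := Submodule.mem_sup.1 hu
      obtain ⟨d1, hd1, d2, hd2, rfl⟩ := Submodule.mem_sup.1 hd
      rw [map_add, map_add, LinearMap.add_apply, LinearMap.add_apply, o1w c hc w hw,
        o2w d1 hd1 w hw, o3 d2 hd2 w hw, add_zero, add_zero])
    n (h W3 hW3) v hvm h0 h1 h2
  have e : cyc X f1 ⊔ (cyc X f2 ⊔ cyc X f3) ⊔ W3 = cyc X f1 ⊔ (cyc X f2 ⊔ (cyc X f3 ⊔ W3)) := by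
    rw [sup_assoc, sup_assoc]
  rw [e] at key
  exact key
end

section
/-! Pairs of quaternionic hermitian forms.  A right quaternionic space is a module over `Q`, the
opposite of the quaternions.  A quaternionic hermitian form `h` is represented by its real part
`b x y = Re h x y`, a real bilinear symmetric form with `b (q • x) y = b x (star q • y)`.
Subspaces are `Submodule Q V`, dimension is `Module.finrank Q`. -/
open scoped Quaternion
variable {V : Type} [AddCommGroup V] [Module Q V] [Module ℝ V] [IsScalarTower ℝ Q V]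


omit [AddCommGroup V] [Module Q V] [Module ℝ V] [IsScalarTower ℝ Q V] in
theorem dlx_cnt_perm (p : Piece → Prop) {l l' : List (Piece × V)} (h : l.Perm l') :
    cnt p (l.map Prod.fst) = cnt p (l'.map Prod.fst) := by
  unfold cnt
  exact (h.map Prod.fst).countP_eq _

omit [AddCommGroup V] [Module Q V] [Module ℝ V] [IsScalarTower ℝ Q V] in
theorem dlx_cnt_cons (p : Piece → Prop) (P : Piece) (f : V) (l : List (Piece × V)) :
    (p P → cnt p (((P, f) :: l).map Prod.fst) = cnt p (l.map Prod.fst) + 1) ∧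
    (¬ p P → cnt p (((P, f) :: l).map Prod.fst) = cnt p (l.map Prod.fst)) := by
  constructor
  · intro h
    unfold cnt
    rw [List.map_cons, List.countP_cons_of_pos]
    simpa using h
  · intro h
    unfold cnt
    rw [List.map_cons, List.countP_cons_of_neg]
    simpa using h

omit [AddCommGroup V] [Module Q V] [Module ℝ V] [IsScalarTower ℝ Q V] in
theorem dlx_extract (p : Piece → Prop) (l : List (Piece × V))
    (h : 1 ≤ cnt p (l.map Prod.fst)) :
    ∃ (P : Piece) (f : V) (l' : List (Piece × V)), p P ∧ l.Perm ((P, f) :: l') := by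
  unfold cnt at h
  have h1 := List.countP_pos_iff.mp h
  obtain ⟨P, hP, hp⟩ := h1
  rw [List.mem_map] at hP
  obtain ⟨⟨P', f⟩, hPf, rfl⟩ := hP
  obtain ⟨s, t, rfl⟩ := List.append_of_mem hPf
  refine ⟨P', f, s ++ t, by simpa using hp, List.perm_middle⟩

theorem dlx_pX {r1 : ℝ} {P : Piece} (h : pX r1 P) : ∃ x, P = Piece.ray true x ∧ x ≤ r1 := by
  rcases P with ⟨e, x⟩ | ⟨r, s⟩ | ⟨e, r⟩ | r
  · cases e
    · exact absurd h (by simp [pX])
    · exact ⟨x, rfl, h⟩
  · exact absurd h (by simp [pX])
  · exact absurd h (by simp [pX])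
  · exact absurd h (by simp [pX])

theorem dlx_pY {r2 : ℝ} {P : Piece} (h : pY r2 P) : ∃ x, P = Piece.ray true x ∧ r2 < x := by
  rcases P with ⟨e, x⟩ | ⟨r, s⟩ | ⟨e, r⟩ | r
  · cases e
    · exact absurd h (by simp [pY])
    · exact ⟨x, rfl, h⟩
  · exact absurd h (by simp [pY])
  · exact absurd h (by simp [pY])
  · exact absurd h (by simp [pY])

theorem dlx_pZ {r2 : ℝ} {P : Piece} (h : pZ r2 P) : P = Piece.ray false r2 := by
  rcases P with ⟨e, x⟩ | ⟨r, s⟩ | ⟨e, r⟩ | r
  · cases e
    · have : x = r2 := h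
      rw [this]
    · exact absurd h (by simp [pZ])
  · exact absurd h (by simp [pZ])
  · exact absurd h (by simp [pZ])
  · exact absurd h (by simp [pZ])

theorem dlx_pJ {P : Piece} (h : pJ true P) : ∃ r, P = Piece.b2 true r := by
  rcases P with ⟨e, x⟩ | ⟨r, s⟩ | ⟨e, r⟩ | r
  · exact absurd h (by simp [pJ])
  · exact absurd h (by simp [pJ])
  · have : e = true := h
    exact ⟨r, by rw [this]⟩
  · exact absurd h (by simp [pJ])

theorem dl_II [FiniteDimensional Q V] {b : BF V} (hb : IsF b) {X R : V →ₗ[Q] V}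
    (hX : SA b X) (t : ℝ) (hR1 : ∀ x, R (sh X t x) = x) (hR2 : ∀ x, sh X t (R x) = x)
    (r1 r2 : ℝ) (h1 : r1 < t) (h2 : t < r2) (n : ℕ) :
    ∀ (l : List (Piece × V)) (W : Submodule Q V), IsNF b X l W →
      (∀ P ∈ l.map Prod.fst, shII r1 r2 P) → n ≤ cnt (pX r1) (l.map Prod.fst) →
      n ≤ cnt (pJ true) (l.map Prod.fst) +
        min (cnt (pY r2) (l.map Prod.fst)) (cnt (pZ r2) (l.map Prod.fst)) →
      DL b (tw b X) ((1 : ℝ) • tw b R) W n := by
  induction n with
  | zero => intro l W _ _ _ _; exact dl_zero _ _ _ _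
  | succ n ih =>
    intro l W hW hsh hcX hc
    obtain ⟨P1, f1, l1, hP1, hp1⟩ := dlx_extract (pX r1) l (by omega)
    obtain ⟨x, rfl, hx⟩ := dlx_pX hP1
    have nX1 := (dlx_cnt_cons (pX r1) (Piece.ray true x) f1 l1).1 hP1
    have nY1 := (dlx_cnt_cons (pY r2) (Piece.ray true x) f1 l1).2 (by
      intro h
      have h' : r2 < x := h
      linarith)
    have nZ1 := (dlx_cnt_cons (pZ r2) (Piece.ray true x) f1 l1).2 (by simp [pZ])
    have nJ1 := (dlx_cnt_cons (pJ true) (Piece.ray true x) f1 l1).2 (by simp [pJ])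
    rw [← dlx_cnt_perm _ hp1] at nX1 nY1 nZ1 nJ1
    have hsh1 : ∀ P ∈ l1.map Prod.fst, shII r1 r2 P := by
      intro P hP
      apply hsh
      rw [(hp1.map Prod.fst).mem_iff]
      rw [List.map_cons]
      exact List.mem_cons_of_mem _ hP
    by_cases hJ : 1 ≤ cnt (pJ true) (l.map Prod.fst)
    · obtain ⟨P2, f2, l2, hP2, hp2⟩ := dlx_extract (pJ true) l1 (by omega)
      obtain ⟨r, rfl⟩ := dlx_pJ hP2
      have hr : r = r2 := by
        have := hsh1 (Piece.b2 true r) (by
          rw [(hp2.map Prod.fst).mem_iff]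
          rw [List.map_cons]
          exact List.mem_cons_self ..)
        exact this
      subst hr
      have nX2 := (dlx_cnt_cons (pX r1) (Piece.b2 true r) f2 l2).2 (by simp [pX])
      have nY2 := (dlx_cnt_cons (pY r) (Piece.b2 true r) f2 l2).2 (by simp [pY])
      have nZ2 := (dlx_cnt_cons (pZ r) (Piece.b2 true r) f2 l2).2 (by simp [pZ])
      have nJ2 := (dlx_cnt_cons (pJ true) (Piece.b2 true r) f2 l2).1 hP2
      rw [← dlx_cnt_perm _ hp2] at nX2 nY2 nZ2 nJ2
      have hsh2 : ∀ P ∈ l2.map Prod.fst, shII r1 r P := by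
        intro P hP
        apply hsh1
        rw [(hp2.map Prod.fst).mem_iff]
        rw [List.map_cons]
        exact List.mem_cons_of_mem _ hP
      have hperm : l.Perm ((Piece.ray true x, f1) :: (Piece.b2 true r, f2) :: l2) :=
        hp1.trans (hp2.cons _)
      have hW2 := nf_perm hb hperm W hW
      obtain ⟨hq1, W1, hW1, _, _⟩ := hW2
      obtain ⟨hq2, W2, hW2', _, _⟩ := hW1
      refine dl_cons2 hb hX t 1 hR1 hR2 (Piece.ray true x) (Piece.b2 true r) f1 f2 l2 W
        (nf_perm hb hperm W hW) ?_ n ?_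
      · intro ho
        obtain ⟨v, hv, a1, a2, a3⟩ := vec1 hb hX t hR1 x r f1 f2 hq1 hq2 ho (by linarith) h2
        exact ⟨v, hv, a1, a2, by rw [one_mul]; exact a3⟩
      · intro W' hW'
        apply ih l2 W' hW' hsh2
        · omega
        · omega
    · obtain ⟨P2, f2, l2, hP2, hp2⟩ := dlx_extract (pY r2) l1 (by omega)
      obtain ⟨y, rfl, hy⟩ := dlx_pY hP2
      have nX2 := (dlx_cnt_cons (pX r1) (Piece.ray true y) f2 l2).2 (by
        intro h
        have h' : y ≤ r1 := h
        linarith)
      have nY2 := (dlx_cnt_cons (pY r2) (Piece.ray true y) f2 l2).1 hP2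
      have nZ2 := (dlx_cnt_cons (pZ r2) (Piece.ray true y) f2 l2).2 (by simp [pZ])
      have nJ2 := (dlx_cnt_cons (pJ true) (Piece.ray true y) f2 l2).2 (by simp [pJ])
      rw [← dlx_cnt_perm _ hp2] at nX2 nY2 nZ2 nJ2
      have hsh2 : ∀ P ∈ l2.map Prod.fst, shII r1 r2 P := by
        intro P hP
        apply hsh1
        rw [(hp2.map Prod.fst).mem_iff]
        rw [List.map_cons]
        exact List.mem_cons_of_mem _ hP
      obtain ⟨P3, f3, l3, hP3, hp3⟩ := dlx_extract (pZ r2) l2 (by omega)
      have hz := dlx_pZ hP3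
      subst hz
      have nX3 := (dlx_cnt_cons (pX r1) (Piece.ray false r2) f3 l3).2 (by simp [pX])
      have nY3 := (dlx_cnt_cons (pY r2) (Piece.ray false r2) f3 l3).2 (by simp [pY])
      have nZ3 := (dlx_cnt_cons (pZ r2) (Piece.ray false r2) f3 l3).1 hP3
      have nJ3 := (dlx_cnt_cons (pJ true) (Piece.ray false r2) f3 l3).2 (by simp [pJ])
      rw [← dlx_cnt_perm _ hp3] at nX3 nY3 nZ3 nJ3
      have hsh3 : ∀ P ∈ l3.map Prod.fst, shII r1 r2 P := by
        intro P hP
        apply hsh2
        rw [(hp3.map Prod.fst).mem_iff]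
        rw [List.map_cons]
        exact List.mem_cons_of_mem _ hP
      have hperm : l.Perm ((Piece.ray true x, f1) :: (Piece.ray true y, f2) ::
          (Piece.ray false r2, f3) :: l3) :=
        hp1.trans ((hp2.trans (hp3.cons _)).cons _)
      have hW2 := nf_perm hb hperm W hW
      obtain ⟨hq1, W1, hW1, _, _⟩ := hW2
      obtain ⟨hq2, W2, hW2', ho2, _⟩ := hW1
      obtain ⟨hq3, W3, hW3', _, hs3⟩ := hW2'
      refine dl_cons3 hb hX t 1 hR1 hR2 (Piece.ray true x) (Piece.ray true y)
        (Piece.ray false r2) f1 f2 f3 l3 W (nf_perm hb hperm W hW) ?_ n ?_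
      · intro ho12 ho13 ho23
        obtain ⟨v, hv, a1, a2, a3⟩ := vec2 hb hX t hR1 x y r2 f1 f2 f3 hq1 hq2 hq3 ho12 ho13 ho23
          (by linarith) h2 hy
        exact ⟨v, hv, a1, a2, by rw [one_mul]; exact a3⟩
      · intro W' hW'
        apply ih l3 W' hW' hsh3
        · omega
        · omega
end

section
/-! Pairs of quaternionic hermitian forms.  A right quaternionic space is a module over `Q`, the
opposite of the quaternions.  A quaternionic hermitian form `h` is represented by its real part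
`b x y = Re h x y`, a real bilinear symmetric form with `b (q • x) y = b x (star q • y)`.
Subspaces are `Submodule Q V`, dimension is `Module.finrank Q`. -/
open scoped Quaternion
variable {V : Type} [AddCommGroup V] [Module Q V] [Module ℝ V] [IsScalarTower ℝ Q V]


theorem dlp_cons_pos (p : Piece → Prop) (P : Piece) (L : List Piece) (h : p P) :
    cnt p (P :: L) = cnt p L + 1 := by
  unfold cnt
  rw [List.countP_cons_of_pos]
  simpa using h

theorem dlp_cons_neg (p : Piece → Prop) (P : Piece) (L : List Piece) (h : ¬ p P) :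
    cnt p (P :: L) = cnt p L := by
  unfold cnt
  rw [List.countP_cons_of_neg]
  simpa using h

theorem dlp_perm (p : Piece → Prop) {L L' : List Piece} (h : L.Perm L') : cnt p L = cnt p L' := by
  unfold cnt
  exact h.countP_eq _

theorem dlp_pick {V : Type} (p : Piece → Prop) (l : List (Piece × V))
    (h : 1 ≤ cnt p (l.map Prod.fst)) :
    ∃ (P : Piece) (f : V) (l' : List (Piece × V)), p P ∧ l.Perm ((P, f) :: l') := by
  unfold cnt at h
  obtain ⟨P, hP, hpP⟩ := List.countP_pos_iff.mp (Nat.lt_of_lt_of_le Nat.zero_lt_one h)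
  rw [List.mem_map] at hP
  obtain ⟨⟨P', f⟩, hm, rfl⟩ := hP
  obtain ⟨s, t, rfl⟩ := List.append_of_mem hm
  refine ⟨P', f, s ++ t, by simpa using hpP, List.perm_middle⟩

theorem dl_II' [FiniteDimensional Q V] {b : BF V} (hb : IsF b) {X R : V →ₗ[Q] V}
    (hX : SA b X) (t : ℝ) (hR1 : ∀ x, R (sh X t x) = x) (hR2 : ∀ x, sh X t (R x) = x)
    (r1 r2 : ℝ) (h1 : r1 < t) (h2 : t < r2) (h3 : r2 - t < t - r1)
    (l : List (Piece × V)) (W : Submodule Q V) (hl : IsNF b X l W)
    (hsh : ∀ P ∈ l.map Prod.fst, shII r1 r2 P)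
    (h4 : ∀ y, Piece.ray true y ∈ l.map Prod.fst → r2 < y → (r2 - t) * (y - t) < (t - r1) ^ 2)
    (hJ : 1 ≤ cnt (pJ false) (l.map Prod.fst)) (n : ℕ)
    (hn1 : n ≤ cnt (pX r1) (l.map Prod.fst))
    (hn2 : n + 1 ≤ cnt (pJ true) (l.map Prod.fst) +
        min (cnt (pY r2) (l.map Prod.fst)) (cnt (pZ r2) (l.map Prod.fst))) :
      DL b (tw b X) ((1 : ℝ) • tw b R) W (n + 1) := by
  -- first pick the `b2 false` piece
  obtain ⟨P1, f1, l1, hP1, hp1⟩ := dlp_pick _ l hJ
  obtain ⟨r, rfl⟩ : ∃ r, P1 = Piece.b2 false r := by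
    cases P1 with
    | ray e x => exact absurd hP1 (by simp [pJ])
    | cx r s => exact absurd hP1 (by simp [pJ])
    | b2 e r => exact ⟨r, by simp only [pJ] at hP1; rw [hP1]⟩
    | b3 r => exact absurd hP1 (by simp [pJ])
  have hpm1 : (l.map Prod.fst).Perm (Piece.b2 false r :: l1.map Prod.fst) := hp1.map Prod.fst
  have hr : r = r1 := by
    have := hsh (Piece.b2 false r) (hpm1.mem_iff.mpr (by simp))
    simpa [shII] using this
  subst hr
  have hnX : cnt (pX r) (l.map Prod.fst) = cnt (pX r) (l1.map Prod.fst) := by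
    rw [dlp_perm _ hpm1, dlp_cons_neg _ _ _ (by simp [pX])]
  have hnT : cnt (pJ true) (l.map Prod.fst) = cnt (pJ true) (l1.map Prod.fst) := by
    rw [dlp_perm _ hpm1, dlp_cons_neg _ _ _ (by simp [pJ])]
  have hnY : cnt (pY r2) (l.map Prod.fst) = cnt (pY r2) (l1.map Prod.fst) := by
    rw [dlp_perm _ hpm1, dlp_cons_neg _ _ _ (by simp [pY])]
  have hnZ : cnt (pZ r2) (l.map Prod.fst) = cnt (pZ r2) (l1.map Prod.fst) := by
    rw [dlp_perm _ hpm1, dlp_cons_neg _ _ _ (by simp [pZ])]
  rw [hnX] at hn1
  rw [hnT, hnY, hnZ] at hn2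
  by_cases hT : 1 ≤ cnt (pJ true) (l1.map Prod.fst)
  · obtain ⟨P2, f2, l2, hP2, hp2⟩ := dlp_pick _ l1 hT
    obtain ⟨r', rfl⟩ : ∃ r', P2 = Piece.b2 true r' := by
      cases P2 with
      | ray e x => exact absurd hP2 (by simp [pJ])
      | cx r s => exact absurd hP2 (by simp [pJ])
      | b2 e r => exact ⟨r, by simp only [pJ] at hP2; rw [hP2]⟩
      | b3 r => exact absurd hP2 (by simp [pJ])
    have hpm2 : (l1.map Prod.fst).Perm (Piece.b2 true r' :: l2.map Prod.fst) := hp2.map Prod.fst
    have hr' : r' = r2 := by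
      have := hsh (Piece.b2 true r') (hpm1.mem_iff.mpr (List.mem_cons_of_mem _
        (hpm2.mem_iff.mpr (by simp))))
      simpa [shII] using this
    subst hr'
    have hperm : l.Perm ((Piece.b2 false r, f1) :: (Piece.b2 true r', f2) :: l2) :=
      hp1.trans (hp2.cons _)
    have hW := nf_perm hb hperm W hl
    refine dl_cons2 hb hX t 1 hR1 hR2 (Piece.b2 false r) (Piece.b2 true r') f1 f2 l2 W hW ?_ n ?_
    · intro ho
      obtain ⟨W', hW', _, _⟩ := hW.2
      obtain ⟨v, hv, hv1, hv2, hv3⟩ := vec3 hb hX t hR1 r r' f1 f2 hW.1 hW'.1 ho h1 h2 h3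
      exact ⟨v, hv, hv1, hv2, by rw [one_mul]; exact hv3⟩
    · intro W' hW'
      refine dl_II hb hX t hR1 hR2 r r' h1 h2 n l2 W' hW' ?_ ?_ ?_
      · intro P hP
        exact hsh P (hpm1.mem_iff.mpr (List.mem_cons_of_mem _
          (hpm2.mem_iff.mpr (List.mem_cons_of_mem _ hP))))
      · rw [dlp_perm _ hpm2, dlp_cons_neg _ _ _ (by simp [pX])] at hn1
        exact hn1
      · rw [dlp_perm _ hpm2, dlp_cons_pos _ _ _ (by simp [pJ]), dlp_perm (pY r') hpm2,
          dlp_cons_neg (pY r') _ _ (by simp [pY]), dlp_perm (pZ r') hpm2,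
          dlp_cons_neg (pZ r') _ _ (by simp [pZ])] at hn2
        omega
  · have hT0 : cnt (pJ true) (l1.map Prod.fst) = 0 := by omega
    rw [hT0, zero_add] at hn2
    have hY1 : 1 ≤ cnt (pY r2) (l1.map Prod.fst) := by
      have := le_trans hn2 (min_le_left _ _); omega
    obtain ⟨P2, f2, l2, hP2, hp2⟩ := dlp_pick _ l1 hY1
    obtain ⟨y, rfl, hy⟩ : ∃ y, P2 = Piece.ray true y ∧ r2 < y := by
      cases P2 with
      | ray e x =>
        cases e with
        | true => exact ⟨x, rfl, by simpa [pY] using hP2⟩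
        | false => exact absurd hP2 (by simp [pY])
      | cx r s => exact absurd hP2 (by simp [pY])
      | b2 e r => exact absurd hP2 (by simp [pY])
      | b3 r => exact absurd hP2 (by simp [pY])
    have hpm2 : (l1.map Prod.fst).Perm (Piece.ray true y :: l2.map Prod.fst) := hp2.map Prod.fst
    have hyr : ¬ pX r (Piece.ray true y) := by
      simp only [pX]; intro hh; linarith
    rw [dlp_perm (pY r2) hpm2, dlp_cons_pos (pY r2) _ _ (by simpa [pY] using hy),
      dlp_perm (pZ r2) hpm2, dlp_cons_neg (pZ r2) _ _ (by simp [pZ])] at hn2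
    rw [dlp_perm _ hpm2, dlp_cons_neg _ _ _ hyr] at hn1
    have hT02 : cnt (pJ true) (l2.map Prod.fst) = 0 := by
      rw [dlp_perm _ hpm2, dlp_cons_neg _ _ _ (by simp [pJ])] at hT0
      exact hT0
    have hZ1 : 1 ≤ cnt (pZ r2) (l2.map Prod.fst) := by
      have := le_trans hn2 (min_le_right _ _); omega
    obtain ⟨P3, f3, l3, hP3, hp3⟩ := dlp_pick _ l2 hZ1
    obtain ⟨rfl⟩ : P3 = Piece.ray false r2 := by
      cases P3 with
      | ray e x =>
        cases e with
        | true => exact absurd hP3 (by simp [pZ])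
        | false =>
          have : x = r2 := by simpa [pZ] using hP3
          rw [this]
      | cx r s => exact absurd hP3 (by simp [pZ])
      | b2 e r => exact absurd hP3 (by simp [pZ])
      | b3 r => exact absurd hP3 (by simp [pZ])
    have hpm3 : (l2.map Prod.fst).Perm (Piece.ray false r2 :: l3.map Prod.fst) := hp3.map Prod.fst
    rw [dlp_perm (pY r2) hpm3, dlp_cons_neg (pY r2) _ _ (by simp [pY]),
      dlp_perm (pZ r2) hpm3, dlp_cons_pos (pZ r2) _ _ (by simp [pZ])] at hn2
    rw [dlp_perm _ hpm3, dlp_cons_neg _ _ _ (by simp [pX])] at hn1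
    have hperm : l.Perm ((Piece.b2 false r, f1) :: (Piece.ray true y, f2) ::
        (Piece.ray false r2, f3) :: l3) :=
      hp1.trans ((hp2.trans (hp3.cons _)).cons _)
    have hW := nf_perm hb hperm W hl
    have hyc : (r2 - t) * (y - t) < (t - r) ^ 2 := by
      apply h4 y _ hy
      exact hpm1.mem_iff.mpr (List.mem_cons_of_mem _ (hpm2.mem_iff.mpr (by simp)))
    refine dl_cons3 hb hX t 1 hR1 hR2 (Piece.b2 false r) (Piece.ray true y) (Piece.ray false r2)
      f1 f2 f3 l3 W hW ?_ n ?_
    · intro ho12 ho13 ho23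
      obtain ⟨W', hW', _, _⟩ := hW.2
      obtain ⟨W'', hW'', _, _⟩ := hW'.2
      obtain ⟨v, hv, hv1, hv2, hv3⟩ := vec4 hb hX t hR1 r r2 y f1 f2 f3 hW.1 hW'.1 hW''.1
        ho12 ho13 ho23 h1 h2 hy hyc
      exact ⟨v, hv, hv1, hv2, by rw [one_mul]; exact hv3⟩
    · intro W' hW'
      refine dl_II hb hX t hR1 hR2 r r2 h1 h2 n l3 W' hW' ?_ hn1 ?_
      · intro P hP
        exact hsh P (hpm1.mem_iff.mpr (List.mem_cons_of_mem _
          (hpm2.mem_iff.mpr (List.mem_cons_of_mem _
            (hpm3.mem_iff.mpr (List.mem_cons_of_mem _ hP))))))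
      · have a1 := le_trans hn2 (min_le_left _ _)
        have a2 := le_trans hn2 (min_le_right _ _)
        have : n ≤ min (cnt (pY r2) (l3.map Prod.fst)) (cnt (pZ r2) (l3.map Prod.fst)) := by
          apply le_min <;> omega
        omega
end

section
/-! Pairs of quaternionic hermitian forms.  A right quaternionic space is a module over `Q`, the
opposite of the quaternions.  A quaternionic hermitian form `h` is represented by its real part
`b x y = Re h x y`, a real bilinear symmetric form with `b (q • x) y = b x (star q • y)`.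
Subspaces are `Submodule Q V`, dimension is `Module.finrank Q`. -/
open scoped Quaternion
variable {V : Type} [AddCommGroup V] [Module Q V] [Module ℝ V] [IsScalarTower ℝ Q V]


theorem dlIII_cnt_perm (p : Piece → Prop) {L L' : List Piece} (h : L.Perm L') :
    cnt p L = cnt p L' := h.countP_eq _

theorem dlIII_cnt_pos (p : Piece → Prop) (P : Piece) (L : List Piece) (h : p P) :
    cnt p (P :: L) = cnt p L + 1 := by
  unfold cnt
  rw [List.countP_cons_of_pos]
  simp [h]

theorem dlIII_cnt_neg (p : Piece → Prop) (P : Piece) (L : List Piece) (h : ¬p P) :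
    cnt p (P :: L) = cnt p L := by
  unfold cnt
  rw [List.countP_cons_of_neg]
  simp [h]

theorem dlIII_cnt_ex (p : Piece → Prop) (L : List Piece) (h : 0 < cnt p L) :
    ∃ P ∈ L, p P := by
  unfold cnt at h
  rw [List.countP_pos_iff] at h
  obtain ⟨P, hP, hp⟩ := h
  exact ⟨P, hP, by simpa using hp⟩

theorem dlIII_extract {α : Type} {a : α} {l : List α} (h : a ∈ l) : ∃ l', l.Perm (a :: l') := by
  obtain ⟨s, t, rfl⟩ := List.append_of_mem h
  exact ⟨s ++ t, List.perm_middle⟩

theorem dl_III [FiniteDimensional Q V] {b : BF V} (hb : IsF b) {X R : V →ₗ[Q] V}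
    (hX : SA b X) (t : ℝ) (hR1 : ∀ x, R (sh X t x) = x) (hR2 : ∀ x, sh X t (R x) = x)
    (r : ℝ) (h1 : t < r) (n : ℕ) :
    ∀ (l : List (Piece × V)) (W : Submodule Q V), IsNF b X l W →
      (∀ P ∈ l.map Prod.fst, shIII r P) →
      n ≤ cnt pT (l.map Prod.fst) +
        min (cnt (pJ false) (l.map Prod.fst)) (cnt (pY r) (l.map Prod.fst)) →
      DL b (tw b X) ((-1 : ℝ) • tw b R) W n := by
  induction n with
  | zero =>
    intro l W _ _ _
    exact dl_zero _ _ _ _
  | succ n ih =>
    intro l W hNF hsh hn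
    by_cases hT : 0 < cnt pT (l.map Prod.fst)
    · obtain ⟨P, hP, hpP⟩ := dlIII_cnt_ex _ _ hT
      obtain ⟨⟨P', f⟩, hPf, rfl⟩ := List.mem_map.1 hP
      obtain ⟨l', hl'⟩ := dlIII_extract hPf
      have hNF' := nf_perm hb hl' W hNF
      have hshP := hsh _ hP
      have hm : (l.map Prod.fst).Perm (P' :: l'.map Prod.fst) := hl'.map Prod.fst
      have hsh' : ∀ Q' ∈ l'.map Prod.fst, shIII r Q' := fun Q' hQ' =>
        hsh Q' (hm.symm.subset (List.mem_cons_of_mem _ hQ'))
      rw [dlIII_cnt_perm _ hm, dlIII_cnt_perm (pJ false) hm, dlIII_cnt_perm (pY r) hm] at hn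
      dsimp only at hpP hshP
      cases P' with
      | ray e x => exact absurd hpP (by simp [pT])
      | cx r' s' => exact absurd hpP (by simp [pT])
      | b2 e r' => exact absurd hpP (by simp [pT])
      | b3 x =>
        have hx : x = r := hshP
        subst hx
        rw [dlIII_cnt_pos pT _ _ hpP, dlIII_cnt_neg (pJ false) _ _ (by simp [pJ]),
          dlIII_cnt_neg (pY x) _ _ (by simp [pY])] at hn
        refine dl_cons1 hb hX t (-1) hR1 hR2 (Piece.b3 x) f l' W hNF' ?_ n ?_
        · obtain ⟨v, hv1, hv2, hv3, hv4⟩ := vec6 hb hX t hR1 x f hNF'.1 h1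
          exact ⟨v, hv1, hv2, hv3, by linarith⟩
        · intro W' hW'
          exact ih l' W' hW' hsh' (by omega)
    · have hT0 : cnt pT (l.map Prod.fst) = 0 := by omega
      rw [hT0, zero_add] at hn
      have hJ : 0 < cnt (pJ false) (l.map Prod.fst) :=
        lt_of_lt_of_le (Nat.succ_pos n) (hn.trans (min_le_left _ _))
      have hY : 0 < cnt (pY r) (l.map Prod.fst) :=
        lt_of_lt_of_le (Nat.succ_pos n) (hn.trans (min_le_right _ _))
      obtain ⟨P1, hP1, hp1⟩ := dlIII_cnt_ex _ _ hJ
      obtain ⟨⟨P1, f1⟩, hPf1, rfl⟩ := List.mem_map.1 hP1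
      obtain ⟨P2, hP2, hp2⟩ := dlIII_cnt_ex _ _ hY
      obtain ⟨⟨P2, f2⟩, hPf2, rfl⟩ := List.mem_map.1 hP2
      have hs1 := hsh _ hP1
      dsimp only at hp1 hp2 hs1
      cases P1 with
      | ray e x => exact absurd hp1 (by simp [pJ])
      | cx r' s' => exact absurd hp1 (by simp [pJ])
      | b3 x => exact absurd hp1 (by simp [pJ])
      | b2 e x1 =>
        have he : e = false := hp1
        subst he
        have hx1 : x1 = r := hs1
        subst hx1
        cases P2 with
        | cx r' s' => exact absurd hp2 (by simp [pY])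
        | b3 x => exact absurd hp2 (by simp [pY])
        | b2 e x => exact absurd hp2 (by simp [pY])
        | ray e x =>
          cases e with
          | false => exact absurd hp2 (by simp [pY])
          | true =>
            have hx : x1 < x := hp2
            obtain ⟨l1, hl1⟩ := dlIII_extract hPf1
            have hPf2' : (Piece.ray true x, f2) ∈ l1 := by
              have h5 := hl1.subset hPf2
              rcases List.mem_cons.1 h5 with h6 | h6
              · have h7 := congrArg Prod.fst h6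
                exact absurd h7 (by simp)
              · exact h6
            obtain ⟨l2, hl2⟩ := dlIII_extract hPf2'
            have hl : l.Perm ((Piece.b2 false x1, f1) :: (Piece.ray true x, f2) :: l2) :=
              hl1.trans (hl2.cons _)
            have hNF' := nf_perm hb hl W hNF
            have hm : (l.map Prod.fst).Perm
                (Piece.b2 false x1 :: Piece.ray true x :: l2.map Prod.fst) := hl.map Prod.fst
            have hsh' : ∀ Q' ∈ l2.map Prod.fst, shIII x1 Q' := fun Q' hQ' =>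
              hsh Q' (hm.symm.subset (List.mem_cons_of_mem _ (List.mem_cons_of_mem _ hQ')))
            have hJ1 : pJ false (Piece.b2 false x1) := rfl
            have hJ2 : ¬ pJ false (Piece.ray true x) := fun h => h
            have hY0 : ¬ pY x1 (Piece.b2 false x1) := fun h => h
            have hY1 : pY x1 (Piece.ray true x) := hx
            rw [dlIII_cnt_perm (pJ false) hm, dlIII_cnt_perm (pY x1) hm,
              dlIII_cnt_pos (pJ false) _ _ hJ1, dlIII_cnt_neg (pJ false) _ _ hJ2,
              dlIII_cnt_neg (pY x1) _ _ hY0, dlIII_cnt_pos (pY x1) _ _ hY1] at hn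
            refine dl_cons2 hb hX t (-1) hR1 hR2 (Piece.b2 false x1) (Piece.ray true x) f1 f2 l2 W
              hNF' ?_ n ?_
            · intro ho
              have hq1 : IsPiece b X (Piece.b2 false x1) f1 := hNF'.1
              have hq2 : IsPiece b X (Piece.ray true x) f2 := by
                obtain ⟨_, W', hW', _⟩ := hNF'
                exact hW'.1
              obtain ⟨v, hv1, hv2, hv3, hv4⟩ := vec5 hb hX t hR1 x1 x f1 f2 hq1 hq2 ho h1 hx
              exact ⟨v, hv1, hv2, hv3, by linarith⟩
            · intro W' hW'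
              exact ih l2 W' hW' hsh' (by omega)
end

section
/-! Pairs of quaternionic hermitian forms.  A right quaternionic space is a module over `Q`, the
opposite of the quaternions.  A quaternionic hermitian form `h` is represented by its real part
`b x y = Re h x y`, a real bilinear symmetric form with `b (q • x) y = b x (star q • y)`.
Subspaces are `Submodule Q V`, dimension is `Module.finrank Q`. -/
open scoped Quaternion
variable {V : Type} [AddCommGroup V] [Module Q V] [Module ℝ V] [IsScalarTower ℝ Q V]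


theorem dl_sh_apply (X : V →ₗ[Q] V) (r : ℝ) (v : V) : sh X r v = X v - r • v := by
  simp [sh]

theorem dl_sh_comm (X : V →ₗ[Q] V) (r : ℝ) (v : V) : sh X r (X v) = X (sh X r v) := by
  rw [dl_sh_apply, dl_sh_apply, map_sub, LinearMap.map_smul_of_tower]

theorem dl_inj_cyc {b : BF V} {X : V →ₗ[Q] V} {P : Piece} {f : V} (h : IsPiece b X P f) {t : ℝ}
    (ht : av t P) {u : V} (hu : u ∈ cyc X f) (hz : sh X t u = 0) : u = 0 := by
  have hcom : ∀ T : V →ₗ[Q] V, (∀ v, T (X v) = X (T v)) → T f = 0 → ∀ v ∈ cyc X f, T v = 0 := by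
    intro T hT hf v hv
    have hle : cyc X f ≤ LinearMap.ker T := by
      unfold cyc
      rw [Submodule.span_le]
      intro z hz
      rw [SetLike.mem_coe, LinearMap.mem_ker]
      rcases hz with rfl | rfl | rfl
      · exact hf
      · rw [hT, hf, map_zero]
      · rw [hT, hT, hf, map_zero, map_zero]
    exact hle hv
  have hX : X u = t • u := by
    rw [dl_sh_apply] at hz
    exact sub_eq_zero.1 hz
  have hsh : ∀ r c : ℝ, sh X r (c • u) = ((t - r) * c) • u := by
    intro r c
    rw [dl_sh_apply, LinearMap.map_smul_of_tower, hX, smul_smul, smul_smul, ← sub_smul]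
    congr 1
    ring
  have hsh1 : ∀ r : ℝ, sh X r u = (t - r) • u := by
    intro r
    have h1 := hsh r 1
    rwa [one_smul, mul_one] at h1
  cases P with
  | ray e x =>
    have h1 := hcom (sh X x) (dl_sh_comm X x) h.2 u hu
    rw [hsh1] at h1
    rcases smul_eq_zero.1 h1 with h2 | h2
    · exact absurd (sub_eq_zero.1 h2).symm ht
    · exact h2
  | cx r s =>
    obtain ⟨hs, h0, -, -⟩ := h
    have h1 := hcom (sh X r ∘ₗ sh X r + (s ^ 2 : ℝ) • LinearMap.id) (by
      intro v
      simp only [LinearMap.add_apply, LinearMap.comp_apply, LinearMap.smul_apply,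
        LinearMap.id_apply, map_add, LinearMap.map_smul_of_tower, dl_sh_comm]) (by
      simp only [LinearMap.add_apply, LinearMap.comp_apply, LinearMap.smul_apply,
        LinearMap.id_apply]
      rw [h0, neg_smul, neg_add_cancel]) u hu
    simp only [LinearMap.add_apply, LinearMap.comp_apply, LinearMap.smul_apply,
      LinearMap.id_apply] at h1
    rw [hsh1, hsh, ← add_smul] at h1
    rcases smul_eq_zero.1 h1 with h2 | h2
    · exfalso
      have h3 : 0 < s ^ 2 := by positivity
      nlinarith [mul_self_nonneg (t - r)]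
    · exact h2
  | b2 e r =>
    obtain ⟨h0, -, -⟩ := h
    have h1 := hcom (sh X r ∘ₗ sh X r) (by
      intro v
      simp only [LinearMap.comp_apply, dl_sh_comm]) (by
      simp only [LinearMap.comp_apply]
      rw [h0]) u hu
    simp only [LinearMap.comp_apply] at h1
    rw [hsh1, hsh] at h1
    rcases smul_eq_zero.1 h1 with h2 | h2
    · exfalso
      rcases mul_eq_zero.1 h2 with h3 | h3 <;> exact ht (sub_eq_zero.1 h3).symm
    · exact h2
  | b3 r =>
    obtain ⟨h0, -, -, -⟩ := h
    have h1 := hcom (sh X r ∘ₗ sh X r ∘ₗ sh X r) (by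
      intro v
      simp only [LinearMap.comp_apply, dl_sh_comm]) (by
      simp only [LinearMap.comp_apply]
      rw [h0]) u hu
    simp only [LinearMap.comp_apply] at h1
    rw [hsh1, hsh, hsh] at h1
    rcases smul_eq_zero.1 h1 with h2 | h2
    · exfalso
      rcases mul_eq_zero.1 h2 with h3 | h3
      · exact ht (sub_eq_zero.1 h3).symm
      · rcases mul_eq_zero.1 h3 with h4 | h4 <;> exact ht (sub_eq_zero.1 h4).symm
    · exact h2

theorem dl_cyc_inv {b : BF V} {X : V →ₗ[Q] V} {P : Piece} {f : V} (h : IsPiece b X P f) :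
    ∀ w ∈ cyc X f, X w ∈ cyc X f := by
  refine nf_inv (b := b) (X := X) [(P, f)] (cyc X f) ⟨h, ⊥, rfl, ?_, ?_⟩
  · intro u _ w hw
    rw [(Submodule.mem_bot Q).1 hw, map_zero]
  · exact sup_bot_eq _

theorem dl_inj {b : BF V} (hb : IsF b) {X : V →ₗ[Q] V} (hX : SA b X) (t : ℝ)
    (l : List (Piece × V)) : ∀ W : Submodule Q V, IsNF b X l W →
    (∀ P ∈ l.map Prod.fst, av t P) → ∀ w ∈ W, sh X t w = 0 → w = 0 := by
  induction l with
  | nil =>
    intro W hW _ w hw _
    have hW' : W = ⊥ := hW
    rw [hW'] at hw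
    exact (Submodule.mem_bot Q).1 hw
  | cons a l ih =>
    obtain ⟨P, f⟩ := a
    intro W hW hav w hw hz
    obtain ⟨hP, W', hW', horth, hsup⟩ := hW
    rw [← hsup] at hw
    obtain ⟨u, hu, w', hw', rfl⟩ := Submodule.mem_sup.1 hw
    have hXu := dl_cyc_inv hP u hu
    have hXw := nf_inv l W' hW' w' hw'
    have hu2 : sh X t u ∈ cyc X f := by
      rw [dl_sh_apply]
      refine Submodule.sub_mem _ hXu ?_
      exact Submodule.smul_of_tower_mem _ t hu
    have hw2 : sh X t w' ∈ W' := by
      rw [dl_sh_apply]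
      refine Submodule.sub_mem _ hXw ?_
      exact Submodule.smul_of_tower_mem _ t hw'
    rw [map_add] at hz
    have heq : sh X t u = -sh X t w' := eq_neg_of_add_eq_zero_left hz
    have h0 : sh X t u = 0 := by
      refine cyc_nd hb hX hP _ hu2 (fun y hy => ?_)
      rw [hb.symm]
      refine horth y hy _ ?_
      rw [heq]
      exact Submodule.neg_mem _ hw2
    have h1 : sh X t w' = 0 := by
      rw [h0, zero_add] at hz
      exact hz
    rw [dl_inj_cyc hP (hav P (by simp)) hu h0,
      ih W' hW' (fun P' hP' => hav P' (by rw [List.map_cons]; exact List.mem_cons_of_mem _ hP'))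
        w' hw' h1, add_zero]

/-- upper bound for `DL` from the property `PP` -/
theorem dl_le [FiniteDimensional Q V] {b : BF V} (hb : IsF b) (hnd : Nd b) {X : V →ₗ[Q] V}
    (hX : SA b X) (hP : PP b (tw b X)) (l : List (Piece × V)) (hl : IsNF b X l ⊤)
    (hk : nn b ⊤ = kap b (tw b X)) (t σ : ℝ) (hσ : σ = 1 ∨ σ = -1)
    (hav : ∀ P ∈ l.map Prod.fst, av t P) :
    ∃ R : V →ₗ[Q] V, (∀ x, R (sh X t x) = x) ∧ (∀ x, sh X t (R x) = x) ∧
      ∀ n, DL b (tw b X) (σ • tw b R) ⊤ n →
        tot 1 (l.map Prod.fst) + n ≤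
          tot (Polynomial.C σ * (Polynomial.X - Polynomial.C t)) (l.map Prod.fst) := by
  have hinj : Function.Injective (sh X t) := by
    rw [← LinearMap.ker_eq_bot, LinearMap.ker_eq_bot']
    intro w hw
    exact dl_inj hb hX t l ⊤ hl hav w Submodule.mem_top hw
  have hσ0 : σ ≠ 0 := by rcases hσ with h | h <;> rw [h] <;> norm_num
  let Φ := LinearEquiv.ofInjectiveEndo (sh X t) hinj
  have hΦ : ∀ x, Φ x = sh X t x := fun x => rfl
  have hR1 : ∀ x, (Φ.symm : V →ₗ[Q] V) (sh X t x) = x := by
    intro x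
    rw [← hΦ]
    exact Φ.symm_apply_apply x
  have hR2 : ∀ x, sh X t ((Φ.symm : V →ₗ[Q] V) x) = x := by
    intro x
    rw [← hΦ]
    exact Φ.apply_symm_apply x
  refine ⟨(Φ.symm : V →ₗ[Q] V), hR1, hR2, ?_⟩
  rintro n ⟨M, -, hM1, hM2, rfl⟩
  obtain ⟨N, hN, hMN⟩ := ext_max b (tw b X) M hM1
  have h1 := delta_bound hb hnd hX t σ hσ0 hR1 hR2 hMN hN.1 hM2
  have h2 := gamma hb (isF_tw hb hX) ⟨1, 0, by rw [one_smul, zero_smul, add_zero]; exact hnd⟩ hP hN
  have h3 := nn_one hb hX l hl
  have h4 := nn_nf hb hX (Polynomial.C σ * (Polynomial.X - Polynomial.C t)) l ⊤ hl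
  have h5 : tw b (Polynomial.aeval (R := ℝ) (A := Module.End Q V) X
      (Polynomial.C σ * (Polynomial.X - Polynomial.C t))) = σ • tw b (sh X t) := by
    refine LinearMap.ext fun x => LinearMap.ext fun y => ?_
    have h6 : (Polynomial.aeval (R := ℝ) (A := Module.End Q V) X
      (Polynomial.C σ * (Polynomial.X - Polynomial.C t))) y = σ • sh X t y := by
      rw [dl_sh_apply, map_mul, map_sub, Polynomial.aeval_C, Polynomial.aeval_C,
        Polynomial.aeval_X]
      rfl
    change b x ((Polynomial.aeval (R := ℝ) (A := Module.End Q V) X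
      (Polynomial.C σ * (Polynomial.X - Polynomial.C t))) y) = σ • b x (sh X t y)
    rw [h6, map_smul]
  rw [h5] at h4
  rw [← h4, ← h3, hk, ← h2]
  exact h1
end

section
/-! Pairs of quaternionic hermitian forms.  A right quaternionic space is a module over `Q`, the
opposite of the quaternions.  A quaternionic hermitian form `h` is represented by its real part
`b x y = Re h x y`, a real bilinear symmetric form with `b (q • x) y = b x (star q • y)`.
Subspaces are `Submodule Q V`, dimension is `Module.finrank Q`. -/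
open scoped Quaternion
variable {V : Type} [AddCommGroup V] [Module Q V] [Module ℝ V] [IsScalarTower ℝ Q V]


open Classical in
theorem count_II_pt (r1 r2 t : ℝ) (h1 : r1 < t) (h2 : t < r2) (P : Piece)
    (hP : shII r1 r2 P) (hz : ∀ z, P = Piece.ray false z → z ≠ r2 → z < t) :
    idx (Polynomial.C 1 * (Polynomial.X - Polynomial.C t)) P + (if pZL r2 P then 1 else 0)
      = idx 1 P + (if pX r1 P then 1 else 0) := by
  have hev : ∀ x : ℝ, (Polynomial.C 1 * (Polynomial.X - Polynomial.C t)).eval x = x - t := by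
    intro x; simp
  rcases P with ⟨e, x⟩ | ⟨r, s⟩ | ⟨e, r⟩ | r
  · cases e
    · -- ray false
      simp only [shII] at hP
      simp only [idx, hev, pZL, pX, sg, Polynomial.eval_one]
      by_cases hzr : x = r2
      · subst hzr
        have : (-1 : ℝ) * (x - t) < 0 := by linarith
        simp [h2]
      · have h3 := hz x rfl hzr
        have h4 : ¬ (t < x) := by linarith
        simp [hzr, h4]
    · simp only [shII] at hP
      simp only [idx, hev, pZL, pX, sg, Polynomial.eval_one]
      rcases hP with hP | hP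
      · have h3 : x < t := by linarith
        simp [hP, h3]
      · have h3 : ¬ (x < t) := by linarith
        have h4 : ¬ (x ≤ r1) := by linarith
        simp [h3, h4]
  · exact absurd hP (by simp [shII])
  · cases e
    · simp only [shII] at hP
      have h3 : r - t ≠ 0 := by rw [hP]; intro h; linarith
      simp only [idx, hev, pZL, pX, Polynomial.eval_one]
      simp [h3]
    · simp only [shII] at hP
      have h3 : r - t ≠ 0 := by rw [hP]; intro h; linarith
      simp only [idx, hev, pZL, pX, Polynomial.eval_one]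
      simp [h3]
  · exact absurd hP (by simp [shII])

open Classical in
theorem cnt_cons' (p : Piece → Prop) (P : Piece) (L : List Piece) :
    cnt p (P :: L) = cnt p L + (if p P then 1 else 0) := by
  unfold cnt
  rw [List.countP_cons]
  by_cases h : p P <;> simp [h]

theorem tot_cons' (m : Polynomial ℝ) (P : Piece) (L : List Piece) :
    tot m (P :: L) = idx m P + tot m L := by
  simp [tot]

theorem count_II (r1 r2 t : ℝ) (h1 : r1 < t) (h2 : t < r2) (L : List Piece)
    (hL : ∀ P ∈ L, shII r1 r2 P) (hz : ∀ z, Piece.ray false z ∈ L → z ≠ r2 → z < t) :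
    tot (Polynomial.C 1 * (Polynomial.X - Polynomial.C t)) L + cnt (pZL r2) L
      = tot 1 L + cnt (pX r1) L := by
  classical
  induction L with
  | nil => simp [tot, cnt]
  | cons P L ih =>
    have ih' := ih (fun P hP => hL P (List.mem_cons_of_mem _ hP))
      (fun z hz' => hz z (List.mem_cons_of_mem _ hz'))
    have hp := count_II_pt r1 r2 t h1 h2 P (hL P List.mem_cons_self)
      (fun z hz' => hz z (by rw [← hz']; exact List.mem_cons_self))
    rw [tot_cons', tot_cons', cnt_cons', cnt_cons']
    omega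
end

section
/-! Pairs of quaternionic hermitian forms.  A right quaternionic space is a module over `Q`, the
opposite of the quaternions.  A quaternionic hermitian form `h` is represented by its real part
`b x y = Re h x y`, a real bilinear symmetric form with `b (q • x) y = b x (star q • y)`.
Subspaces are `Submodule Q V`, dimension is `Module.finrank Q`. -/
open scoped Quaternion
variable {V : Type} [AddCommGroup V] [Module Q V] [Module ℝ V] [IsScalarTower ℝ Q V]


open scoped Classical in
theorem cnt_cons_III (p : Piece → Prop) (P : Piece) (L : List Piece) :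
    (cnt p (P :: L) : ℤ) = cnt p L + (if p P then 1 else 0) := by
  unfold cnt
  rw [List.countP_cons]
  by_cases h : p P <;> simp [h]

theorem ev_III (t y : ℝ) :
    (Polynomial.C (-1) * (Polynomial.X - Polynomial.C t)).eval y = t - y := by
  simp

open scoped Classical in
theorem pt_III (r t : ℝ) (h1 : t < r) (P : Piece) (hP : shIII r P)
    (hx : ∀ x, Piece.ray true x = P → x < r → x < t) :
    (idx (Polynomial.C (-1) * (Polynomial.X - Polynomial.C t)) P : ℤ)
      = idx 1 P + wC1 r P + (if pT P then 1 else 0) + (if pY r P then 1 else 0) := by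
  cases P with
  | ray e x =>
    cases e with
    | true =>
      simp only [idx, ev_III, sg, wC1, pT, pY, Polynomial.eval_one, if_true, if_false, one_mul]
      rcases lt_trichotomy x r with h | h | h
      · have := hx x rfl h
        rw [if_neg (by linarith), if_neg (by norm_num), if_neg h.ne, if_neg (by linarith)]
        norm_num
      · subst h
        rw [if_pos (by linarith), if_neg (by norm_num), if_pos rfl, if_neg (lt_irrefl _)]
        norm_num
      · rw [if_pos (by linarith), if_neg (by norm_num), if_neg h.ne', if_pos h]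
        norm_num
    | false =>
      have hz : x = r := hP
      subst hz
      simp only [idx, ev_III, sg, wC1, pT, pY, Polynomial.eval_one, if_false, Bool.false_eq_true]
      rw [if_neg (by linarith), if_pos (by norm_num)]
      norm_num
  | cx a b => exact absurd hP (by simp [shIII])
  | b2 e x =>
    have hz : x = r := by cases e <;> exact hP
    subst hz
    have hne : t - x ≠ 0 := by intro h; linarith
    cases e <;>
      simp only [idx, ev_III, wC1, pT, pY, Polynomial.eval_one, if_false, one_ne_zero, if_neg hne] <;>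
      norm_num
  | b3 x =>
    have hz : x = r := hP
    subst hz
    simp only [idx, ev_III, wC1, pT, pY, Polynomial.eval_one, if_false, if_true]
    rw [if_neg (by linarith), if_pos (by linarith), if_pos (by norm_num)]
    norm_num

theorem count_III (r t : ℝ) (h1 : t < r) (L : List Piece)
    (hL : ∀ P ∈ L, shIII r P) (hx : ∀ x, Piece.ray true x ∈ L → x < r → x < t) :
    (tot (Polynomial.C (-1) * (Polynomial.X - Polynomial.C t)) L : ℤ)
      = tot 1 L + ws (wC1 r) L + cnt pT L + cnt (pY r) L := by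
  classical
  induction L with
  | nil => simp [tot, ws, cnt]
  | cons P L ih =>
    have ih' := ih (fun Q hQ => hL Q (List.mem_cons_of_mem _ hQ))
      (fun x hx' => hx x (List.mem_cons_of_mem _ hx'))
    have hp := pt_III r t h1 P (hL P List.mem_cons_self)
      (fun x hx' => hx x (by rw [hx']; exact List.mem_cons_self))
    have e1 : ∀ m : Polynomial ℝ, tot m (P :: L) = idx m P + tot m L := by
      intro m; simp [tot]
    have e2 : ws (wC1 r) (P :: L) = wC1 r P + ws (wC1 r) L := by simp [ws]
    rw [e1, e1, e2, cnt_cons_III, cnt_cons_III]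
    push_cast
    rw [ih', hp]
    ring
end

section
/-! Pairs of quaternionic hermitian forms.  A right quaternionic space is a module over `Q`, the
opposite of the quaternions.  A quaternionic hermitian form `h` is represented by its real part
`b x y = Re h x y`, a real bilinear symmetric form with `b (q • x) y = b x (star q • y)`.
Subspaces are `Submodule Q V`, dimension is `Module.finrank Q`. -/
open scoped Quaternion
variable {V : Type} [AddCommGroup V] [Module Q V] [Module ℝ V] [IsScalarTower ℝ Q V]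


open Classical in
private theorem j21153_cnt_ws_counts_II (p : Piece → Prop) (P : Piece) (L : List Piece) :
    ((cnt p (P :: L) : ℕ) : ℤ) = (cnt p L : ℤ) + (if p P then 1 else 0) := by
  unfold cnt
  rw [List.countP_cons]
  by_cases h : p P
  · simp [h]
  · simp [h]

open Classical in
private theorem j21153_pt_ws_counts_II (r1 r2 : ℝ) (h12 : r1 < r2) (P : Piece) (hP : shII r1 r2 P) :
    wA1 r1 P = (if pX r1 P then 1 else 0) - (if pZ r2 P then 1 else 0)
      - (if pZL r2 P then 1 else 0) - (if pJ true P then 1 else 0) ∧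
    wA2 r1 r2 P = (if pX r1 P then 1 else 0) - (if pY r2 P then 1 else 0)
      - (if pZL r2 P then 1 else 0) - (if pJ true P then 1 else 0) := by
  rcases P with ⟨e, x⟩ | ⟨r, s⟩ | ⟨e, r⟩ | r
  · cases e with
    | false =>
      by_cases h : x = r2
      · simp [wA1, wA2, pX, pY, pZ, pZL, pJ, h]
      · simp [wA1, wA2, pX, pY, pZ, pZL, pJ, h]
    | true =>
      by_cases h : x ≤ r1
      · have h' : ¬ (r2 < x) := by
          intro h1
          linarith
        simp [wA1, wA2, pX, pY, pZ, pZL, pJ, h, h']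
      · by_cases h' : r2 < x
        · simp [wA1, wA2, pX, pY, pZ, pZL, pJ, h, h']
        · simp [wA1, wA2, pX, pY, pZ, pZL, pJ, h, h']
  · exact hP.elim
  · cases e with
    | false => simp [wA1, wA2, pX, pY, pZ, pZL, pJ]
    | true => simp [wA1, wA2, pX, pY, pZ, pZL, pJ]
  · exact hP.elim

private theorem j21153_ws_ws_counts_II (w : Piece → ℤ) (P : Piece) (L : List Piece) :
    ws w (P :: L) = w P + ws w L := by
  unfold ws
  rw [List.map_cons, List.sum_cons]

theorem ws_counts_II (r1 r2 : ℝ) (h12 : r1 < r2) (L : List Piece)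
    (hL : ∀ P ∈ L, shII r1 r2 P) :
    ws (wA1 r1) L = (cnt (pX r1) L : ℤ) - cnt (pZ r2) L - cnt (pZL r2) L - cnt (pJ true) L ∧
    ws (wA2 r1 r2) L = (cnt (pX r1) L : ℤ) - cnt (pY r2) L - cnt (pZL r2) L
      - cnt (pJ true) L := by
  classical
  induction L with
  | nil => simp [ws, cnt]
  | cons P L ih =>
    obtain ⟨i1, i2⟩ := ih (fun P' hP' => hL P' (List.mem_cons_of_mem _ hP'))
    obtain ⟨p1, p2⟩ := j21153_pt_ws_counts_II r1 r2 h12 P (hL P List.mem_cons_self)
    rw [j21153_ws_ws_counts_II, j21153_ws_ws_counts_II, j21153_cnt_ws_counts_II, j21153_cnt_ws_counts_II, j21153_cnt_ws_counts_II, j21153_cnt_ws_counts_II, j21153_cnt_ws_counts_II,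
      i1, i2, p1, p2]
    constructor <;> ring
end

section
/-! Pairs of quaternionic hermitian forms.  A right quaternionic space is a module over `Q`, the
opposite of the quaternions.  A quaternionic hermitian form `h` is represented by its real part
`b x y = Re h x y`, a real bilinear symmetric form with `b (q • x) y = b x (star q • y)`.
Subspaces are `Submodule Q V`, dimension is `Module.finrank Q`. -/
open scoped Quaternion
variable {V : Type} [AddCommGroup V] [Module Q V] [Module ℝ V] [IsScalarTower ℝ Q V]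


theorem ws_counts_III (r : ℝ) (L : List Piece) (hL : ∀ P ∈ L, shIII r P) :
    ws (wC2 r) L = ws (wC1 r) L + cnt (pY r) L - cnt (pJ false) L := by
  classical
  have hcons : ∀ (p : Piece → Prop) (P : Piece) (L : List Piece),
      (cnt p (P :: L) : ℤ) = cnt p L + if p P then 1 else 0 := by
    intro p P L
    unfold cnt
    rw [List.countP_cons]
    by_cases hp : p P
    · simp [hp]
    · simp [hp]
  have hws : ∀ (w : Piece → ℤ) (P : Piece) (L : List Piece), ws w (P :: L) = w P + ws w L := by
    intro w P L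
    simp [ws]
  induction L with
  | nil => simp [ws, cnt]
  | cons P L ih =>
    have hP := hL P (by simp)
    have ih' := ih (fun P' h => hL P' (by simp [h]))
    rw [hws, hws, hcons, hcons, ih']
    have key : wC2 r P = wC1 r P + (if pY r P then 1 else 0) - (if pJ false P then 1 else 0) := by
      cases P with
      | ray e x =>
        cases e with
        | true =>
          simp only [wC2, wC1, pY, pJ]
          rcases lt_trichotomy x r with h | h | h
          · simp [h, not_le.mpr h, not_lt.mpr h.le, h.ne]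
          · subst h; simp
          · simp [h, h.le, not_lt.mpr h.le, h.ne', not_le.mpr h]
        | false => simp [wC2, wC1, pY, pJ]
      | b2 e x => cases e <;> simp [wC2, wC1, pY, pJ]
      | b3 x => simp [wC2, wC1, pY, pJ]
      | cx a b => simp [wC2, wC1, pY, pJ]
    rw [key]
    ring
end

end Pool.QN
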