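import Pool.Agent.Helper9.QN.Defs
import Pool.Agent.Helper9.QP.A1
import Pool.Agent.Helper9.QP.B2
import Pool.Agent.Helper9.QP.E2
import Pool.Agent.Helper9.QP.G1
import Pool.Agent.Helper9.QP.G2
import Pool.Agent.Helper9.QP.T1
import Pool.Agent.Helper9.QP.T2
import Pool.Agent.Helper9.QP.T4

set_option autoImplicit false
set_option maxHeartbeats 1000000

namespace Pool.QN

section
/-! Pairs of quaternionic hermitian forms.  A right quaternionic space is a module over `Q`, the
opposite of the quaternions.  A quaternionic hermitian form `h` is represented by its real part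
`b x y = Re h x y`, a real bilinear symmetric form with `b (q • x) y = b x (star q • y)`.
Subspaces are `Submodule Q V`, dimension is `Module.finrank Q`. -/
open scoped Quaternion
variable {V : Type} [AddCommGroup V] [Module Q V] [Module ℝ V] [IsScalarTower ℝ Q V]


--#BPAUX dl_II'

--#BPEND dl_II'

section aux19636
open Filter Topology

theorem aux_ne_ev (r2 x : ℝ) : ∀ᶠ t in 𝓝[<] r2, x ≠ t := by
  by_cases hx : x = r2
  · subst hx
    filter_upwards [self_mem_nhdsWithin] with t ht
    exact (ne_of_lt ht).symm
  · have h : ∀ᶠ t in 𝓝 r2, t ≠ x := eventually_ne_nhds (Ne.symm hx)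
    exact (h.filter_mono nhdsWithin_le_nhds).mono fun t ht => ht.symm

theorem aux_lt_ev (r2 z : ℝ) (hz : z < r2) : ∀ᶠ t in 𝓝[<] r2, z < t := by
  have h : ∀ᶠ t in 𝓝 r2, z < t := lt_mem_nhds hz
  exact h.filter_mono nhdsWithin_le_nhds

theorem aux_quad_ev (r1 r2 y : ℝ) (h12 : r1 < r2) :
    ∀ᶠ t in 𝓝[<] r2, (r2 - t) * (y - t) < (t - r1) ^ 2 := by
  have h : ∀ᶠ t in 𝓝 r2, (r2 - t) * (y - t) < (t - r1) ^ 2 := by
    apply ContinuousAt.eventually_lt
    · fun_prop
    · fun_prop
    · have : 0 < (r2 - r1) ^ 2 := by
        have : 0 < r2 - r1 := by linarith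
        positivity
      simpa using this
  exact h.filter_mono nhdsWithin_le_nhds

theorem aux_choose (r1 r2 : ℝ) (h12 : r1 < r2) (L : List Piece) (hL : ∀ P ∈ L, shII r1 r2 P) :
    ∃ t : ℝ, r1 < t ∧ t < r2 ∧ r2 - t < t - r1 ∧ (∀ P ∈ L, av t P) ∧
      (∀ z, Piece.ray false z ∈ L → z ≠ r2 → z < t) ∧
      (∀ y, Piece.ray true y ∈ L → r2 < y → (r2 - t) * (y - t) < (t - r1) ^ 2) := by
  have key : ∀ᶠ t in 𝓝[<] r2, ∀ P ∈ {P | P ∈ L}, (av t P ∧
      (∀ z, P = Piece.ray false z → z ≠ r2 → z < t) ∧
      (∀ y, P = Piece.ray true y → r2 < y → (r2 - t) * (y - t) < (t - r1) ^ 2)) := by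
    rw [Filter.eventually_all_finite (List.finite_toSet L)]
    intro P hP
    have hs := hL P hP
    refine Filter.Eventually.and ?_ (Filter.Eventually.and ?_ ?_)
    · cases P with
      | ray e x => exact aux_ne_ev r2 x
      | cx r s => exact Filter.Eventually.of_forall fun _ => trivial
      | b2 e r => exact aux_ne_ev r2 r
      | b3 r => exact aux_ne_ev r2 r
    · cases P with
      | ray e x =>
        by_cases hx : e = false ∧ x ≠ r2
        · obtain ⟨he, hx⟩ := hx
          subst he
          have h2 : x ≤ r2 := hs.2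
          filter_upwards [aux_lt_ev r2 x (lt_of_le_of_ne h2 hx)] with t ht
          intro z hz _
          injection hz with _ h
          rw [← h]; exact ht
        · refine Filter.Eventually.of_forall fun t z hz hz2 => ?_
          injection hz with h1 h2
          exact absurd ⟨h1, h2 ▸ hz2⟩ hx
      | cx r s => exact Filter.Eventually.of_forall fun t z hz => by cases hz
      | b2 e r => exact Filter.Eventually.of_forall fun t z hz => by cases hz
      | b3 r => exact Filter.Eventually.of_forall fun t z hz => by cases hz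
    · cases P with
      | ray e x =>
        filter_upwards [aux_quad_ev r1 r2 x h12] with t ht
        intro y hy _
        injection hy with _ h
        rw [← h]; exact ht
      | cx r s => exact Filter.Eventually.of_forall fun t z hz => by cases hz
      | b2 e r => exact Filter.Eventually.of_forall fun t z hz => by cases hz
      | b3 r => exact Filter.Eventually.of_forall fun t z hz => by cases hz
  have hmid : (r1 + r2) / 2 < r2 := by linarith
  obtain ⟨t, ⟨ht1, ht2⟩, ht3⟩ := ((key.and (aux_lt_ev r2 _ hmid)).and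
    (self_mem_nhdsWithin : ∀ᶠ t in 𝓝[<] r2, t ∈ Set.Iio r2)).exists
  have ht3' : t < r2 := ht3
  refine ⟨t, by linarith, ht3', by linarith, fun P hP => (ht1 P hP).1,
    fun z hz => (ht1 _ hz).2.1 z rfl, fun y hy => (ht1 _ hy).2.2 y rfl⟩

end aux19636

theorem alpha_II [FiniteDimensional Q V] {b : BF V} (hb : IsF b) (hnd : Nd b)
    {X : V →ₗ[Q] V} (hX : SA b X) (hP : PP b (tw b X)) (l : List (Piece × V))
    (hl : IsNF b X l ⊤) (hk : nn b ⊤ = kap b (tw b X)) (r1 r2 : ℝ) (h12 : r1 < r2)
    (hsh : ∀ P ∈ l.map Prod.fst, shII r1 r2 P) :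
    (cnt (pZL r2) (l.map Prod.fst) = 0 ∧ cnt (pJ false) (l.map Prod.fst) = 0) ∨
      0 ≤ ws (wA1 r1) (l.map Prod.fst) ∨ 0 ≤ ws (wA2 r1 r2) (l.map Prod.fst) := by
  by_contra hcon
  rw [not_or, not_or] at hcon
  obtain ⟨hc1, hc2, hc3⟩ := hcon
  obtain ⟨t, h1, h2, h3, hav, hz, hy⟩ := aux_choose r1 r2 h12 (l.map Prod.fst) hsh
  obtain ⟨R, hR1, hR2, hle⟩ := dl_le hb hnd hX hP l hl hk t 1 (Or.inl rfl) hav
  have hcount := count_II r1 r2 t h1 h2 (l.map Prod.fst) hsh hz
  obtain ⟨hw1, hw2⟩ := ws_counts_II r1 r2 h12 (l.map Prod.fst) hsh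
  have hd1 := fun n => dl_II hb hX t hR1 hR2 r1 r2 h1 h2 n l ⊤ hl hsh
  have hd2 := fun hJ n => dl_II' hb hX t hR1 hR2 r1 r2 h1 h2 h3 l ⊤ hl hsh hy hJ n
  rw [hw1] at hc2
  rw [hw2] at hc3
  generalize cnt (pX r1) (l.map Prod.fst) = cX at *
  generalize cnt (pZ r2) (l.map Prod.fst) = cZ at *
  generalize cnt (pY r2) (l.map Prod.fst) = cY at *
  generalize cnt (pZL r2) (l.map Prod.fst) = cZL at *
  generalize cnt (pJ true) (l.map Prod.fst) = cJ at *
  generalize cnt (pJ false) (l.map Prod.fst) = cJ' at *
  have hn0 := hle (min cX (cJ + min cY cZ)) (hd1 _ (min_le_left _ _) (min_le_right _ _))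
  have hX1 : cX + 1 ≤ cJ + min cY cZ + cZL := by omega
  have hZL : cZL = 0 ∧ cX + 1 ≤ cJ + min cY cZ := by omega
  obtain ⟨hZL0, hX2⟩ := hZL
  have hJ : 1 ≤ cJ' := by
    by_contra hJ
    exact hc1 ⟨hZL0, by omega⟩
  have hn1 := hle (cX + 1) (hd2 hJ cX le_rfl hX2)
  omega
end

section
/-! Pairs of quaternionic hermitian forms.  A right quaternionic space is a module over `Q`, the
opposite of the quaternions.  A quaternionic hermitian form `h` is represented by its real part
`b x y = Re h x y`, a real bilinear symmetric form with `b (q • x) y = b x (star q • y)`.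
Subspaces are `Submodule Q V`, dimension is `Module.finrank Q`. -/
open scoped Quaternion
variable {V : Type} [AddCommGroup V] [Module Q V] [Module ℝ V] [IsScalarTower ℝ Q V]


theorem cond_III_t (r : ℝ) (L : List Piece) :
    ∃ t, t < r ∧ ∀ x, Piece.ray true x ∈ L → x < r → x < t := by
  induction L with
  | nil => exact ⟨r - 1, by linarith, fun x hx => absurd hx (by simp)⟩
  | cons P L ih =>
    obtain ⟨t, ht, hx⟩ := ih
    by_cases hP : ∃ x0, P = Piece.ray true x0 ∧ x0 < r
    · obtain ⟨x0, rfl, hx0⟩ := hP
      refine ⟨max t ((x0 + r) / 2), max_lt ht (by linarith), ?_⟩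
      intro x hxm hxr
      rcases List.mem_cons.mp hxm with h | h
      · have : x = x0 := by
          injection h
        rw [this]
        exact lt_of_lt_of_le (by linarith) (le_max_right _ _)
      · exact lt_of_lt_of_le (hx x h hxr) (le_max_left _ _)
    · refine ⟨t, ht, ?_⟩
      intro x hxm hxr
      rcases List.mem_cons.mp hxm with h | h
      · exact absurd ⟨x, h.symm, hxr⟩ hP
      · exact hx x h hxr

theorem cond_III [FiniteDimensional Q V] {b : BF V} (hb : IsF b) (hnd : Nd b)
    {X : V →ₗ[Q] V} (hX : SA b X) (hP : PP b (tw b X)) (l : List (Piece × V))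
    (hl : IsNF b X l ⊤) (hk : nn b ⊤ = kap b (tw b X)) (r : ℝ)
    (hsh : ∀ P ∈ l.map Prod.fst, shIII r P) :
      0 ≤ ws (wC1 r) (l.map Prod.fst) ∨ 0 ≤ ws (wC2 r) (l.map Prod.fst) := by
  obtain ⟨t, ht, hx⟩ := cond_III_t r (l.map Prod.fst)
  have hav : ∀ P ∈ l.map Prod.fst, av t P := by
    intro P hPm
    have h1 := hsh P hPm
    cases P with
    | ray e x =>
      cases e with
      | true =>
        show x ≠ t
        rcases lt_or_ge x r with h2 | h2
        · exact (hx x hPm h2).ne
        · exact (lt_of_lt_of_le ht h2).ne'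
      | false =>
        show x ≠ t
        have h2 : x = r := h1
        rw [h2]; exact ht.ne'
    | cx r' s' => exact trivial
    | b2 e x =>
      show x ≠ t
      have h2 : x = r := h1
      rw [h2]; exact ht.ne'
    | b3 x =>
      show x ≠ t
      have h2 : x = r := h1
      rw [h2]; exact ht.ne'
  obtain ⟨R, hR1, hR2, hR⟩ := dl_le hb hnd hX hP l hl hk t (-1) (Or.inr rfl) hav
  have h1 := hR _ (dl_III hb hX t hR1 hR2 r ht _ l ⊤ hl hsh le_rfl)
  have h2 := count_III r t ht (l.map Prod.fst) hsh hx
  have h3 := ws_counts_III r (l.map Prod.fst) hsh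
  rcases le_total (cnt (pJ false) (l.map Prod.fst)) (cnt (pY r) (l.map Prod.fst)) with h | h
  · right
    rw [min_eq_left h] at h1
    omega
  · left
    rw [min_eq_right h] at h1
    omega
end

section
/-! Pairs of quaternionic hermitian forms.  A right quaternionic space is a module over `Q`, the
opposite of the quaternions.  A quaternionic hermitian form `h` is represented by its real part
`b x y = Re h x y`, a real bilinear symmetric form with `b (q • x) y = b x (star q • y)`.
Subspaces are `Submodule Q V`, dimension is `Module.finrank Q`. -/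
open scoped Quaternion
variable {V : Type} [AddCommGroup V] [Module Q V] [Module ℝ V] [IsScalarTower ℝ Q V]


/-- everything is invariant under `X ↦ -X` -/
theorem pp_refl [FiniteDimensional Q V] {b : BF V} (hb : IsF b) {X : V →ₗ[Q] V}
    (hX : SA b X) (hP : PP b (tw b X)) :
    SA b (-X) ∧ PP b (tw b (-X)) ∧ kap b (tw b (-X)) = kap b (tw b X) := by
  have hd : (1 : ℝ) * (-1) - 0 * 0 ≠ 0 := by norm_num
  have e1 : (1 : ℝ) • b + (0 : ℝ) • tw b X = b := by simp
  have e2 : (0 : ℝ) • b + (-1 : ℝ) • tw b X = tw b (-X) := by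
    ext x y
    simp only [LinearMap.add_apply, LinearMap.smul_apply, smul_eq_mul, zero_mul, zero_add]
    show (-1 : ℝ) * b x (X y) = b x (-(X y))
    rw [map_neg]
    ring
  refine ⟨?_, ?_, ?_⟩
  · intro x y
    rw [LinearMap.neg_apply, LinearMap.neg_apply, map_neg, map_neg, LinearMap.neg_apply, hX]
  · intro M N hM hN
    rw [← e2] at hM hN
    apply hP
    · apply (maxNeu_comb hd M).1
      rw [e1]
      exact hM
    · apply (maxNeu_comb hd N).1
      rw [e1]
      exact hN
  · have h := kap_comb (b := b) (a := tw b X) hd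
    rw [e1, e2] at h
    exact h
end

section
/-! Pairs of quaternionic hermitian forms.  A right quaternionic space is a module over `Q`, the
opposite of the quaternions.  A quaternionic hermitian form `h` is represented by its real part
`b x y = Re h x y`, a real bilinear symmetric form with `b (q • x) y = b x (star q • y)`.
Subspaces are `Submodule Q V`, dimension is `Module.finrank Q`. -/
open scoped Quaternion
variable {V : Type} [AddCommGroup V] [Module Q V] [Module ℝ V] [IsScalarTower ℝ Q V]


theorem shape_refl (P : Piece) : (∀ r1 r2, shII r1 r2 P → shII (-r2) (-r1) (refl P)) ∧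
    (∀ r, shIII r P → shIII (-r) (refl P)) := by
  constructor
  · intro r1 r2 h
    cases P with
    | ray e x =>
      cases e with
      | true =>
        simp only [shII, refl] at h ⊢
        rcases h with h | h
        · right; linarith
        · left; linarith
      | false =>
        simp only [shII, refl] at h ⊢
        exact ⟨by linarith [h.2], by linarith [h.1]⟩
    | cx r s => exact h.elim
    | b2 e r =>
      cases e with
      | true =>
        simp only [shII, refl, Bool.not_true] at h ⊢
        rw [h]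
      | false =>
        simp only [shII, refl, Bool.not_false] at h ⊢
        rw [h]
    | b3 r => exact h.elim
  · intro r h
    cases P with
    | ray e x =>
      cases e with
      | true => trivial
      | false =>
        simp only [shIII, refl] at h ⊢
        rw [h]
    | cx r s => exact h.elim
    | b2 e x =>
      cases e <;> · simp only [shIII, refl] at h ⊢; rw [h]
    | b3 x =>
      simp only [shIII, refl] at h ⊢
      rw [h]
end

section
/-! Pairs of quaternionic hermitian forms.  A right quaternionic space is a module over `Q`, the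
opposite of the quaternions.  A quaternionic hermitian form `h` is represented by its real part
`b x y = Re h x y`, a real bilinear symmetric form with `b (q • x) y = b x (star q • y)`.
Subspaces are `Submodule Q V`, dimension is `Module.finrank Q`. -/
open scoped Quaternion
variable {V : Type} [AddCommGroup V] [Module Q V] [Module ℝ V] [IsScalarTower ℝ Q V]


theorem ws_refl_aux (w w' : Piece → ℤ) (h : ∀ P, w (refl P) = w' P) (L : List Piece) :
    ws w (L.map refl) = ws w' L := by
  unfold ws
  rw [List.map_map]
  congr 1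
  exact List.map_congr_left fun P _ => h P

theorem cnt_refl_aux (p p' : Piece → Prop) (h : ∀ P, p (refl P) ↔ p' P) (L : List Piece) :
    cnt p (L.map refl) = cnt p' L := by
  unfold cnt
  rw [List.countP_map]
  refine List.countP_congr fun P _ => ?_
  simp [Function.comp, h P]

theorem ws_refl (L : List Piece) (r1 r2 r : ℝ) :
    ws (wA1 (-r2)) (L.map refl) = ws (wB1 r2) L ∧
    ws (wA2 (-r2) (-r1)) (L.map refl) = ws (wB2 r1 r2) L ∧
    ws (wC1 (-r)) (L.map refl) = ws (wC1 r) L ∧
    ws (wC2 (-r)) (L.map refl) = ws (wC3 r) L ∧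
    cnt (pZL (-r1)) (L.map refl) = cnt (pZL r1) L ∧
    cnt (pJ false) (L.map refl) = cnt (pJ true) L := by
  refine ⟨ws_refl_aux _ _ (fun P => ?_) L, ws_refl_aux _ _ (fun P => ?_) L,
    ws_refl_aux _ _ (fun P => ?_) L, ws_refl_aux _ _ (fun P => ?_) L,
    cnt_refl_aux _ _ (fun P => ?_) L, cnt_refl_aux _ _ (fun P => ?_) L⟩
  · rcases P with ⟨e, x⟩ | ⟨r, s⟩ | ⟨e, x⟩ | x <;> try cases e
    all_goals simp [wA1, wB1, refl]
  · rcases P with ⟨e, x⟩ | ⟨r, s⟩ | ⟨e, x⟩ | x <;> try cases e
    all_goals simp [wA2, wB2, refl]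
  · rcases P with ⟨e, x⟩ | ⟨r, s⟩ | ⟨e, x⟩ | x <;> try cases e
    all_goals simp [wC1, refl]
  · rcases P with ⟨e, x⟩ | ⟨r, s⟩ | ⟨e, x⟩ | x <;> try cases e
    all_goals simp [wC2, wC3, refl]
  · rcases P with ⟨e, x⟩ | ⟨r, s⟩ | ⟨e, x⟩ | x <;> try cases e
    all_goals simp [pZL, refl]
  · rcases P with ⟨e, x⟩ | ⟨r, s⟩ | ⟨e, x⟩ | x <;> try cases e
    all_goals simp [pJ, refl]
end

section
/-! Pairs of quaternionic hermitian forms.  A right quaternionic space is a module over `Q`, the
opposite of the quaternions.  A quaternionic hermitian form `h` is represented by its real part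
`b x y = Re h x y`, a real bilinear symmetric form with `b (q • x) y = b x (star q • y)`.
Subspaces are `Submodule Q V`, dimension is `Module.finrank Q`. -/
open scoped Quaternion
variable {V : Type} [AddCommGroup V] [Module Q V] [Module ℝ V] [IsScalarTower ℝ Q V]


theorem beta_II [FiniteDimensional Q V] {b : BF V} (hb : IsF b) (hnd : Nd b)
    {X : V →ₗ[Q] V} (hX : SA b X) (hP : PP b (tw b X)) (l : List (Piece × V))
    (hl : IsNF b X l ⊤) (hk : nn b ⊤ = kap b (tw b X)) (r1 r2 : ℝ) (h12 : r1 < r2)
    (hsh : ∀ P ∈ l.map Prod.fst, shII r1 r2 P) :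
    (cnt (pZL r1) (l.map Prod.fst) = 0 ∧ cnt (pJ true) (l.map Prod.fst) = 0) ∨
      0 ≤ ws (wB1 r2) (l.map Prod.fst) ∨ 0 ≤ ws (wB2 r1 r2) (l.map Prod.fst) := by
  obtain ⟨hX', hP', hk'⟩ := pp_refl hb hX hP
  have hmap : (l.map fun p => (refl p.1, p.2)).map Prod.fst = (l.map Prod.fst).map refl := by
    simp [List.map_map, Function.comp_def]
  have h := alpha_II hb hnd hX' hP' (l.map fun p => (refl p.1, p.2)) (nf_refl l ⊤ hl)
    (by rw [hk', hk]) (-r2) (-r1) (by linarith) (by
      rw [hmap]
      intro P hP
      obtain ⟨P', hP', rfl⟩ := List.mem_map.mp hP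
      exact (shape_refl P').1 r1 r2 (hsh P' hP'))
  rw [hmap] at h
  obtain ⟨h1, h2, h3, h4, h5, h6⟩ := ws_refl (l.map Prod.fst) r1 r2 0
  rw [h1, h2, h5, h6] at h
  exact h
end

section
/-! Pairs of quaternionic hermitian forms.  A right quaternionic space is a module over `Q`, the
opposite of the quaternions.  A quaternionic hermitian form `h` is represented by its real part
`b x y = Re h x y`, a real bilinear symmetric form with `b (q • x) y = b x (star q • y)`.
Subspaces are `Submodule Q V`, dimension is `Module.finrank Q`. -/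
open scoped Quaternion
variable {V : Type} [AddCommGroup V] [Module Q V] [Module ℝ V] [IsScalarTower ℝ Q V]


theorem cond_III' [FiniteDimensional Q V] {b : BF V} (hb : IsF b) (hnd : Nd b)
    {X : V →ₗ[Q] V} (hX : SA b X) (hP : PP b (tw b X)) (l : List (Piece × V))
    (hl : IsNF b X l ⊤) (hk : nn b ⊤ = kap b (tw b X)) (r : ℝ)
    (hsh : ∀ P ∈ l.map Prod.fst, shIII r P) :
      0 ≤ ws (wC1 r) (l.map Prod.fst) ∨ 0 ≤ ws (wC3 r) (l.map Prod.fst) := by
  obtain ⟨h1, h2, h3⟩ := pp_refl hb hX hP
  have h4 := nf_refl l ⊤ hl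
  have hmap : (l.map fun p => (refl p.1, p.2)).map Prod.fst = (l.map Prod.fst).map refl := by
    rw [List.map_map, List.map_map]
    rfl
  have h5 := cond_III hb hnd h1 h2 (l.map fun p => (refl p.1, p.2)) h4 (hk.trans h3.symm) (-r) (by
    rw [hmap]
    intro P hP
    obtain ⟨P', hP', rfl⟩ := List.mem_map.1 hP
    exact (shape_refl P').2 r (hsh P' hP'))
  obtain ⟨_, _, e3, e4, _, _⟩ := ws_refl (l.map Prod.fst) r r r
  rw [hmap, e3, e4] at h5
  exact h5
end

section
/-! Pairs of quaternionic hermitian forms.  A right quaternionic space is a module over `Q`, the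
opposite of the quaternions.  A quaternionic hermitian form `h` is represented by its real part
`b x y = Re h x y`, a real bilinear symmetric form with `b (q • x) y = b x (star q • y)`.
Subspaces are `Submodule Q V`, dimension is `Module.finrank Q`. -/
open scoped Quaternion
variable {V : Type} [AddCommGroup V] [Module Q V] [Module ℝ V] [IsScalarTower ℝ Q V]


theorem nf_cx {b : BF V} {X : V →ₗ[Q] V} (l : List (Piece × V)) (W : Submodule Q V)
    (h : IsNF b X l W) : ∀ P ∈ l.map Prod.fst, ∀ r s, P = Piece.cx r s → s ≠ 0 := by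
  induction l generalizing W with
  | nil =>
    intro P hP
    simp at hP
  | cons a l ih =>
    obtain ⟨p, f⟩ := a
    obtain ⟨hp, W', hW', -, -⟩ := h
    intro P hP r s hPe
    rw [List.map_cons, List.mem_cons] at hP
    rcases hP with hP | hP
    · have hp2 : p = Piece.cx r s := by rw [← hPe]; exact hP.symm
      rw [hp2] at hp
      exact hp.1
    · exact ih W' hW' P hP r s hPe
end

section
/-! Pairs of quaternionic hermitian forms.  A right quaternionic space is a module over `Q`, the
opposite of the quaternions.  A quaternionic hermitian form `h` is represented by its real part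
`b x y = Re h x y`, a real bilinear symmetric form with `b (q • x) y = b x (star q • y)`.
Subspaces are `Submodule Q V`, dimension is `Module.finrank Q`. -/
open scoped Quaternion
variable {V : Type} [AddCommGroup V] [Module Q V] [Module ℝ V] [IsScalarTower ℝ Q V]


/-- all pieces of a good pair are good -/
theorem nf_good [FiniteDimensional Q V] {b : BF V} (hb : IsF b) {X : V →ₗ[Q] V} (hX : SA b X)
    (p q : ℝ) (hg : ∀ x, 0 ≤ (tt b X + p • tw b X + q • b) x x)
    (l : List (Piece × V)) (hl : IsNF b X l ⊤) :
    ∀ P ∈ l.map Prod.fst,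
      idx (Polynomial.X ^ 2 + Polynomial.C p * Polynomial.X + Polynomial.C q) P = 0 := by
  have h1 := nn_nf hb hX (Polynomial.X ^ 2 + Polynomial.C p * Polynomial.X + Polynomial.C q) l ⊤ hl
  have hval : ∀ x : V, tw b (Polynomial.aeval (R := ℝ) (A := Module.End Q V) X
      (Polynomial.X ^ 2 + Polynomial.C p * Polynomial.X + Polynomial.C q)) x x
      = (tt b X + p • tw b X + q • b) x x := by
    intro x
    have e1 : (Polynomial.aeval (R := ℝ) (A := Module.End Q V) X
      (Polynomial.X ^ 2 + Polynomial.C p * Polynomial.X + Polynomial.C q)) x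
        = X (X x) + p • X x + q • x := by
      simp only [map_add, map_mul, map_pow, Polynomial.aeval_X, Polynomial.aeval_C]
      rw [LinearMap.add_apply, LinearMap.add_apply, pow_two, Module.End.mul_apply,
        Module.End.mul_apply, Module.algebraMap_end_apply, Module.algebraMap_end_apply]
    show b x ((Polynomial.aeval (R := ℝ) (A := Module.End Q V) X
      (Polynomial.X ^ 2 + Polynomial.C p * Polynomial.X + Polynomial.C q)) x) = _
    rw [e1, map_add, map_add, map_smul, map_smul]
    show b x (X (X x)) + p • b x (X x) + q • b x x = b (X x) (X x) + p • b x (X x) + q • b x x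
    rw [hX x (X x)]
  have h2 : nn (tw b (Polynomial.aeval (R := ℝ) (A := Module.End Q V) X
      (Polynomial.X ^ 2 + Polynomial.C p * Polynomial.X + Polynomial.C q))) ⊤ = 0 := by
    unfold nn
    refine Nat.le_zero.1 (csSup_le' ?_)
    rintro k ⟨U, -, hU, hk⟩
    have hbot : U = ⊥ := by
      rw [Submodule.eq_bot_iff]
      intro x hx
      by_contra hx0
      have h4 := hU x hx hx0
      rw [hval x] at h4
      exact absurd (hg x) (not_le.2 h4)
    rw [hbot, finrank_bot] at hk
    exact le_of_eq hk.symm
  rw [h2] at h1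
  have h3 : ((l.map Prod.fst).map (idx (Polynomial.X ^ 2 + Polynomial.C p * Polynomial.X +
      Polynomial.C q))).sum = 0 := h1.symm
  intro P hP
  exact (List.sum_eq_zero_iff.1 h3) _ (List.mem_map_of_mem hP)
end

section
/-! Pairs of quaternionic hermitian forms.  A right quaternionic space is a module over `Q`, the
opposite of the quaternions.  A quaternionic hermitian form `h` is represented by its real part
`b x y = Re h x y`, a real bilinear symmetric form with `b (q • x) y = b x (star q • y)`.
Subspaces are `Submodule Q V`, dimension is `Module.finrank Q`. -/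
open scoped Quaternion
variable {V : Type} [AddCommGroup V] [Module Q V] [Module ℝ V] [IsScalarTower ℝ Q V]


--#BPAUX cond_III'

--#BPEND cond_III'

theorem crit_good_poly (p q r1 r2 : ℝ) (hs : r1 + r2 = -p) (hp : r1 * r2 = q) :
    (Polynomial.X ^ 2 + Polynomial.C p * Polynomial.X + Polynomial.C q : Polynomial ℝ) =
      (Polynomial.X - Polynomial.C r1) * (Polynomial.X - Polynomial.C r2) := by
  have h1 : (Polynomial.C p : Polynomial ℝ) = -(Polynomial.C r1 + Polynomial.C r2) := by
    rw [← Polynomial.C_add, hs, Polynomial.C_neg, neg_neg]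
  have h2 : (Polynomial.C q : Polynomial ℝ) = Polynomial.C r1 * Polynomial.C r2 := by
    rw [← Polynomial.C_mul, hp]
  rw [h1, h2]
  ring

theorem crit_good_cnt (p : Piece → Prop) (L : List Piece) (h : cnt p L = 0) :
    ∀ P ∈ L, ¬ p P := by
  intro P hP
  unfold cnt at h
  rw [List.countP_eq_zero] at h
  have := h P hP
  simpa using this

/-- the criterion holds for a good pair with the property -/
theorem crit_good [FiniteDimensional Q V] {b : BF V} (hb : IsF b) (hnd : Nd b)
    {X : V →ₗ[Q] V} (hX : SA b X) (hP : PP b (tw b X)) (hk : nn b ⊤ = kap b (tw b X))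
    (p q : ℝ) (hg : ∀ x, 0 ≤ (tt b X + p • tw b X + q • b) x x) : Crit b (tw b X) := by
  obtain ⟨l, hl⟩ := nf_exists hb hnd hX p q hg
  have hgood := nf_good hb hX p q hg l hl
  have hcx := nf_cx l ⊤ hl
  refine crit_of_nf hb hnd hX l hl hk ?_
  rcases lt_trichotomy (p ^ 2) (4 * q) with hd | hd | hd
  · exact lcrit_I p q hd _ fun P hP => shape_I p q hd P (hgood P hP) (hcx P hP)
  · have hpoly := crit_good_poly p q (-p / 2) (-p / 2) (by ring) (by nlinarith)
    have hsh : ∀ P ∈ l.map Prod.fst, shIII (-p / 2) P := fun P hP => by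
      have h1 := hgood P hP
      rw [hpoly] at h1
      exact shape_III (-p / 2) P h1 (hcx P hP)
    exact lcrit_III (-p / 2) _ hsh (cond_III hb hnd hX hP l hl hk _ hsh)
      (cond_III' hb hnd hX hP l hl hk _ hsh)
  · have hD : 0 < p ^ 2 - 4 * q := by linarith
    obtain ⟨r1, r2, h12, hs, hp⟩ : ∃ r1 r2 : ℝ, r1 < r2 ∧ r1 + r2 = -p ∧ r1 * r2 = q := by
      refine ⟨(-p - √(p ^ 2 - 4 * q)) / 2, (-p + √(p ^ 2 - 4 * q)) / 2, ?_, by ring, ?_⟩
      · have := Real.sqrt_pos.2 hD
        linarith
      · have := Real.sq_sqrt hD.le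
        nlinarith
    have hpoly := crit_good_poly p q r1 r2 hs hp
    have hsh : ∀ P ∈ l.map Prod.fst, shII r1 r2 P := fun P hP => by
      have h1 := hgood P hP
      rw [hpoly] at h1
      exact shape_II r1 r2 h12 P h1 (hcx P hP)
    rcases alpha_II hb hnd hX hP l hl hk r1 r2 h12 hsh with ⟨hz, hj⟩ | hA
    · have h1 := crit_good_cnt _ _ hz
      have h2 := crit_good_cnt _ _ hj
      have hsh3 : ∀ P ∈ l.map Prod.fst, shIII r2 P := by
        intro P hP'
        have a1 := h1 P hP'
        have a2 := h2 P hP'
        have a3 := hsh P hP'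
        cases P with
        | ray e x =>
          cases e with
          | true => trivial
          | false => exact not_not.1 a1
        | cx r s => exact absurd a3 (by simp [shII])
        | b2 e r =>
          cases e with
          | true => exact a3
          | false => exact absurd rfl a2
        | b3 r => exact absurd a3 (by simp [shII])
      exact lcrit_III r2 _ hsh3 (cond_III hb hnd hX hP l hl hk _ hsh3)
        (cond_III' hb hnd hX hP l hl hk _ hsh3)
    rcases beta_II hb hnd hX hP l hl hk r1 r2 h12 hsh with ⟨hz, hj⟩ | hB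
    · have h1 := crit_good_cnt _ _ hz
      have h2 := crit_good_cnt _ _ hj
      have hsh3 : ∀ P ∈ l.map Prod.fst, shIII r1 P := by
        intro P hP'
        have a1 := h1 P hP'
        have a2 := h2 P hP'
        have a3 := hsh P hP'
        cases P with
        | ray e x =>
          cases e with
          | true => trivial
          | false => exact not_not.1 a1
        | cx r s => exact absurd a3 (by simp [shII])
        | b2 e r =>
          cases e with
          | false => exact a3
          | true => exact absurd rfl a2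
        | b3 r => exact absurd a3 (by simp [shII])
      exact lcrit_III r1 _ hsh3 (cond_III hb hnd hX hP l hl hk _ hsh3)
        (cond_III' hb hnd hX hP l hl hk _ hsh3)
    exact lcrit_II r1 r2 h12 _ hsh hA hB
end

section
/-! Pairs of quaternionic hermitian forms.  A right quaternionic space is a module over `Q`, the
opposite of the quaternions.  A quaternionic hermitian form `h` is represented by its real part
`b x y = Re h x y`, a real bilinear symmetric form with `b (q • x) y = b x (star q • y)`.
Subspaces are `Submodule Q V`, dimension is `Module.finrank Q`. -/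
open scoped Quaternion
variable {V : Type} [AddCommGroup V] [Module Q V] [Module ℝ V] [IsScalarTower ℝ Q V]


theorem nec [FiniteDimensional Q V] {b a : BF V} (hb : IsF b) (ha : IsF a)
    (hreg : ∃ μ ν : ℝ, Nd (μ • b + ν • a)) (hSD : ¬ SD b a) (hP : PP b a) : Crit b a := by
  obtain ⟨μ, ν, ρ, τ, hd, hnd, hk, X, hX, p, q, hpos⟩ := good_exists hb ha hreg hSD hP
  have hC : IsF (μ • b + ν • a) := isF_add (isF_smul hb μ) (isF_smul ha ν)
  have hD : IsF (ρ • b + τ • a) := isF_add (isF_smul hb ρ) (isF_smul ha τ)
  have htw : tw (μ • b + ν • a) X = ρ • b + τ • a := by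
    refine LinearMap.ext fun x => LinearMap.ext fun y => ?_
    exact hX x y
  have hSA : SA (μ • b + ν • a) X := by
    intro x y
    rw [hC.symm (X x) y, hX y x, hX x y, hD.symm]
  have hPP : PP (μ • b + ν • a) (tw (μ • b + ν • a) X) := by
    rw [htw]
    intro M N hM hN
    exact hP M N ((maxNeu_comb hd M).1 hM) ((maxNeu_comb hd N).1 hN)
  have hkk : nn (μ • b + ν • a) ⊤ = kap (μ • b + ν • a) (tw (μ • b + ν • a) X) := by
    rw [htw, kap_comb hd, hk]
  have hcr := crit_good hC hnd hSA hPP hkk p q (by rw [htw]; exact hpos)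
  rw [htw] at hcr
  exact crit_comb hd hcr
end

end Pool.QN
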