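import Pool.Agent.Helper9.QN.Defs
import Pool.Agent.Helper9.QP.A1
import Pool.Agent.Helper9.QP.B2
import Pool.Agent.Helper9.QP.K1
import Pool.Agent.Helper9.QP.T5

set_option autoImplicit false
set_option maxHeartbeats 1000000

namespace Pool.QN

section
/-! Pairs of quaternionic hermitian forms.  A right quaternionic space is a module over `Q`, the
opposite of the quaternions.  A quaternionic hermitian form `h` is represented by its real part
`b x y = Re h x y`, a real bilinear symmetric form with `b (q • x) y = b x (star q • y)`.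
Subspaces are `Submodule Q V`, dimension is `Module.finrank Q`. -/
open scoped Quaternion
variable {V : Type} [AddCommGroup V] [Module Q V] [Module ℝ V] [IsScalarTower ℝ Q V]


theorem radCompl_exists [FiniteDimensional Q V] {b a : BF V} (hb : IsF b) (ha : IsF a) :
    ∃ W : Submodule Q V, RadCompl b a W := by
  let K : Submodule Q V :=
    { carrier := {x | ∀ y, b x y = 0 ∧ a x y = 0}
      add_mem' := by
        intro x z hx hz y
        rw [map_add, map_add, LinearMap.add_apply, LinearMap.add_apply, (hx y).1, (hx y).2,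
          (hz y).1, (hz y).2, add_zero]
        exact ⟨rfl, rfl⟩
      zero_mem' := by
        intro y
        rw [map_zero, map_zero, LinearMap.zero_apply]
        exact ⟨rfl, rfl⟩
      smul_mem' := by
        intro q x hx y
        rw [hb.adj, ha.adj]
        exact hx _ }
  obtain ⟨W, hW⟩ := Submodule.exists_isCompl K
  refine ⟨W, ?_, ?_⟩
  · intro x hxW h1 h2
    have hxK : x ∈ K := fun y => ⟨h1 y, h2 y⟩
    exact (Submodule.disjoint_def.mp hW.disjoint) x hxK hxW
  · intro x
    have hx : x ∈ K ⊔ W := by rw [hW.sup_eq_top]; trivial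
    obtain ⟨k, hk, w, hw, rfl⟩ := Submodule.mem_sup.mp hx
    refine ⟨w, hw, fun y => ?_⟩
    rw [add_sub_cancel_right]
    exact hk y
end

section
/-! Pairs of quaternionic hermitian forms.  A right quaternionic space is a module over `Q`, the
opposite of the quaternions.  A quaternionic hermitian form `h` is represented by its real part
`b x y = Re h x y`, a real bilinear symmetric form with `b (q • x) y = b x (star q • y)`.
Subspaces are `Submodule Q V`, dimension is `Module.finrank Q`. -/
open scoped Quaternion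
variable {V : Type} [AddCommGroup V] [Module Q V] [Module ℝ V] [IsScalarTower ℝ Q V]


theorem rad_norad {b a : BF V} (hb : IsF b) (ha : IsF a) (W : Submodule Q V)
    (hW : RadCompl b a W) : NoRad (rs b W) (rs a W) := by
  intro x hbx hax
  have hx0 : (x : V) = 0 := by
    apply hW.1 x x.2
    · intro y
      obtain ⟨w, hw, hwy⟩ := hW.2 y
      have h1 : b (x : V) w = 0 := hbx ⟨w, hw⟩
      have h2 : b (x : V) (y - w) = 0 := by
        rw [hb.symm]
        have h3 := (hwy (x : V)).1
        exact h3
      have h4 : b (x : V) y = b (x : V) (y - w) + b (x : V) w := by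
        rw [← map_add, sub_add_cancel]
      rw [h4, h1, h2, add_zero]
    · intro y
      obtain ⟨w, hw, hwy⟩ := hW.2 y
      have h1 : a (x : V) w = 0 := hax ⟨w, hw⟩
      have h2 : a (x : V) (y - w) = 0 := by
        rw [ha.symm]
        have h3 := (hwy (x : V)).2
        exact h3
      have h4 : a (x : V) y = a (x : V) (y - w) + a (x : V) w := by
        rw [← map_add, sub_add_cancel]
      rw [h4, h1, h2, add_zero]
  exact Subtype.ext hx0
end

section
/-! Pairs of quaternionic hermitian forms.  A right quaternionic space is a module over `Q`, the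
opposite of the quaternions.  A quaternionic hermitian form `h` is represented by its real part
`b x y = Re h x y`, a real bilinear symmetric form with `b (q • x) y = b x (star q • y)`.
Subspaces are `Submodule Q V`, dimension is `Module.finrank Q`. -/
open scoped Quaternion
variable {V : Type} [AddCommGroup V] [Module Q V] [Module ℝ V] [IsScalarTower ℝ Q V]


/-- common kernel -/
def radK {b a : BF V} (hb : IsF b) (ha : IsF a) : Submodule Q V where
  carrier := {x | ∀ y, b x y = 0 ∧ a x y = 0}
  add_mem' := by
    intro x y hx hy z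
    rw [map_add, map_add, LinearMap.add_apply, LinearMap.add_apply, (hx z).1, (hx z).2,
      (hy z).1, (hy z).2, add_zero]
    exact ⟨rfl, rfl⟩
  zero_mem' := by
    intro y
    rw [map_zero, map_zero]
    exact ⟨rfl, rfl⟩
  smul_mem' := by
    intro q x hx y
    rw [hb.adj, ha.adj]
    exact hx _

theorem rad_mem {b a : BF V} (hb : IsF b) (ha : IsF a) (x : V) :
    x ∈ radK hb ha ↔ ∀ y, b x y = 0 ∧ a x y = 0 := Iff.rfl

theorem rad_sup_neu {b a : BF V} (hb : IsF b) (ha : IsF a) (M : Submodule Q V) (hM : Neu b a M) :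
    Neu b a (M ⊔ radK hb ha) := by
  intro x hx y hy
  obtain ⟨m, hm, k, hk, rfl⟩ := Submodule.mem_sup.1 hx
  obtain ⟨m', hm', k', hk', rfl⟩ := Submodule.mem_sup.1 hy
  rw [rad_mem] at hk hk'
  simp only [map_add, LinearMap.add_apply]
  rw [(hM m hm m' hm').1, (hM m hm m' hm').2, (hk m').1, (hk m').2, (hk k').1, (hk k').2,
    hb.symm m k', ha.symm m k', (hk' m).1, (hk' m).2]
  simp

theorem rad_le_max {b a : BF V} (hb : IsF b) (ha : IsF a) (M : Submodule Q V)
    (hM : MaxNeu b a M) : radK hb ha ≤ M := by
  have h := hM.2 _ (rad_sup_neu hb ha M hM.1) le_sup_left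
  rw [← h]
  exact le_sup_right

theorem rad_rs_apply (b : BF V) (W : Submodule Q V) (x y : W) : rs b W x y = b x y := rfl

theorem rad_map_neu {b a : BF V} (W : Submodule Q V) (M' : Submodule Q W)
    (h : Neu (rs b W) (rs a W) M') : Neu b a (M'.map W.subtype) := by
  rintro _ ⟨x, hx, rfl⟩ _ ⟨y, hy, rfl⟩
  exact h x hx y hy

theorem rad_comap_neu {b a : BF V} (W : Submodule Q V) (M : Submodule Q V)
    (h : Neu b a M) : Neu (rs b W) (rs a W) (M.comap W.subtype) := by
  intro x hx y hy
  exact h x hx y hy

theorem rad_decomp {b a : BF V} (hb : IsF b) (ha : IsF a) (W : Submodule Q V)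
    (hW : RadCompl b a W) (M : Submodule Q V) (hM : radK hb ha ≤ M) :
    M ≤ (M.comap W.subtype).map W.subtype ⊔ radK hb ha := by
  intro x hx
  obtain ⟨w, hw, hxw⟩ := hW.2 x
  have hk : x - w ∈ radK hb ha := hxw
  have hwM : w ∈ M := by
    have : w = x - (x - w) := by abel
    rw [this]
    exact M.sub_mem hx (hM hk)
  rw [Submodule.mem_sup]
  exact ⟨w, ⟨⟨w, hw⟩, hwM, rfl⟩, x - w, hk, by abel⟩

theorem rad_max_up {b a : BF V} (hb : IsF b) (ha : IsF a) (W : Submodule Q V)
    (hW : RadCompl b a W) (M' : Submodule Q W) (h : MaxNeu (rs b W) (rs a W) M') :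
    MaxNeu b a (M'.map W.subtype ⊔ radK hb ha) := by
  refine ⟨rad_sup_neu hb ha _ (rad_map_neu W M' h.1), ?_⟩
  intro N hN hle
  have h1 : N.comap W.subtype = M' := by
    apply h.2 _ (rad_comap_neu W N hN)
    intro x hx
    exact hle (Submodule.mem_sup_left ⟨x, hx, rfl⟩)
  apply le_antisymm _ hle
  have h2 := rad_decomp hb ha W hW N (le_sup_right.trans hle)
  rw [h1] at h2
  exact h2

theorem rad_max_down {b a : BF V} (hb : IsF b) (ha : IsF a) (W : Submodule Q V)
    (hW : RadCompl b a W) (M : Submodule Q V) (h : MaxNeu b a M) :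
    MaxNeu (rs b W) (rs a W) (M.comap W.subtype) ∧
      M = (M.comap W.subtype).map W.subtype ⊔ radK hb ha := by
  have hK := rad_le_max hb ha M h
  have hd := rad_decomp hb ha W hW M hK
  refine ⟨⟨rad_comap_neu W M h.1, ?_⟩, ?_⟩
  · intro N' hN' hle
    have h1 : N'.map W.subtype ⊔ radK hb ha = M := by
      apply h.2 _ (rad_sup_neu hb ha _ (rad_map_neu W N' hN'))
      refine hd.trans (sup_le_sup_right (Submodule.map_mono hle) _)
    apply le_antisymm _ hle
    intro x hx
    change (x : V) ∈ M
    rw [← h1]
    exact Submodule.mem_sup_left ⟨x, hx, rfl⟩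
  · apply le_antisymm hd
    refine sup_le ?_ hK
    rintro _ ⟨x, hx, rfl⟩
    exact hx

theorem rad_finrank [FiniteDimensional Q V] {b a : BF V} (hb : IsF b) (ha : IsF a)
    (W : Submodule Q V) (hW : RadCompl b a W) (M' : Submodule Q W) :
    Module.finrank Q (M'.map W.subtype ⊔ radK hb ha : Submodule Q V) =
      Module.finrank Q M' + Module.finrank Q (radK hb ha) := by
  have h1 := Submodule.finrank_sup_add_finrank_inf_eq (M'.map W.subtype) (radK hb ha)
  have h2 : M'.map W.subtype ⊓ radK hb ha = ⊥ := by
    rw [eq_bot_iff]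
    rintro x ⟨⟨y, hy, rfl⟩, hk⟩
    rw [Submodule.mem_bot]
    exact hW.1 _ y.2 (fun z => (hk z).1) (fun z => (hk z).2)
  rw [h2, finrank_bot, add_zero] at h1
  rw [h1]
  congr 1
  exact (Submodule.equivMapOfInjective W.subtype W.injective_subtype M').symm.finrank_eq

theorem rad_pp [FiniteDimensional Q V] {b a : BF V} (hb : IsF b) (ha : IsF a)
    (W : Submodule Q V) (hW : RadCompl b a W) : PP b a ↔ PP (rs b W) (rs a W) := by
  constructor
  · intro h M' N' hM hN
    have h1 := h _ _ (rad_max_up hb ha W hW M' hM) (rad_max_up hb ha W hW N' hN)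
    rw [rad_finrank hb ha W hW, rad_finrank hb ha W hW] at h1
    exact Nat.add_right_cancel h1
  · intro h M N hM hN
    obtain ⟨hM1, hM2⟩ := rad_max_down hb ha W hW M hM
    obtain ⟨hN1, hN2⟩ := rad_max_down hb ha W hW N hN
    rw [hM2, hN2, rad_finrank hb ha W hW, rad_finrank hb ha W hW, h _ _ hM1 hN1]
end

section
/-! Pairs of quaternionic hermitian forms.  A right quaternionic space is a module over `Q`, the
opposite of the quaternions.  A quaternionic hermitian form `h` is represented by its real part
`b x y = Re h x y`, a real bilinear symmetric form with `b (q • x) y = b x (star q • y)`.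
Subspaces are `Submodule Q V`, dimension is `Module.finrank Q`. -/
open scoped Quaternion
variable {V : Type} [AddCommGroup V] [Module Q V] [Module ℝ V] [IsScalarTower ℝ Q V]


theorem rad_sd_aux {b : BF V} (hb : IsF b) (x w : V) (h : ∀ y, b (x - w) y = 0) :
    b x x = b w w := by
  have h1 := h x
  have h2 := h w
  rw [map_sub, LinearMap.sub_apply, sub_eq_zero] at h1 h2
  rw [h1, hb.symm w x, h2]

theorem rad_sd {b a : BF V} (hb : IsF b) (ha : IsF a)
    (W : Submodule Q V) (hW : RadCompl b a W) : SD b a ↔ SD (rs b W) (rs a W) := by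
  constructor
  · rintro ⟨μ, ν, hne, h⟩
    refine ⟨μ, ν, hne, fun x => ?_⟩
    exact h (x : V)
  · rintro ⟨μ, ν, hne, h⟩
    refine ⟨μ, ν, hne, fun x => ?_⟩
    obtain ⟨w, hw, hy⟩ := hW.2 x
    have h1 : 0 ≤ μ * b w w + ν * a w w := h ⟨w, hw⟩
    show 0 ≤ μ * b x x + ν * a x x
    rw [rad_sd_aux hb x w fun y => (hy y).1, rad_sd_aux ha x w fun y => (hy y).2]
    exact h1
end

section
/-! Pairs of quaternionic hermitian forms.  A right quaternionic space is a module over `Q`, the
opposite of the quaternions.  A quaternionic hermitian form `h` is represented by its real part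
`b x y = Re h x y`, a real bilinear symmetric form with `b (q • x) y = b x (star q • y)`.
Subspaces are `Submodule Q V`, dimension is `Module.finrank Q`. -/
open scoped Quaternion
variable {V : Type} [AddCommGroup V] [Module Q V] [Module ℝ V] [IsScalarTower ℝ Q V]


theorem rad_nn [FiniteDimensional Q V] {b a c : BF V} (hc : IsF c)
    (W : Submodule Q V) (hW : RadCompl b a W)
    (hk : ∀ x, (∀ y, b x y = 0 ∧ a x y = 0) → ∀ y, c x y = 0) :
    nn c ⊤ = nn (rs c W) ⊤ := by
  rw [nn_rs]
  apply le_antisymm
  · obtain ⟨U, -, hU, hUd⟩ := exists_neg c (⊤ : Submodule Q V)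
    -- kernel of `c`
    let K : Submodule Q V :=
      { carrier := {x | ∀ y, c x y = 0}
        add_mem' := by
          intro x z hx hz y
          rw [map_add, LinearMap.add_apply, hx y, hz y, add_zero]
        zero_mem' := by
          intro y
          rw [map_zero, LinearMap.zero_apply]
        smul_mem' := by
          intro q x hx y
          rw [hc.adj]
          exact hx _ }
    have hKW : ∀ x, ∃ w ∈ W, x - w ∈ K := by
      intro x
      obtain ⟨w, hw, h⟩ := hW.2 x
      exact ⟨w, hw, fun y => hk (x - w) h y⟩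
    obtain ⟨D, hD⟩ := exists_isCompl (W ⊓ K)
    have hcompl : IsCompl (D ⊓ W) K := by
      constructor
      · rw [Submodule.disjoint_def]
        intro x hx hxK
        have h1 : x ∈ (W ⊓ K) ⊓ D := ⟨⟨hx.2, hxK⟩, hx.1⟩
        rw [hD.inf_eq_bot] at h1
        simpa using h1
      · rw [codisjoint_iff, eq_top_iff]
        intro x _
        obtain ⟨w, hw, hxw⟩ := hKW x
        have h1 : w ∈ (W ⊓ K) ⊔ D := by rw [hD.sup_eq_top]; trivial
        obtain ⟨w1, hw1, d, hd, hwd⟩ := Submodule.mem_sup.1 h1
        have hdW : d ∈ W := by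
          have : d = w - w1 := by rw [← hwd]; abel
          rw [this]
          exact W.sub_mem hw hw1.1
        refine Submodule.mem_sup.2 ⟨d, ⟨hd, hdW⟩, w1 + (x - w), K.add_mem hw1.2 hxw, ?_⟩
        rw [← hwd]; abel
    let P : V →ₗ[Q] V := (D ⊓ W).subtype ∘ₗ Submodule.projectionOnto (D ⊓ W) K hcompl
    have hP : ∀ x, x - P x ∈ K := by
      intro x
      have h1 := Submodule.projectionOnto_apply_eq_zero_iff hcompl (x := x - P x)
      rw [← h1]
      show Submodule.projectionOnto (D ⊓ W) K hcompl
        (x - ((Submodule.projectionOnto (D ⊓ W) K hcompl x : (D ⊓ W : Submodule Q V)) : V)) = 0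
      rw [map_sub, Submodule.projectionOnto_apply_left, sub_self]
    have hPW : ∀ x, P x ∈ W := fun x =>
      (Submodule.projectionOnto (D ⊓ W) K hcompl x).2.2
    have hcP : ∀ x, c (P x) (P x) = c x x := by
      intro x
      have h1 := hP x
      have e1 : c (x - P x) x = 0 := h1 x
      have e2 : c (x - P x) (P x) = 0 := h1 (P x)
      rw [map_sub, LinearMap.sub_apply] at e1 e2
      have e3 := hc.symm x (P x)
      linarith
    have hinj : Function.Injective (P.domRestrict U) := by
      rw [← LinearMap.ker_eq_bot, LinearMap.ker_eq_bot']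
      intro x hx
      have h1 : P (x : V) = 0 := hx
      by_contra hne
      have hne' : (x : V) ≠ 0 := fun h => hne (Subtype.ext h)
      have h2 := hU x x.2 hne'
      rw [← hcP, h1] at h2
      simp at h2
    have hfr := LinearMap.finrank_range_of_inj hinj
    have hle : LinearMap.range (P.domRestrict U) ≤ W := by
      rintro _ ⟨x, rfl⟩
      exact hPW _
    have hneg : NegOn c (LinearMap.range (P.domRestrict U)) := by
      rintro _ ⟨x, rfl⟩ hne
      have hx : (x : V) ≠ 0 := by
        intro h
        apply hne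
        show P (x : V) = 0
        rw [h, map_zero]
      show c (P (x : V)) (P (x : V)) < 0
      rw [hcP]
      exact hU x x.2 hx
    have := le_nn c hle hneg
    rw [hfr, hUd] at this
    exact this
  · obtain ⟨U, hUW, hU, hUd⟩ := exists_neg c W
    rw [← hUd]
    exact le_nn c le_top hU
end

section
/-! Pairs of quaternionic hermitian forms.  A right quaternionic space is a module over `Q`, the
opposite of the quaternions.  A quaternionic hermitian form `h` is represented by its real part
`b x y = Re h x y`, a real bilinear symmetric form with `b (q • x) y = b x (star q • y)`.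
Subspaces are `Submodule Q V`, dimension is `Module.finrank Q`. -/
open scoped Quaternion
variable {V : Type} [AddCommGroup V] [Module Q V] [Module ℝ V] [IsScalarTower ℝ Q V]


theorem rad_kmin {b a : BF V} (hb : IsF b) (ha : IsF a)
    (W : Submodule Q V) (hW : RadCompl b a W) (μ ν : ℝ) :
    KMin b a (μ • b + ν • a) ↔ KMin (rs b W) (rs a W) (μ • rs b W + ν • rs a W) := by
  obtain ⟨-, hdec⟩ := hW
  have hrb : ∀ w w' : W, rs b W w w' = b (w : V) (w' : V) := fun _ _ => rfl
  have hra : ∀ w w' : W, rs a W w w' = a (w : V) (w' : V) := fun _ _ => rfl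
  have hc : ∀ x y, (μ • b + ν • a) x y = μ * b x y + ν * a x y := fun _ _ => rfl
  have hrc : ∀ w w' : W, (μ • rs b W + ν • rs a W) w w' = μ * b (w : V) (w' : V) +
      ν * a (w : V) (w' : V) := fun _ _ => rfl
  constructor
  · intro h w hw
    have h1 : ∀ y : V, (μ • b + ν • a) (w : V) y = 0 := by
      intro y
      obtain ⟨w', hw', hk⟩ := hdec y
      have h2 := hw ⟨w', hw'⟩
      rw [hrc] at h2
      have h3 : b (w : V) y = b (w : V) w' := by
        have := (hk (w : V)).1
        rw [hb.symm, map_sub] at this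
        linarith
      have h4 : a (w : V) y = a (w : V) w' := by
        have := (hk (w : V)).2
        rw [ha.symm, map_sub] at this
        linarith
      rw [hc, h3, h4]
      exact h2
    obtain ⟨h5, h6⟩ := h w h1
    exact ⟨fun w' => by rw [hrb]; exact h5 w', fun w' => by rw [hra]; exact h6 w'⟩
  · intro h x hx
    obtain ⟨w, hw, hk⟩ := hdec x
    have hbx : ∀ y, b x y = b w y := by
      intro y
      have := (hk y).1
      rw [map_sub, LinearMap.sub_apply] at this
      linarith
    have hax : ∀ y, a x y = a w y := by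
      intro y
      have := (hk y).2
      rw [map_sub, LinearMap.sub_apply] at this
      linarith
    obtain ⟨h1, h2⟩ := h ⟨w, hw⟩ (fun w' => by
      rw [hrc]
      have := hx (w' : V)
      rw [hc, hbx, hax] at this
      exact this)
    refine ⟨fun y => ?_, fun y => ?_⟩
    · obtain ⟨w', hw', hk'⟩ := hdec y
      have h3 := h1 ⟨w', hw'⟩
      rw [hrb] at h3
      have h4 := (hk' w).1
      rw [hb.symm, map_sub] at h4
      rw [hbx]
      linarith
    · obtain ⟨w', hw', hk'⟩ := hdec y
      have h3 := h2 ⟨w', hw'⟩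
      rw [hra] at h3
      have h4 := (hk' w).2
      rw [ha.symm, map_sub] at h4
      rw [hax]
      linarith
end

section
/-! Pairs of quaternionic hermitian forms.  A right quaternionic space is a module over `Q`, the
opposite of the quaternions.  A quaternionic hermitian form `h` is represented by its real part
`b x y = Re h x y`, a real bilinear symmetric form with `b (q • x) y = b x (star q • y)`.
Subspaces are `Submodule Q V`, dimension is `Module.finrank Q`. -/
open scoped Quaternion
variable {V : Type} [AddCommGroup V] [Module Q V] [Module ℝ V] [IsScalarTower ℝ Q V]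


theorem rad_kap [FiniteDimensional Q V] {b a : BF V} (hb : IsF b) (ha : IsF a)
    (W : Submodule Q V) (hW : RadCompl b a W) : kap b a = kap (rs b W) (rs a W) := by
  have hrs : ∀ μ ν : ℝ, rs (μ • b + ν • a) W = μ • rs b W + ν • rs a W := by
    intro μ ν
    ext x y
    rfl
  have hnn : ∀ μ ν : ℝ, nn (μ • b + ν • a) ⊤ = nn (μ • rs b W + ν • rs a W) ⊤ := by
    intro μ ν
    rw [← hrs]
    refine rad_nn (isF_add (isF_smul hb μ) (isF_smul ha ν)) W hW ?_
    intro x hx y
    simp only [LinearMap.add_apply, LinearMap.smul_apply, (hx y).1, (hx y).2, smul_zero, add_zero]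
  unfold kap
  congr 1
  ext k
  constructor
  · rintro ⟨μ, ν, h1, h2⟩
    exact ⟨μ, ν, (rad_kmin hb ha W hW μ ν).1 h1, by rw [← hnn]; exact h2⟩
  · rintro ⟨μ, ν, h1, h2⟩
    exact ⟨μ, ν, (rad_kmin hb ha W hW μ ν).2 h1, by rw [hnn]; exact h2⟩
end

section
/-! Pairs of quaternionic hermitian forms.  A right quaternionic space is a module over `Q`, the
opposite of the quaternions.  A quaternionic hermitian form `h` is represented by its real part
`b x y = Re h x y`, a real bilinear symmetric form with `b (q • x) y = b x (star q • y)`.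
Subspaces are `Submodule Q V`, dimension is `Module.finrank Q`. -/
open scoped Quaternion
variable {V : Type} [AddCommGroup V] [Module Q V] [Module ℝ V] [IsScalarTower ℝ Q V]


/-- the common kernel -/
def comK (b a : BF V) (hb : IsF b) (ha : IsF a) : Submodule Q V where
  carrier := {x | ∀ y, b x y = 0 ∧ a x y = 0}
  add_mem' := by
    intro x z hx hz y
    constructor
    · rw [map_add, LinearMap.add_apply, (hx y).1, (hz y).1, add_zero]
    · rw [map_add, LinearMap.add_apply, (hx y).2, (hz y).2, add_zero]
  zero_mem' := by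
    intro y
    simp
  smul_mem' := by
    intro q x hx y
    exact ⟨by rw [hb.adj]; exact (hx _).1, by rw [ha.adj]; exact (hx _).2⟩

theorem mem_comK {b a : BF V} (hb : IsF b) (ha : IsF a) (x : V) :
    x ∈ comK b a hb ha ↔ ∀ y, b x y = 0 ∧ a x y = 0 := Iff.rfl

theorem exists_proj {b a : BF V} (hb : IsF b) (ha : IsF a)
    (W : Submodule Q V) (hW : RadCompl b a W) :
    ∃ P : V →ₗ[Q] W, (∀ w : W, P (w : V) = w) ∧
      ∀ x, ∀ y, b (x - (P x : V)) y = 0 ∧ a (x - (P x : V)) y = 0 := by
  have hc : IsCompl W (comK b a hb ha) := by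
    constructor
    · rw [Submodule.disjoint_def]
      intro x hx hk
      exact hW.1 x hx (fun y => (hk y).1) (fun y => (hk y).2)
    · rw [codisjoint_iff, eq_top_iff]
      intro x _
      obtain ⟨w, hw, h⟩ := hW.2 x
      rw [Submodule.mem_sup]
      exact ⟨w, hw, x - w, h, by abel⟩
  refine ⟨Submodule.projectionOnto W (comK b a hb ha) hc, ?_, ?_⟩
  · intro w
    exact Submodule.projectionOnto_apply_left hc w
  · intro x
    have h : Submodule.projectionOnto W (comK b a hb ha) hc
        (x - (Submodule.projectionOnto W (comK b a hb ha) hc x : V)) = 0 := by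
      rw [map_sub, Submodule.projectionOnto_apply_left, sub_self]
    have h2 : x - (Submodule.projectionOnto W (comK b a hb ha) hc x : V) ∈
        comK b a hb ha := by
      rwa [Submodule.projectionOnto_apply_eq_zero_iff] at h
    exact h2

theorem lin_apply (b a : BF V) (μ ν : ℝ) (x y : V) :
    (μ • b + ν • a) x y = μ * b x y + ν * a x y := rfl

theorem rs_apply (b : BF V) (W : Submodule Q V) (x y : W) :
    rs b W x y = b (x : V) (y : V) := rfl

theorem tt_apply (b : BF V) (X : V →ₗ[Q] V) (x y : V) : tt b X x y = b (X x) (X y) := rfl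

/-- a member of the pencil does not see the kernel -/
theorem ker_left {b a : BF V} (μ ν : ℝ) {k : V} (hk : ∀ y, b k y = 0 ∧ a k y = 0) (y : V) :
    (μ • b + ν • a) k y = 0 := by
  rw [lin_apply, (hk y).1, (hk y).2]; ring

theorem ker_right {b a : BF V} (hb : IsF b) (ha : IsF a) (μ ν : ℝ) {k : V}
    (hk : ∀ y, b k y = 0 ∧ a k y = 0) (y : V) :
    (μ • b + ν • a) y k = 0 := by
  rw [lin_apply, hb.symm, ha.symm, (hk y).1, (hk y).2]; ring

theorem red_left {b a : BF V} (μ ν : ℝ) {x x' : V}
    (hk : ∀ y, b (x - x') y = 0 ∧ a (x - x') y = 0) (y : V) :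
    (μ • b + ν • a) x y = (μ • b + ν • a) x' y := by
  have h := ker_left (b := b) (a := a) μ ν hk y
  rw [map_sub, LinearMap.sub_apply, sub_eq_zero] at h
  exact h

theorem red_right {b a : BF V} (hb : IsF b) (ha : IsF a) (μ ν : ℝ) {x x' : V}
    (hk : ∀ y, b (x - x') y = 0 ∧ a (x - x') y = 0) (y : V) :
    (μ • b + ν • a) y x = (μ • b + ν • a) y x' := by
  have h := ker_right (b := b) (a := a) hb ha μ ν hk y
  rw [map_sub, sub_eq_zero] at h
  exact h

theorem rad_crit [FiniteDimensional Q V] {b a : BF V} (hb : IsF b) (ha : IsF a)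
    (W : Submodule Q V) (hW : RadCompl b a W) : Crit b a ↔ Crit (rs b W) (rs a W) := by
  obtain ⟨P, hP1, hP2⟩ := exists_proj hb ha W hW
  have hPK : ∀ k, (∀ y, b k y = 0 ∧ a k y = 0) → P k = 0 := by
    intro k hk
    have h := hP2 k
    have h3 : ((P k : W) : V) = 0 := by
      apply hW.1 _ (P k).2
      · intro y
        have := (h y).1
        rw [map_sub, LinearMap.sub_apply, (hk y).1] at this
        linarith
      · intro y
        have := (h y).2
        rw [map_sub, LinearMap.sub_apply, (hk y).2] at this
        linarith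
    exact Subtype.ext h3
  have hF : ∀ (X : V →ₗ[Q] V) (μ ν ρ τ p q : ℝ), IsF (tt (μ • b + ν • a) X +
      p • (ρ • b + τ • a) + q • (μ • b + ν • a)) := by
    intro X μ ν ρ τ p q
    have hc : IsF (μ • b + ν • a) := isF_add (isF_smul hb μ) (isF_smul ha ν)
    have hd : IsF (ρ • b + τ • a) := isF_add (isF_smul hb ρ) (isF_smul ha τ)
    exact isF_add (isF_add (isF_tt hc X) (isF_smul hd p)) (isF_smul hc q)
  have hcn : ∀ μ ν : ℝ, nn (μ • b + ν • a) ⊤ = nn (μ • rs b W + ν • rs a W) ⊤ := by
    intro μ ν
    have hc : IsF (μ • b + ν • a) := isF_add (isF_smul hb μ) (isF_smul ha ν)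
    exact rad_nn (b := b) (a := a) hc W hW (fun x hx y => ker_left μ ν hx y)
  constructor
  · intro hC μ ν ρ τ hdet hK
    obtain ⟨X, hX, p, q, hn⟩ := hC μ ν ρ τ hdet ((rad_kmin hb ha W hW μ ν).mpr hK)
    refine ⟨P.comp (X.comp W.subtype), ?_, p, q, ?_⟩
    · intro x y
      have h1 : (μ • b + ν • a) (x : V) ((P (X (y : V)) : W) : V) =
          (μ • b + ν • a) (x : V) (X (y : V)) :=
        (red_right hb ha μ ν (hP2 (X (y : V))) (x : V)).symm
      exact h1.trans (hX x y)
    · have e : nn (tt (μ • b + ν • a) X + p • (ρ • b + τ • a) + q • (μ • b + ν • a)) ⊤ =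
          nn (rs (tt (μ • b + ν • a) X + p • (ρ • b + τ • a) + q • (μ • b + ν • a)) W) ⊤ := by
        apply rad_nn (b := b) (a := a) (hF X μ ν ρ τ p q) W hW
        intro x hx y
        have h1 : (μ • b + ν • a) (X x) (X y) = 0 := by
          have hc : IsF (μ • b + ν • a) := isF_add (isF_smul hb μ) (isF_smul ha ν)
          rw [hc.symm, hX]
          exact ker_right hb ha ρ τ hx _
        have h2 := ker_left ρ τ hx y
        have h3 := ker_left μ ν hx y
        change (μ • b + ν • a) (X x) (X y) + p * (ρ • b + τ • a) x y +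
          q * (μ • b + ν • a) x y = 0
        rw [h1, h2, h3]; ring
      have e2 : rs (tt (μ • b + ν • a) X + p • (ρ • b + τ • a) + q • (μ • b + ν • a)) W =
          tt (μ • rs b W + ν • rs a W) (P.comp (X.comp W.subtype)) +
            p • (ρ • rs b W + τ • rs a W) + q • (μ • rs b W + ν • rs a W) := by
        ext x y
        have h1 : (μ • b + ν • a) ((P (X (x : V)) : W) : V) ((P (X (y : V)) : W) : V) =
            (μ • b + ν • a) (X (x : V)) (X (y : V)) := by
          rw [← red_left μ ν (hP2 (X (x : V))), ← red_right hb ha μ ν (hP2 (X (y : V)))]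
        change (μ • b + ν • a) (X x) (X y) + p * (ρ • b + τ • a) x y +
          q * (μ • b + ν • a) x y = (μ • b + ν • a) ((P (X (x : V)) : W) : V)
            ((P (X (y : V)) : W) : V) + p * (ρ • b + τ • a) x y +
          q * (μ • b + ν • a) x y
        rw [h1]
      rw [← e2, ← e, ← hcn, ← rad_kap hb ha W hW]
      exact hn
  · intro hC μ ν ρ τ hdet hK
    obtain ⟨X, hX, p, q, hn⟩ := hC μ ν ρ τ hdet ((rad_kmin hb ha W hW μ ν).mp hK)
    have hXv : ∀ x y : V, (μ • b + ν • a) x ((W.subtype.comp (X.comp P)) y) =
        (ρ • b + τ • a) x y := by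
      intro x y
      have h1 : (μ • b + ν • a) x ((X (P y) : W) : V) =
          (μ • b + ν • a) ((P x : W) : V) ((X (P y) : W) : V) :=
        red_left μ ν (hP2 x) _
      have h2 : (μ • b + ν • a) ((P x : W) : V) ((X (P y) : W) : V) =
          (ρ • b + τ • a) ((P x : W) : V) ((P y : W) : V) := hX (P x) (P y)
      have h3 : (ρ • b + τ • a) ((P x : W) : V) ((P y : W) : V) = (ρ • b + τ • a) x y := by
        rw [← red_left ρ τ (hP2 x), ← red_right hb ha ρ τ (hP2 y)]
      exact h1.trans (h2.trans h3)
    refine ⟨W.subtype.comp (X.comp P), hXv, p, q, ?_⟩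
    have e : nn (tt (μ • b + ν • a) (W.subtype.comp (X.comp P)) + p • (ρ • b + τ • a) +
          q • (μ • b + ν • a)) ⊤ =
        nn (rs (tt (μ • b + ν • a) (W.subtype.comp (X.comp P)) + p • (ρ • b + τ • a) +
          q • (μ • b + ν • a)) W) ⊤ := by
      apply rad_nn (b := b) (a := a) (hF _ μ ν ρ τ p q) W hW
      intro x hx y
      have h1 : (μ • b + ν • a) ((W.subtype.comp (X.comp P)) x)
          ((W.subtype.comp (X.comp P)) y) = 0 := by
        have : (W.subtype.comp (X.comp P)) x = 0 := by
          simp [hPK x hx]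
        rw [this, map_zero, LinearMap.zero_apply]
      have h2 := ker_left ρ τ hx y
      have h3 := ker_left μ ν hx y
      change (μ • b + ν • a) ((W.subtype.comp (X.comp P)) x) ((W.subtype.comp (X.comp P)) y) +
        p * (ρ • b + τ • a) x y + q * (μ • b + ν • a) x y = 0
      rw [h1, h2, h3]; ring
    have e2 : rs (tt (μ • b + ν • a) (W.subtype.comp (X.comp P)) + p • (ρ • b + τ • a) +
          q • (μ • b + ν • a)) W =
        tt (μ • rs b W + ν • rs a W) X +
          p • (ρ • rs b W + τ • rs a W) + q • (μ • rs b W + ν • rs a W) := by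
      ext x y
      change (μ • b + ν • a) ((X (P (x : V)) : W) : V) ((X (P (y : V)) : W) : V) +
          p * (ρ • b + τ • a) x y + q * (μ • b + ν • a) x y =
        (μ • b + ν • a) ((X x : W) : V) ((X y : W) : V) + p * (ρ • b + τ • a) x y +
          q * (μ • b + ν • a) x y
      rw [hP1, hP1]
    rw [e, e2, hcn, rad_kap hb ha W hW]
    exact hn
end

section
/-! Pairs of quaternionic hermitian forms.  A right quaternionic space is a module over `Q`, the
opposite of the quaternions.  A quaternionic hermitian form `h` is represented by its real part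
`b x y = Re h x y`, a real bilinear symmetric form with `b (q • x) y = b x (star q • y)`.
Subspaces are `Submodule Q V`, dimension is `Module.finrank Q`. -/
open scoped Quaternion
variable {V : Type} [AddCommGroup V] [Module Q V] [Module ℝ V] [IsScalarTower ℝ Q V]


theorem main0 [FiniteDimensional Q V] {b a : BF V} (hb : IsF b) (ha : IsF a)
    (hK : NoRad b a) : PP b a ↔ SD b a ∨ (Reg b a ∧ Crit b a) := by
  constructor
  · intro hP
    by_cases hSD : SD b a
    · exact Or.inl hSD
    · right
      by_cases hreg : ∃ μ ν : ℝ, Nd (μ • b + ν • a)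
      · obtain ⟨μ, ν, h⟩ := hreg
        exact ⟨⟨μ, ν, (kmin_iff ⟨μ, ν, h⟩ _).2 h⟩, nec hb ha ⟨μ, ν, h⟩ hSD hP⟩
      · push Not at hreg
        exact absurd hP (singular_fails hb ha hK hreg)
  · rintro (hSD | ⟨⟨μ, ν, hk⟩, hC⟩)
    · exact suff_sd hb ha hSD
    · have hreg : ∃ μ ν : ℝ, Nd (μ • b + ν • a) :=
        ⟨μ, ν, fun x hx => hK x (hk x hx).1 (hk x hx).2⟩
      intro M N hM hN
      rw [suff hb ha hreg hC hM, suff hb ha hreg hC hN]
end

section
/-! Pairs of quaternionic hermitian forms.  A right quaternionic space is a module over `Q`, the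
opposite of the quaternions.  A quaternionic hermitian form `h` is represented by its real part
`b x y = Re h x y`, a real bilinear symmetric form with `b (q • x) y = b x (star q • y)`.
Subspaces are `Submodule Q V`, dimension is `Module.finrank Q`. -/
open scoped Quaternion
variable {V : Type} [AddCommGroup V] [Module Q V] [Module ℝ V] [IsScalarTower ℝ Q V]


theorem main [FiniteDimensional Q V] {b a : BF V} (hb : IsF b) (ha : IsF a) :
    PP b a ↔ SD b a ∨ (Reg b a ∧ Crit b a) := by
  obtain ⟨W, hW⟩ := radCompl_exists hb ha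
  have h0 := main0 (isF_rs hb W) (isF_rs ha W) (rad_norad hb ha W hW)
  have hreg : Reg b a ↔ Reg (rs b W) (rs a W) := by
    unfold Reg
    constructor
    · rintro ⟨μ, ν, h⟩
      exact ⟨μ, ν, (rad_kmin hb ha W hW μ ν).mp h⟩
    · rintro ⟨μ, ν, h⟩
      exact ⟨μ, ν, (rad_kmin hb ha W hW μ ν).mpr h⟩
  rw [rad_pp hb ha W hW, rad_sd hb ha W hW, hreg, rad_crit hb ha W hW]
  exact h0
end

end Pool.QN
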