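import Pool.Agent.Helper9.QN.Defs2
import Pool.Agent.Helper9.QP.A1
import Pool.Agent.Helper9.QP.B2
import Pool.Agent.Helper9.QP.G1
import Pool.Agent.Helper9.QP.G2
import Pool.Agent.Helper9.QP.T1
import Pool.Agent.Helper9.QP.T2
import Pool.Agent.Helper9.QP.T5

set_option autoImplicit false
set_option maxHeartbeats 1000000

namespace Pool.QN

section
/-! Pairs of quaternionic hermitian forms.  A right quaternionic space is a module over `Q`, the
opposite of the quaternions.  A quaternionic hermitian form `h` is represented by its real part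
`b x y = Re h x y`, a real bilinear symmetric form with `b (q • x) y = b x (star q • y)`.
Subspaces are `Submodule Q V`, dimension is `Module.finrank Q`. -/
open scoped Quaternion
variable {V : Type} [AddCommGroup V] [Module Q V] [Module ℝ V] [IsScalarTower ℝ Q V]


open Classical in
theorem wsII_cnt (p : Piece → Prop) (P : Piece) (L : List Piece) :
    (cnt p (P :: L) : ℤ) = (if p P then 1 else 0) + cnt p L := by
  unfold cnt
  rw [List.countP_cons]
  by_cases h : p P
  · simp [h, add_comm]
  · simp [h]

theorem wsII_ws (w : Piece → ℤ) (P : Piece) (L : List Piece) :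
    ws w (P :: L) = w P + ws w L := by
  simp [ws]

open Classical in
theorem wsII_pt (r1 r2 : ℝ) (h12 : r1 < r2) (P : Piece) (h : shII r1 r2 P) :
    wA1 r1 P = (if ∃ x, x < r1 ∧ P = Piece.ray true x then 1 else 0) +
      (if P = Piece.ray true r1 then 1 else 0) -
      ((if ∃ z, r1 < z ∧ z < r2 ∧ P = Piece.ray false z then 1 else 0) +
        (if P = Piece.ray false r1 then 1 else 0) + (if P = Piece.ray false r2 then 1 else 0)) -
      (if P = Piece.b2 true r2 then 1 else 0) ∧
    wA2 r1 r2 P = (if ∃ x, x < r1 ∧ P = Piece.ray true x then 1 else 0) +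
      (if P = Piece.ray true r1 then 1 else 0) -
      (if ∃ x, r2 < x ∧ P = Piece.ray true x then 1 else 0) -
      ((if ∃ z, r1 < z ∧ z < r2 ∧ P = Piece.ray false z then 1 else 0) +
        (if P = Piece.ray false r1 then 1 else 0)) -
      (if P = Piece.b2 true r2 then 1 else 0) ∧
    wB1 r2 P = (if ∃ x, r2 < x ∧ P = Piece.ray true x then 1 else 0) +
      (if P = Piece.ray true r2 then 1 else 0) -
      ((if ∃ z, r1 < z ∧ z < r2 ∧ P = Piece.ray false z then 1 else 0) +
        (if P = Piece.ray false r1 then 1 else 0) + (if P = Piece.ray false r2 then 1 else 0)) -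
      (if P = Piece.b2 false r1 then 1 else 0) ∧
    wB2 r1 r2 P = (if ∃ x, r2 < x ∧ P = Piece.ray true x then 1 else 0) +
      (if P = Piece.ray true r2 then 1 else 0) -
      (if ∃ x, x < r1 ∧ P = Piece.ray true x then 1 else 0) -
      ((if ∃ z, r1 < z ∧ z < r2 ∧ P = Piece.ray false z then 1 else 0) +
        (if P = Piece.ray false r2 then 1 else 0)) -
      (if P = Piece.b2 false r1 then 1 else 0) := by
  rcases P with ⟨e, x⟩ | ⟨r, s⟩ | ⟨e, r⟩ | r
  · cases e
    · simp only [shII] at h
      obtain ⟨h1, h2⟩ := h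
      rcases h1.eq_or_lt with h3 | h3
      · subst h3
        have h4 : r1 ≠ r2 := h12.ne
        simp [wA1, wA2, wB1, wB2, h4]
      · rcases h2.eq_or_lt with h5 | h5
        · subst h5
          simp [wA1, wA2, wB1, wB2, h3.ne']
        · simp [wA1, wA2, wB1, wB2, h3.ne', h5.ne, h3, h5]
    · simp only [shII] at h
      rcases h with h | h
      · rcases h.eq_or_lt with h3 | h3
        · subst h3
          simp [wA1, wA2, wB1, wB2, h12.ne, h12.not_ge, h12.le, not_lt.2 h12.le]
        · simp [wA1, wA2, wB1, wB2, h3.ne, h3, h, (h3.trans h12).ne, not_le.2 (h3.trans h12),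
            not_lt.2 (h3.trans h12).le]
      · rcases h.eq_or_lt with h3 | h3
        · subst h3
          simp [wA1, wA2, wB1, wB2, h12.ne', h12.not_ge, h12.le, not_lt.2 h12.le]
        · simp [wA1, wA2, wB1, wB2, h3.ne', h3, h, (h12.trans h3).ne', not_le.2 (h12.trans h3),
            not_lt.2 (h12.trans h3).le]
  · simp only [shII] at h
  · cases e
    · simp only [shII] at h
      subst h
      simp [wA1, wA2, wB1, wB2]
    · simp only [shII] at h
      subst h
      simp [wA1, wA2, wB1, wB2]
  · simp only [shII] at h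

theorem wsII_sum (r1 r2 : ℝ) (h12 : r1 < r2) (L : List Piece) (hL : ∀ P ∈ L, shII r1 r2 P) :
    ws (wA1 r1) L = cnt (fun P => ∃ x, x < r1 ∧ P = Piece.ray true x) L +
      cnt (fun P => P = Piece.ray true r1) L -
      ((cnt (fun P => ∃ z, r1 < z ∧ z < r2 ∧ P = Piece.ray false z) L : ℤ) +
        cnt (fun P => P = Piece.ray false r1) L + cnt (fun P => P = Piece.ray false r2) L) -
      cnt (fun P => P = Piece.b2 true r2) L ∧
    ws (wA2 r1 r2) L = cnt (fun P => ∃ x, x < r1 ∧ P = Piece.ray true x) L +
      cnt (fun P => P = Piece.ray true r1) L -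
      cnt (fun P => ∃ x, r2 < x ∧ P = Piece.ray true x) L -
      ((cnt (fun P => ∃ z, r1 < z ∧ z < r2 ∧ P = Piece.ray false z) L : ℤ) +
        cnt (fun P => P = Piece.ray false r1) L) -
      cnt (fun P => P = Piece.b2 true r2) L ∧
    ws (wB1 r2) L = cnt (fun P => ∃ x, r2 < x ∧ P = Piece.ray true x) L +
      cnt (fun P => P = Piece.ray true r2) L -
      ((cnt (fun P => ∃ z, r1 < z ∧ z < r2 ∧ P = Piece.ray false z) L : ℤ) +
        cnt (fun P => P = Piece.ray false r1) L + cnt (fun P => P = Piece.ray false r2) L) -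
      cnt (fun P => P = Piece.b2 false r1) L ∧
    ws (wB2 r1 r2) L = cnt (fun P => ∃ x, r2 < x ∧ P = Piece.ray true x) L +
      cnt (fun P => P = Piece.ray true r2) L -
      cnt (fun P => ∃ x, x < r1 ∧ P = Piece.ray true x) L -
      ((cnt (fun P => ∃ z, r1 < z ∧ z < r2 ∧ P = Piece.ray false z) L : ℤ) +
        cnt (fun P => P = Piece.ray false r2) L) -
      cnt (fun P => P = Piece.b2 false r1) L := by
  induction L with
  | nil => simp [ws, cnt]
  | cons P L ih =>
    obtain ⟨i1, i2, i3, i4⟩ := ih fun Q hQ => hL Q (List.mem_cons_of_mem _ hQ)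
    obtain ⟨h1, h2, h3, h4⟩ := wsII_pt r1 r2 h12 P (hL P (by simp))
    simp only [wsII_ws, wsII_cnt, i1, i2, i3, i4, h1, h2, h3, h4]
    refine ⟨?_, ?_, ?_, ?_⟩ <;> ring

theorem ws_adm_II (r1 r2 : ℝ) (h12 : r1 < r2) (L : List Piece) (hL : ∀ P ∈ L, shII r1 r2 P) :
    ((0 ≤ ws (wA1 r1) L ∨ 0 ≤ ws (wA2 r1 r2) L) ∧ (0 ≤ ws (wB1 r2) L ∨ 0 ≤ ws (wB2 r1 r2) L)) ↔
    (cnt (fun p => ∃ z, r1 < z ∧ z < r2 ∧ p = Piece.ray false z) L
      + cnt (fun p => p = Piece.ray false r1) L + cnt (fun p => p = Piece.b2 true r2) L
      + min (cnt (fun p => ∃ x, r2 < x ∧ p = Piece.ray true x) L)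
          (cnt (fun p => p = Piece.ray false r2) L)
      ≤ cnt (fun p => ∃ x, x < r1 ∧ p = Piece.ray true x) L
        + cnt (fun p => p = Piece.ray true r1) L ∧
    cnt (fun p => ∃ z, r1 < z ∧ z < r2 ∧ p = Piece.ray false z) L
      + cnt (fun p => p = Piece.ray false r2) L + cnt (fun p => p = Piece.b2 false r1) L
      + min (cnt (fun p => ∃ x, x < r1 ∧ p = Piece.ray true x) L)
          (cnt (fun p => p = Piece.ray false r1) L)
      ≤ cnt (fun p => ∃ x, r2 < x ∧ p = Piece.ray true x) L
        + cnt (fun p => p = Piece.ray true r2) L) := by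
  obtain ⟨i1, i2, i3, i4⟩ := wsII_sum r1 r2 h12 L hL
  rw [i1, i2, i3, i4]
  omega
end

section
/-! Pairs of quaternionic hermitian forms.  A right quaternionic space is a module over `Q`, the
opposite of the quaternions.  A quaternionic hermitian form `h` is represented by its real part
`b x y = Re h x y`, a real bilinear symmetric form with `b (q • x) y = b x (star q • y)`.
Subspaces are `Submodule Q V`, dimension is `Module.finrank Q`. -/
open scoped Quaternion
variable {V : Type} [AddCommGroup V] [Module Q V] [Module ℝ V] [IsScalarTower ℝ Q V]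


open Classical in
theorem ws3_cons (p : Piece → Prop) (P : Piece) (L : List Piece) :
    cnt p (P :: L) = cnt p L + (if p P then 1 else 0) := by
  unfold cnt
  rw [List.countP_cons]
  by_cases h : p P <;> simp [h]

theorem ws3_wcons (w : Piece → ℤ) (P : Piece) (L : List Piece) :
    ws w (P :: L) = w P + ws w L := by
  unfold ws
  simp

theorem ws3_key (r : ℝ) (L : List Piece) (hL : ∀ P ∈ L, shIII r P) :
    ws (wC1 r) L = cnt (fun p => p = Piece.ray true r) L - cnt (fun p => p = Piece.ray false r) L ∧
    ws (wC2 r) L = cnt (fun p => p = Piece.ray true r) L +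
      cnt (fun p => ∃ x, r < x ∧ p = Piece.ray true x) L
      - cnt (fun p => p = Piece.ray false r) L - cnt (fun p => p = Piece.b2 false r) L ∧
    ws (wC3 r) L = cnt (fun p => p = Piece.ray true r) L +
      cnt (fun p => ∃ x, x < r ∧ p = Piece.ray true x) L
      - cnt (fun p => p = Piece.ray false r) L - cnt (fun p => p = Piece.b2 true r) L := by
  classical
  induction L with
  | nil => simp [ws, cnt]
  | cons P L ih =>
    obtain ⟨i1, i2, i3⟩ := ih fun P' hP' => hL P' (List.mem_cons_of_mem _ hP')
    have hP := hL P List.mem_cons_self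
    simp only [ws3_wcons, ws3_cons, i1, i2, i3]
    rcases P with ⟨e, x⟩ | ⟨a, b⟩ | ⟨e, x⟩ | ⟨x⟩
    · cases e
      · have hx : x = r := hP
        subst hx
        simp [wC1, wC2, wC3]
        refine ⟨?_, ?_, ?_⟩ <;> ring
      · rcases lt_trichotomy x r with h | h | h
        · simp [wC1, wC2, wC3, h.ne, h.le, h, not_le.2 h, not_lt.2 h.le]
          ring
        · subst h
          simp [wC1, wC2, wC3]
          refine ⟨?_, ?_, ?_⟩ <;> ring
        · simp [wC1, wC2, wC3, h.ne', h.le, h, not_le.2 h, not_lt.2 h.le]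
          ring
    · exact absurd hP (by simp [shIII])
    · have hx : x = r := by cases e <;> exact hP
      subst hx
      cases e
      · simp [wC1, wC2, wC3]
        ring
      · simp [wC1, wC2, wC3]
        ring
    · simp [wC1, wC2, wC3]

theorem ws_adm_III (r : ℝ) (L : List Piece) (hL : ∀ P ∈ L, shIII r P) :
    ((0 ≤ ws (wC1 r) L ∨ 0 ≤ ws (wC2 r) L) ∧ (0 ≤ ws (wC1 r) L ∨ 0 ≤ ws (wC3 r) L)) ↔
    cnt (fun p => p = Piece.ray false r) L ≤ cnt (fun p => p = Piece.ray true r) L +
      min (cnt (fun p => ∃ x, r < x ∧ p = Piece.ray true x) L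
            - cnt (fun p => p = Piece.b2 false r) L)
          (cnt (fun p => ∃ x, x < r ∧ p = Piece.ray true x) L
            - cnt (fun p => p = Piece.b2 true r) L) := by
  obtain ⟨i1, i2, i3⟩ := ws3_key r L hL
  rw [i1, i2, i3]
  omega
end

section
/-! Pairs of quaternionic hermitian forms.  A right quaternionic space is a module over `Q`, the
opposite of the quaternions.  A quaternionic hermitian form `h` is represented by its real part
`b x y = Re h x y`, a real bilinear symmetric form with `b (q • x) y = b x (star q • y)`.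
Subspaces are `Submodule Q V`, dimension is `Module.finrank Q`. -/
open scoped Quaternion
variable {V : Type} [AddCommGroup V] [Module Q V] [Module ℝ V] [IsScalarTower ℝ Q V]


theorem cval_21613 (r s t : ℝ) (ht : t = s ∨ t = -s) :
    cval (Polynomial.X ^ 2 + Polynomial.C (-2 * r) * Polynomial.X + Polynomial.C (r ^ 2 + s ^ 2)) r t
      = 0 := by
  have hI : Complex.I ^ 2 = -1 := Complex.I_sq
  unfold cval
  rw [map_add, map_add, map_mul, map_pow, Polynomial.aeval_X, Polynomial.aeval_C, Polynomial.aeval_C]
  show ((r : ℂ) + (t : ℂ) * Complex.I) ^ 2 + ((-2 * r : ℝ) : ℂ) * ((r : ℂ) + (t : ℂ) * Complex.I) +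
    ((r ^ 2 + s ^ 2 : ℝ) : ℂ) = 0
  have ht2 : (t : ℂ) ^ 2 = (s : ℂ) ^ 2 := by
    rcases ht with h | h
    · rw [h]
    · rw [h]
      push_cast
      ring
  push_cast
  linear_combination (t : ℂ) ^ 2 * hI - ht2

theorem adm_lcrit (L : List Piece) (h : Adm L) : LCrit L := by
  rcases h with ⟨r, s, hs, hL⟩ | ⟨r1, r2, h12, hL, hA, hB⟩ | ⟨r, hL, hA⟩
  · have hs2 : 0 < s ^ 2 := by positivity
    refine lcrit_I (-2 * r) (r ^ 2 + s ^ 2) (by nlinarith) L ?_
    intro P hP
    rcases hL P hP with ⟨x, rfl⟩ | rfl | rfl
    · trivial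
    · exact ⟨hs, cval_21613 r s s (Or.inl rfl)⟩
    · exact ⟨neg_ne_zero.2 hs, cval_21613 r s (-s) (Or.inr rfl)⟩
  · obtain ⟨h1, h2⟩ := (ws_adm_II r1 r2 h12 L hL).2 ⟨hA, hB⟩
    exact lcrit_II r1 r2 h12 L hL h1 h2
  · obtain ⟨h1, h2⟩ := (ws_adm_III r L hL).2 hA
    exact lcrit_III r L hL h1 h2
end

section
/-! Pairs of quaternionic hermitian forms.  A right quaternionic space is a module over `Q`, the
opposite of the quaternions.  A quaternionic hermitian form `h` is represented by its real part
`b x y = Re h x y`, a real bilinear symmetric form with `b (q • x) y = b x (star q • y)`.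
Subspaces are `Submodule Q V`, dimension is `Module.finrank Q`. -/
open scoped Quaternion
variable {V : Type} [AddCommGroup V] [Module Q V] [Module ℝ V] [IsScalarTower ℝ Q V]


theorem ag_cnt {p : Piece → Prop} {L : List Piece} (h : cnt p L = 0) : ∀ P ∈ L, ¬ p P := by
  intro P hP
  unfold cnt at h
  rw [List.countP_eq_zero] at h
  have := h P hP
  simpa using this

theorem ag_III [FiniteDimensional Q V] {b : BF V} (hb : IsF b) (hnd : Nd b)
    {X : V →ₗ[Q] V} (hX : SA b X) (hP : PP b (tw b X)) (l : List (Piece × V))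
    (hl : IsNF b X l ⊤) (hk : nn b ⊤ = kap b (tw b X)) (r : ℝ)
    (hsh : ∀ P ∈ l.map Prod.fst, shIII r P) : Adm (l.map Prod.fst) := by
  right; right
  exact ⟨r, hsh, (ws_adm_III r _ hsh).1 ⟨cond_III hb hnd hX hP l hl hk r hsh,
    cond_III' hb hnd hX hP l hl hk r hsh⟩⟩

theorem ag_cval (p q r s : ℝ) (hs : s ≠ 0)
    (h : cval (Polynomial.X ^ 2 + Polynomial.C p * Polynomial.X + Polynomial.C q) r s = 0) :
    r = -p / 2 ∧ s ^ 2 = q - p ^ 2 / 4 := by
  unfold cval at h
  simp only [map_add, map_mul, map_pow, Polynomial.aeval_X, Polynomial.aeval_C] at h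
  have hre := congrArg Complex.re h
  have him := congrArg Complex.im h
  simp [pow_two] at hre him
  have h1 : r = -p / 2 := by
    have h2 : s * (2 * r + p) = 0 := by linarith
    rcases mul_eq_zero.1 h2 with h3 | h3
    · exact absurd h3 hs
    · linarith
  refine ⟨h1, ?_⟩
  rw [h1] at hre
  nlinarith

/-- a good pair with the property has an admissible normal form -/
theorem adm_good [FiniteDimensional Q V] {b : BF V} (hb : IsF b) (hnd : Nd b)
    {X : V →ₗ[Q] V} (hX : SA b X) (hP : PP b (tw b X)) (hk : nn b ⊤ = kap b (tw b X))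
    (p q : ℝ) (hg : ∀ x, 0 ≤ (tt b X + p • tw b X + q • b) x x) :
    ∃ l : List (Piece × V), IsNF b X l ⊤ ∧ Adm (l.map Prod.fst) := by
  obtain ⟨l, hl⟩ := nf_exists hb hnd hX p q hg
  have hcx := nf_cx l ⊤ hl
  have hgood := nf_good hb hX p q hg l hl
  refine ⟨l, hl, ?_⟩
  rcases lt_trichotomy (p ^ 2) (4 * q) with hd | hd | hd
  · left
    have hpos : 0 < q - p ^ 2 / 4 := by linarith
    have hsq : Real.sqrt (q - p ^ 2 / 4) ^ 2 = q - p ^ 2 / 4 := Real.sq_sqrt hpos.le
    refine ⟨-p / 2, Real.sqrt (q - p ^ 2 / 4), (Real.sqrt_pos.2 hpos).ne', ?_⟩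
    intro P hPm
    have h1 := shape_I p q hd P (hgood P hPm) (fun r s => hcx P hPm r s)
    cases P with
    | ray e x =>
      cases e with
      | true => exact Or.inl ⟨x, rfl⟩
      | false => exact absurd h1 id
    | cx r s =>
      obtain ⟨hs, hc⟩ := h1
      obtain ⟨e1, e2⟩ := ag_cval p q r s hs hc
      right
      rw [← hsq] at e2
      rcases sq_eq_sq_iff_eq_or_eq_neg.1 e2 with e3 | e3
      · left; rw [e1, e3]
      · right; rw [e1, e3]
    | b2 e r => exact absurd h1 id
    | b3 r => exact absurd h1 id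
  · have hpoly : (Polynomial.X ^ 2 + Polynomial.C p * Polynomial.X + Polynomial.C q :
        Polynomial ℝ) = (Polynomial.X - Polynomial.C (-p / 2)) *
          (Polynomial.X - Polynomial.C (-p / 2)) := by
      have hq : q = (-p / 2) * (-p / 2) := by linarith
      have hp2 : p = -((-p / 2) + (-p / 2)) := by ring
      have e1 : Polynomial.C q = Polynomial.C (-p / 2) * Polynomial.C (-p / 2) := by
        rw [← map_mul, ← hq]
      have e2 : Polynomial.C p = -(Polynomial.C (-p / 2) + Polynomial.C (-p / 2)) := by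
        rw [← map_add, ← map_neg, ← hp2]
      rw [e1, e2]
      ring
    apply ag_III hb hnd hX hP l hl hk (-p / 2)
    intro P hPm
    apply shape_III _ P _ (fun r s => hcx P hPm r s)
    rw [← hpoly]
    exact hgood P hPm
  · set δ := Real.sqrt (p ^ 2 - 4 * q) with hδ
    have hδ0 : 0 < δ := Real.sqrt_pos.2 (by linarith)
    have hδ2 : δ ^ 2 = p ^ 2 - 4 * q := Real.sq_sqrt (by linarith)
    set r1 := (-p - δ) / 2 with hr1
    set r2 := (-p + δ) / 2 with hr2
    have h12 : r1 < r2 := by rw [hr1, hr2]; linarith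
    have hpoly : (Polynomial.X ^ 2 + Polynomial.C p * Polynomial.X + Polynomial.C q :
        Polynomial ℝ) = (Polynomial.X - Polynomial.C r1) *
          (Polynomial.X - Polynomial.C r2) := by
      have hq : q = r1 * r2 := by rw [hr1, hr2]; linarith
      have hp2 : p = -(r1 + r2) := by rw [hr1, hr2]; ring
      have e1 : Polynomial.C q = Polynomial.C r1 * Polynomial.C r2 := by
        rw [← map_mul, ← hq]
      have e2 : Polynomial.C p = -(Polynomial.C r1 + Polynomial.C r2) := by
        rw [← map_add, ← map_neg, ← hp2]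
      rw [e1, e2]
      ring
    have hsh : ∀ P ∈ l.map Prod.fst, shII r1 r2 P := by
      intro P hPm
      apply shape_II r1 r2 h12 P _ (fun r s => hcx P hPm r s)
      rw [← hpoly]
      exact hgood P hPm
    rcases alpha_II hb hnd hX hP l hl hk r1 r2 h12 hsh with ⟨hA1, hA2⟩ | hA
    · apply ag_III hb hnd hX hP l hl hk r2
      intro P hPm
      have h1 := hsh P hPm
      have h2 := ag_cnt hA1 P hPm
      have h3 := ag_cnt hA2 P hPm
      cases P with
      | ray e x =>
        cases e with
        | true => exact trivial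
        | false =>
          show x = r2
          by_contra hcon
          exact h2 hcon
      | cx r s => exact absurd h1 id
      | b2 e r =>
        cases e with
        | true => exact h1
        | false => exact absurd rfl h3
      | b3 r => exact absurd h1 id
    · rcases beta_II hb hnd hX hP l hl hk r1 r2 h12 hsh with ⟨hB1, hB2⟩ | hB
      · apply ag_III hb hnd hX hP l hl hk r1
        intro P hPm
        have h1 := hsh P hPm
        have h2 := ag_cnt hB1 P hPm
        have h3 := ag_cnt hB2 P hPm
        cases P with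
        | ray e x =>
          cases e with
          | true => exact trivial
          | false =>
            show x = r1
            by_contra hcon
            exact h2 hcon
        | cx r s => exact absurd h1 id
        | b2 e r =>
          cases e with
          | true => exact absurd rfl h3
          | false => exact h1
        | b3 r => exact absurd h1 id
      · right; left
        obtain ⟨c1, c2⟩ := (ws_adm_II r1 r2 h12 _ hsh).1 ⟨hA, hB⟩
        exact ⟨r1, r2, h12, hsh, c1, c2⟩
end

section
/-! Pairs of quaternionic hermitian forms.  A right quaternionic space is a module over `Q`, the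
opposite of the quaternions.  A quaternionic hermitian form `h` is represented by its real part
`b x y = Re h x y`, a real bilinear symmetric form with `b (q • x) y = b x (star q • y)`.
Subspaces are `Submodule Q V`, dimension is `Module.finrank Q`. -/
open scoped Quaternion
variable {V : Type} [AddCommGroup V] [Module Q V] [Module ℝ V] [IsScalarTower ℝ Q V]


theorem kap_of_lcrit [FiniteDimensional Q V] {b : BF V} (hb : IsF b) (hnd : Nd b)
    {X : V →ₗ[Q] V} (hX : SA b X) (l : List (Piece × V)) (hl : IsNF b X l ⊤)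
    (hL : LCrit (l.map Prod.fst)) : nn b ⊤ = kap b (tw b X) := by
  have h10 : (1 : ℝ) • b + (0 : ℝ) • tw b X = b := by simp
  have hreg : ∃ μ ν : ℝ, Nd (μ • b + ν • tw b X) := ⟨1, 0, by rw [h10]; exact hnd⟩
  obtain ⟨⟨μ, ν, hE, hk⟩, hle⟩ := kap_spec hreg
  have h1 := hle 1 0 (by rw [h10]; exact hnd)
  rw [h10] at h1
  refine le_antisymm ?_ h1
  rw [← hk]
  have hEm : tw b (Polynomial.aeval (R := ℝ) (A := Module.End Q V) X
      (Polynomial.C μ + Polynomial.C ν * Polynomial.X)) = μ • b + ν • tw b X := by
    ext x y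
    simp [tw, LinearMap.compl₂_apply]
  have hb1 := nn_one hb hX l hl
  have hEt : nn (μ • b + ν • tw b X) ⊤ =
      tot (Polynomial.C μ + Polynomial.C ν * Polynomial.X) (l.map Prod.fst) := by
    rw [← hEm]
    exact nn_nf hb hX _ l ⊤ hl
  by_cases hν : ν = 0
  · subst hν
    rcases lt_trichotomy μ 0 with hμ | hμ | hμ
    · obtain ⟨h, -, -, h3⟩ := hL.1 (-1) (Or.inr rfl)
      have h4 : tot (Polynomial.C μ + Polynomial.C (0 : ℝ) * Polynomial.X) (l.map Prod.fst) =
          tot (Polynomial.C (-1)) (l.map Prod.fst) := by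
        rw [← tot_scale (-μ) (by linarith) (Polynomial.C (-1))]
        congr 1
        rw [← Polynomial.C_mul]
        simp
      rw [hEt, h4, hb1]
      omega
    · subst hμ
      have h5 : ∀ x : V, x = 0 := by
        intro x
        apply hE x
        intro y
        simp
      have h6 : b = (0 : ℝ) • b + (0 : ℝ) • tw b X := by
        ext x y
        rw [h5 x]
        simp
      rw [← h6]
    · have h4 : tot (Polynomial.C μ + Polynomial.C (0 : ℝ) * Polynomial.X) (l.map Prod.fst) =
          tot 1 (l.map Prod.fst) := by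
        rw [← tot_scale μ hμ 1]
        congr 1
        simp
      rw [hEt, h4, hb1]
  · have hav := av_of_nd hb hX l hl (-μ / ν) (by
      intro v hv
      apply hE v
      intro y
      have h7 : X v = (-μ / ν) • v := by
        have : X v - (-μ / ν) • v = 0 := by simpa [sh] using hv
        exact sub_eq_zero.1 this
      have h8 : (μ • b + ν • tw b X) v y = μ * b v y + ν * b v (X y) := by
        simp [tw, LinearMap.compl₂_apply]
      rw [h8, ← hX v y, h7, map_smul, LinearMap.smul_apply, smul_eq_mul]
      field_simp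
      ring)
    have hkey : ∀ σ c : ℝ, (σ = 1 ∨ σ = -1) → 0 < c → c * σ = ν →
        tot 1 (l.map Prod.fst) ≤
          tot (Polynomial.C μ + Polynomial.C ν * Polynomial.X) (l.map Prod.fst) := by
      intro σ c hσ hc hcs
      obtain ⟨h, -, -, h3⟩ := hL.2 σ (-μ / ν) hσ hav
      have h4 : tot (Polynomial.C μ + Polynomial.C ν * Polynomial.X) (l.map Prod.fst) =
          tot (Polynomial.C σ * (Polynomial.X - Polynomial.C (-μ / ν))) (l.map Prod.fst) := by
        rw [← tot_scale c hc (Polynomial.C σ * (Polynomial.X - Polynomial.C (-μ / ν)))]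
        congr 1
        rw [← mul_assoc, ← Polynomial.C_mul, hcs, mul_sub, ← Polynomial.C_mul,
          mul_div_cancel₀ _ hν]
        simp
        ring
      rw [h4]
      omega
    rw [hb1, hEt]
    rcases lt_or_gt_of_ne hν with h | h
    · exact hkey (-1) (-ν) (Or.inr rfl) (by linarith) (by ring)
    · exact hkey 1 ν (Or.inl rfl) h (by ring)
end

section
/-! Pairs of quaternionic hermitian forms.  A right quaternionic space is a module over `Q`, the
opposite of the quaternions.  A quaternionic hermitian form `h` is represented by its real part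
`b x y = Re h x y`, a real bilinear symmetric form with `b (q • x) y = b x (star q • y)`.
Subspaces are `Submodule Q V`, dimension is `Module.finrank Q`. -/
open scoped Quaternion
variable {V : Type} [AddCommGroup V] [Module Q V] [Module ℝ V] [IsScalarTower ℝ Q V]


theorem adm_cx (L : List Piece) (h : Adm L) : ∀ P ∈ L, ∀ r s, P = Piece.cx r s → s ≠ 0 := by
  intro P hP r s hPrs
  rcases h with h | h | h
  · obtain ⟨r0, s0, hs0, h⟩ := h
    rcases h P hP with ⟨x, hx⟩ | hx | hx
    · rw [hPrs] at hx
      cases hx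
    · rw [hPrs] at hx
      injection hx with h1 h2
      rw [h2]
      exact hs0
    · rw [hPrs] at hx
      injection hx with h1 h2
      rw [h2]
      exact neg_ne_zero.mpr hs0
  · obtain ⟨r1, r2, _, h, _⟩ := h
    have := h P hP
    rw [hPrs] at this
    exact absurd this (by simp [shII])
  · obtain ⟨r1, h, _⟩ := h
    have := h P hP
    rw [hPrs] at this
    exact absurd this (by simp [shIII])
end

end Pool.QN
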