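import Pool.Agent.Helper9.QN.Defs2
import Pool.Agent.Helper9.QP.A1
import Pool.Agent.Helper9.QP.B2
import Pool.Agent.Helper9.QP.E2
import Pool.Agent.Helper9.QP.G1
import Pool.Agent.Helper9.QP.G2
import Pool.Agent.Helper9.QP.K1
import Pool.Agent.Helper9.QP.K2
import Pool.Agent.Helper9.QP.T2
import Pool.Agent.Helper9.QP.X1

set_option autoImplicit false
set_option maxHeartbeats 1000000

namespace Pool.QN

section
/-! Pairs of quaternionic hermitian forms.  A right quaternionic space is a module over `Q`, the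
opposite of the quaternions.  A quaternionic hermitian form `h` is represented by its real part
`b x y = Re h x y`, a real bilinear symmetric form with `b (q • x) y = b x (star q • y)`.
Subspaces are `Submodule Q V`, dimension is `Module.finrank Q`. -/
open scoped Quaternion
variable {V : Type} [AddCommGroup V] [Module Q V] [Module ℝ V] [IsScalarTower ℝ Q V]


/-- splitting off the first block -/
theorem canB_cons {c d : BF V} (hc : IsF c) (hd : IsF d) (p : Piece) (L : List Piece)
    (W U W' : Submodule Q V) (hUW : U ⊓ W' = ⊥) (hW : U ⊔ W' = W)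
    (ho : ∀ u ∈ U, ∀ w ∈ W', c u w = 0 ∧ d u w = 0)
    (v : Fin (sz p) → V) (hv : LinearIndependent Q v) (hvU : Submodule.span Q (Set.range v) = U)
    (hcd : ∀ i j, ∀ q : Q, c (v i) (q • v j) = q.unop.re * cB p i j ∧
      d (v i) (q • v j) = q.unop.re * dB p i j) (h : CanB c d W' L) : CanB c d W (p :: L) := by
  obtain ⟨v', hv', hvW, hcd'⟩ := h
  have hvmem : ∀ i, v i ∈ U := fun i => hvU ▸ Submodule.subset_span ⟨i, rfl⟩
  have hvmem' : ∀ i, v' i ∈ W' := fun i => hvW ▸ Submodule.subset_span ⟨i, rfl⟩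
  refine ⟨(Sum.elim v v' : Fin (sz p) ⊕ Ix L → V), ?_, ?_, ?_⟩
  · show LinearIndependent Q (Sum.elim v v' : Fin (sz p) ⊕ Ix L → V)
    refine hv.sum_type hv' ?_
    rw [hvU, hvW]
    exact disjoint_iff.2 hUW
  · show Submodule.span Q (Set.range (Sum.elim v v' : Fin (sz p) ⊕ Ix L → V)) = W
    rw [Set.Sum.elim_range, Submodule.span_union, hvU, hvW, hW]
  · show ∀ i j : Fin (sz p) ⊕ Ix L, ∀ q : Q, c (Sum.elim v v' i) (q • Sum.elim v v' j) =
        q.unop.re * Matrix.fromBlocks (cB p) 0 0 (cM L) i j ∧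
        d (Sum.elim v v' i) (q • Sum.elim v v' j) =
        q.unop.re * Matrix.fromBlocks (dB p) 0 0 (dM L) i j
    rintro (i | i) (j | j) q
    · simpa using hcd i j q
    · have := ho (v i) (hvmem i) (q • v' j) (W'.smul_mem q (hvmem' j))
      simpa using this
    · have h2 : c (v' i) (q • v j) = 0 := by
        rw [hc.symm]
        have := ho (q • v j) (U.smul_mem _ (hvmem j)) (v' i) (hvmem' i)
        exact this.1
      have h3 : d (v' i) (q • v j) = 0 := by
        rw [hd.symm]
        have := ho (q • v j) (U.smul_mem _ (hvmem j)) (v' i) (hvmem' i)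
        exact this.2
      simpa using ⟨h2, h3⟩
    · simpa using hcd' i j q
end

section
/-! Pairs of quaternionic hermitian forms.  A right quaternionic space is a module over `Q`, the
opposite of the quaternions.  A quaternionic hermitian form `h` is represented by its real part
`b x y = Re h x y`, a real bilinear symmetric form with `b (q • x) y = b x (star q • y)`.
Subspaces are `Submodule Q V`, dimension is `Module.finrank Q`. -/
open scoped Quaternion
variable {V : Type} [AddCommGroup V] [Module Q V] [Module ℝ V] [IsScalarTower ℝ Q V]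


theorem canB_uncons_orth {c : BF V} (hc : IsF c) {ι κ : Type} (v : ι → V) (w : κ → V)
    (h : ∀ i j, ∀ q : Q, c (v i) (q • w j) = 0) :
    ∀ x ∈ Submodule.span Q (Set.range v), ∀ y ∈ Submodule.span Q (Set.range w), c x y = 0 := by
  have h1 : ∀ x ∈ Submodule.span Q (Set.range v), ∀ j, ∀ q : Q, c x (q • w j) = 0 := by
    intro x hx
    induction hx using Submodule.span_induction with
    | mem a ha =>
      obtain ⟨i, rfl⟩ := ha
      exact h i
    | zero => intro j q; rw [map_zero, LinearMap.zero_apply]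
    | add a b _ _ ha hb => intro j q; rw [map_add, LinearMap.add_apply, ha, hb, add_zero]
    | smul r a _ ha => intro j q; rw [hc.adj, smul_smul, ha]
  intro x hx y hy
  induction hy using Submodule.span_induction generalizing x with
  | mem b hb =>
    obtain ⟨j, rfl⟩ := hb
    have := h1 x hx j 1
    rwa [one_smul] at this
  | zero => rw [map_zero]
  | add a b _ _ ha hb => rw [map_add, ha x hx, hb x hx, add_zero]
  | smul r a _ ha =>
    have h2 := hc.adj (star r) x a
    rw [star_star] at h2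
    rw [← h2]
    exact ha _ (Submodule.smul_mem _ _ hx)

theorem canB_uncons {c d : BF V} (hc : IsF c) (hd : IsF d) (p : Piece) (L : List Piece) (W : Submodule Q V)
    (h : CanB c d W (p :: L)) : ∃ U W' : Submodule Q V, U ⊓ W' = ⊥ ∧ U ⊔ W' = W ∧
      (∀ u ∈ U, ∀ w ∈ W', c u w = 0 ∧ d u w = 0) ∧ CanB c d W' L ∧
      ∃ v : Fin (sz p) → V, LinearIndependent Q v ∧ Submodule.span Q (Set.range v) = U ∧
        ∀ i j, ∀ q : Q, c (v i) (q • v j) = q.unop.re * cB p i j ∧
          d (v i) (q • v j) = q.unop.re * dB p i j := by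
  obtain ⟨v, hv, hsp, hm⟩ := h
  change Fin (sz p) ⊕ Ix L → V at v
  change LinearIndependent (ι := Fin (sz p) ⊕ Ix L) Q v at hv
  have hv' := linearIndependent_sum.1 hv
  obtain ⟨hv1, hv2, hdis⟩ := hv'
  refine ⟨Submodule.span Q (Set.range (v ∘ Sum.inl)), Submodule.span Q (Set.range (v ∘ Sum.inr)),
    disjoint_iff.1 hdis, ?_, ?_, ?_, ?_⟩
  · rw [← Submodule.span_union, ← Set.Sum.elim_range, Sum.elim_comp_inl_inr]
    exact hsp
  · intro u hu w hw
    refine ⟨canB_uncons_orth hc _ _ ?_ u hu w hw, canB_uncons_orth hd _ _ ?_ u hu w hw⟩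
    · intro i j q
      have := (hm (Sum.inl i) (Sum.inr j) q).1
      refine this.trans ?_
      change q.unop.re * 0 = 0
      rw [mul_zero]
    · intro i j q
      have := (hm (Sum.inl i) (Sum.inr j) q).2
      refine this.trans ?_
      change q.unop.re * 0 = 0
      rw [mul_zero]
  · refine ⟨v ∘ Sum.inr, hv2, rfl, ?_⟩
    intro i j q
    exact hm (Sum.inr i) (Sum.inr j) q
  · refine ⟨v ∘ Sum.inl, hv1, rfl, ?_⟩
    intro i j q
    exact hm (Sum.inl i) (Sum.inl j) q
end

section
/-! Pairs of quaternionic hermitian forms.  A right quaternionic space is a module over `Q`, the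
opposite of the quaternions.  A quaternionic hermitian form `h` is represented by its real part
`b x y = Re h x y`, a real bilinear symmetric form with `b (q • x) y = b x (star q • y)`.
Subspaces are `Submodule Q V`, dimension is `Module.finrank Q`. -/
open scoped Quaternion
variable {V : Type} [AddCommGroup V] [Module Q V] [Module ℝ V] [IsScalarTower ℝ Q V]


theorem piece_basis_sh {X : V →ₗ[Q] V} (r : ℝ) (y : V) : sh X r y = X y - r • y := rfl

theorem piece_basis_X {X : V →ₗ[Q] V} (r : ℝ) (y : V) : X y = sh X r y + r • y := by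
  rw [piece_basis_sh]; abel

theorem piece_basis_saN {b : BF V} {X : V →ₗ[Q] V} (hX : SA b X) (r : ℝ) : SA b (sh X r) := by
  intro x y
  rw [piece_basis_sh, piece_basis_sh]
  simp only [map_sub, map_smul, LinearMap.sub_apply, LinearMap.smul_apply]
  rw [hX x y]

theorem piece_basis_key {b : BF V} (hb : IsF b) {Y : V →ₗ[Q] V} (hY : SA b Y) (f : V) (q : Q) :
    b f (q • Y f) = q.unop.re * b f (Y f) := by
  have h := (self_smul (isF_tw hb hY) f q).1
  have h1 : tw b Y f (q • f) = b f (Y (q • f)) := rfl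
  have h2 : tw b Y f f = b f (Y f) := rfl
  rw [h1, h2, map_smul] at h
  exact h

/-- moments -/
theorem piece_basis_mom {b : BF V} (hb : IsF b) {N : V →ₗ[Q] V} (hN : SA b N) (f : V) (i j : ℕ)
    (q : Q) : b ((N ^ i) f) (q • (N ^ j) f) = q.unop.re * b f ((N ^ (i + j)) f) := by
  have hp : ∀ n : ℕ, ∀ x y : V, b ((N ^ n) x) y = b x ((N ^ n) y) := by
    intro n
    induction n with
    | zero => intro x y; rfl
    | succ n ih =>
      intro x y
      rw [pow_succ, Module.End.mul_apply, Module.End.mul_apply, ih, hN, ← Module.End.mul_apply,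
        ← Module.End.mul_apply, ← pow_succ, ← pow_succ']
  rw [hp, ← map_smul, ← Module.End.mul_apply, ← pow_add, map_smul]
  exact piece_basis_key hb (Y := N ^ (i + j)) (hp (i + j)) f q

theorem piece_basis_li {n : ℕ} {b : BF V} (v : Fin n → V) (M : Matrix (Fin n) (Fin n) ℝ)
    (hM : M.det ≠ 0) (h : ∀ i j, ∀ q : Q, b (v i) (q • v j) = q.unop.re * M i j) :
    LinearIndependent Q v := by
  rw [Fintype.linearIndependent_iff]
  intro g hg j
  have key : ∀ q : Q, (q * g j).unop.re = 0 := by
    intro q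
    have hv : M.mulVec (fun j => (q * g j).unop.re) = 0 := by
      funext i
      have h0 : b (v i) (q • ∑ j, g j • v j) = 0 := by rw [hg, smul_zero, map_zero]
      rw [Finset.smul_sum, map_sum] at h0
      refine Eq.trans ?_ h0
      simp only [Matrix.mulVec, dotProduct]
      refine Finset.sum_congr rfl fun k _ => ?_
      rw [← mul_smul, h i k, mul_comm]
    exact congrFun (Matrix.eq_zero_of_mulVec_eq_zero hM hv) j
  have h1 := key (star (g j))
  rw [MulOpposite.unop_mul, MulOpposite.unop_star] at h1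
  have h2 : (g j).unop * star (g j).unop = ((Quaternion.normSq (g j).unop : ℝ) : ℍ[ℝ]) :=
    Quaternion.self_mul_star _
  rw [h2, Quaternion.re_coe] at h1
  have h3 := Quaternion.normSq_eq_zero.mp h1
  exact MulOpposite.unop_injective (by rw [h3, MulOpposite.unop_zero])

theorem piece_basis_span {n : ℕ} {X : V →ₗ[Q] V} (r : ℝ) (f : V) (v : Fin n → V)
    (h0 : f ∈ Submodule.span Q (Set.range v))
    (h1 : sh X r f ∈ Submodule.span Q (Set.range v))
    (h2 : sh X r (sh X r f) ∈ Submodule.span Q (Set.range v))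
    (hv : ∀ S : Submodule Q V, f ∈ S → sh X r f ∈ S → sh X r (sh X r f) ∈ S → ∀ i, v i ∈ S) :
    Submodule.span Q (Set.range v) = cyc X f := by
  apply le_antisymm
  · rw [Submodule.span_le]
    rintro _ ⟨i, rfl⟩
    have c0 : f ∈ cyc X f := Submodule.subset_span (by simp)
    have c1 : X f ∈ cyc X f := Submodule.subset_span (by simp)
    have c2 : X (X f) ∈ cyc X f := Submodule.subset_span (by simp)
    have n1 : sh X r f ∈ cyc X f := by
      rw [piece_basis_sh]
      exact Submodule.sub_mem _ c1 (Submodule.smul_of_tower_mem _ r c0)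
    have n2 : sh X r (sh X r f) ∈ cyc X f := by
      rw [piece_basis_sh]
      refine Submodule.sub_mem _ ?_ (Submodule.smul_of_tower_mem _ r n1)
      rw [piece_basis_sh, map_sub]
      refine Submodule.sub_mem _ c2 ?_
      have : X (r • f) = r • X f := by
        have h := piece_basis_sh (X := X) 0 (r • f)
        exact LinearMap.map_smul_of_tower X r f
      rw [this]
      exact Submodule.smul_of_tower_mem _ r c1
    exact hv _ c0 n1 n2 i
  · unfold cyc
    rw [Submodule.span_le]
    intro x hx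
    simp only [Set.mem_insert_iff, Set.mem_singleton_iff] at hx
    have c1 : X f ∈ Submodule.span Q (Set.range v) := by
      rw [piece_basis_X r f]
      exact Submodule.add_mem _ h1 (Submodule.smul_of_tower_mem _ r h0)
    have c2 : X (X f) ∈ Submodule.span Q (Set.range v) := by
      have e : X (X f) = X (sh X r f) + r • X f := by
        conv_lhs => rw [piece_basis_X r f]
        rw [map_add, LinearMap.map_smul_of_tower X r f]
      rw [e, piece_basis_X r (sh X r f)]
      exact Submodule.add_mem _ (Submodule.add_mem _ h2 (Submodule.smul_of_tower_mem _ r h1))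
        (Submodule.smul_of_tower_mem _ r c1)
    rcases hx with rfl | rfl | rfl
    · exact h0
    · exact c1
    · exact c2

theorem piece_basis_sgne (e : Bool) : sg e ≠ 0 := by
  cases e <;> norm_num [sg]

/-- moments for the vectors `N^i f` -/
theorem piece_basis_ent {b : BF V} (hb : IsF b) {X : V →ₗ[Q] V} (hX : SA b X) (r : ℝ) (f : V)
    (i j : ℕ) (q : Q) :
    b (((sh X r) ^ i) f) (q • ((sh X r) ^ j) f) = q.unop.re * b f (((sh X r) ^ (i + j)) f) ∧
    tw b X (((sh X r) ^ i) f) (q • ((sh X r) ^ j) f)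
      = q.unop.re * (b f (((sh X r) ^ (i + j + 1)) f) + r * b f (((sh X r) ^ (i + j)) f)) := by
  have hN := piece_basis_saN hX r
  refine ⟨piece_basis_mom hb hN f i j q, ?_⟩
  have h1 : tw b X (((sh X r) ^ i) f) (q • ((sh X r) ^ j) f)
      = b (((sh X r) ^ i) f) (X (q • ((sh X r) ^ j) f)) := rfl
  have e2 : (sh X r) (((sh X r) ^ j) f) = ((sh X r) ^ (j + 1)) f := by
    rw [pow_succ', Module.End.mul_apply]
  have e3 : X (q • ((sh X r) ^ j) f)
      = q • ((sh X r) ^ (j + 1)) f + r • (q • ((sh X r) ^ j) f) := by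
    rw [piece_basis_X r (q • ((sh X r) ^ j) f), map_smul, e2]
  rw [h1, e3, (b _).map_add, (b _).map_smul]
  rw [piece_basis_mom hb hN f i (j + 1) q, piece_basis_mom hb hN f i j q, smul_eq_mul,
    ← add_assoc i j 1]
  ring

/-- a piece has the canonical matrices in a suitable basis -/
theorem piece_basis {b : BF V} (hb : IsF b) {X : V →ₗ[Q] V} (hX : SA b X) (p : Piece) (f : V)
    (h : IsPiece b X p f) : ∃ v : Fin (sz p) → V, LinearIndependent Q v ∧
      Submodule.span Q (Set.range v) = cyc X f ∧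
      ∀ i j, ∀ q : Q, b (v i) (q • v j) = q.unop.re * cB p i j ∧
        tw b X (v i) (q • v j) = q.unop.re * dB p i j := by
  have P0 : ∀ (N : V →ₗ[Q] V), (N ^ 0) f = f := fun N => rfl
  have P1 : ∀ (N : V →ₗ[Q] V), (N ^ 1) f = N f := fun N => by rw [pow_one]
  have P2 : ∀ (N : V →ₗ[Q] V), (N ^ 2) f = N (N f) := fun N => by
    rw [pow_two, Module.End.mul_apply]
  have PS : ∀ (N : V →ₗ[Q] V) (n : ℕ), (N ^ (n + 1)) f = (N ^ n) (N f) := fun N n => by
    rw [pow_succ, Module.End.mul_apply]
  have PS2 : ∀ (N : V →ₗ[Q] V) (n : ℕ), (N ^ (n + 2)) f = (N ^ n) (N (N f)) := fun N n => by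
    rw [pow_succ, pow_succ, Module.End.mul_apply, Module.End.mul_apply]
  have PS3 : ∀ (N : V →ₗ[Q] V) (n : ℕ), (N ^ (n + 3)) f = (N ^ n) (N (N (N f))) := fun N n => by
    rw [pow_succ, pow_succ, pow_succ, Module.End.mul_apply, Module.End.mul_apply,
      Module.End.mul_apply]
  cases p with
  | ray e x =>
    obtain ⟨h1, h2⟩ := h
    have E := piece_basis_ent hb hX x f
    have m0 : b f (((sh X x) ^ 0) f) = sg e := h1
    have m1 : ∀ n : ℕ, b f (((sh X x) ^ (n + 1)) f) = 0 := by
      intro n; rw [PS, h2, map_zero, map_zero]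
    have hent : ∀ i j : Fin (sz (Piece.ray e x)), ∀ q : Q,
        b ((fun i : Fin (sz (Piece.ray e x)) => ((sh X x) ^ (i : ℕ)) f) i)
          (q • (fun i : Fin (sz (Piece.ray e x)) => ((sh X x) ^ (i : ℕ)) f) j)
          = q.unop.re * cB (Piece.ray e x) i j ∧
        tw b X ((fun i : Fin (sz (Piece.ray e x)) => ((sh X x) ^ (i : ℕ)) f) i)
          (q • (fun i : Fin (sz (Piece.ray e x)) => ((sh X x) ^ (i : ℕ)) f) j)
          = q.unop.re * dB (Piece.ray e x) i j := by
      intro i j q
      have hi : i = (0 : Fin 1) := Subsingleton.elim (α := Fin 1) _ _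
      have hj : j = (0 : Fin 1) := Subsingleton.elim (α := Fin 1) _ _
      subst hi; subst hj
      obtain ⟨E1, E2⟩ := E 0 0 q
      refine ⟨E1.trans ?_, E2.trans ?_⟩
      · rw [m0]; rfl
      · rw [m0, m1 0]
        show _ = q.unop.re * (sg e * x)
        ring
    refine ⟨fun i => ((sh X x) ^ (i : ℕ)) f, ?_, ?_, hent⟩
    · refine piece_basis_li _ (cB (Piece.ray e x)) ?_ (fun i j q => (hent i j q).1)
      show (Matrix.det !![sg e]) ≠ 0
      rw [Matrix.det_fin_one]
      exact piece_basis_sgne e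
    · have hf : f ∈ Submodule.span Q (Set.range
          (fun i : Fin (sz (Piece.ray e x)) => ((sh X x) ^ (i : ℕ)) f)) :=
        Submodule.subset_span ⟨(0 : Fin 1), rfl⟩
      refine piece_basis_span x f _ hf ?_ ?_ ?_
      · rw [h2]; exact Submodule.zero_mem _
      · rw [h2, map_zero]; exact Submodule.zero_mem _
      · intro S s0 s1 s2 i
        have hi : i = (0 : Fin 1) := Subsingleton.elim (α := Fin 1) _ _
        subst hi
        exact s0
  | cx r s =>
    obtain ⟨hs, h1, h2, h3⟩ := h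
    have E := piece_basis_ent hb hX r f
    have m0 : b f (((sh X r) ^ 0) f) = 1 := h2
    have m1 : b f (((sh X r) ^ 1) f) = 0 := by rw [P1]; exact h3
    have m2 : b f (((sh X r) ^ 2) f) = -(s ^ 2) := by
      rw [P2, h1, map_smul, h2, smul_eq_mul, mul_one]
    have m3 : b f (((sh X r) ^ 3) f) = 0 := by
      rw [PS2 (sh X r) 1, h1, LinearMap.map_smul_of_tower, map_smul, m1, smul_zero]
    have hss : s⁻¹ * s⁻¹ * s ^ 2 = 1 := by field_simp
    have hss1 : s⁻¹ * s ^ 2 = s := by field_simp
    have L1 : ∀ (Z : V), b (s⁻¹ • sh X r f) Z = s⁻¹ * b (sh X r f) Z := fun Z => by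
      rw [b.map_smul, LinearMap.smul_apply, smul_eq_mul]
    have L2 : ∀ (W : V) (q : Q), b W (q • (s⁻¹ • sh X r f)) = s⁻¹ * b W (q • sh X r f) :=
      fun W q => by rw [smul_comm q s⁻¹ (sh X r f), (b W).map_smul, smul_eq_mul]
    have L3 : ∀ (Z : V), tw b X (s⁻¹ • sh X r f) Z = s⁻¹ * tw b X (sh X r f) Z := fun Z => by
      rw [(tw b X).map_smul, LinearMap.smul_apply, smul_eq_mul]
    have L4 : ∀ (W : V) (q : Q),
        tw b X W (q • (s⁻¹ • sh X r f)) = s⁻¹ * tw b X W (q • sh X r f) :=
      fun W q => by rw [smul_comm q s⁻¹ (sh X r f), (tw b X W).map_smul, smul_eq_mul]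
    have E00 := fun q => E 0 0 q
    have E01 := fun q => E 0 1 q
    have E10 := fun q => E 1 0 q
    have E11 := fun q => E 1 1 q
    simp only [P0, P1, Nat.reduceAdd, zero_add, add_zero] at E00 E01 E10 E11 m0 m1
    simp only [m0, m1, m2, m3] at E00 E01 E10 E11
    have hent : ∀ i j : Fin 2, ∀ q : Q,
        b ((![f, s⁻¹ • sh X r f] : Fin 2 → V) i) (q • (![f, s⁻¹ • sh X r f] : Fin 2 → V) j)
          = q.unop.re * (!![1, 0; 0, -1] : Matrix (Fin 2) (Fin 2) ℝ) i j ∧
        tw b X ((![f, s⁻¹ • sh X r f] : Fin 2 → V) i) (q • (![f, s⁻¹ • sh X r f] : Fin 2 → V) j)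
          = q.unop.re * (!![r, -s; -s, -r] : Matrix (Fin 2) (Fin 2) ℝ) i j := by
      intro i j q
      obtain ⟨a00, b00⟩ := E00 q
      obtain ⟨a01, b01⟩ := E01 q
      obtain ⟨a10, b10⟩ := E10 q
      obtain ⟨a11, b11⟩ := E11 q
      fin_cases i <;> fin_cases j
      · exact ⟨a00.trans (by norm_num), b00.trans (by norm_num)⟩
      · refine ⟨(L2 f q).trans ?_, (L4 f q).trans ?_⟩
        · rw [a01]; norm_num
        · rw [b01]
          show _ = q.unop.re * (-s)
          linear_combination (-(q.unop.re)) * hss1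
      · refine ⟨(L1 (q • f)).trans ?_, (L3 (q • f)).trans ?_⟩
        · rw [a10]; norm_num
        · rw [b10]
          show _ = q.unop.re * (-s)
          linear_combination (-(q.unop.re)) * hss1
      · refine ⟨((L1 _).trans (congrArg _ (L2 _ q))).trans ?_,
          ((L3 _).trans (congrArg _ (L4 _ q))).trans ?_⟩
        · rw [a11]
          show _ = q.unop.re * (-1)
          linear_combination (-(q.unop.re)) * hss
        · rw [b11]
          show _ = q.unop.re * (-r)
          linear_combination (-(q.unop.re * r)) * hss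
    refine ⟨(![f, s⁻¹ • sh X r f] : Fin 2 → V), ?_, ?_, fun i j q => hent i j q⟩
    · refine piece_basis_li (n := 2) _ (!![1, 0; 0, -1] : Matrix (Fin 2) (Fin 2) ℝ) ?_
        (fun i j q => (hent i j q).1)
      rw [Matrix.det_fin_two_of]; norm_num
    · have hf : f ∈ Submodule.span Q (Set.range (![f, s⁻¹ • sh X r f] : Fin 2 → V)) :=
        Submodule.subset_span ⟨0, rfl⟩
      have hf1 : s⁻¹ • sh X r f
          ∈ Submodule.span Q (Set.range (![f, s⁻¹ • sh X r f] : Fin 2 → V)) :=
        Submodule.subset_span ⟨1, rfl⟩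
      have hf2 : sh X r f ∈ Submodule.span Q (Set.range (![f, s⁻¹ • sh X r f] : Fin 2 → V)) := by
        have h5 := Submodule.smul_of_tower_mem (Submodule.span Q
          (Set.range (![f, s⁻¹ • sh X r f] : Fin 2 → V))) s hf1
        rwa [smul_smul, mul_inv_cancel₀ hs, one_smul] at h5
      refine piece_basis_span (n := 2) r f _ hf hf2 ?_ ?_
      · rw [h1]; exact Submodule.smul_of_tower_mem _ _ hf
      · intro S s0 s1 s2 i
        fin_cases i
        · exact s0
        · exact Submodule.smul_of_tower_mem _ _ s1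
  | b2 e r =>
    obtain ⟨h1, h2, h3⟩ := h
    have E := piece_basis_ent hb hX r f
    have m0 : b f f = 0 := h3
    have m1 : b f (sh X r f) = sg e := h2
    have m2 : ∀ n : ℕ, b f (((sh X r) ^ (n + 2)) f) = 0 := by
      intro n; rw [PS2, h1, map_zero, map_zero]
    have m2' := m2 0
    have m3' := m2 1
    have E00 := fun q => E 0 0 q
    have E01 := fun q => E 0 1 q
    have E10 := fun q => E 1 0 q
    have E11 := fun q => E 1 1 q
    simp only [P0, P1, Nat.reduceAdd, zero_add, add_zero] at E00 E01 E10 E11 m2' m3'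
    simp only [m0, m1, m2', m3'] at E00 E01 E10 E11
    have hent : ∀ i j : Fin 2, ∀ q : Q,
        b ((![f, sh X r f] : Fin 2 → V) i) (q • (![f, sh X r f] : Fin 2 → V) j)
          = q.unop.re * (!![0, sg e; sg e, 0] : Matrix (Fin 2) (Fin 2) ℝ) i j ∧
        tw b X ((![f, sh X r f] : Fin 2 → V) i) (q • (![f, sh X r f] : Fin 2 → V) j)
          = q.unop.re * (!![sg e, sg e * r; sg e * r, 0] : Matrix (Fin 2) (Fin 2) ℝ) i j := by
      intro i j q
      obtain ⟨a00, b00⟩ := E00 q
      obtain ⟨a01, b01⟩ := E01 q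
      obtain ⟨a10, b10⟩ := E10 q
      obtain ⟨a11, b11⟩ := E11 q
      fin_cases i <;> fin_cases j
      · refine ⟨a00.trans (by norm_num), b00.trans ?_⟩
        show _ = q.unop.re * sg e
        ring
      · refine ⟨a01.trans rfl, b01.trans ?_⟩
        show _ = q.unop.re * (sg e * r)
        ring
      · refine ⟨a10.trans rfl, b10.trans ?_⟩
        show _ = q.unop.re * (sg e * r)
        ring
      · refine ⟨a11.trans rfl, b11.trans ?_⟩
        show _ = q.unop.re * 0
        ring
    refine ⟨(![f, sh X r f] : Fin 2 → V), ?_, ?_, fun i j q => hent i j q⟩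
    · refine piece_basis_li (n := 2) _ (!![0, sg e; sg e, 0] : Matrix (Fin 2) (Fin 2) ℝ) ?_
        (fun i j q => (hent i j q).1)
      rw [Matrix.det_fin_two_of, zero_mul, zero_sub]
      exact neg_ne_zero.mpr (mul_ne_zero (piece_basis_sgne e) (piece_basis_sgne e))
    · refine piece_basis_span (n := 2) r f _ (Submodule.subset_span ⟨0, rfl⟩)
        (Submodule.subset_span ⟨1, rfl⟩) ?_ ?_
      · rw [h1]; exact Submodule.zero_mem _
      · intro S s0 s1 s2 i
        fin_cases i
        · exact s0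
        · exact s1
  | b3 r =>
    obtain ⟨h1, h2, h3, h4⟩ := h
    have E := piece_basis_ent hb hX r f
    have m0 : b f f = 0 := h4
    have m1 : b f (sh X r f) = 0 := h3
    have m2 : b f (((sh X r) ^ 2) f) = 1 := by rw [P2]; exact h2
    have m3 : ∀ n : ℕ, b f (((sh X r) ^ (n + 3)) f) = 0 := by
      intro n; rw [PS3, h1, map_zero, map_zero]
    have m3' := m3 0
    have m4' := m3 1
    have m5' := m3 2
    have E00 := fun q => E 0 0 q
    have E01 := fun q => E 0 1 q
    have E02 := fun q => E 0 2 q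
    have E10 := fun q => E 1 0 q
    have E11 := fun q => E 1 1 q
    have E12 := fun q => E 1 2 q
    have E20 := fun q => E 2 0 q
    have E21 := fun q => E 2 1 q
    have E22 := fun q => E 2 2 q
    simp only [P0, P1, Nat.reduceAdd, zero_add, add_zero] at E00 E01 E02 E10 E11 E12 E20 E21 E22 m3' m4' m5'
    simp only [m0, m1, m2, m3', m4', m5'] at E00 E01 E02 E10 E11 E12 E20 E21 E22
    simp only [P2] at E00 E01 E02 E10 E11 E12 E20 E21 E22
    have hent : ∀ i j : Fin 3, ∀ q : Q,
        b ((![f, sh X r f, sh X r (sh X r f)] : Fin 3 → V) i)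
          (q • (![f, sh X r f, sh X r (sh X r f)] : Fin 3 → V) j)
          = q.unop.re * (!![0, 0, 1; 0, 1, 0; 1, 0, 0] : Matrix (Fin 3) (Fin 3) ℝ) i j ∧
        tw b X ((![f, sh X r f, sh X r (sh X r f)] : Fin 3 → V) i)
          (q • (![f, sh X r f, sh X r (sh X r f)] : Fin 3 → V) j)
          = q.unop.re * (!![0, 1, r; 1, r, 0; r, 0, 0] : Matrix (Fin 3) (Fin 3) ℝ) i j := by
      intro i j q
      obtain ⟨a00, b00⟩ := E00 q
      obtain ⟨a01, b01⟩ := E01 q
      obtain ⟨a02, b02⟩ := E02 q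
      obtain ⟨a10, b10⟩ := E10 q
      obtain ⟨a11, b11⟩ := E11 q
      obtain ⟨a12, b12⟩ := E12 q
      obtain ⟨a20, b20⟩ := E20 q
      obtain ⟨a21, b21⟩ := E21 q
      obtain ⟨a22, b22⟩ := E22 q
      fin_cases i <;> fin_cases j
      · refine ⟨a00.trans rfl, b00.trans ?_⟩
        show _ = q.unop.re * 0
        ring
      · refine ⟨a01.trans rfl, b01.trans ?_⟩
        show _ = q.unop.re * 1
        ring
      · refine ⟨a02.trans rfl, b02.trans ?_⟩
        show _ = q.unop.re * r
        ring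
      · refine ⟨a10.trans rfl, b10.trans ?_⟩
        show _ = q.unop.re * 1
        ring
      · refine ⟨a11.trans rfl, b11.trans ?_⟩
        show _ = q.unop.re * r
        ring
      · refine ⟨a12.trans rfl, b12.trans ?_⟩
        show _ = q.unop.re * 0
        ring
      · refine ⟨a20.trans rfl, b20.trans ?_⟩
        show _ = q.unop.re * r
        ring
      · refine ⟨a21.trans rfl, b21.trans ?_⟩
        show _ = q.unop.re * 0
        ring
      · refine ⟨a22.trans rfl, b22.trans ?_⟩
        show _ = q.unop.re * 0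
        ring
    refine ⟨(![f, sh X r f, sh X r (sh X r f)] : Fin 3 → V), ?_, ?_, fun i j q => hent i j q⟩
    · refine piece_basis_li (n := 3) _ (!![0, 0, 1; 0, 1, 0; 1, 0, 0] : Matrix (Fin 3) (Fin 3) ℝ) ?_
        (fun i j q => (hent i j q).1)
      rw [Matrix.det_fin_three]
      norm_num
      exact ⟨one_ne_zero, one_ne_zero⟩
    · refine piece_basis_span (n := 3) r f _ (Submodule.subset_span ⟨0, rfl⟩)
        (Submodule.subset_span ⟨1, rfl⟩) (Submodule.subset_span ⟨2, rfl⟩) ?_
      intro S s0 s1 s2 i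
      fin_cases i
      · exact s0
      · exact s1
      · exact s2
end

section
/-! Pairs of quaternionic hermitian forms.  A right quaternionic space is a module over `Q`, the
opposite of the quaternions.  A quaternionic hermitian form `h` is represented by its real part
`b x y = Re h x y`, a real bilinear symmetric form with `b (q • x) y = b x (star q • y)`.
Subspaces are `Submodule Q V`, dimension is `Module.finrank Q`. -/
open scoped Quaternion
variable {V : Type} [AddCommGroup V] [Module Q V] [Module ℝ V] [IsScalarTower ℝ Q V]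


theorem bpc_sq1 (a : ℝ) (h : a * a = 1) : (!![a] : Matrix (Fin 1) (Fin 1) ℝ) * !![a] = 1 := by
  ext i j
  fin_cases i; fin_cases j
  simp [Matrix.mul_apply, h]

theorem bpc_sq2 : (!![1, 0; 0, -1] : Matrix (Fin 2) (Fin 2) ℝ) * !![1, 0; 0, -1] = 1 := by
  ext i j
  fin_cases i <;> fin_cases j <;> simp [Matrix.mul_apply, Fin.sum_univ_succ]

theorem bpc_sq3 (a : ℝ) (h : a * a = 1) :
    (!![0, a; a, 0] : Matrix (Fin 2) (Fin 2) ℝ) * !![0, a; a, 0] = 1 := by
  ext i j
  fin_cases i <;> fin_cases j <;> simp [Matrix.mul_apply, Fin.sum_univ_succ, h]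

theorem bpc_sq4 : (!![0, 0, 1; 0, 1, 0; 1, 0, 0] : Matrix (Fin 3) (Fin 3) ℝ) *
    !![0, 0, 1; 0, 1, 0; 1, 0, 0] = 1 := by
  ext i j
  fin_cases i <;> fin_cases j <;> simp [Matrix.mul_apply, Fin.sum_univ_succ]

theorem bpc_sq (p : Piece) : cB p * cB p = 1 := by
  have hsg : ∀ e, sg e * sg e = 1 := by intro e; unfold sg; split_ifs <;> norm_num
  cases p with
  | ray e x => exact bpc_sq1 _ (hsg e)
  | cx r s => exact bpc_sq2
  | b2 e r => exact bpc_sq3 _ (hsg e)
  | b3 r => exact bpc_sq4

theorem bpc_nd {b : BF V} (p : Piece) (v : Fin (sz p) → V)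
    (hc : ∀ i j, ∀ q : Q, b (v i) (q • v j) = q.unop.re * cB p i j)
    (w : V) (hw : w ∈ Submodule.span Q (Set.range v))
    (h : ∀ i, ∀ q : Q, b (v i) (q • w) = 0) : w = 0 := by
  rw [Submodule.mem_span_range_iff_exists_fun] at hw
  obtain ⟨c, rfl⟩ := hw
  have h1 : ∀ q : Q, (fun j => (q * c j).unop.re) = 0 := by
    intro q
    have h2 : Matrix.mulVec (cB p) (fun j => (q * c j).unop.re) = 0 := by
      funext i
      have h3 := h i q
      rw [Finset.smul_sum, map_sum] at h3
      refine Eq.trans ?_ h3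
      show ∑ j, cB p i j * (q * c j).unop.re = _
      refine Finset.sum_congr rfl fun j _ => ?_
      rw [← mul_smul, hc]
      ring
    have h4 := congrArg (Matrix.mulVec (cB p)) h2
    rw [Matrix.mulVec_mulVec, bpc_sq, Matrix.one_mulVec, Matrix.mulVec_zero] at h4
    exact h4
  have h5 : ∀ j, c j = 0 := by
    intro j
    have h6 := congrFun (h1 (star (c j))) j
    simp only [Pi.zero_apply] at h6
    have h7 : (star (c j) * c j).unop.re = Quaternion.normSq (c j).unop := by
      rw [MulOpposite.unop_mul, MulOpposite.unop_star, Quaternion.self_mul_star]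
      simp
    rw [h7, Quaternion.normSq_eq_zero] at h6
    exact MulOpposite.unop_injective (by simpa using h6)
  simp [h5]

theorem bpc_X {b : BF V} {X : V →ₗ[Q] V} (p : Piece) (v : Fin (sz p) → V)
    (hinv : ∀ w ∈ Submodule.span Q (Set.range v), X w ∈ Submodule.span Q (Set.range v))
    (hcd : ∀ i j, ∀ q : Q, b (v i) (q • v j) = q.unop.re * cB p i j ∧
        tw b X (v i) (q • v j) = q.unop.re * dB p i j) (j : Fin (sz p)) :
    X (v j) = ∑ k, (cB p * dB p) k j • v k := by
  rw [← sub_eq_zero]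
  refine bpc_nd p v (fun i j q => (hcd i j q).1) _ ?_ ?_
  · refine Submodule.sub_mem _ (hinv _ (Submodule.subset_span ⟨j, rfl⟩)) ?_
    refine Submodule.sum_mem _ fun k _ => ?_
    exact Submodule.smul_of_tower_mem _ _ (Submodule.subset_span ⟨k, rfl⟩)
  · intro i q
    rw [smul_sub, map_sub]
    have h1 : b (v i) (q • X (v j)) = q.unop.re * dB p i j := by
      rw [← (hcd i j q).2, ← map_smul]
      rfl
    rw [h1, Finset.smul_sum, map_sum]
    have h2 : ∀ k, b (v i) (q • (cB p * dB p) k j • v k) =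
        q.unop.re * (cB p i k * (cB p * dB p) k j) := by
      intro k
      rw [smul_comm, map_smul, (hcd i k q).1, smul_eq_mul]
      ring
    simp_rw [h2]
    rw [← Finset.mul_sum, ← Matrix.mul_apply, ← Matrix.mul_assoc, bpc_sq, Matrix.one_mul, sub_self]

theorem bpc_le {X : V →ₗ[Q] V} {n : ℕ} (v : Fin n → V) (i0 : Fin n)
    (hinv : ∀ w ∈ Submodule.span Q (Set.range v), X w ∈ Submodule.span Q (Set.range v)) :
    cyc X (v i0) ≤ Submodule.span Q (Set.range v) := by
  have h0 : v i0 ∈ Submodule.span Q (Set.range v) := Submodule.subset_span ⟨i0, rfl⟩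
  rw [cyc, Submodule.span_le]
  rintro w (rfl | rfl | rfl)
  · exact h0
  · exact hinv _ h0
  · exact hinv _ (hinv _ h0)

theorem bpc_f (X : V →ₗ[Q] V) (f : V) : f ∈ cyc X f := Submodule.subset_span (by simp)
theorem bpc_Xf (X : V →ₗ[Q] V) (f : V) : X f ∈ cyc X f := Submodule.subset_span (by simp)
theorem bpc_XXf (X : V →ₗ[Q] V) (f : V) : X (X f) ∈ cyc X f := Submodule.subset_span (by simp)

theorem bpc_one {b : BF V} (p : Piece) (v : Fin (sz p) → V)
    (hc : ∀ i j, ∀ q : Q, b (v i) (q • v j) = q.unop.re * cB p i j) (i j : Fin (sz p)) :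
    b (v i) (v j) = cB p i j := by
  have := hc i j 1
  simpa using this

theorem bpc_sh (X : V →ₗ[Q] V) (r : ℝ) (f : V) : sh X r f = X f - r • f := rfl

theorem bpc_ray {b : BF V} {X : V →ₗ[Q] V} (e : Bool) (x : ℝ) (v : Fin 1 → V)
    (hinv : ∀ w ∈ Submodule.span Q (Set.range v), X w ∈ Submodule.span Q (Set.range v))
    (hcd : ∀ i j, ∀ q : Q, b (v i) (q • v j) = q.unop.re * cB (Piece.ray e x) i j ∧
        tw b X (v i) (q • v j) = q.unop.re * dB (Piece.ray e x) i j) :
    ∃ f, IsPiece b X (Piece.ray e x) f ∧ cyc X f = Submodule.span Q (Set.range v) := by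
  have hsg : sg e * sg e = 1 := by unfold sg; split_ifs <;> norm_num
  have hX0 : X (v 0) = x • v 0 := by
    refine (bpc_X (Piece.ray e x) v hinv hcd (0 : Fin 1)).trans ?_
    show ∑ k : Fin 1, ((!![sg e] : Matrix (Fin 1) (Fin 1) ℝ) * !![sg e * x]) k 0 • v k = _
    simp [Matrix.mul_apply, ← mul_assoc, hsg]
  have hb := bpc_one (Piece.ray e x) v (fun i j q => (hcd i j q).1)
  refine ⟨v 0, ⟨hb (0 : Fin 1) (0 : Fin 1), ?_⟩, le_antisymm (bpc_le v 0 hinv) ?_⟩
  · rw [bpc_sh, hX0, sub_self]
  · rw [Submodule.span_le]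
    rintro w ⟨i, rfl⟩
    have : i = 0 := Subsingleton.elim _ _
    rw [this]
    exact bpc_f X _

theorem bpc_cx {b : BF V} {X : V →ₗ[Q] V} (r s : ℝ) (hs : s ≠ 0) (v : Fin 2 → V)
    (hinv : ∀ w ∈ Submodule.span Q (Set.range v), X w ∈ Submodule.span Q (Set.range v))
    (hcd : ∀ i j, ∀ q : Q, b (v i) (q • v j) = q.unop.re * cB (Piece.cx r s) i j ∧
        tw b X (v i) (q • v j) = q.unop.re * dB (Piece.cx r s) i j) :
    ∃ f, IsPiece b X (Piece.cx r s) f ∧ cyc X f = Submodule.span Q (Set.range v) := by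
  have hX0 : X (v 0) = r • v 0 + s • v 1 := by
    refine (bpc_X (Piece.cx r s) v hinv hcd (0 : Fin 2)).trans ?_
    show ∑ k : Fin 2, ((!![1, 0; 0, -1] : Matrix (Fin 2) (Fin 2) ℝ) * !![r, -s; -s, -r]) k 0 • v k
      = _
    simp [Matrix.mul_apply, Fin.sum_univ_succ]
  have hX1 : X (v 1) = -(s • v 0) + r • v 1 := by
    refine (bpc_X (Piece.cx r s) v hinv hcd (1 : Fin 2)).trans ?_
    show ∑ k : Fin 2, ((!![1, 0; 0, -1] : Matrix (Fin 2) (Fin 2) ℝ) * !![r, -s; -s, -r]) k 1 • v k
      = _
    simp [Matrix.mul_apply, Fin.sum_univ_succ]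
  have hb := bpc_one (Piece.cx r s) v (fun i j q => (hcd i j q).1)
  have hb00 : b (v 0) (v 0) = 1 := hb (0 : Fin 2) (0 : Fin 2)
  have hb01 : b (v 0) (v 1) = 0 := hb (0 : Fin 2) (1 : Fin 2)
  have hs0 : sh X r (v 0) = s • v 1 := by rw [bpc_sh, hX0]; abel
  have hs1 : sh X r (s • v 1) = -(s ^ 2) • v 0 := by
    rw [bpc_sh, LinearMap.map_smul_of_tower, hX1, smul_add, smul_neg, smul_smul, smul_smul,
      smul_smul, neg_smul, pow_two, mul_comm r s]
    abel
  refine ⟨v 0, ⟨hs, ?_, hb00, ?_⟩, le_antisymm (bpc_le v 0 hinv) ?_⟩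
  · rw [hs0, hs1]
  · rw [hs0, map_smul, hb01, smul_zero]
  · rw [Submodule.span_le]
    rintro w ⟨i, rfl⟩
    fin_cases i
    · exact bpc_f X _
    · have h1 : v 1 = s⁻¹ • (X (v 0) - r • v 0) := by
        rw [hX0, add_sub_cancel_left, smul_smul, inv_mul_cancel₀ hs, one_smul]
      show v 1 ∈ cyc X (v 0)
      rw [h1]
      exact Submodule.smul_of_tower_mem _ _ (Submodule.sub_mem _ (bpc_Xf X _)
        (Submodule.smul_of_tower_mem _ _ (bpc_f X _)))

theorem bpc_b2 {b : BF V} {X : V →ₗ[Q] V} (e : Bool) (r : ℝ) (v : Fin 2 → V)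
    (hinv : ∀ w ∈ Submodule.span Q (Set.range v), X w ∈ Submodule.span Q (Set.range v))
    (hcd : ∀ i j, ∀ q : Q, b (v i) (q • v j) = q.unop.re * cB (Piece.b2 e r) i j ∧
        tw b X (v i) (q • v j) = q.unop.re * dB (Piece.b2 e r) i j) :
    ∃ f, IsPiece b X (Piece.b2 e r) f ∧ cyc X f = Submodule.span Q (Set.range v) := by
  have hsg : sg e * sg e = 1 := by unfold sg; split_ifs <;> norm_num
  have hX0 : X (v 0) = r • v 0 + v 1 := by
    refine (bpc_X (Piece.b2 e r) v hinv hcd (0 : Fin 2)).trans ?_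
    show ∑ k : Fin 2, ((!![0, sg e; sg e, 0] : Matrix (Fin 2) (Fin 2) ℝ) *
      !![sg e, sg e * r; sg e * r, 0]) k 0 • v k = _
    simp [Matrix.mul_apply, Fin.sum_univ_succ, ← mul_assoc, hsg]
  have hX1 : X (v 1) = r • v 1 := by
    refine (bpc_X (Piece.b2 e r) v hinv hcd (1 : Fin 2)).trans ?_
    show ∑ k : Fin 2, ((!![0, sg e; sg e, 0] : Matrix (Fin 2) (Fin 2) ℝ) *
      !![sg e, sg e * r; sg e * r, 0]) k 1 • v k = _
    simp [Matrix.mul_apply, Fin.sum_univ_succ, ← mul_assoc, hsg]
  have hb := bpc_one (Piece.b2 e r) v (fun i j q => (hcd i j q).1)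
  have hb00 : b (v 0) (v 0) = 0 := hb (0 : Fin 2) (0 : Fin 2)
  have hb01 : b (v 0) (v 1) = sg e := hb (0 : Fin 2) (1 : Fin 2)
  have hs0 : sh X r (v 0) = v 1 := by rw [bpc_sh, hX0]; abel
  have hs1 : sh X r (v 1) = 0 := by rw [bpc_sh, hX1, sub_self]
  refine ⟨v 0, ⟨?_, ?_, hb00⟩, le_antisymm (bpc_le v 0 hinv) ?_⟩
  · rw [hs0, hs1]
  · rw [hs0, hb01]
  · rw [Submodule.span_le]
    rintro w ⟨i, rfl⟩
    fin_cases i
    · exact bpc_f X _
    · have h1 : v 1 = X (v 0) - r • v 0 := by
        rw [hX0, add_sub_cancel_left]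
      show v 1 ∈ cyc X (v 0)
      rw [h1]
      exact Submodule.sub_mem _ (bpc_Xf X _) (Submodule.smul_of_tower_mem _ _ (bpc_f X _))

theorem bpc_b3 {b : BF V} {X : V →ₗ[Q] V} (r : ℝ) (v : Fin 3 → V)
    (hinv : ∀ w ∈ Submodule.span Q (Set.range v), X w ∈ Submodule.span Q (Set.range v))
    (hcd : ∀ i j, ∀ q : Q, b (v i) (q • v j) = q.unop.re * cB (Piece.b3 r) i j ∧
        tw b X (v i) (q • v j) = q.unop.re * dB (Piece.b3 r) i j) :
    ∃ f, IsPiece b X (Piece.b3 r) f ∧ cyc X f = Submodule.span Q (Set.range v) := by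
  have hX0 : X (v 0) = r • v 0 + v 1 := by
    refine (bpc_X (Piece.b3 r) v hinv hcd (0 : Fin 3)).trans ?_
    show ∑ k : Fin 3, ((!![0, 0, 1; 0, 1, 0; 1, 0, 0] : Matrix (Fin 3) (Fin 3) ℝ) *
      !![0, 1, r; 1, r, 0; r, 0, 0]) k 0 • v k = _
    simp [Matrix.mul_apply, Fin.sum_univ_succ]
  have hX1 : X (v 1) = r • v 1 + v 2 := by
    refine (bpc_X (Piece.b3 r) v hinv hcd (1 : Fin 3)).trans ?_
    show ∑ k : Fin 3, ((!![0, 0, 1; 0, 1, 0; 1, 0, 0] : Matrix (Fin 3) (Fin 3) ℝ) *
      !![0, 1, r; 1, r, 0; r, 0, 0]) k 1 • v k = _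
    simp [Matrix.mul_apply, Fin.sum_univ_succ]
  have hX2 : X (v 2) = r • v 2 := by
    refine (bpc_X (Piece.b3 r) v hinv hcd (2 : Fin 3)).trans ?_
    show ∑ k : Fin 3, ((!![0, 0, 1; 0, 1, 0; 1, 0, 0] : Matrix (Fin 3) (Fin 3) ℝ) *
      !![0, 1, r; 1, r, 0; r, 0, 0]) k 2 • v k = _
    simp [Matrix.mul_apply, Fin.sum_univ_succ]
  have hb := bpc_one (Piece.b3 r) v (fun i j q => (hcd i j q).1)
  have hb00 : b (v 0) (v 0) = 0 := hb (0 : Fin 3) (0 : Fin 3)
  have hb01 : b (v 0) (v 1) = 0 := hb (0 : Fin 3) (1 : Fin 3)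
  have hb02 : b (v 0) (v 2) = 1 := hb (0 : Fin 3) (2 : Fin 3)
  have hs0 : sh X r (v 0) = v 1 := by rw [bpc_sh, hX0]; abel
  have hs1 : sh X r (v 1) = v 2 := by rw [bpc_sh, hX1]; abel
  have hs2 : sh X r (v 2) = 0 := by rw [bpc_sh, hX2, sub_self]
  have h1 : v 1 = X (v 0) - r • v 0 := by rw [hX0, add_sub_cancel_left]
  have h1m : v 1 ∈ cyc X (v 0) := by
    rw [h1]
    exact Submodule.sub_mem _ (bpc_Xf X _) (Submodule.smul_of_tower_mem _ _ (bpc_f X _))
  refine ⟨v 0, ⟨?_, ?_, ?_, hb00⟩, le_antisymm (bpc_le v 0 hinv) ?_⟩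
  · rw [hs0, hs1, hs2]
  · rw [hs0, hs1, hb02]
  · rw [hs0, hb01]
  · rw [Submodule.span_le]
    rintro w ⟨i, rfl⟩
    fin_cases i
    · exact bpc_f X _
    · exact h1m
    · have h2 : v 2 = (X (X (v 0)) - r • X (v 0)) - r • v 1 := by
        have : X (v 1) = X (X (v 0)) - r • X (v 0) := by
          rw [h1, map_sub, LinearMap.map_smul_of_tower]
        rw [← this, hX1, add_sub_cancel_left]
      show v 2 ∈ cyc X (v 0)
      rw [h2]
      exact Submodule.sub_mem _ (Submodule.sub_mem _ (bpc_XXf X _)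
        (Submodule.smul_of_tower_mem _ _ (bpc_Xf X _))) (Submodule.smul_of_tower_mem _ _ h1m)

/-- converse: canonical matrices give a piece (the operator maps the span into itself) -/
theorem basis_piece {b : BF V} (hb : IsF b) {X : V →ₗ[Q] V} (hX : SA b X) (p : Piece)
    (hp : ∀ r s, p = Piece.cx r s → s ≠ 0)
    (v : Fin (sz p) → V) (hv : LinearIndependent Q v)
    (hinv : ∀ w ∈ Submodule.span Q (Set.range v), X w ∈ Submodule.span Q (Set.range v))
    (hcd : ∀ i j, ∀ q : Q, b (v i) (q • v j) = q.unop.re * cB p i j ∧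
        tw b X (v i) (q • v j) = q.unop.re * dB p i j) :
    ∃ f, IsPiece b X p f ∧ cyc X f = Submodule.span Q (Set.range v) := by
  cases p with
  | ray e x => exact bpc_ray e x v hinv hcd
  | cx r s => exact bpc_cx r s (hp r s rfl) v hinv hcd
  | b2 e r => exact bpc_b2 e r v hinv hcd
  | b3 r => exact bpc_b3 r v hinv hcd
end

section
/-! Pairs of quaternionic hermitian forms.  A right quaternionic space is a module over `Q`, the
opposite of the quaternions.  A quaternionic hermitian form `h` is represented by its real part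
`b x y = Re h x y`, a real bilinear symmetric form with `b (q • x) y = b x (star q • y)`.
Subspaces are `Submodule Q V`, dimension is `Module.finrank Q`. -/
open scoped Quaternion
variable {V : Type} [AddCommGroup V] [Module Q V] [Module ℝ V] [IsScalarTower ℝ Q V]


theorem nf_canB [FiniteDimensional Q V] {b : BF V} (hb : IsF b) {X : V →ₗ[Q] V} (hX : SA b X)
    (l : List (Piece × V)) (W : Submodule Q V) (h : IsNF b X l W) :
    CanB b (tw b X) W (l.map Prod.fst) := by
  induction l generalizing W with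
  | nil =>
    have hW : W = ⊥ := h
    subst hW
    haveI : IsEmpty (Ix (([] : List (Piece × V)).map Prod.fst)) :=
      (inferInstance : IsEmpty (Fin 0))
    refine ⟨fun _ => 0, linearIndependent_empty_type, ?_, fun i => isEmptyElim i⟩
    rw [Set.range_eq_empty, Submodule.span_empty]
  | cons pf l ih =>
    obtain ⟨p, f⟩ := pf
    obtain ⟨hp, W', hW', ho, hs⟩ := h
    have hinv := nf_inv l W' hW'
    have hUW : cyc X f ⊓ W' = ⊥ := by
      rw [eq_bot_iff]
      intro x hx
      have h0 : x = 0 := cyc_nd hb hX hp x hx.1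
        (fun y hy => by rw [hb.symm]; exact ho y hy x hx.2)
      exact (Submodule.mem_bot Q).mpr h0
    obtain ⟨v, hv, hvU, hcd⟩ := piece_basis hb hX p f hp
    exact canB_cons hb (isF_tw hb hX) p (l.map Prod.fst) W (cyc X f) W' hUW hs
      (fun u hu w hw => ⟨ho u hu w hw, ho u hu (X w) (hinv w hw)⟩) v hv hvU hcd (ih W' hW')
end

section
/-! Pairs of quaternionic hermitian forms.  A right quaternionic space is a module over `Q`, the
opposite of the quaternions.  A quaternionic hermitian form `h` is represented by its real part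
`b x y = Re h x y`, a real bilinear symmetric form with `b (q • x) y = b x (star q • y)`.
Subspaces are `Submodule Q V`, dimension is `Module.finrank Q`. -/
open scoped Quaternion
variable {V : Type} [AddCommGroup V] [Module Q V] [Module ℝ V] [IsScalarTower ℝ Q V]


theorem sg_ne (e : Bool) : sg e ≠ 0 := by
  unfold sg
  split_ifs <;> norm_num

theorem cB_inj (p : Piece) (t : Fin (sz p) → ℝ) (h : ∀ j, ∑ i, t i * cB p i j = 0) :
    t = 0 := by
  cases p with
  | ray e x =>
    have h0 : ∑ i : Fin 1, t i * (!![sg e] : Matrix (Fin 1) (Fin 1) ℝ) i 0 = 0 := h (0 : Fin 1)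
    have h1 : t (0 : Fin 1) * sg e = 0 := by
      simpa using h0
    funext i
    have hi : i = (0 : Fin 1) := Subsingleton.elim (α := Fin 1) _ _
    rw [hi]
    exact (mul_eq_zero.mp h1).resolve_right (sg_ne e)
  | cx r s =>
    have h0 : ∑ i : Fin 2, t i * (!![1, 0; 0, -1] : Matrix (Fin 2) (Fin 2) ℝ) i 0 = 0 :=
      h (0 : Fin 2)
    have h1 : ∑ i : Fin 2, t i * (!![1, 0; 0, -1] : Matrix (Fin 2) (Fin 2) ℝ) i 1 = 0 :=
      h (1 : Fin 2)
    rw [Fin.sum_univ_two] at h0 h1
    have h0' : t (0 : Fin 2) = 0 := by simpa using h0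
    have h1' : t (1 : Fin 2) = 0 := by simpa using h1
    funext i
    change Fin 2 at i
    fin_cases i
    · exact h0'
    · exact h1'
  | b2 e r =>
    have h0 : ∑ i : Fin 2, t i * (!![0, sg e; sg e, 0] : Matrix (Fin 2) (Fin 2) ℝ) i 0 = 0 :=
      h (0 : Fin 2)
    have h1 : ∑ i : Fin 2, t i * (!![0, sg e; sg e, 0] : Matrix (Fin 2) (Fin 2) ℝ) i 1 = 0 :=
      h (1 : Fin 2)
    rw [Fin.sum_univ_two] at h0 h1
    have h0' : t (1 : Fin 2) = 0 := by simpa [sg_ne e] using h0
    have h1' : t (0 : Fin 2) = 0 := by simpa [sg_ne e] using h1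
    funext i
    change Fin 2 at i
    fin_cases i
    · exact h1'
    · exact h0'
  | b3 r =>
    have h0 : ∑ i : Fin 3, t i * (!![0, 0, 1; 0, 1, 0; 1, 0, 0] : Matrix (Fin 3) (Fin 3) ℝ) i 0 = 0 :=
      h (0 : Fin 3)
    have h1 : ∑ i : Fin 3, t i * (!![0, 0, 1; 0, 1, 0; 1, 0, 0] : Matrix (Fin 3) (Fin 3) ℝ) i 1 = 0 :=
      h (1 : Fin 3)
    have h2 : ∑ i : Fin 3, t i * (!![0, 0, 1; 0, 1, 0; 1, 0, 0] : Matrix (Fin 3) (Fin 3) ℝ) i 2 = 0 :=
      h (2 : Fin 3)
    rw [Fin.sum_univ_three] at h0 h1 h2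
    have h0' : t (2 : Fin 3) = 0 := by simpa using h0
    have h1' : t (1 : Fin 3) = 0 := by simpa using h1
    have h2' : t (0 : Fin 3) = 0 := by simpa using h2
    funext i
    change Fin 3 at i
    fin_cases i
    · exact h2'
    · exact h1'
    · exact h0'

theorem cM_inj (L : List Piece) (t : Ix L → ℝ) (h : ∀ j, ∑ i, t i * cM L i j = 0) :
    t = 0 := by
  induction L with
  | nil =>
    funext i
    exact Fin.elim0 (α := (t i = 0)) i
  | cons p L ih =>
    have hsum : ∀ f : Ix (p :: L) → ℝ, ∑ i, f i =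
        ∑ i : Fin (sz p), f (Sum.inl i) + ∑ i : Ix L, f (Sum.inr i) := fun f =>
      Fintype.sum_sum_type (α₁ := Fin (sz p)) (α₂ := Ix L) f
    have h1 : (fun i : Fin (sz p) => t (Sum.inl i)) = 0 := by
      apply cB_inj
      intro j
      have := h (Sum.inl j)
      rw [hsum] at this
      have e1 : ∀ i : Fin (sz p), cM (p :: L) (Sum.inl i) (Sum.inl j) = cB p i j := fun i => rfl
      have e2 : ∀ i : Ix L, cM (p :: L) (Sum.inr i) (Sum.inl j) = 0 := fun i => rfl
      simp only [e1, e2, mul_zero, Finset.sum_const_zero, add_zero] at this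
      exact this
    have h2 : (fun i : Ix L => t (Sum.inr i)) = 0 := by
      apply ih
      intro j
      have := h (Sum.inr j)
      rw [hsum] at this
      have e1 : ∀ i : Fin (sz p), cM (p :: L) (Sum.inl i) (Sum.inr j) = 0 := fun i => rfl
      have e2 : ∀ i : Ix L, cM (p :: L) (Sum.inr i) (Sum.inr j) = cM L i j := fun i => rfl
      simp only [e1, e2, mul_zero, Finset.sum_const_zero, zero_add] at this
      exact this
    funext i
    rcases i with i | i
    · exact congrFun h1 i
    · exact congrFun h2 i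

/-- the canonical matrix is nondegenerate -/
theorem canB_nd [FiniteDimensional Q V] {c d : BF V} (hc : IsF c) (L : List Piece)
    (W : Submodule Q V) (h : CanB c d W L) :
    ∀ x ∈ W, (∀ y ∈ W, c x y = 0) → x = 0 := by
  obtain ⟨v, hv, hspan, hval⟩ := h
  intro x hx hxy
  rw [← hspan] at hx
  obtain ⟨g, hg⟩ := (Submodule.mem_span_range_iff_exists_fun Q).mp hx
  have key : ∀ s : Q, (fun i => ((star (g i) * s).unop).re) = (0 : Ix L → ℝ) := by
    intro s
    apply cM_inj
    intro j
    have hy : s • v j ∈ W := by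
      rw [← hspan]
      exact Submodule.smul_mem _ _ (Submodule.subset_span ⟨j, rfl⟩)
    have h1 := hxy _ hy
    rw [← hg, map_sum, LinearMap.sum_apply] at h1
    refine Eq.trans ?_ h1
    apply Finset.sum_congr rfl
    intro i _
    rw [hc.adj, smul_smul, (hval i j _).1]
  have hg0 : ∀ i, g i = 0 := by
    intro i
    have h1 := congrFun (key (g i)) i
    have h2 : ((star (g i) * g i).unop).re = Quaternion.normSq (g i).unop := by
      rw [MulOpposite.unop_mul, MulOpposite.unop_star, Quaternion.self_mul_star]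
      rfl
    beta_reduce at h1
    rw [h2] at h1
    have h3 : (g i).unop = 0 := Quaternion.normSq_eq_zero.mp h1
    exact MulOpposite.unop_injective (by rw [h3]; rfl)
  rw [← hg]
  exact Finset.sum_eq_zero fun i _ => by rw [hg0 i, zero_smul]
end

section
/-! Pairs of quaternionic hermitian forms.  A right quaternionic space is a module over `Q`, the
opposite of the quaternions.  A quaternionic hermitian form `h` is represented by its real part
`b x y = Re h x y`, a real bilinear symmetric form with `b (q • x) y = b x (star q • y)`.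
Subspaces are `Submodule Q V`, dimension is `Module.finrank Q`. -/
open scoped Quaternion
variable {V : Type} [AddCommGroup V] [Module Q V] [Module ℝ V] [IsScalarTower ℝ Q V]


theorem isF_tw_cnf {b : BF V} (hb : IsF b) {X : V →ₗ[Q] V} (hX : SA b X) : IsF (tw b X) := by
  have h : ∀ x y, tw b X x y = b x (X y) := fun x y => rfl
  constructor
  · intro x y
    rw [h, h, ← hX, hb.symm]
  · intro q x y
    rw [h, h, hb.adj, X.map_smul]

theorem canB_nf [FiniteDimensional Q V] {b : BF V} (hb : IsF b) {X : V →ₗ[Q] V} (hX : SA b X)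
    (L : List Piece) (hL : ∀ P ∈ L, ∀ r s, P = Piece.cx r s → s ≠ 0) :
    ∀ W : Submodule Q V, (∀ w ∈ W, X w ∈ W) → CanB b (tw b X) W L →
      ∃ l : List (Piece × V), l.map Prod.fst = L ∧ IsNF b X l W := by
  have hd := isF_tw_cnf hb hX
  have htw : ∀ x y, tw b X x y = b x (X y) := fun x y => rfl
  induction L with
  | nil =>
    intro W _ h
    obtain ⟨v, _, hs, _⟩ := h
    haveI : IsEmpty (Ix []) := inferInstanceAs (IsEmpty (Fin 0))
    refine ⟨[], rfl, ?_⟩
    change W = ⊥
    rw [← hs, Set.range_eq_empty, Submodule.span_empty]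
  | cons p L ih =>
    intro W hW hC
    have hnd := canB_nd hb (p :: L) W hC
    obtain ⟨U, W', hinf, hsup, horth, hC', v, hv, hspan, hcd⟩ := canB_uncons hb hd p L W hC
    have hUW : U ≤ W := hsup ▸ le_sup_left
    have hWW : W' ≤ W := hsup ▸ le_sup_right
    -- nondegeneracy of `U` and `W'`
    have hW'nd : ∀ x ∈ W', (∀ y ∈ W', b x y = 0) → x = 0 := by
      intro x hx h
      refine hnd x (hWW hx) fun y hy => ?_
      rw [← hsup] at hy
      obtain ⟨u, hu, w, hw, rfl⟩ := Submodule.mem_sup.1 hy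
      rw [map_add, h w hw, hb.symm x u, (horth u hu x hx).1, add_zero]
    have hUnd : ∀ x ∈ U, (∀ y ∈ U, b x y = 0) → x = 0 := by
      intro x hx h
      refine hnd x (hUW hx) fun y hy => ?_
      rw [← hsup] at hy
      obtain ⟨u, hu, w, hw, rfl⟩ := Submodule.mem_sup.1 hy
      rw [map_add, h u hu, (horth x hx w hw).1, add_zero]
    have hUX : ∀ u ∈ U, X u ∈ U := by
      intro u hu
      have h1 : X u ∈ U ⊔ W' := by
        rw [hsup]
        exact hW u (hUW hu)
      obtain ⟨u1, hu1, w1, hw1, he⟩ := Submodule.mem_sup.1 h1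
      have h2 : w1 = 0 := by
        refine hW'nd w1 hw1 fun w hw => ?_
        have h3 : tw b X w u = 0 := by
          rw [hd.symm]
          exact (horth u hu w hw).2
        rw [htw, ← he, map_add, hb.symm w u1, (horth u1 hu1 w hw).1, zero_add] at h3
        rw [hb.symm, h3]
      rw [← he, h2, add_zero]
      exact hu1
    have hWX : ∀ w ∈ W', X w ∈ W' := by
      intro w hw
      have h1 : X w ∈ U ⊔ W' := by
        rw [hsup]
        exact hW w (hWW hw)
      obtain ⟨u1, hu1, w1, hw1, he⟩ := Submodule.mem_sup.1 h1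
      have h2 : u1 = 0 := by
        refine hUnd u1 hu1 fun u hu => ?_
        have h3 : tw b X u w = 0 := (horth u hu w hw).2
        rw [htw, ← he, map_add, (horth u hu w1 hw1).1, add_zero] at h3
        rw [hb.symm, h3]
      rw [← he, h2, zero_add]
      exact hw1
    obtain ⟨f, hf, hcyc⟩ := basis_piece hb hX p (hL p List.mem_cons_self) v hv
      (by rw [hspan]; exact hUX) hcd
    obtain ⟨l, hl, hnf⟩ := ih (fun P hP => hL P (List.mem_cons_of_mem _ hP)) W' hWX hC'
    refine ⟨(p, f) :: l, by simp [hl], ?_⟩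
    refine ⟨hf, W', hnf, ?_, ?_⟩
    · rw [hcyc, hspan]
      exact fun u hu w hw => (horth u hu w hw).1
    · rw [hcyc, hspan]
      exact hsup
end

section
/-! Pairs of quaternionic hermitian forms.  A right quaternionic space is a module over `Q`, the
opposite of the quaternions.  A quaternionic hermitian form `h` is represented by its real part
`b x y = Re h x y`, a real bilinear symmetric form with `b (q • x) y = b x (star q • y)`.
Subspaces are `Submodule Q V`, dimension is `Module.finrank Q`. -/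
open scoped Quaternion
variable {V : Type} [AddCommGroup V] [Module Q V] [Module ℝ V] [IsScalarTower ℝ Q V]


theorem c0_tw {c d : BF V} {X : V →ₗ[Q] V} (h : ∀ x y, c x (X y) = d x y) : d = tw c X := by
  ext x y
  rw [← h]
  rfl

theorem c0_SA {c d : BF V} (hc : IsF c) (hd : IsF d) {X : V →ₗ[Q] V}
    (h : ∀ x y, c x (X y) = d x y) : SA c X := by
  intro x y
  rw [hc.symm, h, h, hd.symm]

/-- classification without common kernel -/
theorem canon0 [FiniteDimensional Q V] {b a : BF V} (hb : IsF b) (ha : IsF a)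
    (hK : NoRad b a) : PP b a ↔ SD b a ∨
      ∃ μ ν ρ τ : ℝ, μ * τ - ν * ρ ≠ 0 ∧ ∃ L : List Piece, Adm L ∧
        CanB (μ • b + ν • a) (ρ • b + τ • a) ⊤ L := by
  constructor
  · intro hPP
    by_cases hSD : SD b a
    · exact Or.inl hSD
    right
    by_cases hreg : ∃ μ ν : ℝ, Nd (μ • b + ν • a)
    swap
    · push Not at hreg
      exact absurd hPP (singular_fails hb ha hK hreg)
    obtain ⟨μ, ν, ρ, τ, hd, hnd, hnn, X, hX, p, q, hpos⟩ := good_exists hb ha hreg hSD hPP
    have hC : IsF (μ • b + ν • a) := isF_add (isF_smul hb μ) (isF_smul ha ν)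
    have hD : IsF (ρ • b + τ • a) := isF_add (isF_smul hb ρ) (isF_smul ha τ)
    have hSA := c0_SA hC hD hX
    have htw := c0_tw hX
    have hk : nn (μ • b + ν • a) ⊤ = kap (μ • b + ν • a) (tw (μ • b + ν • a) X) := by
      rw [← htw, kap_comb hd, hnn]
    have hPP' : PP (μ • b + ν • a) (tw (μ • b + ν • a) X) := by
      rw [← htw]
      intro M N hM hN
      exact hPP M N ((maxNeu_comb hd M).1 hM) ((maxNeu_comb hd N).1 hN)
    obtain ⟨l, hl, hAdm⟩ := adm_good hC hnd hSA hPP' hk p q (by rw [← htw]; exact hpos)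
    refine ⟨μ, ν, ρ, τ, hd, l.map Prod.fst, hAdm, ?_⟩
    rw [htw]
    exact nf_canB hC hSA l ⊤ hl
  · rintro (hSD | ⟨μ, ν, ρ, τ, hd, L, hAdm, hCan⟩)
    · exact suff_sd hb ha hSD
    · have hC : IsF (μ • b + ν • a) := isF_add (isF_smul hb μ) (isF_smul ha ν)
      have hD : IsF (ρ • b + τ • a) := isF_add (isF_smul hb ρ) (isF_smul ha τ)
      have hnd : Nd (μ • b + ν • a) := fun x hx =>
        canB_nd hC L ⊤ hCan x trivial (fun y _ => hx y)
      obtain ⟨X, hX, hSA⟩ := exists_op hC hD hnd
      have htw := c0_tw hX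
      obtain ⟨l, hl1, hl⟩ := canB_nf hC hSA L (adm_cx L hAdm) ⊤ (fun w _ => trivial)
        (by rw [← htw]; exact hCan)
      have hL : LCrit (l.map Prod.fst) := by rw [hl1]; exact adm_lcrit L hAdm
      have hk := kap_of_lcrit hC hnd hSA l hl hL
      have hcr := crit_of_nf hC hnd hSA l hl hk hL
      rw [← htw] at hcr
      have hcrit := crit_comb hd hcr
      intro M N hM hN
      rw [suff hb ha ⟨μ, ν, hnd⟩ hcrit hM, suff hb ha ⟨μ, ν, hnd⟩ hcrit hN]
end

section
/-! Pairs of quaternionic hermitian forms.  A right quaternionic space is a module over `Q`, the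
opposite of the quaternions.  A quaternionic hermitian form `h` is represented by its real part
`b x y = Re h x y`, a real bilinear symmetric form with `b (q • x) y = b x (star q • y)`.
Subspaces are `Submodule Q V`, dimension is `Module.finrank Q`. -/
open scoped Quaternion
variable {V : Type} [AddCommGroup V] [Module Q V] [Module ℝ V] [IsScalarTower ℝ Q V]


theorem canB_rs (b a : BF V) (μ ν ρ τ : ℝ) (W : Submodule Q V) (L : List Piece) :
    CanB (μ • rs b W + ν • rs a W) (ρ • rs b W + τ • rs a W) (⊤ : Submodule Q W) L ↔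
      CanB (μ • b + ν • a) (ρ • b + τ • a) W L := by
  constructor
  · rintro ⟨v, hv, hs, hval⟩
    refine ⟨fun i => (v i : V), hv.map' W.subtype (Submodule.ker_subtype W), ?_, ?_⟩
    · have h1 : Set.range (fun i => (v i : V)) = W.subtype '' Set.range v := by
        rw [← Set.range_comp]; rfl
      rw [h1, ← Submodule.map_span, hs, Submodule.map_top, Submodule.range_subtype]
    · intro i j q
      exact hval i j q
  · rintro ⟨v, hv, hs, hval⟩
    have hm : ∀ i, v i ∈ W := fun i => by
      rw [← hs]; exact Submodule.subset_span ⟨i, rfl⟩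
    refine ⟨fun i => ⟨v i, hm i⟩, LinearIndependent.of_comp W.subtype hv, ?_, ?_⟩
    · apply Submodule.map_injective_of_injective W.injective_subtype
      rw [Submodule.map_span, Submodule.map_top, Submodule.range_subtype, ← Set.range_comp]
      exact hs
    · intro i j q
      exact hval i j q
end

section
/-! Pairs of quaternionic hermitian forms.  A right quaternionic space is a module over `Q`, the
opposite of the quaternions.  A quaternionic hermitian form `h` is represented by its real part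
`b x y = Re h x y`, a real bilinear symmetric form with `b (q • x) y = b x (star q • y)`.
Subspaces are `Submodule Q V`, dimension is `Module.finrank Q`. -/
open scoped Quaternion
variable {V : Type} [AddCommGroup V] [Module Q V] [Module ℝ V] [IsScalarTower ℝ Q V]


/-- classification in general -/
theorem canon [FiniteDimensional Q V] {b a : BF V} (hb : IsF b) (ha : IsF a) :
    PP b a ↔ SD b a ∨
      ∃ μ ν ρ τ : ℝ, μ * τ - ν * ρ ≠ 0 ∧ ∃ L : List Piece, Adm L ∧
        ∃ W : Submodule Q V, RadCompl b a W ∧ CanB (μ • b + ν • a) (ρ • b + τ • a) W L := by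
  constructor
  · intro hpp
    obtain ⟨W, hW⟩ := radCompl_exists hb ha
    have h1 : PP (rs b W) (rs a W) := (rad_pp hb ha W hW).1 hpp
    rcases (canon0 (isF_rs hb W) (isF_rs ha W) (rad_norad hb ha W hW)).1 h1 with h2 | h2
    · exact Or.inl ((rad_sd hb ha W hW).2 h2)
    · obtain ⟨μ, ν, ρ, τ, hne, L, hL, hC⟩ := h2
      exact Or.inr ⟨μ, ν, ρ, τ, hne, L, hL, W, hW, (canB_rs b a μ ν ρ τ W L).1 hC⟩
  · rintro (hsd | ⟨μ, ν, ρ, τ, hne, L, hL, W, hW, hC⟩)
    · obtain ⟨W, hW⟩ := radCompl_exists hb ha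
      exact (rad_pp hb ha W hW).2 ((canon0 (isF_rs hb W) (isF_rs ha W)
        (rad_norad hb ha W hW)).2 (Or.inl ((rad_sd hb ha W hW).1 hsd)))
    · exact (rad_pp hb ha W hW).2 ((canon0 (isF_rs hb W) (isF_rs ha W)
        (rad_norad hb ha W hW)).2 (Or.inr ⟨μ, ν, ρ, τ, hne, L, hL,
          (canB_rs b a μ ν ρ τ W L).2 hC⟩))
end

end Pool.QN
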