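import Pool.Agent.Helper9.QN.Mx2
import Pool.Agent.Helper9.QP.X2

set_option autoImplicit false
set_option maxHeartbeats 1000000

namespace Pool.QN

open scoped Quaternion
open Matrix

variable {V : Type} [AddCommGroup V] [Module Q V] [Module ℝ V] [IsScalarTower ℝ Q V]

section

theorem entry_form {n : ℕ} {ι : Type} (C : Mat n) (S : Matrix (Fin n) ι ℍ[ℝ])
    (i j : ι) : (Sᴴ * C * S) i j = star (colv S i) ⬝ᵥ C *ᵥ (colv S j) := by
  rw [Matrix.mul_assoc, Matrix.mul_apply]
  unfold dotProduct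
  apply Finset.sum_congr rfl
  intro l _
  rw [Matrix.conjTranspose_apply, Matrix.mul_apply]
  rfl
end

section

theorem re_entry {n : ℕ} (C : Mat n) (u v : Fin n → ℍ[ℝ]) (c : ℝ) :
    (∀ q : Q, fm C u (q • v) = q.unop.re * c) ↔ star u ⬝ᵥ C *ᵥ v = (c : ℍ[ℝ]) := by
  have hform : ∀ q : Q, fm C u (q • v) = ((star u ⬝ᵥ C *ᵥ v) * q.unop).re := by
    intro q
    have e := form_smul C u v 1 q
    rw [one_smul, MulOpposite.unop_one, star_one, one_mul] at e
    rw [fm_apply, e]
  have hcoe : ∀ q : ℍ[ℝ], ((c : ℍ[ℝ]) * q).re = q.re * c := by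
    intro q
    rw [Quaternion.re_mul]
    simp
    ring
  set h := star u ⬝ᵥ C *ᵥ v with hh
  constructor
  · intro H
    have h1 := H (MulOpposite.op (star (h - (c : ℍ[ℝ]))))
    rw [hform, MulOpposite.unop_op, ← hcoe, ← sub_eq_zero, ← Quaternion.re_sub, ← sub_mul,
      Quaternion.self_mul_star] at h1
    exact sub_eq_zero.1 (Quaternion.normSq_eq_zero.1 h1)
  · intro H q
    rw [hform, H, hcoe]
end

section

theorem inv_of_basis {n : ℕ} {ι : Type} [Fintype ι] [DecidableEq ι]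
    (S : Matrix (Fin n) ι ℍ[ℝ]) (h1 : LinearIndependent Q (colv S))
    (h2 : Submodule.span Q (Set.range (colv S)) = ⊤) :
    ∃ T : Matrix ι (Fin n) ℍ[ℝ], S * T = 1 ∧ T * S = 1 := by
  have hex : ∀ j : Fin n, ∃ c : ι → Q, ∑ i, c i • colv S i = (Pi.single j (1 : ℍ[ℝ]) : Fin n → ℍ[ℝ]) := by
    intro j
    apply (Submodule.mem_span_range_iff_exists_fun Q).1
    rw [h2]
    trivial
  choose c hc using hex
  have hST : S * (Matrix.of fun i j => (c j i).unop : Matrix ι (Fin n) ℍ[ℝ]) = 1 := by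
    ext1 a j
    have h := congrFun (hc j) a
    rw [Finset.sum_apply] at h
    rw [Matrix.mul_apply]
    simp only [Pi.smul_apply, MulOpposite.smul_eq_mul_unop, colv] at h
    simp only [Matrix.of_apply]
    rw [h, Matrix.one_apply, Pi.single_apply]
  refine ⟨Matrix.of fun i j => (c j i).unop, hST, ?_⟩
  have hinj : ∀ M : Matrix ι ι ℍ[ℝ], S * M = 0 → M = 0 := by
    intro M hM
    ext1 i k
    have hz : ∑ i, (MulOpposite.op (M i k) : Q) • colv S i = 0 := by
      funext a
      rw [Finset.sum_apply]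
      have h := congrFun (congrFun hM a) k
      rw [Matrix.mul_apply] at h
      simp only [Pi.smul_apply, MulOpposite.smul_eq_mul_unop, colv, MulOpposite.unop_op]
      exact h
    have h3 := Fintype.linearIndependent_iff.1 h1 _ hz i
    have h4 := congrArg MulOpposite.unop h3
    simpa using h4
  have h5 := hinj ((Matrix.of fun i j => (c j i).unop : Matrix ι (Fin n) ℍ[ℝ]) * S - 1) (by
    rw [Matrix.mul_sub, ← Matrix.mul_assoc, hST, Matrix.one_mul, Matrix.mul_one, sub_self])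
  exact sub_eq_zero.1 h5
end

section

theorem basis_comb {n : ℕ} {ι : Type} [Fintype ι] [DecidableEq ι]
    (S : Matrix (Fin n) ι ℍ[ℝ]) (x : ι → ℍ[ℝ]) :
    ∑ j, MulOpposite.op (x j) • colv S j = S.mulVec x := by
  funext i
  rw [Finset.sum_apply]
  refine Finset.sum_congr rfl fun j _ => ?_
  rw [Pi.smul_apply, MulOpposite.smul_eq_mul_unop, MulOpposite.unop_op]
  rfl

theorem basis_of_inv {n : ℕ} {ι : Type} [Fintype ι] [DecidableEq ι]
    (S : Matrix (Fin n) ι ℍ[ℝ]) (T : Matrix ι (Fin n) ℍ[ℝ]) (h1 : S * T = 1) (h2 : T * S = 1) :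
    LinearIndependent Q (colv S) ∧ Submodule.span Q (Set.range (colv S)) = ⊤ := by
  constructor
  · rw [Fintype.linearIndependent_iff]
    intro g hg j
    have e1 : ∑ j, g j • colv S j = S.mulVec (fun j => (g j).unop) := by
      rw [← basis_comb]
      refine Finset.sum_congr rfl fun j _ => ?_
      rw [MulOpposite.op_unop]
    rw [e1] at hg
    have e2 : T.mulVec (S.mulVec (fun j => (g j).unop)) = fun j => (g j).unop := by
      rw [Matrix.mulVec_mulVec, h2, Matrix.one_mulVec]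
    rw [hg, Matrix.mulVec_zero] at e2
    have e3 := congrFun e2 j
    have e4 : (g j).unop = 0 := e3.symm
    rw [← MulOpposite.op_unop (g j), e4, MulOpposite.op_zero]
  · rw [Submodule.eq_top_iff']
    intro y
    have e1 : S.mulVec (T.mulVec y) = y := by
      rw [Matrix.mulVec_mulVec, h1, Matrix.one_mulVec]
    rw [← e1, ← basis_comb]
    exact Submodule.sum_mem _ fun j _ => Submodule.smul_mem _ _
      (Submodule.subset_span (Set.mem_range_self j))
end

section

theorem canonM_aux {n : ℕ} (A B : Mat n) (hA : A.IsHermitian) (hB : B.IsHermitian)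
    (μ ν : ℝ) (k : ℕ) (ι : Type) (w : Fin k → (Fin n → ℍ[ℝ])) (v : ι → (Fin n → ℍ[ℝ]))
    (hw : ∀ a y, fm A (w a) y = 0 ∧ fm B (w a) y = 0) (M : Matrix ι ι ℝ)
    (h : ∀ i j, ∀ q : Q, (μ • fm A + ν • fm B) (v i) (q • v j) = q.unop.re * M i j)
    (S : Matrix (Fin n) (Fin k ⊕ ι) ℍ[ℝ]) (hS1 : ∀ a, colv S (Sum.inl a) = w a)
    (hS2 : ∀ a, colv S (Sum.inr a) = v a) :
    Sᴴ * (μ • A + ν • B) * S = Matrix.fromBlocks 0 0 0 (M.map fun x : ℝ => (x : ℍ[ℝ])) := by
  have hC := isHerm_comb hA hB μ ν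
  have z1 : ∀ a y, fm (μ • A + ν • B) (w a) y = 0 := by
    intro a y
    rw [fm_comb]
    simp only [LinearMap.add_apply, LinearMap.smul_apply, (hw a y).1, (hw a y).2, smul_zero, add_zero]
  have z2 : ∀ a y, fm (μ • A + ν • B) y (w a) = 0 := by
    intro a y
    rw [fm_symm hC, z1]
  have z3 : ∀ a (q : Q) y, fm (μ • A + ν • B) y (q • w a) = 0 := by
    intro a q y
    have := (isF_fm hC).adj (star q) y (w a)
    rw [star_star] at this
    rw [← this, z2]
  apply Matrix.ext
  intro i j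
  rw [entry_form]
  rcases i with i | i <;> rcases j with j | j
  · rw [hS1, hS1, Matrix.fromBlocks_apply₁₁, Matrix.zero_apply]
    have := (re_entry (μ • A + ν • B) (w i) (w j) 0).1 (fun q => by rw [z1, mul_zero])
    rw [this, Quaternion.coe_zero]
  · rw [hS1, hS2, Matrix.fromBlocks_apply₁₂, Matrix.zero_apply]
    have := (re_entry (μ • A + ν • B) (w i) (v j) 0).1 (fun q => by rw [z1, mul_zero])
    rw [this, Quaternion.coe_zero]
  · rw [hS2, hS1, Matrix.fromBlocks_apply₂₁, Matrix.zero_apply]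
    have := (re_entry (μ • A + ν • B) (v i) (w j) 0).1 (fun q => by rw [z3, mul_zero])
    rw [this, Quaternion.coe_zero]
  · rw [hS2, hS2, Matrix.fromBlocks_apply₂₂, Matrix.map_apply]
    exact (re_entry (μ • A + ν • B) (v i) (v j) (M i j)).1 (fun q => by rw [fm_comb]; exact h i j q)

theorem canonM_of {n : ℕ} (A B : Mat n) (hA : A.IsHermitian) (hB : B.IsHermitian)
    (μ ν ρ τ : ℝ) (hd : μ * τ - ν * ρ ≠ 0) (L : List Piece) (W : RSub n)
    (hW : RadCompl (fm A) (fm B) W)
    (h : CanB (μ • fm A + ν • fm B) (ρ • fm A + τ • fm B) W L) :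
    ∃ (k : ℕ) (S : Matrix (Fin n) (Fin k ⊕ Ix L) ℍ[ℝ]) (T : Matrix (Fin k ⊕ Ix L) (Fin n) ℍ[ℝ]),
      S * T = 1 ∧ T * S = 1 ∧
      Sᴴ * (μ • A + ν • B) * S = Matrix.fromBlocks 0 0 0 ((cM L).map fun x : ℝ => (x : ℍ[ℝ])) ∧
      Sᴴ * (ρ • A + τ • B) * S = Matrix.fromBlocks 0 0 0 ((dM L).map fun x : ℝ => (x : ℍ[ℝ])) := by
  classical
  haveI := finite_right
  haveI : Module.Finite Q (Fin n → ℍ[ℝ]) := Module.Finite.pi
  obtain ⟨v, hv1, hv2, hv3⟩ := h
  let K : Submodule Q (Fin n → ℍ[ℝ]) :=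
    { carrier := {x | ∀ y, fm A x y = 0 ∧ fm B x y = 0}
      add_mem' := by
        intro a b ha hb y
        simp only [map_add, LinearMap.add_apply]
        rw [(ha y).1, (ha y).2, (hb y).1, (hb y).2]
        simp
      zero_mem' := by
        intro y
        simp
      smul_mem' := by
        intro q x hx y
        rw [(isF_fm hA).adj, (isF_fm hB).adj]
        exact hx _ }
  have hKm : ∀ x, x ∈ K ↔ ∀ y, fm A x y = 0 ∧ fm B x y = 0 := fun x => Iff.rfl
  let u := Module.finBasis Q K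
  let w : Fin (Module.finrank Q K) → (Fin n → ℍ[ℝ]) := fun a => (u a : Fin n → ℍ[ℝ])
  let S : Matrix (Fin n) (Fin (Module.finrank Q K) ⊕ Ix L) ℍ[ℝ] := fun i j => Sum.elim w v j i
  have hcol : colv S = Sum.elim w v := rfl
  have hw1 : LinearIndependent Q w := u.linearIndependent.map' K.subtype (Submodule.ker_subtype K)
  have hw2 : Submodule.span Q (Set.range w) = K := by
    have h1 : Set.range w = K.subtype '' (Set.range u) := by
      rw [← Set.range_comp]
      rfl
    rw [h1, Submodule.span_image, u.span_eq, Submodule.map_top, Submodule.range_subtype]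
  have hdis : Disjoint K W := by
    rw [Submodule.disjoint_def]
    intro x hx1 hx2
    exact hW.1 x hx2 (fun y => (hx1 y).1) (fun y => (hx1 y).2)
  have h1 : LinearIndependent Q (colv S) := by
    rw [hcol]
    apply LinearIndependent.sum_type hw1 hv1
    rw [hw2, hv2]
    exact hdis
  have h2 : Submodule.span Q (Set.range (colv S)) = ⊤ := by
    rw [hcol, Set.Sum.elim_range, Submodule.span_union, hw2, hv2, eq_top_iff]
    intro x _
    obtain ⟨y, hy, hxy⟩ := hW.2 x
    rw [Submodule.mem_sup]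
    exact ⟨x - y, hxy, y, hy, sub_add_cancel x y⟩
  obtain ⟨T, hT1, hT2⟩ := inv_of_basis S h1 h2
  refine ⟨Module.finrank Q K, S, T, hT1, ?_, ?_, ?_⟩
  · convert hT2
  · exact canonM_aux A B hA hB μ ν _ _ w v (fun a y => (u a).2 y) (cM L)
      (fun i j q => (hv3 i j q).1) S (fun _ => rfl) (fun _ => rfl)
  · exact canonM_aux A B hA hB ρ τ _ _ w v (fun a y => (u a).2 y) (dM L)
      (fun i j q => (hv3 i j q).2) S (fun _ => rfl) (fun _ => rfl)
end

section

theorem canonM_to_row {n : ℕ} {ι : Type} (C : Mat n) (S : Matrix (Fin n) ι ℍ[ℝ]) (a : ι)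
    (hspan : Submodule.span Q (Set.range (colv S)) = ⊤)
    (h : ∀ j, (Sᴴ * C * S) a j = 0) (y : Fin n → ℍ[ℝ]) : fm C (colv S a) y = 0 := by
  have hy : y ∈ Submodule.span Q (Set.range (colv S)) := by rw [hspan]; exact Submodule.mem_top
  have key : star (colv S a) ⬝ᵥ C *ᵥ y = 0 := by
    refine Submodule.span_induction (p := fun y _ => star (colv S a) ⬝ᵥ C *ᵥ y = 0)
      ?_ ?_ ?_ ?_ hy
    · rintro _ ⟨j, rfl⟩
      rw [← entry_form]
      exact h j
    · rw [mulVec_zero, dotProduct_zero]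
    · intro x y _ _ hx hy
      rw [mulVec_add, dotProduct_add, hx, hy, add_zero]
    · intro q x _ hx
      have e := form_smul C (colv S a) x 1 q
      rw [one_smul] at e
      rw [e, hx, mul_zero, zero_mul]
  rw [fm_apply, key]
  rfl

theorem canonM_to {n : ℕ} (A B : Mat n) (hA : A.IsHermitian) (hB : B.IsHermitian)
    (μ ν ρ τ : ℝ) (hd : μ * τ - ν * ρ ≠ 0) (L : List Piece) (k : ℕ)
    (S : Matrix (Fin n) (Fin k ⊕ Ix L) ℍ[ℝ]) (T : Matrix (Fin k ⊕ Ix L) (Fin n) ℍ[ℝ])
    (h1 : S * T = 1) (h2 : T * S = 1)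
    (h3 : Sᴴ * (μ • A + ν • B) * S = Matrix.fromBlocks 0 0 0 ((cM L).map fun x : ℝ => (x : ℍ[ℝ])))
    (h4 : Sᴴ * (ρ • A + τ • B) * S = Matrix.fromBlocks 0 0 0 ((dM L).map fun x : ℝ => (x : ℍ[ℝ]))) :
    ∃ W : RSub n, RadCompl (fm A) (fm B) W ∧
      CanB (μ • fm A + ν • fm B) (ρ • fm A + τ • fm B) W L := by
  obtain ⟨hli, hspan⟩ := basis_of_inv S T h1 h2
  have hcan : CanB (μ • fm A + ν • fm B) (ρ • fm A + τ • fm B)
      (Submodule.span Q (Set.range (fun j : Ix L => colv S (Sum.inr j)))) L := by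
    refine ⟨fun j => colv S (Sum.inr j), hli.comp Sum.inr Sum.inr_injective, rfl, ?_⟩
    intro i j q
    rw [← fm_comb, ← fm_comb]
    constructor
    · refine (re_entry _ _ _ _).mpr ?_ q
      rw [← entry_form, h3]
      rfl
    · refine (re_entry _ _ _ _).mpr ?_ q
      rw [← entry_form, h4]
      rfl
  refine ⟨_, ⟨?_, ?_⟩, hcan⟩
  · intro x hx hax hbx
    have hF : IsF (μ • fm A + ν • fm B) := by
      rw [← fm_comb]
      exact isF_fm (isHerm_comb hA hB μ ν)
    haveI : Module.Finite Q ℍ[ℝ] := finite_right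
    refine canB_nd hF L _ hcan x hx (fun y _ => ?_)
    show μ * fm A x y + ν * fm B x y = 0
    rw [hax y, hbx y, mul_zero, mul_zero, add_zero]
  · have hinl : ∀ (a : Fin k) (y : Fin n → ℍ[ℝ]), fm A (colv S (Sum.inl a)) y = 0 ∧
        fm B (colv S (Sum.inl a)) y = 0 := by
      intro a y
      have hc := canonM_to_row (μ • A + ν • B) S (Sum.inl a) hspan (by
        rw [h3]
        rintro (j | j)
        · rfl
        · rfl) y
      have hdd := canonM_to_row (ρ • A + τ • B) S (Sum.inl a) hspan (by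
        rw [h4]
        rintro (j | j)
        · rfl
        · rfl) y
      rw [fm_comb] at hc hdd
      have hc' : μ * fm A (colv S (Sum.inl a)) y + ν * fm B (colv S (Sum.inl a)) y = 0 := hc
      have hd' : ρ * fm A (colv S (Sum.inl a)) y + τ * fm B (colv S (Sum.inl a)) y = 0 := hdd
      generalize fm A (colv S (Sum.inl a)) y = α at hc' hd' ⊢
      generalize fm B (colv S (Sum.inl a)) y = β at hc' hd' ⊢
      have e1 : (μ * τ - ν * ρ) * α = 0 := by linear_combination τ * hc' - ν * hd'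
      have e2 : (μ * τ - ν * ρ) * β = 0 := by linear_combination μ * hd' - ρ * hc'
      exact ⟨(mul_eq_zero.mp e1).resolve_left hd, (mul_eq_zero.mp e2).resolve_left hd⟩
    intro x
    have hx : x ∈ Submodule.span Q (Set.range (colv S)) := by rw [hspan]; exact Submodule.mem_top
    refine Submodule.span_induction (p := fun x _ => ∃ w ∈ Submodule.span Q
      (Set.range (fun j : Ix L => colv S (Sum.inr j))), ∀ y, fm A (x - w) y = 0 ∧
        fm B (x - w) y = 0) ?_ ?_ ?_ ?_ hx
    · rintro _ ⟨j | j, rfl⟩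
      · refine ⟨0, Submodule.zero_mem _, fun y => ?_⟩
        rw [sub_zero]
        exact hinl j y
      · refine ⟨colv S (Sum.inr j), Submodule.subset_span ⟨j, rfl⟩, fun y => ?_⟩
        rw [sub_self, map_zero, map_zero]
        exact ⟨rfl, rfl⟩
    · refine ⟨0, Submodule.zero_mem _, fun y => ?_⟩
      rw [sub_self, map_zero, map_zero]
      exact ⟨rfl, rfl⟩
    · rintro x x' _ _ ⟨w, hw, hwy⟩ ⟨w', hw', hwy'⟩
      refine ⟨w + w', Submodule.add_mem _ hw hw', fun y => ?_⟩
      have e : x + x' - (w + w') = (x - w) + (x' - w') := by abel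
      rw [e, map_add, map_add, LinearMap.add_apply, LinearMap.add_apply, (hwy y).1, (hwy y).2,
        (hwy' y).1, (hwy' y).2]
      exact ⟨add_zero _, add_zero _⟩
    · rintro q x _ ⟨w, hw, hwy⟩
      refine ⟨q • w, Submodule.smul_mem _ _ hw, fun y => ?_⟩
      rw [← smul_sub, (isF_fm hA).adj, (isF_fm hB).adj]
      exact hwy _
end

end Pool.QN
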